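import Mathlib

/-! Quotients of cones over smooth Fano complete intersections by finite groups. -/

namespace Pool.Agent.Lib.MP_954e53_ag

open MvPolynomial

/-- `S` is the ring of invariants of a finite group of automorphisms of `R = k[x_i] / (F_l)`, where
the `F_l` are `c` octic forms in more than `8 c` variables whose gradients are linearly independent
at every common zero other than the origin. -/
def ConeQuotient (k S : Type*) [Field k] [CommRing S] [Algebra k S] : Prop :=
  ∃ (ι : Type) (_ : Fintype ι) (c : ℕ) (F : Fin c → MvPolynomial ι k),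
    8 * c < Fintype.card ι ∧ (∀ l, (F l).IsHomogeneous 8) ∧
    (∀ y : ι → k, y ≠ 0 → (∀ l, eval y (F l) = 0) →
      LinearIndependent k fun l j => eval y (pderiv j (F l))) ∧
    ∃ (G : Subgroup ((MvPolynomial ι k ⧸ Ideal.span (Set.range F)) ≃ₐ[k]
        (MvPolynomial ι k ⧸ Ideal.span (Set.range F))))
      (φ : S →ₐ[k] MvPolynomial ι k ⧸ Ideal.span (Set.range F)),
      Finite G ∧ Function.Injective φ ∧ ∀ r, (∃ s, φ s = r) ↔ ∀ g ∈ G, g r = r

end Pool.Agent.Lib.MP_954e53_ag
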