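import Pool.Agent.Lib.MP_954e53_ag.GenMain
import Pool.Agent.Lib.MP_954e53_ag.H89ConeDef

/-! The counterexample is the quotient of a cone over a smooth Fano complete intersection. -/

namespace Pool.Agent.Lib.MP_954e53_ag.Gen

open MvPolynomial

universe u

section

variable {𝕜 : Type u} [Field 𝕜] [IsAlgClosed 𝕜] [CharZero 𝕜] {c d : ℕ} {G : Type} [Group G]
  {ρ : G →* Matrix (Fin c ⊕ Fin d) (Fin c ⊕ Fin d) 𝕜}
  {F : Fin c ⊕ Fin d → MvPolynomial (Fin c ⊕ Fin d) 𝕜}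

/-- The endomorphism of the cone induced by a group element. -/
noncomputable def coneHom (hF : CIData ρ F) (g : G) : CI F →ₐ[𝕜] CI F :=
  Ideal.quotientMapₐ (eqIdeal F) (act (ρ g)) fun _ hf =>
    act_mem_span _ (by rintro _ ⟨l, rfl⟩; exact hF.inv g _) hf

lemma coneHom_mk (hF : CIData ρ F) (g : G) (f : MvPolynomial (Fin c ⊕ Fin d) 𝕜) :
    coneHom hF g (Ideal.Quotient.mk _ f) = Ideal.Quotient.mk _ (act (ρ g) f) := rfl

lemma coneHom_comp (hF : CIData ρ F) (g h : G) (r : CI F) :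
    coneHom hF g (coneHom hF h r) = coneHom hF (h * g) r := by
  obtain ⟨f, rfl⟩ := Ideal.Quotient.mk_surjective r
  rw [coneHom_mk, coneHom_mk, coneHom_mk, act_act, map_mul]

lemma coneHom_one (hF : CIData ρ F) (r : CI F) : coneHom hF 1 r = r := by
  obtain ⟨f, rfl⟩ := Ideal.Quotient.mk_surjective r
  rw [coneHom_mk, map_one, act_one]

/-- The automorphism of the cone induced by a group element. -/
noncomputable def coneAut (hF : CIData ρ F) (g : G) : CI F ≃ₐ[𝕜] CI F :=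
  AlgEquiv.ofAlgHom (coneHom hF g) (coneHom hF g⁻¹)
    (AlgHom.ext fun r => by
      rw [AlgHom.comp_apply, coneHom_comp, inv_mul_cancel, coneHom_one, AlgHom.id_apply])
    (AlgHom.ext fun r => by
      rw [AlgHom.comp_apply, coneHom_comp, mul_inv_cancel, coneHom_one, AlgHom.id_apply])

lemma coneAut_apply (hF : CIData ρ F) (g : G) (r : CI F) : coneAut hF g r = coneHom hF g r := rfl

/-- The group of automorphisms of the cone. -/
noncomputable def coneGroup (hF : CIData ρ F) : Subgroup (CI F ≃ₐ[𝕜] CI F) where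
  carrier := Set.range (coneAut hF)
  one_mem' := ⟨1, AlgEquiv.ext fun r => coneHom_one hF r⟩
  mul_mem' := by
    rintro _ _ ⟨g, rfl⟩ ⟨h, rfl⟩
    exact ⟨h * g, AlgEquiv.ext fun r => (coneHom_comp hF g h r).symm⟩
  inv_mem' := by
    rintro _ ⟨g, rfl⟩
    exact ⟨g⁻¹, AlgEquiv.ext fun r => rfl⟩

theorem coneQuotient [Finite G] (h : GroupData ρ c) (hF : CIData ρ F) :
    ConeQuotient 𝕜 (invRing ρ F) := by
  refine ⟨Fin c ⊕ Fin d, inferInstance, c, fun l => F (.inl l), h.fano, fun l => hF.hom _,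
    fun y hy h0 => ?_, coneGroup hF, (invRing ρ F).val, (Set.finite_range _).to_subtype,
    Subtype.val_injective, fun r => ⟨?_, fun hr => ?_⟩⟩
  · refine Fintype.linearIndependent_iff.2 fun a ha l => ?_
    obtain ⟨v, hv⟩ := hF.smooth y hy h0 (Pi.single l 1)
    have h1 : ∑ m, a m * (Pi.single l 1 : Fin c → 𝕜) m = a l := by
      simp [Pi.single_apply]
    have h2 : ∀ j, ∑ m, a m * eval y (pderiv j (F (.inl m))) = 0 := fun j => by
      simpa using congrFun ha j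
    rw [← h1, ← hv]
    simp only [Matrix.mulVec, dotProduct, Matrix.of_apply, Finset.mul_sum, ← mul_assoc]
    rw [Finset.sum_comm]
    simp only [← Finset.sum_mul, h2, zero_mul, Finset.sum_const_zero]
  · rintro ⟨⟨_, f, hf, rfl⟩, rfl⟩ _ ⟨g, rfl⟩
    exact congrArg (Ideal.Quotient.mk _) (mem_invAlg.1 hf g)
  · obtain ⟨f, rfl⟩ := Ideal.Quotient.mk_surjective r
    refine ⟨⟨_, rey ρ f, rey_mem_invAlg f, rfl⟩, ?_⟩
    exact Ideal.Quotient.eq.2 (rey_sub_mem fun g => Ideal.Quotient.eq.1 (hr _ ⟨g, rfl⟩))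

end

/-- The group of automorphisms of the cone inherits the exponent of the acting group. -/
theorem coneGroup_pow {𝕜 : Type u} [Field 𝕜] [IsAlgClosed 𝕜] [CharZero 𝕜] {c d : ℕ} {G : Type}
    [Group G] {ρ : G →* Matrix (Fin c ⊕ Fin d) (Fin c ⊕ Fin d) 𝕜}
    {F : Fin c ⊕ Fin d → MvPolynomial (Fin c ⊕ Fin d) 𝕜} (hF : CIData ρ F)
    (hG : ∀ g : G, g ^ 8 = 1) : IsPGroup 2 (coneGroup hF) := by
  rintro ⟨_, g, rfl⟩
  have h1 : ∀ n : ℕ, coneAut hF g ^ n = coneAut hF (g ^ n) := fun n => by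
    induction n with
    | zero => exact AlgEquiv.ext fun r => by rw [pow_zero, pow_zero]; exact (coneHom_one hF r).symm
    | succ n ih =>
      rw [pow_succ, ih, pow_succ']
      exact AlgEquiv.ext fun r => coneHom_comp hF _ _ r
  refine ⟨3, Subtype.ext ?_⟩
  change coneAut hF g ^ 8 = 1
  rw [h1, hG]
  exact AlgEquiv.ext fun r => coneHom_one hF r

lemma grp_pow_eight {u : ℕ} (g : grp u) : g ^ 8 = 1 := by
  have h8 : ∀ {κ : Type} (a : Multiplicative (κ → ZMod 8)), a ^ 8 = 1 := fun a => by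
    refine Multiplicative.toAdd.injective (funext fun i => ?_)
    have h : ∀ x : ZMod 8, 8 • x = 0 := by decide
    exact h _
  exact Subtype.ext (Prod.ext (funext fun τ => (g.2 τ).1.pow_eight) (Prod.ext (h8 _) (h8 _)))

variable (𝕜 : Type u) [Field 𝕜] [IsAlgClosed 𝕜] [CharZero 𝕜]

lemma exists_data_aux {u : ℕ} (hu : u = 17) : ∃ (c d : ℕ) (G : Type) (_ : Group G) (_ : Finite G)
    (ρ : G →* Matrix (Fin c ⊕ Fin d) (Fin c ⊕ Fin d) 𝕜)
    (F : Fin c ⊕ Fin d → MvPolynomial (Fin c ⊕ Fin d) 𝕜),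
    2 ≤ d ∧ (∀ g : G, g ^ 8 = 1) ∧ GroupData ρ c ∧ CIData ρ F := by
  obtain ⟨φ, hφ⟩ := exists_rep hu
  have hpos : 0 < 2 ^ u := Nat.two_pow_pos u
  obtain ⟨ρ, h⟩ := hφ.reindex (ι' := Fin (2 ^ u - 1) ⊕ Fin (7 * 2 ^ u + 1))
    (Fintype.equivOfCardEq (by
      rw [Fintype.card_prod, Fintype.card_prod, Fintype.card_fun, Fintype.card_sum,
        Fintype.card_bool, Fintype.card_fin, Fintype.card_fin, Fintype.card_fin, Fintype.card_fin]
      omega))
  obtain ⟨F, hF⟩ := exists_ciData h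
  obtain ⟨g, hg⟩ := h.scalar
  obtain ⟨ρ', F', h'⟩ := transfer 𝕜 (ρ := ρ) (F := F)
    ⟨⟨g, _, Complex.isPrimitiveRoot_I, hg⟩, h.quartic, h.det, h.fano⟩
    ⟨⟨hF.hom, hF.hsop, hF.smooth⟩, hF.inv, hF.stab⟩
  exact ⟨_, _, grp u, inferInstance, inferInstance, ρ', F', by omega, grp_pow_eight, h'⟩

/-- The data of the counterexample, with a group of exponent eight. -/
theorem exists_data_two : ∃ (c d : ℕ) (G : Type) (_ : Group G) (_ : Finite G)
    (ρ : G →* Matrix (Fin c ⊕ Fin d) (Fin c ⊕ Fin d) 𝕜)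
    (F : Fin c ⊕ Fin d → MvPolynomial (Fin c ⊕ Fin d) 𝕜),
    2 ≤ d ∧ (∀ g : G, g ^ 8 = 1) ∧ GroupData ρ c ∧ CIData ρ F :=
  exists_data_aux 𝕜 rfl

/-- All properties of the ring of invariants, for any admissible data. -/
theorem inv_properties {c d : ℕ} {G : Type} [Group G] [Finite G]
    {ρ : G →* Matrix (Fin c ⊕ Fin d) (Fin c ⊕ Fin d) 𝕜}
    {F : Fin c ⊕ Fin d → MvPolynomial (Fin c ⊕ Fin d) 𝕜} (hd : 2 ≤ d) (h : GroupData ρ c)
    (hF : CIData ρ F) : ∃ (_ : IsDomain (CI F)) (_ : GradedAlgebra (invGr ρ F)) (r : ℕ),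
    IsSectionRing (invGr ρ F) ∧ (∀ y ∈ invGr ρ F 0, ∃ a : 𝕜, algebraMap 𝕜 _ a = y) ∧ 1 ≤ r ∧
      GorensteinOfIndex (invGr ρ F) d r ∧ IsIntegrallyClosed (invRing ρ F) ∧
      FormsExtend 𝕜 (invRing ρ F) d ∧ ConeQuotient 𝕜 (invRing ρ F) ∧
      (∀ y ∈ invGr ρ F 1, y = 0) ∧ ∃ N₀, ∀ N, N₀ ≤ N →
        core (truncIdeal (invGr ρ F) N) ≠ gradedCore (invGr ρ F) (truncIdeal (invGr ρ F) N) := by
  have hp := hF.toOctics.params
  have := hF.toOctics.isDomain hp hd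
  have := hF.toOctics.isIntegrallyClosed hp hd
  obtain ⟨_⟩ := invGraded h hF
  obtain ⟨n, hgen⟩ := inv_generatedBy h hF hp
  obtain ⟨r, hr, hG⟩ := inv_gorenstein h hF hp
  have hfree := inv_free hF hp
  have := inv_normal hF
  have := inv_finite hF hp
  refine ⟨inferInstance, inferInstance, r, isSectionRing_of hgen hfree hG hd,
    fun _ => invGr_zero, hr, hG, inferInstance, ?_, coneQuotient h hF, inv_one h,
    core_ne hgen hfree hG hd (inv_one h)⟩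
  refine formsExtend_of_ci (R := CI F) hF.toOctics (by simpa using h.fano)
    (fun i => Ideal.Quotient.mk _ (X i)) ?_ (fun l => ?_) (ci_trdeg hp)
  · have h1 := congrArg (Subalgebra.map (Ideal.Quotient.mkₐ 𝕜 (eqIdeal F)))
      (MvPolynomial.adjoin_range_X (R := 𝕜) (σ := Fin c ⊕ Fin d))
    rw [AlgHom.map_adjoin, Algebra.map_top, ← Set.range_comp,
      (AlgHom.range_eq_top _).2 (Ideal.Quotient.mkₐ_surjective 𝕜 _)] at h1
    exact h1
  · have h1 : aeval (fun i => Ideal.Quotient.mk (eqIdeal F) (X i)) =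
        Ideal.Quotient.mkₐ 𝕜 (eqIdeal F) := MvPolynomial.algHom_ext fun i => aeval_X _ _
    rw [h1]
    exact Ideal.Quotient.eq_zero_iff_mem.2 (Ideal.subset_span ⟨l, rfl⟩)

theorem counterexample_cone : ∃ (S : Type u) (_ : CommRing S) (_ : IsDomain S) (_ : Algebra 𝕜 S)
    (𝒜 : ℕ → Submodule 𝕜 S) (_ : GradedAlgebra 𝒜) (d r : ℕ),
    IsSectionRing 𝒜 ∧ (∀ y ∈ 𝒜 0, ∃ a : 𝕜, algebraMap 𝕜 S a = y) ∧ 2 ≤ d ∧ 1 ≤ r ∧
      GorensteinOfIndex 𝒜 d r ∧ IsIntegrallyClosed S ∧ FormsExtend 𝕜 S d ∧ ConeQuotient 𝕜 S ∧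
      (∀ y ∈ 𝒜 1, y = 0) ∧
      ∃ N₀, ∀ N, N₀ ≤ N → core (truncIdeal 𝒜 N) ≠ gradedCore 𝒜 (truncIdeal 𝒜 N) := by
  obtain ⟨c, d, G, _, _, ρ, F, hd, h, hF⟩ := exists_data 𝕜
  obtain ⟨_, _, r, h1, h2, h3, h4, h5, h6, h7, h8, h9⟩ := inv_properties 𝕜 hd h hF
  exact ⟨invRing ρ F, inferInstance, inferInstance, inferInstance, invGr ρ F, inferInstance, d, r,
    h1, h2, hd, h3, h4, h5, h6, h7, h8, h9⟩

end Pool.Agent.Lib.MP_954e53_ag.Gen
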