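import Pool.Agent.Lib.MP_954e53_ag.NumTree

/-! Certificates in codimension 19, dimensions 1 to 14. -/

namespace Pool.Agent.Lib.MP_954e53_ag

theorem ok19_1 : okD (2 ^ 640) (2 ^ 319) 19 1 []
    [(true, [0, 1])]
    [] = true := by
  decide +kernel

theorem ok19_2 : okD (2 ^ 640) (2 ^ 319) 19 2 []
    [(true, [0, 1]), (true, [0, 1])]
    [] = true := by
  decide +kernel

theorem ok19_3 : okD (2 ^ 640) (2 ^ 319) 19 3 []
    [(false, [0, 1, 2]), (true, [0, 1]), (true, [0, 1])]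
    [] = true := by
  decide +kernel

theorem ok19_4 : okD (2 ^ 640) (2 ^ 319) 19 4 []
    [(false, [0, 1, 2]), (false, [0, 1, 2]), (true, [0, 1]), (true, [0, 1])]
    [] = true := by
  decide +kernel

theorem ok19_5 : okD (2 ^ 640) (2 ^ 319) 19 5 [1]
    [(true, []), (false, [0, 1, 2]), (false, [0, 1, 2]), (true, [0, 1]), (true, [0, 1])]
    [[(1, (true, [0, 1, 2, 5]), [])], [(1, (true, [0, 1, 2, 4]), [])], [(1, (true, [0, 1, 2, 4]),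
    [])], [(1, (true, [0, 1, 2, 4]), [])], [(1, (true, [0, 1, 2, 4]), [])], [(1, (true, [0, 1, 2,
    4]), [])], [(1, (true, [0, 1, 2, 4]), [])], [(1, (true, [0, 1, 2, 4]), [])], [(1, (true, [0, 1,
    2, 4]), [])], [(1, (true, [0, 1, 2, 4]), [])], [(1, (true, [0, 1, 2, 4]), [])], [(1, (true, [0,
    1, 2, 4]), [])], [(1, (true, [0, 1, 2, 4]), [])], [(1, (true, [0, 1, 2, 4]), [])], [(1, (true,
    [0, 1, 2, 4]), [])], [(1, (true, [0, 1, 2, 4]), [])], [(1, (true, [0, 1, 2, 4]), [])], [(1,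
    (true, [0, 1, 2, 4]), [])], [(1, (true, [0, 1, 2, 4]), [])], [(1, (true, [0, 1, 2, 4]), [])]] = true := by
  decide +kernel

theorem ok19_6 : okD (2 ^ 640) (2 ^ 319) 19 6 [2]
    [(true, [0, 1, 2, 5]), (true, []), (false, [0, 1, 2]), (false, [0, 1, 2]), (true, [0, 1]),
    (true, [0, 1])]
    [[(2, (true, [0, 1, 2, 4]), [])], [(2, (true, [0, 1, 2, 4]), [])], [(2, (true, [0, 1, 2, 4]),
    [])], [(2, (true, [0, 1, 2, 4]), [])], [(2, (true, [0, 1, 2, 4]), [])], [(2, (true, [0, 1, 2,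
    4]), [])], [(2, (true, [0, 1, 2, 4]), [])], [(2, (true, [0, 1, 2, 4]), [])], [(2, (true, [0, 1,
    2, 4]), [])], [(2, (true, [0, 1, 2, 4]), [])], [(2, (true, [0, 1, 2, 4]), [])], [(2, (true, [0,
    1, 2, 4]), [])], [(2, (true, [0, 1, 2, 4]), [])], [(2, (true, [0, 1, 2, 4]), [])], [(2, (true,
    [0, 1, 2, 4]), [])], [(2, (true, [0, 1, 2, 4]), [])], [(2, (true, [0, 1, 2, 4]), [])], [(2,
    (true, [0, 1, 2, 4]), [])], [(2, (true, [0, 1, 2, 4]), [])], [(2, (true, [0, 1, 2, 4]), [])]] = true := by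
  decide +kernel

theorem ok19_7 : okD (2 ^ 640) (2 ^ 319) 19 7 [1]
    [(true, []), (true, [0, 1, 2, 4]), (true, [0, 1, 2, 5]), (false, [0, 1, 2]), (false, [0, 1,
    2]), (true, [0, 1]), (true, [0, 1])]
    [[(1, (true, [0, 1, 2, 4]), [])], [(1, (false, [0, 1, 2, 4, 8]), [])], [(1, (false, [0, 1, 2,
    4, 8]), [])], [(1, (false, [0, 1, 2, 4, 8]), [])], [(1, (false, [0, 1, 2, 4, 8]), [])], [(1,
    (false, [0, 1, 2, 4, 8]), [])], [(1, (false, [0, 1, 2, 4, 8]), [])], [(1, (false, [0, 1, 2, 4,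
    8]), [])], [(1, (false, [0, 1, 2, 4, 8]), [])], [(1, (false, [0, 1, 2, 4, 8]), [])], [(1,
    (false, [0, 1, 2, 4, 8]), [])], [(1, (false, [0, 1, 2, 4, 8]), [])], [(1, (false, [0, 1, 2, 4,
    8]), [])], [(1, (false, [0, 1, 2, 4, 8]), [])], [(1, (false, [0, 1, 2, 4, 8]), [])], [(1,
    (false, [0, 1, 2, 4, 8]), [])], [(1, (false, [0, 1, 2, 4, 8]), [])], [(1, (false, [0, 1, 2, 4,
    8]), [])], [(1, (false, [0, 1, 2, 4, 8]), [])], [(1, (false, [0, 1, 2, 4, 8]), [])]] = true := by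
  decide +kernel

theorem ok19_8 : okD (2 ^ 640) (2 ^ 319) 19 8 [2]
    [(true, [0, 1, 2, 5]), (true, []), (true, [0, 1, 2, 4]), (true, [0, 1, 2, 4]), (false, [0, 1,
    2]), (false, [0, 1, 2]), (true, [0, 1]), (true, [0, 1])]
    [[(2, (false, [0, 1, 2, 4, 8]), [])], [(2, (false, [0, 1, 2, 4, 8]), [])], [(2, (false, [0, 1,
    2, 4, 8]), [])], [(2, (false, [0, 1, 2, 4, 8]), [])], [(2, (false, [0, 1, 2, 4, 8]), [])], [(2,
    (false, [0, 1, 2, 4, 8]), [])], [(2, (false, [0, 1, 2, 4, 8]), [])], [(2, (false, [0, 1, 2, 4,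
    8]), [])], [(2, (false, [0, 1, 2, 4, 8]), [])], [(2, (false, [0, 1, 2, 4, 8]), [])], [(2,
    (false, [0, 1, 2, 4, 8]), [])], [(2, (false, [0, 1, 2, 4, 8]), [])], [(2, (false, [0, 1, 2, 4,
    8]), [])], [(2, (false, [0, 1, 2, 4, 8]), [])], [(2, (false, [0, 1, 2, 4, 8]), [])], [(2,
    (false, [0, 1, 2, 4, 8]), [])], [(2, (false, [0, 1, 2, 4, 8]), [])], [(2, (false, [0, 1, 2, 4,
    8]), [])], [(2, (false, [0, 1, 2, 4, 8]), [])], [(2, (false, [0, 1, 2, 4, 8]), [])]] = true := by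
  decide +kernel

theorem ok19_9 : okD (2 ^ 640) (2 ^ 319) 19 9 [1]
    [(true, []), (false, [0, 1, 2, 4, 8]), (true, [0, 1, 2, 5]), (true, [0, 1, 2, 4]), (true, [0,
    1, 2, 4]), (false, [0, 1, 2]), (false, [0, 1, 2]), (true, [0, 1]), (true, [0, 1])]
    [[(1, (true, []), [(true, [0, 1, 2, 3, 8, 12]), (true, [0, 1, 2, 3, 8, 19]), (true, [0, 1, 2,
    3, 8, 19]), (true, [1, 2, 4, 8, 19]), (true, [1, 2, 4, 8, 18]), (true, [1, 2, 4, 8, 18]),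
    (true, [1, 2, 4, 8, 18]), (true, [0, 1, 2, 5, 8, 17]), (true, [0, 1, 2, 5, 8, 17]), (true, [0,
    1, 2, 5, 8, 17]), (true, [0, 1, 2, 5, 8, 17]), (true, [0, 1, 2, 5, 8, 16]), (true, [0, 1, 2, 5,
    8, 16]), (true, [0, 1, 3, 4, 8, 12]), (true, [0, 1, 3, 4, 8, 12]), (true, [0, 1, 3, 4, 8, 12]),
    (true, [0, 1, 3, 4, 8, 12]), (true, [0, 1, 3, 4, 8, 12]), (true, [0, 1, 3, 4, 8, 14]), (true,
    [0, 1, 2, 4, 8, 14])])], [(1, (true, [0, 1, 2, 5, 8, 14]), [])], [(1, (true, []), [(true, [0,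
    1, 2, 4, 8, 12]), (true, [0, 1, 2, 4, 8, 12]), (true, [0, 1, 2, 4, 8, 12]), (true, [0, 1, 2, 4,
    8, 12]), (true, [0, 1, 2, 4, 8, 12]), (true, [0, 1, 2, 4, 8, 12]), (true, [0, 1, 2, 4, 8, 12]),
    (true, [0, 1, 2, 4, 8, 12]), (true, [0, 1, 2, 4, 8, 12]), (true, [0, 1, 2, 4, 8, 12]), (true,
    [0, 1, 2, 4, 8, 12]), (true, [0, 1, 2, 4, 8, 12]), (true, [0, 1, 2, 4, 8, 12]), (true, [0, 1,
    2, 4, 8, 12]), (true, [0, 1, 2, 4, 8, 12]), (true, [0, 1, 2, 4, 8, 12]), (true, [0, 1, 2, 4, 8,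
    12]), (true, [0, 1, 2, 4, 8, 12]), (true, [0, 1, 2, 4, 8, 12]), (true, [0, 1, 2, 4, 8, 12])])],
    [(1, (true, [0, 1, 2, 4, 8, 14]), [])], [(1, (true, [0, 1, 2, 4, 8, 12]), [])], [(1, (true, [0,
    1, 2, 4, 8, 12]), [])], [(1, (true, [0, 1, 2, 4, 8, 12]), [])], [(1, (true, [0, 1, 2, 4, 8,
    12]), [])], [(1, (true, [0, 1, 2, 3, 8, 12]), [])], [(1, (true, [0, 1, 2, 3, 8, 12]), [])],
    [(1, (true, [0, 1, 2, 3, 8, 12]), [])], [(1, (true, [0, 1, 2, 3, 8, 12]), [])], [(1, (true, [0,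
    1, 2, 3, 8, 12]), [])], [(1, (true, [0, 1, 2, 3, 8, 12]), [])], [(1, (true, [0, 1, 2, 3, 8,
    12]), [])], [(1, (true, [0, 1, 2, 3, 8, 12]), [])], [(1, (true, [0, 1, 2, 3, 8, 12]), [])],
    [(1, (true, [0, 1, 2, 3, 8, 12]), [])], [(1, (true, [0, 1, 2, 3, 8, 12]), [])], [(1, (true, [0,
    1, 2, 3, 8, 12]), [])]] = true := by
  decide +kernel

theorem ok19_10 : okD (2 ^ 640) (2 ^ 319) 19 10 [1, 2]
    [(true, []), (true, []), (false, [0, 1, 2, 4, 8]), (true, [0, 1, 2, 4]), (true, [0, 1, 2, 4]),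
    (true, [0, 1, 2, 4]), (false, [0, 1, 2]), (false, [0, 1, 2]), (true, [0, 1]), (true, [0, 1])]
    [[(1, (true, [0, 1, 2, 4, 8, 12]), []), (2, (true, [0, 1, 2, 4, 8, 12]), [])], [(1, (true, [0,
    1, 2, 4, 8, 12]), []), (2, (true, [0, 1, 2, 4, 8, 12]), [])], [(1, (true, [0, 1, 2, 4, 8, 12]),
    []), (2, (true, [0, 1, 2, 4, 8, 12]), [])], [(1, (true, [0, 1, 2, 4, 8, 12]), []), (2, (true,
    [0, 1, 2, 4, 8, 12]), [])], [(1, (true, [0, 1, 2, 4, 8, 12]), []), (2, (true, [0, 1, 2, 4, 8,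
    12]), [])], [(1, (true, [0, 1, 2, 4, 8, 12]), []), (2, (true, [0, 1, 2, 4, 8, 12]), [])], [(1,
    (true, [0, 1, 2, 4, 8, 12]), []), (2, (true, [0, 1, 2, 4, 8, 12]), [])], [(1, (true, [0, 1, 2,
    4, 8, 12]), []), (2, (true, [0, 1, 2, 4, 8, 12]), [])], [(1, (true, [0, 1, 2, 4, 8, 12]), []),
    (2, (true, [0, 1, 2, 4, 8, 12]), [])], [(1, (true, [0, 1, 2, 4, 8, 12]), []), (2, (true, [0, 1,
    2, 4, 8, 12]), [])], [(1, (true, [0, 1, 2, 4, 8, 12]), []), (2, (true, [0, 1, 2, 4, 8, 12]),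
    [])], [(1, (true, [0, 1, 2, 4, 8, 12]), []), (2, (true, [0, 1, 2, 4, 8, 12]), [])], [(1, (true,
    [0, 1, 2, 4, 8, 12]), []), (2, (true, [0, 1, 2, 4, 8, 12]), [])], [(1, (true, [0, 1, 2, 4, 8,
    12]), []), (2, (true, [0, 1, 2, 4, 8, 12]), [])], [(1, (true, [0, 1, 2, 4, 8, 12]), []), (2,
    (true, [0, 1, 2, 4, 8, 12]), [])], [(1, (true, [0, 1, 2, 4, 8, 12]), []), (2, (true, [0, 1, 2,
    4, 8, 12]), [])], [(1, (true, [0, 1, 2, 4, 8, 12]), []), (2, (true, [0, 1, 2, 4, 8, 12]), [])],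
    [(1, (true, [0, 1, 2, 4, 8, 12]), []), (2, (true, [0, 1, 2, 4, 8, 12]), [])], [(1, (true, [0,
    1, 2, 4, 8, 12]), []), (2, (true, [0, 1, 2, 4, 8, 12]), [])], [(1, (true, [0, 1, 2, 4, 8, 12]),
    []), (2, (true, [0, 1, 2, 3, 8, 12]), [])]] = true := by
  decide +kernel

theorem ok19_11 : okD (2 ^ 640) (2 ^ 319) 19 11 [1, 3]
    [(true, []), (true, [0, 1, 2, 3, 8, 12]), (true, []), (false, [0, 1, 2, 4, 8]), (false, [0, 1,
    2, 4, 8]), (true, [0, 1, 2, 4]), (true, [0, 1, 2, 4]), (false, [0, 1, 2]), (false, [0, 1, 2]),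
    (true, [0, 1]), (true, [0, 1])]
    [[(1, (true, [0, 1, 2, 4, 8, 21]), []), (3, (true, [0, 1, 2, 4, 8, 12]), [])], [(1, (true, [0,
    1, 2, 4, 8, 20]), []), (3, (true, [0, 1, 2, 4, 8, 12]), [])], [(1, (true, [0, 1, 2, 4, 8, 17]),
    []), (3, (true, [0, 1, 2, 4, 8, 12]), [])], [(1, (true, [0, 1, 2, 4, 8, 12]), []), (3, (true,
    [0, 1, 2, 4, 8, 12]), [])], [(1, (true, [0, 1, 2, 4, 8, 12]), []), (3, (true, [0, 1, 2, 4, 8,
    12]), [])], [(1, (true, [0, 1, 2, 4, 8, 12]), []), (3, (true, [0, 1, 2, 4, 8, 12]), [])], [(1,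
    (true, [0, 1, 2, 4, 8, 12]), []), (3, (true, [0, 1, 2, 4, 8, 12]), [])], [(1, (true, [0, 1, 2,
    4, 8, 12]), []), (3, (true, [0, 1, 2, 4, 8, 12]), [])], [(1, (true, [0, 1, 2, 4, 8, 12]), []),
    (3, (true, [0, 1, 2, 4, 8, 12]), [])], [(1, (true, [0, 1, 2, 3, 8, 12]), []), (3, (true, [0, 1,
    2, 4, 8, 12]), [])], [(1, (true, [0, 1, 2, 3, 8, 12]), []), (3, (true, [0, 1, 2, 4, 8, 12]),
    [])], [(1, (true, [0, 1, 2, 3, 8, 12]), []), (3, (true, [0, 1, 2, 4, 8, 12]), [])], [(1, (true,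
    [0, 1, 2, 3, 8, 12]), []), (3, (true, [0, 1, 2, 4, 8, 12]), [])], [(1, (true, [0, 1, 2, 3, 8,
    12]), []), (3, (true, [0, 1, 2, 4, 8, 12]), [])], [(1, (true, [0, 1, 2, 3, 8, 12]), []), (3,
    (true, [0, 1, 2, 4, 8, 12]), [])], [(1, (true, [0, 1, 2, 3, 8, 12]), []), (3, (true, [0, 1, 2,
    4, 8, 12]), [])], [(1, (true, [0, 1, 2, 3, 8, 12]), []), (3, (true, [0, 1, 2, 4, 8, 12]), [])],
    [(1, (false, [0, 1, 2, 3, 8, 12, 18]), []), (3, (true, [0, 1, 2, 4, 8, 12]), [])], [(1, (false,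
    [0, 1, 2, 3, 8, 12, 18]), []), (3, (true, [0, 1, 2, 4, 8, 12]), [])], [(1, (true, [0, 1, 2, 3,
    8, 12]), []), (3, (true, [0, 1, 2, 4, 8, 12]), [])]] = true := by
  decide +kernel

theorem ok19_12 : okD (2 ^ 640) (2 ^ 319) 19 12 [1, 2, 4]
    [(true, []), (true, []), (true, [0, 1, 2, 4, 8, 12]), (true, []), (false, [0, 1, 2, 4, 8]),
    (false, [0, 1, 2, 4, 8]), (true, [0, 1, 2, 4]), (true, [0, 1, 2, 4]), (false, [0, 1, 2]),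
    (false, [0, 1, 2]), (true, [0, 1]), (true, [0, 1])]
    [[(1, (false, [0, 1, 2, 4, 8, 12, 18]), []), (2, (true, [0, 1, 2, 4, 8, 12]), []), (4, (true,
    [0, 1, 2, 4, 8, 12]), [])], [(1, (false, [0, 1, 2, 4, 8, 12, 18]), []), (2, (false, [0, 1, 2,
    4, 8, 12, 18]), []), (4, (true, [0, 1, 2, 4, 8, 12]), [])], [(1, (false, [0, 1, 2, 4, 8, 12,
    18]), []), (2, (false, [0, 1, 2, 4, 8, 12, 18]), []), (4, (true, [0, 1, 2, 4, 8, 12]), [])],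
    [(1, (false, [0, 1, 2, 4, 8, 12, 18]), []), (2, (false, [0, 1, 2, 4, 8, 12, 18]), []), (4,
    (true, [0, 1, 2, 4, 8, 12]), [])], [(1, (false, [0, 1, 2, 4, 8, 12, 18]), []), (2, (false, [0,
    1, 2, 4, 8, 12, 18]), []), (4, (true, [0, 1, 2, 4, 8, 12]), [])], [(1, (false, [0, 1, 2, 4, 8,
    12, 18]), []), (2, (false, [0, 1, 2, 4, 8, 12, 18]), []), (4, (true, [0, 1, 2, 4, 8, 12]),
    [])], [(1, (false, [0, 1, 2, 4, 8, 12, 18]), []), (2, (false, [0, 1, 2, 4, 8, 12, 18]), []),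
    (4, (true, [0, 1, 2, 4, 8, 12]), [])], [(1, (false, [0, 1, 2, 4, 8, 12, 18]), []), (2, (false,
    [0, 1, 2, 4, 8, 12, 18]), []), (4, (true, [0, 1, 2, 4, 8, 12]), [])], [(1, (false, [0, 1, 2, 4,
    8, 12, 18]), []), (2, (false, [0, 1, 2, 4, 8, 12, 18]), []), (4, (true, [0, 1, 2, 4, 8, 12]),
    [])], [(1, (false, [0, 1, 2, 4, 8, 12, 18]), []), (2, (false, [0, 1, 2, 4, 8, 12, 18]), []),
    (4, (true, [0, 1, 2, 4, 8, 12]), [])], [(1, (false, [0, 1, 2, 4, 8, 12, 18]), []), (2, (false,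
    [0, 1, 2, 4, 8, 12, 18]), []), (4, (true, [0, 1, 2, 4, 8, 12]), [])], [(1, (false, [0, 1, 2, 4,
    8, 12, 18]), []), (2, (false, [0, 1, 2, 4, 8, 12, 18]), []), (4, (true, [0, 1, 2, 4, 8, 12]),
    [])], [(1, (false, [0, 1, 2, 4, 8, 12, 18]), []), (2, (false, [0, 1, 2, 4, 8, 12, 18]), []),
    (4, (true, [0, 1, 2, 4, 8, 12]), [])], [(1, (false, [0, 1, 2, 4, 8, 12, 18]), []), (2, (true,
    [0, 1, 2, 4, 8, 12]), []), (4, (true, [0, 1, 2, 4, 8, 12]), [])], [(1, (false, [0, 1, 2, 4, 8,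
    12, 18]), []), (2, (true, [0, 1, 2, 4, 8, 12]), []), (4, (true, [0, 1, 2, 4, 8, 12]), [])],
    [(1, (false, [0, 1, 2, 4, 8, 12, 18]), []), (2, (true, [0, 1, 2, 4, 8, 12]), []), (4, (true,
    [0, 1, 2, 4, 8, 12]), [])], [(1, (false, [0, 1, 2, 4, 8, 12, 18]), []), (2, (true, [0, 1, 2, 4,
    8, 12]), []), (4, (true, [0, 1, 2, 4, 8, 12]), [])], [(1, (false, [0, 1, 2, 4, 8, 12, 18]),
    []), (2, (true, [0, 1, 2, 4, 8, 12]), []), (4, (true, [0, 1, 2, 4, 8, 12]), [])], [(1, (false,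
    [0, 1, 2, 4, 8, 12, 18]), []), (2, (true, [0, 1, 2, 4, 8, 12]), []), (4, (true, [0, 1, 2, 4, 8,
    12]), [])], [(1, (false, [0, 1, 2, 4, 8, 12, 18]), []), (2, (true, [0, 1, 2, 3, 8, 12]), []),
    (4, (true, [0, 1, 2, 4, 8, 12]), [])]] = true := by
  decide +kernel

theorem ok19_13 : okD (2 ^ 640) (2 ^ 319) 19 13 [1, 3]
    [(true, []), (true, [0, 1, 2, 3, 8, 12]), (true, []), (true, [0, 1, 2, 4, 8, 12]), (true, [0,
    1, 2, 4, 8, 12]), (false, [0, 1, 2, 4, 8]), (false, [0, 1, 2, 4, 8]), (true, [0, 1, 2, 4]),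
    (true, [0, 1, 2, 4]), (false, [0, 1, 2]), (false, [0, 1, 2]), (true, [0, 1]), (true, [0, 1])]
    [[(1, (true, [1, 2, 4, 8, 12, 18, 24]), []), (3, (false, [0, 1, 2, 4, 8, 12, 18]), [])], [(1,
    (true, [1, 2, 4, 8, 12, 18, 24]), []), (3, (false, [0, 1, 2, 4, 8, 12, 18]), [])], [(1, (true,
    [0, 1, 2, 8, 12, 18, 24]), []), (3, (false, [0, 1, 2, 4, 8, 12, 18]), [])], [(1, (true, [1, 2,
    4, 8, 12, 18, 31]), []), (3, (false, [0, 1, 2, 4, 8, 12, 18]), [])], [(1, (true, [0, 1, 2, 6,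
    11, 18, 31]), []), (3, (false, [0, 1, 2, 4, 8, 12, 18]), [])], [(1, (true, []), [(true, [0, 1,
    2, 4, 8, 12, 18, 24]), (true, [0, 1, 2, 4, 8, 12, 18, 24]), (true, [0, 1, 2, 4, 8, 12, 18,
    24]), (true, [0, 1, 2, 4, 8, 12, 18, 24]), (true, [0, 1, 2, 4, 8, 12, 18, 24]), (true, [0, 1,
    2, 4, 8, 12, 18, 24]), (true, [0, 1, 2, 4, 8, 12, 18, 24]), (true, [0, 1, 2, 4, 8, 12, 18,
    24]), (true, [0, 1, 2, 4, 8, 12, 18, 24]), (true, [0, 1, 2, 4, 8, 12, 18, 34]), (true, [0, 1,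
    2, 4, 8, 12, 18, 33]), (true, [0, 1, 2, 3, 8, 12, 18, 33]), (true, [0, 1, 2, 3, 8, 12, 18,
    32]), (true, [0, 1, 2, 3, 8, 12, 18, 32]), (true, [0, 1, 2, 4, 6, 12, 18, 31]), (true, [0, 1,
    2, 4, 6, 12, 18, 31]), (true, [0, 1, 2, 4, 6, 12, 18, 31]), (true, [0, 1, 2, 4, 6, 12, 18,
    30]), (true, [0, 1, 2, 4, 6, 12, 18, 30]), (true, [0, 1, 2, 4, 6, 10, 18, 24])]), (3, (false,
    [0, 1, 2, 4, 8, 12, 18]), [])], [(1, (true, [0, 1, 2, 3, 5, 10, 18, 24]), []), (3, (false, [0,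
    1, 2, 4, 8, 12, 18]), [])], [(1, (true, [0, 1, 2, 3, 5, 12, 18, 24]), []), (3, (false, [0, 1,
    2, 4, 8, 12, 18]), [])], [(1, (true, [0, 1, 2, 3, 5, 12, 18, 24]), []), (3, (false, [0, 1, 2,
    4, 8, 12, 18]), [])], [(1, (true, [0, 1, 2, 3, 5, 12, 18, 24]), []), (3, (false, [0, 1, 2, 4,
    8, 12, 18]), [])], [(1, (true, [0, 1, 2, 3, 5, 12, 18, 24]), []), (3, (false, [0, 1, 2, 4, 8,
    12, 18]), [])], [(1, (true, [0, 1, 2, 3, 5, 12, 18, 24]), []), (3, (false, [0, 1, 2, 4, 8, 12,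
    18]), [])], [(1, (true, [0, 1, 2, 3, 5, 12, 18, 24]), []), (3, (false, [0, 1, 2, 4, 8, 12,
    18]), [])], [(1, (true, [0, 1, 2, 3, 5, 12, 18, 24]), []), (3, (false, [0, 1, 2, 4, 8, 12,
    18]), [])], [(1, (true, [0, 1, 2, 3, 5, 9, 18, 24]), []), (3, (false, [0, 1, 2, 4, 8, 12, 18]),
    [])], [(1, (true, [0, 1, 2, 3, 5, 9, 18, 24]), []), (3, (false, [0, 1, 2, 4, 8, 12, 18]), [])],
    [(1, (true, [0, 1, 2, 3, 5, 9, 18, 24]), []), (3, (false, [0, 1, 2, 4, 8, 12, 18]), [])], [(1,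
    (true, [0, 1, 2, 3, 5, 9, 18, 24]), []), (3, (false, [0, 1, 2, 4, 8, 12, 18]), [])], [(1,
    (true, [0, 1, 2, 3, 5, 9, 18, 24]), []), (3, (false, [0, 1, 2, 4, 8, 12, 18]), [])], [(1,
    (true, [0, 1, 2, 3, 5, 7, 18, 24]), []), (3, (false, [0, 1, 2, 4, 8, 12, 18]), [])]] = true := by
  decide +kernel

theorem ok19_14 : okD (2 ^ 640) (2 ^ 319) 19 14 [1, 2, 4]
    [(true, []), (true, []), (false, [0, 1, 2, 4, 8, 12, 18]), (true, []), (true, [0, 1, 2, 4, 8,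
    12]), (true, [0, 1, 2, 4, 8, 12]), (false, [0, 1, 2, 4, 8]), (false, [0, 1, 2, 4, 8]), (true,
    [0, 1, 2, 4]), (true, [0, 1, 2, 4]), (false, [0, 1, 2]), (false, [0, 1, 2]), (true, [0, 1]),
    (true, [0, 1])]
    [[(1, (true, [0, 1, 2, 4, 8, 12, 18, 24]), []), (2, (true, [1, 2, 4, 8, 12, 18, 35]), []), (4,
    (false, [0, 1, 2, 4, 8, 12, 18]), [])], [(1, (true, [0, 1, 2, 4, 8, 12, 18, 24]), []), (2,
    (true, [0, 1, 2, 4, 8, 12, 18, 24]), []), (4, (false, [0, 1, 2, 4, 8, 12, 18]), [])], [(1,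
    (true, [0, 1, 2, 4, 8, 12, 18, 24]), []), (2, (true, [0, 1, 2, 4, 8, 12, 18, 24]), []), (4,
    (false, [0, 1, 2, 4, 8, 12, 18]), [])], [(1, (true, [0, 1, 2, 4, 8, 12, 18, 24]), []), (2,
    (true, [0, 1, 2, 4, 8, 12, 18, 24]), []), (4, (false, [0, 1, 2, 4, 8, 12, 18]), [])], [(1,
    (true, [0, 1, 2, 4, 8, 12, 18, 24]), []), (2, (true, [0, 1, 2, 4, 8, 12, 18, 24]), []), (4,
    (false, [0, 1, 2, 4, 8, 12, 18]), [])], [(1, (true, [0, 1, 2, 4, 8, 12, 18, 24]), []), (2,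
    (true, [0, 1, 2, 4, 8, 12, 18, 24]), []), (4, (false, [0, 1, 2, 4, 8, 12, 18]), [])], [(1,
    (true, [0, 1, 2, 4, 8, 12, 18, 24]), []), (2, (true, [0, 1, 2, 4, 8, 12, 18, 24]), []), (4,
    (false, [0, 1, 2, 4, 8, 12, 18]), [])], [(1, (true, [0, 1, 2, 4, 8, 12, 18, 24]), []), (2,
    (true, [0, 1, 2, 4, 8, 12, 18, 24]), []), (4, (false, [0, 1, 2, 4, 8, 12, 18]), [])], [(1,
    (true, [0, 1, 2, 4, 8, 12, 18, 24]), []), (2, (true, [0, 1, 2, 3, 8, 12, 18, 24]), []), (4,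
    (false, [0, 1, 2, 4, 8, 12, 18]), [])], [(1, (true, [0, 1, 2, 4, 8, 12, 18, 24]), []), (2,
    (true, [0, 1, 2, 3, 8, 12, 18, 24]), []), (4, (false, [0, 1, 2, 4, 8, 12, 18]), [])], [(1,
    (true, [0, 1, 2, 4, 8, 12, 18, 24]), []), (2, (true, [0, 1, 2, 3, 8, 12, 18, 24]), []), (4,
    (false, [0, 1, 2, 4, 8, 12, 18]), [])], [(1, (true, [0, 1, 2, 4, 8, 12, 18, 24]), []), (2,
    (true, [0, 1, 2, 3, 8, 12, 18, 24]), []), (4, (false, [0, 1, 2, 4, 8, 12, 18]), [])], [(1,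
    (true, [0, 1, 2, 4, 8, 12, 18, 24]), []), (2, (true, [0, 1, 2, 3, 8, 12, 18, 24]), []), (4,
    (false, [0, 1, 2, 4, 8, 12, 18]), [])], [(1, (true, [0, 1, 2, 4, 8, 12, 18, 24]), []), (2,
    (true, [0, 1, 2, 3, 8, 12, 18, 24]), []), (4, (false, [0, 1, 2, 4, 8, 12, 18]), [])], [(1,
    (true, [0, 1, 2, 3, 8, 12, 18, 24]), []), (2, (true, [0, 1, 2, 3, 8, 12, 18, 24]), []), (4,
    (false, [0, 1, 2, 4, 8, 12, 18]), [])], [(1, (true, [0, 1, 2, 3, 8, 12, 18, 24]), []), (2,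
    (true, [0, 1, 2, 3, 5, 12, 18, 24]), []), (4, (false, [0, 1, 2, 4, 8, 12, 18]), [])], [(1,
    (true, [0, 1, 2, 3, 8, 12, 18, 24]), []), (2, (true, [0, 1, 2, 3, 5, 12, 18, 24]), []), (4,
    (false, [0, 1, 2, 4, 8, 12, 18]), [])], [(1, (true, [0, 1, 2, 3, 8, 12, 18, 24]), []), (2,
    (true, [0, 1, 2, 3, 5, 12, 18, 24]), []), (4, (false, [0, 1, 2, 4, 8, 12, 18]), [])], [(1,
    (true, [0, 1, 2, 3, 8, 12, 18, 24]), []), (2, (true, [0, 1, 2, 3, 5, 12, 18, 24]), []), (4,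
    (false, [0, 1, 2, 4, 8, 12, 18]), [])], [(1, (true, [0, 1, 2, 3, 8, 12, 18, 24]), []), (2,
    (true, [0, 1, 2, 3, 5, 12, 18, 24]), []), (4, (false, [0, 1, 2, 4, 8, 12, 18]), [])]] = true := by
  decide +kernel

end Pool.Agent.Lib.MP_954e53_ag
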