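import Pool.Agent.Lib.MP_954e53_ag.NumTree

/-! Certificates in codimension 19, dimensions 15 to 21. -/

namespace Pool.Agent.Lib.MP_954e53_ag

theorem ok19_15 : okD (2 ^ 640) (2 ^ 319) 19 15 [1, 2, 3]
    [(true, []), (true, []), (true, []), (false, [0, 1, 2, 4, 8, 12, 18]), (true, [0, 1, 2, 4, 8,
    12]), (true, [0, 1, 2, 4, 8, 12]), (true, [0, 1, 2, 4, 8, 12]), (false, [0, 1, 2, 4, 8]),
    (false, [0, 1, 2, 4, 8]), (true, [0, 1, 2, 4]), (true, [0, 1, 2, 4]), (false, [0, 1, 2]),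
    (false, [0, 1, 2]), (true, [0, 1]), (true, [0, 1])]
    [[(1, (true, [0, 1, 2, 4, 8, 12, 18, 24]), []), (2, (true, [0, 1, 2, 4, 8, 12, 18, 24]), []),
    (3, (true, [0, 1, 2, 4, 8, 12, 18, 24]), [])], [(1, (true, [0, 1, 2, 4, 8, 12, 18, 24]), []),
    (2, (true, [0, 1, 2, 4, 8, 12, 18, 24]), []), (3, (true, [0, 1, 2, 4, 8, 12, 18, 24]), [])],
    [(1, (true, [0, 1, 2, 4, 8, 12, 18, 24]), []), (2, (true, [0, 1, 2, 4, 8, 12, 18, 24]), []),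
    (3, (true, [0, 1, 2, 4, 8, 12, 18, 24]), [])], [(1, (true, [0, 1, 2, 4, 8, 12, 18, 24]), []),
    (2, (true, [0, 1, 2, 4, 8, 12, 18, 24]), []), (3, (true, [0, 1, 2, 4, 8, 12, 18, 24]), [])],
    [(1, (true, [0, 1, 2, 4, 8, 12, 18, 37]), []), (2, (true, [0, 1, 2, 4, 8, 12, 18, 24]), []),
    (3, (true, [0, 1, 2, 4, 8, 12, 18, 24]), [])], [(1, (true, [0, 1, 2, 4, 8, 12, 18, 36]), []),
    (2, (true, [0, 1, 2, 4, 8, 12, 18, 24]), []), (3, (true, [0, 1, 2, 4, 8, 12, 18, 24]), [])],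
    [(1, (true, [0, 1, 2, 4, 8, 12, 18, 35]), []), (2, (true, [0, 1, 2, 4, 8, 12, 18, 24]), []),
    (3, (true, [0, 1, 2, 4, 8, 12, 18, 24]), [])], [(1, (true, [0, 1, 2, 4, 8, 12, 18, 34]), []),
    (2, (true, [0, 1, 2, 4, 8, 12, 18, 24]), []), (3, (true, [0, 1, 2, 4, 8, 12, 18, 24]), [])],
    [(1, (true, [0, 1, 2, 3, 5, 12, 18, 24]), []), (2, (true, [0, 1, 2, 4, 8, 12, 18, 24]), []),
    (3, (true, [0, 1, 2, 4, 8, 12, 18, 24]), [])], [(1, (true, [0, 1, 2, 3, 5, 12, 18, 24]), []),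
    (2, (true, [0, 1, 2, 4, 8, 12, 18, 24]), []), (3, (true, [0, 1, 2, 4, 8, 12, 18, 24]), [])],
    [(1, (true, [0, 1, 2, 3, 5, 12, 18, 24]), []), (2, (true, [0, 1, 2, 4, 8, 12, 18, 24]), []),
    (3, (true, [0, 1, 2, 4, 8, 12, 18, 24]), [])], [(1, (true, [0, 1, 2, 3, 5, 12, 18, 24]), []),
    (2, (true, [0, 1, 2, 4, 8, 12, 18, 24]), []), (3, (true, [0, 1, 2, 4, 8, 12, 18, 24]), [])],
    [(1, (true, [0, 1, 2, 3, 5, 12, 18, 24]), []), (2, (true, [0, 1, 2, 4, 8, 12, 18, 24]), []),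
    (3, (true, [0, 1, 2, 4, 8, 12, 18, 24]), [])], [(1, (true, [0, 1, 2, 3, 5, 9, 18, 24]), []),
    (2, (true, [0, 1, 2, 4, 8, 12, 18, 24]), []), (3, (true, [0, 1, 2, 4, 8, 12, 18, 24]), [])],
    [(1, (true, [0, 1, 2, 3, 5, 9, 18, 24]), []), (2, (true, [0, 1, 2, 4, 8, 12, 18, 24]), []), (3,
    (true, [0, 1, 2, 4, 8, 12, 18, 24]), [])], [(1, (true, [0, 1, 2, 3, 5, 9, 18, 24]), []), (2,
    (true, [0, 1, 2, 4, 8, 12, 18, 24]), []), (3, (true, [0, 1, 2, 3, 8, 12, 18, 24]), [])], [(1,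
    (true, [0, 1, 2, 3, 5, 9, 18, 24]), []), (2, (true, [0, 1, 2, 4, 8, 12, 18, 24]), []), (3,
    (true, [0, 1, 2, 3, 8, 12, 18, 24]), [])], [(1, (true, [0, 1, 2, 3, 5, 9, 18, 24]), []), (2,
    (true, [0, 1, 2, 4, 8, 12, 18, 24]), []), (3, (true, [0, 1, 2, 3, 8, 12, 18, 24]), [])], [(1,
    (true, [0, 1, 2, 3, 5, 7, 18, 24]), []), (2, (true, [0, 1, 2, 4, 8, 12, 18, 24]), []), (3,
    (true, [0, 1, 2, 3, 8, 12, 18, 24]), [])], [(1, (true, [0, 1, 2, 3, 5, 7, 18, 24]), []), (2,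
    (true, [0, 1, 2, 4, 8, 12, 18, 24]), []), (3, (true, [0, 1, 2, 3, 8, 12, 18, 24]), [])]] = true := by
  decide +kernel

theorem ok19_16 : okD (2 ^ 640) (2 ^ 319) 19 16 [1, 2, 4]
    [(true, []), (true, []), (true, [0, 1, 2, 3, 8, 12, 18, 31]), (true, []), (false, [0, 1, 2, 4,
    8, 12, 18]), (false, [0, 1, 2, 4, 8, 12, 18]), (true, [0, 1, 2, 4, 8, 12]), (true, [0, 1, 2, 4,
    8, 12]), (false, [0, 1, 2, 4, 8]), (false, [0, 1, 2, 4, 8]), (true, [0, 1, 2, 4]), (true, [0,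
    1, 2, 4]), (false, [0, 1, 2]), (false, [0, 1, 2]), (true, [0, 1]), (true, [0, 1])]
    [[(1, (false, [0, 1, 2, 4, 8, 12, 18, 24, 32]), []), (2, (true, [0, 1, 2, 4, 8, 12, 18, 24]),
    []), (4, (true, [0, 1, 2, 4, 8, 12, 18, 24]), [])], [(1, (false, [0, 1, 2, 4, 8, 12, 18, 24,
    32]), []), (2, (true, [0, 1, 2, 4, 8, 12, 18, 24]), []), (4, (true, [0, 1, 2, 4, 8, 12, 18,
    24]), [])], [(1, (false, [0, 1, 2, 4, 8, 12, 18, 24, 32]), []), (2, (true, [0, 1, 2, 4, 8, 12,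
    18, 24]), []), (4, (true, [0, 1, 2, 4, 8, 12, 18, 24]), [])], [(1, (false, [0, 1, 2, 4, 8, 12,
    18, 24, 32]), []), (2, (false, [0, 1, 2, 4, 8, 12, 18, 24, 47]), []), (4, (true, [0, 1, 2, 4,
    8, 12, 18, 24]), [])], [(1, (false, [0, 1, 2, 4, 8, 12, 18, 24, 32]), []), (2, (true, [0, 1, 2,
    4, 8, 12, 18, 24]), []), (4, (true, [0, 1, 2, 4, 8, 12, 18, 24]), [])], [(1, (false, [0, 1, 2,
    4, 8, 12, 18, 24, 32]), []), (2, (true, [0, 1, 2, 4, 8, 12, 18, 24]), []), (4, (true, [0, 1, 2,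
    4, 8, 12, 18, 24]), [])], [(1, (false, [0, 1, 2, 4, 8, 12, 18, 24, 32]), []), (2, (true, [0, 1,
    2, 4, 8, 12, 18, 24]), []), (4, (true, [0, 1, 2, 4, 8, 12, 18, 24]), [])], [(1, (false, [0, 1,
    2, 4, 8, 12, 18, 24, 32]), []), (2, (true, [0, 1, 2, 4, 8, 12, 18, 24]), []), (4, (true, [0, 1,
    2, 4, 8, 12, 18, 24]), [])], [(1, (false, [0, 1, 2, 4, 8, 12, 18, 24, 32]), []), (2, (true, [0,
    1, 2, 4, 8, 12, 18, 24]), []), (4, (true, [0, 1, 2, 4, 8, 12, 18, 24]), [])], [(1, (false, [0,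
    1, 2, 4, 8, 12, 18, 24, 32]), []), (2, (true, [0, 1, 2, 4, 8, 12, 18, 24]), []), (4, (true, [0,
    1, 2, 4, 8, 12, 18, 24]), [])], [(1, (false, [0, 1, 2, 4, 8, 12, 18, 24, 32]), []), (2, (true,
    [0, 1, 2, 3, 8, 12, 18, 24]), []), (4, (true, [0, 1, 2, 4, 8, 12, 18, 24]), [])], [(1, (true,
    [0, 1, 2, 4, 8, 12, 18, 24]), []), (2, (true, [0, 1, 2, 3, 8, 12, 18, 24]), []), (4, (true, [0,
    1, 2, 4, 8, 12, 18, 24]), [])], [(1, (true, [0, 1, 2, 4, 8, 12, 18, 24]), []), (2, (true, [0,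
    1, 2, 3, 8, 12, 18, 24]), []), (4, (true, [0, 1, 2, 4, 8, 12, 18, 24]), [])], [(1, (true, [0,
    1, 2, 4, 8, 12, 18, 24]), []), (2, (true, [0, 1, 2, 3, 8, 12, 18, 24]), []), (4, (true, [0, 1,
    2, 4, 8, 12, 18, 24]), [])], [(1, (true, [0, 1, 2, 3, 8, 12, 18, 24]), []), (2, (true, [0, 1,
    2, 3, 8, 12, 18, 24]), []), (4, (true, [0, 1, 2, 4, 8, 12, 18, 24]), [])], [(1, (true, [0, 1,
    2, 3, 8, 12, 18, 24]), []), (2, (true, [0, 1, 2, 3, 5, 12, 18, 24]), []), (4, (true, [0, 1, 2,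
    4, 8, 12, 18, 24]), [])], [(1, (true, [0, 1, 2, 3, 8, 12, 18, 24]), []), (2, (true, [0, 1, 2,
    3, 5, 12, 18, 24]), []), (4, (true, [0, 1, 2, 4, 8, 12, 18, 24]), [])], [(1, (true, [0, 1, 2,
    3, 8, 12, 18, 24]), []), (2, (true, [0, 1, 2, 3, 5, 12, 18, 24]), []), (4, (true, [0, 1, 2, 4,
    8, 12, 18, 24]), [])], [(1, (true, [0, 1, 2, 3, 8, 12, 18, 24]), []), (2, (true, [0, 1, 2, 3,
    5, 12, 18, 24]), []), (4, (true, [0, 1, 2, 4, 8, 12, 18, 24]), [])], [(1, (true, [0, 1, 2, 3,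
    8, 12, 18, 24]), []), (2, (true, [0, 1, 2, 3, 5, 12, 18, 24]), []), (4, (true, [0, 1, 2, 4, 8,
    12, 18, 24]), [])]] = true := by
  decide +kernel

theorem ok19_17 : okD (2 ^ 640) (2 ^ 319) 19 17 [1, 2, 3, 5]
    [(true, []), (true, []), (true, []), (true, [0, 1, 2, 4, 8, 12, 18, 24]), (true, []), (false,
    [0, 1, 2, 4, 8, 12, 18]), (false, [0, 1, 2, 4, 8, 12, 18]), (true, [0, 1, 2, 4, 8, 12]), (true,
    [0, 1, 2, 4, 8, 12]), (false, [0, 1, 2, 4, 8]), (false, [0, 1, 2, 4, 8]), (true, [0, 1, 2, 4]),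
    (true, [0, 1, 2, 4]), (false, [0, 1, 2]), (false, [0, 1, 2]), (true, [0, 1]), (true, [0, 1])]
    [[(1, (true, [1, 2, 4, 8, 12, 18, 24, 32, 40]), []), (2, (false, [0, 1, 2, 4, 8, 12, 18, 24,
    32]), []), (3, (false, [0, 1, 2, 4, 8, 12, 18, 24, 32]), []), (5, (true, [0, 1, 2, 4, 8, 12,
    18, 24]), [])], [(1, (true, [1, 2, 4, 8, 12, 18, 24, 32, 40]), []), (2, (false, [0, 1, 2, 4, 8,
    12, 18, 24, 32]), []), (3, (false, [0, 1, 2, 4, 8, 12, 18, 24, 32]), []), (5, (true, [0, 1, 2,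
    4, 8, 12, 18, 24]), [])], [(1, (true, [1, 2, 4, 8, 12, 18, 24, 32, 40]), []), (2, (false, [0,
    1, 2, 4, 8, 12, 18, 24, 32]), []), (3, (false, [0, 1, 2, 4, 8, 12, 18, 24, 32]), []), (5,
    (true, [0, 1, 2, 4, 8, 12, 18, 24]), [])], [(1, (true, [1, 2, 4, 8, 12, 18, 24, 32, 40]), []),
    (2, (false, [0, 1, 2, 4, 8, 12, 18, 24, 32]), []), (3, (false, [0, 1, 2, 4, 8, 12, 18, 24,
    32]), []), (5, (true, [0, 1, 2, 4, 8, 12, 18, 24]), [])], [(1, (true, [1, 2, 4, 8, 12, 18, 24,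
    32, 40]), []), (2, (false, [0, 1, 2, 4, 8, 12, 18, 24, 32]), []), (3, (false, [0, 1, 2, 4, 8,
    12, 18, 24, 32]), []), (5, (true, [0, 1, 2, 4, 8, 12, 18, 24]), [])], [(1, (true, [1, 2, 4, 8,
    12, 18, 24, 32, 40]), []), (2, (false, [0, 1, 2, 4, 8, 12, 18, 24, 32]), []), (3, (false, [0,
    1, 2, 4, 8, 12, 18, 24, 32]), []), (5, (true, [0, 1, 2, 4, 8, 12, 18, 24]), [])], [(1, (true,
    [1, 2, 4, 8, 12, 18, 24, 32, 40]), []), (2, (false, [0, 1, 2, 4, 8, 12, 18, 24, 32]), []), (3,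
    (false, [0, 1, 2, 4, 8, 12, 18, 24, 32]), []), (5, (true, [0, 1, 2, 4, 8, 12, 18, 24]), [])],
    [(1, (true, [1, 2, 3, 5, 8, 13, 24, 32, 50]), []), (2, (false, [0, 1, 2, 4, 8, 12, 18, 24,
    32]), []), (3, (false, [0, 1, 2, 4, 8, 12, 18, 24, 32]), []), (5, (true, [0, 1, 2, 4, 8, 12,
    18, 24]), [])], [(1, (true, [0, 1, 2, 3, 5, 8, 13, 20, 32, 49]), []), (2, (false, [0, 1, 2, 4,
    8, 12, 18, 24, 32]), []), (3, (false, [0, 1, 2, 4, 8, 12, 18, 24, 32]), []), (5, (true, [0, 1,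
    2, 4, 8, 12, 18, 24]), [])], [(1, (true, [0, 1, 2, 3, 5, 8, 13, 19, 32, 40]), []), (2, (false,
    [0, 1, 2, 4, 8, 12, 18, 24, 32]), []), (3, (false, [0, 1, 2, 4, 8, 12, 18, 24, 32]), []), (5,
    (true, [0, 1, 2, 4, 8, 12, 18, 24]), [])], [(1, (true, [0, 1, 2, 3, 5, 7, 13, 19, 32, 40]),
    []), (2, (false, [0, 1, 2, 4, 8, 12, 18, 24, 32]), []), (3, (false, [0, 1, 2, 4, 8, 12, 18, 24,
    32]), []), (5, (true, [0, 1, 2, 4, 8, 12, 18, 24]), [])], [(1, (true, [0, 1, 2, 3, 5, 7, 12,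
    24, 32, 40]), []), (2, (false, [0, 1, 2, 4, 8, 12, 18, 24, 32]), []), (3, (false, [0, 1, 2, 4,
    8, 12, 18, 24, 32]), []), (5, (true, [0, 1, 2, 4, 8, 12, 18, 24]), [])], [(1, (true, [0, 1, 2,
    3, 5, 7, 12, 18, 32, 40]), []), (2, (false, [0, 1, 2, 4, 8, 12, 18, 24, 32]), []), (3, (true,
    [0, 1, 2, 4, 8, 12, 18, 24]), []), (5, (true, [0, 1, 2, 4, 8, 12, 18, 24]), [])], [(1, (true,
    [0, 1, 2, 3, 5, 7, 11, 18, 32, 40]), []), (2, (false, [0, 1, 2, 4, 8, 12, 18, 24, 32]), []),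
    (3, (true, [0, 1, 2, 4, 8, 12, 18, 24]), []), (5, (true, [0, 1, 2, 4, 8, 12, 18, 24]), [])],
    [(1, (true, [0, 1, 2, 3, 5, 7, 11, 17, 32, 40]), []), (2, (false, [0, 1, 2, 4, 8, 12, 18, 24,
    32]), []), (3, (true, [0, 1, 2, 4, 8, 12, 18, 24]), []), (5, (true, [0, 1, 2, 4, 8, 12, 18,
    24]), [])], [(1, (true, [0, 1, 2, 3, 5, 7, 11, 17, 32, 40]), []), (2, (false, [0, 1, 2, 4, 8,
    12, 18, 24, 32]), []), (3, (true, [0, 1, 2, 3, 8, 12, 18, 24]), []), (5, (true, [0, 1, 2, 4, 8,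
    12, 18, 24]), [])], [(1, (true, [0, 1, 2, 3, 5, 7, 11, 17, 32, 40]), []), (2, (false, [0, 1, 2,
    4, 8, 12, 18, 24, 32]), []), (3, (true, [0, 1, 2, 3, 8, 12, 18, 24]), []), (5, (true, [0, 1, 2,
    4, 8, 12, 18, 24]), [])], [(1, (true, [0, 1, 2, 3, 5, 7, 11, 17, 25, 40]), []), (2, (false, [0,
    1, 2, 4, 8, 12, 18, 24, 32]), []), (3, (true, [0, 1, 2, 3, 8, 12, 18, 24]), []), (5, (true, [0,
    1, 2, 4, 8, 12, 18, 24]), [])], [(1, (true, [0, 1, 2, 3, 5, 7, 11, 17, 25, 40]), []), (2,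
    (true, [0, 1, 2, 4, 8, 12, 18, 24]), []), (3, (true, [0, 1, 2, 3, 8, 12, 18, 24]), []), (5,
    (true, [0, 1, 2, 4, 8, 12, 18, 24]), [])], [(1, (true, [0, 1, 2, 3, 5, 7, 11, 17, 25, 40]),
    []), (2, (true, [0, 1, 2, 4, 8, 12, 18, 24]), []), (3, (true, [0, 1, 2, 3, 8, 12, 18, 24]),
    []), (5, (true, [0, 1, 2, 4, 8, 12, 18, 24]), [])]] = true := by
  decide +kernel

theorem ok19_18 : okD (2 ^ 640) (2 ^ 319) 19 18 [1, 2, 4]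
    [(true, []), (true, []), (true, [0, 1, 2, 3, 7, 12, 18, 31]), (true, []), (true, [0, 1, 2, 4,
    8, 12, 18, 24]), (true, [0, 1, 2, 4, 8, 12, 18, 24]), (false, [0, 1, 2, 4, 8, 12, 18]), (false,
    [0, 1, 2, 4, 8, 12, 18]), (true, [0, 1, 2, 4, 8, 12]), (true, [0, 1, 2, 4, 8, 12]), (false, [0,
    1, 2, 4, 8]), (false, [0, 1, 2, 4, 8]), (true, [0, 1, 2, 4]), (true, [0, 1, 2, 4]), (false, [0,
    1, 2]), (false, [0, 1, 2]), (true, [0, 1]), (true, [0, 1])]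
    [[(1, (true, [0, 1, 2, 4, 8, 12, 18, 24, 32, 40]), []), (2, (true, [1, 2, 4, 8, 12, 18, 24, 32,
    57]), []), (4, (false, [0, 1, 2, 4, 8, 12, 18, 24, 32]), [])], [(1, (true, [0, 1, 2, 4, 8, 12,
    18, 24, 32, 40]), []), (2, (true, [1, 2, 4, 8, 12, 18, 24, 32, 58]), []), (4, (false, [0, 1, 2,
    4, 8, 12, 18, 24, 32]), [])], [(1, (true, [0, 1, 2, 4, 8, 12, 18, 24, 32, 40]), []), (2, (true,
    [1, 2, 4, 8, 12, 18, 24, 32, 58]), []), (4, (false, [0, 1, 2, 4, 8, 12, 18, 24, 32]), [])],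
    [(1, (true, [0, 1, 2, 4, 8, 12, 18, 24, 32, 40]), []), (2, (true, [1, 2, 4, 8, 12, 18, 24, 32,
    57]), []), (4, (false, [0, 1, 2, 4, 8, 12, 18, 24, 32]), [])], [(1, (true, [0, 1, 2, 4, 8, 12,
    18, 24, 32, 40]), []), (2, (true, [1, 2, 4, 8, 12, 18, 24, 32, 56]), []), (4, (false, [0, 1, 2,
    4, 8, 12, 18, 24, 32]), [])], [(1, (true, [0, 1, 2, 4, 8, 12, 18, 24, 32, 40]), []), (2, (true,
    [1, 2, 4, 8, 12, 18, 24, 32, 55]), []), (4, (false, [0, 1, 2, 4, 8, 12, 18, 24, 32]), [])],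
    [(1, (true, [0, 1, 2, 4, 8, 12, 18, 24, 32, 40]), []), (2, (true, [1, 2, 4, 8, 12, 18, 24, 32,
    55]), []), (4, (false, [0, 1, 2, 4, 8, 12, 18, 24, 32]), [])], [(1, (true, [0, 1, 2, 4, 8, 12,
    18, 24, 32, 40]), []), (2, (true, [0, 1, 2, 3, 5, 12, 18, 24, 32, 40]), []), (4, (false, [0, 1,
    2, 4, 8, 12, 18, 24, 32]), [])], [(1, (true, [0, 1, 2, 4, 8, 12, 18, 24, 32, 54]), []), (2,
    (true, [0, 1, 2, 3, 5, 12, 18, 24, 32, 40]), []), (4, (false, [0, 1, 2, 4, 8, 12, 18, 24, 32]),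
    [])], [(1, (true, [0, 1, 2, 3, 8, 12, 18, 24, 32, 40]), []), (2, (true, [0, 1, 2, 3, 5, 12, 18,
    24, 32, 40]), []), (4, (false, [0, 1, 2, 4, 8, 12, 18, 24, 32]), [])], [(1, (true, [0, 1, 2, 3,
    8, 12, 18, 24, 32, 40]), []), (2, (true, [0, 1, 2, 3, 5, 12, 18, 24, 32, 40]), []), (4, (false,
    [0, 1, 2, 4, 8, 12, 18, 24, 32]), [])], [(1, (true, [0, 1, 2, 3, 8, 12, 18, 24, 32, 40]), []),
    (2, (true, [0, 1, 2, 3, 5, 9, 18, 24, 32, 40]), []), (4, (false, [0, 1, 2, 4, 8, 12, 18, 24,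
    32]), [])], [(1, (true, [0, 1, 2, 3, 5, 12, 18, 24, 32, 40]), []), (2, (true, [0, 1, 2, 3, 5,
    9, 18, 24, 32, 40]), []), (4, (false, [0, 1, 2, 4, 8, 12, 18, 24, 32]), [])], [(1, (true, [0,
    1, 2, 3, 5, 12, 18, 24, 32, 40]), []), (2, (true, [0, 1, 2, 3, 5, 9, 18, 24, 32, 40]), []), (4,
    (false, [0, 1, 2, 4, 8, 12, 18, 24, 32]), [])], [(1, (true, [0, 1, 2, 3, 5, 12, 18, 24, 32,
    40]), []), (2, (true, [0, 1, 2, 3, 5, 9, 18, 24, 32, 40]), []), (4, (false, [0, 1, 2, 4, 8, 12,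
    18, 24, 32]), [])], [(1, (true, [0, 1, 2, 3, 5, 12, 18, 24, 32, 40]), []), (2, (true, [0, 1, 2,
    3, 5, 9, 13, 24, 32, 40]), []), (4, (false, [0, 1, 2, 4, 8, 12, 18, 24, 32]), [])], [(1, (true,
    [0, 1, 2, 3, 5, 12, 18, 24, 32, 40]), []), (2, (true, [0, 1, 2, 3, 5, 7, 18, 24, 32, 40]), []),
    (4, (false, [0, 1, 2, 4, 8, 12, 18, 24, 32]), [])], [(1, (true, [0, 1, 2, 3, 5, 9, 18, 24, 32,
    40]), []), (2, (true, [0, 1, 2, 3, 5, 7, 11, 24, 32, 40]), []), (4, (false, [0, 1, 2, 4, 8, 12,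
    18, 24, 32]), [])], [(1, (true, [0, 1, 2, 3, 5, 9, 18, 24, 32, 40]), []), (2, (true, [0, 1, 2,
    3, 5, 7, 11, 24, 32, 40]), []), (4, (true, [0, 1, 2, 4, 8, 12, 18, 24]), [])], [(1, (true, [0,
    1, 2, 3, 5, 7, 18, 24, 32, 40]), []), (2, (true, [0, 1, 2, 3, 5, 7, 11, 24, 32, 40]), []), (4,
    (true, [0, 1, 2, 4, 8, 12, 18, 24]), [])]] = true := by
  decide +kernel

theorem ok19_19 : okD (2 ^ 640) (2 ^ 319) 19 19 [1, 2, 3, 5]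
    [(true, []), (true, []), (true, []), (false, [0, 1, 2, 4, 8, 12, 18, 24, 32]), (true, []),
    (true, [0, 1, 2, 4, 8, 12, 18, 24]), (true, [0, 1, 2, 4, 8, 12, 18, 24]), (false, [0, 1, 2, 4,
    8, 12, 18]), (false, [0, 1, 2, 4, 8, 12, 18]), (true, [0, 1, 2, 4, 8, 12]), (true, [0, 1, 2, 4,
    8, 12]), (false, [0, 1, 2, 4, 8]), (false, [0, 1, 2, 4, 8]), (true, [0, 1, 2, 4]), (true, [0,
    1, 2, 4]), (false, [0, 1, 2]), (false, [0, 1, 2]), (true, [0, 1]), (true, [0, 1])]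
    [[(1, (true, [0, 1, 2, 4, 8, 12, 18, 24, 32, 40]), []), (2, (true, [0, 1, 2, 4, 8, 12, 18, 24,
    32, 40]), []), (3, (true, [0, 1, 2, 4, 8, 12, 18, 24, 32, 40]), []), (5, (false, [0, 1, 2, 4,
    8, 12, 18, 24, 32]), [])], [(1, (true, [0, 1, 2, 4, 8, 12, 18, 24, 32, 40]), []), (2, (true,
    [0, 1, 2, 4, 8, 12, 18, 24, 32, 40]), []), (3, (true, [0, 1, 2, 4, 8, 12, 18, 24, 32, 40]),
    []), (5, (false, [0, 1, 2, 4, 8, 12, 18, 24, 32]), [])], [(1, (true, [0, 1, 2, 4, 8, 12, 18,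
    24, 32, 40]), []), (2, (true, [0, 1, 2, 4, 8, 12, 18, 24, 32, 40]), []), (3, (true, [0, 1, 2,
    4, 8, 12, 18, 24, 32, 40]), []), (5, (false, [0, 1, 2, 4, 8, 12, 18, 24, 32]), [])], [(1,
    (true, [0, 1, 2, 4, 8, 12, 18, 24, 32, 40]), []), (2, (true, [0, 1, 2, 4, 8, 12, 18, 24, 32,
    40]), []), (3, (true, [0, 1, 2, 4, 8, 12, 18, 24, 32, 40]), []), (5, (false, [0, 1, 2, 4, 8,
    12, 18, 24, 32]), [])], [(1, (true, [0, 1, 2, 4, 8, 12, 18, 24, 32, 40]), []), (2, (true, [0,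
    1, 2, 4, 8, 12, 18, 24, 32, 40]), []), (3, (true, [0, 1, 2, 4, 8, 12, 18, 24, 32, 40]), []),
    (5, (false, [0, 1, 2, 4, 8, 12, 18, 24, 32]), [])], [(1, (true, [0, 1, 2, 4, 8, 12, 18, 24, 32,
    40]), []), (2, (true, [0, 1, 2, 4, 8, 12, 18, 24, 32, 40]), []), (3, (true, [0, 1, 2, 4, 8, 12,
    18, 24, 32, 40]), []), (5, (false, [0, 1, 2, 4, 8, 12, 18, 24, 32]), [])], [(1, (true, [0, 1,
    2, 4, 8, 12, 18, 24, 32, 40]), []), (2, (true, [0, 1, 2, 4, 8, 12, 18, 24, 32, 40]), []), (3,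
    (true, [0, 1, 2, 4, 8, 12, 18, 24, 32, 40]), []), (5, (false, [0, 1, 2, 4, 8, 12, 18, 24, 32]),
    [])], [(1, (true, [0, 1, 2, 4, 8, 12, 18, 24, 32, 40]), []), (2, (true, [0, 1, 2, 4, 8, 12, 18,
    24, 32, 40]), []), (3, (true, [0, 1, 2, 4, 8, 12, 18, 24, 32, 40]), []), (5, (false, [0, 1, 2,
    4, 8, 12, 18, 24, 32]), [])], [(1, (true, [0, 1, 2, 3, 5, 8, 13, 18, 32, 40]), []), (2, (true,
    [0, 1, 2, 4, 8, 12, 18, 24, 32, 40]), []), (3, (true, [0, 1, 2, 4, 8, 12, 18, 24, 32, 40]),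
    []), (5, (false, [0, 1, 2, 4, 8, 12, 18, 24, 32]), [])], [(1, (true, [0, 1, 2, 3, 5, 7, 12, 18,
    32, 40]), []), (2, (true, [0, 1, 2, 4, 8, 12, 18, 24, 32, 40]), []), (3, (true, [0, 1, 2, 4, 8,
    12, 18, 24, 32, 56]), []), (5, (false, [0, 1, 2, 4, 8, 12, 18, 24, 32]), [])], [(1, (true, [0,
    1, 2, 3, 5, 7, 12, 18, 32, 40]), []), (2, (true, [0, 1, 2, 4, 8, 12, 18, 24, 32, 40]), []), (3,
    (true, [0, 1, 2, 3, 8, 12, 18, 24, 32, 55]), []), (5, (false, [0, 1, 2, 4, 8, 12, 18, 24, 32]),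
    [])], [(1, (true, [0, 1, 2, 3, 5, 7, 11, 17, 32, 40]), []), (2, (true, [0, 1, 2, 4, 8, 12, 18,
    24, 32, 40]), []), (3, (true, [0, 1, 2, 3, 8, 12, 18, 24, 32, 40]), []), (5, (false, [0, 1, 2,
    4, 8, 12, 18, 24, 32]), [])], [(1, (true, [0, 1, 2, 3, 5, 7, 11, 17, 32, 40]), []), (2, (true,
    [0, 1, 2, 4, 8, 12, 18, 24, 32, 40]), []), (3, (true, [0, 1, 2, 3, 8, 12, 18, 24, 32, 40]),
    []), (5, (false, [0, 1, 2, 4, 8, 12, 18, 24, 32]), [])], [(1, (true, [0, 1, 2, 3, 5, 7, 11, 17,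
    32, 40]), []), (2, (true, [0, 1, 2, 4, 8, 12, 18, 24, 32, 40]), []), (3, (true, [0, 1, 2, 3, 8,
    12, 18, 24, 32, 40]), []), (5, (false, [0, 1, 2, 4, 8, 12, 18, 24, 32]), [])], [(1, (true, [0,
    1, 2, 3, 5, 7, 11, 17, 32, 40]), []), (2, (true, [0, 1, 2, 3, 8, 12, 18, 24, 32, 40]), []), (3,
    (true, [0, 1, 2, 3, 5, 12, 18, 24, 32, 40]), []), (5, (false, [0, 1, 2, 4, 8, 12, 18, 24, 32]),
    [])], [(1, (true, [0, 1, 2, 3, 5, 7, 11, 17, 32, 40]), []), (2, (true, [0, 1, 2, 3, 8, 12, 18,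
    24, 32, 40]), []), (3, (true, [0, 1, 2, 3, 5, 12, 18, 24, 32, 40]), []), (5, (false, [0, 1, 2,
    4, 8, 12, 18, 24, 32]), [])], [(1, (true, [0, 1, 2, 3, 5, 7, 11, 17, 32, 40]), []), (2, (true,
    [0, 1, 2, 3, 8, 12, 18, 24, 32, 40]), []), (3, (true, [0, 1, 2, 3, 5, 12, 18, 24, 32, 40]),
    []), (5, (false, [0, 1, 2, 4, 8, 12, 18, 24, 32]), [])], [(1, (true, [0, 1, 2, 3, 5, 7, 11, 17,
    26, 40]), []), (2, (true, [0, 1, 2, 3, 8, 12, 18, 24, 32, 40]), []), (3, (true, [0, 1, 2, 3, 5,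
    12, 18, 24, 32, 40]), []), (5, (false, [0, 1, 2, 4, 8, 12, 18, 24, 32]), [])], [(1, (true, [0,
    1, 2, 3, 4, 7, 11, 17, 25, 40]), []), (2, (true, [0, 1, 2, 3, 8, 12, 18, 24, 32, 40]), []), (3,
    (true, [0, 1, 2, 3, 5, 12, 18, 24, 32, 40]), []), (5, (false, [0, 1, 2, 4, 8, 12, 18, 24, 32]),
    [])], [(1, (true, [0, 1, 2, 3, 4, 7, 11, 15, 24, 40]), []), (2, (true, [0, 1, 2, 3, 5, 12, 18,
    24, 32, 40]), []), (3, (true, [0, 1, 2, 3, 5, 9, 18, 24, 32, 40]), []), (5, (false, [0, 1, 2,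
    4, 8, 12, 18, 24, 32]), [])]] = true := by
  decide +kernel

theorem ok19_20 : okD (2 ^ 640) (2 ^ 319) 19 20 [1, 2, 3, 4]
    [(true, []), (true, []), (true, []), (true, []), (false, [0, 1, 2, 4, 8, 12, 18, 24, 32]),
    (false, [0, 1, 2, 4, 8, 12, 18, 24, 32]), (true, [0, 1, 2, 4, 8, 12, 18, 24]), (true, [0, 1, 2,
    4, 8, 12, 18, 24]), (false, [0, 1, 2, 4, 8, 12, 18]), (false, [0, 1, 2, 4, 8, 12, 18]), (true,
    [0, 1, 2, 4, 8, 12]), (true, [0, 1, 2, 4, 8, 12]), (false, [0, 1, 2, 4, 8]), (false, [0, 1, 2,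
    4, 8]), (true, [0, 1, 2, 4]), (true, [0, 1, 2, 4]), (false, [0, 1, 2]), (false, [0, 1, 2]),
    (true, [0, 1]), (true, [0, 1])]
    [[(1, (false, [0, 1, 2, 4, 8, 12, 18, 24, 32, 40, 50]), []), (2, (true, [0, 1, 2, 4, 8, 12, 18,
    24, 32, 40]), []), (3, (true, [0, 1, 2, 4, 8, 12, 18, 24, 32, 40]), []), (4, (true, [0, 1, 2,
    4, 8, 12, 18, 24, 32, 40]), [])], [(1, (false, [0, 1, 2, 4, 8, 12, 18, 24, 32, 40, 50]), []),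
    (2, (true, [0, 1, 2, 4, 8, 12, 18, 24, 32, 40]), []), (3, (true, [0, 1, 2, 4, 8, 12, 18, 24,
    32, 40]), []), (4, (true, [0, 1, 2, 4, 8, 12, 18, 24, 32, 40]), [])], [(1, (false, [0, 1, 2, 4,
    8, 12, 18, 24, 32, 40, 50]), []), (2, (true, [0, 1, 2, 4, 8, 12, 18, 24, 32, 40]), []), (3,
    (true, [0, 1, 2, 4, 8, 12, 18, 24, 32, 40]), []), (4, (true, [0, 1, 2, 4, 8, 12, 18, 24, 32,
    40]), [])], [(1, (false, [0, 1, 2, 4, 8, 12, 18, 24, 32, 40, 50]), []), (2, (true, [0, 1, 2, 4,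
    8, 12, 18, 24, 32, 40]), []), (3, (true, [0, 1, 2, 4, 8, 12, 18, 24, 32, 40]), []), (4, (true,
    [0, 1, 2, 4, 8, 12, 18, 24, 32, 40]), [])], [(1, (false, [0, 1, 2, 4, 8, 12, 18, 24, 32, 40,
    50]), []), (2, (true, [0, 1, 2, 4, 8, 12, 18, 24, 32, 40]), []), (3, (true, [0, 1, 2, 4, 8, 12,
    18, 24, 32, 40]), []), (4, (true, [0, 1, 2, 4, 8, 12, 18, 24, 32, 40]), [])], [(1, (false, [0,
    1, 2, 4, 8, 12, 18, 24, 32, 40, 72]), []), (2, (true, [0, 1, 2, 4, 8, 12, 18, 24, 32, 40]),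
    []), (3, (true, [0, 1, 2, 4, 8, 12, 18, 24, 32, 40]), []), (4, (true, [0, 1, 2, 4, 8, 12, 18,
    24, 32, 40]), [])], [(1, (false, [0, 1, 2, 4, 6, 12, 18, 24, 32, 40, 72]), []), (2, (true, [0,
    1, 2, 4, 8, 12, 18, 24, 32, 40]), []), (3, (true, [0, 1, 2, 4, 8, 12, 18, 24, 32, 40]), []),
    (4, (true, [0, 1, 2, 4, 8, 12, 18, 24, 32, 40]), [])], [(1, (false, [0, 1, 2, 4, 6, 12, 18, 24,
    32, 40, 71]), []), (2, (false, [0, 1, 2, 3, 5, 9, 18, 24, 32, 40, 50]), []), (3, (true, [0, 1,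
    2, 4, 8, 12, 18, 24, 32, 40]), []), (4, (true, [0, 1, 2, 4, 8, 12, 18, 24, 32, 40]), [])], [(1,
    (false, [0, 1, 2, 3, 8, 12, 18, 24, 32, 40, 71]), []), (2, (false, [0, 1, 2, 3, 5, 9, 18, 24,
    32, 40, 50]), []), (3, (true, [0, 1, 2, 4, 8, 12, 18, 24, 32, 40]), []), (4, (true, [0, 1, 2,
    4, 8, 12, 18, 24, 32, 40]), [])], [(1, (false, [0, 1, 2, 3, 5, 12, 18, 24, 32, 40, 50]), []),
    (2, (false, [0, 1, 2, 3, 5, 9, 18, 24, 32, 40, 50]), []), (3, (true, [0, 1, 2, 4, 8, 12, 18,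
    24, 32, 40]), []), (4, (true, [0, 1, 2, 4, 8, 12, 18, 24, 32, 40]), [])], [(1, (false, [0, 1,
    2, 3, 5, 12, 18, 24, 32, 40, 50]), []), (2, (false, [0, 1, 2, 3, 5, 9, 13, 24, 32, 40, 50]),
    []), (3, (true, [0, 1, 2, 4, 8, 12, 18, 24, 32, 40]), []), (4, (true, [0, 1, 2, 4, 8, 12, 18,
    24, 32, 40]), [])], [(1, (false, [0, 1, 2, 3, 5, 12, 18, 24, 32, 40, 50]), []), (2, (false, [0,
    1, 2, 3, 5, 9, 13, 24, 32, 40, 50]), []), (3, (true, [0, 1, 2, 4, 8, 12, 18, 24, 32, 40]), []),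
    (4, (true, [0, 1, 2, 4, 8, 12, 18, 24, 32, 40]), [])], [(1, (false, [0, 1, 2, 3, 5, 12, 18, 24,
    32, 40, 50]), []), (2, (false, [0, 1, 2, 3, 5, 9, 13, 24, 32, 40, 50]), []), (3, (true, [0, 1,
    2, 4, 8, 12, 18, 24, 32, 40]), []), (4, (true, [0, 1, 2, 4, 8, 12, 18, 24, 32, 40]), [])], [(1,
    (false, [0, 1, 2, 3, 5, 12, 18, 24, 32, 40, 50]), []), (2, (false, [0, 1, 2, 3, 5, 9, 13, 24,
    32, 40, 50]), []), (3, (true, [0, 1, 2, 4, 8, 12, 18, 24, 32, 40]), []), (4, (true, [0, 1, 2,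
    4, 8, 12, 18, 24, 32, 40]), [])], [(1, (false, [0, 1, 2, 3, 5, 9, 18, 24, 32, 40, 50]), []),
    (2, (false, [0, 1, 2, 3, 5, 7, 11, 24, 32, 40, 50]), []), (3, (true, [0, 1, 2, 4, 8, 12, 18,
    24, 32, 40]), []), (4, (true, [0, 1, 2, 4, 8, 12, 18, 24, 32, 40]), [])], [(1, (false, [0, 1,
    2, 3, 5, 9, 18, 24, 32, 40, 50]), []), (2, (false, [0, 1, 2, 3, 5, 7, 11, 24, 32, 40, 50]),
    []), (3, (true, [0, 1, 2, 4, 8, 12, 18, 24, 32, 40]), []), (4, (true, [0, 1, 2, 3, 8, 12, 18,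
    24, 32, 40]), [])], [(1, (false, [0, 1, 2, 3, 5, 9, 18, 24, 32, 40, 50]), []), (2, (false, [0,
    1, 2, 3, 5, 7, 11, 24, 32, 40, 50]), []), (3, (true, [0, 1, 2, 4, 8, 12, 18, 24, 32, 40]), []),
    (4, (true, [0, 1, 2, 3, 8, 12, 18, 24, 32, 40]), [])], [(1, (false, [0, 1, 2, 3, 5, 7, 18, 24,
    32, 40, 50]), []), (2, (false, [0, 1, 2, 3, 5, 7, 11, 24, 32, 40, 50]), []), (3, (true, [0, 1,
    2, 4, 8, 12, 18, 24, 32, 40]), []), (4, (true, [0, 1, 2, 3, 8, 12, 18, 24, 32, 40]), [])], [(1,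
    (false, [0, 1, 2, 3, 5, 7, 18, 24, 32, 40, 50]), []), (2, (false, [0, 1, 2, 3, 5, 7, 11, 17,
    32, 40, 50]), []), (3, (true, [0, 1, 2, 4, 8, 12, 18, 24, 32, 40]), []), (4, (true, [0, 1, 2,
    3, 8, 12, 18, 24, 32, 40]), [])], [(1, (false, [0, 1, 2, 3, 5, 7, 11, 24, 32, 40, 50]), []),
    (2, (false, [0, 1, 2, 3, 5, 7, 11, 17, 32, 40, 50]), []), (3, (true, [0, 1, 2, 4, 8, 12, 18,
    24, 32, 40]), []), (4, (true, [0, 1, 2, 3, 8, 12, 18, 24, 32, 40]), [])]] = true := by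
  decide +kernel

theorem ok19_21 : okD (2 ^ 640) (2 ^ 319) 19 21 [1, 2, 3, 5]
    [(true, []), (true, []), (true, []), (true, [0, 1, 2, 3, 8, 12, 18, 24, 32, 54]), (true, []),
    (false, [0, 1, 2, 4, 8, 12, 18, 24, 32]), (false, [0, 1, 2, 4, 8, 12, 18, 24, 32]), (true, [0,
    1, 2, 4, 8, 12, 18, 24]), (true, [0, 1, 2, 4, 8, 12, 18, 24]), (false, [0, 1, 2, 4, 8, 12,
    18]), (false, [0, 1, 2, 4, 8, 12, 18]), (true, [0, 1, 2, 4, 8, 12]), (true, [0, 1, 2, 4, 8,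
    12]), (false, [0, 1, 2, 4, 8]), (false, [0, 1, 2, 4, 8]), (true, [0, 1, 2, 4]), (true, [0, 1,
    2, 4]), (false, [0, 1, 2]), (false, [0, 1, 2]), (true, [0, 1]), (true, [0, 1])]
    [[(1, (true, [1, 2, 4, 8, 12, 18, 24, 32, 40, 50, 60]), []), (2, (false, [0, 1, 2, 4, 8, 12,
    18, 24, 32, 40, 50]), []), (3, (false, [0, 1, 2, 4, 8, 12, 18, 24, 32, 40, 50]), []), (5,
    (true, [0, 1, 2, 4, 8, 12, 18, 24, 32, 40]), [])], [(1, (true, [1, 2, 4, 8, 12, 18, 24, 32, 40,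
    50, 60]), []), (2, (false, [0, 1, 2, 4, 8, 12, 18, 24, 32, 40, 50]), []), (3, (false, [0, 1, 2,
    4, 8, 12, 18, 24, 32, 40, 50]), []), (5, (true, [0, 1, 2, 4, 8, 12, 18, 24, 32, 40]), [])],
    [(1, (true, [1, 2, 4, 8, 12, 18, 24, 32, 40, 50, 60]), []), (2, (false, [0, 1, 2, 4, 8, 12, 18,
    24, 32, 40, 50]), []), (3, (false, [0, 1, 2, 4, 8, 12, 18, 24, 32, 40, 50]), []), (5, (true,
    [0, 1, 2, 4, 8, 12, 18, 24, 32, 40]), [])], [(1, (true, [1, 2, 4, 8, 12, 18, 24, 32, 40, 50,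
    60]), []), (2, (false, [0, 1, 2, 4, 8, 12, 18, 24, 32, 40, 50]), []), (3, (false, [0, 1, 2, 4,
    8, 12, 18, 24, 32, 40, 50]), []), (5, (true, [0, 1, 2, 4, 8, 12, 18, 24, 32, 40]), [])], [(1,
    (true, [1, 2, 4, 8, 12, 18, 24, 32, 40, 50, 60]), []), (2, (false, [0, 1, 2, 4, 8, 12, 18, 24,
    32, 40, 50]), []), (3, (false, [0, 1, 2, 4, 8, 12, 18, 24, 32, 40, 50]), []), (5, (true, [0, 1,
    2, 4, 8, 12, 18, 24, 32, 40]), [])], [(1, (true, [1, 2, 4, 8, 12, 18, 24, 32, 40, 50, 60]),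
    []), (2, (false, [0, 1, 2, 4, 8, 12, 18, 24, 32, 40, 50]), []), (3, (false, [0, 1, 2, 4, 8, 12,
    18, 24, 32, 40, 50]), []), (5, (true, [0, 1, 2, 4, 8, 12, 18, 24, 32, 40]), [])], [(1, (true,
    [1, 2, 4, 8, 12, 18, 24, 32, 40, 50, 60]), []), (2, (false, [0, 1, 2, 4, 8, 12, 18, 24, 32, 40,
    50]), []), (3, (false, [0, 1, 2, 4, 8, 12, 18, 24, 32, 40, 74]), []), (5, (true, [0, 1, 2, 4,
    8, 12, 18, 24, 32, 40]), [])], [(1, (true, [1, 2, 4, 8, 12, 18, 24, 32, 40, 50, 60]), []), (2,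
    (false, [0, 1, 2, 4, 8, 12, 18, 24, 32, 40, 50]), []), (3, (false, [0, 1, 2, 4, 8, 12, 18, 24,
    32, 40, 73]), []), (5, (true, [0, 1, 2, 4, 8, 12, 18, 24, 32, 40]), [])], [(1, (true, [1, 2, 3,
    5, 8, 12, 17, 24, 40, 50, 60]), []), (2, (false, [0, 1, 2, 4, 8, 12, 18, 24, 32, 40, 50]), []),
    (3, (false, [0, 1, 2, 3, 8, 12, 18, 24, 32, 40, 73]), []), (5, (true, [0, 1, 2, 4, 8, 12, 18,
    24, 32, 40]), [])], [(1, (true, [1, 2, 3, 5, 7, 11, 17, 24, 40, 50, 76]), []), (2, (false, [0,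
    1, 2, 4, 8, 12, 18, 24, 32, 40, 50]), []), (3, (false, [0, 1, 2, 3, 8, 12, 18, 24, 32, 40,
    72]), []), (5, (true, [0, 1, 2, 4, 8, 12, 18, 24, 32, 40]), [])], [(1, (true, [1, 2, 3, 5, 7,
    11, 17, 24, 33, 50, 60]), []), (2, (false, [0, 1, 2, 4, 8, 12, 18, 24, 32, 40, 50]), []), (3,
    (false, [0, 1, 2, 3, 8, 12, 18, 24, 32, 40, 72]), []), (5, (true, [0, 1, 2, 4, 8, 12, 18, 24,
    32, 40]), [])], [(1, (true, [1, 2, 3, 5, 7, 11, 17, 24, 33, 50, 60]), []), (2, (false, [0, 1,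
    2, 4, 8, 12, 18, 24, 32, 40, 50]), []), (3, (false, [0, 1, 2, 3, 5, 12, 18, 24, 32, 40, 50]),
    []), (5, (true, [0, 1, 2, 4, 8, 12, 18, 24, 32, 40]), [])], [(1, (true, [1, 2, 3, 5, 7, 11, 16,
    23, 32, 50, 60]), []), (2, (false, [0, 1, 2, 3, 8, 12, 18, 24, 32, 40, 50]), []), (3, (false,
    [0, 1, 2, 3, 5, 12, 18, 24, 32, 40, 50]), []), (5, (true, [0, 1, 2, 4, 8, 12, 18, 24, 32, 40]),
    [])], [(1, (true, [1, 2, 3, 5, 7, 11, 16, 23, 32, 50, 60]), []), (2, (false, [0, 1, 2, 3, 8,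
    12, 18, 24, 32, 40, 50]), []), (3, (false, [0, 1, 2, 3, 5, 12, 18, 24, 32, 40, 50]), []), (5,
    (true, [0, 1, 2, 4, 8, 12, 18, 24, 32, 40]), [])], [(1, (true, [1, 2, 3, 5, 7, 11, 16, 23, 31,
    50, 60]), []), (2, (false, [0, 1, 2, 3, 8, 12, 18, 24, 32, 40, 50]), []), (3, (false, [0, 1, 2,
    3, 5, 12, 18, 24, 32, 40, 50]), []), (5, (true, [0, 1, 2, 4, 8, 12, 18, 24, 32, 40]), [])],
    [(1, (true, [0, 1, 2, 3, 4, 7, 11, 16, 23, 31, 50, 70]), []), (2, (false, [0, 1, 2, 3, 8, 12,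
    18, 24, 32, 40, 50]), []), (3, (false, [0, 1, 2, 3, 5, 9, 18, 24, 32, 40, 50]), []), (5, (true,
    [0, 1, 2, 4, 8, 12, 18, 24, 32, 40]), [])], [(1, (true, [0, 1, 2, 3, 4, 7, 11, 15, 22, 31, 43,
    60]), []), (2, (false, [0, 1, 2, 3, 5, 12, 18, 24, 32, 40, 50]), []), (3, (false, [0, 1, 2, 3,
    5, 9, 18, 24, 32, 40, 50]), []), (5, (true, [0, 1, 2, 4, 8, 12, 18, 24, 32, 40]), [])], [(1,
    (true, [0, 1, 2, 3, 4, 7, 10, 15, 21, 30, 43, 60]), []), (2, (false, [0, 1, 2, 3, 5, 12, 18,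
    24, 32, 40, 50]), []), (3, (false, [0, 1, 2, 3, 5, 9, 18, 24, 32, 40, 50]), []), (5, (true, [0,
    1, 2, 4, 8, 12, 18, 24, 32, 40]), [])], [(1, (true, [0, 1, 2, 3, 4, 7, 9, 15, 21, 29, 42, 60]),
    []), (2, (false, [0, 1, 2, 3, 5, 12, 18, 24, 32, 40, 50]), []), (3, (false, [0, 1, 2, 3, 5, 9,
    13, 24, 32, 40, 50]), []), (5, (true, [0, 1, 2, 4, 8, 12, 18, 24, 32, 40]), [])], [(1, (true,
    []), [(true, [0, 1, 2, 3, 5, 7, 11, 24, 32, 40, 50, 60]), (true, [0, 1, 2, 3, 5, 7, 11, 24, 32,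
    40, 50, 60]), (true, [0, 1, 2, 3, 5, 7, 11, 24, 32, 40, 50, 60]), (true, [0, 1, 2, 3, 5, 7, 11,
    24, 32, 40, 50, 60]), (true, [0, 1, 2, 3, 5, 7, 11, 17, 32, 40, 50, 60]), (true, [0, 1, 2, 3,
    5, 7, 11, 17, 32, 40, 50, 60]), (true, [0, 1, 2, 3, 5, 7, 11, 17, 32, 40, 50, 60]), (true, [0,
    1, 2, 3, 5, 7, 11, 17, 32, 40, 50, 60]), (true, [0, 1, 2, 3, 5, 7, 11, 17, 23, 40, 50, 60]),
    (true, [0, 1, 2, 3, 5, 7, 11, 17, 23, 40, 50, 60]), (true, [0, 1, 2, 3, 5, 7, 11, 17, 23, 40,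
    50, 60]), (true, [0, 1, 2, 3, 5, 7, 11, 16, 23, 40, 50, 60]), (true, [0, 1, 2, 3, 5, 7, 11, 16,
    23, 31, 50, 60]), (true, [0, 1, 2, 3, 5, 7, 11, 16, 22, 31, 50, 60]), (true, [0, 1, 2, 3, 5, 7,
    11, 16, 22, 31, 43, 60]), (true, [0, 1, 2, 3, 4, 7, 11, 16, 22, 30, 43, 60]), (true, [0, 1, 2,
    3, 4, 7, 11, 16, 22, 30, 42, 60]), (true, [0, 1, 2, 3, 4, 7, 11, 16, 22, 30, 42, 60]), (true,
    [0, 1, 2, 3, 4, 7, 11, 16, 22, 30, 42, 60]), (true, [0, 1, 2, 3, 4, 7, 10, 16, 22, 30, 42,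
    60])]), (2, (false, [0, 1, 2, 3, 5, 12, 18, 24, 32, 40, 50]), []), (3, (false, [0, 1, 2, 3, 5,
    9, 13, 24, 32, 40, 50]), []), (5, (true, [0, 1, 2, 4, 8, 12, 18, 24, 32, 40]), [])]] = true := by
  decide +kernel

end Pool.Agent.Lib.MP_954e53_ag
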