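import Pool.Agent.Lib.MP_954e53_ag.NumTree

/-! Certificates in codimension 19, dimensions 22 to 39. -/

namespace Pool.Agent.Lib.MP_954e53_ag

theorem ok19_22 : okD (2 ^ 640) (2 ^ 319) 19 22 [1, 2, 3, 4]
    [(true, []), (true, []), (true, []), (true, []), (true, [0, 1, 2, 4, 8, 12, 18, 24, 32, 40]),
    (true, [0, 1, 2, 3, 8, 12, 18, 24, 38, 57]), (false, [0, 1, 2, 4, 8, 12, 18, 24, 32]), (false,
    [0, 1, 2, 4, 8, 12, 18, 24, 32]), (true, [0, 1, 2, 4, 8, 12, 18, 24]), (true, [0, 1, 2, 4, 8,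
    12, 18, 24]), (false, [0, 1, 2, 4, 8, 12, 18]), (false, [0, 1, 2, 4, 8, 12, 18]), (true, [0, 1,
    2, 4, 8, 12]), (true, [0, 1, 2, 4, 8, 12]), (false, [0, 1, 2, 4, 8]), (false, [0, 1, 2, 4, 8]),
    (true, [0, 1, 2, 4]), (true, [0, 1, 2, 4]), (false, [0, 1, 2]), (false, [0, 1, 2]), (true, [0,
    1]), (true, [0, 1])]
    [[(1, (true, [0, 1, 2, 4, 8, 12, 18, 24, 32, 40, 61, 87]), []), (2, (true, [1, 2, 4, 8, 12, 18,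
    24, 32, 40, 50, 85]), []), (3, (false, [0, 1, 2, 4, 8, 12, 18, 24, 32, 40, 50]), []), (4,
    (false, [0, 1, 2, 4, 8, 12, 18, 24, 32, 40, 50]), [])], [(1, (true, [0, 1, 2, 4, 8, 12, 18, 24,
    32, 40, 50, 60]), []), (2, (true, [1, 2, 4, 8, 12, 18, 24, 32, 40, 50, 88]), []), (3, (false,
    [0, 1, 2, 4, 8, 12, 18, 24, 32, 40, 50]), []), (4, (false, [0, 1, 2, 4, 8, 12, 18, 24, 32, 40,
    50]), [])], [(1, (true, [0, 1, 2, 4, 8, 12, 18, 24, 32, 40, 50, 88]), []), (2, (true, [1, 2, 4,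
    8, 12, 18, 24, 32, 40, 50, 87]), []), (3, (false, [0, 1, 2, 4, 8, 12, 18, 24, 32, 40, 50]),
    []), (4, (false, [0, 1, 2, 4, 8, 12, 18, 24, 32, 40, 50]), [])], [(1, (true, [0, 1, 2, 4, 6,
    12, 18, 24, 32, 40, 50, 88]), []), (2, (true, [1, 2, 4, 8, 12, 18, 24, 32, 40, 50, 86]), []),
    (3, (false, [0, 1, 2, 4, 8, 12, 18, 24, 32, 40, 50]), []), (4, (false, [0, 1, 2, 4, 8, 12, 18,
    24, 32, 40, 50]), [])], [(1, (true, [0, 1, 2, 4, 6, 12, 18, 24, 32, 40, 50, 87]), []), (2,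
    (true, [1, 2, 4, 8, 12, 18, 24, 32, 40, 50, 85]), []), (3, (false, [0, 1, 2, 4, 8, 12, 18, 24,
    32, 40, 50]), []), (4, (false, [0, 1, 2, 4, 8, 12, 18, 24, 32, 40, 50]), [])], [(1, (true, [0,
    1, 2, 4, 6, 12, 18, 24, 32, 40, 50, 86]), []), (2, (true, [1, 2, 4, 8, 12, 18, 24, 32, 40, 50,
    60]), []), (3, (false, [0, 1, 2, 4, 8, 12, 18, 24, 32, 40, 50]), []), (4, (false, [0, 1, 2, 4,
    8, 12, 18, 24, 32, 40, 50]), [])], [(1, (true, [0, 1, 2, 4, 6, 9, 18, 24, 32, 40, 50, 85]),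
    []), (2, (true, [1, 2, 4, 8, 12, 18, 24, 32, 40, 50, 60]), []), (3, (false, [0, 1, 2, 4, 8, 12,
    18, 24, 32, 40, 50]), []), (4, (false, [0, 1, 2, 4, 8, 12, 18, 24, 32, 40, 50]), [])], [(1,
    (true, [0, 1, 2, 4, 6, 9, 18, 24, 32, 40, 50, 84]), []), (2, (true, [0, 1, 2, 3, 5, 8, 13, 24,
    32, 40, 50, 60]), []), (3, (false, [0, 1, 2, 4, 8, 12, 18, 24, 32, 40, 50]), []), (4, (false,
    [0, 1, 2, 4, 8, 12, 18, 24, 32, 40, 50]), [])], [(1, (true, [0, 1, 2, 4, 6, 9, 13, 24, 32, 40,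
    50, 60]), []), (2, (true, [0, 1, 2, 3, 5, 8, 13, 24, 32, 40, 50, 60]), []), (3, (false, [0, 1,
    2, 4, 8, 12, 18, 24, 32, 40, 50]), []), (4, (false, [0, 1, 2, 4, 8, 12, 18, 24, 32, 40, 50]),
    [])], [(1, (true, [0, 1, 2, 3, 5, 12, 18, 24, 32, 40, 50, 60]), []), (2, (true, [0, 1, 2, 3, 5,
    9, 13, 18, 32, 40, 50, 60]), []), (3, (false, [0, 1, 2, 4, 8, 12, 18, 24, 32, 40, 50]), []),
    (4, (false, [0, 1, 2, 4, 8, 12, 18, 24, 32, 40, 50]), [])], [(1, (true, [0, 1, 2, 3, 5, 9, 18,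
    24, 32, 40, 50, 60]), []), (2, (true, [0, 1, 2, 3, 5, 9, 13, 18, 32, 40, 50, 60]), []), (3,
    (false, [0, 1, 2, 4, 8, 12, 18, 24, 32, 40, 50]), []), (4, (false, [0, 1, 2, 4, 8, 12, 18, 24,
    32, 40, 50]), [])], [(1, (true, [0, 1, 2, 3, 5, 9, 18, 24, 32, 40, 50, 60]), []), (2, (true,
    [0, 1, 2, 3, 5, 9, 13, 18, 32, 40, 50, 60]), []), (3, (false, [0, 1, 2, 4, 8, 12, 18, 24, 32,
    40, 50]), []), (4, (false, [0, 1, 2, 4, 8, 12, 18, 24, 32, 40, 50]), [])], [(1, (true, [0, 1,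
    2, 3, 5, 9, 18, 24, 32, 40, 50, 60]), []), (2, (true, [0, 1, 2, 3, 5, 7, 12, 17, 32, 40, 50,
    60]), []), (3, (false, [0, 1, 2, 4, 8, 12, 18, 24, 32, 40, 50]), []), (4, (false, [0, 1, 2, 4,
    8, 12, 18, 24, 32, 40, 50]), [])], [(1, (true, [0, 1, 2, 3, 5, 9, 13, 24, 32, 40, 50, 60]),
    []), (2, (true, [0, 1, 2, 3, 5, 7, 11, 17, 32, 40, 50, 60]), []), (3, (false, [0, 1, 2, 4, 8,
    12, 18, 24, 32, 40, 50]), []), (4, (false, [0, 1, 2, 4, 8, 12, 18, 24, 32, 40, 72]), [])], [(1,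
    (true, [0, 1, 2, 3, 5, 9, 13, 24, 32, 40, 50, 60]), []), (2, (true, [0, 1, 2, 3, 5, 7, 11, 17,
    32, 40, 50, 60]), []), (3, (false, [0, 1, 2, 4, 8, 12, 18, 24, 32, 40, 50]), []), (4, (false,
    [0, 1, 2, 3, 8, 12, 18, 24, 32, 40, 50]), [])], [(1, (true, [0, 1, 2, 3, 5, 9, 13, 24, 32, 40,
    50, 60]), []), (2, (true, [0, 1, 2, 3, 5, 7, 11, 17, 32, 40, 50, 60]), []), (3, (false, [0, 1,
    2, 4, 8, 12, 18, 24, 32, 40, 50]), []), (4, (false, [0, 1, 2, 3, 8, 12, 18, 24, 32, 40, 50]),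
    [])], [(1, (true, [0, 1, 2, 3, 5, 7, 11, 24, 32, 40, 50, 60]), []), (2, (true, [0, 1, 2, 3, 5,
    7, 11, 17, 23, 40, 50, 60]), []), (3, (false, [0, 1, 2, 4, 8, 12, 18, 24, 32, 40, 50]), []),
    (4, (false, [0, 1, 2, 3, 8, 12, 18, 24, 32, 40, 50]), [])], [(1, (true, [0, 1, 2, 3, 5, 7, 11,
    24, 32, 40, 50, 60]), []), (2, (true, [0, 1, 2, 3, 5, 7, 11, 17, 23, 40, 50, 60]), []), (3,
    (false, [0, 1, 2, 4, 8, 12, 18, 24, 32, 40, 50]), []), (4, (false, [0, 1, 2, 3, 5, 12, 18, 24,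
    32, 40, 50]), [])], [(1, (true, [0, 1, 2, 3, 5, 7, 11, 24, 32, 40, 50, 60]), []), (2, (true,
    [0, 1, 2, 3, 5, 7, 11, 17, 23, 40, 50, 60]), []), (3, (false, [0, 1, 2, 3, 8, 12, 18, 24, 32,
    40, 50]), []), (4, (false, [0, 1, 2, 3, 5, 12, 18, 24, 32, 40, 50]), [])], [(1, (true, [0, 1,
    2, 3, 5, 7, 11, 17, 32, 40, 50, 60]), []), (2, (true, [0, 1, 2, 3, 5, 7, 11, 17, 23, 31, 50,
    60]), []), (3, (false, [0, 1, 2, 3, 8, 12, 18, 24, 32, 40, 50]), []), (4, (false, [0, 1, 2, 3,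
    5, 12, 18, 24, 32, 40, 50]), [])]] = true := by
  decide +kernel

theorem ok19_23 : okD (2 ^ 640) (2 ^ 319) 19 23 [1, 2, 3]
    [(true, []), (true, []), (true, []), (true, [0, 1, 2, 4, 8, 12, 18, 24, 32, 58]), (true, [0, 1,
    2, 4, 8, 12, 18, 24, 32, 59]), (true, [0, 1, 2, 4, 8, 12, 18, 24, 32, 40]), (true, [0, 1, 2, 4,
    8, 12, 18, 24, 32, 40]), (false, [0, 1, 2, 4, 8, 12, 18, 24, 32]), (false, [0, 1, 2, 4, 8, 12,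
    18, 24, 32]), (true, [0, 1, 2, 4, 8, 12, 18, 24]), (true, [0, 1, 2, 4, 8, 12, 18, 24]), (false,
    [0, 1, 2, 4, 8, 12, 18]), (false, [0, 1, 2, 4, 8, 12, 18]), (true, [0, 1, 2, 4, 8, 12]), (true,
    [0, 1, 2, 4, 8, 12]), (false, [0, 1, 2, 4, 8]), (false, [0, 1, 2, 4, 8]), (true, [0, 1, 2, 4]),
    (true, [0, 1, 2, 4]), (false, [0, 1, 2]), (false, [0, 1, 2]), (true, [0, 1]), (true, [0, 1])]
    [[(1, (true, [0, 1, 2, 4, 8, 12, 18, 24, 32, 40, 50, 60]), []), (2, (true, [0, 1, 2, 4, 8, 12,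
    18, 24, 32, 40, 50, 60]), []), (3, (true, [0, 1, 2, 4, 8, 12, 18, 24, 32, 40, 64, 90]), [])],
    [(1, (true, [0, 1, 2, 4, 8, 12, 18, 24, 32, 40, 50, 60]), []), (2, (true, [0, 1, 2, 4, 8, 12,
    18, 24, 32, 40, 50, 60]), []), (3, (true, [0, 1, 2, 4, 8, 12, 18, 24, 32, 40, 50, 60]), [])],
    [(1, (true, [0, 1, 2, 4, 8, 12, 18, 24, 32, 40, 50, 60]), []), (2, (true, [0, 1, 2, 4, 8, 12,
    18, 24, 32, 40, 50, 60]), []), (3, (true, [0, 1, 2, 4, 8, 12, 18, 24, 32, 40, 50, 60]), [])],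
    [(1, (true, [0, 1, 2, 4, 8, 12, 18, 24, 32, 40, 50, 60]), []), (2, (true, [0, 1, 2, 4, 8, 12,
    18, 24, 32, 40, 50, 60]), []), (3, (true, [0, 1, 2, 4, 8, 12, 18, 24, 32, 40, 50, 91]), [])],
    [(1, (true, [0, 1, 2, 4, 8, 12, 18, 24, 32, 40, 50, 60]), []), (2, (true, [0, 1, 2, 4, 8, 12,
    18, 24, 32, 40, 50, 60]), []), (3, (true, [0, 1, 2, 4, 8, 12, 18, 24, 32, 40, 50, 90]), [])],
    [(1, (true, [0, 1, 2, 4, 8, 12, 18, 24, 32, 40, 50, 60]), []), (2, (true, [0, 1, 2, 4, 8, 12,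
    18, 24, 32, 40, 50, 60]), []), (3, (true, [0, 1, 2, 4, 8, 12, 18, 24, 32, 40, 63, 89]), [])],
    [(1, (true, [0, 1, 2, 4, 8, 12, 18, 24, 32, 40, 50, 60]), []), (2, (true, [0, 1, 2, 4, 8, 12,
    18, 24, 32, 40, 50, 60]), []), (3, (true, [0, 1, 2, 4, 6, 12, 18, 24, 32, 40, 62, 88]), [])],
    [(1, (true, [0, 1, 2, 4, 8, 12, 18, 24, 32, 40, 50, 60]), []), (2, (true, [0, 1, 2, 4, 8, 12,
    18, 24, 32, 40, 50, 60]), []), (3, (true, [0, 1, 2, 4, 6, 9, 18, 24, 32, 40, 50, 87]), [])],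
    [(1, (true, [0, 1, 2, 3, 5, 7, 11, 17, 23, 31, 50, 60]), []), (2, (true, [0, 1, 2, 4, 8, 12,
    18, 24, 32, 40, 50, 60]), []), (3, (true, [0, 1, 2, 3, 8, 12, 18, 24, 32, 40, 50, 86]), [])],
    [(1, (true, [0, 1, 2, 3, 5, 7, 11, 16, 23, 31, 50, 60]), []), (2, (true, [0, 1, 2, 4, 8, 12,
    18, 24, 32, 40, 50, 60]), []), (3, (true, [0, 1, 2, 3, 5, 12, 18, 24, 32, 40, 50, 85]), [])],
    [(1, (true, [0, 1, 2, 3, 5, 7, 11, 16, 23, 31, 50, 60]), []), (2, (true, [0, 1, 2, 4, 8, 12,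
    18, 24, 32, 40, 50, 86]), []), (3, (true, [0, 1, 2, 3, 5, 12, 18, 24, 32, 40, 50, 60]), [])],
    [(1, (true, [0, 1, 2, 3, 5, 7, 11, 16, 23, 31, 50, 60]), []), (2, (true, [0, 1, 2, 3, 8, 12,
    18, 24, 32, 40, 50, 85]), []), (3, (true, [0, 1, 2, 3, 5, 12, 18, 24, 32, 40, 50, 60]), [])],
    [(1, (true, [0, 1, 2, 3, 5, 7, 11, 16, 22, 30, 50, 60]), []), (2, (true, [0, 1, 2, 3, 8, 12,
    18, 24, 32, 40, 50, 60]), []), (3, (true, [0, 1, 2, 3, 5, 9, 18, 24, 32, 40, 50, 60]), [])],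
    [(1, (true, [0, 1, 2, 3, 5, 7, 11, 16, 22, 30, 50, 60]), []), (2, (true, [0, 1, 2, 3, 5, 12,
    18, 24, 32, 40, 50, 60]), []), (3, (true, [0, 1, 2, 3, 5, 9, 18, 24, 32, 40, 50, 60]), [])],
    [(1, (true, [0, 1, 2, 3, 5, 7, 11, 16, 22, 30, 50, 60]), []), (2, (true, [0, 1, 2, 3, 5, 12,
    18, 24, 32, 40, 50, 60]), []), (3, (true, [0, 1, 2, 3, 5, 9, 18, 24, 32, 40, 50, 60]), [])],
    [(1, (true, [0, 1, 2, 3, 5, 7, 11, 15, 21, 29, 50, 60]), []), (2, (true, [0, 1, 2, 3, 5, 12,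
    18, 24, 32, 40, 50, 60]), []), (3, (true, [0, 1, 2, 3, 5, 9, 13, 24, 32, 40, 50, 60]), [])],
    [(1, (true, [0, 1, 2, 3, 5, 7, 11, 15, 21, 29, 50, 60]), []), (2, (true, [0, 1, 2, 3, 5, 12,
    18, 24, 32, 40, 50, 60]), []), (3, (true, [0, 1, 2, 3, 5, 9, 13, 24, 32, 40, 50, 60]), [])],
    [(1, (true, [0, 1, 2, 3, 5, 7, 11, 15, 21, 29, 50, 60]), []), (2, (true, [0, 1, 2, 3, 5, 9, 18,
    24, 32, 40, 50, 60]), []), (3, (true, [0, 1, 2, 3, 5, 9, 13, 18, 32, 40, 50, 60]), [])], [(1,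
    (true, [0, 1, 2, 3, 5, 7, 11, 15, 21, 29, 50, 60]), []), (2, (true, [0, 1, 2, 3, 5, 9, 18, 24,
    32, 40, 50, 60]), []), (3, (true, [0, 1, 2, 3, 5, 7, 11, 24, 32, 40, 50, 60]), [])], [(1,
    (true, [0, 1, 2, 3, 5, 7, 11, 15, 21, 29, 50, 75]), []), (2, (true, [0, 1, 2, 3, 5, 9, 13, 24,
    32, 40, 50, 60]), []), (3, (true, [0, 1, 2, 3, 5, 7, 11, 24, 32, 40, 50, 60]), [])]] = true := by
  decide +kernel

theorem ok19_24 : okD (2 ^ 640) (2 ^ 319) 19 24 []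
    [(true, [0, 1, 2, 3, 5, 10, 14, 20, 28, 40, 50, 78]), (true, [0, 1, 2, 4, 6, 9, 14, 19, 32, 40,
    50, 79]), (true, [1, 2, 3, 5, 9, 13, 19, 27, 40, 50, 78]), (true, [1, 2, 3, 5, 8, 13, 18, 25,
    40, 50, 76]), (false, [0, 1, 2, 4, 8, 12, 18, 24, 32, 40, 50]), (true, [0, 1, 2, 4, 8, 12, 18,
    24, 32, 40]), (true, [0, 1, 2, 4, 8, 12, 18, 24, 32, 40]), (true, [0, 1, 2, 4, 8, 12, 18, 24,
    32, 40]), (false, [0, 1, 2, 4, 8, 12, 18, 24, 32]), (false, [0, 1, 2, 4, 8, 12, 18, 24, 32]),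
    (true, [0, 1, 2, 4, 8, 12, 18, 24]), (true, [0, 1, 2, 4, 8, 12, 18, 24]), (false, [0, 1, 2, 4,
    8, 12, 18]), (false, [0, 1, 2, 4, 8, 12, 18]), (true, [0, 1, 2, 4, 8, 12]), (true, [0, 1, 2, 4,
    8, 12]), (false, [0, 1, 2, 4, 8]), (false, [0, 1, 2, 4, 8]), (true, [0, 1, 2, 4]), (true, [0,
    1, 2, 4]), (false, [0, 1, 2]), (false, [0, 1, 2]), (true, [0, 1]), (true, [0, 1])]
    [] = true := by
  decide +kernel

theorem ok19_25 : okD (2 ^ 640) (2 ^ 319) 19 25 []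
    [(true, [0, 1, 2, 3, 5, 8, 11, 16, 22, 33, 60, 72, 84]), (true, [0, 1, 2, 3, 5, 8, 12, 17, 29,
    39, 50, 84]), (true, [0, 1, 2, 4, 8, 12, 18, 24, 32, 40, 50, 84]), (true, [1, 2, 4, 6, 10, 15,
    24, 32, 40, 50, 82]), (true, [1, 2, 3, 5, 9, 13, 20, 32, 40, 50, 81]), (false, [0, 1, 2, 4, 8,
    12, 18, 24, 32, 40, 50]), (false, [0, 1, 2, 4, 8, 12, 18, 24, 32, 40, 50]), (true, [0, 1, 2, 4,
    8, 12, 18, 24, 32, 40]), (true, [0, 1, 2, 4, 8, 12, 18, 24, 32, 40]), (false, [0, 1, 2, 4, 8,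
    12, 18, 24, 32]), (false, [0, 1, 2, 4, 8, 12, 18, 24, 32]), (true, [0, 1, 2, 4, 8, 12, 18,
    24]), (true, [0, 1, 2, 4, 8, 12, 18, 24]), (false, [0, 1, 2, 4, 8, 12, 18]), (false, [0, 1, 2,
    4, 8, 12, 18]), (true, [0, 1, 2, 4, 8, 12]), (true, [0, 1, 2, 4, 8, 12]), (false, [0, 1, 2, 4,
    8]), (false, [0, 1, 2, 4, 8]), (true, [0, 1, 2, 4]), (true, [0, 1, 2, 4]), (false, [0, 1, 2]),
    (false, [0, 1, 2]), (true, [0, 1]), (true, [0, 1])]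
    [] = true := by
  decide +kernel

theorem ok19_26 : okD (2 ^ 640) (2 ^ 319) 19 26 []
    [(true, [0, 1, 3, 5, 8, 12, 16, 32, 40, 50, 60, 72, 84]), (true, [0, 1, 3, 5, 8, 18, 24, 32,
    40, 50, 60, 72, 84]), (true, [0, 1, 2, 3, 5, 8, 13, 18, 25, 40, 50, 88]), (true, [0, 1, 2, 4,
    8, 12, 18, 24, 32, 40, 50, 60]), (true, [0, 1, 2, 4, 8, 12, 18, 24, 32, 40, 50, 60]), (true,
    [1, 2, 4, 8, 12, 18, 24, 32, 40, 50, 86]), (false, [0, 1, 2, 4, 8, 12, 18, 24, 32, 40, 50]),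
    (false, [0, 1, 2, 4, 8, 12, 18, 24, 32, 40, 50]), (true, [0, 1, 2, 4, 8, 12, 18, 24, 32, 40]),
    (true, [0, 1, 2, 4, 8, 12, 18, 24, 32, 40]), (false, [0, 1, 2, 4, 8, 12, 18, 24, 32]), (false,
    [0, 1, 2, 4, 8, 12, 18, 24, 32]), (true, [0, 1, 2, 4, 8, 12, 18, 24]), (true, [0, 1, 2, 4, 8,
    12, 18, 24]), (false, [0, 1, 2, 4, 8, 12, 18]), (false, [0, 1, 2, 4, 8, 12, 18]), (true, [0, 1,
    2, 4, 8, 12]), (true, [0, 1, 2, 4, 8, 12]), (false, [0, 1, 2, 4, 8]), (false, [0, 1, 2, 4, 8]),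
    (true, [0, 1, 2, 4]), (true, [0, 1, 2, 4]), (false, [0, 1, 2]), (false, [0, 1, 2]), (true, [0,
    1]), (true, [0, 1])]
    [] = true := by
  decide +kernel

theorem ok19_27 : okD (2 ^ 640) (2 ^ 319) 19 27 []
    [(true, [0, 1, 2, 3, 5, 8, 12, 17, 32, 40, 50, 60, 72, 84]), (true, [1, 2, 3, 5, 8, 12, 17, 23,
    30, 39, 60, 72, 84]), (true, [1, 2, 4, 8, 12, 18, 24, 32, 40, 50, 60, 72, 84]), (true, [0, 1,
    2, 4, 6, 9, 14, 20, 32, 40, 50, 60]), (true, [0, 1, 2, 4, 8, 12, 18, 24, 32, 40, 50, 60]),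
    (true, [0, 1, 2, 4, 8, 12, 18, 24, 32, 40, 50, 60]), (true, [0, 1, 2, 4, 8, 12, 18, 24, 32, 40,
    50, 60]), (false, [0, 1, 2, 4, 8, 12, 18, 24, 32, 40, 50]), (false, [0, 1, 2, 4, 8, 12, 18, 24,
    32, 40, 50]), (true, [0, 1, 2, 4, 8, 12, 18, 24, 32, 40]), (true, [0, 1, 2, 4, 8, 12, 18, 24,
    32, 40]), (false, [0, 1, 2, 4, 8, 12, 18, 24, 32]), (false, [0, 1, 2, 4, 8, 12, 18, 24, 32]),
    (true, [0, 1, 2, 4, 8, 12, 18, 24]), (true, [0, 1, 2, 4, 8, 12, 18, 24]), (false, [0, 1, 2, 4,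
    8, 12, 18]), (false, [0, 1, 2, 4, 8, 12, 18]), (true, [0, 1, 2, 4, 8, 12]), (true, [0, 1, 2, 4,
    8, 12]), (false, [0, 1, 2, 4, 8]), (false, [0, 1, 2, 4, 8]), (true, [0, 1, 2, 4]), (true, [0,
    1, 2, 4]), (false, [0, 1, 2]), (false, [0, 1, 2]), (true, [0, 1]), (true, [0, 1])]
    [] = true := by
  decide +kernel

theorem ok19_28 : okD (2 ^ 640) (2 ^ 319) 19 28 []
    [(true, [0, 1, 2, 4, 8, 12, 18, 24, 32, 40, 50, 60, 72, 84]), (true, [0, 1, 2, 4, 8, 12, 18,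
    24, 32, 40, 50, 60, 72, 84]), (true, [1, 2, 3, 5, 8, 12, 17, 24, 31, 50, 60, 72, 112]), (true,
    [1, 2, 4, 8, 12, 18, 24, 32, 40, 50, 60, 72, 84]), (false, [0, 1, 2, 4, 8, 12, 18, 24, 32, 40,
    50, 76, 105]), (true, [0, 1, 2, 4, 8, 12, 18, 24, 32, 40, 50, 75]), (true, [0, 1, 2, 4, 8, 12,
    18, 24, 32, 40, 50, 60]), (true, [0, 1, 2, 4, 8, 12, 18, 24, 32, 40, 50, 60]), (false, [0, 1,
    2, 4, 8, 12, 18, 24, 32, 40, 50]), (false, [0, 1, 2, 4, 8, 12, 18, 24, 32, 40, 50]), (true, [0,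
    1, 2, 4, 8, 12, 18, 24, 32, 40]), (true, [0, 1, 2, 4, 8, 12, 18, 24, 32, 40]), (false, [0, 1,
    2, 4, 8, 12, 18, 24, 32]), (false, [0, 1, 2, 4, 8, 12, 18, 24, 32]), (true, [0, 1, 2, 4, 8, 12,
    18, 24]), (true, [0, 1, 2, 4, 8, 12, 18, 24]), (false, [0, 1, 2, 4, 8, 12, 18]), (false, [0, 1,
    2, 4, 8, 12, 18]), (true, [0, 1, 2, 4, 8, 12]), (true, [0, 1, 2, 4, 8, 12]), (false, [0, 1, 2,
    4, 8]), (false, [0, 1, 2, 4, 8]), (true, [0, 1, 2, 4]), (true, [0, 1, 2, 4]), (false, [0, 1,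
    2]), (false, [0, 1, 2]), (true, [0, 1]), (true, [0, 1])]
    [] = true := by
  decide +kernel

theorem ok19_29 : okD (2 ^ 640) (2 ^ 319) 19 29 []
    [(true, [0, 1, 2, 3, 6, 8, 12, 18, 24, 32, 40, 50, 60, 72, 84]), (true, [0, 1, 2, 3, 5, 8, 12,
    17, 23, 30, 38, 49, 72, 84]), (true, [0, 1, 2, 4, 8, 12, 18, 24, 32, 40, 50, 60, 72, 84]),
    (true, [1, 2, 4, 6, 9, 13, 18, 25, 40, 50, 60, 72, 117]), (true, [1, 2, 3, 5, 8, 13, 18, 24,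
    33, 50, 60, 72, 116]), (false, [0, 1, 2, 4, 8, 12, 18, 24, 32, 40, 50, 60, 72]), (false, [0, 1,
    2, 4, 8, 12, 18, 24, 32, 40, 50, 60, 108]), (true, [0, 1, 2, 4, 8, 12, 18, 24, 32, 40, 50,
    60]), (true, [0, 1, 2, 4, 8, 12, 18, 24, 32, 40, 50, 60]), (false, [0, 1, 2, 4, 8, 12, 18, 24,
    32, 40, 50]), (false, [0, 1, 2, 4, 8, 12, 18, 24, 32, 40, 50]), (true, [0, 1, 2, 4, 8, 12, 18,
    24, 32, 40]), (true, [0, 1, 2, 4, 8, 12, 18, 24, 32, 40]), (false, [0, 1, 2, 4, 8, 12, 18, 24,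
    32]), (false, [0, 1, 2, 4, 8, 12, 18, 24, 32]), (true, [0, 1, 2, 4, 8, 12, 18, 24]), (true, [0,
    1, 2, 4, 8, 12, 18, 24]), (false, [0, 1, 2, 4, 8, 12, 18]), (false, [0, 1, 2, 4, 8, 12, 18]),
    (true, [0, 1, 2, 4, 8, 12]), (true, [0, 1, 2, 4, 8, 12]), (false, [0, 1, 2, 4, 8]), (false, [0,
    1, 2, 4, 8]), (true, [0, 1, 2, 4]), (true, [0, 1, 2, 4]), (false, [0, 1, 2]), (false, [0, 1,
    2]), (true, [0, 1]), (true, [0, 1])]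
    [] = true := by
  decide +kernel

theorem ok19_30 : okD (2 ^ 640) (2 ^ 319) 19 30 []
    [(true, [1, 2, 4, 8, 12, 18, 24, 32, 40, 50, 60, 72, 84, 98, 112]), (true, [1, 2, 4, 8, 12, 18,
    24, 32, 40, 50, 60, 72, 84, 98, 112]), (true, [0, 1, 2, 3, 5, 8, 12, 17, 23, 30, 39, 60, 72,
    84]), (true, [0, 1, 2, 4, 8, 12, 18, 24, 32, 40, 50, 60, 72, 84]), (true, [1, 2, 4, 8, 12, 18,
    24, 32, 40, 50, 60, 90, 122]), (true, [1, 2, 4, 6, 9, 14, 19, 26, 40, 50, 60, 88, 121]),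
    (false, [0, 1, 2, 4, 8, 12, 18, 24, 32, 40, 50, 60, 72]), (false, [0, 1, 2, 4, 8, 12, 18, 24,
    32, 40, 50, 60, 72]), (true, [0, 1, 2, 4, 8, 12, 18, 24, 32, 40, 50, 60]), (true, [0, 1, 2, 4,
    8, 12, 18, 24, 32, 40, 50, 60]), (false, [0, 1, 2, 4, 8, 12, 18, 24, 32, 40, 50]), (false, [0,
    1, 2, 4, 8, 12, 18, 24, 32, 40, 50]), (true, [0, 1, 2, 4, 8, 12, 18, 24, 32, 40]), (true, [0,
    1, 2, 4, 8, 12, 18, 24, 32, 40]), (false, [0, 1, 2, 4, 8, 12, 18, 24, 32]), (false, [0, 1, 2,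
    4, 8, 12, 18, 24, 32]), (true, [0, 1, 2, 4, 8, 12, 18, 24]), (true, [0, 1, 2, 4, 8, 12, 18,
    24]), (false, [0, 1, 2, 4, 8, 12, 18]), (false, [0, 1, 2, 4, 8, 12, 18]), (true, [0, 1, 2, 4,
    8, 12]), (true, [0, 1, 2, 4, 8, 12]), (false, [0, 1, 2, 4, 8]), (false, [0, 1, 2, 4, 8]),
    (true, [0, 1, 2, 4]), (true, [0, 1, 2, 4]), (false, [0, 1, 2]), (false, [0, 1, 2]), (true, [0,
    1]), (true, [0, 1])]
    [] = true := by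
  decide +kernel

theorem ok19_31 : okD (2 ^ 640) (2 ^ 319) 19 31 []
    [(true, [0, 1, 2, 4, 6, 9, 13, 17, 23, 40, 50, 60, 72, 84, 98, 112]), (true, [1, 2, 3, 5, 8,
    12, 17, 22, 29, 37, 47, 59, 84, 98, 112]), (true, [1, 2, 4, 8, 12, 18, 24, 32, 40, 50, 60, 72,
    84, 98, 112]), (true, [0, 1, 2, 4, 6, 9, 13, 18, 24, 32, 42, 60, 72, 84]), (true, [0, 1, 2, 3,
    5, 8, 12, 17, 24, 31, 41, 60, 72, 84]), (true, [0, 1, 2, 4, 8, 12, 18, 24, 32, 40, 50, 60, 72,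
    84]), (true, [1, 2, 4, 8, 12, 18, 24, 32, 40, 50, 60, 92, 126]), (false, [0, 1, 2, 4, 8, 12,
    18, 24, 32, 40, 50, 60, 72]), (false, [0, 1, 2, 4, 8, 12, 18, 24, 32, 40, 50, 60, 72]), (true,
    [0, 1, 2, 4, 8, 12, 18, 24, 32, 40, 50, 60]), (true, [0, 1, 2, 4, 8, 12, 18, 24, 32, 40, 50,
    60]), (false, [0, 1, 2, 4, 8, 12, 18, 24, 32, 40, 50]), (false, [0, 1, 2, 4, 8, 12, 18, 24, 32,
    40, 50]), (true, [0, 1, 2, 4, 8, 12, 18, 24, 32, 40]), (true, [0, 1, 2, 4, 8, 12, 18, 24, 32,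
    40]), (false, [0, 1, 2, 4, 8, 12, 18, 24, 32]), (false, [0, 1, 2, 4, 8, 12, 18, 24, 32]),
    (true, [0, 1, 2, 4, 8, 12, 18, 24]), (true, [0, 1, 2, 4, 8, 12, 18, 24]), (false, [0, 1, 2, 4,
    8, 12, 18]), (false, [0, 1, 2, 4, 8, 12, 18]), (true, [0, 1, 2, 4, 8, 12]), (true, [0, 1, 2, 4,
    8, 12]), (false, [0, 1, 2, 4, 8]), (false, [0, 1, 2, 4, 8]), (true, [0, 1, 2, 4]), (true, [0,
    1, 2, 4]), (false, [0, 1, 2]), (false, [0, 1, 2]), (true, [0, 1]), (true, [0, 1])]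
    [] = true := by
  decide +kernel

theorem ok19_32 : okD (2 ^ 640) (2 ^ 319) 19 32 []
    [(true, [0, 1, 2, 3, 5, 8, 12, 16, 22, 28, 36, 60, 72, 84, 98, 112]), (true, [0, 1, 2, 4, 8,
    12, 18, 24, 32, 40, 50, 60, 72, 84, 98, 112]), (true, [1, 2, 3, 5, 8, 12, 17, 23, 30, 38, 48,
    72, 84, 98, 127]), (true, [1, 2, 4, 8, 12, 18, 24, 32, 40, 50, 60, 72, 84, 98, 112]), (false,
    [0, 1, 2, 4, 6, 9, 14, 19, 26, 40, 50, 60, 72, 102, 127]), (true, [0, 1, 2, 4, 6, 9, 13, 19,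
    25, 33, 50, 60, 72, 101]), (true, [0, 1, 2, 4, 8, 12, 18, 24, 32, 40, 50, 60, 72, 84]), (true,
    [0, 1, 2, 4, 8, 12, 18, 24, 32, 40, 50, 60, 72, 84]), (false, [0, 1, 2, 4, 8, 12, 18, 24, 32,
    40, 50, 60, 72]), (false, [0, 1, 2, 4, 8, 12, 18, 24, 32, 40, 50, 60, 72]), (true, [0, 1, 2, 4,
    8, 12, 18, 24, 32, 40, 50, 60]), (true, [0, 1, 2, 4, 8, 12, 18, 24, 32, 40, 50, 60]), (false,
    [0, 1, 2, 4, 8, 12, 18, 24, 32, 40, 50]), (false, [0, 1, 2, 4, 8, 12, 18, 24, 32, 40, 50]),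
    (true, [0, 1, 2, 4, 8, 12, 18, 24, 32, 40]), (true, [0, 1, 2, 4, 8, 12, 18, 24, 32, 40]),
    (false, [0, 1, 2, 4, 8, 12, 18, 24, 32]), (false, [0, 1, 2, 4, 8, 12, 18, 24, 32]), (true, [0,
    1, 2, 4, 8, 12, 18, 24]), (true, [0, 1, 2, 4, 8, 12, 18, 24]), (false, [0, 1, 2, 4, 8, 12,
    18]), (false, [0, 1, 2, 4, 8, 12, 18]), (true, [0, 1, 2, 4, 8, 12]), (true, [0, 1, 2, 4, 8,
    12]), (false, [0, 1, 2, 4, 8]), (false, [0, 1, 2, 4, 8]), (true, [0, 1, 2, 4]), (true, [0, 1,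
    2, 4]), (false, [0, 1, 2]), (false, [0, 1, 2]), (true, [0, 1]), (true, [0, 1])]
    [] = true := by
  decide +kernel

theorem ok19_33 : okD (2 ^ 640) (2 ^ 319) 19 33 []
    [(true, [0, 1, 2, 3, 6, 8, 12, 18, 24, 32, 40, 50, 60, 72, 84, 98, 112]), (true, [0, 1, 2, 3,
    5, 8, 12, 17, 22, 29, 37, 46, 57, 84, 98, 112]), (true, [0, 1, 2, 4, 8, 12, 18, 24, 32, 40, 50,
    60, 72, 84, 98, 112]), (true, [1, 2, 4, 6, 9, 13, 18, 24, 31, 40, 51, 72, 84, 98, 127]), (true,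
    [1, 2, 3, 5, 8, 12, 17, 23, 30, 39, 50, 72, 84, 98, 127]), (false, [0, 1, 2, 4, 8, 12, 18, 24,
    32, 40, 50, 60, 72, 84, 98]), (true, [0, 1, 2, 4, 8, 12, 18, 24, 32, 40, 50, 60, 72, 104]),
    (true, [0, 1, 2, 4, 8, 12, 18, 24, 32, 40, 50, 60, 72, 84]), (true, [0, 1, 2, 4, 8, 12, 18, 24,
    32, 40, 50, 60, 72, 84]), (false, [0, 1, 2, 4, 8, 12, 18, 24, 32, 40, 50, 60, 72]), (false, [0,
    1, 2, 4, 8, 12, 18, 24, 32, 40, 50, 60, 72]), (true, [0, 1, 2, 4, 8, 12, 18, 24, 32, 40, 50,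
    60]), (true, [0, 1, 2, 4, 8, 12, 18, 24, 32, 40, 50, 60]), (false, [0, 1, 2, 4, 8, 12, 18, 24,
    32, 40, 50]), (false, [0, 1, 2, 4, 8, 12, 18, 24, 32, 40, 50]), (true, [0, 1, 2, 4, 8, 12, 18,
    24, 32, 40]), (true, [0, 1, 2, 4, 8, 12, 18, 24, 32, 40]), (false, [0, 1, 2, 4, 8, 12, 18, 24,
    32]), (false, [0, 1, 2, 4, 8, 12, 18, 24, 32]), (true, [0, 1, 2, 4, 8, 12, 18, 24]), (true, [0,
    1, 2, 4, 8, 12, 18, 24]), (false, [0, 1, 2, 4, 8, 12, 18]), (false, [0, 1, 2, 4, 8, 12, 18]),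
    (true, [0, 1, 2, 4, 8, 12]), (true, [0, 1, 2, 4, 8, 12]), (false, [0, 1, 2, 4, 8]), (false, [0,
    1, 2, 4, 8]), (true, [0, 1, 2, 4]), (true, [0, 1, 2, 4]), (false, [0, 1, 2]), (false, [0, 1,
    2]), (true, [0, 1]), (true, [0, 1])]
    [] = true := by
  decide +kernel

theorem ok19_34 : okD (2 ^ 640) (2 ^ 319) 19 34 []
    [(true, [1, 2, 4, 8, 12, 18, 24, 32, 40, 50, 60, 72, 84, 98, 112, 126, 127]), (true, [1, 2, 4,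
    8, 12, 18, 24, 32, 40, 50, 60, 72, 84, 98, 112, 126, 127]), (true, [0, 1, 2, 3, 5, 8, 12, 17,
    23, 30, 38, 47, 58, 84, 98, 112]), (true, [0, 1, 2, 4, 8, 12, 18, 24, 32, 40, 50, 60, 72, 84,
    98, 112]), (true, [1, 2, 4, 6, 9, 13, 18, 25, 32, 42, 60, 72, 84, 98, 127]), (true, [1, 2, 4,
    6, 9, 13, 18, 24, 32, 41, 60, 72, 84, 98, 127]), (false, [0, 1, 2, 4, 8, 12, 18, 24, 32, 40,
    50, 60, 72, 84, 98]), (false, [0, 1, 2, 4, 8, 12, 18, 24, 32, 40, 50, 60, 72, 84, 98]), (true,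
    [0, 1, 2, 4, 8, 12, 18, 24, 32, 40, 50, 60, 72, 84]), (true, [0, 1, 2, 4, 8, 12, 18, 24, 32,
    40, 50, 60, 72, 84]), (false, [0, 1, 2, 4, 8, 12, 18, 24, 32, 40, 50, 60, 72]), (false, [0, 1,
    2, 4, 8, 12, 18, 24, 32, 40, 50, 60, 72]), (true, [0, 1, 2, 4, 8, 12, 18, 24, 32, 40, 50, 60]),
    (true, [0, 1, 2, 4, 8, 12, 18, 24, 32, 40, 50, 60]), (false, [0, 1, 2, 4, 8, 12, 18, 24, 32,
    40, 50]), (false, [0, 1, 2, 4, 8, 12, 18, 24, 32, 40, 50]), (true, [0, 1, 2, 4, 8, 12, 18, 24,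
    32, 40]), (true, [0, 1, 2, 4, 8, 12, 18, 24, 32, 40]), (false, [0, 1, 2, 4, 8, 12, 18, 24,
    32]), (false, [0, 1, 2, 4, 8, 12, 18, 24, 32]), (true, [0, 1, 2, 4, 8, 12, 18, 24]), (true, [0,
    1, 2, 4, 8, 12, 18, 24]), (false, [0, 1, 2, 4, 8, 12, 18]), (false, [0, 1, 2, 4, 8, 12, 18]),
    (true, [0, 1, 2, 4, 8, 12]), (true, [0, 1, 2, 4, 8, 12]), (false, [0, 1, 2, 4, 8]), (false, [0,
    1, 2, 4, 8]), (true, [0, 1, 2, 4]), (true, [0, 1, 2, 4]), (false, [0, 1, 2]), (false, [0, 1,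
    2]), (true, [0, 1]), (true, [0, 1])]
    [] = true := by
  decide +kernel

theorem ok19_35 : okD (2 ^ 640) (2 ^ 319) 19 35 []
    [(true, [0, 1, 2, 4, 6, 9, 13, 17, 23, 40, 50, 60, 72, 84, 98, 112, 125, 126]), (true, [1, 2,
    3, 5, 8, 12, 16, 22, 28, 36, 45, 55, 66, 80, 96, 126, 127]), (true, [1, 2, 4, 8, 12, 18, 24,
    32, 40, 50, 60, 72, 84, 98, 112, 126, 127]), (true, [0, 1, 2, 4, 6, 9, 13, 18, 24, 31, 39, 49,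
    60, 84, 98, 112]), (true, [0, 1, 2, 3, 5, 8, 12, 17, 23, 30, 38, 48, 60, 84, 98, 112]), (true,
    [0, 1, 2, 4, 8, 12, 15, 20, 32, 40, 50, 60, 72, 84, 98, 127]), (true, [1, 2, 4, 6, 9, 14, 19,
    26, 33, 43, 60, 72, 84, 111, 127]), (false, [0, 1, 2, 4, 8, 12, 18, 24, 32, 40, 50, 60, 72, 84,
    98]), (false, [0, 1, 2, 4, 8, 12, 18, 24, 32, 40, 50, 60, 72, 84, 98]), (true, [0, 1, 2, 4, 8,
    12, 18, 24, 32, 40, 50, 60, 72, 84]), (true, [0, 1, 2, 4, 8, 12, 18, 24, 32, 40, 50, 60, 72,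
    84]), (false, [0, 1, 2, 4, 8, 12, 18, 24, 32, 40, 50, 60, 72]), (false, [0, 1, 2, 4, 8, 12, 18,
    24, 32, 40, 50, 60, 72]), (true, [0, 1, 2, 4, 8, 12, 18, 24, 32, 40, 50, 60]), (true, [0, 1, 2,
    4, 8, 12, 18, 24, 32, 40, 50, 60]), (false, [0, 1, 2, 4, 8, 12, 18, 24, 32, 40, 50]), (false,
    [0, 1, 2, 4, 8, 12, 18, 24, 32, 40, 50]), (true, [0, 1, 2, 4, 8, 12, 18, 24, 32, 40]), (true,
    [0, 1, 2, 4, 8, 12, 18, 24, 32, 40]), (false, [0, 1, 2, 4, 8, 12, 18, 24, 32]), (false, [0, 1,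
    2, 4, 8, 12, 18, 24, 32]), (true, [0, 1, 2, 4, 8, 12, 18, 24]), (true, [0, 1, 2, 4, 8, 12, 18,
    24]), (false, [0, 1, 2, 4, 8, 12, 18]), (false, [0, 1, 2, 4, 8, 12, 18]), (true, [0, 1, 2, 4,
    8, 12]), (true, [0, 1, 2, 4, 8, 12]), (false, [0, 1, 2, 4, 8]), (false, [0, 1, 2, 4, 8]),
    (true, [0, 1, 2, 4]), (true, [0, 1, 2, 4]), (false, [0, 1, 2]), (false, [0, 1, 2]), (true, [0,
    1]), (true, [0, 1])]
    [] = true := by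
  decide +kernel

theorem ok19_36 : okD (2 ^ 640) (2 ^ 319) 19 36 []
    [(true, [0, 1, 2, 4, 8, 12, 18, 24, 32, 40, 50, 60, 72, 84, 98, 112, 125, 126]), (true, [0, 1,
    2, 4, 8, 12, 18, 24, 32, 40, 50, 60, 72, 84, 98, 112, 125, 126]), (true, [1, 2, 3, 5, 8, 12,
    17, 23, 29, 37, 46, 56, 68, 82, 97, 115, 127]), (true, [1, 2, 4, 8, 12, 18, 24, 32, 40, 50, 60,
    72, 84, 98, 112, 126, 127]), (true, [0, 1, 2, 4, 6, 9, 13, 18, 24, 31, 40, 50, 62, 84, 98,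
    112]), (true, [0, 1, 2, 4, 6, 9, 13, 18, 24, 31, 39, 49, 61, 84, 98, 112]), (true, [0, 1, 2, 4,
    8, 12, 18, 24, 32, 40, 50, 60, 72, 84, 98, 112]), (true, [0, 1, 2, 4, 8, 12, 18, 24, 32, 40,
    50, 60, 72, 84, 98, 127]), (false, [0, 1, 2, 4, 8, 12, 18, 24, 32, 40, 50, 60, 72, 84, 98]),
    (false, [0, 1, 2, 4, 8, 12, 18, 24, 32, 40, 50, 60, 72, 84, 98]), (true, [0, 1, 2, 4, 8, 12,
    18, 24, 32, 40, 50, 60, 72, 84]), (true, [0, 1, 2, 4, 8, 12, 18, 24, 32, 40, 50, 60, 72, 84]),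
    (false, [0, 1, 2, 4, 8, 12, 18, 24, 32, 40, 50, 60, 72]), (false, [0, 1, 2, 4, 8, 12, 18, 24,
    32, 40, 50, 60, 72]), (true, [0, 1, 2, 4, 8, 12, 18, 24, 32, 40, 50, 60]), (true, [0, 1, 2, 4,
    8, 12, 18, 24, 32, 40, 50, 60]), (false, [0, 1, 2, 4, 8, 12, 18, 24, 32, 40, 50]), (false, [0,
    1, 2, 4, 8, 12, 18, 24, 32, 40, 50]), (true, [0, 1, 2, 4, 8, 12, 18, 24, 32, 40]), (true, [0,
    1, 2, 4, 8, 12, 18, 24, 32, 40]), (false, [0, 1, 2, 4, 8, 12, 18, 24, 32]), (false, [0, 1, 2,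
    4, 8, 12, 18, 24, 32]), (true, [0, 1, 2, 4, 8, 12, 18, 24]), (true, [0, 1, 2, 4, 8, 12, 18,
    24]), (false, [0, 1, 2, 4, 8, 12, 18]), (false, [0, 1, 2, 4, 8, 12, 18]), (true, [0, 1, 2, 4,
    8, 12]), (true, [0, 1, 2, 4, 8, 12]), (false, [0, 1, 2, 4, 8]), (false, [0, 1, 2, 4, 8]),
    (true, [0, 1, 2, 4]), (true, [0, 1, 2, 4]), (false, [0, 1, 2]), (false, [0, 1, 2]), (true, [0,
    1]), (true, [0, 1])]
    [] = true := by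
  decide +kernel

theorem ok19_37 : okD (2 ^ 640) (2 ^ 319) 19 37 []
    [(true, [0, 1, 2, 3, 6, 8, 12, 18, 24, 32, 40, 50, 60, 72, 84, 98, 112, 124, 125]), (true, [0,
    1, 2, 3, 5, 8, 10, 13, 17, 22, 28, 36, 45, 55, 71, 87, 103, 118]), (true, [0, 1, 2, 4, 8, 12,
    18, 24, 32, 40, 50, 60, 72, 84, 98, 112, 125, 126]), (true, [1, 2, 4, 6, 9, 13, 18, 24, 30, 38,
    47, 57, 69, 83, 99, 117, 127]), (true, [1, 2, 3, 5, 8, 12, 17, 23, 30, 38, 47, 57, 69, 83, 98,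
    116, 127]), (false, [0, 1, 2, 4, 8, 12, 15, 20, 26, 33, 42, 60, 72, 84, 98, 112, 127]), (true,
    [0, 1, 2, 4, 6, 9, 13, 18, 25, 32, 41, 51, 72, 84, 98, 112]), (true, [0, 1, 2, 4, 8, 12, 18,
    24, 32, 40, 50, 60, 72, 84, 98, 112]), (true, [0, 1, 2, 4, 8, 12, 18, 24, 32, 40, 50, 60, 72,
    84, 98, 112]), (false, [0, 1, 2, 4, 8, 12, 18, 24, 32, 40, 50, 60, 72, 84, 98]), (false, [0, 1,
    2, 4, 8, 12, 18, 24, 32, 40, 50, 60, 72, 84, 98]), (true, [0, 1, 2, 4, 8, 12, 18, 24, 32, 40,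
    50, 60, 72, 84]), (true, [0, 1, 2, 4, 8, 12, 18, 24, 32, 40, 50, 60, 72, 84]), (false, [0, 1,
    2, 4, 8, 12, 18, 24, 32, 40, 50, 60, 72]), (false, [0, 1, 2, 4, 8, 12, 18, 24, 32, 40, 50, 60,
    72]), (true, [0, 1, 2, 4, 8, 12, 18, 24, 32, 40, 50, 60]), (true, [0, 1, 2, 4, 8, 12, 18, 24,
    32, 40, 50, 60]), (false, [0, 1, 2, 4, 8, 12, 18, 24, 32, 40, 50]), (false, [0, 1, 2, 4, 8, 12,
    18, 24, 32, 40, 50]), (true, [0, 1, 2, 4, 8, 12, 18, 24, 32, 40]), (true, [0, 1, 2, 4, 8, 12,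
    18, 24, 32, 40]), (false, [0, 1, 2, 4, 8, 12, 18, 24, 32]), (false, [0, 1, 2, 4, 8, 12, 18, 24,
    32]), (true, [0, 1, 2, 4, 8, 12, 18, 24]), (true, [0, 1, 2, 4, 8, 12, 18, 24]), (false, [0, 1,
    2, 4, 8, 12, 18]), (false, [0, 1, 2, 4, 8, 12, 18]), (true, [0, 1, 2, 4, 8, 12]), (true, [0, 1,
    2, 4, 8, 12]), (false, [0, 1, 2, 4, 8]), (false, [0, 1, 2, 4, 8]), (true, [0, 1, 2, 4]), (true,
    [0, 1, 2, 4]), (false, [0, 1, 2]), (false, [0, 1, 2]), (true, [0, 1]), (true, [0, 1])]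
    [] = true := by
  decide +kernel

theorem ok19_38 : okD (2 ^ 640) (2 ^ 319) 19 38 []
    [(true, [0, 1, 2, 3, 5, 8, 12, 16, 21, 27, 35, 47, 58, 70, 112, 124, 125, 126, 127]), (true,
    [0, 1, 2, 3, 5, 8, 11, 15, 20, 27, 37, 47, 58, 70, 112, 124, 125, 126, 127]), (true, [0, 1, 2,
    3, 5, 8, 12, 14, 18, 24, 30, 38, 47, 57, 69, 93, 108, 120]), (true, [0, 1, 2, 4, 8, 12, 18, 24,
    32, 40, 50, 60, 72, 84, 98, 112, 125, 126]), (true, [1, 2, 4, 6, 9, 13, 18, 24, 31, 39, 48, 58,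
    70, 84, 100, 117, 127]), (true, [1, 2, 4, 6, 9, 13, 18, 24, 31, 39, 48, 58, 70, 84, 100, 117,
    127]), (false, [0, 1, 2, 4, 8, 12, 18, 24, 32, 40, 50, 60, 72, 84, 98, 112, 127]), (false, [0,
    1, 2, 4, 8, 12, 15, 20, 26, 40, 50, 60, 72, 84, 98, 112, 127]), (true, [0, 1, 2, 4, 8, 12, 18,
    24, 32, 40, 50, 60, 72, 84, 98, 112]), (true, [0, 1, 2, 4, 8, 12, 18, 24, 32, 40, 50, 60, 72,
    84, 98, 112]), (false, [0, 1, 2, 4, 8, 12, 18, 24, 32, 40, 50, 60, 72, 84, 98]), (false, [0, 1,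
    2, 4, 8, 12, 18, 24, 32, 40, 50, 60, 72, 84, 98]), (true, [0, 1, 2, 4, 8, 12, 18, 24, 32, 40,
    50, 60, 72, 84]), (true, [0, 1, 2, 4, 8, 12, 18, 24, 32, 40, 50, 60, 72, 84]), (false, [0, 1,
    2, 4, 8, 12, 18, 24, 32, 40, 50, 60, 72]), (false, [0, 1, 2, 4, 8, 12, 18, 24, 32, 40, 50, 60,
    72]), (true, [0, 1, 2, 4, 8, 12, 18, 24, 32, 40, 50, 60]), (true, [0, 1, 2, 4, 8, 12, 18, 24,
    32, 40, 50, 60]), (false, [0, 1, 2, 4, 8, 12, 18, 24, 32, 40, 50]), (false, [0, 1, 2, 4, 8, 12,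
    18, 24, 32, 40, 50]), (true, [0, 1, 2, 4, 8, 12, 18, 24, 32, 40]), (true, [0, 1, 2, 4, 8, 12,
    18, 24, 32, 40]), (false, [0, 1, 2, 4, 8, 12, 18, 24, 32]), (false, [0, 1, 2, 4, 8, 12, 18, 24,
    32]), (true, [0, 1, 2, 4, 8, 12, 18, 24]), (true, [0, 1, 2, 4, 8, 12, 18, 24]), (false, [0, 1,
    2, 4, 8, 12, 18]), (false, [0, 1, 2, 4, 8, 12, 18]), (true, [0, 1, 2, 4, 8, 12]), (true, [0, 1,
    2, 4, 8, 12]), (false, [0, 1, 2, 4, 8]), (false, [0, 1, 2, 4, 8]), (true, [0, 1, 2, 4]), (true,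
    [0, 1, 2, 4]), (false, [0, 1, 2]), (false, [0, 1, 2]), (true, [0, 1]), (true, [0, 1])]
    [] = true := by
  decide +kernel

theorem ok19_39 : okD (2 ^ 640) (2 ^ 319) 19 39 []
    [(true, [0, 1, 2, 4, 6, 9, 13, 17, 22, 28, 36, 44, 72, 84, 98, 112, 123, 124, 125, 126]),
    (true, [1, 2, 3, 5, 8, 10, 13, 17, 22, 28, 35, 44, 51, 61, 73, 87, 106, 126, 127]), (true, [1,
    2, 4, 8, 12, 18, 24, 32, 40, 50, 60, 72, 84, 98, 112, 124, 125, 126, 127]), (true, [0, 1, 2, 4,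
    6, 9, 13, 18, 23, 30, 38, 46, 56, 67, 80, 94, 109, 126]), (true, [0, 1, 2, 3, 5, 8, 12, 15, 19,
    24, 31, 39, 48, 59, 71, 94, 109, 120]), (true, [0, 1, 2, 4, 8, 12, 15, 19, 25, 32, 40, 49, 60,
    72, 86, 102, 119, 127]), (true, [1, 2, 4, 6, 9, 13, 18, 24, 31, 39, 48, 59, 71, 85, 101, 118,
    127]), (false, [0, 1, 2, 4, 8, 12, 18, 24, 32, 40, 50, 60, 72, 84, 98, 112, 127]), (false, [0,
    1, 2, 4, 8, 12, 18, 24, 32, 40, 50, 60, 72, 84, 98, 112, 127]), (true, [0, 1, 2, 4, 8, 12, 18,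
    24, 32, 40, 50, 60, 72, 84, 98, 112]), (true, [0, 1, 2, 4, 8, 12, 18, 24, 32, 40, 50, 60, 72,
    84, 98, 112]), (false, [0, 1, 2, 4, 8, 12, 18, 24, 32, 40, 50, 60, 72, 84, 98]), (false, [0, 1,
    2, 4, 8, 12, 18, 24, 32, 40, 50, 60, 72, 84, 98]), (true, [0, 1, 2, 4, 8, 12, 18, 24, 32, 40,
    50, 60, 72, 84]), (true, [0, 1, 2, 4, 8, 12, 18, 24, 32, 40, 50, 60, 72, 84]), (false, [0, 1,
    2, 4, 8, 12, 18, 24, 32, 40, 50, 60, 72]), (false, [0, 1, 2, 4, 8, 12, 18, 24, 32, 40, 50, 60,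
    72]), (true, [0, 1, 2, 4, 8, 12, 18, 24, 32, 40, 50, 60]), (true, [0, 1, 2, 4, 8, 12, 18, 24,
    32, 40, 50, 60]), (false, [0, 1, 2, 4, 8, 12, 18, 24, 32, 40, 50]), (false, [0, 1, 2, 4, 8, 12,
    18, 24, 32, 40, 50]), (true, [0, 1, 2, 4, 8, 12, 18, 24, 32, 40]), (true, [0, 1, 2, 4, 8, 12,
    18, 24, 32, 40]), (false, [0, 1, 2, 4, 8, 12, 18, 24, 32]), (false, [0, 1, 2, 4, 8, 12, 18, 24,
    32]), (true, [0, 1, 2, 4, 8, 12, 18, 24]), (true, [0, 1, 2, 4, 8, 12, 18, 24]), (false, [0, 1,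
    2, 4, 8, 12, 18]), (false, [0, 1, 2, 4, 8, 12, 18]), (true, [0, 1, 2, 4, 8, 12]), (true, [0, 1,
    2, 4, 8, 12]), (false, [0, 1, 2, 4, 8]), (false, [0, 1, 2, 4, 8]), (true, [0, 1, 2, 4]), (true,
    [0, 1, 2, 4]), (false, [0, 1, 2]), (false, [0, 1, 2]), (true, [0, 1]), (true, [0, 1])]
    [] = true := by
  decide +kernel

end Pool.Agent.Lib.MP_954e53_ag
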