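import Pool.Agent.Lib.MP_954e53_ag.CexData

/-! Reindexing, monomial matrices and block diagonal matrices. -/

namespace Pool.Agent.Lib.MP_954e53_ag

open MvPolynomial

lemma blk_act_reindex {ι ι' : Type} [Fintype ι] [Fintype ι'] (e : ι ≃ ι') (M : Matrix ι ι ℂ)
    (f : MvPolynomial ι ℂ) :
    act (Matrix.reindex e e M) (rename e f) = rename e (act M f) := by
  refine MvPolynomial.funext fun y => ?_
  rw [eval_act, eval_rename, eval_rename, eval_act]
  congr 2
  funext i
  simp only [Function.comp_apply, Matrix.mulVec, dotProduct, Matrix.reindex_apply,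
    Matrix.submatrix_apply, Equiv.symm_apply_apply]
  rw [← e.sum_comp]
  simp

theorem GroupData.reindex {ι ι' G : Type} [Fintype ι] [DecidableEq ι] [Fintype ι'] [DecidableEq ι']
    [Group G] {ρ : G →* Matrix ι ι ℂ} {c : ℕ} (h : GroupData ρ c) (e : ι ≃ ι') :
    ∃ ρ' : G →* Matrix ι' ι' ℂ, GroupData ρ' c := by
  let ρ' : G →* Matrix ι' ι' ℂ := (Matrix.reindexAlgEquiv ℂ ℂ e : Matrix ι ι ℂ →* _).comp ρ
  have hρ : ∀ g, ρ' g = Matrix.reindex e e (ρ g) := fun _ => rfl
  refine ⟨ρ', ⟨?_, ?_, ?_, ?_, ?_, ?_⟩⟩
  · obtain ⟨g, hg⟩ := h.scalar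
    refine ⟨g, ?_⟩
    have h1 : ρ' g = Matrix.reindexAlgEquiv ℂ ℂ e (ρ g) := rfl
    rw [h1, hg, map_smul, map_one]
  · intro f hf hinv
    have h1 : rename e (rename e.symm f) = f := by
      rw [rename_rename, e.self_comp_symm, rename_id_apply]
    have h2 : rename e.symm f = 0 := by
      refine h.quartic _ hf.rename_isHomogeneous fun g => ?_
      apply rename_injective e e.injective
      rw [← blk_act_reindex, h1, ← hρ, hinv]
    rw [← h1, h2, map_zero]
  · intro g
    rw [hρ, Matrix.det_reindex_self, h.det]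
  · intro y hy
    have h1 : y ∘ e ≠ 0 := fun h0 => hy (funext fun i => by
      simpa using congrFun h0 (e.symm i))
    obtain ⟨f, hf, hinv, hev⟩ := h.octic _ h1
    refine ⟨rename e f, hf.rename_isHomogeneous, fun g => ?_, by rwa [eval_rename]⟩
    rw [hρ, blk_act_reindex, hinv]
  · intro g z hz
    refine le_trans ?_ (h.eigen g z hz)
    rw [← (LinearEquiv.funCongrLeft ℂ ℂ e).finrank_map_eq]
    refine Submodule.finrank_mono ?_
    rintro _ ⟨v, hv, rfl⟩
    simp only [SetLike.mem_coe, Module.End.mem_eigenspace_iff, Matrix.toLin'_apply] at hv ⊢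
    funext i
    have h1 := congrFun hv (e i)
    simp only [hρ, Matrix.mulVec, dotProduct, Matrix.reindex_apply, Matrix.submatrix_apply,
      Equiv.symm_apply_apply] at h1
    rw [← e.sum_comp] at h1
    simpa [Matrix.mulVec, dotProduct] using h1
  · rw [← Fintype.card_congr e]
    exact h.fano

theorem prod_eq_one_of_act {ι : Type} [Fintype ι] [DecidableEq ι] {M : Matrix ι ι ℂ}
    {π : Equiv.Perm ι} {z : ι → ℂ} (hM : ∀ i j, M i j = if j = π i then z i else 0)
    {f : MvPolynomial ι ℂ} (hf : act M f = f) {n : ι →₀ ℕ} (hn : coeff n f ≠ 0)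
    (hπ : ∀ i, n (π i) = n i) : ∏ i, z i ^ n i = 1 := by
  have hX : ∀ i, ∑ j, C (M i j) * (X j : MvPolynomial ι ℂ) = C (z i) * X (π i) := by
    intro i
    rw [Finset.sum_eq_single (π i)]
    · rw [hM, if_pos rfl]
    · intro j _ hj
      rw [hM, if_neg hj, map_zero, zero_mul]
    · intro h; exact absurd (Finset.mem_univ _) h
  have hmon : ∀ (m : ι →₀ ℕ) (a : ℂ), act M (monomial m a) =
      monomial (m.mapDomain π) ((∏ i, z i ^ m i) * a) := by
    intro m a
    rw [act, aeval_monomial, monomial_eq, Finsupp.prod_mapDomain_index_inj π.injective,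
      Finsupp.prod_fintype _ _ (fun _ => pow_zero _), Finsupp.prod_fintype _ _ (fun _ => pow_zero _)]
    simp only [hX, mul_pow, Finset.prod_mul_distrib, map_mul, map_prod, map_pow, algebraMap_eq]
    ring
  have key : ∀ g : MvPolynomial ι ℂ,
      coeff (n.mapDomain π) (act M g) = (∏ i, z i ^ n i) * coeff n g := by
    intro g
    induction g using MvPolynomial.induction_on' with
    | monomial m a =>
      rw [hmon, coeff_monomial, coeff_monomial]
      by_cases hm : m = n
      · subst hm; simp
      · rw [if_neg hm, if_neg (fun h => hm (Finsupp.mapDomain_injective π.injective h)), mul_zero]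
    | add p q hp hq => rw [map_add, coeff_add, coeff_add, hp, hq, mul_add]
  have hn' : n.mapDomain π = n := by
    ext j
    obtain ⟨i, rfl⟩ := π.surjective j
    rw [Finsupp.mapDomain_apply π.injective, hπ]
  have h1 := key f
  rw [hf, hn'] at h1
  exact mul_right_cancel₀ hn (by rw [← h1, one_mul])

theorem blockDiagonal_mulVec_apply {n B : Type} [Fintype n] [Fintype B] [DecidableEq B]
    (M : B → Matrix n n ℂ) (v : n × B → ℂ) (i : n) (β : B) :
    (Matrix.blockDiagonal M).mulVec v (i, β) = (M β).mulVec (fun j => v (j, β)) i := by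
  simp [Matrix.mulVec, dotProduct, Fintype.sum_prod_type, Matrix.blockDiagonal_apply]

theorem finrank_eigenspace_blockDiagonal {n B : Type} [Fintype n] [DecidableEq n] [Fintype B]
    [DecidableEq B] (M : B → Matrix n n ℂ) (z : ℂ) :
    Module.finrank ℂ (Module.End.eigenspace (Matrix.toLin' (Matrix.blockDiagonal M)) z) ≤
      ∑ β, Module.finrank ℂ (Module.End.eigenspace (Matrix.toLin' (M β)) z) := by
  let T : Module.End.eigenspace (Matrix.toLin' (Matrix.blockDiagonal M)) z →ₗ[ℂ]
      (∀ β, Module.End.eigenspace (Matrix.toLin' (M β)) z) :=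
    { toFun := fun v β => ⟨fun j => v.1 (j, β), by
        have hv := v.2
        rw [Module.End.mem_eigenspace_iff, Matrix.toLin'_apply] at hv ⊢
        funext i
        rw [← blockDiagonal_mulVec_apply, hv]
        rfl⟩
      map_add' := fun _ _ => rfl
      map_smul' := fun _ _ => rfl }
  have hT : Function.Injective T := by
    intro v w h
    refine Subtype.ext (funext fun p => ?_)
    exact congrFun (congrArg Subtype.val (congrFun h p.2)) p.1
  rw [← Module.finrank_pi_fintype]
  exact LinearMap.finrank_le_finrank_of_injective hT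

theorem sum_finrank_eigenspace_le {n T : Type} [Fintype n] [DecidableEq n] [Fintype T]
    (A : Matrix n n ℂ) {ψ : T → ℂ} (hψ : Function.Injective ψ) :
    ∑ t, Module.finrank ℂ (Module.End.eigenspace (Matrix.toLin' A) (ψ t)) ≤ Fintype.card n := by
  classical
  have h1 : iSupIndep fun t => Module.End.eigenspace (Matrix.toLin' A) (ψ t) :=
    (Module.End.eigenspaces_iSupIndep (Matrix.toLin' A)).comp hψ
  have h2 := LinearMap.finrank_le_finrank_of_injective h1.dfinsupp_lsum_injective
  rw [Module.finrank_fintype_fun_eq_card] at h2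
  rw [← Module.finrank_directSum]
  exact h2

end Pool.Agent.Lib.MP_954e53_ag
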