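import Pool.Agent.Lib.MP_954e53_ag.Defs

/-! Section rings and the criterion of Kempf for rational singularities. -/

namespace Pool.Agent.Lib.MP_954e53_ag

variable {k S : Type*} [Field k] [CommRing S] [Algebra k S]

/-- `S` is the section ring of `L = O(1)` on `X = Proj S`: it is generated by finitely many forms of
positive degree, at every point of `X` some quotient of forms is a unit of degree one (so `O(1)` is
invertible and ample with `O(1) ^ n = O(n)`), and every global section of `O(n)` lies in `S_n`. -/
def IsSectionRing (𝒜 : ℕ → Submodule k S) [GradedAlgebra 𝒜] : Prop :=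
  (∃ n, GeneratedBy 𝒜 n) ∧
  (∀ P : ProjectiveSpectrum 𝒜, ∃ m, (∃ a ∈ 𝒜 m, a ∉ P.asHomogeneousIdeal) ∧
    ∃ b ∈ 𝒜 (m + 1), b ∉ P.asHomogeneousIdeal) ∧
  ∀ (n : ℕ) (z : FractionRing S),
    (∀ P : ProjectiveSpectrum 𝒜, ∃ m, ∃ a ∈ 𝒜 (m + n), ∃ b ∈ 𝒜 m, b ∉ P.asHomogeneousIdeal ∧
      z * algebraMap S (FractionRing S) b = algebraMap S (FractionRing S) a) →
    ∃ s ∈ 𝒜 n, algebraMap S (FractionRing S) s = z

/-- The rational `d`-forms that are regular at the subring `O` of the field `K`: the sums of forms
`u da_1 ∧ ... ∧ da_d` with `u` and all `a_i` in `O`. -/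
noncomputable def regForms (k K : Type*) [Field k] [Field K] [Algebra k K] (d : ℕ) (O : Set K) :
    AddSubgroup (⋀[K]^d Ω[K⁄k]) :=
  AddSubgroup.closure {η | ∃ u ∈ O, ∃ a : Fin d → K, (∀ i, a i ∈ O) ∧
    η = u • exteriorPower.ιMulti K d fun i => KaehlerDifferential.D k K (a i)}

/-- The local ring `S_p` inside the field of fractions. -/
def locAt (p : Ideal S) : Set (FractionRing S) :=
  {z | ∃ a b : S, b ∉ p ∧ z * algebraMap S (FractionRing S) b = algebraMap S (FractionRing S) a}

/-- A divisorial valuation ring of a function field of transcendence degree `d`: a discrete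
valuation ring containing `d - 1` elements whose residues are algebraically independent. -/
def IsDivisorial (k : Type*) {K : Type*} [Field k] [Field K] [Algebra k K] (d : ℕ)
    (O : ValuationSubring K) : Prop :=
  IsDiscreteValuationRing O ∧ ∃ t : Fin (d - 1) → K,
    ∀ q : MvPolynomial (Fin (d - 1)) k, q ≠ 0 → O.valuation (MvPolynomial.aeval t q) = 1

/-- The condition `f_* ω_Y = ω_S` of Kempf for a domain of dimension `d`: every rational `d`-form
that is regular at all primes of height one is regular at every divisorial valuation ring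
containing `S`. -/
def FormsExtend (k S : Type*) [Field k] [CommRing S] [IsDomain S] [Algebra k S] (d : ℕ) : Prop :=
  ∀ η : ⋀[FractionRing S]^d Ω[FractionRing S⁄k],
    (∀ p : Ideal S, p.IsPrime → p.height = 1 → η ∈ regForms k (FractionRing S) d (locAt p)) →
    ∀ O : ValuationSubring (FractionRing S), (∀ s : S, algebraMap S (FractionRing S) s ∈ O) →
      IsDivisorial k d O → η ∈ regForms k (FractionRing S) d O

end Pool.Agent.Lib.MP_954e53_ag
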