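import Pool.Agent.Lib.MP_954e53_ag.CexStmt
import Pool.Agent.Lib.MP_954e53_ag.CexDefs

/-! The short definitions follow from the long ones. -/

namespace Pool.Agent.Lib.MP_954e53_ag

lemma IsSectionRing.sectionRing {k S : Type*} [Field k] [CommRing S] [Algebra k S]
    {𝒜 : ℕ → Submodule k S} [GradedAlgebra 𝒜] (h : IsSectionRing 𝒜) : SectionRing 𝒜 := h

variable {k K : Type*} [Field k] [Field K] [Algebra k K] {d : ℕ}

lemma exists_of_mem_regularForms {O : Set K} {η : ExteriorAlgebra K Ω[K⁄k]}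
    (h : η ∈ regularForms k K d O) : ∃ η' ∈ regForms k K d O, η'.1 = η := by
  obtain ⟨n, u, a, h1, rfl⟩ := h
  refine ⟨∑ j, u j • exteriorPower.ιMulti K d fun i => KaehlerDifferential.D k K (a j i),
    sum_mem fun j _ => AddSubgroup.subset_closure ⟨u j, (h1 j).1, a j, (h1 j).2, rfl⟩, ?_⟩
  rw [Submodule.coe_sum]
  rfl

lemma mem_regularForms_of_mem {O : Set K} (hO : ∀ u ∈ O, -u ∈ O) {η : ⋀[K]^d Ω[K⁄k]}
    (h : η ∈ regForms k K d O) : η.1 ∈ regularForms k K d O := by
  induction h using AddSubgroup.closure_induction with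
  | mem η h =>
    obtain ⟨u, hu, a, ha, rfl⟩ := h
    exact ⟨1, fun _ => u, fun _ => a, fun _ => ⟨hu, ha⟩, by rw [Fin.sum_univ_one]; rfl⟩
  | zero => exact ⟨0, Fin.elim0, Fin.elim0, fun j => j.elim0, rfl⟩
  | add x y _ _ hx hy =>
    obtain ⟨n, u, a, h1, h2⟩ := hx
    obtain ⟨m, v, b, h3, h4⟩ := hy
    refine ⟨n + m, Fin.append u v, Fin.append a b, fun j => ?_, ?_⟩
    · refine Fin.addCases (fun j => ?_) (fun j => ?_) j
      · simpa using h1 j
      · simpa using h3 j
    · rw [Submodule.coe_add, h2, h4, Fin.sum_univ_add]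
      simp only [Fin.append_left, Fin.append_right]
  | neg x _ hx =>
    obtain ⟨n, u, a, h1, h2⟩ := hx
    refine ⟨n, fun j => -u j, a, fun j => ⟨hO _ (h1 j).1, (h1 j).2⟩, ?_⟩
    rw [Submodule.coe_neg, h2, ← Finset.sum_neg_distrib]
    exact Finset.sum_congr rfl fun j _ => (neg_smul _ _).symm

lemma FormsExtend.canonical {S : Type*} [CommRing S] [IsDomain S] [Algebra k S]
    (h : FormsExtend k S d) : CanonicalFormsExtend k S d := by
  intro η hη h1 O hO hdiv
  obtain ⟨η', -, rfl⟩ := exists_of_mem_regularForms hη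
  refine mem_regularForms_of_mem (fun u hu => O.neg_mem u hu) (h η' (fun p hp h2 => ?_) O hO hdiv)
  obtain ⟨η'', h3, h4⟩ := exists_of_mem_regularForms (h1 p hp h2)
  exact Subtype.ext h4 ▸ h3

end Pool.Agent.Lib.MP_954e53_ag
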