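import Pool.Agent.Lib.MP_954e53_ag.CexDefs

/-! The data from which the counterexample is built. -/

namespace Pool.Agent.Lib.MP_954e53_ag

open MvPolynomial

/-- Linear substitution `f ↦ f (M x)`. -/
noncomputable def act {ι : Type} [Fintype ι] (M : Matrix ι ι ℂ) :
    MvPolynomial ι ℂ →ₐ[ℂ] MvPolynomial ι ℂ :=
  aeval fun i => ∑ j, C (M i j) * X j

/-- A linear group without invariant quartics whose bad eigenspaces are small. -/
structure GroupData {ι G : Type} [Fintype ι] [DecidableEq ι] [Group G] (ρ : G →* Matrix ι ι ℂ)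
    (c : ℕ) : Prop where
  scalar : ∃ g, ρ g = Complex.I • (1 : Matrix ι ι ℂ)
  quartic : ∀ f : MvPolynomial ι ℂ, f.IsHomogeneous 4 → (∀ g, act (ρ g) f = f) → f = 0
  det : ∀ g, (ρ g).det = 1
  octic : ∀ y : ι → ℂ, y ≠ 0 →
    ∃ f : MvPolynomial ι ℂ, f.IsHomogeneous 8 ∧ (∀ g, act (ρ g) f = f) ∧ eval y f ≠ 0
  eigen : ∀ (g : G) (z : ℂ), z ^ 4 ≠ 1 →
    Module.finrank ℂ (Module.End.eigenspace (Matrix.toLin' (ρ g)) z) ≤ c
  fano : 8 * c < Fintype.card ι

variable {c d : ℕ}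

/-- Octics without common zero, the first `c` of which cut out a cone that is smooth off `0`. -/
structure Octics (F : Fin c ⊕ Fin d → MvPolynomial (Fin c ⊕ Fin d) ℂ) : Prop where
  hom : ∀ l, (F l).IsHomogeneous 8
  hsop : ∀ y : Fin c ⊕ Fin d → ℂ, (∀ l, eval y (F l) = 0) → y = 0
  smooth : ∀ y : Fin c ⊕ Fin d → ℂ, y ≠ 0 → (∀ l : Fin c, eval y (F (.inl l)) = 0) →
    Function.Surjective (Matrix.of fun (l : Fin c) j => eval y (pderiv j (F (.inl l)))).mulVec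

/-- Invariant octics whose cone avoids the bad eigenspaces. -/
structure CIData {G : Type} [Group G] (ρ : G →* Matrix (Fin c ⊕ Fin d) (Fin c ⊕ Fin d) ℂ)
    (F : Fin c ⊕ Fin d → MvPolynomial (Fin c ⊕ Fin d) ℂ) : Prop extends Octics F where
  inv : ∀ g l, act (ρ g) (F l) = F l
  stab : ∀ y : Fin c ⊕ Fin d → ℂ, y ≠ 0 → (∀ l : Fin c, eval y (F (.inl l)) = 0) →
    ∀ (g : G) (z : ℂ), (ρ g).mulVec y = z • y → z ^ 4 = 1

/-- The ideal of the cone. -/
noncomputable def eqIdeal (F : Fin c ⊕ Fin d → MvPolynomial (Fin c ⊕ Fin d) ℂ) :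
    Ideal (MvPolynomial (Fin c ⊕ Fin d) ℂ) :=
  Ideal.span (Set.range fun l : Fin c => F (.inl l))

/-- The coordinate ring of the cone. -/
abbrev CI (F : Fin c ⊕ Fin d → MvPolynomial (Fin c ⊕ Fin d) ℂ) : Type :=
  MvPolynomial (Fin c ⊕ Fin d) ℂ ⧸ eqIdeal F

/-- The invariant polynomials. -/
noncomputable def invAlg {ι G : Type} [Fintype ι] [DecidableEq ι] [Group G]
    (ρ : G →* Matrix ι ι ℂ) : Subalgebra ℂ (MvPolynomial ι ℂ) :=
  ⨅ g, AlgHom.equalizer (act (ρ g)) (AlgHom.id ℂ _)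

lemma mem_invAlg {ι G : Type} [Fintype ι] [DecidableEq ι] [Group G] {ρ : G →* Matrix ι ι ℂ}
    {f : MvPolynomial ι ℂ} : f ∈ invAlg ρ ↔ ∀ g, act (ρ g) f = f := by
  simp [invAlg, Algebra.mem_iInf]

/-- The ring of invariants of the cone. -/
noncomputable def invRing {G : Type} [Group G] (ρ : G →* Matrix (Fin c ⊕ Fin d) (Fin c ⊕ Fin d) ℂ)
    (F : Fin c ⊕ Fin d → MvPolynomial (Fin c ⊕ Fin d) ℂ) : Subalgebra ℂ (CI F) :=
  (invAlg ρ).map (Ideal.Quotient.mkₐ ℂ (eqIdeal F))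

/-- The grading of the ring of invariants: degree `m` is polynomial degree `4 m`. -/
noncomputable def invGr {G : Type} [Group G] (ρ : G →* Matrix (Fin c ⊕ Fin d) (Fin c ⊕ Fin d) ℂ)
    (F : Fin c ⊕ Fin d → MvPolynomial (Fin c ⊕ Fin d) ℂ) (m : ℕ) : Submodule ℂ (invRing ρ F) :=
  (((invAlg ρ).toSubmodule ⊓ homogeneousSubmodule _ ℂ (4 * m)).map
    (Ideal.Quotient.mkₐ ℂ (eqIdeal F)).toLinearMap).comap (invRing ρ F).val.toLinearMap

lemma mem_invGr {G : Type} [Group G] {ρ : G →* Matrix (Fin c ⊕ Fin d) (Fin c ⊕ Fin d) ℂ}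
    {F : Fin c ⊕ Fin d → MvPolynomial (Fin c ⊕ Fin d) ℂ} {m : ℕ} {s : invRing ρ F} :
    s ∈ invGr ρ F m ↔ ∃ f : MvPolynomial (Fin c ⊕ Fin d) ℂ, f.IsHomogeneous (4 * m) ∧
      (∀ g, act (ρ g) f = f) ∧ Ideal.Quotient.mk (eqIdeal F) f = s := by
  constructor
  · rintro ⟨f, ⟨h1, h2⟩, h3⟩
    exact ⟨f, h2, mem_invAlg.1 h1, h3⟩
  · rintro ⟨f, h1, h2, h3⟩
    exact ⟨f, ⟨mem_invAlg.2 h2, h1⟩, h3⟩

/-- The Jacobian determinant of all the octics. -/
noncomputable def jac (F : Fin c ⊕ Fin d → MvPolynomial (Fin c ⊕ Fin d) ℂ) :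
    MvPolynomial (Fin c ⊕ Fin d) ℂ :=
  (Matrix.of fun l j => pderiv j (F l)).det

/-- What the octics give as a system of parameters of the polynomial ring. -/
structure Params (F : Fin c ⊕ Fin d → MvPolynomial (Fin c ⊕ Fin d) ℂ) : Prop where
  reg : ∀ (s : Set (Fin c ⊕ Fin d)) (l : Fin c ⊕ Fin d), l ∉ s → ∀ f,
    F l * f ∈ Ideal.span (F '' s) → f ∈ Ideal.span (F '' s)
  soc : ∀ f, (∀ i, X i * f ∈ Ideal.span (Set.range F)) →
    ∃ a : ℂ, f - a • jac F ∈ Ideal.span (Set.range F)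
  jac_notMem : jac F ∉ Ideal.span (Set.range F)
  top : ∀ n, 7 * (c + d) < n → ∀ f : MvPolynomial (Fin c ⊕ Fin d) ℂ, f.IsHomogeneous n →
    f ∈ Ideal.span (Set.range F)
  finite : Module.Finite (Algebra.adjoin ℂ (Set.range F)) (MvPolynomial (Fin c ⊕ Fin d) ℂ)

section act

variable {ι : Type} [Fintype ι]

lemma act_X (M : Matrix ι ι ℂ) (i : ι) : act M (X i) = ∑ j, C (M i j) * X j := aeval_X _ _

lemma eval_act (M : Matrix ι ι ℂ) (y : ι → ℂ) (f : MvPolynomial ι ℂ) :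
    eval y (act M f) = eval (M.mulVec y) f := by
  induction f using MvPolynomial.induction_on with
  | C a => simp [act]
  | add p q hp hq => simp only [map_add, hp, hq]
  | mul_X p i hp =>
    simp only [map_mul, hp, act_X, map_sum, eval_C, eval_X]
    rfl

lemma act_act (M M' : Matrix ι ι ℂ) (f : MvPolynomial ι ℂ) :
    act M (act M' f) = act (M' * M) f :=
  MvPolynomial.funext fun y => by rw [eval_act, eval_act, eval_act, Matrix.mulVec_mulVec]

lemma act_one [DecidableEq ι] (f : MvPolynomial ι ℂ) : act (1 : Matrix ι ι ℂ) f = f :=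
  MvPolynomial.funext fun y => by rw [eval_act, Matrix.one_mulVec]

lemma act_hom (M : Matrix ι ι ℂ) {f : MvPolynomial ι ℂ} {n : ℕ} (hf : f.IsHomogeneous n) :
    (act M f).IsHomogeneous n := by
  have h := hf.aeval (fun i => ∑ j, C (M i j) * X j) (n := 1) fun i =>
    IsHomogeneous.sum _ _ _ fun j _ => (isHomogeneous_X ℂ j).C_mul _
  rwa [one_mul] at h

end act

end Pool.Agent.Lib.MP_954e53_ag
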