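import Mathlib

/-! Dual derivations of algebraically independent families in characteristic zero. -/

namespace Pool.Agent.Lib.MP_954e53_ag

open scoped IntermediateField.algebraAdjoinAdjoin in
/-- The differentials of a transcendence basis form a basis of the module of differentials. -/
theorem b0_exists_basis {k L ι : Type*} [Field k] [Field L] [CharZero k] [Algebra k L]
    {x : ι → L} (hx : IsTranscendenceBasis k x) :
    ∃ b : Module.Basis ι L Ω[L⁄k], ∀ i, b i = KaehlerDifferential.D k L (x i) := by
  have h1 : Algebra.FormallyEtale (Algebra.adjoin k (Set.range x))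
      (IntermediateField.adjoin k (Set.range x)) := .of_isLocalization (nonZeroDivisors _)
  have h2 : Algebra.IsAlgebraic (IntermediateField.adjoin k (Set.range x)) L :=
    hx.isAlgebraic_field
  have h0 : CharZero (IntermediateField.adjoin k (Set.range x)) :=
    algebraRat.charZero _
  have h3 : Algebra.FormallyEtale (IntermediateField.adjoin k (Set.range x)) L :=
    Algebra.FormallyEtale.of_isSeparable _ L
  have h4 : Algebra.FormallyEtale (Algebra.adjoin k (Set.range x)) L :=
    .comp _ (IntermediateField.adjoin k (Set.range x)) _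
  let _ : Algebra (MvPolynomial ι k) (Algebra.adjoin k (Set.range x)) :=
    (hx.1.aevalEquiv : MvPolynomial ι k →ₐ[k] _).toAlgebra
  let _ : Algebra (MvPolynomial ι k) L := (MvPolynomial.aeval x).toAlgebra
  have h5 : IsScalarTower (MvPolynomial ι k) (Algebra.adjoin k (Set.range x)) L :=
    IsScalarTower.of_algebraMap_eq fun p => (hx.1.algebraMap_aevalEquiv p).symm
  have h6 : IsScalarTower k (MvPolynomial ι k) L :=
    IsScalarTower.of_algebraMap_eq fun a => ((MvPolynomial.aeval x).commutes a).symm
  have h7 : Algebra.FormallyEtale (MvPolynomial ι k) (Algebra.adjoin k (Set.range x)) :=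
    .of_equiv (AlgEquiv.ofBijective (Algebra.ofId _ _) hx.1.aevalEquiv.bijective)
  have h8 : Algebra.FormallyEtale (MvPolynomial ι k) L :=
    .comp _ (Algebra.adjoin k (Set.range x)) _
  refine ⟨(KaehlerDifferential.isBaseChange_of_formallyEtale k (MvPolynomial ι k) L).basis
    (KaehlerDifferential.mvPolynomialBasis k ι), fun i => ?_⟩
  rw [IsBaseChange.basis_apply, KaehlerDifferential.mvPolynomialBasis_apply,
    KaehlerDifferential.map_D]
  congr 1
  exact MvPolynomial.aeval_X _ _

theorem span_D_eq_top {k L ι : Type*} [Field k] [Field L] [CharZero k] [Algebra k L]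
    {x : ι → L} (hx : IsTranscendenceBasis k x) :
    Submodule.span L (Set.range fun i => KaehlerDifferential.D k L (x i)) = ⊤ := by
  obtain ⟨b, hb⟩ := b0_exists_basis hx
  rw [← b.span_eq, funext hb]

theorem exists_derivation {k L ι : Type*} [Field k] [Field L] [CharZero k] [Algebra k L]
    [DecidableEq ι] {x : ι → L} (hx : AlgebraicIndependent k x) (i : ι) :
    ∃ D : Derivation k L L, ∀ j, D (x j) = if j = i then 1 else 0 := by
  classical
  obtain ⟨t, hst, ht⟩ := exists_isTranscendenceBasis_superset hx.to_subtype_range
  obtain ⟨b, hb⟩ := b0_exists_basis ht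
  refine ⟨(b.coord ⟨x i, hst ⟨i, rfl⟩⟩).compDer (KaehlerDifferential.D k L), fun j => ?_⟩
  have h1 := hb ⟨x j, hst ⟨j, rfl⟩⟩
  change b.coord _ (KaehlerDifferential.D k L (x j)) = _
  rw [← h1, Module.Basis.coord_apply, b.repr_self, Finsupp.single_apply]
  simp only [Subtype.mk.injEq, hx.injective.eq_iff]

end Pool.Agent.Lib.MP_954e53_ag
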