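import Pool.Agent.Lib.MP_954e53_ag.CexInv

/-! Invariant forms of large degree have no common zero on the cone. -/

namespace Pool.Agent.Lib.MP_954e53_ag

open MvPolynomial

lemma c2_exists_inv {ι G : Type} [Fintype ι] [DecidableEq ι] [Group G] [Finite G]
    {ρ : G →* Matrix ι ι ℂ} {y : ι → ℂ} (hy : y ≠ 0)
    (hs : ∀ (g : G) (z : ℂ), (ρ g).mulVec y = z • y → z ^ 4 = 1) {m : ℕ} (hm : Nat.card G ≤ m) :
    ∃ f : MvPolynomial ι ℂ, f.IsHomogeneous (4 * m) ∧ (∀ g, act (ρ g) f = f) ∧ eval y f ≠ 0 := by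
  classical
  have := Fintype.ofFinite G
  obtain ⟨i, hi⟩ := Function.ne_iff.mp hy
  have hl : ∀ g : G, ∃ l : MvPolynomial ι ℂ, l.IsHomogeneous 1 ∧ eval y l ≠ 0 ∧
      (eval ((ρ g).mulVec y) l = 0 ∨ ∃ z : ℂ, (ρ g).mulVec y = z • y) := by
    intro g
    by_cases h : ∀ j, (ρ g).mulVec y j * y i = (ρ g).mulVec y i * y j
    · refine ⟨X i, isHomogeneous_X _ _, by simpa using hi, Or.inr ⟨(ρ g).mulVec y i / y i, ?_⟩⟩
      funext j
      rw [Pi.smul_apply, smul_eq_mul, div_mul_eq_mul_div, eq_div_iff hi, h]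
    · push Not at h
      obtain ⟨j, hj⟩ := h
      refine ⟨C ((ρ g).mulVec y j) * X i - C ((ρ g).mulVec y i) * X j,
        (isHomogeneous_C_mul_X _ _).sub (isHomogeneous_C_mul_X _ _), ?_, Or.inl ?_⟩
      · simpa [sub_eq_zero] using hj
      · simp only [map_sub, map_mul, eval_C, eval_X]
        ring
  choose l hl1 hl2 hl3 using hl
  have hh : ((∏ g, l g) * X i ^ (4 * m - Nat.card G) : MvPolynomial ι ℂ).IsHomogeneous (4 * m) := by
    have h1 := (IsHomogeneous.prod Finset.univ l (fun _ => 1) fun g _ => hl1 g).mul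
      (isHomogeneous_X_pow (R := ℂ) i (4 * m - Nat.card G))
    rwa [Finset.sum_const, Finset.card_univ, ← Nat.card_eq_fintype_card, smul_eq_mul, mul_one,
      Nat.add_sub_cancel' (by omega)] at h1
  have h0 : eval y ((∏ g, l g) * X i ^ (4 * m - Nat.card G)) ≠ 0 := by
    rw [map_mul, map_prod, map_pow, eval_X]
    exact mul_ne_zero (Finset.prod_ne_zero_iff.2 fun g _ => hl2 g) (pow_ne_zero _ hi)
  generalize hp : ((∏ g, l g) * X i ^ (4 * m - Nat.card G) : MvPolynomial ι ℂ) = p at hh h0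
  have h2 : ∀ g, eval ((ρ g).mulVec y) p =
      (if eval ((ρ g).mulVec y) p = 0 then 0 else 1) * eval y p := by
    intro g
    split_ifs with h3
    · rw [h3, zero_mul]
    · rcases hl3 g with h4 | ⟨z, hz⟩
      · refine absurd ?_ h3
        rw [← hp, map_mul, map_prod, Finset.prod_eq_zero (Finset.mem_univ g) h4, zero_mul]
      · rw [hz, eval_smul_of_hom hh, pow_mul, hs g z hz, one_pow]
  refine ⟨rey ρ p, rey_hom hh, rey_inv p, ?_⟩
  rw [rey_apply, smul_eval, map_sum]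
  simp only [eval_act]
  rw [Finset.sum_congr rfl fun g _ => h2 g, ← Finset.sum_mul]
  refine mul_ne_zero (inv_ne_zero (by exact_mod_cast Nat.card_pos.ne')) (mul_ne_zero ?_ h0)
  rw [Finset.sum_ite, Finset.sum_const_zero, zero_add, Finset.sum_const, nsmul_eq_mul, mul_one,
    Nat.cast_ne_zero]
  refine Finset.card_ne_zero_of_mem (a := 1) ?_
  simpa using h0

variable {c d : ℕ} {G : Type} [Group G] {ρ : G →* Matrix (Fin c ⊕ Fin d) (Fin c ⊕ Fin d) ℂ}
  {F : Fin c ⊕ Fin d → MvPolynomial (Fin c ⊕ Fin d) ℂ}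

theorem inv_free [Finite G] (hF : CIData ρ F) (hp : Params F) [GradedAlgebra (invGr ρ F)] :
    EventuallyFree (invGr ρ F) := by
  refine ⟨Nat.card G, fun m hm P => ?_⟩
  obtain ⟨n, hn, s, hs1, hs2⟩ : ∃ n, 0 < n ∧ ∃ s ∈ invGr ρ F n, s ∉ P.asHomogeneousIdeal := by
    by_contra h
    push Not at h
    exact P.not_irrelevant_le ((HomogeneousIdeal.toIdeal_irrelevant_le _).2 fun n hn s hs =>
      h n hn s hs)
  have := inv_finite hF hp
  obtain ⟨Q, -, hQ1, hQ2⟩ := Ideal.exists_ideal_over_prime_of_isIntegral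
    (S := CI F) P.asHomogeneousIdeal.toIdeal ⊥ (fun x hx => by
      have h1 : x = 0 := Subtype.ext hx
      rw [h1]
      exact zero_mem _)
  have hmem : ∀ (t : invRing ρ F) (f : MvPolynomial (Fin c ⊕ Fin d) ℂ),
      Ideal.Quotient.mk (eqIdeal F) f = t →
      (f ∈ Q.comap (Ideal.Quotient.mk (eqIdeal F)) ↔ t ∈ P.asHomogeneousIdeal) := by
    intro t f h
    rw [Ideal.mem_comap, h, ← HomogeneousIdeal.mem_iff, ← hQ2, Ideal.mem_comap]
    rfl
  obtain ⟨f, hf1, -, hf3⟩ := mem_invGr.1 hs1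
  have h1 : f ∉ vanishingIdeal ℂ (zeroLocus ℂ (Q.comap (Ideal.Quotient.mk (eqIdeal F)))) := by
    rw [IsPrime.vanishingIdeal_zeroLocus, hmem s f hf3]
    exact hs2
  rw [mem_vanishingIdeal_iff] at h1
  push Not at h1
  obtain ⟨y, hy1, hy2⟩ := h1
  rw [mem_zeroLocus_iff] at hy1
  simp only [aeval_eq_eval] at hy1 hy2
  have hy0 : y ≠ 0 := by
    rintro rfl
    have h2 := eval_smul_of_hom hf1 0 (0 : Fin c ⊕ Fin d → ℂ)
    rw [zero_smul, zero_pow (by omega), zero_mul] at h2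
    exact hy2 h2
  obtain ⟨p, hp1, hp2, hp3⟩ := c2_exists_inv hy0 (hF.stab y hy0 fun l => hy1 _ (by
    have h2 : F (.inl l) ∈ eqIdeal F := Ideal.subset_span ⟨l, rfl⟩
    rw [Ideal.mem_comap, Ideal.Quotient.eq_zero_iff_mem.2 h2]
    exact zero_mem _)) hm
  exact ⟨⟨_, mk_mem_invRing hp2⟩, mem_invGr.2 ⟨p, hp1, hp2, rfl⟩,
    fun h => hp3 (hy1 p ((hmem _ p rfl).2 h))⟩

end Pool.Agent.Lib.MP_954e53_ag
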