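import Pool.Agent.Lib.MP_954e53_ag.CexData
import Pool.Agent.Lib.MP_954e53_ag.CexDer

/-! Generic invariant octics. -/

namespace Pool.Agent.Lib.MP_954e53_ag

open MvPolynomial Cardinal

/-- Over the field generated by a finite set there are arbitrarily many independent numbers. -/
lemma b1_exists_indep {S : Set ℂ} (hS : S.Finite) (κ : Type) [Finite κ] :
    ∃ a : κ → ℂ, AlgebraicIndependent (IntermediateField.adjoin ℚ S) a := by
  have h1 : #(IntermediateField.adjoin ℚ S) ≤ ℵ₀ :=
    (IntermediateField.cardinalMk_adjoin_le ℚ S).trans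
      (by simp [hS.countable.le_aleph0])
  obtain ⟨t, ht⟩ := exists_isTranscendenceBasis (IntermediateField.adjoin ℚ S) ℂ
  have h2 : Infinite t := by
    by_contra hfin
    have h3 : #t ≤ ℵ₀ := by
      have := not_infinite_iff_finite.mp hfin
      exact mk_le_aleph0
    have h4 : #ℂ ≤ ℵ₀ := by
      rcases isEmpty_or_nonempty t with h | h
      · have := ht.isEmpty_iff_isAlgebraic.mp h
        exact (Algebra.IsAlgebraic.cardinalMk_le_max (IntermediateField.adjoin ℚ S) ℂ).trans
          (max_le h1 le_rfl)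
      · have := ht.lift_cardinalMk_eq_max_lift
        simp only [lift_id] at this
        rw [this]
        exact sup_le (sup_le h1 h3) le_rfl
    rw [Cardinal.mk_complex] at h4
    exact absurd h4 (not_le.mpr aleph0_lt_continuum)
  obtain ⟨e⟩ : Nonempty (κ ↪ t) := by
    have := Fintype.ofFinite κ
    exact ⟨(Fintype.equivFin κ).toEmbedding.trans
      (Fin.valEmbedding.trans (Infinite.natEmbedding t))⟩
  exact ⟨_, ht.1.comp e e.injective⟩

lemma b1_chain {k ι : Type} [Field k] [Algebra k ℂ] [Fintype ι] (D : Derivation k ℂ ℂ)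
    (y : ι → ℂ) (p : MvPolynomial ι k) :
    D (eval y (map (algebraMap k ℂ) p)) =
      ∑ j, eval y (pderiv j (map (algebraMap k ℂ) p)) * D (y j) := by
  classical
  induction p using MvPolynomial.induction_on with
  | C a => simp
  | add p q hp hq => simp only [map_add, hp, hq, add_mul, Finset.sum_add_distrib]
  | mul_X p i hp =>
    simp only [map_mul, map_X, eval_X, Derivation.leibniz, hp, smul_eq_mul, map_add, add_mul,
      Finset.sum_add_distrib, pderiv_X, Finset.mul_sum]
    congr 1
    · rw [Finset.sum_eq_single i (fun j _ h => by simp [Pi.single_eq_of_ne h.symm]) (by simp)]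
      simp
    · exact Finset.sum_congr rfl fun j _ => by ring

variable {c d : ℕ} {G : Type} [Group G] {ρ : G →* Matrix (Fin c ⊕ Fin d) (Fin c ⊕ Fin d) ℂ}

/-- Invariant octics together with the tangent vectors given by dual derivations. -/
lemma b1_key [Finite G] (h : GroupData ρ c) :
    ∃ F : Fin c ⊕ Fin d → MvPolynomial (Fin c ⊕ Fin d) ℂ, (∀ l, (F l).IsHomogeneous 8) ∧
      (∀ g l, act (ρ g) (F l) = F l) ∧ ∀ y : Fin c ⊕ Fin d → ℂ, y ≠ 0 → ∀ l₀, ∃ w,
        (∀ l, eval y (F l) = 0 →
          ∑ j, eval y (pderiv j (F l)) * w j = if l = l₀ then 1 else 0) ∧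
        ∀ g (z : ℂ), (ρ g).mulVec y = z • y → (ρ g).mulVec w = z • w := by
  classical
  let W := (invAlg ρ).toSubmodule ⊓ homogeneousSubmodule (Fin c ⊕ Fin d) ℂ 8
  obtain ⟨s, hs⟩ : W.FG := (homogeneousSubmodule_fg (Fin c ⊕ Fin d) ℂ 8).of_le inf_le_right
  have hsW : ∀ f : s, (f : MvPolynomial _ ℂ) ∈ W := fun f => hs ▸ Submodule.subset_span f.2
  let S : Set ℂ := (⋃ f ∈ s, (coeffs f : Set ℂ)) ∪ Set.range fun t : G × _ × _ => ρ t.1 t.2.1 t.2.2
  have hS : S.Finite := (s.finite_toSet.biUnion fun f _ => (coeffs f).finite_toSet).union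
    (Set.finite_range _)
  obtain ⟨a, ha⟩ := b1_exists_indep hS ((Fin c ⊕ Fin d) × s)
  have hmem : ∀ z ∈ S, z ∈ Set.range (algebraMap (IntermediateField.adjoin ℚ S) ℂ) :=
    fun z hz => ⟨⟨z, IntermediateField.subset_adjoin _ _ hz⟩, rfl⟩
  refine ⟨fun l => ∑ f : s, C (a (l, f)) * f.1,
    fun l => IsHomogeneous.sum _ _ _ fun f _ => (hsW f).2.C_mul _, fun g l => ?_, ?_⟩
  · rw [map_sum]
    refine Finset.sum_congr rfl fun f _ => ?_
    rw [map_mul, mem_invAlg.1 (hsW f).1 g, algHom_C]
    rfl
  intro y hy l₀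
  obtain ⟨f₀, hf₀⟩ : ∃ f : s, eval y f.1 ≠ 0 := by
    by_contra hne
    push Not at hne
    obtain ⟨f, hf1, hf2, hf3⟩ := h.octic y hy
    have h1 : f ∈ Submodule.span ℂ (s : Set (MvPolynomial _ ℂ)) :=
      hs ▸ (⟨mem_invAlg.2 hf2, hf1⟩ : f ∈ W)
    refine hf3 ?_
    clear hf1 hf2 hf3
    induction h1 using Submodule.span_induction with
    | mem f hf => exact hne ⟨f, hf⟩
    | zero => simp
    | add f g _ _ h1 h2 => rw [map_add, h1, h2, add_zero]
    | smul b f _ h1 => rw [smul_eval, h1, mul_zero]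
  obtain ⟨D, hD⟩ := exists_derivation ha (l₀, f₀)
  have hch : ∀ f : s, D (eval y f.1) = ∑ j, eval y (pderiv j f.1) * D (y j) := by
    intro f
    obtain ⟨p, hp⟩ := (mem_range_map_iff_coeffs_subset (x := f.1)
      (f := algebraMap (IntermediateField.adjoin ℚ S) ℂ)).2 fun z hz =>
        hmem z (Or.inl (Set.mem_biUnion f.2 hz))
    rw [← hp, b1_chain]
  refine ⟨fun j => -(eval y f₀.1)⁻¹ * D (y j), fun l hl => ?_, fun g z hz => ?_⟩
  · have h1 := congrArg D hl
    simp only [map_sum, map_mul, eval_C, Derivation.leibniz, smul_eq_mul, hD, hch, map_zero,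
      Finset.sum_add_distrib, Prod.mk.injEq] at h1
    have h2 : ∑ f : s, eval y f.1 * (if l = l₀ ∧ f = f₀ then (1 : ℂ) else 0) =
        eval y f₀.1 * if l = l₀ then 1 else 0 := by
      rw [Finset.sum_eq_single f₀ (fun f _ hf => by simp [hf]) (by simp)]
      simp
    have h3 : ∑ j, eval y (pderiv j (∑ f : s, C (a (l, f)) * f.1)) * (-(eval y f₀.1)⁻¹ * D (y j)) =
        -(eval y f₀.1)⁻¹ * ∑ f : s, a (l, f) * ∑ j, eval y (pderiv j f.1) * D (y j) := by
      simp only [map_sum, pderiv_C_mul, map_mul, eval_C, Finset.sum_mul, Finset.mul_sum]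
      rw [Finset.sum_comm]
      exact Finset.sum_congr rfl fun _ _ => Finset.sum_congr rfl fun _ _ => by ring
    rw [h3, eq_neg_of_add_eq_zero_left h1, h2]
    field_simp
  · have hpow : ∀ n : ℕ, (ρ (g ^ n)).mulVec y = z ^ n • y := by
      intro n
      induction n with
      | zero => simp
      | succ n ih =>
        rw [pow_succ, map_mul, ← Matrix.mulVec_mulVec, hz, Matrix.mulVec_smul, ih, smul_smul,
          pow_succ']
    have h1 := hpow (Nat.card G)
    rw [pow_card_eq_one', map_one, Matrix.one_mulVec] at h1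
    have h2 : z ^ Nat.card G = 1 := by
      have : (z ^ Nat.card G - 1) • y = 0 := by rw [sub_smul, ← h1, one_smul, sub_self]
      exact sub_eq_zero.mp ((smul_eq_zero.mp this).resolve_right hy)
    have hz0 : z ≠ 0 := by
      rintro rfl
      rw [zero_pow Nat.card_pos.ne'] at h2
      exact zero_ne_one h2
    have h3 : D z = 0 := by
      have := congrArg D h2
      rw [Derivation.leibniz_pow, Derivation.map_one_eq_zero, smul_eq_mul, nsmul_eq_mul] at this
      have h4 : ((Nat.card G : ℕ) : ℂ) ≠ 0 := by exact_mod_cast Nat.card_pos.ne'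
      simpa [h4, hz0] using this
    funext i
    have h4 := congrArg D (congrFun hz i)
    have h5 : ∀ j, D (ρ g i j) = 0 := fun j => by
      obtain ⟨b, hb⟩ := hmem (ρ g i j) (Or.inr ⟨(g, i, j), rfl⟩)
      rw [← hb, Derivation.map_algebraMap]
    simp only [Matrix.mulVec, dotProduct, map_sum, Derivation.leibniz, smul_eq_mul, h5, h3,
      Pi.smul_apply, mul_zero, add_zero] at h4 ⊢
    rw [mul_left_comm, ← h4, Finset.mul_sum]
    exact Finset.sum_congr rfl fun _ _ => by ring

theorem exists_ciData [Finite G] (h : GroupData ρ c) : ∃ F, CIData ρ F := by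
  classical
  obtain ⟨F, hF1, hF2, hF3⟩ := b1_key h
  have euler : ∀ (y : Fin c ⊕ Fin d → ℂ) l, eval y (F l) = 0 →
      ∑ j, eval y (pderiv j (F l)) * y j = 0 := by
    intro y l hl
    have h1 := congrArg (eval y) (hF1 l).sum_X_mul_pderiv
    simp only [map_sum, map_mul, eval_X, map_nsmul, hl, smul_zero] at h1
    rw [← h1]
    exact Finset.sum_congr rfl fun _ _ => mul_comm _ _
  have key : ∀ {κ : Type} [Fintype κ] (e : κ → Fin c ⊕ Fin d), Function.Injective e →
      ∀ y : Fin c ⊕ Fin d → ℂ, y ≠ 0 → (∀ l, eval y (F (e l)) = 0) → ∀ v : κ → ℂ, ∃ w,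
        (Matrix.of fun l j => eval y (pderiv j (F (e l)))).mulVec w = v ∧
        ∀ g (z : ℂ), (ρ g).mulVec y = z • y → (ρ g).mulVec w = z • w := by
    intro κ _ e he y hy hl v
    choose w hw1 hw2 using hF3 y hy
    refine ⟨∑ k, v k • w (e k), ?_, fun g z hz => ?_⟩
    · funext l
      rw [Matrix.mulVec_sum, Finset.sum_apply]
      have h1 : ∀ k, (Matrix.of fun l j => eval y (pderiv j (F (e l)))).mulVec (v k • w (e k)) l =
          v k * if l = k then 1 else 0 := fun k => by
        have h2 := hw1 (e k) _ (hl l)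
        simp only [he.eq_iff] at h2
        rw [Matrix.mulVec_smul, Pi.smul_apply, smul_eq_mul]
        congr 1
      simp [h1]
    · rw [Matrix.mulVec_sum, Finset.smul_sum]
      exact Finset.sum_congr rfl fun k _ => by
        rw [Matrix.mulVec_smul, hw2 _ g z hz, smul_comm]
  refine ⟨F, ⟨hF1, fun y hl => ?_, fun y hy hl v => ?_⟩, hF2, fun y hy hl g z hz => ?_⟩
  · by_contra hy
    have h1 : Function.Surjective
        (Matrix.of fun l j => eval y (pderiv j (F l))).mulVecLin := fun v =>
      (key id Function.injective_id y hy hl v).imp fun _ hw => hw.1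
    refine hy ((injective_iff_map_eq_zero _).mp (LinearMap.injective_iff_surjective.mpr h1) y ?_)
    funext l
    exact euler y l (hl l)
  · exact (key _ Sum.inl_injective y hy hl v).imp fun _ hw => hw.1
  · by_contra hz4
    have h1 := h.eigen g z hz4
    let U := Module.End.eigenspace (Matrix.toLin' (ρ g)) z
    let φ : U →ₗ[ℂ] (Fin c → ℂ) :=
      (Matrix.of fun (l : Fin c) j => eval y (pderiv j (F (.inl l)))).mulVecLin.comp U.subtype
    have h2 : LinearMap.range φ = ⊤ := LinearMap.range_eq_top.mpr fun v => by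
      obtain ⟨w, hw1, hw2⟩ := key _ Sum.inl_injective y hy hl v
      exact ⟨⟨w, Module.End.mem_eigenspace_iff.mpr (hw2 g z hz)⟩, hw1⟩
    have h3 := φ.finrank_range_add_finrank_ker
    rw [h2, finrank_top, Module.finrank_fin_fun] at h3
    have h4 : Module.finrank ℂ (LinearMap.ker φ) = 0 := by
      change Module.finrank ℂ U ≤ c at h1
      omega
    rw [Submodule.finrank_eq_zero] at h4
    have h5 : (⟨y, Module.End.mem_eigenspace_iff.mpr hz⟩ : U) ∈ LinearMap.ker φ := by
      rw [LinearMap.mem_ker]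
      funext l
      exact euler y _ (hl l)
    rw [h4, Submodule.mem_bot] at h5
    exact hy (congrArg Subtype.val h5)

end Pool.Agent.Lib.MP_954e53_ag
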