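import Pool.Agent.Lib.MP_954e53_ag.CexDefs

/-! A Gorenstein graded domain of dimension at least two with free forms is a section ring. -/

namespace Pool.Agent.Lib.MP_954e53_ag

lemma d1_weak_iff {S : Type*} [CommRing S] (I : Ideal S) (y : S) :
    IsSMulRegular (S ⧸ (I • ⊤ : Submodule S S)) y ↔ ∀ f, y * f ∈ I → f ∈ I := by
  have h2 : (I • ⊤ : Submodule S S) = I := by simp
  rw [h2]
  constructor
  · intro h f hf
    refine (Submodule.Quotient.mk_eq_zero _).1 (h ?_)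
    simp only [smul_zero, ← Submodule.Quotient.mk_smul]
    exact (Submodule.Quotient.mk_eq_zero _).2 hf
  · intro h a b hab
    obtain ⟨a, rfl⟩ := Submodule.Quotient.mk_surjective _ a
    obtain ⟨b, rfl⟩ := Submodule.Quotient.mk_surjective _ b
    simp only [← Submodule.Quotient.mk_smul] at hab
    rw [Submodule.Quotient.eq] at hab ⊢
    apply h
    rw [mul_sub]
    exact hab

lemma d1_pow_reg {S : Type*} [CommRing S] [IsDomain S] {x y : S} (hx : x ≠ 0)
    (h : ∀ f, y * f ∈ Ideal.span {x} → f ∈ Ideal.span {x}) (i j : ℕ) (a : S)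
    (ha : x ^ i ∣ y ^ j * a) : x ^ i ∣ a := by
  have h1 : ∀ (j : ℕ) (a : S), x ∣ y ^ j * a → x ∣ a := by
    intro j
    induction j with
    | zero => intro a ha; simpa using ha
    | succ j ih =>
      intro a ha
      apply ih
      rw [← Ideal.mem_span_singleton] at ha ⊢
      apply h
      rwa [← mul_assoc, ← pow_succ']
  induction i generalizing a with
  | zero => simp
  | succ i ih =>
    obtain ⟨a', rfl⟩ := h1 j a ((dvd_pow_self x (Nat.succ_ne_zero i)).trans ha)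
    rw [pow_succ'] at ha ⊢
    apply mul_dvd_mul_left
    apply ih
    rw [mul_left_comm] at ha
    exact (mul_dvd_mul_iff_left hx).1 ha

theorem isSectionRing_of {k S : Type*} [Field k] [CommRing S] [IsDomain S] [Algebra k S]
    {𝒜 : ℕ → Submodule k S} [GradedAlgebra 𝒜] {n d r : ℕ} (hgen : GeneratedBy 𝒜 n)
    (hfree : EventuallyFree 𝒜) (hG : GorensteinOfIndex 𝒜 d r) (hd : 2 ≤ d) :
    IsSectionRing 𝒜 := by
  classical
  refine ⟨⟨n, hgen⟩, ?_, ?_⟩
  · obtain ⟨m₀, h⟩ := hfree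
    exact fun P => ⟨m₀, h m₀ le_rfl P, h (m₀ + 1) (Nat.le_succ _) P⟩
  intro n z hz
  obtain ⟨θ, e, s, hθ, hreg, -⟩ := hG
  obtain ⟨d, rfl⟩ : ∃ d', d = d' + 2 := ⟨d - 2, by omega⟩
  have hinj : Function.Injective (algebraMap S (FractionRing S)) := IsFractionRing.injective _ _
  have h0 : θ 0 ≠ 0 := by
    have h1 := (d1_weak_iff _ _).1 (hreg.regular_mod_prev 0 (by simp))
    intro h2
    have := h1 1 (by simp [h2])
    simp at this
  have h1 : ∀ f, θ 1 * f ∈ Ideal.span {θ 0} → f ∈ Ideal.span {θ 0} := by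
    have h1 := (d1_weak_iff _ _).1 (hreg.regular_mod_prev 1 (by simp))
    simpa [List.ofFn_succ] using h1
  set J : Ideal S := Ideal.span {b | ∃ m, b ∈ 𝒜 m ∧ ∃ a ∈ 𝒜 (m + n),
    z * algebraMap S (FractionRing S) b = algebraMap S (FractionRing S) a} with hJ
  have hJhom : J.IsHomogeneous 𝒜 :=
    Ideal.homogeneous_span 𝒜 _ fun x ⟨m, hm, _⟩ => ⟨m, hm⟩
  have hrad : ∀ i, θ i ∈ J.radical := by
    intro i
    rw [hJhom.radical_eq, Submodule.mem_sInf]
    rintro P ⟨hP, hle, hp⟩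
    by_contra hθP
    obtain ⟨m, a, ha, b, hb, hbP, hab⟩ := hz ⟨⟨P, hP⟩, hp, fun h => hθP
      (h (HomogeneousIdeal.mem_irrelevant_of_mem 𝒜 (hθ i).1 (hθ i).2))⟩
    exact hbP (hle (Ideal.subset_span ⟨m, hb, a, ha, hab⟩))
  have hmul : ∀ b ∈ J, ∃ a, z * algebraMap S (FractionRing S) b
      = algebraMap S (FractionRing S) a := by
    intro b hb
    induction hb using Submodule.span_induction with
    | mem x hx => obtain ⟨m, _, a, _, h⟩ := hx; exact ⟨a, h⟩
    | zero => exact ⟨0, by simp⟩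
    | add x y _ _ hx hy =>
      obtain ⟨a, ha⟩ := hx
      obtain ⟨a', ha'⟩ := hy
      exact ⟨a + a', by rw [map_add, map_add, mul_add, ha, ha']⟩
    | smul c x _ hx =>
      obtain ⟨a, ha⟩ := hx
      exact ⟨c * a, by rw [smul_eq_mul, map_mul, map_mul, mul_left_comm, ha]⟩
  obtain ⟨i, hi⟩ := hrad 0
  obtain ⟨j, hj⟩ := hrad 1
  obtain ⟨a0, ha0⟩ := hmul _ hi
  obtain ⟨a1, ha1⟩ := hmul _ hj
  have hrel : θ 1 ^ j * a0 = θ 0 ^ i * a1 := by
    apply hinj
    rw [map_mul, map_mul, ← ha0, ← ha1]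
    ring
  obtain ⟨s, hs⟩ := d1_pow_reg h0 h1 i j a0 ⟨a1, hrel⟩
  have hne : algebraMap S (FractionRing S) (θ 0 ^ i) ≠ 0 := fun h =>
    pow_ne_zero i h0 (hinj (by rw [h, map_zero]))
  have hzs : algebraMap S (FractionRing S) s = z := by
    apply mul_right_cancel₀ hne
    rw [ha0, hs, map_mul, mul_comm]
  refine ⟨s, ?_, hzs⟩
  obtain ⟨m, a, ha, b, hb, hbP, hab⟩ := hz ⟨⟨⊥, Ideal.IsHomogeneous.bot 𝒜⟩, Ideal.isPrime_bot,
    fun h => h0 (h (HomogeneousIdeal.mem_irrelevant_of_mem 𝒜 (hθ 0).1 (hθ 0).2))⟩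
  have hb0 : b ≠ 0 := fun h => hbP h
  have hsb : s * b = a := hinj (by rw [map_mul, hzs, hab])
  rw [← DirectSum.sum_support_decompose 𝒜 s]
  refine Submodule.sum_mem _ fun l _ => ?_
  by_cases hl : l = n
  · rw [hl]; exact (DirectSum.decompose 𝒜 s n).2
  · have h3 := DirectSum.coe_decompose_mul_add_of_right_mem 𝒜 (a := s) (i := l) hb
    rw [hsb, DirectSum.decompose_of_mem_ne 𝒜 ha (by omega)] at h3
    rw [(mul_eq_zero.1 h3.symm).resolve_right hb0]
    exact Submodule.zero_mem _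

end Pool.Agent.Lib.MP_954e53_ag
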