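import Pool.Agent.Lib.MP_954e53_ag.CexData
import Pool.Agent.Lib.MP_954e53_ag.CexSection

/-! The ring of invariants of the cone is Gorenstein with negative a-invariant. -/

namespace Pool.Agent.Lib.MP_954e53_ag

open MvPolynomial

lemma c3_smul_top {S : Type*} [CommRing S] (I : Ideal S) : (I • ⊤ : Submodule S S) = I := by
  simp

section c3general

variable {ι : Type} [Fintype ι]

omit [Fintype ι] in
lemma c3_eval_smul {f : MvPolynomial ι ℂ} {n : ℕ} (hf : f.IsHomogeneous n) (z : ℂ) (y : ι → ℂ) :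
    eval (z • y) f = z ^ n * eval y f := by
  rw [eval_eq, eval_eq, Finset.mul_sum]
  refine Finset.sum_congr rfl fun m hm => ?_
  simp only [Pi.smul_apply, smul_eq_mul, mul_pow]
  rw [Finset.prod_mul_distrib, Finset.prod_pow_eq_pow_sum, ← hf.degree_eq_sum_deg_support hm]
  ring

lemma c3_act_scalar [DecidableEq ι] {f : MvPolynomial ι ℂ} {n : ℕ} (hf : f.IsHomogeneous n)
    (z : ℂ) : act (z • (1 : Matrix ι ι ℂ)) f = z ^ n • f :=
  MvPolynomial.funext fun y => by
    rw [eval_act, Matrix.smul_mulVec, Matrix.one_mulVec, c3_eval_smul hf, smul_eval]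

lemma c3_chain (M : Matrix ι ι ℂ) (j : ι) (f : MvPolynomial ι ℂ) :
    pderiv j (act M f) = ∑ i, act M (pderiv i f) * C (M i j) := by
  classical
  induction f using MvPolynomial.induction_on with
  | C a => simp [act]
  | add p q hp hq => simp only [map_add, hp, hq, add_mul, Finset.sum_add_distrib]
  | mul_X p i hp =>
    have h1 : pderiv j (act M (X i)) = C (M i j) := by
      rw [act_X, map_sum, Finset.sum_eq_single j]
      · rw [pderiv_C_mul, pderiv_X_self, mul_one]
      · intro b _ hb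
        rw [pderiv_C_mul, pderiv_X_of_ne hb, mul_zero]
      · simp
    have h2 : ∑ l, act M (p * pderiv l (X i)) * C (M l j) = act M p * C (M i j) := by
      rw [Finset.sum_eq_single i]
      · rw [pderiv_X_self, mul_one]
      · intro b _ hb
        rw [pderiv_X_of_ne hb.symm, mul_zero, map_zero, zero_mul]
      · simp
    rw [map_mul, pderiv_mul, hp, h1]
    simp only [pderiv_mul, map_add, add_mul, Finset.sum_add_distrib, h2, Finset.sum_mul]
    refine congrArg (fun u => u + act M p * C (M i j)) ?_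
    refine Finset.sum_congr rfl fun l _ => ?_
    rw [map_mul]
    ring

variable [DecidableEq ι] {G : Type} [Group G] [Fintype G]

/-- The Reynolds operator. -/
noncomputable def c3rey (ρ : G →* Matrix ι ι ℂ) (f : MvPolynomial ι ℂ) : MvPolynomial ι ℂ :=
  (Fintype.card G : ℂ)⁻¹ • ∑ g, act (ρ g) f

variable {ρ : G →* Matrix ι ι ℂ}

lemma c3rey_inv (f : MvPolynomial ι ℂ) (g : G) : act (ρ g) (c3rey ρ f) = c3rey ρ f := by
  unfold c3rey
  rw [map_smul, map_sum]
  refine congrArg (fun u => (Fintype.card G : ℂ)⁻¹ • u) ?_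
  simp only [act_act, ← map_mul]
  exact Equiv.sum_comp (Equiv.mulRight g) fun h => act (ρ h) f

lemma c3rey_mul (b : MvPolynomial ι ℂ) {u : MvPolynomial ι ℂ} (hu : ∀ g, act (ρ g) u = u) :
    c3rey ρ (b * u) = c3rey ρ b * u := by
  unfold c3rey
  simp only [map_mul, hu]
  rw [← Finset.sum_mul, smul_mul_assoc]

lemma c3rey_fix {u : MvPolynomial ι ℂ} (hu : ∀ g, act (ρ g) u = u) : c3rey ρ u = u := by
  unfold c3rey
  simp only [hu]
  rw [Finset.sum_const, Finset.card_univ, ← Nat.cast_smul_eq_nsmul ℂ, smul_smul,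
    inv_mul_cancel₀ (Nat.cast_ne_zero.2 Fintype.card_ne_zero), one_smul]

lemma c3rey_add (a b : MvPolynomial ι ℂ) : c3rey ρ (a + b) = c3rey ρ a + c3rey ρ b := by
  unfold c3rey
  simp only [map_add, Finset.sum_add_distrib, smul_add]

lemma c3rey_sub (a b : MvPolynomial ι ℂ) : c3rey ρ (a - b) = c3rey ρ a - c3rey ρ b := by
  unfold c3rey
  simp only [map_sub, Finset.sum_sub_distrib, smul_sub]

lemma c3rey_hom {f : MvPolynomial ι ℂ} {n : ℕ} (hf : f.IsHomogeneous n) :
    (c3rey ρ f).IsHomogeneous n := by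
  unfold c3rey
  rw [smul_eq_C_mul]
  exact (IsHomogeneous.sum _ _ _ fun g _ => act_hom _ hf).C_mul _

end c3general

variable {c d : ℕ} {G : Type} [Group G] {ρ : G →* Matrix (Fin c ⊕ Fin d) (Fin c ⊕ Fin d) ℂ}
  {F : Fin c ⊕ Fin d → MvPolynomial (Fin c ⊕ Fin d) ℂ}

lemma c3_jac_inv (h : GroupData ρ c) (hF : CIData ρ F) (g : G) : act (ρ g) (jac F) = jac F := by
  have h1 : (Matrix.of fun l j => pderiv j (F l)) =
      (act (ρ g)).mapMatrix (Matrix.of fun l j => pderiv j (F l))
        * (C : ℂ →+* MvPolynomial (Fin c ⊕ Fin d) ℂ).mapMatrix (ρ g) := by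
    ext1 l j
    rw [Matrix.mul_apply, Matrix.of_apply, ← hF.inv g l, c3_chain]
    rfl
  have h2 := congrArg Matrix.det h1
  rw [Matrix.det_mul, ← AlgHom.map_det, ← RingHom.map_det, h.det g, map_one, mul_one] at h2
  exact h2.symm

lemma c3_jac_hom (hF : Octics F) : (jac F).IsHomogeneous (7 * (c + d)) := by
  unfold jac
  rw [Matrix.det_apply]
  refine IsHomogeneous.sum _ _ _ fun σ _ => ?_
  have h1 := IsHomogeneous.prod Finset.univ
    (fun i => (Matrix.of fun l j => pderiv j (F l)) (σ i) i) (fun _ => 7)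
    fun i _ => (hF.hom (σ i)).pderiv
  simp only [Finset.sum_const, Finset.card_univ, Fintype.card_sum, Fintype.card_fin,
    smul_eq_mul] at h1
  rw [mul_comm] at h1
  rw [← mem_homogeneousSubmodule] at h1 ⊢
  rw [Units.smul_def]
  exact zsmul_mem h1 _

/-- The class of an invariant polynomial in the ring of invariants of the cone. -/
noncomputable def c3cls (F : Fin c ⊕ Fin d → MvPolynomial (Fin c ⊕ Fin d) ℂ)
    (f : MvPolynomial (Fin c ⊕ Fin d) ℂ) (hf : ∀ g, act (ρ g) f = f) : invRing ρ F :=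
  ⟨Ideal.Quotient.mk (eqIdeal F) f, ⟨f, mem_invAlg.2 hf, rfl⟩⟩

lemma c3_exists_cls (y : invRing ρ F) : ∃ f hf, y = c3cls F f hf := by
  obtain ⟨_, f, hf, rfl⟩ := y
  exact ⟨f, mem_invAlg.1 hf, rfl⟩

/-- The index set of the octics attached to a set of parameters. -/
def c3idx (c : ℕ) (T : Set (Fin d)) : Set (Fin c ⊕ Fin d) := Set.range Sum.inl ∪ Sum.inr '' T

lemma c3_mem [Fintype G] (hF : CIData ρ F) (T : Set (Fin d)) (y : invRing ρ F)
    (f : MvPolynomial (Fin c ⊕ Fin d) ℂ) (hf : ∀ g, act (ρ g) f = f)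
    (hy : Ideal.Quotient.mk (eqIdeal F) f = y) :
    y ∈ Ideal.span ((fun k => c3cls F (F (.inr k)) fun g => hF.inv g _) '' T) ↔
      f ∈ Ideal.span (F '' c3idx c T) := by
  have hle : eqIdeal F ≤ Ideal.span (F '' c3idx c T) :=
    Ideal.span_mono (by rintro _ ⟨l, rfl⟩; exact ⟨.inl l, Or.inl ⟨l, rfl⟩, rfl⟩)
  constructor
  · intro h
    have h1 : Ideal.span ((fun k => c3cls F (F (.inr k)) fun g => hF.inv g _) '' T) ≤
        ((Ideal.span (F '' c3idx c T)).map (Ideal.Quotient.mk (eqIdeal F))).comap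
          (invRing ρ F).val := by
      rw [Ideal.span_le]
      rintro _ ⟨k, hk, rfl⟩
      exact Ideal.mem_map_of_mem _ (Ideal.subset_span ⟨.inr k, Or.inr ⟨k, hk, rfl⟩, rfl⟩)
    have h2 : (y : CI F) ∈ (Ideal.span (F '' c3idx c T)).map (Ideal.Quotient.mk (eqIdeal F)) :=
      h1 h
    rw [← hy] at h2
    exact (Ideal.mem_quotient_iff_mem hle).1 h2
  · intro h
    have key : ∀ b, c3cls F (c3rey ρ (b * f)) (c3rey_inv _) ∈
        Ideal.span ((fun k => c3cls F (F (.inr k)) fun g => hF.inv g _) '' T) := by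
      clear hy hf
      induction h using Submodule.span_induction with
      | mem x hx =>
        intro b
        obtain ⟨l, hl, rfl⟩ := hx
        rcases hl with ⟨l, rfl⟩ | ⟨k, hk, rfl⟩
        · have : c3cls F (c3rey ρ (b * F (.inl l))) (c3rey_inv _) = 0 := by
            apply Subtype.ext
            change Ideal.Quotient.mk (eqIdeal F) _ = 0
            rw [c3rey_mul b fun g => hF.inv g _, Ideal.Quotient.eq_zero_iff_mem]
            exact Ideal.mul_mem_left _ _ (Ideal.subset_span ⟨l, rfl⟩)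
          rw [this]
          exact Ideal.zero_mem _
        · have : c3cls F (c3rey ρ (b * F (.inr k))) (c3rey_inv _) =
              c3cls F (c3rey ρ b) (c3rey_inv _) * c3cls F (F (.inr k)) fun g => hF.inv g _ := by
            apply Subtype.ext
            change Ideal.Quotient.mk (eqIdeal F) _ =
              Ideal.Quotient.mk (eqIdeal F) _ * Ideal.Quotient.mk (eqIdeal F) _
            rw [c3rey_mul b fun g => hF.inv g _, map_mul]
          rw [this]
          exact Ideal.mul_mem_left _ _ (Ideal.subset_span ⟨k, hk, rfl⟩)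
      | zero =>
        intro b
        have : c3cls F (c3rey ρ (b * 0)) (c3rey_inv _) = 0 := by
          apply Subtype.ext
          change Ideal.Quotient.mk (eqIdeal F) _ = 0
          rw [c3rey_mul b fun g => map_zero _, mul_zero, map_zero]
        rw [this]
        exact Ideal.zero_mem _
      | add x y _ _ hx hy =>
        intro b
        have : c3cls F (c3rey ρ (b * (x + y))) (c3rey_inv _) =
            c3cls F (c3rey ρ (b * x)) (c3rey_inv _) + c3cls F (c3rey ρ (b * y)) (c3rey_inv _) := by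
          apply Subtype.ext
          change Ideal.Quotient.mk (eqIdeal F) _ =
            Ideal.Quotient.mk (eqIdeal F) _ + Ideal.Quotient.mk (eqIdeal F) _
          rw [mul_add, c3rey_add, map_add]
        rw [this]
        exact Ideal.add_mem _ (hx b) (hy b)
      | smul a x _ hx =>
        intro b
        have := hx (b * a)
        rwa [mul_assoc, ← smul_eq_mul a x] at this
    have h3 : c3cls F (c3rey ρ (1 * f)) (c3rey_inv _) = y := by
      apply Subtype.ext
      change Ideal.Quotient.mk (eqIdeal F) _ = _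
      rw [one_mul, c3rey_fix hf, hy]
    rw [← h3]
    exact key 1

lemma c3idx_univ : F '' c3idx c (Set.univ : Set (Fin d)) = Set.range F := by
  have : c3idx c (Set.univ : Set (Fin d)) = Set.univ := by
    ext l
    rcases l with l | l <;> simp [c3idx]
  rw [this, Set.image_univ]

lemma c3rey_mem [Fintype G] (hF : CIData ρ F) {f : MvPolynomial (Fin c ⊕ Fin d) ℂ}
    (h : f ∈ Ideal.span (Set.range F)) : c3rey ρ f ∈ Ideal.span (Set.range F) := by
  obtain ⟨b, rfl⟩ := Ideal.mem_span_range_iff_exists_fun.1 h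
  unfold c3rey
  simp only [map_sum, map_mul, hF.inv]
  rw [smul_eq_C_mul]
  exact Ideal.mul_mem_left _ _ (Ideal.sum_mem _ fun g _ => Ideal.sum_mem _ fun l _ =>
    Ideal.mul_mem_left _ _ (Ideal.subset_span ⟨l, rfl⟩))

lemma c3_exists_mult (hp : Params F) {f : MvPolynomial (Fin c ⊕ Fin d) ℂ}
    (hf : f ∉ Ideal.span (Set.range F)) : ∃ (k : ℕ) (z : MvPolynomial (Fin c ⊕ Fin d) ℂ) (a : ℂ),
      z.IsHomogeneous k ∧ a ≠ 0 ∧ z * f - a • jac F ∈ Ideal.span (Set.range F) := by
  classical
  let p : ℕ → Prop := fun k => ∃ z : MvPolynomial (Fin c ⊕ Fin d) ℂ, z.IsHomogeneous k ∧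
    z * f ∉ Ideal.span (Set.range F)
  have h0 : p 0 := ⟨1, isHomogeneous_one _ _, by rwa [one_mul]⟩
  obtain ⟨z, hz, hzf⟩ : p (Nat.findGreatest p (7 * (c + d))) :=
    Nat.findGreatest_spec (Nat.zero_le _) h0
  have hmax : ∀ i, X i * (z * f) ∈ Ideal.span (Set.range F) := by
    intro i
    have h1 := (isHomogeneous_X ℂ i).mul hz
    rw [← mul_assoc]
    by_cases hk : 1 + Nat.findGreatest p (7 * (c + d)) ≤ 7 * (c + d)
    · by_contra h2
      exact Nat.findGreatest_is_greatest (P := p) (by omega) hk ⟨_, h1, h2⟩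
    · exact Ideal.mul_mem_right _ _ (hp.top _ (by omega) _ h1)
  obtain ⟨a, ha⟩ := hp.soc _ hmax
  refine ⟨_, z, a, hz, fun h => hzf ?_, ha⟩
  rwa [h, zero_smul, sub_zero] at ha

theorem inv_gorenstein [Finite G] (h : GroupData ρ c) (hF : CIData ρ F) (hp : Params F) :
    ∃ r, 1 ≤ r ∧ GorensteinOfIndex (invGr ρ F) d r := by
  classical
  have := Fintype.ofFinite G
  obtain ⟨g₀, hg₀⟩ := h.scalar
  obtain ⟨n, hn⟩ : 4 ∣ c + d := by
    have h1 := h.det g₀
    rw [hg₀, Matrix.det_smul, Matrix.det_one, mul_one] at h1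
    simpa using (Complex.isPrimitiveRoot_I.pow_eq_one_iff_dvd _).1 h1
  have hfano : 8 * c < c + d := by simpa using h.fano
  set θ : Fin d → invRing ρ F := fun k => c3cls F (F (.inr k)) fun g => hF.inv g _ with hθ
  have hall : ∀ (y : invRing ρ F) (f : MvPolynomial (Fin c ⊕ Fin d) ℂ), (∀ g, act (ρ g) f = f) →
      Ideal.Quotient.mk (eqIdeal F) f = y →
      (y ∈ Ideal.span (Set.range θ) ↔ f ∈ Ideal.span (Set.range F)) := by
    intro y f hf hy
    have := c3_mem hF Set.univ y f hf hy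
    rwa [Set.image_univ, c3idx_univ] at this
  have hjac := c3_jac_inv h hF
  have hu : c3cls F (jac F) hjac ∉ Ideal.span (Set.range θ) := fun h1 =>
    hp.jac_notMem ((hall _ _ hjac rfl).1 h1)
  have hsm : ∀ {a : ℂ}, a ≠ 0 → a • jac F ∉ Ideal.span (Set.range F) := by
    intro a ha h1
    apply hp.jac_notMem
    have := Ideal.mul_mem_left _ (C a⁻¹) h1
    rwa [← smul_eq_C_mul, smul_smul, inv_mul_cancel₀ ha, one_smul] at this
  refine ⟨n - 2 * c, by omega, θ, fun _ => 2, 7 * n, fun k => ⟨by norm_num, ?_⟩, ⟨⟨?_⟩, ?_⟩, ?_,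
    ⟨c3cls F (jac F) hjac, ?_, hu⟩, ?_, c3cls F (jac F) hjac, ?_⟩
  · exact mem_invGr.2 ⟨_, hF.hom _, fun g => hF.inv g _, rfl⟩
  · intro i hi
    rw [List.length_ofFn] at hi
    have e1 : Ideal.ofList ((List.ofFn θ).take i) = Ideal.span (θ '' {k | k.1 < i}) := by
      unfold Ideal.ofList
      refine congrArg Ideal.span ?_
      ext y
      simp only [Set.mem_ofPred_eq, List.mem_take_iff_getElem, List.getElem_ofFn, Set.mem_image,
        List.length_ofFn]
      constructor
      · rintro ⟨j, hj, rfl⟩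
        exact ⟨⟨j, by omega⟩, by simp only; omega, rfl⟩
      · rintro ⟨k, hk, rfl⟩
        exact ⟨k.1, by have := k.2; omega, rfl⟩
    rw [d1_weak_iff, e1, List.getElem_ofFn]
    intro y hy
    obtain ⟨f, hf, rfl⟩ := c3_exists_cls y
    rw [c3_mem hF _ _ f hf rfl]
    rw [c3_mem hF _ _ (F (.inr ⟨i, hi⟩) * f) (fun g => by rw [map_mul, hF.inv, hf]) rfl] at hy
    refine hp.reg _ _ ?_ f hy
    rintro (⟨l, hl⟩ | ⟨k, hk, hk'⟩)
    · cases hl
    · cases hk'
      exact lt_irrefl i hk
  · intro h1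
    apply hu
    have e1 : Ideal.ofList (List.ofFn θ) = Ideal.span (Set.range θ) := by
      unfold Ideal.ofList
      refine congrArg Ideal.span ?_
      ext y
      simp [List.mem_ofFn]
    rw [c3_smul_top, e1] at h1
    rw [← h1]
    exact Submodule.mem_top
  · simp only [Finset.sum_const, Finset.card_univ, Fintype.card_fin, smul_eq_mul]
    omega
  · refine mem_invGr.2 ⟨_, ?_, hjac, rfl⟩
    have := c3_jac_hom hF.toOctics
    rwa [hn, show 7 * (4 * n) = 4 * (7 * n) by ring] at this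
  · intro m hm x hx
    obtain ⟨f, hf1, hf2, hf3⟩ := mem_invGr.1 hx
    exact (hall x f hf2 hf3).2 (hp.top _ (by omega) f hf1)
  · intro y hy
    obtain ⟨f, hf, rfl⟩ := c3_exists_cls y
    have hfin : ∀ a : ℂ, f - a • jac F ∈ Ideal.span (Set.range F) →
        c3cls F f hf - a • c3cls F (jac F) hjac ∈ Ideal.span (Set.range θ) := fun a ha =>
      (hall _ (f - a • jac F) (fun g => by rw [map_sub, map_smul, hf, hjac]) rfl).2 ha
    by_cases hfJ : f ∈ Ideal.span (Set.range F)
    · exact ⟨0, hfin 0 (by rwa [zero_smul, sub_zero])⟩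
    obtain ⟨k, z, a, hz, ha, hza⟩ := c3_exists_mult hp hfJ
    have h1 := c3rey_mem hF hza
    rw [c3rey_sub, c3rey_mul z hf, c3rey_fix (u := a • jac F)
      (fun g => by rw [map_smul, hjac])] at h1
    have hw := c3rey_hom (ρ := ρ) hz
    have hwi := c3rey_inv (ρ := ρ) z
    set w := c3rey ρ z
    have hwf : w * f ∉ Ideal.span (Set.range F) := fun h2 => hsm ha (by
      have := Ideal.sub_mem _ h2 h1
      rwa [sub_sub_cancel] at this)
    have hw0 : w ≠ 0 := fun h2 => hwf (by rw [h2, zero_mul]; exact Ideal.zero_mem _)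
    obtain ⟨m, rfl⟩ : 4 ∣ k := by
      have h2 := hwi g₀
      rw [hg₀, c3_act_scalar hw] at h2
      have h3 : (Complex.I ^ k - 1) • w = 0 := by rw [sub_smul, h2, one_smul, sub_self]
      exact (Complex.isPrimitiveRoot_I.pow_eq_one_iff_dvd _).1
        (sub_eq_zero.1 ((smul_eq_zero.1 h3).resolve_right hw0))
    rcases Nat.eq_zero_or_pos m with rfl | hm
    · have h2 : w = C (w.coeff 0) :=
        totalDegree_eq_zero_iff_eq_C.1 ((totalDegree_zero_iff_isHomogeneous _).2 hw)
      have hb : w.coeff 0 ≠ 0 := fun h3 => hw0 (by rw [h2, h3, map_zero])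
      refine ⟨(w.coeff 0)⁻¹ * a, hfin _ ?_⟩
      have := Ideal.mul_mem_left _ (C (w.coeff 0)⁻¹) h1
      rw [h2, mul_sub, ← mul_assoc, ← map_mul, coeff_zero_C, inv_mul_cancel₀ hb, map_one, one_mul,
        ← smul_eq_C_mul, smul_smul] at this
      exact this
    · exfalso
      have h2 := hy m hm (c3cls F w hwi) (mem_invGr.2 ⟨w, hw, hwi, rfl⟩)
      exact hwf ((hall _ (w * f) (fun g => by rw [map_mul, hwi, hf]) rfl).1 h2)

end Pool.Agent.Lib.MP_954e53_ag
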