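import Mathlib

/-! A first moment argument with exponential weights. -/

namespace Pool.Agent.Lib.MP_954e53_ag

open Finset

lemma a_pow_le {x : ℕ} (hx : x ≤ 8) :
    (51 / 50 : ℝ) ^ x ≤ 1 + x * (((51 / 50 : ℝ) ^ 8 - 1) / 8) := by
  interval_cases x <;> norm_num

theorem exists_good_choice {Ω P T : Type} [Fintype Ω] [Fintype P] [DecidableEq P] [Fintype T]
    [Nonempty T] (X : Ω → P → T → ℕ) (h8 : ∀ ω p t, X ω p t ≤ 8)
    (havg : ∀ ω p, 7 * ∑ t, X ω p t ≤ 6 * Fintype.card T)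
    (hP : (Fintype.card Ω : ℝ) * (634 / 635 : ℝ) ^ Fintype.card P < 1) :
    ∃ φ : P → T, ∀ ω, ∑ p, X ω p (φ p) < Fintype.card P := by
  by_contra hc
  push Not at hc
  set μ : ℝ := 51 / 50 with hμ
  have hμ1 : 1 ≤ μ := by norm_num [hμ]
  have h1 : ∀ φ : P → T, μ ^ Fintype.card P ≤ ∑ ω, ∏ p, μ ^ X ω p (φ p) := fun φ => by
    obtain ⟨ω, hω⟩ := hc φ
    refine le_trans ?_ (single_le_sum (f := fun ω => ∏ p, μ ^ X ω p (φ p))
      (fun ω _ => by positivity) (mem_univ ω))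
    rw [prod_pow_eq_pow_sum]
    exact pow_le_pow_right₀ hμ1 hω
  have h2 : ∀ ω p, ∑ t, μ ^ X ω p t ≤ Fintype.card T * (μ * (634 / 635)) := fun ω p => by
    refine (sum_le_sum fun t _ => a_pow_le (h8 ω p t)).trans ?_
    have h3 : (7 : ℝ) * ∑ t, (X ω p t : ℝ) ≤ 6 * Fintype.card T := by exact_mod_cast havg ω p
    rw [sum_add_distrib, ← sum_mul, sum_const, card_univ, nsmul_eq_mul, hμ]
    have h4 : (0 : ℝ) ≤ Fintype.card T := by positivity
    norm_num
    linarith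
  have h3 : ∑ φ : P → T, ∑ ω, ∏ p, μ ^ X ω p (φ p) ≤
      Fintype.card Ω * (Fintype.card T * (μ * (634 / 635))) ^ Fintype.card P := by
    rw [sum_comm, ← nsmul_eq_mul, ← card_univ (α := Ω)]
    refine sum_le_card_nsmul _ _ _ fun ω _ => ?_
    rw [← Fintype.piFinset_univ, ← prod_univ_sum (fun _ => univ) fun p t => μ ^ X ω p t,
      ← card_univ (α := P), ← prod_const]
    exact prod_le_prod (fun p _ => by positivity) fun p _ => h2 ω p
  have h4 := (sum_le_sum fun φ _ => h1 φ).trans h3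
  rw [sum_const, card_univ, Fintype.card_fun, nsmul_eq_mul, mul_pow, mul_pow] at h4
  push_cast at h4
  have h5 : (0 : ℝ) < (Fintype.card T : ℝ) ^ Fintype.card P * μ ^ Fintype.card P := by
    have := Fintype.card_pos (α := T)
    positivity
  nlinarith

lemma a_small {n m : ℕ} (hn : n ≤ 2 ^ 190) (hm : m = 2 ^ 17) :
    (n : ℝ) * (634 / 635 : ℝ) ^ m < 1 := by
  have h1 : (634 / 635 : ℝ) ^ 635 ≤ 1 / 2 := by
    have h0 : ∀ k : ℕ, k = 635 → (634 / 635 : ℝ) ^ k ≤ 2⁻¹ := fun k hk => by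
      have h0 := one_add_mul_le_pow (a := (1 / 634 : ℝ)) (by norm_num) k
      rw [show (634 / 635 : ℝ) = (1 + 1 / 634)⁻¹ by norm_num, inv_pow]
      refine inv_anti₀ two_pos (le_trans ?_ h0)
      rw [hk]
      norm_num
    rw [one_div]
    exact h0 _ rfl
  have h2 : (634 / 635 : ℝ) ^ m ≤ (1 / 2) ^ 191 := by
    refine le_trans ?_ (pow_le_pow_left₀ (by positivity) h1 191)
    rw [← pow_mul]
    exact pow_le_pow_of_le_one (by norm_num) (by norm_num) (by omega)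
  have h3 : (n : ℝ) ≤ 2 ^ 190 := by exact_mod_cast hn
  calc (n : ℝ) * (634 / 635 : ℝ) ^ m ≤ 2 ^ 190 * (1 / 2) ^ 191 := by gcongr
    _ < 1 := by norm_num

end Pool.Agent.Lib.MP_954e53_ag
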