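import Pool.Agent.Lib.MP_954e53_ag.CexMat
import Pool.Agent.Lib.MP_954e53_ag.CexProb

/-! The group without invariant quartics and with small bad eigenspaces. -/

namespace Pool.Agent.Lib.MP_954e53_ag

open MvPolynomial Mono4 Finset

/-- The ambient group. -/
abbrev Amb (u : ℕ) : Type :=
  (Fin 7 → Mono4) × Multiplicative (Fin 3 → ZMod 8) × Multiplicative (Option (Fin u) → ZMod 8)

/-- The types of blocks. -/
abbrev Typ : Type := Fin 7 × (Fin 3 → ZMod 8)

/-- The blocks come in pairs. -/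
abbrev Blk (u : ℕ) : Type := (Fin u → Bool) × Bool

variable {u : ℕ}

/-- The address of a block. -/
def bit (β : Blk u) : Option (Fin u) → Bool
  | none => β.2
  | some k => β.1 k

lemma bit_inj {β β' : Blk u} (h : ∀ k, bit β k = bit β' k) : β = β' :=
  Prod.ext (funext fun k => h (some k)) (h none)

/-- The scalar by which a block is twisted. -/
def tw (t : Typ) (β : Blk u) (g : Amb u) : ZMod 8 :=
  t.2 ⬝ᵥ g.2.1.toAdd + ∑ k, if bit β k then g.2.2.toAdd k else 0

/-- The action on one block. -/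
def blk (t : Typ) (β : Blk u) : Amb u →* Mono4 where
  toFun g := twist (g.1 t.1) (tw t β g)
  map_one' := by
    have h : tw t β 1 = 0 := by simp [tw]
    rw [h]
    exact twist_one
  map_mul' g h := by
    have h1 : tw t β (g * h) = tw t β g + tw t β h := by
      simp only [tw, Prod.snd_mul, Prod.fst_mul, toAdd_mul, dotProduct_add, Pi.add_apply, ite_add_zero,
        sum_add_distrib]
      ring
    rw [h1]
    exact twist_mul _ _ _ _

/-- The monoid of admissible elements. -/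
def grpM (u : ℕ) : Submonoid (Amb u) where
  carrier := {g | ∀ τ, Gm (g.1 τ) ∧ cls (g.1 τ) = pres τ g.2.1.toAdd}
  one_mem' τ := ⟨gm_one, cls_one.trans (pres_zero τ).symm⟩
  mul_mem' {g h} hg hh τ := ⟨(hg τ).1.mul (hh τ).1, by
    rw [Prod.fst_mul, Pi.mul_apply, cls_mul (hg τ).1 (hh τ).1, (hg τ).2, (hh τ).2, ← pres_add]
    rfl⟩

/-- The group. -/
def grp (u : ℕ) : Subgroup (Amb u) where
  toSubmonoid := grpM u
  inv_mem' {g} hg := by
    have h1 : g⁻¹ = g ^ (orderOf g - 1) := by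
      rw [inv_eq_iff_mul_eq_one, ← pow_succ', Nat.sub_add_cancel (orderOf_pos g),
        pow_orderOf_eq_one]
    rw [h1]
    exact (grpM u).pow_mem hg _

lemma gm_blk (t : Typ) (β : Blk u) (g : grp u) : Gm (blk t β g.1) := (g.2 t.1).1.twist _

/-- The representation attached to a choice of types. -/
noncomputable def rep (φ : (Fin u → Bool) → Typ) :
    grp u →* Matrix (Fin 4 × Blk u) (Fin 4 × Blk u) ℂ :=
  (Matrix.blockDiagonalRingHom (Fin 4) (Blk u) ℂ).toMonoidHom.comp
    ((MonoidHom.pi fun β => mat.comp (blk (φ β.1) β)).comp (grp u).subtype)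

lemma rep_apply (φ : (Fin u → Bool) → Typ) (g : grp u) :
    rep φ g = Matrix.blockDiagonal fun β => mat (blk (φ β.1) β g.1) := rfl

lemma rep_scalar (φ : (Fin u → Bool) → Typ) : ∃ g, rep φ g = Complex.I • (1 : Matrix _ _ ℂ) := by
  refine ⟨⟨(fun _ => twist 1 1, 1, 1), fun τ => ⟨gm_one.twist 1, ?_⟩⟩, ?_⟩
  · exact (show cls (twist 1 1) = 0 by decide).trans (pres_zero τ).symm
  · have h : ∀ β : Blk u, mat (blk (φ β.1) β (fun _ => twist 1 1, 1, 1)) = Complex.I • 1 := fun β => by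
      have h1 : tw (φ β.1) β (fun _ => twist 1 1, 1, 1) = 0 := by simp [tw]
      show mat (twist (twist 1 1) _) = _
      rw [mat_twist, mat_twist, h1, mul_zero, mul_one, psi_two, AddChar.map_zero_eq_one, one_smul,
        map_one]
    rw [rep_apply, funext h, ← Matrix.blockDiagonal_one, ← Matrix.blockDiagonal_smul]
    rfl

lemma rep_det (φ : (Fin u → Bool) → Typ) (g : grp u) : (rep φ g).det = 1 := by
  rw [rep_apply, Matrix.det_blockDiagonal, Fintype.prod_prod_type]
  refine prod_eq_one fun p _ => ?_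
  rw [Fintype.prod_bool]
  exact (congrArg₂ _ (det_twist _ _) (det_twist _ _)).trans (g.2 _).1.det_sq

lemma rep_octic (φ : (Fin u → Bool) → Typ) (y : Fin 4 × Blk u → ℂ) (hy : y ≠ 0) :
    ∃ f : MvPolynomial (Fin 4 × Blk u) ℂ, f.IsHomogeneous 8 ∧ (∀ g, act (rep φ g) f = f) ∧
      eval y f ≠ 0 := by
  obtain ⟨⟨i, β⟩, hi⟩ := Function.ne_iff.1 hy
  obtain ⟨f, h1, h2, h3⟩ := exists_oct (v := fun j => y (j, β)) fun h => hi (congrFun h i)
  refine ⟨rename (fun j => (j, β)) f, h1.rename_isHomogeneous, fun g => MvPolynomial.funext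
    fun w => ?_, by rwa [eval_rename]⟩
  rw [eval_act, eval_rename, eval_rename, ← h2 _ (gm_blk (φ β.1) β g) (w ∘ fun j => (j, β))]
  congr 2
  funext j
  exact blockDiagonal_mulVec_apply _ _ _ _

lemma rep_entry (φ : (Fin u → Bool) → Typ) (g : grp u) (i j : Fin 4 × Blk u) :
    rep φ g i j = if j = Equiv.prodCongrLeft (fun β => (blk (φ β.1) β g.1).p) i then
      psi ((blk (φ i.2.1) i.2 g.1).a i.1) else 0 := by
  obtain ⟨i, β⟩ := i
  obtain ⟨j, β'⟩ := j
  rw [rep_apply, Matrix.blockDiagonal_apply, mat_apply]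
  by_cases h : β = β'
  · subst h
    simp [Equiv.prodCongrLeft]
  · simp [Equiv.prodCongrLeft, h, Ne.symm h]

lemma rep_quartic (φ : (Fin u → Bool) → Typ) (f : MvPolynomial (Fin 4 × Blk u) ℂ)
    (hf : f.IsHomogeneous 4) (hinv : ∀ g, act (rep φ g) f = f) : f = 0 := by
  by_contra h0
  obtain ⟨n, hn⟩ := ne_zero_iff.1 h0
  have hdeg : ∑ i, n i = 4 := by
    have h1 := hf hn
    rw [← Finsupp.degree_eq_sum, Finsupp.degree_eq_weight_one]
    exact h1
  have key : ∀ g : grp u, (∀ i β, n ((blk (φ β.1) β g.1).p i, β) = n (i, β)) →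
      ∑ i, (n i : ZMod 8) * (blk (φ i.2.1) i.2 g.1).a i.1 = 0 := fun g hg => by
    have h1 := prod_eq_one_of_act (rep_entry φ g) (hinv g) hn fun i => hg i.1 i.2
    simp only [psi_pow] at h1
    rw [← psi_sum] at h1
    exact psi_eq_one h1
  obtain ⟨i0, hi0⟩ : ∃ i, n i ≠ 0 := by
    by_contra h
    push Not at h
    simp [h] at hdeg
  have hpure : ∀ i, n i ≠ 0 → i.2 = i0.2 := fun i1 hi1 => bit_inj fun k => by
    have h1 := key ⟨(1, 1, Multiplicative.ofAdd (Pi.single k 1)), fun τ =>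
      ⟨gm_one, cls_one.trans (pres_zero τ).symm⟩⟩ fun i β => rfl
    have h2 : ∀ i : Fin 4 × Blk u, (blk (φ i.2.1) i.2
        (1, 1, Multiplicative.ofAdd (Pi.single k 1))).a i.1 = if bit i.2 k then 2 else 0 := fun i => by
      have h3 : tw (φ i.2.1) i.2 (1, 1, Multiplicative.ofAdd (Pi.single k 1)) =
          if bit i.2 k then 1 else 0 := by
        rw [tw, sum_eq_single k (fun k' _ h => by simp [Pi.single_eq_of_ne h]) (by simp)]
        simp
      show 0 + 2 * tw _ _ _ = _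
      rw [h3]
      simp
    simp only [h2, mul_ite, mul_zero, ← sum_filter, ← sum_mul, ← Nat.cast_sum] at h1
    have h3 := sum_filter_add_sum_filter_not univ (fun i : Fin 4 × Blk u => bit i.2 k) n
    rw [hdeg] at h3
    have h4 : ∀ m : ℕ, m ≤ 4 → (m : ZMod 8) * 2 = 0 → m = 0 ∨ m = 4 := by decide
    rcases h4 _ (by omega) h1 with h5 | h5
    · rw [sum_eq_zero_iff] at h5
      have h6 : ∀ i, n i ≠ 0 → bit i.2 k = false := fun i hi => by
        by_contra h7
        exact hi (h5 i (by simpa using h7))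
      rw [h6 _ hi0, h6 _ hi1]
    · have h5' : ∑ i with ¬bit i.2 k = true, n i = 0 := by omega
      rw [sum_eq_zero_iff] at h5'
      have h6 : ∀ i, n i ≠ 0 → bit i.2 k = true := fun i hi => by
        by_contra h7
        exact hi (h5' i (by simpa using h7))
      rw [h6 _ hi0, h6 _ hi1]
  have hz : ∀ i β, β ≠ i0.2 → n (i, β) = 0 := fun i β h => by
    by_contra h1
    exact h (hpure _ h1)
  have hsum : ∀ {M : Type} [AddCommMonoid M] (w : Fin 4 × Blk u → M), (∀ i, n i = 0 → w i = 0) →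
      ∑ i, w i = ∑ i, w (i, i0.2) := fun w hw => by
    rw [Fintype.sum_prod_type]
    exact sum_congr rfl fun i _ => sum_eq_single _ (fun β _ h => hw _ (hz i β h)) (by simp)
  rw [hsum _ fun _ h => h] at hdeg
  obtain ⟨x, e, hx, hxe, h1, h2⟩ := exists_wit _ hdeg (φ i0.2.1).1
  let g : grp u := ⟨(fun τ => if τ = (φ i0.2.1).1 then x else sec (pres τ e),
    Multiplicative.ofAdd e, 1), fun τ => by
      by_cases h : τ = (φ i0.2.1).1
      · subst h
        simpa using ⟨hx, hxe⟩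
      · simpa [h] using sec_spec τ e⟩
  have h3 : blk (φ i0.2.1) i0.2 g.1 = twist x (tw (φ i0.2.1) i0.2 g.1) := by
    show twist (if _ then _ else _) _ = _
    rw [if_pos rfl]
  have h4 := key g fun i β => by
    by_cases h : β = i0.2
    · rw [h, h3]; exact h1 i
    · rw [hz _ _ h, hz _ _ h]
  rw [hsum _ fun i h => by rw [h, Nat.cast_zero, zero_mul]] at h4
  simp only [h3, twist, mul_add, sum_add_distrib, ← sum_mul, ← Nat.cast_sum, hdeg] at h4
  rw [← mul_assoc, show ((4 : ℕ) : ZMod 8) * 2 = 0 from rfl, zero_mul, add_zero] at h4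
  exact h2 h4

lemma sum_dot {e : Fin 3 → ZMod 8} {k : Fin 3} {v : ZMod 8} (h : e k * v = 1) (m : ZMod 8 → ℕ) :
    ∑ χ : Fin 3 → ZMod 8, m (χ ⬝ᵥ e) = 64 * ∑ s, m s := by
  have h1 : ∀ s, ∑ χ : Fin 3 → ZMod 8, m (χ ⬝ᵥ e) = ∑ χ : Fin 3 → ZMod 8, m (χ ⬝ᵥ e + s) := fun s => by
    rw [← Equiv.sum_comp (Equiv.addRight (Pi.single k (s * v)))]
    refine sum_congr rfl fun χ _ => congrArg m ?_
    rw [Equiv.coe_addRight, add_dotProduct, single_dotProduct, mul_assoc, mul_comm v, h, mul_one]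
  have h2 := sum_congr rfl fun s (_ : s ∈ univ) => h1 s
  have h3 : ∀ w, ∑ s, m (w + s) = ∑ s, m s := fun w => Equiv.sum_comp (Equiv.addLeft w) m
  rw [sum_const, card_univ, ZMod.card, smul_eq_mul, sum_comm,
    sum_congr rfl fun χ _ => h3 (χ ⬝ᵥ e), sum_const, card_univ,
    Fintype.card_fun, ZMod.card, Fintype.card_fin, smul_eq_mul] at h2
  omega

lemma sum_two_mul (m : ZMod 8 → ℕ) (j : ZMod 8) : ∑ s, m (j - 2 * s) ≤ 2 * ∑ s, m s := by
  rw [← Equiv.sum_comp (Equiv.subLeft j) m]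
  have h1 : ∀ w : ZMod 8 → ℕ, ∑ s, w s = w 0 + w 1 + w 2 + w 3 + w 4 + w 5 + w 6 + w 7 :=
    fun w => Fin.sum_univ_eight w
  rw [h1, h1]
  have h2 : m (j - 2 * 0) + m (j - 2 * 1) + m (j - 2 * 2) + m (j - 2 * 3) + m (j - 2 * 4) +
      m (j - 2 * 5) + m (j - 2 * 6) + m (j - 2 * 7) = m (j - 0) + m (j - 2) + m (j - 4) +
      m (j - 6) + m (j - 0) + m (j - 2) + m (j - 4) + m (j - 6) := rfl
  simp only [Equiv.subLeft_apply]
  omega

lemma sum_types (g : grp u) {j : ZMod 8} (hj : psi j ^ 4 ≠ 1) (β : Blk u) :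
    ∑ t : Typ, mult (blk t β g.1) (psi j) ≤ 1536 := by
  rw [Fintype.sum_prod_type]
  have h1 : ∀ τ : Fin 7, ∑ χ, mult (blk (τ, χ) β g.1) (psi j) ≤
      if Bad (pres τ g.1.2.1.toAdd) then 512 else 0 := fun τ => by
    split_ifs with h
    · obtain ⟨k, v, hk⟩ := unit_of_bad h
      set w := ∑ k, if bit β k then g.1.2.2.toAdd k else 0 with hw
      have h2 := sum_dot hk fun s => mult (g.1.1 τ) (psi (j - 2 * w - 2 * s))
      have h3 := sum_two_mul (fun s => mult (g.1.1 τ) (psi s)) (j - 2 * w)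
      have h4 := sum_mult_le (g.1.1 τ)
      have h5 : ∀ χ, mult (blk (τ, χ) β g.1) (psi j) =
          mult (g.1.1 τ) (psi (j - 2 * w - 2 * (χ ⬝ᵥ g.1.2.1.toAdd))) := fun χ => by
        refine (mult_twist _ _ _).trans (congrArg (fun s => mult (g.1.1 τ) (psi s)) ?_)
        rw [tw, ← hw]
        ring
      rw [sum_congr rfl fun χ _ => h5 χ]
      omega
    · refine (sum_eq_zero fun χ _ => mult_eq_zero (n := 4) ?_ hj).le
      have h2 := (gm_blk (τ, χ) β g).pow_four
      have h3 : cls (blk (τ, χ) β g.1) = pres τ g.1.2.1.toAdd := by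
        rw [← (g.2 τ).2]
        have h8 : (8 : ZMod 8) = 0 := rfl
        funext i
        fin_cases i
        · show 4 * (_ + 2 * _) = 4 * _
          linear_combination tw (τ, χ) β g.1 * h8
        · rfl
        · show 2 * (_ + 2 * _ - (_ + 2 * _)) = 2 * (_ - _)
          ring
      rw [h2, h3, if_neg h]
      rfl
  refine (sum_le_sum fun τ _ => h1 τ).trans ?_
  rw [← sum_filter, sum_const, smul_eq_mul]
  have := card_bad g.1.2.1.toAdd
  omega

lemma card_grp (u : ℕ) : Nat.card (grp u × ZMod 8) ≤ (2 ^ 17) ^ 7 * (8 ^ 3 * 8 ^ (u + 1)) * 8 := by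
  have h := Nat.pow_le_pow_left (Nat.card_eq_fintype_card.trans_le Mono4.card_le) 7
  refine (Nat.card_le_card_of_injective (Prod.map Subtype.val id)
    (Subtype.val_injective.prodMap Function.injective_id)).trans ?_
  rw [Nat.card_prod, Nat.card_prod, Nat.card_prod, Nat.card_congr Multiplicative.toAdd,
    Nat.card_congr Multiplicative.toAdd, Nat.card_fun, Nat.card_fun, Nat.card_fun, Nat.card_zmod,
    Finite.card_option, Nat.card_fin, Nat.card_fin, Nat.card_fin]
  exact Nat.mul_le_mul_right _ (Nat.mul_le_mul_right _ h)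

lemma card_typ : Fintype.card Typ = 3584 := by
  rw [← Nat.card_eq_fintype_card, Nat.card_prod, Nat.card_fun, Nat.card_zmod, Nat.card_fin,
    Nat.card_fin]
  rfl

theorem exists_rep (hu : u = 17) : ∃ φ : (Fin u → Bool) → Typ, GroupData (rep φ) (2 ^ u - 1) := by
  classical
  have hc : Fintype.card (Fin u → Bool) = 2 ^ u := by simp
  obtain ⟨φ, hφ⟩ := exists_good_choice (Ω := grp u × ZMod 8) (P := Fin u → Bool) (T := Typ)
    (fun ω p t => if psi ω.2 ^ 4 = 1 then 0 else ∑ b, mult (blk t (p, b) ω.1.1) (psi ω.2))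
    (fun ω p t => by
      split_ifs
      · exact Nat.zero_le _
      · rw [Fintype.sum_bool]
        exact add_le_add (mult_le _ _) (mult_le _ _))
    (fun ω p => by
      split_ifs with h
      · simp
      · rw [sum_comm, Fintype.sum_bool, card_typ]
        have h1 := sum_types ω.1 h (p, true)
        have h2 := sum_types ω.1 h (p, false)
        omega)
    (a_small (Nat.card_eq_fintype_card.symm.trans_le ((card_grp u).trans (by rw [hu]; norm_num)))
      (hc.trans (by rw [hu])))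
  have hpos : 0 < 2 ^ u := Nat.two_pow_pos u
  refine ⟨φ, rep_scalar φ, rep_quartic φ, rep_det φ, rep_octic φ, fun g z hz => ?_, ?_⟩
  · refine (finrank_eigenspace_blockDiagonal _ z).trans ?_
    by_cases h8 : z ^ 8 = 1
    · obtain ⟨j, rfl⟩ := exists_psi h8
      have h1 := hφ (g, j)
      simp only [if_neg hz] at h1
      rw [hc] at h1
      rw [Fintype.sum_prod_type]
      exact Nat.le_sub_one_of_lt h1
    · exact (sum_eq_zero fun β _ => mult_eq_zero (gm_blk _ β g).pow_eight h8).trans_le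
        (Nat.zero_le _)
  · rw [Fintype.card_prod, Fintype.card_prod, hc, Fintype.card_fin, Fintype.card_bool]
    omega

lemma exists_groupData_aux (hu : u = 17) : ∃ (c d : ℕ) (G : Type) (_ : Group G) (_ : Finite G)
    (ρ : G →* Matrix (Fin c ⊕ Fin d) (Fin c ⊕ Fin d) ℂ), 2 ≤ d ∧ GroupData ρ c := by
  obtain ⟨φ, hφ⟩ := exists_rep hu
  have hpos : 0 < 2 ^ u := Nat.two_pow_pos u
  obtain ⟨ρ, hρ⟩ := hφ.reindex (ι' := Fin (2 ^ u - 1) ⊕ Fin (7 * 2 ^ u + 1))
    (Fintype.equivOfCardEq (by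
      rw [Fintype.card_prod, Fintype.card_prod, Fintype.card_fun, Fintype.card_sum,
        Fintype.card_bool, Fintype.card_fin, Fintype.card_fin, Fintype.card_fin, Fintype.card_fin]
      omega))
  exact ⟨_, _, grp u, inferInstance, inferInstance, ρ, by omega, hρ⟩

theorem exists_groupData : ∃ (c d : ℕ) (G : Type) (_ : Group G) (_ : Finite G)
    (ρ : G →* Matrix (Fin c ⊕ Fin d) (Fin c ⊕ Fin d) ℂ), 2 ≤ d ∧ GroupData ρ c :=
  exists_groupData_aux rfl

end Pool.Agent.Lib.MP_954e53_ag
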