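import Pool.Agent.Lib.MP_954e53_ag.CexDefs

/-! Height one primes of normal domains. -/

namespace Pool.Agent.Lib.MP_954e53_ag

theorem mem_of_forall_height_one {R : Type*} [CommRing R] [IsDomain R] [IsNoetherianRing R]
    [IsIntegrallyClosed R] (z : FractionRing R)
    (h : ∀ Q : Ideal R, Q.IsPrime → Q.height = 1 → z ∈ locAt Q) :
    ∃ a : R, algebraMap R (FractionRing R) a = z := by
  by_contra hz
  let N : Submodule R (FractionRing R) := LinearMap.range (Algebra.linearMap R (FractionRing R))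
  let den : FractionRing R → Ideal R := fun w => N.comap (LinearMap.toSpanSingleton R _ w)
  have hden : ∀ w r, r ∈ den w ↔ r • w ∈ N := fun _ _ => Iff.rfl
  obtain ⟨_, ⟨c, hc, rfl⟩, hmax⟩ := set_has_maximal_iff_noetherian.2
    (inferInstance : IsNoetherian R R) {I | ∃ c : R, c • z ∉ N ∧ I = den (c • z)}
    ⟨_, 1, by rwa [one_smul], rfl⟩
  have h1 : (den (c • z)).IsPrime := by
    refine ⟨fun h => hc (by simpa [hden] using (Ideal.eq_top_iff_one _).1 h), fun {r s} hrs => ?_⟩
    refine or_iff_not_imp_right.2 fun hs => ?_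
    have h2 : den (c • z) ≤ den ((s * c) • z) := fun t ht => by
      rw [hden, mul_smul, smul_comm]
      exact N.smul_mem s ht
    rw [h2.eq_of_not_lt (hmax _ ⟨s * c, by rwa [mul_smul], rfl⟩), hden, mul_smul, ← mul_smul r]
    exact hrs
  have h2 : den z ≤ den (c • z) := fun t ht => by
    rw [hden, smul_comm]
    exact N.smul_mem c ht
  have h3 : den (c • z) ≠ ⊥ := by
    obtain ⟨a, b, hb, rfl⟩ := IsFractionRing.div_surjective (A := R) z
    refine fun h => nonZeroDivisors.ne_zero hb (Ideal.mem_bot.1 (h ▸ h2 ⟨a, ?_⟩))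
    have := IsFractionRing.to_map_ne_zero_of_mem_nonZeroDivisors (K := FractionRing R) hb
    simp [Algebra.smul_def, mul_div_cancel₀ _ this]
  generalize c • z = w at *
  obtain ⟨q, hq, u, hu, hu'⟩ : ∃ q ∈ den w, ∃ u ∉ den w, algebraMap R _ u = q • w := by
    by_contra hcon
    push Not at hcon
    refine hc (IsIntegrallyClosed.algebraMap_eq_of_integral (isIntegral_of_smul_mem_submodule
      (Submodule.map (Algebra.linearMap R (FractionRing R)) (den w)) (fun h => h3 ?_)
      ((IsNoetherian.noetherian _).map _) w ?_))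
    · refine eq_bot_iff.2 fun r hr => IsFractionRing.injective R (FractionRing R) ?_
      rw [map_zero]
      exact (Submodule.eq_bot_iff _).1 h _ ⟨r, hr, rfl⟩
    · rintro _ ⟨q, hq, rfl⟩
      obtain ⟨u, hu⟩ := hq
      refine ⟨u, by_contra fun h => hcon q ⟨u, hu⟩ u h hu, hu.trans ?_⟩
      simp [Algebra.smul_def, mul_comm]
  have h4 : den w ∈ (Ideal.span {q}).minimalPrimes := by
    refine ⟨⟨h1, (Ideal.span_singleton_le_iff_mem _).2 hq⟩, fun P hP hP' t ht => ?_⟩
    obtain ⟨v, hv⟩ := ht
    refine (hP.1.mem_or_mem (x := u) ?_).resolve_left fun h => hu (hP' h)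
    have : u * t = q * v := IsFractionRing.injective R (FractionRing R) (by
      have hv' : algebraMap R (FractionRing R) v = t • w := hv
      rw [map_mul, map_mul, hu', hv', Algebra.smul_def, Algebra.smul_def]
      ring)
    exact this ▸ hP.2 (Ideal.mem_span_singleton.2 (dvd_mul_right q v))
  obtain ⟨a, b, hb, hab⟩ := h _ h1 (le_antisymm
    (Ideal.height_le_one_of_isPrincipal_of_mem_minimalPrimes _ _ h4)
    (Order.one_le_iff_ne_zero.2 fun h => h3 (Ideal.height_eq_zero_iff_eq_bot.1 h)))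
  exact hb (h2 ⟨a, by simp [Algebra.smul_def, ← hab, mul_comm]⟩)

theorem height_comap_eq_one {S R : Type*} [CommRing S] [IsDomain S] [CommRing R] [IsDomain R]
    [Algebra S R] [FaithfulSMul S R] [Algebra.IsIntegral S R] [IsIntegrallyClosed S]
    (Q : Ideal R) [Q.IsPrime] (h : Q.height = 1) : (Q.comap (algebraMap S R)).height = 1 := by
  refine le_antisymm ((Ideal.height_le_iff (n := 1)).2 fun q hq hlt => ?_)
    (Order.one_le_iff_ne_zero.2 fun h' => Ideal.ne_bot_of_height_eq_one h
      (Ideal.eq_bot_of_comap_eq_bot (Ideal.height_eq_zero_iff_eq_bot.1 h')))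
  have : Q.LiesOver (Q.comap (algebraMap S R)) := ⟨rfl⟩
  obtain ⟨P, h1, h2, h3⟩ := Ideal.exists_ideal_lt_liesOver_of_lt Q hlt
  have h4 := (Ideal.height_le_iff (n := 1)).1 h.le P h2 h1
  rw [Nat.cast_one, Order.lt_one_iff, Ideal.height_eq_zero_iff_eq_bot] at h4 ⊢
  rw [h3.over, h4]
  exact Ideal.comap_bot_of_injective _ (FaithfulSMul.algebraMap_injective S R)

end Pool.Agent.Lib.MP_954e53_ag
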