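import Pool.Agent.Lib.MP_954e53_ag.CexRey

/-! The ring of invariants of the cone: grading, finiteness, normality. -/

namespace Pool.Agent.Lib.MP_954e53_ag

open MvPolynomial

variable {c d : ℕ} {G : Type} [Group G] {ρ : G →* Matrix (Fin c ⊕ Fin d) (Fin c ⊕ Fin d) ℂ}
  {F : Fin c ⊕ Fin d → MvPolynomial (Fin c ⊕ Fin d) ℂ}

lemma mk_mem_invRing {f : MvPolynomial (Fin c ⊕ Fin d) ℂ} (hf : ∀ g, act (ρ g) f = f) :
    Ideal.Quotient.mk (eqIdeal F) f ∈ invRing ρ F := ⟨f, mem_invAlg.2 hf, rfl⟩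

lemma exists_inv_lift (s : invRing ρ F) : ∃ f : MvPolynomial (Fin c ⊕ Fin d) ℂ,
    (∀ g, act (ρ g) f = f) ∧ Ideal.Quotient.mk (eqIdeal F) f = s := by
  obtain ⟨_, f, hf, rfl⟩ := s
  exact ⟨f, mem_invAlg.1 hf, rfl⟩

lemma invGr_gradedMonoid : SetLike.GradedMonoid (invGr ρ F) where
  one_mem := mem_invGr.2 ⟨1, isHomogeneous_one _ _, fun g => map_one _, rfl⟩
  mul_mem i j a b ha hb := by
    obtain ⟨f, hf1, hf2, hf3⟩ := mem_invGr.1 ha
    obtain ⟨p, hp1, hp2, hp3⟩ := mem_invGr.1 hb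
    refine mem_invGr.2 ⟨f * p, by rw [mul_add]; exact hf1.mul hp1,
      fun g => by rw [map_mul, hf2, hp2], ?_⟩
    rw [map_mul, hf3, hp3]
    rfl

theorem invGraded [Finite G] (h : GroupData ρ c) (hF : CIData ρ F) :
    Nonempty (GradedAlgebra (invGr ρ F)) := by
  have h1 : DirectSum.IsInternal (invGr ρ F) := by
    refine DirectSum.isInternal_submodule_of_iSupIndep_of_iSup_eq_top ?_ ?_
    · rw [iSupIndep_iff_finsetSum_eq_zero_imp_eq_zero]
      intro s v hv hsum i hi
      choose! f hf1 hf2 hf3 using fun i hi => mem_invGr.1 (hv i hi)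
      have h2 : ∑ j ∈ s, f j ∈ eqIdeal F := by
        rw [← Ideal.Quotient.eq_zero_iff_mem, map_sum, Finset.sum_congr rfl hf3,
          ← AddSubmonoidClass.coe_finsetSum, hsum]
        rfl
      have h3 := hF.toOctics.homogeneousComponent_mem h2 (4 * i)
      rw [map_sum, Finset.sum_eq_single i (fun j hj hji => by
        rw [homogeneousComponent_of_mem (hf1 j hj), if_neg (by omega)]) (fun h => absurd hi h),
        homogeneousComponent_eq_self (hf1 i hi), ← Ideal.Quotient.eq_zero_iff_mem, hf3 i hi] at h3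
      exact Subtype.ext h3
    · rw [eq_top_iff]
      rintro s -
      obtain ⟨f, hf, hs⟩ := exists_inv_lift s
      have h2 : s = ∑ n ∈ Finset.range (f.totalDegree + 1),
          (⟨_, mk_mem_invRing (inv_homogeneousComponent hf n)⟩ : invRing ρ F) := by
        apply Subtype.ext
        rw [AddSubmonoidClass.coe_finsetSum, ← hs, ← map_sum, sum_homogeneousComponent]
      rw [h2]
      refine Submodule.sum_mem _ fun n _ => ?_
      by_cases hn : 4 ∣ n
      · obtain ⟨m, rfl⟩ := hn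
        exact Submodule.mem_iSup_of_mem m (mem_invGr.2 ⟨_, homogeneousComponent_isHomogeneous _ _,
          inv_homogeneousComponent hf _, rfl⟩)
      · have h3 := h.inv_hom_eq_zero (homogeneousComponent_isHomogeneous n f)
          (inv_homogeneousComponent hf n) hn
        exact Submodule.mem_iSup_of_mem 0 (mem_invGr.2 ⟨_, h3 ▸ isHomogeneous_zero _ _ _,
          inv_homogeneousComponent hf _, rfl⟩)
  exact ⟨{ invGr_gradedMonoid, h1.chooseDecomposition with }⟩

lemma c1_finite_aux {k P R : Type*} [Field k] [CommRing P] [CommRing R] [Algebra k P] [Algebra k R]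
    (π : P →ₐ[k] R) (hπ : Function.Surjective π) (A : Subalgebra k P) (B : Subalgebra k R)
    (hA : Module.Finite A P) (h : A ≤ B.comap π) : Module.Finite B R := by
  classical
  obtain ⟨s, hs⟩ := hA.fg_top
  refine ⟨s.image π, eq_top_iff.2 fun r _ => ?_⟩
  obtain ⟨p, rfl⟩ := hπ r
  have h1 : p ∈ Submodule.span A (s : Set P) := hs ▸ Submodule.mem_top
  induction h1 using Submodule.span_induction with
  | mem x hx => exact Submodule.subset_span (by simpa using ⟨x, hx, rfl⟩)
  | zero => rw [map_zero]; exact zero_mem _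
  | add x y _ _ hx hy => rw [map_add]; exact add_mem (hx trivial) (hy trivial)
  | smul a x _ hx =>
    have h2 : π (a • x) = (⟨π a, h a.2⟩ : B) • π x := map_mul π a.1 x
    rw [h2]
    exact Submodule.smul_mem _ _ (hx trivial)

lemma c1_finite (hp : Params F) (B : Subalgebra ℂ (CI F))
    (hB : ∀ l, Ideal.Quotient.mk (eqIdeal F) (F l) ∈ B) : Module.Finite B (CI F) :=
  c1_finite_aux (Ideal.Quotient.mkₐ ℂ (eqIdeal F)) (Ideal.Quotient.mkₐ_surjective ℂ _) _ B
    hp.finite (Algebra.adjoin_le (by rintro _ ⟨l, rfl⟩; exact hB l))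

theorem inv_finite (hF : CIData ρ F) (hp : Params F) : Module.Finite (invRing ρ F) (CI F) :=
  c1_finite hp _ fun l => mk_mem_invRing fun g => hF.inv g l

theorem ci_trdeg (hp : Params F) [IsDomain (CI F)] : Algebra.trdeg ℂ (CI F) ≤ d := by
  have := c1_finite hp (Algebra.adjoin ℂ
    (Set.range fun k : Fin d => Ideal.Quotient.mk (eqIdeal F) (F (.inr k)))) (by
      rintro (l | k)
      · have h1 : F (.inl l) ∈ eqIdeal F := Ideal.subset_span ⟨l, rfl⟩
        rw [Ideal.Quotient.eq_zero_iff_mem.2 h1]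
        exact zero_mem _
      · exact Algebra.subset_adjoin ⟨k, rfl⟩)
  refine (Algebra.IsAlgebraic.trdeg_le_cardinalMk ℂ
    (Set.range fun k : Fin d => Ideal.Quotient.mk (eqIdeal F) (F (.inr k)))).trans ?_
  simpa using Cardinal.mk_range_le
    (f := fun k : Fin d => Ideal.Quotient.mk (eqIdeal F) (F (.inr k)))

lemma inv_finiteType (hF : CIData ρ F) (hp : Params F) : Algebra.FiniteType ℂ (invRing ρ F) :=
  ⟨fg_of_fg_of_fg ℂ (invRing ρ F) (CI F) Algebra.FiniteType.out (inv_finite hF hp).fg_top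
    Subtype.val_injective⟩

lemma invGr_zero {y : invRing ρ F} (hy : y ∈ invGr ρ F 0) : ∃ a : ℂ, algebraMap ℂ _ a = y := by
  obtain ⟨f, hf1, -, hf3⟩ := mem_invGr.1 hy
  refine ⟨coeff 0 f, Subtype.ext ?_⟩
  rw [← hf3, ← homogeneousComponent_eq_self hf1, mul_zero, homogeneousComponent_zero]
  simp only [coeff_zero_C]
  rfl

lemma c1_generatedBy {k S : Type*} [Field k] [CommRing S] [Algebra k S] (𝒜 : ℕ → Submodule k S)
    [GradedAlgebra 𝒜] [Algebra.FiniteType k S] (h0 : ∀ y ∈ 𝒜 0, ∃ a : k, algebraMap k S a = y) :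
    ∃ n, GeneratedBy 𝒜 n := by
  have h1 : IsScalarTower k (𝒜 0) S := ⟨fun a b s => smul_mul_assoc a b.1 s⟩
  have h2 : Algebra.FiniteType (𝒜 0) S :=
    Algebra.FiniteType.of_restrictScalars_finiteType k _ _
  obtain ⟨s, hs1, hs2⟩ := GradedAlgebra.exists_finset_adjoin_eq_top_and_homogeneous_ne_zero 𝒜
  choose w hw1 hw2 using fun i : s => hs2 i.1 i.2
  refine ⟨s.card, fun i => (s.equivFin.symm i).1, fun i => w (s.equivFin.symm i),
    fun i => ⟨Nat.pos_of_ne_zero (hw1 _), hw2 _⟩, ?_⟩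
  have h3 : (Set.range fun i => (s.equivFin.symm i).1) = (s : Set S) := by
    rw [show (fun i => (s.equivFin.symm i).1) = Subtype.val ∘ s.equivFin.symm from rfl,
      s.equivFin.symm.surjective.range_comp, Subtype.range_coe_subtype]
    rfl
  rw [h3, eq_top_iff]
  rintro y -
  have h4 : y ∈ Algebra.adjoin (𝒜 0) (s : Set S) := hs1 ▸ Algebra.mem_top
  induction h4 using Algebra.adjoin_induction with
  | mem x hx => exact Algebra.subset_adjoin hx
  | algebraMap r =>
    obtain ⟨a, ha⟩ := h0 r r.2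
    have h5 : algebraMap (𝒜 0) S r = algebraMap k S a := ha.symm
    rw [h5]
    exact Subalgebra.algebraMap_mem _ a
  | add x y _ _ hx hy => exact add_mem hx hy
  | mul x y _ _ hx hy => exact mul_mem hx hy

theorem inv_generatedBy [Finite G] (h : GroupData ρ c) (hF : CIData ρ F) (hp : Params F)
    [GradedAlgebra (invGr ρ F)] : ∃ n, GeneratedBy (invGr ρ F) n :=
  have _ := h
  have := inv_finiteType hF hp
  c1_generatedBy _ fun _ => invGr_zero

lemma c1_normal {k R : Type*} [Field k] [CommRing R] [Algebra k R] [IsDomain R]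
    [IsIntegrallyClosed R] (S : Subalgebra k R)
    (h : ∀ (a b : S) (r : R), r * b = a → ∃ t : S, t * b = a) : IsIntegrallyClosed S := by
  rw [isIntegrallyClosed_iff (FractionRing S)]
  intro z hz
  obtain ⟨a, b, hb, rfl⟩ := IsFractionRing.div_surjective (A := S) z
  have hb0 : b ≠ 0 := nonZeroDivisors.ne_zero hb
  have hinj : Function.Injective (algebraMap S R) := Subtype.val_injective
  let ψ : FractionRing S →+* FractionRing R := IsFractionRing.map hinj
  have hψ : ∀ s : S, ψ (algebraMap S _ s) = algebraMap R _ (s : R) := fun s =>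
    IsLocalization.map_eq _ _
  have h1 := hz.map_of_comp_eq (algebraMap S R) ψ (RingHom.ext fun s => (hψ s).symm)
  obtain ⟨r, hr⟩ := (isIntegrallyClosed_iff (FractionRing R)).1 inferInstance h1
  have hb1 : algebraMap R (FractionRing R) b ≠ 0 := by
    rw [map_ne_zero_iff _ (IsFractionRing.injective _ _)]
    exact fun h => hb0 (Subtype.ext h)
  rw [map_div₀, hψ, hψ, eq_div_iff hb1, ← map_mul] at hr
  obtain ⟨t, ht⟩ := h a b r (IsFractionRing.injective _ _ hr)
  refine ⟨t, ?_⟩
  rw [eq_div_iff ((map_ne_zero_iff _ (IsFractionRing.injective _ _)).2 hb0), ← map_mul, ht]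

theorem inv_normal [Finite G] (hF : CIData ρ F) [IsDomain (CI F)] [IsIntegrallyClosed (CI F)] :
    IsIntegrallyClosed (invRing ρ F) := by
  refine c1_normal _ fun a b r h2 => ?_
  obtain ⟨fa, ha1, ha2⟩ := exists_inv_lift a
  obtain ⟨fb, hb2, hb3⟩ := exists_inv_lift b
  obtain ⟨fr, rfl⟩ := Ideal.Quotient.mk_surjective r
  rw [← ha2, ← hb3, ← map_mul, Ideal.Quotient.eq] at h2
  have h3 : rey ρ (fr * fb - fa) ∈ eqIdeal F :=
    rey_mem_span (by rintro _ ⟨l, rfl⟩ g; exact hF.inv g _) h2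
  rw [map_sub, rey_mul _ hb2, rey_of_inv ha1, ← Ideal.Quotient.eq, map_mul, ha2, hb3] at h3
  exact ⟨⟨_, mk_mem_invRing (rey_inv fr)⟩, Subtype.ext h3⟩

theorem inv_one (h : GroupData ρ c) : ∀ y ∈ invGr ρ F 1, y = 0 := by
  intro y hy
  obtain ⟨f, hf1, hf2, hf3⟩ := mem_invGr.1 hy
  apply Subtype.ext
  rw [← hf3, h.quartic f hf1 hf2, map_zero]
  rfl

end Pool.Agent.Lib.MP_954e53_ag
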