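import Pool.Agent.Lib.MP_954e53_ag.CexData

/-! The Poincare residue on the cone. -/

namespace Pool.Agent.Lib.MP_954e53_ag

open MvPolynomial Matrix

theorem e3_coords {k ι : Type} [Field k] [Finite ι] [Nonempty ι] (m : ℕ) (U : Submodule k (ι → k))
    (hU : Module.finrank k U ≤ m) :
    ∃ τ : Fin m → ι, ∀ v ∈ U, (∀ j, v (τ j) = 0) → v = 0 := by
  induction m generalizing U with
  | zero =>
    rw [Nat.le_zero, Submodule.finrank_eq_zero] at hU
    exact ⟨Fin.elim0, fun v hv _ => by simpa [hU] using hv⟩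
  | succ m ih =>
    by_cases h : ∃ v ∈ U, ∃ s, v s ≠ 0
    · obtain ⟨v, hv, s, hs⟩ := h
      obtain ⟨τ, hτ⟩ := ih (U ⊓ LinearMap.ker (LinearMap.proj s)) (Nat.lt_succ_iff.1
        ((Submodule.finrank_lt_finrank_of_lt (inf_lt_left.2 fun h => hs (h hv))).trans_le hU))
      exact ⟨Fin.cons s τ, fun w hw h => hτ w ⟨hw, h 0⟩ fun j => h j.succ⟩
    · push Not at h
      exact ⟨fun _ => Classical.arbitrary ι, fun v hv _ => funext (h v hv)⟩

theorem e3_chain {L ι : Type} [Field L] [Algebra ℂ L] [Fintype ι] (D : Derivation ℂ L L)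
    (x : ι → L) (p : MvPolynomial ι ℂ) :
    D (aeval x p) = ∑ s, aeval x (pderiv s p) * D (x s) := by
  classical
  induction p using MvPolynomial.induction_on with
  | C a => simp
  | add p q hp hq => simp [hp, hq, add_mul, Finset.sum_add_distrib]
  | mul_X p i hp =>
    simp [hp, Pi.single_apply, add_mul, Finset.sum_add_distrib, Finset.mul_sum, mul_assoc,
      apply_ite (aeval x)]

theorem e3_hom {L ι : Type} [Field L] [Algebra ℂ L] {p : MvPolynomial ι ℂ} {n : ℕ}
    (hp : p.IsHomogeneous n) (a : L) (y : ι → L) :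
    aeval (fun s => a * y s) p = a ^ n * aeval y p := by
  rw [p.as_sum, map_sum, map_sum, Finset.mul_sum]
  refine Finset.sum_congr rfl fun m hm => ?_
  rw [aeval_monomial, aeval_monomial, hp.degree_eq_sum_deg_support hm, mul_left_comm,
    ← Finset.prod_pow_eq_pow_sum, Finsupp.prod, Finsupp.prod, ← Finset.prod_mul_distrib]
  simp only [mul_pow]

variable {c e : ℕ} {F : Fin c ⊕ Fin (e + 1) → MvPolynomial (Fin c ⊕ Fin (e + 1)) ℂ}

/-- The Jacobian matrix of the equations, completed by unit vectors. -/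
noncomputable def e3_mat (F : Fin c ⊕ Fin (e + 1) → MvPolynomial (Fin c ⊕ Fin (e + 1)) ℂ)
    (τ : Fin (e + 1) → Fin c ⊕ Fin (e + 1)) :
    Matrix (Fin c ⊕ Fin (e + 1)) (Fin c ⊕ Fin (e + 1)) (MvPolynomial (Fin c ⊕ Fin (e + 1)) ℂ) :=
  fromRows (of fun l s => pderiv s (F (.inl l))) (of fun j s => if s = τ j then 1 else 0)

theorem e3_map {L : Type} [CommRing L] [Algebra ℂ L] (x : Fin c ⊕ Fin (e + 1) → L)
    (τ : Fin (e + 1) → Fin c ⊕ Fin (e + 1)) : aeval x (e3_mat F τ).det =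
      (fromRows (of fun (l : Fin c) s => aeval x (pderiv s (F (.inl l))))
        (of fun j s => if s = τ j then (1 : L) else 0)).det := by
  rw [AlgHom.map_det]
  congr 1
  ext (l | l) s <;> simp [e3_mat, apply_ite (aeval x)]

theorem e3_prime (h : Octics F) (j : Fin c ⊕ Fin (e + 1))
    (P : Ideal (MvPolynomial (Fin c ⊕ Fin (e + 1)) ℂ)) [hP : P.IsPrime]
    (h1 : ∀ l : Fin c, F (.inl l) ∈ P) (h2 : X j ∉ P) :
    ∃ τ : Fin e → Fin c ⊕ Fin (e + 1), (e3_mat F (Fin.cons j τ)).det ∉ P := by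
  by_contra h3
  push Not at h3
  refine h2 ?_
  rw [← hP.radical, ← vanishingIdeal_zeroLocus_eq_radical (K := ℂ), mem_vanishingIdeal_iff]
  intro y hy
  rw [aeval_X]
  by_contra h4
  have h5 := h.smooth y (fun h => h4 (congrFun h j)) fun l => hy _ (h1 l)
  set J := of fun (l : Fin c) j => eval y (pderiv j (F (.inl l))) with hJ
  have h6 : y ∈ LinearMap.ker J.mulVecLin := by
    ext l
    have := congrArg (eval y) (h.hom (.inl l)).sum_X_mul_pderiv
    rw [map_nsmul, show eval y (F (.inl l)) = 0 from hy _ (h1 l), smul_zero] at this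
    simpa [hJ, mulVec, dotProduct, mul_comm] using this
  have h7 := J.mulVecLin.finrank_range_add_finrank_ker
  rw [LinearMap.range_eq_top.2 h5] at h7
  obtain ⟨τ, hτ⟩ := e3_coords e (LinearMap.ker J.mulVecLin ⊓ LinearMap.ker (LinearMap.proj j))
    (Nat.lt_succ_iff.1 ((Submodule.finrank_lt_finrank_of_lt
      (inf_lt_left.2 fun h => h4 (h h6))).trans_le (by simp at h7; omega)))
  have h8 := hy _ (h3 τ)
  rw [e3_map, ← exists_mulVec_eq_zero_iff] at h8
  obtain ⟨v, hv, h8⟩ := h8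
  rw [fromRows_mulVec] at h8
  have h9 : ∀ k, v ((Fin.cons j τ : Fin (e + 1) → _) k) = 0 := fun k => by
    simpa [mulVec, dotProduct] using congrFun h8 (.inr k)
  exact hv (hτ v ⟨funext fun l => congrFun h8 (.inl l), h9 0⟩ fun k => h9 k.succ)

theorem e3_unit {L : Type} [Field L] [Algebra ℂ L] (h : Octics F)
    (x : Fin c ⊕ Fin (e + 1) → L) (hx0 : x ≠ 0) (hx : ∀ l : Fin c, aeval x (F (.inl l)) = 0)
    (O : ValuationSubring L) (hO : ∀ a : ℂ, algebraMap ℂ L a ∈ O) :
    ∃ (j : Fin c ⊕ Fin (e + 1)) (τ : Fin e → Fin c ⊕ Fin (e + 1)), x j ≠ 0 ∧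
      (∀ s, x s / x j ∈ O) ∧
      ∃ w ∈ O, w * aeval x (e3_mat F (Fin.cons j τ)).det = x j ^ (7 * c) := by
  obtain ⟨j, hj⟩ := Finite.exists_max fun s => O.valuation (x s)
  have h1 : x j ≠ 0 := fun h => hx0 (funext fun s => by simpa [h] using hj s)
  have h2 : ∀ s, x s / x j ∈ O := fun s => by
    rw [← O.valuation_le_one_iff, map_div₀, div_le_one₀ (by simpa [pos_iff_ne_zero] using h1)]
    exact hj s
  have h3 : x = fun s => x j * (x s / x j) := funext fun s => (mul_div_cancel₀ _ h1).symm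
  let φ : MvPolynomial (Fin c ⊕ Fin (e + 1)) ℂ →+* O :=
    eval₂Hom ((algebraMap ℂ L).codRestrict O hO) fun s => ⟨_, h2 s⟩
  have h4 : ∀ p, (φ p : L) = aeval (fun s => x s / x j) p := fun p =>
    DFunLike.congr_fun (show O.subtype.comp φ = (aeval fun s => x s / x j).toRingHom by
      ext <;> simp [φ]) p
  obtain ⟨τ, hτ⟩ := e3_prime h j ((IsLocalRing.maximalIdeal O).comap φ) (fun l => by
      have h5 := hx l
      rw [h3, e3_hom (h.hom _), mul_eq_zero, or_iff_right (pow_ne_zero _ h1), ← h4] at h5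
      rw [Ideal.mem_comap, show φ (F (.inl l)) = 0 from Subtype.ext h5]
      exact zero_mem _)
    (by
      rw [Ideal.mem_comap, show φ (X j) = 1 from Subtype.ext (by simp [h4, h1])]
      exact (Ideal.ne_top_iff_one _).1 Ideal.IsPrime.ne_top')
  obtain ⟨w, hw⟩ := (IsLocalRing.notMem_maximalIdeal.1 hτ).exists_left_inv
  refine ⟨j, τ, h1, h2, w, w.2, ?_⟩
  have h5 : (w : L) * _ = 1 := congrArg Subtype.val hw
  rw [h4, e3_map] at h5
  rw [e3_map, ← mul_one (x j ^ _)]
  refine Eq.trans ?_ (congrArg _ h5)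
  rw [mul_left_comm]
  congr 1
  have h6 : x j ^ (7 * c) = ∏ i : Fin c ⊕ Fin (e + 1), Sum.elim (fun _ => x j ^ 7) 1 i := by
    simp [pow_mul]
  rw [h6, ← det_mul_column]
  congr 1
  ext (l | l) s
  · exact (congrArg (fun y => aeval y _) h3).trans (e3_hom (h.hom _).pderiv _ _)
  · simp

theorem exists_residue {d : ℕ} {F : Fin c ⊕ Fin d → MvPolynomial (Fin c ⊕ Fin d) ℂ}
    {L : Type} [Field L] [Algebra ℂ L] (h : Octics F) (hfano : 8 * c < c + d)
    (x : Fin c ⊕ Fin d → L) (hx0 : x ≠ 0) (hx : ∀ l : Fin c, aeval x (F (.inl l)) = 0)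
    (D : Fin d → Derivation ℂ L L) : ∃ η : L,
    (∀ A : Matrix (Fin d) (Fin c ⊕ Fin d) L, (Matrix.of fun i j => ∑ s, A j s * D i (x s)).det =
      η * (Matrix.fromRows (Matrix.of fun (l : Fin c) s => aeval x (pderiv s (F (.inl l)))) A).det) ∧
    ∀ O' : ValuationSubring L, (∀ a : ℂ, algebraMap ℂ L a ∈ O') → (∀ s, x s ∈ O') →
      ∃ v ∈ O', ∃ a : Fin d → L, (∀ j, a j ∈ O') ∧
        η = v * (Matrix.of fun i j => D i (a j)).det := by
  obtain ⟨e, rfl⟩ : ∃ e, d = e + 1 := ⟨d - 1, by omega⟩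
  set J := Matrix.of fun (l : Fin c) s => aeval x (pderiv s (F (.inl l))) with hJ
  let M : Matrix (Fin c ⊕ Fin (e + 1)) (Fin (e + 1)) L := of fun s i => D i (x s)
  have h1 : J * M = 0 := by
    ext l i
    have := e3_chain (D i) x (F (.inl l))
    rw [hx, map_zero] at this
    exact this.symm
  obtain ⟨N, hN⟩ : ∃ N : Matrix (Fin c ⊕ Fin (e + 1)) (Fin c) L, J * N = 1 := by
    obtain ⟨j, τ, h2, -, w, -, hw⟩ := e3_unit h x hx0 hx ⊤ fun _ => trivial
    rw [e3_map] at hw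
    have h3 := mul_nonsing_inv _ (Ne.isUnit (right_ne_zero_of_mul (hw ▸ pow_ne_zero _ h2)))
    refine ⟨toCols₁ _, Matrix.ext fun a b => (congrFun (congrFun h3 (.inl a)) (.inl b)).trans ?_⟩
    simp [one_apply]
  have h2 : ∀ A : Matrix (Fin (e + 1)) (Fin c ⊕ Fin (e + 1)) L,
      (Matrix.of fun i j => ∑ s, A j s * D i (x s)).det =
        (fromCols N M).det * (fromRows J A).det := fun A => by
    rw [mul_comm, ← det_mul, fromRows_mul_fromCols, hN, h1, det_fromBlocks_zero₁₂, det_one, one_mul,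
      ← det_transpose]
    rfl
  refine ⟨_, h2, fun O hO hxO => ?_⟩
  obtain ⟨j, τ, h3, h4, w, hw, hw'⟩ := e3_unit h x hx0 hx O hO
  refine ⟨w * x j ^ (e - 7 * c), mul_mem hw (pow_mem (hxO j) _),
    Fin.cons (x j) fun k => x (τ k) / x j, fun k => k.cases (hxO j) fun k => h4 _, ?_⟩
  have h5 := h2 (of fun k s => if s = (Fin.cons j τ : Fin (e + 1) → _) k then 1 else 0)
  rw [← e3_map] at h5
  have h6 : x j ^ e = ∏ k : Fin (e + 1), (Fin.cons 1 fun _ => x j : Fin (e + 1) → L) k := by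
    simp [Fin.prod_univ_succ]
  refine mul_right_cancel₀ (pow_ne_zero (7 * c) h3) ?_
  rw [mul_right_comm, mul_assoc w, ← pow_add, Nat.sub_add_cancel (by omega), ← hw', mul_left_comm,
    ← h5, mul_assoc, h6, ← det_mul_row, ← det_transpose, ← det_transpose (of _)]
  congr 1
  refine det_eq_of_forall_row_eq_smul_add_const (Fin.cons 0 fun k => x (τ k) / x j) 0 rfl
    fun k i => ?_
  cases k using Fin.cases with
  | zero => simp
  | succ k =>
    have := (D i).leibniz (x j) (x (τ k) / x j)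
    rw [mul_div_cancel₀ _ h3] at this
    simpa using this

end Pool.Agent.Lib.MP_954e53_ag
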