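import Pool.Agent.Lib.MP_954e53_ag.CexData

/-! The cone is a normal domain. -/

set_option maxHeartbeats 400000

namespace Pool.Agent.Lib.MP_954e53_ag

open MvPolynomial TensorProduct
open scoped nonZeroDivisors

lemma b3_etale {A B : Type} [CommRing A] [IsDomain A] [IsIntegrallyClosed A] [CommRing B]
    [Algebra A B] [Algebra.Etale A B] :
    ∃ (T : Type) (_ : CommRing T) (_ : Algebra B T), Function.Injective (algebraMap B T) ∧
      IsReduced T ∧ (∀ p ∈ B⁰, IsUnit (algebraMap B T p)) ∧
      ∀ w : T, IsIntegral B w → ∃ b, algebraMap B T b = w := by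
  let K := FractionRing A
  have hinj : Function.Injective (algebraMap B (B ⊗[A] K)) :=
    Algebra.TensorProduct.includeLeft_injective (S := A) (IsFractionRing.injective A K)
  have hred' : IsReduced (K ⊗[A] B) := Algebra.FormallyUnramified.isReduced_of_field K _
  have hfin : Module.Finite K (K ⊗[A] B) := Algebra.FormallyUnramified.finite_of_free K _
  have hart' : IsArtinianRing (K ⊗[A] B) := IsArtinianRing.of_finite K _
  let e := Algebra.TensorProduct.comm A K B
  have hred : IsReduced (B ⊗[A] K) := isReduced_of_injective e.symm e.symm.injective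
  have hart : IsArtinianRing (B ⊗[A] K) := e.toRingEquiv.isArtinianRing
  refine ⟨B ⊗[A] K, inferInstance, inferInstance, hinj, hred, fun p hp => ?_, fun w hw => ?_⟩
  · exact IsArtinianRing.isUnit_of_mem_nonZeroDivisors
      (IsLocalization.map_nonZeroDivisors_le (Algebra.algebraMapSubmonoid B A⁰) (B ⊗[A] K)
        ⟨p, hp, rfl⟩)
  · obtain ⟨x, hx⟩ := (TensorProduct.toIntegralClosure_bijective_of_smooth
      (R := A) (S := B) (B := K)).2 ⟨w, hw⟩
    have hx' : Algebra.TensorProduct.map (AlgHom.id B B) (integralClosure A K).val x = w :=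
      congrArg Subtype.val hx
    subst hx'
    clear hx hw
    induction x with
    | zero => exact ⟨0, by simp⟩
    | add x y hx hy =>
      obtain ⟨a, ha⟩ := hx
      obtain ⟨b, hb⟩ := hy
      exact ⟨a + b, by rw [map_add, map_add, ha, hb]⟩
    | tmul b y =>
      obtain ⟨a, ha⟩ := IsIntegrallyClosed.isIntegral_iff.1 y.2
      refine ⟨a • b, ?_⟩
      rw [Algebra.TensorProduct.map_tmul]
      show (a • b) ⊗ₜ[A] (1 : K) = b ⊗ₜ[A] (y : K)
      rw [← ha, smul_tmul, Algebra.smul_def, mul_one]

/-- Local information at the open set `f ≠ 0`. -/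
lemma b3_away {R : Type} [CommRing R] [Algebra ℂ R] (f : R)
    [Algebra.IsStandardSmooth ℂ (Localization.Away f)] :
    (∀ a : R, IsNilpotent a → ∃ k, f ^ k * a = 0) ∧
    ∀ z : FractionRing R, IsIntegral R z →
      ∃ k, ∃ b : R, algebraMap R (FractionRing R) b = algebraMap R (FractionRing R) (f ^ k) * z := by
  let B := Localization.Away f
  obtain ⟨n, g, -, hg⟩ := RingHom.IsStandardSmooth.exists_etale_mvPolynomial
    (f := algebraMap ℂ B) (RingHom.isStandardSmooth_algebraMap.2 inferInstance)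
  let _ := g.toAlgebra
  have : Algebra.Etale (MvPolynomial (Fin n) ℂ) B := hg
  obtain ⟨T, _, _, hinj, hred, hu, hint⟩ := b3_etale (A := MvPolynomial (Fin n) ℂ) (B := B)
  have key : ∀ a : R, algebraMap R B a = 0 → ∃ k, f ^ k * a = 0 := fun a ha => by
    obtain ⟨⟨_, k, rfl⟩, hk⟩ := (IsLocalization.map_eq_zero_iff (Submonoid.powers f) B a).1 ha
    exact ⟨k, hk⟩
  refine ⟨fun a ha => key a (hinj ?_), fun z hz => ?_⟩
  · rw [map_zero]
    exact ((ha.map (algebraMap R B)).map (algebraMap B T)).eq_zero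
  · let φ : R →+* T := (algebraMap B T).comp (algebraMap R B)
    have hφ : ∀ y : R⁰, IsUnit (φ y) := fun y =>
      hu _ (IsLocalization.map_nonZeroDivisors_le (Submonoid.powers f) B ⟨y, y.2, rfl⟩)
    let ψ : FractionRing R →+* T := IsLocalization.lift hφ
    have hψ : ∀ a, ψ (algebraMap R _ a) = φ a := IsLocalization.lift_eq hφ
    have hw : IsIntegral B (ψ z) := by
      obtain ⟨q, hq, hqz⟩ := hz
      refine ⟨q.map (algebraMap R B), hq.map _, ?_⟩
      rw [Polynomial.eval₂_map]
      have h1 := congrArg ψ hqz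
      rw [Polynomial.hom_eval₂, map_zero] at h1
      rw [← h1]
      congr 1
      exact RingHom.ext fun a => (hψ a).symm
    obtain ⟨b, hb⟩ := hint _ hw
    obtain ⟨⟨a, p⟩, hz'⟩ := IsLocalization.surj R⁰ z
    obtain ⟨⟨b', ⟨_, m, rfl⟩⟩, hb'⟩ := IsLocalization.surj (Submonoid.powers f) b
    simp only at hz' hb'
    have h1 : algebraMap R B (f ^ m * a - b' * p) = 0 := by
      apply hinj
      have h2 := congrArg ψ hz'
      rw [map_mul, hψ, hψ, ← hb] at h2
      have h3 := congrArg (algebraMap B T) hb'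
      rw [map_mul] at h3
      rw [map_zero]
      show φ (f ^ m * a - b' * p) = 0
      rw [map_sub, map_mul, map_mul, ← h2]
      have h4 : φ b' = algebraMap B T b * φ (f ^ m) := h3.symm
      rw [h4]
      ring
    obtain ⟨k, hk⟩ := key _ h1
    refine ⟨k + m, f ^ k * b', ?_⟩
    have hp : IsUnit (algebraMap R (FractionRing R) p) := IsLocalization.map_units _ p
    apply hp.mul_right_cancel
    rw [mul_assoc, hz', ← map_mul, ← map_mul]
    congr 1
    rw [pow_add]
    linear_combination (-1 : R) * hk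

/-- A reduced normal Noetherian ring without nontrivial idempotents is a domain. -/
lemma b3_domain {R : Type*} [CommRing R] [Nontrivial R] [IsNoetherianRing R] [IsReduced R]
    [IsIntegrallyClosed R] (hid : ∀ e : R, e * e = e → e = 0 ∨ e = 1) : IsDomain R := by
  classical
  have hmin : ∀ q ∈ minimalPrimes R, ∀ a ∈ q, ∃ s ∉ q, s * a = 0 := fun q hq a ha => by
    have := hq.isPrime
    have h1 : algebraMap R (Localization.AtPrime q) a ∈
        ((⊥ : Ideal R).map (algebraMap R (Localization.AtPrime q))).radical := by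
      rw [IsLocalization.AtPrime.radical_map_of_mem_minimalPrimes (Localization.AtPrime q) q ⊥ hq]
      exact Ideal.mem_map_of_mem _ ha
    obtain ⟨n, hn⟩ := h1
    rw [Ideal.map_bot, Ideal.mem_bot, ← map_pow,
      IsLocalization.map_eq_zero_iff q.primeCompl] at hn
    obtain ⟨s, hs⟩ := hn
    refine ⟨s, s.2, IsNilpotent.eq_zero ⟨n + 1, ?_⟩⟩
    rw [mul_pow, pow_succ, pow_succ]
    linear_combination (s : R) ^ n * a * hs
  have : NoZeroDivisors R := ⟨fun {a b} hab => by
    by_contra hne
    push Not at hne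
    let J : Ideal R := Ideal.span {a} ⊔ (⊥ : Ideal R).colon {a}
    have hJ : ¬ ((J : Set R) ⊆ ⋃ q ∈ minimalPrimes R, ((id q : Ideal R) : Set R)) := by
      rw [Ideal.subset_union_prime_finite (minimalPrimes.finite_of_isNoetherianRing R) (f := id)
        ⊥ ⊥ fun q hq _ _ => hq.isPrime]
      rintro ⟨q, hq, hle⟩
      obtain ⟨s, hs, hsa⟩ := hmin q hq a
        (hle (Ideal.mem_sup_left (Ideal.mem_span_singleton_self a)))
      exact hs (hle (Ideal.mem_sup_right (by
        rw [Submodule.mem_colon_singleton, smul_eq_mul, hsa]; exact Ideal.zero_mem _)))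
    obtain ⟨p, hpJ, hp⟩ := Set.not_subset.1 hJ
    have hp0 : p ∈ R⁰ := by
      rw [mem_nonZeroDivisors_iff_left]
      intro y hy
      by_contra hy0
      apply hp
      have h2 : p ∈ ⋃ q ∈ (⊥ : Ideal R).minimalPrimes, (q : Set R) := by
        rw [Ideal.iUnion_minimalPrimes]
        refine ⟨y, fun ⟨n, hn⟩ => hy0 (IsNilpotent.eq_zero ⟨n, hn⟩), ?_⟩
        rw [hy]
        exact Ideal.zero_mem _
      exact h2
    obtain ⟨u, hu, j, hj, rfl⟩ := Submodule.mem_sup.1 hpJ
    obtain ⟨r, rfl⟩ := Ideal.mem_span_singleton'.1 hu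
    rw [Submodule.mem_colon_singleton, smul_eq_mul, Ideal.mem_bot] at hj
    let z : FractionRing R := IsLocalization.mk' _ (r * a) ⟨r * a + j, hp0⟩
    have hz : z * algebraMap R _ (r * a + j) = algebraMap R _ (r * a) :=
      IsLocalization.mk'_spec _ (r * a) (⟨r * a + j, hp0⟩ : R⁰)
    have hpu : IsUnit (algebraMap R (FractionRing R) (r * a + j)) :=
      IsLocalization.map_units _ (⟨r * a + j, hp0⟩ : R⁰)
    have hzz : z * z = z := by
      apply hpu.mul_right_cancel
      apply hpu.mul_right_cancel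
      have h3 : algebraMap R (FractionRing R) (r * a) * algebraMap R _ (r * a) =
          algebraMap R _ (r * a) * algebraMap R _ (r * a + j) := by
        rw [← map_mul, ← map_mul]
        congr 1
        linear_combination (-r) * hj
      rw [hz, ← h3, ← hz]
      ring
    have hint : IsIntegral R z := by
      refine ⟨Polynomial.X ^ 2 - Polynomial.X, ?_, ?_⟩
      · exact Polynomial.monic_X_pow_sub (by simp)
      · simp [pow_two, hzz]
    obtain ⟨e, he⟩ := IsIntegrallyClosed.isIntegral_iff.1 hint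
    have hinj := IsFractionRing.injective R (FractionRing R)
    have hee : e * e = e := hinj (by rw [map_mul, he, hzz])
    have hep : e * (r * a + j) = r * a := hinj (by rw [map_mul, he, hz])
    rcases hid e hee with rfl | rfl
    · apply hne.1
      apply (mem_nonZeroDivisors_iff_left.1 hp0)
      linear_combination hj - a * hep
    · apply hne.2
      apply (mem_nonZeroDivisors_iff_left.1 hp0)
      linear_combination b * hep + r * hab⟩
  exact NoZeroDivisors.to_isDomain R

lemma b3_minor {c : ℕ} {ι : Type} [Fintype ι] (A : Matrix (Fin c) ι ℂ)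
    (hA : Function.Surjective A.mulVec) :
    ∃ b : Fin c → ι, Function.Injective b ∧ (A.submatrix id b).det ≠ 0 := by
  obtain ⟨κ, a, ha, hsp, hli⟩ := exists_linearIndependent' ℂ A.col
  have htop : Submodule.span ℂ (Set.range A.col) = ⊤ := by
    rw [← Matrix.range_mulVecLin, LinearMap.range_eq_top]
    exact hA
  rw [htop] at hsp
  have : Finite κ := Finite.of_injective a ha
  have := Fintype.ofFinite κ
  have hcard : Fintype.card κ = c := by
    have h1 := Module.finrank_eq_card_basis (Module.Basis.mk hli hsp.ge)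
    simpa using h1.symm
  let e := (Fintype.equivFinOfCardEq hcard).symm
  refine ⟨a ∘ e, ha.comp e.injective, ?_⟩
  have h2 : LinearIndependent ℂ (A.submatrix id (a ∘ e)).col := hli.comp e e.injective
  exact ((Matrix.isUnit_iff_isUnit_det _).1 (Matrix.linearIndependent_cols_iff_isUnit.1 h2)).ne_zero

lemma b3_smooth {c : ℕ} {σ : Type} [Finite σ] (v : Fin c → MvPolynomial σ ℂ) (b : Fin c → σ)
    (hb : Function.Injective b) :
    Algebra.IsStandardSmooth ℂ (Localization.Away (Ideal.Quotient.mk (Ideal.span (Set.range v))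
      (Matrix.of fun i j => pderiv (b i) (v j)).det)) := by
  set f := Ideal.Quotient.mk (Ideal.span (Set.range v))
      (Matrix.of fun i j => pderiv (b i) (v j)).det with hf
  let P := Algebra.PreSubmersivePresentation.naive (v := v) b hb
  let Q := Algebra.PreSubmersivePresentation.localizationAway (Localization.Away f) f
  have hP : P.jacobian = f := by
    rw [Algebra.PreSubmersivePresentation.jacobian_eq_jacobiMatrix_det]
    have h1 : P.jacobiMatrix = Matrix.of fun i j => pderiv (b i) (v j) := by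
      ext i j : 1
      exact Algebra.PreSubmersivePresentation.jacobiMatrix_naive b hb _ _ i j
    rw [h1, Algebra.Generators.algebraMap_apply]
    have h2 : aeval P.val = Ideal.Quotient.mkₐ ℂ (Ideal.span (Set.range v)) :=
      MvPolynomial.algHom_ext fun i => aeval_X _ _
    rw [h2]
    rfl
  have hu : IsUnit (algebraMap _ (Localization.Away f) f) :=
    IsLocalization.map_units _ (⟨f, 1, by simp⟩ : Submonoid.powers f)
  let W : Algebra.SubmersivePresentation ℂ (Localization.Away f) (Unit ⊕ σ) (Unit ⊕ Fin c) :=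
    { __ := Q.comp P
      jacobian_isUnit := by
        rw [Algebra.PreSubmersivePresentation.comp_jacobian_eq_jacobian_smul_jacobian,
          Algebra.smul_def, hP, Algebra.PreSubmersivePresentation.localizationAway_jacobian]
        exact hu.mul hu }
  exact W.isStandardSmooth

lemma b3_eval_smul {σ : Type} {f : MvPolynomial σ ℂ} {n : ℕ} (hf : f.IsHomogeneous n) (t : ℂ)
    (y : σ → ℂ) : eval (fun i => y i * t) f = t ^ n * eval y f := by
  rw [eval_eq, eval_eq, Finset.mul_sum]
  refine Finset.sum_congr rfl fun s hs => ?_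
  rw [hf.degree_eq_sum_deg_support hs]
  simp only [mul_pow, Finset.prod_mul_distrib, Finset.prod_pow_eq_pow_sum]
  ring

variable {c d : ℕ} {F : Fin c ⊕ Fin d → MvPolynomial (Fin c ⊕ Fin d) ℂ}

/-- The minors of the Jacobian matrix. -/
noncomputable def b3_del (F : Fin c ⊕ Fin d → MvPolynomial (Fin c ⊕ Fin d) ℂ)
    (b : Fin c → Fin c ⊕ Fin d) : CI F :=
  Ideal.Quotient.mk (eqIdeal F) (Matrix.of fun i j => pderiv (b i) (F (.inl j))).det

lemma b3_null (h : Octics F) (J : Ideal (CI F))
    (hJ : ∀ b, Function.Injective b → ∃ k, b3_del F b ^ k ∈ J) (l : Fin c ⊕ Fin d) :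
    ∃ n, Ideal.Quotient.mk (eqIdeal F) (F l) ^ n ∈ J := by
  have h1 : F l ∈ (J.comap (Ideal.Quotient.mk (eqIdeal F))).radical := by
    rw [← vanishingIdeal_zeroLocus_eq_radical (K := ℂ)]
    intro y hy
    have hy0 : y = 0 := by
      by_contra hne
      have hc : ∀ j : Fin c, eval y (F (.inl j)) = 0 := fun j => by
        refine hy _ ?_
        have hm : F (.inl j) ∈ eqIdeal F := Ideal.subset_span ⟨j, rfl⟩
        rw [Ideal.mem_comap, Ideal.Quotient.eq_zero_iff_mem.2 hm]
        exact J.zero_mem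
      obtain ⟨b, hb, hdet⟩ := b3_minor _ (h.smooth y hne hc)
      obtain ⟨k, hk⟩ := hJ b hb
      have h2 := hy ((Matrix.of fun i j => pderiv (b i) (F (.inl j))).det ^ k)
        (by rw [Ideal.mem_comap, map_pow]; exact hk)
      rw [map_pow] at h2
      apply hdet
      rw [← Matrix.det_transpose, ← eq_zero_of_pow_eq_zero h2]
      exact ((eval y).map_det _).symm
    subst hy0
    have h3 := b3_eval_smul (h.hom l) 0 0
    simp only [mul_zero, ne_eq, OfNat.ofNat_ne_zero, not_false_eq_true, zero_pow, zero_mul] at h3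
    exact h3
  obtain ⟨n, hn⟩ := h1
  exact ⟨n, by rwa [Ideal.mem_comap, map_pow] at hn⟩

lemma b3_image (F : Fin c ⊕ Fin d → MvPolynomial (Fin c ⊕ Fin d) ℂ) :
    Ideal.span (F '' Set.range Sum.inl) = eqIdeal F := by
  rw [← Set.range_comp]
  rfl

lemma b3_reg0 (hp : Params F) (k : Fin d) :
    Ideal.Quotient.mk (eqIdeal F) (F (.inr k)) ∈ (CI F)⁰ := by
  rw [mem_nonZeroDivisors_iff_left]
  intro x hx
  obtain ⟨f, rfl⟩ := Ideal.Quotient.mk_surjective x
  rw [← map_mul, Ideal.Quotient.eq_zero_iff_mem, ← b3_image] at hx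
  rw [Ideal.Quotient.eq_zero_iff_mem, ← b3_image]
  exact hp.reg _ _ (by simp) f hx

lemma b3_reg1 (hp : Params F) {k k' : Fin d} (hk : k' ≠ k) (x : CI F)
    (hx : Ideal.Quotient.mk (eqIdeal F) (F (.inr k)) ∣
      Ideal.Quotient.mk (eqIdeal F) (F (.inr k')) * x) :
    Ideal.Quotient.mk (eqIdeal F) (F (.inr k)) ∣ x := by
  have key : ∀ f, Ideal.Quotient.mk (eqIdeal F) (F (.inr k)) ∣ Ideal.Quotient.mk (eqIdeal F) f ↔
      f ∈ Ideal.span (F '' insert (.inr k) (Set.range Sum.inl)) := fun f => by
    rw [Set.image_insert_eq, Ideal.span_insert, b3_image, Submodule.mem_sup]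
    constructor
    · rintro ⟨u, hu⟩
      obtain ⟨u, rfl⟩ := Ideal.Quotient.mk_surjective u
      rw [← map_mul, Ideal.Quotient.eq] at hu
      exact ⟨F (.inr k) * u, Ideal.mul_mem_right _ _ (Ideal.mem_span_singleton_self _), _, hu,
        by ring⟩
    · rintro ⟨u, hu, w, hw, rfl⟩
      rw [map_add, Ideal.Quotient.eq_zero_iff_mem.2 hw, add_zero]
      exact map_dvd _ (Ideal.mem_span_singleton.1 hu)
  obtain ⟨f, rfl⟩ := Ideal.Quotient.mk_surjective x
  rw [← map_mul, key] at hx
  rw [key]
  exact hp.reg _ _ (by simp [hk]) f hx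

lemma b3_depth {R : Type*} [CommRing R] {s t : R} (hs : s ∈ R⁰) (h : ∀ x, s ∣ t * x → s ∣ x)
    (m n : ℕ) (x : R) (hx : s ^ m ∣ t ^ n * x) : s ^ m ∣ x := by
  have h1 : ∀ (n : ℕ) x, s ∣ t ^ n * x → s ∣ x := fun n => by
    induction n with
    | zero => simp
    | succ n ih => exact fun x hx => ih x (h _ (by rwa [← mul_assoc, ← pow_succ']))
  induction m generalizing x with
  | zero => simp
  | succ m ih =>
    obtain ⟨y, rfl⟩ := h1 n x ((dvd_pow_self s m.succ_ne_zero).trans hx)
    obtain ⟨w, hw⟩ := hx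
    rw [pow_succ']
    refine mul_dvd_mul_left s (ih y ⟨w, ?_⟩)
    apply sub_eq_zero.1
    apply mem_nonZeroDivisors_iff_left.1 hs
    rw [pow_succ'] at hw
    linear_combination hw

lemma b3_local (F : Fin c ⊕ Fin d → MvPolynomial (Fin c ⊕ Fin d) ℂ) {b : Fin c → Fin c ⊕ Fin d}
    (hb : Function.Injective b) : Algebra.IsStandardSmooth ℂ (Localization.Away (b3_del F b)) :=
  b3_smooth (fun l => F (.inl l)) b hb

lemma b3_reduced (h : Octics F) (hp : Params F) (hd : 2 ≤ d) : IsReduced (CI F) := by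
  refine ⟨fun a ha => ?_⟩
  obtain ⟨n, hn⟩ := b3_null h ((⊥ : Ideal (CI F)).colon {a}) (fun b hb => by
    have := b3_local F hb
    obtain ⟨k, hk⟩ := (b3_away (b3_del F b)).1 a ha
    exact ⟨k, Submodule.mem_colon_singleton.2 hk⟩) (.inr ⟨0, by omega⟩)
  exact mem_nonZeroDivisors_iff_left.1 (pow_mem (b3_reg0 hp _) n) a
    (Submodule.mem_colon_singleton.1 hn)

theorem Octics.isIntegrallyClosed (h : Octics F) (hp : Params F) (hd : 2 ≤ d) :
    IsIntegrallyClosed (CI F) := by
  rw [isIntegrallyClosed_iff (FractionRing (CI F))]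
  intro z hz
  let J : Ideal (CI F) := (1 : Submodule (CI F) (FractionRing (CI F))).colon {z}
  have hJ : ∀ r : CI F, r ∈ J ↔
      ∃ b : CI F, algebraMap _ (FractionRing (CI F)) b = algebraMap _ _ r * z := fun r => by
    rw [Submodule.mem_colon_singleton, Submodule.mem_one]
    exact exists_congr fun b => by rw [← Algebra.smul_def (R := CI F) r z]
  have hnull := b3_null h J fun b hb => by
    have := b3_local F hb
    obtain ⟨k, hk⟩ := (b3_away (b3_del F b)).2 z hz
    exact ⟨k, (hJ _).2 hk⟩
  obtain ⟨m, hm⟩ := hnull (.inr ⟨0, by omega⟩)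
  obtain ⟨n, hn⟩ := hnull (.inr ⟨1, by omega⟩)
  obtain ⟨x, hx⟩ := (hJ _).1 hm
  obtain ⟨y, hy⟩ := (hJ _).1 hn
  have hs := b3_reg0 hp ⟨0, by omega⟩
  obtain ⟨w, hw⟩ := b3_depth hs (b3_reg1 hp (k := ⟨0, by omega⟩) (k' := ⟨1, by omega⟩) (by simp))
    m n x ⟨y, IsFractionRing.injective _ (FractionRing (CI F)) (by
      rw [map_mul, map_mul, hx, hy]
      ring)⟩
  refine ⟨w, ?_⟩
  have hu := IsLocalization.map_units (FractionRing (CI F)) (⟨_, pow_mem hs m⟩ : (CI F)⁰)
  apply hu.mul_left_cancel
  rw [← map_mul, ← hw, hx]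

lemma b3_idem (h : Octics F) [IsReduced (CI F)] (e : CI F) (he : e * e = e) : e = 0 ∨ e = 1 := by
  obtain ⟨f, rfl⟩ := Ideal.Quotient.mk_surjective e
  rw [← map_mul, Ideal.Quotient.eq] at he
  have hrad : (eqIdeal F).IsRadical := (Ideal.isRadical_iff_quotient_reduced _).2 inferInstance
  have key : ∀ y ∈ zeroLocus ℂ (eqIdeal F), eval y f = eval 0 f := fun y hy => by
    let φ : MvPolynomial (Fin c ⊕ Fin d) ℂ →ₐ[ℂ] Polynomial ℂ :=
      aeval fun i => Polynomial.C (y i) * Polynomial.X
    have hφ : ∀ t g, (φ g).eval t = eval (fun i => y i * t) g := fun t g => by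
      induction g using MvPolynomial.induction_on with
      | C a => simp [φ]
      | add p q hp hq => simp only [map_add, Polynomial.eval_add, hp, hq]
      | mul_X p i hp => simp only [map_mul, Polynomial.eval_mul, hp]; simp [φ]
    have hker : eqIdeal F ≤ RingHom.ker φ := by
      refine Ideal.span_le.2 ?_
      rintro _ ⟨l, rfl⟩
      refine Polynomial.funext fun t => ?_
      have h0 : eval y (F (.inl l)) = 0 := hy _ (Ideal.subset_span ⟨l, rfl⟩)
      rw [hφ, b3_eval_smul (h.hom _), h0, mul_zero, Polynomial.eval_zero]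
    have h1 : φ f * (φ f - 1) = 0 := by
      have h2 : φ (f * f - f) = 0 := hker he
      rw [map_sub, map_mul] at h2
      linear_combination h2
    have h3 : (φ f).eval 1 = (φ f).eval 0 := by
      rcases mul_eq_zero.1 h1 with h4 | h4
      · simp [h4]
      · simp [sub_eq_zero.1 h4]
    rw [hφ, hφ] at h3
    simpa using h3
  have h0 : (0 : Fin c ⊕ Fin d → ℂ) ∈ zeroLocus ℂ (eqIdeal F) := by
    rw [eqIdeal, zeroLocus_span]
    rintro _ ⟨l, rfl⟩
    have h3 := b3_eval_smul (h.hom (.inl l)) 0 0
    simp only [mul_zero, ne_eq, OfNat.ofNat_ne_zero, not_false_eq_true, zero_pow, zero_mul] at h3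
    exact h3
  have h5 : f - C (eval 0 f) ∈ eqIdeal F := by
    apply hrad
    rw [← vanishingIdeal_zeroLocus_eq_radical (K := ℂ)]
    intro y hy
    have h6 := key y hy
    show eval y (f - C (eval 0 f)) = 0
    rw [map_sub, eval_C, h6, sub_self]
  have h7 : eval 0 f * (eval 0 f - 1) = 0 := by
    have h8 : eval 0 (f * f - f) = 0 := h0 _ he
    rw [map_sub, map_mul] at h8
    linear_combination h8
  rcases mul_eq_zero.1 h7 with h9 | h9
  · left
    rw [h9, map_zero, sub_zero] at h5
    exact Ideal.Quotient.eq_zero_iff_mem.2 h5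
  · right
    rw [sub_eq_zero.1 h9, map_one] at h5
    exact (Ideal.Quotient.eq.2 h5).trans (map_one _)

theorem Octics.isDomain (h : Octics F) (hp : Params F) (hd : 2 ≤ d) : IsDomain (CI F) := by
  have := b3_reduced h hp hd
  have := h.isIntegrallyClosed hp hd
  have : Nontrivial (CI F) := by
    refine Ideal.Quotient.nontrivial_iff.2 fun htop => hp.jac_notMem ?_
    have h1 : eqIdeal F ≤ Ideal.span (Set.range F) :=
      Ideal.span_mono (by rintro _ ⟨l, rfl⟩; exact ⟨_, rfl⟩)
    exact h1 (htop ▸ Submodule.mem_top)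
  exact b3_domain (b3_idem h)

end Pool.Agent.Lib.MP_954e53_ag
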