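import Pool.Agent.Lib.MP_954e53_ag.CexParamsA
import Pool.Agent.Lib.MP_954e53_ag.CexData

/-! Octics without common zero form a regular sequence whose socle is the Jacobian. -/

namespace Pool.Agent.Lib.MP_954e53_ag

open MvPolynomial Matrix

attribute [local instance] MvPolynomial.gradedAlgebra

section wiebe

variable {ι : Type} [Fintype ι] [DecidableEq ι]

lemma b2_det_smul {R : Type*} [CommRing R] (M : Matrix ι ι R) (x : ι → R) (j : ι) :
    M.det * x j = ∑ l, M.adjugate j l * (M *ᵥ x) l := by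
  have h := congrFun (Matrix.mulVec_mulVec x M.adjugate M) j
  rw [Matrix.adjugate_mul, Matrix.smul_mulVec, Matrix.one_mulVec] at h
  exact h.symm

omit [Fintype ι] [DecidableEq ι] in
lemma b2_X_family (s : Set ι) (l : ι) (hl : l ∉ s) (f : MvPolynomial ι ℂ)
    (hf : X l * f ∈ Ideal.span ((X : ι → MvPolynomial ι ℂ) '' s)) :
    f ∈ Ideal.span ((X : ι → MvPolynomial ι ℂ) '' s) := by
  rw [mem_ideal_span_X_image] at hf ⊢
  intro m hm
  obtain ⟨i, hi, h⟩ := hf (Finsupp.single l 1 + m) (by
    rw [support_X_mul]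
    exact Finset.mem_map_of_mem _ hm)
  refine ⟨i, hi, ?_⟩
  have hne : l ≠ i := fun h => hl (h ▸ hi)
  rwa [Finsupp.add_apply, Finsupp.single_eq_of_ne hne.symm, zero_add] at h

omit [Fintype ι] in
lemma b2_syz {Z : Ideal (MvPolynomial ι ℂ)} {cof : ι → MvPolynomial ι ℂ}
    (h : ∀ a b, X b * cof a - X a * cof b ∈ Z) (t : Finset ι) (s : ι → MvPolynomial ι ℂ)
    (hs : ∑ j ∈ t, s j * X j = 0) : ∑ j ∈ t, s j * cof j ∈ Z := by
  induction t using Finset.induction_on generalizing s with
  | empty => simp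
  | insert a t ha ih =>
    rw [Finset.sum_insert ha] at hs ⊢
    have h1 : s a ∈ Ideal.span ((X : ι → MvPolynomial ι ℂ) '' t) := by
      refine b2_X_family _ a (by simpa using ha) _ ?_
      rw [mul_comm, eq_neg_of_add_eq_zero_left hs]
      exact neg_mem (Ideal.sum_mem _ fun j hj =>
        Ideal.mul_mem_left _ _ (Ideal.subset_span ⟨j, hj, rfl⟩))
    obtain ⟨u, hu⟩ := (Submodule.mem_span_image_finset_iff_exists_fun' _).1 h1
    simp only [smul_eq_mul] at hu
    have h2 := ih (fun b => s b + u b * X a) (by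
      simp only [add_mul, Finset.sum_add_distrib]
      have : ∑ b ∈ t, u b * X a * X b = s a * X a := by
        rw [← hu, Finset.sum_mul]
        exact Finset.sum_congr rfl fun b _ => by ring
      rw [this, add_comm]
      exact hs)
    have h3 : ∑ b ∈ t, u b * (X b * cof a - X a * cof b) ∈ Z :=
      Ideal.sum_mem _ fun b _ => Ideal.mul_mem_left _ _ (h a b)
    convert add_mem h3 h2 using 1
    rw [← hu, Finset.sum_mul, ← Finset.sum_add_distrib, ← Finset.sum_add_distrib]
    exact Finset.sum_congr rfl fun b _ => by ring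

lemma b2_row {Z : Ideal (MvPolynomial ι ℂ)} (D : Matrix ι ι (MvPolynomial ι ℂ))
    (hD : ∀ l, (D *ᵥ X) l ∈ Z) (i : ι) (r : ι → MvPolynomial ι ℂ)
    (hr : ∑ j, r j * X j = ∑ j, D i j * X j) : (D.updateRow i r).det - D.det ∈ Z := by
  set cof : ι → MvPolynomial ι ℂ := fun a => (D.updateRow i (Pi.single a 1)).det with hcof
  have h1 : ∀ r' : ι → MvPolynomial ι ℂ, (D.updateRow i r').det = ∑ j, r' j * cof j := by
    intro r'
    rw [Matrix.det_eq_sum_mul_adjugate_row _ i]
    refine Finset.sum_congr rfl fun j _ => ?_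
    rw [Matrix.updateRow_self, Matrix.adjugate_apply, Matrix.updateRow_idem]
  have h2 : ∀ a b, X b * cof a - X a * cof b ∈ Z := by
    intro a b
    have h3 := b2_det_smul (D.updateRow i (Pi.single a 1)) X b
    rw [← Finset.add_sum_erase _ _ (Finset.mem_univ i), Matrix.adjugate_apply,
      Matrix.updateRow_idem] at h3
    have h4 : ((D.updateRow i (Pi.single a 1)) *ᵥ X) i = X a := by
      simp [Matrix.mulVec, Matrix.updateRow_self]
    rw [h4] at h3
    have h5 : X b * cof a - X a * cof b = ∑ l ∈ Finset.univ.erase i,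
        (D.updateRow i (Pi.single a 1)).adjugate b l *
          ((D.updateRow i (Pi.single a 1)) *ᵥ X) l := by
      simp only [hcof]
      linear_combination h3
    rw [h5]
    refine Ideal.sum_mem _ fun l hl => Ideal.mul_mem_left _ _ ?_
    have h6 : ((D.updateRow i (Pi.single a 1)) *ᵥ X) l = (D *ᵥ X) l := by
      simp only [Matrix.mulVec, Matrix.updateRow_ne (Finset.ne_of_mem_erase hl)]
    rw [h6]
    exact hD l
  have h7 := b2_syz h2 Finset.univ (fun j => r j - D i j) (by
    simp only [sub_mul, Finset.sum_sub_distrib, hr, sub_self])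
  have h8 := h1 (D i)
  rw [Matrix.updateRow_eq_self] at h8
  rw [h1, h8, ← Finset.sum_sub_distrib]
  simpa only [sub_mul] using h7

lemma b2_wiebe {Z : Ideal (MvPolynomial ι ℂ)} (D D' : Matrix ι ι (MvPolynomial ι ℂ))
    (hD : ∀ l, (D *ᵥ X) l ∈ Z) (hD' : D' *ᵥ X = D *ᵥ X) : D'.det - D.det ∈ Z := by
  have key : ∀ t : Finset ι,
      (Matrix.of fun i j => if i ∈ t then D' i j else D i j).det - D.det ∈ Z := by
    intro t
    induction t using Finset.induction_on with
    | empty =>
      have : (Matrix.of fun i j => if i ∈ (∅ : Finset ι) then D' i j else D i j) = D := by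
        ext1 i j
        simp
      rw [this, sub_self]
      exact Z.zero_mem
    | insert a t ha ih =>
      set E := Matrix.of fun i j => if i ∈ t then D' i j else D i j with hE
      have h1 : (Matrix.of fun i j => if i ∈ insert a t then D' i j else D i j) =
          E.updateRow a (D' a) := by
        ext1 i j
        by_cases hi : i = a
        · subst hi
          simp
        · simp [hE, hi]
      have h2 : ∀ l, (E *ᵥ X) l = (D *ᵥ X) l := by
        intro l
        by_cases hl : l ∈ t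
        · rw [← hD']
          simp [hE, Matrix.mulVec, dotProduct, hl]
        · simp [hE, Matrix.mulVec, dotProduct, hl]
      have h3 := b2_row (Z := Z) E (fun l => h2 l ▸ hD l) a (D' a) (by
        have h4 := congrFun hD' a
        rw [← h2 a] at h4
        exact h4)
      rw [h1]
      simpa using add_mem h3 ih
  have h := key Finset.univ
  have h5 : (Matrix.of fun i j => if i ∈ (Finset.univ : Finset ι) then D' i j else D i j) = D' := by
    ext1 i j
    simp
  rwa [h5] at h

variable {F : ι → MvPolynomial ι ℂ}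

omit [DecidableEq ι] in
lemma b2_euler (h : ∀ l, (F l).IsHomogeneous 8) :
    (Matrix.of fun l j => pderiv j (F l)) *ᵥ X = fun l => 8 * F l := by
  funext l
  have := (h l).sum_X_mul_pderiv
  simp only [Matrix.mulVec, dotProduct, Matrix.of_apply]
  rw [show (8 : MvPolynomial ι ℂ) * F l = 8 • F l by simp, ← this]
  exact Finset.sum_congr rfl fun j _ => mul_comm _ _

lemma b2_X_mul_jac (h : ∀ l, (F l).IsHomogeneous 8) (j : ι) :
    X j * (Matrix.of fun l j => pderiv j (F l)).det ∈ Ideal.span (Set.range F) := by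
  rw [mul_comm, b2_det_smul, b2_euler h]
  exact Ideal.sum_mem _ fun l _ => Ideal.mul_mem_left _ _
    (Ideal.mul_mem_left _ _ (Ideal.subset_span ⟨l, rfl⟩))

lemma b2_jac_notMem (h : ∀ l, (F l).IsHomogeneous 8) {n : ℕ}
    (hn : ∀ i, X i ^ (n + 1) ∈ Ideal.span (Set.range F)) :
    (Matrix.of fun l j => pderiv j (F l)).det ∉ Ideal.span (Set.range F) := by
  intro hj
  choose B hB using fun i => Ideal.mem_span_range_iff_exists_fun.1 (hn i)
  set M := Matrix.of fun l j => pderiv j (F l) with hM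
  set Z : Ideal (MvPolynomial ι ℂ) :=
    Ideal.span ((fun s => monomial s (1 : ℂ)) '' Set.range fun i : ι => Finsupp.single i (n + 1))
  have hZ : ∀ i, (X i : MvPolynomial ι ℂ) ^ (n + 1) ∈ Z := fun i =>
    Ideal.subset_span ⟨_, ⟨i, rfl⟩, (X_pow_eq_monomial).symm⟩
  have hBF : Matrix.of B *ᵥ F = fun i => X i ^ (n + 1) := funext fun i => hB i
  have h1 : (Matrix.of B * M) *ᵥ X = fun i => 8 * X i ^ (n + 1) := by
    rw [← Matrix.mulVec_mulVec, b2_euler h]
    funext i
    rw [← hB i, Finset.mul_sum]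
    exact Finset.sum_congr rfl fun l _ => by simp only [Matrix.of_apply]; ring
  have h2 : (Matrix.diagonal fun i => 8 * (X i : MvPolynomial ι ℂ) ^ n) *ᵥ X =
      (Matrix.of B * M) *ᵥ X := by
    rw [h1]
    funext i
    rw [Matrix.mulVec_diagonal]
    ring
  have h3 := b2_wiebe (Z := Z) _ _ (fun l => by
    rw [h1]
    exact Ideal.mul_mem_left _ _ (hZ l)) h2
  have h4 : (Matrix.of B * M).det ∈ Z := by
    obtain ⟨a, ha⟩ := Ideal.mem_span_range_iff_exists_fun.1 hj
    rw [Matrix.det_mul, ← ha, Finset.mul_sum]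
    refine Ideal.sum_mem _ fun l _ => ?_
    rw [mul_left_comm, b2_det_smul, hBF]
    exact Ideal.mul_mem_left _ _ (Ideal.sum_mem _ fun i _ => Ideal.mul_mem_left _ _ (hZ i))
  have h5 := add_mem h3 h4
  rw [sub_add_cancel, Matrix.det_diagonal] at h5
  have h6 : ∏ i, 8 * (X i : MvPolynomial ι ℂ) ^ n =
      monomial (∑ i : ι, Finsupp.single i n) (∏ _i : ι, (8 : ℂ)) := by
    rw [monomial_sum_index, map_prod, ← Finset.prod_mul_distrib]
    exact Finset.prod_congr rfl fun i _ => by rw [X_pow_eq_monomial]; rfl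
  rw [h6, mem_ideal_span_monomial_image] at h5
  obtain ⟨_, ⟨i, rfl⟩, hi⟩ := h5 (∑ i : ι, Finsupp.single i n) (by
    rw [mem_support_iff, coeff_monomial, if_pos rfl]
    exact Finset.prod_ne_zero_iff.2 fun _ _ => by norm_num)
  have h7 := hi i
  simp [Finsupp.finsetSum_apply, Finsupp.single_apply] at h7

lemma b2_jac_hom (h : ∀ l, (F l).IsHomogeneous 8) :
    (Matrix.of fun l j => pderiv j (F l)).det.IsHomogeneous (7 * Fintype.card ι) := by
  rw [Matrix.det_apply']
  refine IsHomogeneous.sum _ _ _ fun σ _ => ?_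
  have h1 := IsHomogeneous.prod Finset.univ (fun i => pderiv i (F (σ i))) (fun _ => 7)
    fun i _ => (h (σ i)).pderiv
  have h2 := (isHomogeneous_C ι ((Equiv.Perm.sign σ : ℤ) : ℂ)).mul h1
  simpa [mul_comm] using h2

omit [DecidableEq ι] in
lemma b2_null (h : ∀ y : ι → ℂ, (∀ l, eval y (F l) = 0) → y = 0) :
    ∃ n : ℕ, ∀ i, X i ^ (n + 1) ∈ Ideal.span (Set.range F) := by
  have h1 : ∀ i, ∃ n : ℕ, X i ^ n ∈ Ideal.span (Set.range F) := by
    intro i
    have : (X i : MvPolynomial ι ℂ) ∈ (Ideal.span (Set.range F)).radical := by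
      rw [← vanishingIdeal_zeroLocus_eq_radical (K := ℂ), mem_vanishingIdeal_iff]
      intro y hy
      have h2 := h y fun l => hy (F l) (Ideal.subset_span ⟨l, rfl⟩)
      simp [h2]
    exact this
  choose n hn using h1
  refine ⟨Finset.univ.sup n, fun i => ?_⟩
  exact Ideal.pow_mem_of_pow_mem _ (hn i)
    ((Finset.le_sup (f := n) (Finset.mem_univ i)).trans (Nat.le_succ _))

omit [Fintype ι] [DecidableEq ι] in
lemma b2_pos_mul {J : Ideal (MvPolynomial ι ℂ)} {f : MvPolynomial ι ℂ} (hf : ∀ i, X i * f ∈ J)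
    (m : ℕ) (hm : 0 < m) (z : MvPolynomial ι ℂ) (hz : z ∈ homogeneousSubmodule ι ℂ m) :
    z * f ∈ J := by
  have h1 : z ∈ Ideal.span ((X : ι → MvPolynomial ι ℂ) '' Set.univ) := by
    rw [mem_ideal_span_X_image]
    intro s hs
    by_contra hc
    push Not at hc
    have h2 : s = 0 := Finsupp.ext fun i => hc i trivial
    have h3 := hz (mem_support_iff.1 hs)
    rw [h2, map_zero] at h3
    omega
  have h2 : Ideal.span ((X : ι → MvPolynomial ι ℂ) '' Set.univ) ≤ col J f :=
    Ideal.span_le.2 (by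
      rintro _ ⟨i, -, rfl⟩
      exact mem_col.2 (mul_comm (X i) f ▸ hf i))
  exact mul_comm f z ▸ mem_col.1 (h2 h1)

omit [DecidableEq ι] in
lemma b2_high {J : Ideal (MvPolynomial ι ℂ)} {n : ℕ} (hn : ∀ i, X i ^ (n + 1) ∈ J) (m : ℕ)
    (hm : Fintype.card ι * n + 1 ≤ m) (z : MvPolynomial ι ℂ)
    (hz : z ∈ homogeneousSubmodule ι ℂ m) : z ∈ J := by
  have h1 : Ideal.span ((fun s => monomial s (1 : ℂ)) ''
      Set.range fun i : ι => Finsupp.single i (n + 1)) ≤ J := Ideal.span_le.2 (by
    rintro _ ⟨_, ⟨i, rfl⟩, rfl⟩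
    have := hn i
    rwa [X_pow_eq_monomial] at this)
  refine h1 (mem_ideal_span_monomial_image.2 fun s hs => ?_)
  by_contra hc
  push Not at hc
  have h2 : ∀ i, s i ≤ n := fun i => by
    have := hc _ ⟨i, rfl⟩
    rw [Finsupp.single_le_iff] at this
    omega
  have h3 := hz (mem_support_iff.1 hs)
  rw [Finsupp.weight_apply, Finsupp.sum_fintype _ _ (fun _ => by simp)] at h3
  have h4 : ∑ i, s i ≤ Fintype.card ι * n := by
    simpa using Finset.sum_le_card_nsmul Finset.univ s n fun i _ => h2 i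
  simp only [Pi.one_apply, smul_eq_mul, mul_one] at h3
  omega

omit [DecidableEq ι] in
lemma b2_good : Good (homogeneousSubmodule ι ℂ) ⊥ (Fintype.card ι) := by
  refine ⟨(Finset.univ.toList.map X).map (Prod.mk 1), b2_dg one_pos fun a ha => ?_, by simp, ?_, ?_⟩
  · obtain ⟨i, -, rfl⟩ := List.mem_map.1 ha
    exact isHomogeneous_X ℂ i
  · have := b2_reg_of_family 1 X (b2_X_family (ι := ι)) _ (Finset.nodup_toList Finset.univ) ∅
      (fun _ _ h => h)
    rwa [Set.image_empty, Ideal.span_empty] at this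
  · have h := b2_idl_map 1 (X : ι → MvPolynomial ι ℂ) ∅ Finset.univ.toList
    rw [Set.image_empty, Ideal.span_empty] at h
    rw [h]
    refine ⟨1, fun y _ => ⟨coeff 0 y, mem_ideal_span_X_image.2 fun s hs => ?_⟩⟩
    by_contra hc
    push Not at hc
    have h2 : s = 0 := Finsupp.ext fun i => hc i (Or.inr (by simp))
    rw [h2, mem_support_iff] at hs
    simp at hs

omit [Fintype ι] [DecidableEq ι] in
lemma b2_bpf {n : ℕ} (hn : ∀ i, X i ^ (n + 1) ∈ Ideal.span (Set.range F)) :
    Bpf (homogeneousSubmodule ι ℂ) (Submodule.span ℂ (Set.range F)) := by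
  rintro P - hP ⟨m, hm, x, hx, hxP⟩
  by_contra hc
  push Not at hc
  have h1 : Ideal.span (Set.range F) ≤ P :=
    Ideal.span_le.2 fun y hy => hc y (Submodule.subset_span hy)
  have h2 := b2_pos_mul (J := P) (f := 1)
    (fun i => by rw [mul_one]; exact hP.mem_of_pow_mem _ (h1 (hn i))) m hm x hx
  rw [mul_one] at h2
  exact hxP h2

omit [DecidableEq ι] in
lemma b2_reg (h : ∀ l, (F l).IsHomogeneous 8) {n : ℕ}
    (hn : ∀ i, X i ^ (n + 1) ∈ Ideal.span (Set.range F)) :
    Reg ⊥ ((Finset.univ.toList.map F).map (Prod.mk 8)) ∧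
      Soc (homogeneousSubmodule ι ℂ) (Ideal.span (Set.range F)) := by
  have hV : Submodule.span ℂ (Set.range F) ≤ homogeneousSubmodule ι ℂ 8 :=
    Submodule.span_le.2 (by rintro _ ⟨l, rfl⟩; exact h l)
  have hbot := Ideal.IsHomogeneous.bot (homogeneousSubmodule ι ℂ)
  obtain ⟨T, hT, hlen, hreg⟩ := Good.exists_seq (by norm_num) (b2_bpf hn) hV hbot b2_good
  have hT' : T = (T.map Prod.snd).map (Prod.mk 8) := by
    rw [List.map_map]
    conv_lhs => rw [← List.map_id T]
    exact List.map_congr_left fun p hp => Prod.ext (hT p hp).1 rfl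
  have hF : ∀ a ∈ Finset.univ.toList.map F, a ∈ homogeneousSubmodule ι ℂ 8 := fun a ha => by
    obtain ⟨i, -, rfl⟩ := List.mem_map.1 ha
    exact h i
  have h1 := (b2_exch (by norm_num) (Finset.univ.toList.map F) hbot (T.map Prod.snd) hF
    (fun a ha => by
      obtain ⟨p, hp, rfl⟩ := List.mem_map.1 ha
      exact hV (hT p hp).2) (by simp [hlen])
    (fun a ha => by
      obtain ⟨p, hp, rfl⟩ := List.mem_map.1 ha
      refine Submodule.mem_sup_right (Submodule.span_mono ?_ (hT p hp).2)
      rintro _ ⟨l, rfl⟩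
      exact List.mem_map_of_mem (by simp)) (hT' ▸ hreg)).1
  refine ⟨h1, ?_⟩
  have h2 := b2_soc (N := 8) (by norm_num)
    (fun P a b c => (b2_bpf hn P a b c).imp fun x hx => ⟨hV hx.1, hx.2⟩) (b2_dg (by norm_num) hF)
    hbot (by simpa using b2_good) h1
  have h3 := b2_idl_map 8 F ∅ Finset.univ.toList
  rw [Set.image_empty, Ideal.span_empty] at h3
  have h4 : F '' (∅ ∪ {i | i ∈ (Finset.univ : Finset ι).toList}) = Set.range F := by
    ext x
    simp
  rwa [h3, h4] at h2

omit [DecidableEq ι] in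
lemma b2_finite (h : ∀ l, (F l).IsHomogeneous 8) {s : ℕ}
    (ht : ∀ n, s < n → ∀ f : MvPolynomial ι ℂ, f.IsHomogeneous n → f ∈ Ideal.span (Set.range F)) :
    Module.Finite (Algebra.adjoin ℂ (Set.range F)) (MvPolynomial ι ℂ) := by
  classical
  set W := Submodule.span (Algebra.adjoin ℂ (Set.range F))
    ((fun m => monomial m (1 : ℂ)) '' {m : ι →₀ ℕ | m.degree ≤ s})
  have key : ∀ n, ∀ f : MvPolynomial ι ℂ, f.IsHomogeneous n → f ∈ W := by
    intro n
    induction n using Nat.strong_induction_on with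
    | _ n ih =>
      intro f hf
      by_cases hn : s < n
      · obtain ⟨g, hg⟩ := Ideal.mem_span_range_iff_exists_fun.1 (ht n hn f hf)
        have h1 : f = (DirectSum.decompose (homogeneousSubmodule ι ℂ) f n : MvPolynomial ι ℂ) :=
          (DirectSum.decompose_of_mem_same (homogeneousSubmodule ι ℂ) hf).symm
        rw [h1, ← hg, DirectSum.decompose_sum, DirectSum.sum_apply, AddSubmonoidClass.coe_finsetSum]
        refine W.sum_mem fun l _ => ?_
        rw [DirectSum.coe_decompose_mul_of_right_mem (homogeneousSubmodule ι ℂ) n (h l)]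
        split_ifs with h8
        · rw [mul_comm]
          exact W.smul_mem ⟨F l, Algebra.subset_adjoin ⟨l, rfl⟩⟩
            (ih (n - 8) (by omega) _
              (DirectSum.decompose (homogeneousSubmodule ι ℂ) (g l) (n - 8)).2)
        · exact W.zero_mem
      · rw [f.as_sum]
        refine W.sum_mem fun m hm => ?_
        have h1 : monomial m (coeff m f) = coeff m f • monomial m (1 : ℂ) := by
          rw [smul_monomial, smul_eq_mul, mul_one]
        rw [h1]
        refine W.smul_of_tower_mem _ (Submodule.subset_span ⟨m, ?_, rfl⟩)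
        have h2 : m.degree = n := by
          rw [Finsupp.degree_eq_weight_one]
          exact hf (mem_support_iff.1 hm)
        change m.degree ≤ s
        omega
  refine ⟨Submodule.fg_def.2 ⟨_, (Finsupp.finite_of_degree_le (σ := ι) s).image
    (fun m => monomial m (1 : ℂ)), eq_top_iff.2 fun f _ => ?_⟩⟩
  rw [← sum_homogeneousComponent f]
  exact W.sum_mem fun n _ => key n _ (homogeneousComponent_isHomogeneous n f)

end wiebe

variable {c d : ℕ} {F : Fin c ⊕ Fin d → MvPolynomial (Fin c ⊕ Fin d) ℂ}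

theorem Octics.params (h : Octics F) : Params F := by
  obtain ⟨n, hn⟩ := b2_null h.hsop
  obtain ⟨hreg, σ, hσ⟩ := b2_reg h.hom hn
  have hj : jac F ∉ Ideal.span (Set.range F) := b2_jac_notMem h.hom hn
  have hsoc : ∀ f, (∀ i, X i * f ∈ Ideal.span (Set.range F)) →
      ∃ a : ℂ, f - a • jac F ∈ Ideal.span (Set.range F) := by
    intro f hf
    obtain ⟨a, ha⟩ := hσ f (b2_pos_mul hf)
    obtain ⟨b, hb⟩ := hσ (jac F) (b2_pos_mul (b2_X_mul_jac h.hom))
    have hb0 : b ≠ 0 := fun h0 => hj (by simpa [h0] using hb)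
    refine ⟨a / b, ?_⟩
    convert sub_mem ha (smul_mem_ideal _ (a / b) hb) using 1
    rw [smul_sub, smul_smul, div_mul_cancel₀ _ hb0]
    ring
  have hI : (Ideal.span (Set.range F)).IsHomogeneous (homogeneousSubmodule _ ℂ) :=
    Ideal.homogeneous_span _ _ (by rintro _ ⟨l, rfl⟩; exact ⟨8, h.hom l⟩)
  have htop : ∀ n, 7 * (c + d) < n → ∀ f : MvPolynomial (Fin c ⊕ Fin d) ℂ, f.IsHomogeneous n →
      f ∈ Ideal.span (Set.range F) := by
    obtain ⟨s, -, ⟨u, hu, huI⟩, ht⟩ := exists_top (𝒜 := homogeneousSubmodule _ ℂ)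
      (J := Ideal.span (Set.range F)) (fun h0 => hj (h0 ▸ trivial)) (b2_high hn)
    have hs : s = 7 * (c + d) := by
      by_contra hne
      obtain ⟨a, ha⟩ := hsoc u fun i => ht (1 + s) (by omega) _ ((isHomogeneous_X ℂ i).mul hu)
      have h1 := homogeneousComponent_mem_of_mem hI ha s
      have h2 : (jac F).IsHomogeneous (7 * (c + d)) := by simpa [jac] using b2_jac_hom h.hom
      rw [map_sub, map_smul, homogeneousComponent_of_mem hu, homogeneousComponent_of_mem h2,
        if_pos rfl, if_neg hne, smul_zero, sub_zero] at h1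
      exact huI h1
    exact fun m hm f hf => ht m (hs ▸ hm) f hf
  exact ⟨b2_family_of_reg (𝒜 := homogeneousSubmodule _ ℂ) (by norm_num) h.hom hreg, hsoc, hj,
    htop, b2_finite h.hom htop⟩

end Pool.Agent.Lib.MP_954e53_ag
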