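import Pool.Agent.Lib.MP_954e53_ag.Main

/-! Without forms of degree one the core is smaller than the graded core. -/

namespace Pool.Agent.Lib.MP_954e53_ag

open Module DirectSum

variable {k S : Type*} [Field k] [CommRing S] [Algebra k S]
variable {𝒜 : ℕ → Submodule k S} [GradedAlgebra 𝒜]

lemma Good.soc_idl [Infinite k] [IsNoetherianRing S] {N : ℕ} (hN : 0 < N) (hV : Bpf 𝒜 (𝒜 N))
    {T : List (ℕ × S)} (hT : ∀ p ∈ T, 0 < p.1 ∧ p.2 ∈ 𝒜 p.1) {J : Ideal S}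
    (hJ : J.IsHomogeneous 𝒜) (h : Good 𝒜 J T.length) (hreg : Reg J T) : Soc 𝒜 (idl J T) := by
  induction T generalizing J with
  | nil => exact good_zero.1 h
  | cons p T ih =>
    obtain ⟨h1, h2⟩ := hT p List.mem_cons_self
    exact ih (fun q hq => hT q (List.mem_cons_of_mem _ hq)) (sup_hom hJ h2)
      (h.exchange hN hV hJ h1 h2 hreg.1) hreg.2

/-- A perturbed parameter ideal does not contain `g * b`. -/
lemma d_notMem {K : Ideal S} (hK : K.IsHomogeneous 𝒜) {N e : ℕ} {g h b : S} (hg : g ∈ 𝒜 N)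
    (hh : h ∈ 𝒜 (N + 1)) (hb : b ∈ 𝒜 e) (hreg : col K g = K)
    (hhb : h * b ∉ K ⊔ Ideal.span {g}) :
    g * b ∉ K ⊔ Ideal.span {g + h} ⊔ truncIdeal 𝒜 (N + 1 + e + 1) := by
  intro H
  obtain ⟨v, hv, w, hw, h1⟩ := Submodule.mem_sup.1 H
  obtain ⟨u, hu⟩ := mem_sup_span.1 hv
  have h2 : ∀ j, j ≤ e + 1 → (decompose 𝒜 (g * b) (N + j) : S) - g * decompose 𝒜 u j -
      decompose 𝒜 (h * u) (N + j) ∈ K := fun j hj => by
    have h3 := hK (N + j) hu
    rw [eq_sub_of_add_eq h1, add_mul, decompose_sub, decompose_sub, decompose_add,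
      DirectSum.sub_apply, DirectSum.sub_apply, DirectSum.add_apply, Submodule.coe_sub, Submodule.coe_sub, Submodule.coe_add,
      comp_trunc (by omega) hw, coe_decompose_mul_add_of_left_mem 𝒜 hg (b := u)] at h3
    convert h3 using 1
    ring
  have h3 : ∀ j, (decompose 𝒜 (h * u) (N + (j + 1)) : S) = h * decompose 𝒜 u j := fun j => by
    rw [show N + (j + 1) = N + 1 + j by omega, coe_decompose_mul_add_of_left_mem 𝒜 hh]
  have h4 : ∀ j, j ≤ e → (decompose 𝒜 b j : S) - decompose 𝒜 u j ∈ K := fun j => by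
    induction j with
    | zero =>
      intro _
      have h5 := h2 0 (by omega)
      rw [coe_decompose_mul_add_of_left_mem 𝒜 hg,
        coe_decompose_mul_of_left_mem_of_not_le 𝒜 hh (by omega), sub_zero, ← mul_sub] at h5
      exact reg_cancel hreg h5
    | succ j ih =>
      intro hj
      have h5 := h2 (j + 1) (by omega)
      have h6 := ih (by omega)
      rw [decompose_of_mem_ne 𝒜 hb (by omega), zero_sub, neg_mem_iff] at h6
      rw [coe_decompose_mul_add_of_left_mem 𝒜 hg, h3, ← mul_sub] at h5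
      exact reg_cancel hreg (by simpa using add_mem h5 (K.mul_mem_left h h6))
  have h5 := h2 (e + 1) le_rfl
  have h6 := h4 e le_rfl
  rw [decompose_of_mem_same 𝒜 hb] at h6
  rw [coe_decompose_mul_add_of_left_mem 𝒜 hg, decompose_of_mem_ne 𝒜 hb (by omega), h3] at h5
  refine hhb (mem_sup_span.2 ⟨-decompose 𝒜 u (e + 1), ?_⟩)
  convert sub_mem (K.mul_mem_left h h6) h5 using 1
  ring

/-- The perturbed parameter ideal is a reduction. -/
lemma d_isReduction [IsNoetherianRing S] {N N₀ s : ℕ} (hN : 0 < N)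
    (hdec : ∀ a b, N₀ ≤ a → N₀ ≤ b → 𝒜 (a + b) ≤ 𝒜 a * 𝒜 b) (hs : N₀ ≤ s) (hNs : N ≤ s)
    {L : List (ℕ × S)} (hL : ∀ p ∈ L, p.1 = N ∧ p.2 ∈ 𝒜 N) {g h : S} (hg : g ∈ 𝒜 N)
    (hh : h ∈ 𝒜 (N + 1)) (ht : ∀ m, s < m → ∀ x ∈ 𝒜 m, x ∈ idl ⊥ L ⊔ Ideal.span {g}) :
    IsReduction (idl ⊥ L ⊔ Ideal.span {g + h} ⊔ truncIdeal 𝒜 (s + 1)) (truncIdeal 𝒜 N) := by
  set J := idl ⊥ L ⊔ Ideal.span {g + h} ⊔ truncIdeal 𝒜 (s + 1) with hJ
  have hKh : (idl ⊥ L).IsHomogeneous 𝒜 := idl_hom bot_hom fun p hp => (hL p hp).1 ▸ (hL p hp).2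
  have hle : J ≤ truncIdeal 𝒜 N := sup_le (sup_le
    (idl_le bot_le fun p hp => mem_trunc le_rfl (hL p hp).2)
    ((Ideal.span_singleton_le_iff_mem _).2
      (add_mem (mem_trunc le_rfl hg) (mem_trunc N.le_succ hh)))) (trunc_anti (by omega))
  let F : J.Filtration S :=
    { N := fun r => truncIdeal 𝒜 (N * r)
      mono := fun r => trunc_anti (Nat.mul_le_mul_left _ r.le_succ)
      smul_le := fun r => by
        rw [Ideal.smul_eq_mul, Nat.mul_succ, add_comm]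
        exact (Ideal.mul_mono_left hle).trans (trunc_mul _ _) }
  let F' : J.Filtration S :=
    { N := fun r => truncIdeal 𝒜 N ^ r
      mono := fun r => Ideal.pow_le_pow_right r.le_succ
      smul_le := fun r => by
        rw [Ideal.smul_eq_mul, pow_succ']
        exact Ideal.mul_mono_left hle }
  have key : ∀ r, s ≤ r → ∀ i m, N * r ≤ m → s + 1 + N * r + N₀ ≤ m + i → ∀ x ∈ 𝒜 (N + m),
      x ∈ J * truncIdeal 𝒜 (N * r) := fun r hr i => by
    have h1 : r ≤ N * r := Nat.le_mul_of_pos_left _ hN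
    induction i with
    | zero =>
      intro m _ hm x hx
      obtain ⟨m', hm'⟩ : ∃ m', N + m = s + 1 + m' := ⟨N + m - (s + 1), by omega⟩
      rw [hm'] at hx
      refine Submodule.mul_induction_on (hdec _ _ (by omega) (by omega) hx)
        (fun a ha b hb => Ideal.mul_mem_mul (Ideal.mem_sup_right (mem_trunc le_rfl ha))
          (mem_trunc (by omega) hb)) fun _ _ => add_mem
    | succ i ih =>
      intro m hm hm' x hx
      obtain ⟨u, hu, h2⟩ := mem_sup_hom hKh hg hx (ht _ (by omega) x hx)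
      have h3 := Ideal.mul_mono_right (trunc_anti hm) (idl_le_mul hL (I := J)
        (fun p hp => Ideal.mem_sup_left (Ideal.mem_sup_left (mem_idl ⊥ hp))) bot_hom
        (fun g _ hg => by rw [show g = 0 from hg]; exact zero_mem _) _
        (sub_mem hx (SetLike.mul_mem_graded hg hu)) h2)
      have h4 : (g + h) * u ∈ J * truncIdeal 𝒜 (N * r) := Ideal.mul_mem_mul
        (Ideal.mem_sup_left (Ideal.mem_sup_right (Ideal.mem_span_singleton_self _)))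
        (mem_trunc hm hu)
      have h5 := ih (m + 1) (by omega) (by omega) (h * u) (by
        rw [show N + (m + 1) = N + 1 + m by omega]
        exact SetLike.mul_mem_graded hh hu)
      convert sub_mem (add_mem h3 h4) h5 using 1
      ring
  have hF : F.Stable := ⟨s, fun r hr => le_antisymm (F.smul_le r) (trunc_le fun n hn x hx => by
    rw [Nat.mul_succ] at hn
    obtain ⟨m, rfl⟩ : ∃ m, n = N + m := ⟨n - N, by omega⟩
    rw [Ideal.smul_eq_mul]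
    exact key r hr (s + 1 + N * r + N₀) m (by omega) (by omega) x hx)⟩
  obtain ⟨r, hr⟩ := hF.of_le (F' := F') fun r => trunc_pow N r
  exact ⟨hle, r, hr r le_rfl⟩

theorem core_ne_list [CharZero k] {L : List (ℕ × S)} (hL : ∀ p ∈ L, 0 < p.1 ∧ p.2 ∈ 𝒜 p.1)
    (hgen : Algebra.adjoin k {x | ∃ p ∈ L, p.2 = x} = ⊤) {m₀ : ℕ}
    (hfree : ∀ P : Ideal S, P.IsHomogeneous 𝒜 → P.IsPrime → (∃ m, 0 < m ∧ ∃ x ∈ 𝒜 m, x ∉ P) →
      ∀ m, m₀ ≤ m → ∃ x ∈ 𝒜 m, x ∉ P)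
    {T : List (ℕ × S)} (hT : ∀ p ∈ T, 0 < p.1 ∧ p.2 ∈ 𝒜 p.1) (hreg : Reg ⊥ T)
    (hsoc : Soc 𝒜 (idl ⊥ T)) {s r : ℕ} (ht : Top 𝒜 (idl ⊥ T) s)
    (hr : s + r = (T.map Prod.fst).sum) (hd : 2 ≤ T.length) (h1 : ∀ y ∈ 𝒜 1, y = 0) :
    ∃ N₀, ∀ N, N₀ ≤ N → core (truncIdeal 𝒜 N) ≠ gradedCore 𝒜 (truncIdeal 𝒜 N) := by
  have hfin := fin_of_gens hL hgen
  have hnoeth := noeth_of_gens hgen
  obtain ⟨h, hh, hdeg, -, hpos⟩ := exists_numerator (fun P hP hprime hrel =>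
    ⟨m₀, hfree P hP hprime hrel _ le_rfl, hfree P hP hprime hrel _ (Nat.le_succ _)⟩) hT hreg hsoc ht
  have hh0 : h ≠ 0 := fun h0 => by simp [h0] at hpos
  have hb : ∀ m, m₀ ≤ m → Bpf 𝒜 (𝒜 m) := fun m hm P h1 h2 h3 => hfree P h1 h2 h3 m hm
  obtain ⟨N₀, hN₀⟩ := exists_dec hb
  obtain ⟨d, hd'⟩ : ∃ d, T.length = d + 2 := ⟨T.length - 2, by omega⟩
  have hgood : Good 𝒜 ⊥ (d + 2) := ⟨T, hT, hd', hreg, hsoc⟩
  rw [hd'] at hh hdeg
  have hdeg' : h.natDegree + r = d + 2 := by omega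
  refine ⟨N₀ + m₀ + r + 2, fun N hN H => ?_⟩
  have hN0 : 0 < N := by omega
  have hV := hb N (by omega)
  obtain ⟨e, he⟩ : ∃ e, N + 1 + e + r = (d + 2) * N :=
    ⟨(d + 2) * N - (N + 1 + r), by rw [add_mul]; omega⟩
  have he' : N₀ ≤ e := by rw [add_mul] at he; omega
  have htop : ∀ T' : List (ℕ × S), (∀ p ∈ T', p.1 = N ∧ p.2 ∈ 𝒜 N) → T'.length = d + 2 →
      Reg ⊥ T' → Top 𝒜 (idl ⊥ T') (N + 1 + e) := fun T' hT' hlen hreg' =>
    top_of_reg hh hdeg' hh0 (fun p hp => by rw [(hT' p hp).1]; exact ⟨hN0, (hT' p hp).2⟩) hlen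
      hreg' (by rw [sum_const fun p hp => (hT' p hp).1, hlen, he])
  have hlow : ∀ y ∈ 𝒜 (N + e), y ∈ gradedCore 𝒜 (truncIdeal 𝒜 N) := fun y hy =>
    Submodule.mem_sInf.2 fun J hJ => by
      have hVN : (J.restrictScalars k).map (GradedAlgebra.proj 𝒜 N) ≤ 𝒜 N := by
        rintro _ ⟨j, -, rfl⟩
        exact SetLike.coe_mem _
      obtain ⟨T', hT', hlen, hreg'⟩ := hgood.exists_seq hN0 (hJ.1.bpf hV) hVN bot_hom
      have hT1 : ∀ p ∈ T', 0 < p.1 ∧ p.2 ∈ 𝒜 p.1 := fun p hp => by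
        rw [(hT' p hp).1]; exact ⟨hN0, hVN (hT' p hp).2⟩
      have hle : idl ⊥ T' ≤ J := idl_le bot_le fun p hp => by
        obtain ⟨-, j, hj, h2⟩ := hT' p hp
        exact h2 ▸ hJ.2 N hj
      by_contra hyJ
      obtain ⟨z, hz, hzy⟩ := (Good.soc_idl hN0 hV hT1 bot_hom (hlen ▸ hgood) hreg').pairing
        (idl_hom bot_hom fun p hp => (hT1 p hp).2)
        (htop T' (fun p hp => ⟨(hT' p hp).1, hVN (hT' p hp).2⟩) hlen hreg')
        (show N + e + 1 = N + 1 + e by omega) hy fun h2 => hyJ (hle h2)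
      exact hzy (by rw [h1 z hz, zero_mul]; exact zero_mem _)
  obtain ⟨T', hT', hlen, hreg'⟩ := hgood.exists_seq hN0 hV le_rfl bot_hom
  have ht' := htop T' hT' hlen hreg'
  obtain rfl | ⟨L', p, rfl⟩ := T'.eq_nil_or_concat
  · simp at hlen
  rw [List.concat_eq_append] at hT' hreg' ht'
  rw [idl_append] at ht'
  have hL' : ∀ q ∈ L', q.1 = N ∧ q.2 ∈ 𝒜 N := fun q hq => hT' q (List.mem_append_left _ hq)
  have hg : p.2 ∈ 𝒜 N := (hT' p (by simp)).2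
  obtain ⟨⟨u, hu, huJ⟩, ht2⟩ := ht'
  obtain ⟨a, ha, b, hb', hab⟩ : ∃ a ∈ 𝒜 (N + 1), ∃ b ∈ 𝒜 e, a * b ∉ idl ⊥ L' ⊔ Ideal.span {p.2} := by
    by_contra hc
    push Not at hc
    exact huJ (Submodule.mul_induction_on (hN₀ _ _ (by omega) he' hu) (fun a ha b hb => hc a ha b hb)
      fun _ _ => add_mem)
  have h2 := hlow _ (SetLike.mul_mem_graded hg hb')
  rw [← H] at h2
  exact d_notMem (idl_hom bot_hom fun q hq => (hL' q hq).1 ▸ (hL' q hq).2) hg ha hb'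
    ((reg_append _ _ _).1 hreg').2.1 hab (Submodule.mem_sInf.1 h2 _
      (d_isReduction hN0 hN₀ (by omega) (by omega) hL' hg ha ht2))

/-- The other direction of the theorem of Hyry and Smith. -/
theorem core_ne {k S : Type*} [Field k] [CharZero k] [CommRing S] [IsDomain S] [Algebra k S]
    {𝒜 : ℕ → Submodule k S} [GradedAlgebra 𝒜] {n d r : ℕ} (hgen : GeneratedBy 𝒜 n)
    (hfree : EventuallyFree 𝒜) (hG : GorensteinOfIndex 𝒜 d r) (hd : 2 ≤ d)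
    (h1 : ∀ y ∈ 𝒜 1, y = 0) :
    ∃ N₀, ∀ N, N₀ ≤ N → core (truncIdeal 𝒜 N) ≠ gradedCore 𝒜 (truncIdeal 𝒜 N) := by
  obtain ⟨x, w, hx, hgen⟩ := hgen
  obtain ⟨m₀, hfree⟩ := hfree
  obtain ⟨θ, e, s, hθ, hreg, hs, hu, ht, hsoc⟩ := hG
  set L : List (ℕ × S) := List.ofFn fun i => (w i, x i) with hL
  set T : List (ℕ × S) := List.ofFn fun i => (e i, θ i) with hT
  have hL1 : ∀ p ∈ L, 0 < p.1 ∧ p.2 ∈ 𝒜 p.1 := fun p hp => by
    obtain ⟨i, rfl⟩ := List.mem_ofFn.1 hp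
    exact hx i
  have hT1 : ∀ p ∈ T, 0 < p.1 ∧ p.2 ∈ 𝒜 p.1 := fun p hp => by
    obtain ⟨i, rfl⟩ := List.mem_ofFn.1 hp
    exact hθ i
  have hgen' : Algebra.adjoin k {y | ∃ p ∈ L, p.2 = y} = ⊤ := by
    rw [← hgen]; congr 1; ext y; simp [hL]
  have hT2 : T.map Prod.snd = List.ofFn θ := by rw [hT, List.map_ofFn]; rfl
  have hT3 : idl ⊥ T = Ideal.span (Set.range θ) := by
    rw [idl_eq, bot_sup_eq, hT2, Ideal.ofList]; congr 1; ext y; simp
  have hT4 : s + r = (T.map Prod.fst).sum := by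
    rw [hs, hT, List.map_ofFn, List.sum_ofFn]; rfl
  have hd' : T.length = d := List.length_ofFn
  refine core_ne_list hL1 hgen' (m₀ := m₀) ?_ hT1 (reg_of_weakly (hT2 ▸ hreg.toIsWeaklyRegular))
    (hT3 ▸ hsoc) (hT3 ▸ ⟨hu, ht⟩) hT4 (hd' ▸ hd) h1
  rintro P hP hp ⟨m, hm, y, hy, hyP⟩ m' hm'
  exact hfree m' hm' ⟨⟨P, hP⟩, hp, fun h => hyP
    (h (HomogeneousIdeal.mem_irrelevant_of_mem 𝒜 hm hy))⟩

end Pool.Agent.Lib.MP_954e53_ag
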