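import Pool.Agent.Lib.MP_954e53_ag.CexGroup
import Pool.Agent.Lib.MP_954e53_ag.CexGeneric
import Pool.Agent.Lib.MP_954e53_ag.CexParams
import Pool.Agent.Lib.MP_954e53_ag.CexNormal
import Pool.Agent.Lib.MP_954e53_ag.CexFree
import Pool.Agent.Lib.MP_954e53_ag.CexGor
import Pool.Agent.Lib.MP_954e53_ag.CexKempf
import Pool.Agent.Lib.MP_954e53_ag.CoreNe

/-! The counterexample over the complex numbers. -/

namespace Pool.Agent.Lib.MP_954e53_ag

open MvPolynomial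

theorem counterexample : ∃ (S : Type) (_ : CommRing S) (_ : IsDomain S) (_ : Algebra ℂ S)
    (𝒜 : ℕ → Submodule ℂ S) (_ : GradedAlgebra 𝒜) (d r : ℕ),
    IsSectionRing 𝒜 ∧ (∀ y ∈ 𝒜 0, ∃ a : ℂ, algebraMap ℂ S a = y) ∧ 2 ≤ d ∧ 1 ≤ r ∧
      GorensteinOfIndex 𝒜 d r ∧ IsIntegrallyClosed S ∧ FormsExtend ℂ S d ∧ (∀ y ∈ 𝒜 1, y = 0) ∧
      ∃ N₀, ∀ N, N₀ ≤ N → core (truncIdeal 𝒜 N) ≠ gradedCore 𝒜 (truncIdeal 𝒜 N) := by
  obtain ⟨c, d, G, _, _, ρ, hd, h⟩ := exists_groupData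
  obtain ⟨F, hF⟩ := exists_ciData h
  have hp := hF.toOctics.params
  have := hF.toOctics.isDomain hp hd
  have := hF.toOctics.isIntegrallyClosed hp hd
  obtain ⟨_⟩ := invGraded h hF
  obtain ⟨n, hgen⟩ := inv_generatedBy h hF hp
  obtain ⟨r, hr, hG⟩ := inv_gorenstein h hF hp
  have hfree := inv_free hF hp
  have := inv_normal hF
  have := inv_finite hF hp
  refine ⟨invRing ρ F, inferInstance, inferInstance, inferInstance, invGr ρ F, inferInstance, d, r,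
    isSectionRing_of hgen hfree hG hd, fun _ => invGr_zero, hd, hr, hG, inferInstance, ?_,
    inv_one h, core_ne hgen hfree hG hd (inv_one h)⟩
  refine formsExtend_of_ci (R := CI F) hF.toOctics (by simpa using h.fano)
    (fun i => Ideal.Quotient.mk _ (X i)) ?_ (fun l => ?_) (ci_trdeg hp)
  · have h1 := congrArg (Subalgebra.map (Ideal.Quotient.mkₐ ℂ (eqIdeal F)))
      (MvPolynomial.adjoin_range_X (R := ℂ) (σ := Fin c ⊕ Fin d))
    rw [AlgHom.map_adjoin, Algebra.map_top, ← Set.range_comp,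
      (AlgHom.range_eq_top _).2 (Ideal.Quotient.mkₐ_surjective ℂ _)] at h1
    exact h1
  · have h1 : aeval (fun i => Ideal.Quotient.mk (eqIdeal F) (X i)) =
        Ideal.Quotient.mkₐ ℂ (eqIdeal F) := MvPolynomial.algHom_ext fun i => aeval_X _ _
    rw [h1]
    exact Ideal.Quotient.eq_zero_iff_mem.2 (Ideal.subset_span ⟨l, rfl⟩)

end Pool.Agent.Lib.MP_954e53_ag
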