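import Mathlib

/-! A group of monomial four by four matrices with entries eighth roots of unity. -/

namespace Pool.Agent.Lib.MP_954e53_ag

/-- The monomial matrix `v ↦ (i ↦ ζ ^ a i * v (p i))`. -/
@[ext] structure Mono4 where
  a : Fin 4 → ZMod 8
  p : Equiv.Perm (Fin 4)

namespace Mono4

instance : Mul Mono4 := ⟨fun x y => ⟨fun i => x.a i + y.a (x.p i), x.p.trans y.p⟩⟩
instance : One Mono4 := ⟨⟨0, 1⟩⟩
instance : Inv Mono4 := ⟨fun x => ⟨fun i => -x.a (x.p.symm i), x.p.symm⟩⟩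

@[simp] lemma mul_a (x y : Mono4) (i : Fin 4) : (x * y).a i = x.a i + y.a (x.p i) := rfl
@[simp] lemma mul_p (x y : Mono4) (i : Fin 4) : (x * y).p i = y.p (x.p i) := rfl
@[simp] lemma one_a (i : Fin 4) : (1 : Mono4).a i = 0 := rfl
@[simp] lemma one_p (i : Fin 4) : (1 : Mono4).p i = i := rfl
@[simp] lemma inv_a (x : Mono4) (i : Fin 4) : (x⁻¹).a i = -x.a (x.p.symm i) := rfl
@[simp] lemma inv_p (x : Mono4) (i : Fin 4) : (x⁻¹).p i = x.p.symm i := rfl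

instance : Group Mono4 := Group.ofLeftAxioms
  (fun x y z => by ext i <;> simp [add_assoc]) (fun x => by ext i <;> simp)
  (fun x => by ext i <;> simp)

/-- The underlying pair. -/
def equivProd : Mono4 ≃ (Fin 4 → ZMod 8) × Equiv.Perm (Fin 4) :=
  ⟨fun x => (x.a, x.p), fun x => ⟨x.1, x.2⟩, fun _ => rfl, fun _ => rfl⟩

instance : Fintype Mono4 := Fintype.ofEquiv _ equivProd.symm

lemma card_le : Fintype.card Mono4 ≤ 2 ^ 17 := by
  rw [Fintype.card_congr equivProd]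
  simp [Fintype.card_perm, Nat.factorial]

/-- Multiplication by the scalar `i ^ z`. -/
def twist (x : Mono4) (z : ZMod 8) : Mono4 := ⟨fun i => x.a i + 2 * z, x.p⟩

lemma twist_mul (x y : Mono4) (z w : ZMod 8) : twist (x * y) (z + w) = twist x z * twist y w := by
  ext i
  · simp only [twist, mul_a]; ring
  · rfl

lemma twist_one : twist 1 0 = 1 := by ext i <;> simp [twist]

/-- The conditions that define the group of order `256`. -/
def Cond (a : Fin 4 → ZMod 8) (f : Fin 4 → Fin 4) : Prop :=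
  ((∀ i, f (i + 2) = f i + 2) ∧ f 1 ≠ f 0 ∧ f 1 ≠ f 0 + 2) ∧
    (∀ i, 4 * a i = if f 1 = f 0 + 1 then 0 else 4) ∧ (∀ i, 2 * a (i + 2) = 2 * a i) ∧
    ∑ i, a i = 4 * a 0

instance (a : Fin 4 → ZMod 8) (f : Fin 4 → Fin 4) : Decidable (Cond a f) := by
  unfold Cond; infer_instance

/-- The class modulo the Frattini subgroup. -/
def clf (a : Fin 4 → ZMod 8) (f : Fin 4 → Fin 4) : Fin 3 → ZMod 8 :=
  ![4 * a 0, 4 * ((f 0).val : ZMod 8), 2 * (a 0 - a 1)]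

/-- Membership in the group of order `256`. -/
def Gm (x : Mono4) : Prop := Cond x.a x.p

/-- The class of an element. -/
def cls (x : Mono4) : Fin 3 → ZMod 8 := clf x.a x.p

lemma vec4 {f : Fin 4 → Fin 4} (h : ∀ i, f (i + 2) = f i + 2) :
    ![f 0, f 1, f 0 + 2, f 1 + 2] = f := by
  funext i
  fin_cases i
  exacts [rfl, rfl, (h 0).symm, (h 1).symm]

/-- The conclusion of the lemma on pairs of dihedral permutations. -/
def PermC (f g : Fin 4 → Fin 4) : Prop :=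
  ((∀ i, g (f (i + 2)) = g (f i) + 2) ∧ g (f 1) ≠ g (f 0) ∧ g (f 1) ≠ g (f 0) + 2) ∧
    ((if f 1 = f 0 + 1 then 0 else 4 : ZMod 8) + (if g 1 = g 0 + 1 then 0 else 4) =
      if g (f 1) = g (f 0) + 1 then 0 else 4) ∧
    4 * ((g (f 0)).val : ZMod 8) = 4 * ((f 0).val : ZMod 8) + 4 * ((g 0).val : ZMod 8) ∧
    (f 1 = f 0 + 1 ∨ f 0 = f 1 + 1)

instance (f g : Fin 4 → Fin 4) : Decidable (PermC f g) := by unfold PermC; infer_instance

lemma perm_aux' : ∀ a b : Fin 4, b ≠ a ∧ b ≠ a + 2 → ∀ c d : Fin 4, d ≠ c ∧ d ≠ c + 2 →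
    PermC ![a, b, a + 2, b + 2] ![c, d, c + 2, d + 2] := by
  decide +kernel

lemma perm_aux (f : Fin 4 → Fin 4) (hf : (∀ i, f (i + 2) = f i + 2) ∧ f 1 ≠ f 0 ∧ f 1 ≠ f 0 + 2)
    (g : Fin 4 → Fin 4) (hg : (∀ i, g (i + 2) = g i + 2) ∧ g 1 ≠ g 0 ∧ g 1 ≠ g 0 + 2) :
    PermC f g := by
  have h := perm_aux' (f 0) (f 1) hf.2 (g 0) (g 1) hg.2
  rwa [vec4 hf.1, vec4 hg.1] at h

lemma Gm.mul {x y : Mono4} (hx : Gm x) (hy : Gm y) : Gm (x * y) := by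
  obtain ⟨h1, h2, -⟩ := perm_aux _ hx.1 _ hy.1
  refine ⟨h1, fun i => ?_, fun i => ?_, ?_⟩
  · rw [mul_a, mul_add, hx.2.1, hy.2.1, h2]; rfl
  · rw [mul_a, mul_a, mul_add, mul_add, hx.2.2.1, hx.1.1, hy.2.2.1]
  · simp only [mul_a]
    rw [Finset.sum_add_distrib, Equiv.sum_comp x.p y.a, hx.2.2.2, hy.2.2.2, mul_add,
      hy.2.1 0, hy.2.1]

lemma Gm.adj {y : Mono4} (hy : Gm y) (i : Fin 4) :
    2 * (y.a i - y.a (i + 1)) = 2 * (y.a 0 - y.a 1) ∧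
      2 * (y.a (i + 1) - y.a i) = 2 * (y.a 0 - y.a 1) := by
  have h0 : 2 * y.a 2 = 2 * y.a 0 := hy.2.2.1 0
  have h1 : 2 * y.a 3 = 2 * y.a 1 := hy.2.2.1 1
  have h2 : 4 * y.a 0 = 4 * y.a 1 := (hy.2.1 0).trans (hy.2.1 1).symm
  fin_cases i
  · exact ⟨rfl, show 2 * (y.a 1 - y.a 0) = _ by linear_combination -h2⟩
  · exact ⟨show 2 * (y.a 1 - y.a 2) = _ by linear_combination -h2 - h0,
      show 2 * (y.a 2 - y.a 1) = _ by linear_combination h0⟩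
  · exact ⟨show 2 * (y.a 2 - y.a 3) = _ by linear_combination h0 - h1,
      show 2 * (y.a 3 - y.a 2) = _ by linear_combination h1 - h0 - h2⟩
  · exact ⟨show 2 * (y.a 3 - y.a 0) = _ by linear_combination h1 - h2,
      show 2 * (y.a 0 - y.a 3) = _ by linear_combination -h1⟩

lemma cls_mul {x y : Mono4} (hx : Gm x) (hy : Gm y) : cls (x * y) = cls x + cls y := by
  obtain ⟨-, -, h3, h4⟩ := perm_aux _ hx.1 _ hy.1
  funext j
  fin_cases j
  · show 4 * (x.a 0 + y.a (x.p 0)) = 4 * x.a 0 + 4 * y.a 0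
    rw [mul_add, hy.2.1, hy.2.1]
  · exact h3
  · show 2 * (x.a 0 + y.a (x.p 0) - (x.a 1 + y.a (x.p 1))) =
      2 * (x.a 0 - x.a 1) + 2 * (y.a 0 - y.a 1)
    rcases h4 with h4 | h4
    · rw [h4]; linear_combination (hy.adj (x.p 0)).1
    · rw [h4]; linear_combination (hy.adj (x.p 1)).2

lemma Gm.twist {x : Mono4} (hx : Gm x) (z : ZMod 8) : Gm (twist x z) := by
  have h8 : (8 : ZMod 8) = 0 := rfl
  refine ⟨hx.1, fun i => ?_, fun i => ?_, ?_⟩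
  · refine Eq.trans ?_ (hx.2.1 i)
    show 4 * (x.a i + 2 * z) = _
    linear_combination z * h8
  · show 2 * (x.a (i + 2) + 2 * z) = 2 * (x.a i + 2 * z)
    linear_combination hx.2.2.1 i
  · show ∑ i, (x.a i + 2 * z) = 4 * (x.a 0 + 2 * z)
    rw [Finset.sum_add_distrib, hx.2.2.2]
    simp only [Finset.sum_const, Finset.card_univ, Fintype.card_fin, nsmul_eq_mul]
    push_cast
    ring

/-- The classes whose elements have fourth power `-1`. -/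
def Bad (v : Fin 3 → ZMod 8) : Prop := v 0 = 4 ∧ ¬(v 1 = 4 ∧ v 2 = 4)

instance (v : Fin 3 → ZMod 8) : Decidable (Bad v) := by unfold Bad; infer_instance

/-- The conclusion of the lemma on fourth powers. -/
def PowC (a : Fin 4 → ZMod 8) (f : Fin 4 → Fin 4) : Prop :=
  ∀ i, f (f (f (f i))) = i ∧ a i + a (f i) + a (f (f i)) + a (f (f (f i))) =
    if Bad (clf a f) then 4 else 0

instance (a : Fin 4 → ZMod 8) (f : Fin 4 → Fin 4) : Decidable (PowC a f) := by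
  unfold PowC; infer_instance

lemma pow_aux : ∀ s t : Fin 4, t ≠ s ∧ t ≠ s + 2 → ∀ a : ZMod 8,
    (4 * a = if t = s + 1 then 0 else 4) → ∀ b : ZMod 8, 4 * b = 4 * a → ∀ c : ZMod 8,
    2 * c = 2 * a → PowC ![a, b, c, 3 * a - b - c] ![s, t, s + 2, t + 2] := by
  decide +kernel

lemma Gm.pow_four {x : Mono4} (hx : Gm x) :
    x ^ 4 = ⟨fun _ => if Bad (cls x) then 4 else 0, 1⟩ := by
  have h0 : ![x.a 0, x.a 1, x.a 2, 3 * x.a 0 - x.a 1 - x.a 2] = x.a := by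
    have h1 := hx.2.2.2
    rw [Fin.sum_univ_four] at h1
    funext i
    fin_cases i
    exacts [rfl, rfl, rfl, show 3 * x.a 0 - x.a 1 - x.a 2 = x.a 3 by linear_combination -h1]
  have h := pow_aux (x.p 0) (x.p 1) hx.1.2 (x.a 0) (hx.2.1 0) (x.a 1)
    ((hx.2.1 1).trans (hx.2.1 0).symm) (x.a 2) (hx.2.2.1 0)
  rw [h0, vec4 hx.1.1] at h
  rw [show x ^ 4 = x * x * x * x by simp [pow_succ]]
  ext i
  · exact (h i).2
  · exact congrArg Fin.val (h i).1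

lemma Gm.pow_eight {x : Mono4} (hx : Gm x) : x ^ 8 = 1 := by
  rw [show 8 = 4 + 4 from rfl, pow_add, hx.pow_four]
  ext i
  · show _ + _ = (0 : ZMod 8)
    split_ifs <;> rfl
  · rfl

lemma gm_one : Gm 1 := by
  unfold Gm
  decide

lemma cls_one : cls 1 = 0 := by decide

/-- Seven matrices that permute the nonzero vectors modulo two simply transitively. -/
def sing : Fin 7 → Matrix (Fin 3) (Fin 3) (ZMod 8) :=
  ![!![1, 0, 0; 0, 1, 0; 0, 0, 1], !![0, 0, 1; 1, 0, 1; 0, 1, 0], !![0, 1, 0; 0, 1, 1; 1, 0, 1],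
    !![1, 0, 1; 1, 1, 1; 0, 1, 1], !![0, 1, 1; 1, 1, 0; 1, 1, 1], !![1, 1, 1; 1, 0, 0; 1, 1, 0],
    !![1, 1, 0; 0, 0, 1; 1, 0, 0]]

/-- The class prescribed for the component `τ`. -/
def pres (τ : Fin 7) (e : Fin 3 → ZMod 8) : Fin 3 → ZMod 8 := (4 : ZMod 8) • (sing τ).mulVec e

lemma pres_add (τ : Fin 7) (e e' : Fin 3 → ZMod 8) : pres τ (e + e') = pres τ e + pres τ e' := by
  rw [pres, Matrix.mulVec_add, smul_add]; rfl

lemma pres_zero (τ : Fin 7) : pres τ 0 = 0 := by simp [pres]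

lemma bad_aux : ∀ a b c : ZMod 8,
    (Finset.univ.filter fun τ => Bad (pres τ ![a, b, c])).card ≤ 3 ∧
      ((∃ τ, Bad (pres τ ![a, b, c])) → ∃ k, ∃ u : ZMod 8, ![a, b, c] k * u = 1) := by
  decide +kernel

lemma vec3 (e : Fin 3 → ZMod 8) : ![e 0, e 1, e 2] = e := by
  funext i; fin_cases i <;> rfl

lemma card_bad (e : Fin 3 → ZMod 8) : (Finset.univ.filter fun τ => Bad (pres τ e)).card ≤ 3 :=
  vec3 e ▸ (bad_aux (e 0) (e 1) (e 2)).1

lemma unit_of_bad {e : Fin 3 → ZMod 8} {τ : Fin 7} (h : Bad (pres τ e)) :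
    ∃ k, ∃ u : ZMod 8, e k * u = 1 :=
  vec3 e ▸ (bad_aux (e 0) (e 1) (e 2)).2 ⟨τ, (vec3 e).symm ▸ h⟩

/-- The generators. -/
def gen : Fin 3 → Mono4 :=
  ![⟨![1, 1, 1, 1], Equiv.swap 1 3⟩, ⟨0, finRotate 4⟩, ⟨![2, 0, 6, 0], 1⟩]

/-- A section of the class map. -/
def sec (v : Fin 3 → ZMod 8) : Mono4 :=
  (if v 0 = 0 then 1 else gen 0) * (if v 1 = 0 then 1 else gen 1) * (if v 2 = 0 then 1 else gen 2)

lemma sec_aux : ∀ a b c : ZMod 8, a + a = 0 → b + b = 0 → c + c = 0 →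
    Cond (sec ![a, b, c]).a (sec ![a, b, c]).p ∧ cls (sec ![a, b, c]) = ![a, b, c] := by
  decide +kernel

lemma sec_spec (τ : Fin 7) (e : Fin 3 → ZMod 8) :
    Gm (sec (pres τ e)) ∧ cls (sec (pres τ e)) = pres τ e := by
  have h8 : (8 : ZMod 8) = 0 := rfl
  have h : ∀ j, pres τ e j + pres τ e j = 0 := fun j => by
    simp only [pres, Pi.smul_apply, smul_eq_mul]
    linear_combination (sing τ).mulVec e j * h8
  exact vec3 (pres τ e) ▸ sec_aux _ _ _ (h 0) (h 1) (h 2)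

/-- Elements that kill the quartic monomials. -/
def wit : Fin 7 → Mono4 :=
  ![⟨![2, 6, 2, 6], 1⟩, ⟨![2, 0, 6, 0], 1⟩, ⟨![0, 2, 0, 6], 1⟩, ⟨![1, 1, 1, 1], Equiv.swap 1 3⟩,
    ⟨![1, 1, 1, 1], Equiv.swap 0 2⟩, ⟨![0, 4, 4, 0], 1⟩, ⟨![4, 4, 0, 0], 1⟩]

lemma wit_aux : ∀ w, Cond (wit w).a (wit w).p ∧
    ∀ τ, ∃ a b c : Fin 2, cls (wit w) = pres τ ![a.val, b.val, c.val] := by
  decide +kernel

lemma quart_aux : ∀ a b c d : Fin 5, a.val + b.val + c.val + d.val = 4 → ∃ w,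
    (∀ i, ![a.val, b.val, c.val, d.val] ((wit w).p i) = ![a.val, b.val, c.val, d.val] i) ∧
      ∑ i, ((![a.val, b.val, c.val, d.val] i : ℕ) : ZMod 8) * (wit w).a i ≠ 0 := by
  decide +kernel

lemma exists_wit (n : Fin 4 → ℕ) (hn : ∑ i, n i = 4) (τ : Fin 7) : ∃ x e, Gm x ∧ cls x = pres τ e ∧
    (∀ i, n (x.p i) = n i) ∧ ∑ i, (n i : ZMod 8) * x.a i ≠ 0 := by
  rw [Fin.sum_univ_four] at hn
  have h0 : ![n 0, n 1, n 2, n 3] = n := by
    funext i; fin_cases i <;> rfl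
  obtain ⟨w, hw⟩ := quart_aux ⟨n 0, by omega⟩ ⟨n 1, by omega⟩ ⟨n 2, by omega⟩ ⟨n 3, by omega⟩ hn
  simp only [h0] at hw
  obtain ⟨h1, h2⟩ := wit_aux w
  obtain ⟨a, b, c, h3⟩ := h2 τ
  exact ⟨wit w, _, h1, h3, hw⟩

end Mono4

end Pool.Agent.Lib.MP_954e53_ag
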