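import Pool.Agent.Lib.MP_954e53_ag.CexBlock
import Pool.Agent.Lib.MP_954e53_ag.CexMono

/-! The four dimensional representation: determinants, invariant octics and eigenvalues. -/

namespace Pool.Agent.Lib.MP_954e53_ag

open MvPolynomial

/-- The standard character of `ZMod 8`. -/
noncomputable def psi : AddChar (ZMod 8) ℂ := ZMod.stdAddChar

lemma psi_inj : Function.Injective psi := ZMod.injective_stdAddChar

lemma psi_pow (a : ZMod 8) (n : ℕ) : psi a ^ n = psi (n * a) := by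
  rw [← AddChar.map_nsmul_eq_pow, nsmul_eq_mul]

lemma psi_pow_eight (a : ZMod 8) : psi a ^ 8 = 1 := by
  rw [psi_pow, show ((8 : ℕ) : ZMod 8) = 0 from rfl, zero_mul, AddChar.map_zero_eq_one]

lemma psi_ne_zero (a : ZMod 8) : psi a ≠ 0 := fun h => by
  simpa [h] using psi_pow_eight a

lemma psi_eq_one {a : ZMod 8} (h : psi a = 1) : a = 0 :=
  psi_inj (h.trans (AddChar.map_zero_eq_one psi).symm)

lemma psi_two : psi 2 = Complex.I := by
  have h := ZMod.stdAddChar_coe (N := 8) 2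
  rw [← Complex.exp_pi_div_two_mul_I]
  refine Eq.trans h (congrArg _ ?_)
  push_cast
  ring

lemma psi_sum {ι : Type} (s : Finset ι) (f : ι → ZMod 8) :
    psi (∑ i ∈ s, f i) = ∏ i ∈ s, psi (f i) := by
  classical
  induction s using Finset.induction_on with
  | empty => simp
  | insert a s ha ih => rw [Finset.sum_insert ha, Finset.prod_insert ha, AddChar.map_add_eq_mul, ih]

lemma exists_psi {z : ℂ} (h : z ^ 8 = 1) : ∃ j, psi j = z := by
  have h1 : IsPrimitiveRoot (psi 1) 8 := IsPrimitiveRoot.mk_of_lt _ (by norm_num)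
    (psi_pow_eight 1) fun l h0 h8 hl => by
      rw [psi_pow, mul_one] at hl
      have h2 := psi_eq_one hl
      interval_cases l <;> exact absurd h2 (by decide)
  obtain ⟨i, -, hi⟩ := h1.eq_pow_of_pow_eq_one h
  exact ⟨i, by rw [← hi, psi_pow, mul_one]⟩

namespace Mono4

/-- The matrix of a monomial element. -/
noncomputable def mat : Mono4 →* Matrix (Fin 4) (Fin 4) ℂ where
  toFun x := Matrix.of fun i j => if j = x.p i then psi (x.a i) else 0
  map_one' := by
    ext i j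
    simp [Matrix.one_apply, eq_comm]
  map_mul' x y := by
    ext i j
    simp only [Matrix.mul_apply, Matrix.of_apply, ite_mul, zero_mul, Finset.sum_ite_eq',
      Finset.mem_univ, if_true]
    simp only [mul_a, mul_p, AddChar.map_add_eq_mul, mul_ite, mul_zero]

lemma mat_apply (x : Mono4) (i j : Fin 4) :
    mat x i j = if j = x.p i then psi (x.a i) else 0 := rfl

lemma mat_mulVec (x : Mono4) (v : Fin 4 → ℂ) (i : Fin 4) :
    (mat x).mulVec v i = psi (x.a i) * v (x.p i) := by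
  simp [Matrix.mulVec, dotProduct, mat_apply]

lemma mat_twist (x : Mono4) (z : ZMod 8) : mat (twist x z) = psi (2 * z) • mat x := by
  ext i j
  simp only [mat_apply, twist, Matrix.smul_apply, smul_eq_mul, AddChar.map_add_eq_mul]
  split_ifs <;> ring

lemma det_twist (x : Mono4) (z : ZMod 8) : (mat (twist x z)).det = (mat x).det := by
  rw [mat_twist, Matrix.det_smul, Fintype.card_fin, psi_pow, ← mul_assoc,
    show ((4 : ℕ) : ZMod 8) * 2 = 0 from rfl, zero_mul, AddChar.map_zero_eq_one, one_mul]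

lemma Gm.det_sq {x : Mono4} (hx : Gm x) : (mat x).det * (mat x).det = 1 := by
  have h1 : mat x = Matrix.diagonal (fun i => psi (x.a i)) * x.p.permMatrix ℂ := by
    ext i j
    simp [mat_apply, Matrix.diagonal_mul, PEquiv.toMatrix_apply, eq_comm]
  rw [h1, Matrix.det_mul, Matrix.det_diagonal, Matrix.det_permutation, ← psi_sum, hx.2.2.2,
    mul_mul_mul_comm, ← AddChar.map_add_eq_mul, ← add_mul, show (4 + 4 : ZMod 8) = 0 from rfl,
    zero_mul, AddChar.map_zero_eq_one, one_mul, ← Int.cast_mul, ← Units.val_mul,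
    Int.units_mul_self]
  simp

lemma two_zero {a b : ℂ} (h1 : a * a + b * b = 0) (h2 : a + b = 0) : a = 0 ∧ b = 0 := by
  have h3 : a * a = 0 := by linear_combination (1 / 2 : ℂ) * h1 + (1 / 2 : ℂ) * (a - b) * h2
  have h4 := mul_self_eq_zero.1 h3
  exact ⟨h4, by linear_combination h2 - h4⟩

lemma oct_free {v : Fin 4 → ℂ} (h0 : ∑ i, v i ^ 8 = 0) (h1 : (∑ i, v i ^ 4) ^ 2 = 0)
    (h2 : ∑ i, v i ^ 4 * v (i + 2) ^ 4 = 0) (h3 : (∏ i, v i) ^ 2 = 0) : v = 0 := by
  rw [Fin.sum_univ_four] at h0 h1 h2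
  rw [Fin.prod_univ_four] at h3
  have h4 : v 0 ^ 4 * v 2 ^ 4 + v 1 ^ 4 * v 3 ^ 4 + v 2 ^ 4 * v 0 ^ 4 + v 3 ^ 4 * v 1 ^ 4 = 0 := h2
  have h5 := pow_eq_zero_iff (two_ne_zero) |>.1 h1
  have h6 := pow_eq_zero_iff (two_ne_zero) |>.1 h3
  have h7 : v 0 ^ 4 * v 2 ^ 4 = 0 := mul_self_eq_zero.1 (by
    linear_combination (1 / 2 : ℂ) * (v 0 ^ 4 * v 2 ^ 4) * h4 - (v 0 * v 1 * v 2 * v 3) ^ 3 * h6)
  have h8 : v 1 ^ 4 * v 3 ^ 4 = 0 := by linear_combination (1 / 2 : ℂ) * h4 - h7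
  have h9 : v 0 ^ 4 = 0 ∧ v 1 ^ 4 = 0 ∧ v 2 ^ 4 = 0 ∧ v 3 ^ 4 = 0 := by
    rcases mul_eq_zero.1 h7 with a | a <;> rcases mul_eq_zero.1 h8 with b | b
    · have := two_zero (a := v 2 ^ 4) (b := v 3 ^ 4)
        (by linear_combination h0 - v 0 ^ 4 * a - v 1 ^ 4 * b) (by linear_combination h5 - a - b)
      exact ⟨a, b, this.1, this.2⟩
    · have := two_zero (a := v 1 ^ 4) (b := v 2 ^ 4)
        (by linear_combination h0 - v 0 ^ 4 * a - v 3 ^ 4 * b) (by linear_combination h5 - a - b)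
      exact ⟨a, this.1, this.2, b⟩
    · have := two_zero (a := v 0 ^ 4) (b := v 3 ^ 4)
        (by linear_combination h0 - v 2 ^ 4 * a - v 1 ^ 4 * b) (by linear_combination h5 - a - b)
      exact ⟨this.1, b, a, this.2⟩
    · have := two_zero (a := v 0 ^ 4) (b := v 1 ^ 4)
        (by linear_combination h0 - v 2 ^ 4 * a - v 3 ^ 4 * b) (by linear_combination h5 - a - b)
      exact ⟨this.1, this.2, a, b⟩
  funext i
  fin_cases i
  exacts [pow_eq_zero_iff four_ne_zero |>.1 h9.1, pow_eq_zero_iff four_ne_zero |>.1 h9.2.1,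
    pow_eq_zero_iff four_ne_zero |>.1 h9.2.2.1, pow_eq_zero_iff four_ne_zero |>.1 h9.2.2.2]

lemma exists_oct {v : Fin 4 → ℂ} (hv : v ≠ 0) : ∃ f : MvPolynomial (Fin 4) ℂ, f.IsHomogeneous 8 ∧
    (∀ x, Gm x → ∀ w, eval ((mat x).mulVec w) f = eval w f) ∧ eval v f ≠ 0 := by
  by_contra hc
  push Not at hc
  have h4 : ∀ x, Gm x → ∀ i, psi (x.a i) ^ 4 = psi (4 * x.a 0) := fun x hx i => by
    rw [psi_pow, hx.2.1 0, ← hx.2.1 i]; rfl
  have h8 : ∀ x : Mono4, psi (4 * x.a 0) * psi (4 * x.a 0) = 1 := fun x => by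
    rw [← AddChar.map_add_eq_mul, ← add_mul, show (4 + 4 : ZMod 8) = 0 from rfl, zero_mul,
      AddChar.map_zero_eq_one]
  have e0 : ∀ w : Fin 4 → ℂ, eval w (∑ i, X i ^ 8) = ∑ i, w i ^ 8 := fun w => by simp
  have e1 : ∀ w : Fin 4 → ℂ, eval w ((∑ i, X i ^ 4) ^ 2) = (∑ i, w i ^ 4) ^ 2 := fun w => by simp
  have e2 : ∀ w : Fin 4 → ℂ, eval w (∑ i, X i ^ 4 * X (i + 2) ^ 4) =
      ∑ i, w i ^ 4 * w (i + 2) ^ 4 := fun w => by simp
  have e3 : ∀ w : Fin 4 → ℂ, eval w ((∏ i, X i) ^ 2) = (∏ i, w i) ^ 2 := fun w => by simp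
  refine hv (oct_free ((e0 v).symm.trans (hc _ ?_ fun x hx w => ?_))
    ((e1 v).symm.trans (hc _ ?_ fun x hx w => ?_)) ((e2 v).symm.trans (hc _ ?_ fun x hx w => ?_))
    ((e3 v).symm.trans (hc _ ?_ fun x hx w => ?_)))
  · exact IsHomogeneous.sum _ _ _ fun i _ => isHomogeneous_X_pow i 8
  · simp only [e0, mat_mulVec, mul_pow, psi_pow_eight, one_mul]
    exact Equiv.sum_comp x.p fun i => w i ^ 8
  · exact (IsHomogeneous.sum (R := ℂ) _ _ 4 fun i _ => isHomogeneous_X_pow i 4).pow 2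
  · simp only [e1, mat_mulVec, mul_pow, h4 x hx]
    rw [← Finset.mul_sum, Equiv.sum_comp x.p fun i => w i ^ 4, mul_pow, sq, h8, one_mul]
  · exact IsHomogeneous.sum _ _ 8 fun i _ =>
      (isHomogeneous_X_pow i 4).mul (isHomogeneous_X_pow (i + 2) 4)
  · simp only [e2, mat_mulVec, mul_pow, h4 x hx, hx.1.1]
    rw [← Equiv.sum_comp x.p fun i => w i ^ 4 * w (i + 2) ^ 4]
    exact Finset.sum_congr rfl fun i _ => by rw [mul_mul_mul_comm, h8, one_mul]
  · have h := (IsHomogeneous.prod Finset.univ _ (fun _ => 1)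
      fun (i : Fin 4) _ => isHomogeneous_X ℂ i).pow 2
    simpa using h
  · simp only [e3, mat_mulVec]
    rw [Finset.prod_mul_distrib, ← psi_sum, hx.2.2.2, Equiv.prod_comp x.p w, mul_pow, sq, h8,
      one_mul]

/-- The multiplicity of the eigenvalue `z`. -/
noncomputable def mult (x : Mono4) (z : ℂ) : ℕ :=
  Module.finrank ℂ (Module.End.eigenspace (Matrix.toLin' (mat x)) z)

lemma mult_twist (x : Mono4) (z j : ZMod 8) :
    mult (twist x z) (psi j) = mult x (psi (j - 2 * z)) := by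
  have h : psi j = psi (2 * z) * psi (j - 2 * z) := by
    rw [← AddChar.map_add_eq_mul, add_sub_cancel]
  have h1 : Module.End.eigenspace (Matrix.toLin' (mat (twist x z))) (psi j) =
      Module.End.eigenspace (Matrix.toLin' (mat x)) (psi (j - 2 * z)) := by
    ext v
    rw [Module.End.mem_eigenspace_iff, Module.End.mem_eigenspace_iff, mat_twist, map_smul,
      LinearMap.smul_apply, h, mul_smul]
    exact (smul_right_injective _ (psi_ne_zero _)).eq_iff
  rw [mult, h1, mult]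

lemma mult_eq_zero {x : Mono4} {n : ℕ} (hx : x ^ n = 1) {z : ℂ} (hz : z ^ n ≠ 1) :
    mult x z = 0 := by
  rw [mult, Submodule.finrank_eq_zero, Submodule.eq_bot_iff]
  intro v hv
  by_contra h0
  have h1 := Module.End.HasEigenvector.pow_apply ⟨hv, h0⟩ n
  rw [← Matrix.toLin'_pow, ← map_pow, hx, map_one, Matrix.toLin'_one, LinearMap.id_apply] at h1
  exact hz (smul_left_injective ℂ h0 (h1.symm.trans (one_smul ℂ v).symm))

lemma sum_mult_le (x : Mono4) : ∑ t : ZMod 8, mult x (psi t) ≤ 4 :=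
  (sum_finrank_eigenspace_le (mat x) psi_inj).trans (Fintype.card_fin 4).le

lemma mult_le (x : Mono4) (t : ZMod 8) : mult x (psi t) ≤ 4 :=
  (Finset.single_le_sum (f := fun t => mult x (psi t)) (fun _ _ => Nat.zero_le _)
    (Finset.mem_univ t)).trans (sum_mult_le x)

end Mono4

end Pool.Agent.Lib.MP_954e53_ag
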