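import Pool.Agent.Lib.MP_954e53_ag.Exch

/-! Permuting and exchanging homogeneous regular sequences of one degree. -/

namespace Pool.Agent.Lib.MP_954e53_ag

variable {k S : Type*} [Field k] [CommRing S] [Algebra k S]

lemma b2_idl_perm {L L' : List (ℕ × S)} (h : L.Perm L') (J : Ideal S) : idl J L = idl J L' :=
  le_antisymm (idl_le (le_idl _ _) fun _ hp => mem_idl _ (h.mem_iff.1 hp))
    (idl_le (le_idl _ _) fun _ hp => mem_idl _ (h.mem_iff.2 hp))

lemma b2_reg_top (L : List (ℕ × S)) : Reg (⊤ : Ideal S) L := by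
  induction L with
  | nil => trivial
  | cons p L ih => exact ⟨top_le_iff.1 (le_col _ _), by rwa [top_sup_eq]⟩

lemma b2_sup_congr {J : Ideal S} {a b : S} (h : a - b ∈ J) :
    J ⊔ Ideal.span {a} = J ⊔ Ideal.span {b} := by
  apply le_antisymm
  · refine sup_le le_sup_left ((Ideal.span_singleton_le_iff_mem _).2 ?_)
    exact mem_sup_span.2 ⟨1, by rwa [mul_one]⟩
  · refine sup_le le_sup_left ((Ideal.span_singleton_le_iff_mem _).2 ?_)
    exact mem_sup_span.2 ⟨1, by rw [mul_one, ← neg_sub]; exact neg_mem h⟩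

lemma b2_reg_congr {e : ℕ} (φ : S → S) (L : List S) {J : Ideal S} (h : ∀ a ∈ L, a - φ a ∈ J)
    (hr : Reg J (L.map (Prod.mk e))) : Reg J ((L.map φ).map (Prod.mk e)) := by
  induction L generalizing J with
  | nil => trivial
  | cons a L ih =>
    have h1 := h a List.mem_cons_self
    refine ⟨le_antisymm (fun f hf => ?_) (le_col _ _), ?_⟩
    · refine reg_cancel hr.1 ?_
      have := add_mem (mem_col.1 hf) (J.mul_mem_right f h1)
      convert this using 1
      ring
    · have h2 := ih (J := J ⊔ Ideal.span {a})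
        (fun b hb => Ideal.mem_sup_left (h b (List.mem_cons_of_mem _ hb))) hr.2
      rwa [b2_sup_congr h1] at h2

variable {𝒜 : ℕ → Submodule k S} [GradedAlgebra 𝒜]

lemma b2_reg_perm {L L' : List (ℕ × S)} (h : L.Perm L') (hL : ∀ p ∈ L, 0 < p.1 ∧ p.2 ∈ 𝒜 p.1)
    {J : Ideal S} (hJ : J.IsHomogeneous 𝒜) (hr : Reg J L) : Reg J L' := by
  induction h generalizing J with
  | nil => trivial
  | cons p _ ih =>
    exact ⟨hr.1, ih (fun q hq => hL q (List.mem_cons_of_mem _ hq))
      (sup_hom hJ (hL p List.mem_cons_self).2) hr.2⟩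
  | swap p q L =>
    have hq := hL q List.mem_cons_self
    have hp := hL p (List.mem_cons_of_mem _ List.mem_cons_self)
    obtain ⟨h1, h2⟩ := swap_reg hJ hq.1 hq.2 hp.2 hr.1 hr.2.1
    refine ⟨h1, h2, ?_⟩
    rw [sup_right_comm]
    exact hr.2.2
  | trans h1 _ ih1 ih2 =>
    exact ih2 (fun q hq => hL q (h1.mem_iff.2 hq)) hJ (ih1 hL hJ hr)

lemma b2_idl_ne_top {L : List (ℕ × S)} (hL : ∀ p ∈ L, 0 < p.1 ∧ p.2 ∈ 𝒜 p.1)
    {J : Ideal S} (hJ : J.IsHomogeneous 𝒜) (hne : J ≠ ⊤) : idl J L ≠ ⊤ := by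
  induction L generalizing J with
  | nil => exact hne
  | cons p L ih =>
    have hp := hL p List.mem_cons_self
    refine ih (fun q hq => hL q (List.mem_cons_of_mem _ hq)) (sup_hom hJ hp.2) fun h => hne ?_
    rw [Ideal.eq_top_iff_one] at h ⊢
    exact mem_sup_hom_lt hJ hp.2 hp.1 SetLike.GradedOne.one_mem h

omit [GradedAlgebra 𝒜] in
lemma b2_dg {e : ℕ} (he : 0 < e) {L : List S} (h : ∀ a ∈ L, a ∈ 𝒜 e) :
    ∀ p ∈ L.map (Prod.mk e), 0 < p.1 ∧ p.2 ∈ 𝒜 p.1 := by
  intro p hp
  obtain ⟨a, ha, rfl⟩ := List.mem_map.1 hp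
  exact ⟨he, h a ha⟩

lemma b2_span_le (k : Type*) [Field k] [Algebra k S] (e : ℕ) (J : Ideal S) (y : List S) {a : S}
    (h : a ∈ J.restrictScalars k ⊔ Submodule.span k {x | x ∈ y}) :
    a ∈ idl J (y.map (Prod.mk e)) := by
  have : J.restrictScalars k ⊔ Submodule.span k {x | x ∈ y} ≤
      (idl J (y.map (Prod.mk e))).restrictScalars k :=
    sup_le (fun x hx => le_idl J _ hx) (Submodule.span_le.2 fun x hx =>
      mem_idl J (p := (e, x)) (List.mem_map_of_mem hx))
  exact this h

theorem b2_exch {e : ℕ} (he : 0 < e) (y : List S) {J : Ideal S} (hJ : J.IsHomogeneous 𝒜)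
    (z : List S) (hy : ∀ a ∈ y, a ∈ 𝒜 e) (hz : ∀ a ∈ z, a ∈ 𝒜 e) (hlen : z.length = y.length)
    (hsp : ∀ a ∈ z, a ∈ J.restrictScalars k ⊔ Submodule.span k {x | x ∈ y})
    (hr : Reg J (z.map (Prod.mk e))) :
    Reg J (y.map (Prod.mk e)) ∧ idl J (y.map (Prod.mk e)) ≤ idl J (z.map (Prod.mk e)) := by
  classical
  induction y generalizing z with
  | nil => exact ⟨trivial, le_idl _ _⟩
  | cons y1 y ih =>
    by_cases hJt : J = ⊤
    · subst hJt
      exact ⟨b2_reg_top _, le_top.trans (le_idl _ _)⟩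
    have hy' : ∀ a ∈ y, a ∈ 𝒜 e := fun a ha => hy a (List.mem_cons_of_mem _ ha)
    set W := J.restrictScalars k ⊔ Submodule.span k {x | x ∈ y} with hW
    by_cases hall : ∀ a ∈ z, a ∈ W
    · exfalso
      obtain rfl | ⟨z', w, rfl⟩ := List.eq_nil_or_concat' z
      · simp at hlen
      rw [List.map_append, reg_append] at hr
      have hz' : ∀ a ∈ z', a ∈ 𝒜 e := fun a ha => hz a (List.mem_append_left _ ha)
      have h1 := (ih z' hy' hz' (by simpa using hlen)
        (fun a ha => hall a (List.mem_append_left _ ha)) hr.1).2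
      have h2 := h1 (b2_span_le k e J y (hall w (by simp)))
      refine b2_idl_ne_top (b2_dg he hz') hJ hJt ((Ideal.eq_top_iff_one _).2 ?_)
      exact reg_cancel hr.2.1 (by rwa [mul_one])
    push Not at hall
    obtain ⟨w, hw, hwW⟩ := hall
    have hco : ∀ b : S, ∃ c : k, b ∈ z → b - c • y1 ∈ W := by
      intro b
      by_cases hb : b ∈ z
      · have h1 := hsp b hb
        have h2 : {x | x ∈ y1 :: y} = insert y1 {x | x ∈ y} := by
          ext x
          simp
        rw [h2, Submodule.span_insert, sup_left_comm, ← hW] at h1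
        obtain ⟨u, hu, v, hv, rfl⟩ := Submodule.mem_sup.1 h1
        obtain ⟨c, rfl⟩ := Submodule.mem_span_singleton.1 hu
        exact ⟨c, fun _ => by simpa using hv⟩
      · exact ⟨0, fun h => absurd h hb⟩
    choose cf hcf using hco
    have ha : cf w ≠ 0 := fun h => hwW (by simpa [h] using hcf w hw)
    set φ : S → S := fun b => b - (cf b / cf w) • w with hφ
    have hperm := List.perm_cons_erase hw
    have hmem : ∀ b ∈ z.erase w, b ∈ z := fun b hb => List.mem_of_mem_erase hb
    have hφW : ∀ a ∈ (z.erase w).map φ, a ∈ W := by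
      intro a ha'
      obtain ⟨b, hb, rfl⟩ := List.mem_map.1 ha'
      have h1 := sub_mem (hcf b (hmem b hb)) (W.smul_mem (cf b / cf w) (hcf w hw))
      convert h1 using 1
      rw [smul_sub, smul_smul, div_mul_cancel₀ _ ha]
      simp only [hφ]
      ring
    have hφA : ∀ a ∈ (z.erase w).map φ, a ∈ 𝒜 e := by
      intro a ha'
      obtain ⟨b, hb, rfl⟩ := List.mem_map.1 ha'
      exact sub_mem (hz b (hmem b hb)) ((𝒜 e).smul_mem _ (hz w hw))
    have hr1 := b2_reg_perm (hperm.map (Prod.mk e)) (b2_dg he hz) hJ hr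
    have hr2 : Reg J ((w :: (z.erase w).map φ).map (Prod.mk e)) := by
      refine ⟨hr1.1, b2_reg_congr φ _ (fun b _ => ?_) hr1.2⟩
      simp only [hφ, sub_sub_cancel]
      exact Ideal.mem_sup_right (smul_mem_ideal _ _ (Ideal.mem_span_singleton_self w))
    have hr3 := b2_reg_perm (((List.perm_append_singleton w ((z.erase w).map φ)).symm).map
      (Prod.mk e)) (b2_dg he (by
        intro a ha'
        rcases List.mem_cons.1 ha' with rfl | ha'
        · exact hz _ hw
        · exact hφA a ha')) hJ hr2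
    rw [List.map_append, reg_append] at hr3
    obtain ⟨h1, h2⟩ := ih _ hy' hφA (by
      have := hperm.length_eq
      simp only [List.length_cons, List.length_map] at this hlen ⊢
      omega) hφW hr3.1
    have hK : idl J (((z.erase w).map φ).map (Prod.mk e)) = idl J (y.map (Prod.mk e)) := by
      refine le_antisymm (idl_le (le_idl _ _) fun p hp => ?_) h2
      obtain ⟨a, ha', rfl⟩ := List.mem_map.1 hp
      exact b2_span_le k e J y (hφW a ha')
    have hwK := b2_span_le k e J y (hcf w hw)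
    have h3 : col (idl J (y.map (Prod.mk e))) y1 = idl J (y.map (Prod.mk e)) := by
      refine le_antisymm (fun f hf => ?_) (le_col _ _)
      have h4 := hr3.2.1
      rw [hK] at h4
      refine reg_cancel h4 ?_
      have := add_mem (smul_mem_ideal _ (cf w) (mem_col.1 hf)) (Ideal.mul_mem_right f _ hwK)
      convert this using 1
      rw [sub_mul, smul_mul_assoc]
      ring
    have hle : idl J (y.map (Prod.mk e)) ≤ idl J (z.map (Prod.mk e)) := by
      rw [← hK]
      refine idl_le (le_idl _ _) fun p hp => ?_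
      obtain ⟨a, ha', rfl⟩ := List.mem_map.1 hp
      obtain ⟨b, hb, rfl⟩ := List.mem_map.1 ha'
      exact sub_mem (mem_idl J (p := (e, b)) (List.mem_map_of_mem (hmem b hb)))
        (smul_mem_ideal _ _ (mem_idl J (p := (e, w)) (List.mem_map_of_mem hw)))
    constructor
    · refine b2_reg_perm ((List.perm_append_singleton y1 y).map (Prod.mk e)) (b2_dg he ?_) hJ ?_
      · intro a ha'
        exact hy a ((List.perm_append_singleton y1 y).mem_iff.1 ha')
      · rw [List.map_append, reg_append]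
        exact ⟨h1, h3, trivial⟩
    · refine idl_le (le_idl _ _) fun p hp => ?_
      obtain ⟨a, ha', rfl⟩ := List.mem_map.1 hp
      rcases List.mem_cons.1 ha' with rfl | ha'
      · have := smul_mem_ideal _ (cf w)⁻¹
          (sub_mem (mem_idl J (p := (e, w)) (List.mem_map_of_mem hw)) (hle hwK))
        simpa [smul_smul, inv_mul_cancel₀ ha] using this
      · exact hle (mem_idl J (p := (e, a)) (List.mem_map_of_mem ha'))

lemma b2_soc [Infinite k] [IsNoetherianRing S] {N : ℕ} (hN : 0 < N) (hV : Bpf 𝒜 (𝒜 N))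
    {L : List (ℕ × S)} (hL : ∀ p ∈ L, 0 < p.1 ∧ p.2 ∈ 𝒜 p.1) {J : Ideal S}
    (hJ : J.IsHomogeneous 𝒜) (h : Good 𝒜 J L.length) (hr : Reg J L) : Soc 𝒜 (idl J L) := by
  induction L generalizing J with
  | nil => exact good_zero.1 h
  | cons p L ih =>
    have hp := hL p List.mem_cons_self
    exact ih (fun q hq => hL q (List.mem_cons_of_mem _ hq)) (sup_hom hJ hp.2)
      (Good.exchange hN hV hJ h hp.1 hp.2 hr.1) hr.2

lemma b2_idl_map {ι : Type*} (e : ℕ) (y : ι → S) (s : Set ι) (L : List ι) :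
    idl (Ideal.span (y '' s)) ((L.map y).map (Prod.mk e)) =
      Ideal.span (y '' (s ∪ {i | i ∈ L})) := by
  apply le_antisymm
  · refine idl_le (Ideal.span_mono (Set.image_mono Set.subset_union_left)) fun p hp => ?_
    obtain ⟨a, ha, rfl⟩ := List.mem_map.1 hp
    obtain ⟨i, hi, rfl⟩ := List.mem_map.1 ha
    exact Ideal.subset_span ⟨i, Or.inr hi, rfl⟩
  · refine Ideal.span_le.2 ?_
    rintro _ ⟨i, hi | hi, rfl⟩
    · exact le_idl _ _ (Ideal.subset_span ⟨i, hi, rfl⟩)
    · exact mem_idl _ (p := (e, y i)) (List.mem_map_of_mem (List.mem_map_of_mem hi))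

lemma b2_reg_of_family {ι : Type*} (e : ℕ) (y : ι → S)
    (h : ∀ (s : Set ι) (l : ι), l ∉ s → ∀ f, y l * f ∈ Ideal.span (y '' s) →
      f ∈ Ideal.span (y '' s)) (L : List ι) (hL : L.Nodup) (s : Set ι) (hs : ∀ i ∈ L, i ∉ s) :
    Reg (Ideal.span (y '' s)) ((L.map y).map (Prod.mk e)) := by
  induction L generalizing s with
  | nil => trivial
  | cons l L ih =>
    refine ⟨le_antisymm (fun f hf => h s l (hs l List.mem_cons_self) f hf) (le_col _ _), ?_⟩
    have h1 : Ideal.span (y '' s) ⊔ Ideal.span {y l} = Ideal.span (y '' insert l s) := by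
      rw [Set.image_insert_eq, Ideal.span_insert, sup_comm]
    rw [List.nodup_cons] at hL
    have h2 := ih hL.2 (insert l s) fun i hi hi' => by
      rcases hi' with rfl | hi'
      · exact hL.1 hi
      · exact hs i (List.mem_cons_of_mem _ hi) hi'
    rwa [← h1] at h2

lemma b2_family_of_reg {ι : Type*} [Fintype ι] {e : ℕ} (he : 0 < e) {y : ι → S}
    (hy : ∀ i, y i ∈ 𝒜 e) (hr : Reg ⊥ ((Finset.univ.toList.map y).map (Prod.mk e)))
    (s : Set ι) (l : ι) (hl : l ∉ s) (f : S) (hf : y l * f ∈ Ideal.span (y '' s)) :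
    f ∈ Ideal.span (y '' s) := by
  classical
  set A := (Finset.univ.filter (· ∈ s)).toList
  set B := (Finset.univ.filter (fun i => i ∉ s ∧ i ≠ l)).toList
  have hp : (Finset.univ : Finset ι).toList.Perm (A ++ l :: B) := by
    refine (List.perm_ext_iff_of_nodup (Finset.nodup_toList _) ?_).2 fun i => ?_
    · refine List.nodup_append.2 ⟨Finset.nodup_toList _,
        List.nodup_cons.2 ⟨by simp [B], Finset.nodup_toList _⟩, ?_⟩
      intro a ha b hb hab
      subst hab
      simp only [A, B, Finset.mem_toList, Finset.mem_filter, List.mem_cons] at ha hb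
      rcases hb with rfl | hb
      · exact hl ha.2
      · exact hb.2.1 ha.2
    · simp only [A, B, Finset.mem_toList, Finset.mem_univ, List.mem_append, Finset.mem_filter,
        List.mem_cons, true_and, true_iff]
      tauto
  have h1 := b2_reg_perm ((hp.map y).map (Prod.mk e)) (b2_dg he fun a ha => by
    obtain ⟨i, -, rfl⟩ := List.mem_map.1 ha
    exact hy i) (Ideal.IsHomogeneous.bot 𝒜) hr
  rw [List.map_append, List.map_append, reg_append] at h1
  have h2 := b2_idl_map e y ∅ A
  rw [Set.image_empty, Ideal.span_empty] at h2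
  have h3 : (∅ ∪ {i | i ∈ A} : Set ι) = s := by
    ext i
    simp [A]
  rw [h2, h3] at h1
  exact reg_cancel h1.2.1 hf

end Pool.Agent.Lib.MP_954e53_ag
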