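import Pool.Agent.Lib.MP_954e53_ag.Defs

/-! Section rings and the criterion of Kempf for rational singularities. -/

namespace Pool.Agent.Lib.MP_954e53_ag

variable {k S : Type*} [Field k] [CommRing S] [Algebra k S]

/-- At every point of `X = Proj S` some quotient of forms is a unit of degree one. So `O(1)` is
invertible with `O(1) ^ n = O(n)`. -/
def UnitsOfDegreeOne (𝒜 : ℕ → Submodule k S) [GradedAlgebra 𝒜] : Prop :=
  ∀ P : ProjectiveSpectrum 𝒜, ∃ m, (∃ a ∈ 𝒜 m, a ∉ P.asHomogeneousIdeal) ∧
    ∃ b ∈ 𝒜 (m + 1), b ∉ P.asHomogeneousIdeal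

/-- The fraction `z` is a global section of `O(n)` on `Proj S`. -/
def IsGlobalSection (𝒜 : ℕ → Submodule k S) [GradedAlgebra 𝒜] (n : ℕ) {K : Type*} [CommRing K]
    (f : S → K) (z : K) : Prop :=
  ∀ P : ProjectiveSpectrum 𝒜, ∃ m, ∃ a ∈ 𝒜 (m + n), ∃ b ∈ 𝒜 m, b ∉ P.asHomogeneousIdeal ∧
    z * f b = f a

/-- `S` is the section ring of `L = O(1)` on the projective variety `X = Proj S`. -/
def SectionRing (𝒜 : ℕ → Submodule k S) [GradedAlgebra 𝒜] : Prop :=
  (∃ n, GeneratedBy 𝒜 n) ∧ UnitsOfDegreeOne 𝒜 ∧
    ∀ (n : ℕ) (z : FractionRing S), IsGlobalSection 𝒜 n (algebraMap S (FractionRing S)) z →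
      ∃ s ∈ 𝒜 n, algebraMap S (FractionRing S) s = z

/-- The form `u v_1 ∧ ... ∧ v_d`. -/
noncomputable def wedge {K M : Type*} [CommRing K] [AddCommGroup M] [Module K M] {d : ℕ} (u : K)
    (v : Fin d → M) : ExteriorAlgebra K M :=
  u • ExteriorAlgebra.ιMulti K d v

/-- The finite sums of forms `u D a_1 ∧ ... ∧ D a_d` with `u` and all `a_i` in `O`. -/
def spanForms {K M : Type*} [CommRing K] [AddCommGroup M] [Module K M] (D : K → M) (d : ℕ)
    (O : Set K) : Set (ExteriorAlgebra K M) :=
  {η | ∃ (n : ℕ) (u : Fin n → K) (a : Fin n → Fin d → K), (∀ j, u j ∈ O ∧ ∀ i, a j i ∈ O) ∧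
    η = ∑ j, wedge (u j) fun i => D (a j i)}

/-- The Kaehler differential `da` of `K` over `k`. -/
noncomputable def dif (k K : Type*) [CommRing k] [CommRing K] [Algebra k K] (a : K) : Ω[K⁄k] :=
  KaehlerDifferential.D k K a

/-- The `d`-forms of `K` over `k` that are regular at the subring `O`. For `O = K` these are all
rational `d`-forms. -/
def regularForms (k K : Type*) [CommRing k] [CommRing K] [Algebra k K] (d : ℕ) (O : Set K) :
    Set (ExteriorAlgebra K Ω[K⁄k]) :=
  spanForms (dif k K) d O

/-- The local ring `S_p` inside the field of fractions `K`. -/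
def localRing (K : Type*) [CommRing K] [Algebra S K] (p : Ideal S) : Set K :=
  {z | ∃ a b : S, b ∉ p ∧ z * algebraMap S K b = algebraMap S K a}

/-- A divisorial valuation ring of a function field of transcendence degree `d`: a discrete
valuation ring containing `d - 1` elements whose residues are algebraically independent. -/
def Divisorial (k : Type*) {K : Type*} [Field k] [Field K] [Algebra k K] (d : ℕ)
    (O : ValuationSubring K) : Prop :=
  IsDiscreteValuationRing O ∧ ∃ t : Fin (d - 1) → K,
    ∀ q : MvPolynomial (Fin (d - 1)) k, q ≠ 0 → O.valuation (MvPolynomial.aeval t q) = 1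

/-- Every rational `d`-form that is regular at all primes of height one of `S` is regular at every
divisorial valuation ring of `K` containing `S`. -/
def ExtendIn (k S K : Type*) [Field k] [CommRing S] [Field K] [Algebra k K] [Algebra S K]
    (d : ℕ) : Prop :=
  ∀ η ∈ regularForms k K d Set.univ,
    (∀ p : Ideal S, p.IsPrime → p.height = 1 → η ∈ regularForms k K d (localRing K p)) →
    ∀ O : ValuationSubring K, (∀ s : S, algebraMap S K s ∈ O) → Divisorial k d O →
      η ∈ regularForms k K d O

/-- The condition `f_* ω_Y = ω_S` of Kempf for a domain of dimension `d`. -/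
def CanonicalFormsExtend (k S : Type*) [Field k] [CommRing S] [IsDomain S] [Algebra k S]
    (d : ℕ) : Prop :=
  ExtendIn k S (FractionRing S) d

end Pool.Agent.Lib.MP_954e53_ag
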