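import Pool.Agent.Lib.MP_954e53_ag.CexValB
import Pool.Agent.Lib.MP_954e53_ag.CexDer

/-! Descent of regular top forms along a finite extension of valued fields. -/

namespace Pool.Agent.Lib.MP_954e53_ag

lemma e1_transcendental {k L Γ : Type*} [Field k] [Field L] [Algebra k L]
    [LinearOrderedCommGroupWithZero Γ] (ν : Valuation L Γ)
    (hk : ∀ c : k, c ≠ 0 → ν (algebraMap k L c) = 1) {p : L} (hp0 : p ≠ 0) (hp : ν p < 1) :
    Transcendental k p := by
  have hk' : ∀ c : k, ν (algebraMap k L c) ≤ 1 := fun c => by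
    rcases eq_or_ne c 0 with rfl | hc
    · simp
    · exact (hk c hc).le
  rintro ⟨g, hg, hgp⟩
  obtain ⟨h, hh, hdvd⟩ := Polynomial.exists_eq_pow_rootMultiplicity_mul_and_not_dvd g hg 0
  rw [map_zero, sub_zero] at hh hdvd
  rw [hh, map_mul, map_pow, Polynomial.aeval_X, mul_eq_zero] at hgp
  have h1 := e1_aeval_sub_lt ν hk' hp h
  rw [hgp.resolve_left (pow_ne_zero _ hp0), zero_sub, Valuation.map_neg,
    hk _ (fun h0 => hdvd (Polynomial.X_dvd_iff.2 h0))] at h1
  exact lt_irrefl _ h1

lemma e1_der_adjoin {L : Type*} [Field L] [Algebra ℂ L] (D : Derivation ℂ L L) (s : Set L)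
    (W : IntermediateField ℂ L) (hW : IntermediateField.adjoin ℂ s ≤ W) (I : Set L)
    (h0 : (0 : L) ∈ I) (hadd : ∀ a ∈ I, ∀ b ∈ I, a + b ∈ I) (hmul : ∀ a ∈ W, ∀ b ∈ I, a * b ∈ I)
    (hs : ∀ x ∈ s, D x ∈ I) : ∀ x ∈ IntermediateField.adjoin ℂ s, D x ∈ I := by
  intro x hx
  induction hx using IntermediateField.adjoin_induction with
  | mem x hx => exact hs x hx
  | algebraMap c => rw [Derivation.map_algebraMap]; exact h0
  | add x y _ _ hx hy => rw [map_add]; exact hadd _ hx _ hy
  | inv x hx0 hx =>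
    rw [Derivation.leibniz_inv, smul_eq_mul]
    exact hmul _ (neg_mem (pow_mem (inv_mem (hW hx0)) 2)) _ hx
  | mul x y hx0 hy0 hx hy =>
    rw [Derivation.leibniz, smul_eq_mul, smul_eq_mul]
    exact hadd _ (hmul _ (hW hx0) _ hy) _ (hmul _ (hW hy0) _ hx)

lemma e1_det_mem {L : Type*} [Field L] (V : ValuationSubring L) {n : ℕ}
    (M : Matrix (Fin n) (Fin n) L) (hM : ∀ i j, M i j ∈ V) : M.det ∈ V := by
  rw [Matrix.det_apply']
  exact sum_mem fun σ _ => mul_mem (intCast_mem _ _) (prod_mem fun i _ => hM _ _)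

/-- Descent along a finite extension of valued fields. -/
theorem exists_valuation_lift {K L : Type} [Field K] [Field L] [Algebra ℂ K] [Algebra ℂ L]
    [Algebra K L] [IsScalarTower ℂ K L] [Algebra.EssFiniteType ℂ L] {e : ℕ}
    (htr : Algebra.trdeg ℂ L ≤ (e + 1 : ℕ)) (O : ValuationSubring K) [IsDiscreteValuationRing O]
    (t : Fin e → K) (ht : ∀ q : MvPolynomial (Fin e) ℂ, q ≠ 0 →
      O.valuation (MvPolynomial.aeval t q) = 1) :
    ∃ (π : K) (O' : ValuationSubring L) (D : Fin (e + 1) → Derivation ℂ L L),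
      π ∈ O ∧ IsTranscendenceBasis ℂ (Fin.cons π t : Fin (e + 1) → K) ∧
      (∀ z : K, z ∈ O → algebraMap K L z ∈ O') ∧
      (∀ i j, D i (algebraMap K L ((Fin.cons π t : Fin (e + 1) → K) j)) = if j = i then 1 else 0) ∧
      ∀ u : K, algebraMap K L u ∈ AddSubgroup.closure {z : L | ∃ v ∈ O', ∃ a : Fin (e + 1) → L,
        (∀ j, a j ∈ O') ∧ z = v * (Matrix.of fun i j => D i (a j)).det} → u ∈ O := by
  classical
  obtain ⟨ϖ, hϖ⟩ := IsDiscreteValuationRing.exists_irreducible O
  obtain ⟨V, hV, hloc⟩ :=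
    IsLocalRing.exists_factor_valuationRing ((algebraMap K L).comp O.subtype)
  have hOV : ∀ z : K, z ∈ O → algebraMap K L z ∈ V := fun z hz => hV ⟨z, hz⟩
  set p : L := algebraMap K L (ϖ : K) with hpdef
  have hinj := (algebraMap K L).injective
  have hp0 : p ≠ 0 := by
    rw [hpdef, map_ne_zero_iff _ hinj]
    exact fun h => hϖ.ne_zero (Subtype.ext h)
  have hp : V.valuation p < 1 := by
    have h1 : ¬IsUnit (((algebraMap K L).comp O.subtype).codRestrict V.toSubring hV ϖ) :=
      fun h => hϖ.not_isUnit (hloc.map_nonunit _ h)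
    exact (V.valuation_lt_one_iff ⟨p, hV ϖ⟩).1 h1
  have hunit : ∀ z : K, O.valuation z = 1 → V.valuation (algebraMap K L z) = 1 := by
    intro z hz
    have hz0 : z ≠ 0 := by rintro rfl; simp at hz
    have h1 := (V.valuation_le_one_iff _).2 (hOV z ((O.valuation_le_one_iff _).1 hz.le))
    have h2 := (V.valuation_le_one_iff _).2 (hOV z⁻¹ ((O.valuation_le_one_iff _).1
      (by rw [map_inv₀, hz, inv_one])))
    rw [map_inv₀, map_inv₀, inv_le_one₀ (zero_lt_iff.2 ((Valuation.ne_zero_iff _).2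
      ((map_ne_zero_iff _ hinj).2 hz0)))] at h2
    exact le_antisymm h1 h2
  let τ : Fin e → L := fun i => algebraMap K L (t i)
  have hτ : ∀ q : MvPolynomial (Fin e) ℂ, q ≠ 0 → V.valuation (MvPolynomial.aeval τ q) = 1 := by
    intro q hq
    have h1 : MvPolynomial.aeval τ q = algebraMap K L (MvPolynomial.aeval t q) :=
      (MvPolynomial.aeval_algebraMap_apply L t q)
    rw [h1]
    exact hunit _ (ht q hq)
  let k := IntermediateField.adjoin ℂ (Set.range τ)
  have hk1 : ∀ c : k, c ≠ 0 → V.valuation (algebraMap k L c) = 1 := by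
    intro c hc
    obtain ⟨r, s, hrs⟩ := (IntermediateField.mem_adjoin_range_iff ℂ τ c).1 c.2
    have hc' : (c : L) ≠ 0 := fun h => hc (Subtype.ext h)
    have h1 : algebraMap k L c = (c : L) := rfl
    rw [hrs] at hc'
    have hr : r ≠ 0 := by rintro rfl; simp at hc'
    have hs : s ≠ 0 := by rintro rfl; simp at hc'
    rw [h1, hrs, map_div₀, hτ r hr, hτ s hs, div_one]
  have hk : ∀ c : k, algebraMap k L c ∈ V := fun c => by
    rcases eq_or_ne c 0 with rfl | hc
    · rw [map_zero]; exact zero_mem _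
    · exact (V.valuation_le_one_iff _).1 (hk1 c hc).le
  have hτind : AlgebraicIndependent ℂ τ := by
    rw [algebraicIndependent_iff]
    intro q hq
    by_contra h
    have := hτ q h
    rw [hq, map_zero] at this
    exact zero_ne_one this
  have hsub : Algebra.adjoin ℂ (Set.range τ) ≤ k.toSubalgebra :=
    IntermediateField.algebra_adjoin_le_adjoin ℂ _
  have htrans : Transcendental (Algebra.adjoin ℂ (Set.range τ)) p := by
    intro h
    refine e1_transcendental V.valuation hk1 hp0 hp ?_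
    exact h.ringHom_of_comp_eq (Subalgebra.inclusion hsub).toRingHom (RingHom.id L)
      (Subalgebra.inclusion_injective hsub) rfl
  let x : Fin (e + 1) → L := fun j => algebraMap K L ((Fin.cons (ϖ : K) t : Fin (e + 1) → K) j)
  have hx0 : x 0 = p := rfl
  have hxs : ∀ i : Fin e, x i.succ = τ i := fun i => rfl
  have hxind : AlgebraicIndependent ℂ x := by
    have h1 := ((hτind.option_iff_transcendental p).2 htrans).comp (finSuccEquiv e)
      (finSuccEquiv e).injective
    convert h1 using 1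
    funext j
    refine Fin.cases ?_ (fun i => ?_) j
    · simp [hx0]
    · simp [hxs]
  have hcard : ((e + 1 : ℕ) : Cardinal) = Cardinal.mk (Fin (e + 1)) := by simp
  have hxb : IsTranscendenceBasis ℂ x :=
    hxind.isTranscendenceBasis_of_trdeg_le_of_finite (hcard ▸ htr)
  have hKind : AlgebraicIndependent ℂ (Fin.cons (ϖ : K) t : Fin (e + 1) → K) :=
    AlgebraicIndependent.of_comp (IsScalarTower.toAlgHom ℂ K L) hxind
  have hKb : IsTranscendenceBasis ℂ (Fin.cons (ϖ : K) t : Fin (e + 1) → K) :=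
    hKind.isTranscendenceBasis_of_trdeg_le_of_finite (hcard ▸
      (trdeg_le_of_injective (IsScalarTower.toAlgHom ℂ K L) hinj).trans htr)
  have hsub2 : Algebra.adjoin ℂ (Set.range x) ≤ (Algebra.adjoin k {p}).restrictScalars ℂ := by
    refine Algebra.adjoin_le ?_
    rintro _ ⟨j, rfl⟩
    refine Fin.cases ?_ (fun i => ?_) j
    · exact Algebra.self_mem_adjoin_singleton k p
    · exact (Algebra.adjoin k {p}).algebraMap_mem
        (⟨τ i, IntermediateField.subset_adjoin ℂ _ ⟨i, rfl⟩⟩ : k)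
  have halg : Algebra.IsAlgebraic (Algebra.adjoin k {p}) L := ⟨fun a =>
    (hxb.isAlgebraic.isAlgebraic a).ringHom_of_comp_eq (S := Algebra.adjoin k {p})
      (Subalgebra.inclusion hsub2).toRingHom (RingHom.id L)
      (Subalgebra.inclusion_injective hsub2) rfl⟩
  have hess : Algebra.EssFiniteType k L := Algebra.EssFiniteType.of_comp ℂ k L
  choose D hD using fun i => exists_derivation hxind i
  have hD0 : ∀ c : k, (p • D 0) (algebraMap k L c) = 0 := by
    intro c
    refine e1_der_adjoin (p • D 0) (Set.range τ) ⊤ le_top {0} rfl ?_ ?_ ?_ c c.2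
    · rintro a rfl b rfl; simp
    · rintro a - b rfl; simp
    · rintro _ ⟨i, rfl⟩
      simp [← hxs, hD]
  have hA0 : ∀ a ∈ V, V.valuation (p * D 0 a) < 1 := by
    refine (e1_core p V hk hp0 hp halg (p • D 0) (fun c => ?_) ?_).2 hD0
    · rw [hD0]; exact zero_mem _
    · have h1 : (p • D 0) p = p := by
        rw [Derivation.smul_apply, ← hx0, hD, if_pos rfl, smul_eq_mul, mul_one]
      rw [h1]
  have hAs : ∀ i : Fin e, ∀ a ∈ V, D i.succ a ∈ V := by
    intro i
    refine (e1_core p V hk hp0 hp halg (D i.succ) (fun c => ?_) ?_).1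
    · refine hk ⟨_, e1_der_adjoin (D i.succ) (Set.range τ) k le_rfl k (zero_mem k)
        (fun a ha b hb => add_mem ha hb) (fun a ha b hb => mul_mem ha hb) ?_ c c.2⟩
      rintro _ ⟨j, rfl⟩
      rw [← hxs, hD]
      split_ifs
      · exact one_mem k
      · exact zero_mem k
    · rw [← hx0, hD, if_neg (Fin.succ_ne_zero i).symm, map_zero]
      exact zero_le
  refine ⟨ϖ, V, D, ϖ.2, hKb, hOV, fun i j => hD i j, fun u hu => ?_⟩
  have hlt : V.valuation (p * algebraMap K L u) < 1 := by
    refine AddSubgroup.closure_induction (p := fun z _ => V.valuation (p * z) < 1) ?_ ?_ ?_ ?_ hu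
    · rintro _ ⟨v, hv, a, ha, rfl⟩
      rw [mul_left_comm, map_mul, mul_comm]
      refine mul_lt_one_of_lt_of_le ?_ ((V.valuation_le_one_iff _).2 hv)
      rw [Matrix.det_succ_row_zero, Finset.mul_sum]
      refine V.valuation.map_sum_lt one_ne_zero fun j _ => ?_
      rw [← mul_assoc, mul_left_comm p, map_mul, map_mul, map_pow, Valuation.map_neg, map_one,
        one_pow, one_mul]
      refine mul_lt_one_of_lt_of_le (hA0 _ (ha j)) ((V.valuation_le_one_iff _).2 ?_)
      exact e1_det_mem V _ fun i l => hAs i _ (ha _)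
    · simp
    · intro a b _ _ ha hb
      rw [mul_add]
      exact V.valuation.map_add_lt ha hb
    · intro a _ ha
      rwa [mul_neg, Valuation.map_neg]
  by_contra hu0
  have hune : u ≠ 0 := by rintro rfl; exact hu0 (zero_mem _)
  have hinv : u⁻¹ ∈ O := (O.mem_or_inv_mem u).resolve_left hu0
  have hmax : (⟨u⁻¹, hinv⟩ : O) ∈ IsLocalRing.maximalIdeal O := by
    rw [O.valuation_lt_one_iff]
    refine lt_of_le_of_ne ((O.valuation_le_one_iff _).2 hinv) fun h => hu0 ?_
    rw [← O.valuation_le_one_iff]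
    simp only [map_inv₀, inv_eq_one] at h
    exact h.le
  rw [hϖ.maximalIdeal_eq, Ideal.mem_span_singleton] at hmax
  obtain ⟨o, ho⟩ := hmax
  have ho' : u⁻¹ = (ϖ : K) * o := congrArg Subtype.val ho
  have h1 : p * algebraMap K L u * algebraMap K L o = 1 := by
    rw [hpdef, ← map_mul, ← map_mul, mul_right_comm, ← ho', inv_mul_cancel₀ hune, map_one]
  have h2 := mul_lt_one_of_lt_of_le hlt ((V.valuation_le_one_iff _).2 (hOV _ o.2))
  rw [← map_mul, h1, map_one] at h2
  exact lt_irrefl _ h2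

end Pool.Agent.Lib.MP_954e53_ag
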