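import Mathlib

/-! Linear algebra: a closedness lemma, a resolvent expansion and polarisation. -/

namespace Pool.Agent.Lib.MP_954e53_ag

open Module

variable {k : Type*} [Field k]

lemma exists_dual {Y : Type*} [AddCommGroup Y] [Module k Y] {Q : Submodule k Y} {x : Y}
    (hx : x ∉ Q) : ∃ l : Dual k Y, l x ≠ 0 ∧ ∀ y ∈ Q, l y = 0 := by
  obtain ⟨l, hl, hQ⟩ := Submodule.exists_dual_map_eq_bot_of_notMem hx inferInstance
  refine ⟨l, hl, fun y hy => ?_⟩
  have : l y ∈ Q.map l := ⟨y, hy, rfl⟩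
  rwa [hQ] at this

lemma closed_range {U Y : Type*} [AddCommGroup U] [Module k U] [FiniteDimensional k U]
    [AddCommGroup Y] [Module k Y] (α β : U →ₗ[k] Y) (hα : Function.Injective α) {T : Set k}
    (hT : T.Infinite) {G : Y} (h : ∀ t ∈ T, ∃ b, α b + t • β b = G) : G ∈ LinearMap.range α := by
  by_contra hG
  obtain ⟨l, hl, hl0⟩ := exists_dual hG
  obtain ⟨ρ, hρ⟩ := α.exists_leftInverse_of_injective (LinearMap.ker_eq_bot.2 hα)
  let π : Y →ₗ[k] Y := LinearMap.id - (l G)⁻¹ • l.smulRight G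
  let ψ : End k U := ρ ∘ₗ π ∘ₗ β
  have h1 : ∀ t ∈ T \ {0}, ψ.HasEigenvalue (-t⁻¹) := by
    rintro t ⟨ht, ht0⟩
    have ht0 : t ≠ 0 := ht0
    obtain ⟨b, hb⟩ := h t ht
    have hb0 : b ≠ 0 := by
      rintro rfl
      exact hl (by rw [← hb]; simp)
    refine End.hasEigenvalue_of_hasEigenvector ⟨End.mem_eigenspace_iff.2 ?_, hb0⟩
    have h2 : β b = t⁻¹ • (G - α b) := by
      rw [← hb, add_sub_cancel_left, inv_smul_smul₀ ht0]
    have h3 : π G = 0 := by simp [π, hl]
    have h4 : π (α b) = α b := by simp [π, hl0 _ ⟨b, rfl⟩]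
    have h5 : ρ (α b) = b := LinearMap.congr_fun hρ b
    simp only [ψ, LinearMap.comp_apply, h2, map_smul, map_sub, h3, h4, h5, map_neg, zero_sub,
      smul_neg, neg_smul]
  refine (hT.sdiff (Set.finite_singleton 0)) (Set.Finite.of_finite_image (f := fun t => -t⁻¹)
    (ψ.finite_hasEigenvalue.subset ?_) fun a _ b _ hab => inv_injective (neg_injective hab))
  rintro _ ⟨t, ht, rfl⟩
  exact h1 t ht

variable {B : Type*} [CommRing B] [Algebra k B]

lemma resolvent {σ : B} (hσ : ∀ x, σ * x = 0 → x = 0) (U : Submodule k B) [FiniteDimensional k U]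
    {u g : B} {T : Set k} (hT : T.Infinite) (h : ∀ t ∈ T, ∃ b ∈ U, g = (σ + t • u) * b) (j : ℕ) :
    ∃ c ∈ U, u ^ j * g = σ ^ (j + 1) * c := by
  have hp : ∀ n x, σ ^ n * x = 0 → x = 0 := fun n => by
    induction n with
    | zero => simp
    | succ n ih => exact fun x hx => hσ x (ih _ (by rw [← hx]; ring))
  have hcl : ∀ j, (∀ t ∈ T \ {0}, ∃ b ∈ U, u ^ j * g = σ ^ j * ((σ + t • u) * b)) →
      ∃ c ∈ U, u ^ j * g = σ ^ (j + 1) * c := fun j hj => by
    obtain ⟨c, hc⟩ := closed_range (LinearMap.mul k B (σ ^ (j + 1)) ∘ₗ U.subtype)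
      (LinearMap.mul k B (σ ^ j * u) ∘ₗ U.subtype)
      ((injective_iff_map_eq_zero _).2 fun x hx => Subtype.ext (hp _ _ hx))
      (hT.sdiff (Set.finite_singleton 0)) (G := u ^ j * g) fun t ht => by
        obtain ⟨b, hb, h1⟩ := hj t ht
        refine ⟨⟨b, hb⟩, ?_⟩
        rw [h1]
        simp only [LinearMap.comp_apply, Submodule.subtype_apply, LinearMap.mul_apply',
          Algebra.smul_def]
        ring
    exact ⟨c, c.2, hc.symm⟩
  apply hcl
  induction j with
  | zero => exact fun t ht => by simpa using h t ht.1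
  | succ j ih =>
    obtain ⟨c, hc, h1⟩ := hcl j ih
    intro t ht
    have ht0 : t ≠ 0 := ht.2
    obtain ⟨b, hb, h2⟩ := ih t ht
    refine ⟨t⁻¹ • (c - b), U.smul_mem _ (sub_mem hc hb), ?_⟩
    have h3 : σ * (c - b) = t • (u * b) := by
      refine sub_eq_zero.1 (hp j _ ?_)
      rw [h1] at h2
      simp only [Algebra.smul_def] at h2 ⊢
      linear_combination h2
    have h4 : σ * (t⁻¹ • (c - b)) = u * b := by
      rw [mul_smul_comm, h3, inv_smul_smul₀ ht0]
    linear_combination u * h2 - σ ^ j * (σ + t • u) * h4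

lemma polar_step [CharZero k] {Q : Submodule k B} {a b c : B} {n : ℕ}
    (h : ∀ t : k, (t • b + a) ^ (n + 1) * c ∈ Q) : a ^ n * (c * b) ∈ Q := by
  by_contra hx
  obtain ⟨l, hl, hl0⟩ := exists_dual hx
  let p : Polynomial k := ∑ m ∈ Finset.range (n + 2),
    Polynomial.monomial m (l (b ^ m * a ^ (n + 1 - m) * ((n + 1).choose m : B) * c))
  have h1 : ∀ t, p.eval t = 0 := fun t => by
    rw [← hl0 _ (h t), add_pow, Finset.sum_mul, map_sum, Polynomial.eval_finsetSum]
    refine Finset.sum_congr rfl fun m _ => ?_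
    rw [Polynomial.eval_monomial, smul_pow, smul_mul_assoc, smul_mul_assoc, smul_mul_assoc,
      map_smul, smul_eq_mul, mul_comm]
  have h2 : p = 0 := Polynomial.funext fun t => by rw [h1, Polynomial.eval_zero]
  have h3 := congrArg (Polynomial.coeff · 1) h2
  simp only [p, Polynomial.finsetSum_coeff, Polynomial.coeff_monomial, Finset.sum_ite_eq',
    Finset.mem_range, Polynomial.coeff_zero] at h3
  rw [if_pos (by omega), Nat.choose_one_right, Nat.add_sub_cancel] at h3
  have h4 : b ^ 1 * a ^ n * ((n + 1 : ℕ) : B) * c = ((n + 1 : ℕ) : k) • (a ^ n * (c * b)) := by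
    rw [Algebra.smul_def, map_natCast]; ring
  rw [h4, map_smul, smul_eq_mul] at h3
  exact hl ((mul_eq_zero.1 h3).resolve_left (Nat.cast_ne_zero.2 n.succ_ne_zero))

lemma polarise [CharZero k] {Q V : Submodule k B} {j : ℕ} (h : ∀ u ∈ V, u ^ j ∈ Q) :
    V ^ j ≤ Q := by
  have key : ∀ i n, i + n = j → ∀ a ∈ V, ∀ c ∈ V ^ i, a ^ n * c ∈ Q := by
    intro i
    induction i with
    | zero =>
      rintro n hn a ha c hc
      rw [pow_zero] at hc
      obtain ⟨r, rfl⟩ := Submodule.mem_one.1 hc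
      rw [mul_comm, ← Algebra.smul_def, show n = j by omega]
      exact Q.smul_mem r (h a ha)
    | succ i ih =>
      intro n hn a ha c hc
      rw [pow_succ] at hc
      refine Submodule.mul_induction_on hc (fun c hc b hb => polar_step fun t =>
        ih (n + 1) (by omega) _ (add_mem (V.smul_mem t hb) ha) c hc) fun x y hx hy => ?_
      rw [mul_add]
      exact add_mem hx hy
  intro c hc
  simpa using key j 0 rfl 0 V.zero_mem c hc

end Pool.Agent.Lib.MP_954e53_ag
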