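import Pool.Agent.Lib.MP_954e53_ag.Red
import Pool.Agent.Lib.MP_954e53_ag.Res

/-! A nonzero form of degree one forces the equality of core and graded core. -/

namespace Pool.Agent.Lib.MP_954e53_ag

open Module

variable {k S : Type*} [Field k] [CommRing S] [Algebra k S]
variable {𝒜 : ℕ → Submodule k S} [GradedAlgebra 𝒜]

lemma comp_span {E b : ℕ} {g : S} (hg : g ∈ Ideal.span (𝒜 E : Set S)) :
    (DirectSum.decompose 𝒜 g (E + b) : S) ∈ 𝒜 E * 𝒜 b := by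
  have key : ∀ a, (DirectSum.decompose 𝒜 (g * a) (E + b) : S) ∈ 𝒜 E * 𝒜 b := by
    induction hg using Submodule.span_induction with
    | mem x hx =>
      intro a
      rw [DirectSum.coe_decompose_mul_add_of_left_mem 𝒜 hx]
      exact Submodule.mul_mem_mul hx (SetLike.coe_mem _)
    | zero => simp
    | add x y _ _ hx hy =>
      intro a
      rw [add_mul, DirectSum.decompose_add, DirectSum.add_apply, Submodule.coe_add]
      exact add_mem (hx a) (hy a)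
    | smul c x _ hx =>
      intro a
      rw [smul_eq_mul, mul_comm c, mul_assoc]
      exact hx _
  simpa using key 1

lemma mul_le_add (a b : ℕ) : 𝒜 a * 𝒜 b ≤ 𝒜 (a + b) :=
  Submodule.mul_le.2 fun _ hx _ hy => SetLike.mul_mem_graded hx hy

variable [hfin : ∀ m, FiniteDimensional k (𝒜 m)] [IsNoetherianRing S]

lemma dec_base {E : ℕ} (h : Bpf 𝒜 (𝒜 E)) : ∃ C, ∀ b, C ≤ b → 𝒜 (E + b) ≤ 𝒜 E * 𝒜 b := by
  obtain ⟨M, hM⟩ := exists_mem_of_primes (I := Ideal.span (𝒜 E : Set S))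
    (Ideal.homogeneous_span 𝒜 _ fun x hx => ⟨E, hx⟩) fun P hP hp hle m hm x hx => by
      by_contra hxP
      obtain ⟨z, hz, hzP⟩ := h P hP hp ⟨m, hm, x, hx, hxP⟩
      exact hzP (hle (Ideal.subset_span hz))
  refine ⟨M, fun b hb x hx => ?_⟩
  have := comp_span (b := b) (hM (E + b) (by omega) x hx)
  rwa [DirectSum.decompose_of_mem_same 𝒜 hx] at this

lemma exists_dec {m₀ : ℕ} (h : ∀ m, m₀ ≤ m → Bpf 𝒜 (𝒜 m)) :
    ∃ N₀, ∀ a b, N₀ ≤ a → N₀ ≤ b → 𝒜 (a + b) ≤ 𝒜 a * 𝒜 b := by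
  obtain ⟨C, hC⟩ := dec_base (h (m₀ + 1) (by omega))
  obtain ⟨C', hC'⟩ := dec_base (h (m₀ + 2) (by omega))
  let D : ℕ → Prop := fun a => ∀ b, C + C' ≤ b → 𝒜 (a + b) ≤ 𝒜 a * 𝒜 b
  have hadd : ∀ a a', D a → D a' → D (a + a') := fun a a' h1 h2 b hb => by
    rw [add_assoc]
    refine (h1 _ (by omega)).trans ((mul_le_mul_right (h2 b hb) _).trans ?_)
    rw [← mul_assoc]
    exact mul_le_mul_left (mul_le_add a a') _
  have hmul : ∀ a, D a → ∀ n, D (n * a) := fun a ha n => by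
    induction n with
    | zero =>
      intro b _ x hx
      rw [zero_mul, zero_add] at hx
      rw [zero_mul, ← one_mul x]
      exact Submodule.mul_mem_mul SetLike.GradedOne.one_mem hx
    | succ n ih => rw [Nat.succ_mul]; exact hadd _ _ ih ha
  refine ⟨(m₀ + 1) * (m₀ + 1) + C + C', fun a b ha hb => ?_⟩
  have h1 : a % (m₀ + 1) < m₀ + 1 := Nat.mod_lt _ (by omega)
  have h2 : m₀ + 1 ≤ a / (m₀ + 1) := (Nat.le_div_iff_mul_le (by omega)).2 (by omega)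
  obtain ⟨q, hq⟩ : ∃ q, a / (m₀ + 1) = q + a % (m₀ + 1) := ⟨a / (m₀ + 1) - a % (m₀ + 1), by omega⟩
  have h3 : a = q * (m₀ + 1) + a % (m₀ + 1) * (m₀ + 2) := by
    have := Nat.div_add_mod a (m₀ + 1)
    rw [hq] at this
    linarith
  have h4 := hadd _ _ (hmul _ (fun b hb => hC b (by omega)) q)
    (hmul _ (fun b hb => hC' b (by omega)) (a % (m₀ + 1)))
  rw [← h3] at h4
  exact h4 b (by omega)

omit [GradedAlgebra 𝒜] hfin [IsNoetherianRing S] in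
lemma le_pow {N : ℕ} (h : ∀ a, N ≤ a → 𝒜 (a + N) ≤ 𝒜 a * 𝒜 N) (j : ℕ) :
    𝒜 ((j + 1) * N) ≤ 𝒜 N ^ (j + 1) := by
  induction j with
  | zero => simp
  | succ j ih =>
    rw [Nat.succ_mul, pow_succ]
    exact (h _ (Nat.le_mul_of_pos_left _ j.succ_pos)).trans (mul_le_mul_left ih _)

omit hfin in
lemma infinite_reg [Infinite k] {K : Ideal S} {σ : S} (hσ : col K σ = K) (u : S) :
    {t : k | col K (σ + t • u) = K}.Infinite := by
  obtain ⟨Q, hQ, h1, h2⟩ := exists_primes K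
  have h3 : (⋃ P ∈ Q, {t : k | σ + t • u ∈ P}).Finite := hQ.biUnion fun P hP => by
    refine Set.Subsingleton.finite fun t ht t' ht' => ?_
    by_contra hne
    obtain ⟨-, f, hf, rfl⟩ := h1 P hP
    have h4 : u ∈ col K f := by
      have h5 := smul_mem_ideal (col K f) (t - t')⁻¹ (sub_mem ht ht')
      rwa [add_sub_add_left_eq_sub, ← sub_smul, inv_smul_smul₀ (sub_ne_zero.2 hne)] at h5
    have h5 : σ ∈ col K f := by simpa using sub_mem ht (smul_mem_ideal (col K f) t h4)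
    exact hf (reg_cancel hσ (by rw [mul_comm]; exact h5))
  refine Set.Infinite.mono ?_ h3.infinite_compl
  exact fun t ht => h2 _ fun P hP h4 => ht (Set.mem_biUnion hP h4)

omit [IsNoetherianRing S] in
lemma col_pow {K : Ideal S} {σ : S} (hσ : col K σ = K) (n : ℕ) : col K (σ ^ n) = K := by
  refine le_antisymm (fun f hf => ?_) (le_col _ _)
  induction n with
  | zero => simpa [mem_col] using hf
  | succ n ih => exact ih (mem_col.2 (reg_cancel hσ (by rw [← mul_assoc, ← pow_succ']; exact hf)))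

/-- No nonzero form of degree `d N - r` lies in all parameter ideals of degree `N`. -/
theorem exists_notMem [CharZero k] [IsDomain S] {d r : ℕ} {h : Polynomial ℤ}
    (hh : (h : PowerSeries ℤ) = (1 - PowerSeries.X) ^ (d + 1) * HS 𝒜 ⊥)
    (hdeg : h.natDegree + r = d + 1) (hh0 : h ≠ 0) (hgood : Good 𝒜 ⊥ (d + 1)) {N : ℕ} (hN : 0 < N)
    (hV : Bpf 𝒜 (𝒜 N)) (hdec : ∀ a, N ≤ a → 𝒜 (a + N) ≤ 𝒜 a * 𝒜 N) {s : ℕ} (hs0 : 0 < s)
    (hs : s + r = (d + 1) * N) {g : S} (hg : g ∈ 𝒜 s) (hg0 : g ≠ 0) :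
    ∃ T : List (ℕ × S), (∀ p ∈ T, p.1 = N ∧ p.2 ∈ 𝒜 N) ∧ T.length = d + 1 ∧ Reg ⊥ T ∧
      g ∉ idl ⊥ T := by
  by_contra H
  push Not at H
  obtain ⟨T, hT, hlen, hreg, hgood1, hgK⟩ := hgood.exists_seq_keep hN hV bot_hom hs0 hg
    (le_antisymm (fun f hf => (mul_eq_zero.1 hf).resolve_left hg0) bot_le)
  have hT' : ∀ p ∈ T, 0 < p.1 ∧ p.2 ∈ 𝒜 p.1 := fun p hp => by
    rw [(hT p hp).1]; exact ⟨hN, (hT p hp).2⟩
  set K := idl ⊥ T with hK
  have hKh : K.IsHomogeneous 𝒜 := idl_hom bot_hom fun p hp => (hT' p hp).2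
  have hgK' : g ∉ K := fun h1 => one_ne_zero (α := S) (comp_zero_of_mem_idl hT' bot_hom
    SetLike.GradedOne.one_mem (reg_cancel hgK (K.mul_mem_right _ h1)))
  have H' : ∀ y ∈ 𝒜 N, col K y = K → g ∈ K ⊔ Ideal.span {y} := fun y hy h1 => by
    have := H (T ++ [(N, y)]) (by simpa [or_imp, forall_and, hy] using hT) (by simp [hlen])
      ((reg_append _ _ _).2 ⟨hreg, h1, trivial⟩)
    rwa [idl_append] at this
  obtain ⟨σ, hσ, hσK, -⟩ := hV.exists_reg le_rfl hgood1.noSoc hgood1.noSoc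
  by_cases hsN : s < N
  · exact hgK' (mem_sup_hom_lt hKh hσ hsN hg (H' σ hσ hσK))
  obtain ⟨s', rfl⟩ := Nat.exists_eq_add_of_le (not_lt.1 hsN)
  set J := K ⊔ Ideal.span {σ ^ (d + 1 + 1)} with hJ
  have h1 : ∀ u ∈ 𝒜 N, u ^ (d + 1) ∈ (col J g).restrictScalars k := fun u hu => by
    obtain ⟨_, ⟨c, -, rfl⟩, hc⟩ := resolvent (k := k) (σ := Ideal.Quotient.mkₐ k K σ) (fun x hx => by
        obtain ⟨x, rfl⟩ := Ideal.Quotient.mk_surjective x
        exact Ideal.Quotient.eq_zero_iff_mem.2 (reg_cancel hσK (Ideal.Quotient.eq_zero_iff_mem.1 hx)))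
      ((𝒜 s').map (Ideal.Quotient.mkₐ k K).toLinearMap) (u := Ideal.Quotient.mkₐ k K u)
      (g := Ideal.Quotient.mkₐ k K g) (infinite_reg hσK u) (fun t ht => by
        have h2 : σ + t • u ∈ 𝒜 N := add_mem hσ ((𝒜 N).smul_mem t hu)
        obtain ⟨b, hb, h3⟩ := mem_sup_hom hKh h2 hg (H' _ h2 ht)
        refine ⟨_, ⟨b, hb, rfl⟩, ?_⟩
        rw [← map_smul, ← map_add, AlgHom.toLinearMap_apply, ← map_mul]
        exact Ideal.Quotient.eq.2 h3) (d + 1)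
    rw [AlgHom.toLinearMap_apply, ← map_pow, ← map_pow, ← map_mul, ← map_mul] at hc
    exact mem_col.2 (mem_sup_span.2 ⟨c, by rw [mul_comm g]; exact Ideal.Quotient.eq.1 hc⟩)
  have h2 := (le_pow hdec d).trans (polarise h1)
  have hσ' : σ ^ (d + 1 + 1) ∈ 𝒜 ((d + 1 + 1) * N) := SetLike.pow_mem_graded _ hσ
  have hpos : 0 < (d + 1 + 1) * N := by positivity
  have hsoc : Soc 𝒜 J := good_zero.1 (hgood1.exchange hN hV hKh hpos hσ' (col_pow hσK _))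
  have ht := top_of_reg hh hdeg hh0 (T := T ++ [((d + 1 + 1) * N, σ ^ (d + 1 + 1))])
    (by simpa [or_imp, forall_and, hσ', hN] using hT') (by simp [hlen])
    ((reg_append _ _ _).2 ⟨hreg, col_pow hσK _, trivial⟩) (s := N + s' + (d + 1) * N) (by
      rw [List.map_append, List.sum_append, sum_const fun p hp => (hT p hp).1, hlen]
      simp only [List.map_cons, List.map_nil, List.sum_cons, List.sum_nil]
      linarith)
  rw [idl_append] at ht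
  by_cases hgJ : g ∈ J
  · exact hgK' (mem_sup_hom_lt hKh hσ' (by nlinarith) hg hgJ)
  · obtain ⟨z, hz, hzg⟩ := hsoc.pairing (sup_hom hKh hσ') ht rfl hg hgJ
    exact hzg (by rw [mul_comm]; exact h2 hz)

omit hfin [IsNoetherianRing S] in
/-- The direction of the theorem of Hyry and Smith that is needed. -/
theorem core_eq [CharZero k] [IsDomain S] {L : List (ℕ × S)} (hL : ∀ p ∈ L, 0 < p.1 ∧ p.2 ∈ 𝒜 p.1)
    (hgen : Algebra.adjoin k {x | ∃ p ∈ L, p.2 = x} = ⊤) {m₀ : ℕ}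
    (hfree : ∀ P : Ideal S, P.IsHomogeneous 𝒜 → P.IsPrime → (∃ m, 0 < m ∧ ∃ x ∈ 𝒜 m, x ∉ P) →
      ∀ m, m₀ ≤ m → ∃ x ∈ 𝒜 m, x ∉ P)
    {T : List (ℕ × S)} (hT : ∀ p ∈ T, 0 < p.1 ∧ p.2 ∈ 𝒜 p.1) (hreg : Reg ⊥ T)
    (hsoc : Soc 𝒜 (idl ⊥ T)) {s r : ℕ} (ht : Top 𝒜 (idl ⊥ T) s)
    (hr : s + r = (T.map Prod.fst).sum) {x : S} (hx : x ∈ 𝒜 1) (hx0 : x ≠ 0) :
    ∃ N₀, ∀ N, N₀ ≤ N → core (truncIdeal 𝒜 N) = gradedCore 𝒜 (truncIdeal 𝒜 N) := by
  have hfin := fin_of_gens hL hgen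
  have hnoeth := noeth_of_gens hgen
  obtain ⟨h, hh, hdeg, -, hpos⟩ := exists_numerator (fun P hP hprime hrel =>
    ⟨m₀, hfree P hP hprime hrel _ le_rfl, hfree P hP hprime hrel _ (Nat.le_succ _)⟩) hT hreg hsoc ht
  have hh0 : h ≠ 0 := fun h0 => by simp [h0] at hpos
  have hb : ∀ m, m₀ ≤ m → Bpf 𝒜 (𝒜 m) := fun m hm P h1 h2 h3 => hfree P h1 h2 h3 m hm
  obtain ⟨N₀, hN₀⟩ := exists_dec hb
  have hxp : ∀ n, x ^ n ∈ 𝒜 n := fun n => by simpa using SetLike.pow_mem_graded n hx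
  obtain ⟨d, hd⟩ : ∃ d, T.length = d + 1 := by
    obtain _ | ⟨p, T⟩ := T
    · exact absurd (ht.2 _ s.lt_succ_self _ (hxp _)) (pow_ne_zero _ hx0)
    · exact ⟨_, rfl⟩
  have hgood : Good 𝒜 ⊥ (d + 1) := ⟨T, hT, hd, hreg, hsoc⟩
  rw [hd] at hh hdeg
  have hdeg' : h.natDegree + r = d + 1 := by omega
  refine ⟨N₀ + m₀ + 2, fun N hN => le_antisymm (sInf_le_sInf fun J hJ => hJ.1) ?_⟩
  obtain ⟨s', hs'⟩ : ∃ s', s' + r = (d + 1) * N := ⟨(d + 1) * N - r,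
    Nat.sub_add_cancel (by nlinarith)⟩
  have hs0 : 0 < s' := by nlinarith
  refine le_sInf fun J hJ => le_trans (fun y hy => mem_of_comp (𝒜 := 𝒜) fun i => ?_)
    (trunc_le_of_isReduction hh hdeg' hh0 hgood (by omega) (hb N (by omega)) hs' hJ)
  by_cases hi : s' < i
  · exact mem_trunc hi (SetLike.coe_mem _)
  obtain ⟨e, rfl⟩ := Nat.exists_eq_add_of_le (not_lt.1 hi)
  by_cases h0 : (DirectSum.decompose 𝒜 y i : S) = 0
  · rw [h0]; exact zero_mem _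
  obtain ⟨T', hT', hlen, hreg', hn⟩ := exists_notMem hh hdeg' hh0 hgood (by omega : 0 < N)
    (hb N (by omega)) (fun a ha => hN₀ a N (by omega) (by omega)) hs0 hs'
    (SetLike.mul_mem_graded (SetLike.coe_mem (DirectSum.decompose 𝒜 y i)) (hxp e))
    (mul_ne_zero h0 (pow_ne_zero _ hx0))
  have hT'' : ∀ p ∈ T', 0 < p.1 ∧ p.2 ∈ 𝒜 p.1 := fun p hp => by
    rw [(hT' p hp).1]; exact ⟨by omega, (hT' p hp).2⟩
  have hhom : (idl ⊥ T').IsHomogeneous 𝒜 := idl_hom bot_hom fun p hp => (hT'' p hp).2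
  have ht' := top_of_reg hh hdeg' hh0 hT'' hlen hreg' (s := i + e)
    (by rw [sum_const fun p hp => (hT' p hp).1, hlen, hs'])
  exact absurd (Ideal.mul_mem_right _ _ (hhom i (Submodule.mem_sInf.1 hy _
    ⟨isReduction_idl (by omega) hT' ht'.2, hhom⟩))) hn

end Pool.Agent.Lib.MP_954e53_ag
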