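import Pool.Agent.Lib.MP_954e53_ag.Main

/-! Without forms of degree one the core differs from the graded core. -/

namespace Pool.Agent.Lib.MP_954e53_ag

variable {k S : Type*} [Field k] [CommRing S] [Algebra k S]
variable {𝒜 : ℕ → Submodule k S} [GradedAlgebra 𝒜]

lemma dA_soc [Infinite k] [IsNoetherianRing S] {N : ℕ} (hN : 0 < N) (hV : Bpf 𝒜 (𝒜 N))
    {T : List (ℕ × S)} (hT : ∀ p ∈ T, 0 < p.1 ∧ p.2 ∈ 𝒜 p.1) {J : Ideal S}
    (hJ : J.IsHomogeneous 𝒜) (hgood : Good 𝒜 J T.length) (hreg : Reg J T) :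
    Soc 𝒜 (idl J T) := by
  induction T generalizing J with
  | nil => exact good_zero.1 hgood
  | cons p T ih =>
    obtain ⟨hp, hp'⟩ := hT p List.mem_cons_self
    exact ih (fun q hq => hT q (List.mem_cons_of_mem _ hq)) (sup_hom hJ hp')
      (hgood.exchange hN hV hJ hp hp' hreg.1) hreg.2

lemma dA_cancel {K : Ideal S} (hK : K.IsHomogeneous 𝒜) {N : ℕ} {g h : S} (hg : g ∈ 𝒜 N)
    (hh : h ∈ 𝒜 (N + 1)) (hreg : col K g = K) (m : ℕ) {a : S}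
    (ha : (g + h) * a ∈ K ⊔ truncIdeal 𝒜 (N + m)) : a ∈ K ⊔ truncIdeal 𝒜 m := by
  induction m with
  | zero =>
    exact Ideal.mem_sup_right (mem_of_comp (𝒜 := 𝒜) fun i =>
      mem_trunc (Nat.zero_le i) (SetLike.coe_mem _))
  | succ m ih =>
    obtain ⟨κ, hκ, w, hw, rfl⟩ := Submodule.mem_sup.1
      (ih ((sup_le_sup_left (trunc_anti (by omega)) K) ha))
    obtain ⟨c, hcm, h1⟩ : ∃ c ∈ 𝒜 m, w - c ∈ truncIdeal 𝒜 (m + 1) :=
      ⟨_, SetLike.coe_mem _, sub_comp_mem hw⟩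
    have h2 : g * (w - c) ∈ truncIdeal 𝒜 (N + (m + 1)) :=
      trunc_mul _ _ (Ideal.mul_mem_mul (mem_trunc le_rfl hg) h1)
    have h3 : h * w ∈ truncIdeal 𝒜 (N + (m + 1)) := trunc_anti (by omega)
      (trunc_mul _ _ (Ideal.mul_mem_mul (mem_trunc le_rfl hh) hw))
    have h4 : g * c ∈ K ⊔ truncIdeal 𝒜 (N + (m + 1)) := by
      have h5 := sub_mem (sub_mem (sub_mem ha (Ideal.mem_sup_left (K.mul_mem_left (g + h) hκ)))
        (Ideal.mem_sup_right h2)) (Ideal.mem_sup_right h3)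
      convert h5 using 1
      ring
    have h5 : c ∈ K :=
      reg_cancel hreg (mem_of_mem_sup_trunc hK (SetLike.mul_mem_graded hg hcm) h4)
    have h6 := Submodule.add_mem_sup (add_mem hκ h5) h1
    convert h6 using 1
    ring

lemma dA_notMem {K : Ideal S} (hK : K.IsHomogeneous 𝒜) {N e : ℕ} {g h b : S} (hg : g ∈ 𝒜 N)
    (hh : h ∈ 𝒜 (N + 1)) (hb : b ∈ 𝒜 e) (hreg : col K g = K)
    (hbh : b * h ∉ K ⊔ Ideal.span {g}) :
    b * g ∉ (K ⊔ truncIdeal 𝒜 (e + (N + 1) + 1)) ⊔ Ideal.span {g + h} := by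
  intro H
  obtain ⟨a, ha⟩ := mem_sup_span.1 H
  have hs := SetLike.mul_mem_graded hb hh
  have h1 : (g + h) * (b - a) ∈ K ⊔ truncIdeal 𝒜 (N + (e + 1)) := by
    have h2 := add_mem ((sup_le_sup_left (trunc_anti (b := e + (N + 1) + 1) (a := N + (e + 1))
      (by omega)) K) ha) (Ideal.mem_sup_right (mem_trunc (by omega) hs))
    convert h2 using 1
    ring
  obtain ⟨κ, hκ, w, hw, h2⟩ := Submodule.mem_sup.1 (dA_cancel hK hg hh hreg _ h1)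
  have h3 : h * w ∈ truncIdeal 𝒜 (e + (N + 1) + 1) := trunc_anti (by omega)
    (trunc_mul _ _ (Ideal.mul_mem_mul (mem_trunc le_rfl hh) hw))
  refine hbh (mem_of_mem_sup_trunc (sup_hom hK hg) hs ?_)
  have h4 : K ⊔ truncIdeal 𝒜 (e + (N + 1) + 1) ≤
      (K ⊔ Ideal.span {g}) ⊔ truncIdeal 𝒜 (e + (N + 1) + 1) := sup_le_sup_right le_sup_left _
  have h5 : g * (b - a) ∈ (K ⊔ Ideal.span {g}) ⊔ truncIdeal 𝒜 (e + (N + 1) + 1) :=
    Ideal.mem_sup_left (Ideal.mem_sup_right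
      (Ideal.mul_mem_right _ _ (Ideal.mem_span_singleton_self g)))
  have h6 := sub_mem (add_mem h5 (h4 (Submodule.add_mem_sup (K.mul_mem_left h hκ) h3))) (h4 ha)
  convert h6 using 1
  linear_combination (-h) * h2

omit [GradedAlgebra 𝒜] in
lemma dA_trunc_le_pow {N : ℕ} (hdec : ∀ a, N ≤ a → 𝒜 (a + N) ≤ 𝒜 a * 𝒜 N) (j : ℕ) :
    truncIdeal 𝒜 (N * (j + 1)) ≤ truncIdeal 𝒜 N ^ (j + 1) := by
  induction j with
  | zero => simp
  | succ j ih =>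
    refine trunc_le fun n hn x hx => ?_
    rw [Nat.mul_succ] at hn
    obtain ⟨a, rfl⟩ : ∃ a, n = a + N := ⟨n - N, by omega⟩
    have h1 : N ≤ N * (j + 1) := Nat.le_mul_of_pos_right _ j.succ_pos
    rw [pow_succ]
    exact Submodule.mul_induction_on (hdec a (by omega) hx)
      (fun y hy z hz => Ideal.mul_mem_mul (ih (mem_trunc (by omega) hy)) (mem_trunc le_rfl hz))
      fun y z hy hz => add_mem hy hz

lemma dA_reduction {N N₀ s : ℕ} (hN : 0 < N) (hN₀ : N₀ ≤ N) (hNs : N ≤ s)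
    (hdec : ∀ a b, N₀ ≤ a → N₀ ≤ b → 𝒜 (a + b) ≤ 𝒜 a * 𝒜 b) {T : List (ℕ × S)}
    (hT : ∀ p ∈ T, p.1 = N ∧ p.2 ∈ 𝒜 N) {g h : S} (hg : g ∈ 𝒜 N) (hh : h ∈ 𝒜 (N + 1))
    (ht : ∀ m, s < m → ∀ x ∈ 𝒜 m, x ∈ idl ⊥ T ⊔ Ideal.span {g}) :
    IsReduction ((idl ⊥ T ⊔ truncIdeal 𝒜 (s + 1)) ⊔ Ideal.span {g + h}) (truncIdeal 𝒜 N) := by
  have hle : (idl ⊥ T ⊔ truncIdeal 𝒜 (s + 1)) ⊔ Ideal.span {g + h} ≤ truncIdeal 𝒜 N := sup_le (sup_le
    (idl_le bot_le fun p hp => mem_trunc le_rfl (hT p hp).2) (trunc_anti (by omega)))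
    ((Ideal.span_singleton_le_iff_mem _).2
      (add_mem (mem_trunc le_rfl hg) (mem_trunc N.le_succ hh)))
  have hJ1 : ∀ p ∈ T, p.2 ∈ (idl ⊥ T ⊔ truncIdeal 𝒜 (s + 1)) ⊔ Ideal.span {g + h} :=
    fun p hp => Ideal.mem_sup_left (Ideal.mem_sup_left (mem_idl ⊥ hp))
  have hJ2 : g + h ∈ (idl ⊥ T ⊔ truncIdeal 𝒜 (s + 1)) ⊔ Ideal.span {g + h} :=
    Ideal.mem_sup_right (Ideal.mem_span_singleton_self _)
  have hJ3 : truncIdeal 𝒜 (s + 1) ≤ (idl ⊥ T ⊔ truncIdeal 𝒜 (s + 1)) ⊔ Ideal.span {g + h} :=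
    le_sup_right.trans le_sup_left
  generalize (idl ⊥ T ⊔ truncIdeal 𝒜 (s + 1)) ⊔ Ideal.span {g + h} = J at hle hJ1 hJ2 hJ3
  refine ⟨hle, s + 1, le_antisymm ?_ ?_⟩
  · rw [pow_succ' (truncIdeal 𝒜 N) (s + 1)]
    exact Ideal.mul_mono_left hle
  have hd : ∀ a, N ≤ a → 𝒜 (a + N) ≤ 𝒜 a * 𝒜 N := fun a ha => hdec a N (hN₀.trans ha) hN₀
  have h1 : s + 1 ≤ N * (s + 1) := Nat.le_mul_of_pos_left _ hN
  refine (trunc_pow N _).trans (le_trans ?_ (Ideal.mul_mono_right (dA_trunc_le_pow hd s)))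
  rw [Nat.mul_succ N (s + 1)]
  generalize N * (s + 1) = M at h1
  have hKh : (idl ⊥ T).IsHomogeneous 𝒜 :=
    idl_hom bot_hom fun p hp => by rw [(hT p hp).1]; exact (hT p hp).2
  have h2 : ∀ i, truncIdeal 𝒜 (M + N + i) ≤ J * truncIdeal 𝒜 M →
      truncIdeal 𝒜 (M + N) ≤ J * truncIdeal 𝒜 M := fun i => by
    induction i with
    | zero => exact id
    | succ i ih =>
      refine fun h3 => ih (trunc_le fun m hm x hx => ?_)
      rcases hm.eq_or_lt with rfl | hm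
      · rw [show M + N + i = N + (M + i) by omega] at hx
        obtain ⟨u, hu, h4⟩ := mem_sup_hom hKh hg hx (ht _ (by omega) x hx)
        have h5 : x - g * u ∈ J * truncIdeal 𝒜 M := Ideal.mul_mono_right (trunc_anti (by omega))
          (idl_le_mul (I := J) hT hJ1 bot_hom
            (fun y _ hy => by rw [show y = 0 from hy]; exact zero_mem _) _
            (sub_mem hx (SetLike.mul_mem_graded hg hu)) h4)
        have h6 : (g + h) * u ∈ J * truncIdeal 𝒜 M := 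
          Ideal.mul_mem_mul hJ2 (mem_trunc (by omega) hu)
        have h7 := h3 (mem_trunc (by omega) (SetLike.mul_mem_graded hh hu))
        convert sub_mem (add_mem h5 h6) h7 using 1
        ring
      · exact h3 (mem_trunc hm hx)
  refine h2 (s + 1) (trunc_le fun m hm x hx => ?_)
  obtain ⟨a, rfl⟩ : ∃ a, m = s + 1 + a := ⟨m - (s + 1), by omega⟩
  exact Submodule.mul_induction_on (hdec _ a (by omega) (by omega) hx)
    (fun y hy z hz => Ideal.mul_mem_mul (hJ3 (mem_trunc le_rfl hy)) (mem_trunc (by omega) hz))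
    fun y z hy hz => add_mem hy hz

variable [hfin : ∀ m, FiniteDimensional k (𝒜 m)]

lemma dA_mem [Infinite k] [IsNoetherianRing S] {d r : ℕ} {h : Polynomial ℤ}
    (hh : (h : PowerSeries ℤ) = (1 - PowerSeries.X) ^ d * HS 𝒜 ⊥) (hdeg : h.natDegree + r = d)
    (hh0 : h ≠ 0) (hgood : Good 𝒜 ⊥ d) {N : ℕ} (hN : 0 < N) (hV : Bpf 𝒜 (𝒜 N)) {s : ℕ}
    (hs : s + 1 + r = d * N) (h1 : ∀ y ∈ 𝒜 1, y = 0) {y : S} (hy : y ∈ 𝒜 s) :
    y ∈ gradedCore 𝒜 (truncIdeal 𝒜 N) := by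
  refine Submodule.mem_sInf.2 fun J ⟨hJ, hJh⟩ => ?_
  have hVN : (J.restrictScalars k).map (GradedAlgebra.proj 𝒜 N) ≤ 𝒜 N := by
    rintro _ ⟨j, -, rfl⟩
    exact SetLike.coe_mem _
  obtain ⟨T, hT, hlen, hreg⟩ := hgood.exists_seq hN (hJ.bpf hV) hVN bot_hom
  have hT' : ∀ p ∈ T, 0 < p.1 ∧ p.2 ∈ 𝒜 p.1 := fun p hp => by
    rw [(hT p hp).1]; exact ⟨hN, hVN (hT p hp).2⟩
  have ht := top_of_reg hh hdeg hh0 hT' hlen hreg (s := s + 1)
    (by rw [sum_const fun p hp => (hT p hp).1, hlen, hs])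
  have hle : idl ⊥ T ≤ J := idl_le bot_le fun p hp => by
    obtain ⟨-, j, hj, h2⟩ := hT p hp
    rw [← h2]
    exact hJh N hj
  refine hle (by_contra fun hyJ => ?_)
  obtain ⟨z, hz, hzy⟩ := (dA_soc hN hV hT' bot_hom (hlen ▸ hgood) hreg).pairing
    (idl_hom bot_hom fun p hp => (hT' p hp).2) ht rfl hy hyJ
  exact hzy (by rw [h1 z hz, zero_mul]; exact zero_mem _)

omit hfin in
theorem dA_core_ne [CharZero k] [IsDomain S] {n d r : ℕ} (hgen : GeneratedBy 𝒜 n)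
    (hfree : EventuallyFree 𝒜) (hG : GorensteinOfIndex 𝒜 d r) (hd : 2 ≤ d)
    (h1 : ∀ y ∈ 𝒜 1, y = 0) :
    ∃ N₀, ∀ N, N₀ ≤ N → core (truncIdeal 𝒜 N) ≠ gradedCore 𝒜 (truncIdeal 𝒜 N) := by
  obtain ⟨x, w, hx, hgen⟩ := hgen
  obtain ⟨m₀, hfree⟩ := hfree
  obtain ⟨θ, e, s, hθ, hreg, hs, hu, ht, hsoc⟩ := hG
  set L : List (ℕ × S) := List.ofFn fun i => (w i, x i) with hL
  set T : List (ℕ × S) := List.ofFn fun i => (e i, θ i) with hT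
  have hL1 : ∀ p ∈ L, 0 < p.1 ∧ p.2 ∈ 𝒜 p.1 := fun p hp => by
    obtain ⟨i, rfl⟩ := List.mem_ofFn.1 hp
    exact hx i
  have hT1 : ∀ p ∈ T, 0 < p.1 ∧ p.2 ∈ 𝒜 p.1 := fun p hp => by
    obtain ⟨i, rfl⟩ := List.mem_ofFn.1 hp
    exact hθ i
  have hgen' : Algebra.adjoin k {y | ∃ p ∈ L, p.2 = y} = ⊤ := by
    rw [← hgen]; congr 1; ext y; simp [hL]
  have hT2 : T.map Prod.snd = List.ofFn θ := by rw [hT, List.map_ofFn]; rfl
  have hT3 : idl ⊥ T = Ideal.span (Set.range θ) := by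
    rw [idl_eq, bot_sup_eq, hT2, Ideal.ofList]; congr 1; ext y; simp
  have hT4 : s + r = (T.map Prod.fst).sum := by
    rw [hs, hT, List.map_ofFn, List.sum_ofFn]; rfl
  have hfree' : ∀ P : Ideal S, P.IsHomogeneous 𝒜 → P.IsPrime →
      (∃ m, 0 < m ∧ ∃ x ∈ 𝒜 m, x ∉ P) → ∀ m, m₀ ≤ m → ∃ x ∈ 𝒜 m, x ∉ P := by
    rintro P hP hp ⟨m, hm, y, hy, hyP⟩ m' hm'
    exact hfree m' hm' ⟨⟨P, hP⟩, hp, fun h => hyP
      (h (HomogeneousIdeal.mem_irrelevant_of_mem 𝒜 hm hy))⟩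
  have hreg' : Reg ⊥ T := reg_of_weakly (hT2 ▸ hreg.toIsWeaklyRegular)
  have hsoc' : Soc 𝒜 (idl ⊥ T) := hT3 ▸ hsoc
  have ht' : Top 𝒜 (idl ⊥ T) s := hT3 ▸ ⟨hu, ht⟩
  have hlen : T.length = d := List.length_ofFn
  have hfin := fin_of_gens hL1 hgen'
  have hnoeth := noeth_of_gens hgen'
  obtain ⟨h, hh, hdeg, -, hpos⟩ := exists_numerator (fun P hP hprime hrel =>
    ⟨m₀, hfree' P hP hprime hrel _ le_rfl, hfree' P hP hprime hrel _ (Nat.le_succ _)⟩) hT1 hreg'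
    hsoc' ht'
  have hh0 : h ≠ 0 := fun h0 => by simp [h0] at hpos
  have hb : ∀ m, m₀ ≤ m → Bpf 𝒜 (𝒜 m) := fun m hm P h1 h2 h3 => hfree' P h1 h2 h3 m hm
  obtain ⟨N₀, hN₀⟩ := exists_dec hb
  have hgood : Good 𝒜 ⊥ d := ⟨T, hT1, hlen, hreg', hsoc'⟩
  rw [hlen] at hh hdeg
  have hdeg' : h.natDegree + r = d := by omega
  refine ⟨N₀ + m₀ + r + 1, fun N hN H => ?_⟩
  have hN0 : 0 < N := by omega
  have h2N : 2 * N ≤ d * N := Nat.mul_le_mul_right _ hd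
  obtain ⟨a, ha⟩ : ∃ a, a + (N + 1) + r = d * N := ⟨d * N - (N + 1) - r, by omega⟩
  obtain ⟨T', hT', hlen', hreg''⟩ := hgood.exists_seq hN0 (hb N (by omega)) le_rfl bot_hom
  have hT'' : ∀ p ∈ T', 0 < p.1 ∧ p.2 ∈ 𝒜 p.1 := fun p hp => by
    rw [(hT' p hp).1]; exact ⟨hN0, (hT' p hp).2⟩
  have htop := top_of_reg hh hdeg' hh0 hT'' hlen' hreg'' (s := a + (N + 1))
    (by rw [sum_const fun p hp => (hT' p hp).1, hlen', ha])
  obtain rfl | ⟨T₀, p, rfl⟩ := T'.eq_nil_or_concat'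
  · simp at hlen'; omega
  have hT₀ : ∀ q ∈ T₀, q.1 = N ∧ q.2 ∈ 𝒜 N := fun q hq => hT' q (List.mem_append_left _ hq)
  have hg : p.2 ∈ 𝒜 N := (hT' p (by simp)).2
  rw [idl_append] at htop
  obtain ⟨⟨u, hu, huK⟩, htop⟩ := htop
  have hKh : (idl ⊥ T₀).IsHomogeneous 𝒜 :=
    idl_hom bot_hom fun q hq => (hT'' q (List.mem_append_left _ hq)).2
  obtain ⟨b, hb', g', hg', hbg⟩ : ∃ b ∈ 𝒜 a, ∃ g' ∈ 𝒜 (N + 1),
      b * g' ∉ idl ⊥ T₀ ⊔ Ideal.span {p.2} := by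
    by_contra hc
    push Not at hc
    exact huK (Submodule.mul_induction_on (hN₀ a (N + 1) (by omega) (by omega) hu)
      (fun y hy z hz => hc y hy z hz) fun y z hy hz => add_mem hy hz)
  have h3 := dA_mem hh hdeg' hh0 hgood hN0 (hb N (by omega)) (s := a + N) (by omega) h1
    (SetLike.mul_mem_graded hb' hg)
  rw [← H] at h3
  exact dA_notMem hKh hg hg' hb' ((reg_append _ _ _).1 hreg'').2.1 hbg
    (Submodule.mem_sInf.1 h3 _ (dA_reduction hN0 (by omega) (by omega) hN₀ hT₀ hg hg' htop))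

end Pool.Agent.Lib.MP_954e53_ag
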