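import Mathlib

/-! Reductions, cores, graded cores and the ring-theoretic hypotheses. -/

namespace Pool.Agent.Lib.MP_954e53_ag

variable {k S : Type*} [Field k] [CommRing S] [Algebra k S]

/-- `J` is a reduction of `I`. -/
def IsReduction (J I : Ideal S) : Prop := J ≤ I ∧ ∃ r : ℕ, J * I ^ r = I ^ (r + 1)

/-- The core of `I`: the intersection of all reductions of `I`. -/
def core (I : Ideal S) : Ideal S := sInf {J | IsReduction J I}

/-- The graded core of `I`: the intersection of all homogeneous reductions of `I`. -/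
def gradedCore (𝒜 : ℕ → Submodule k S) [GradedAlgebra 𝒜] (I : Ideal S) : Ideal S :=
  sInf {J | IsReduction J I ∧ J.IsHomogeneous 𝒜}

/-- The ideal `I_N` generated by all homogeneous elements of degree at least `N`. -/
def truncIdeal (𝒜 : ℕ → Submodule k S) (N : ℕ) : Ideal S :=
  Ideal.span {x | ∃ n, N ≤ n ∧ x ∈ 𝒜 n}

/-- `S` is generated as a `k`-algebra by `n` homogeneous elements of positive degree. -/
def GeneratedBy (𝒜 : ℕ → Submodule k S) (n : ℕ) : Prop :=
  ∃ (x : Fin n → S) (w : Fin n → ℕ), (∀ i, 0 < w i ∧ x i ∈ 𝒜 (w i)) ∧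
    Algebra.adjoin k (Set.range x) = ⊤

/-- For all large `m`, the forms of degree `m` have no common zero on `Proj S`. -/
def EventuallyFree (𝒜 : ℕ → Submodule k S) [GradedAlgebra 𝒜] : Prop :=
  ∃ m₀ : ℕ, ∀ m, m₀ ≤ m → ∀ P : ProjectiveSpectrum 𝒜, ∃ x ∈ 𝒜 m, x ∉ P.asHomogeneousIdeal

/-- `S` is Gorenstein of dimension `d` with `a`-invariant `-r`: there is a homogeneous regular
sequence `θ` of length `d` and positive degrees `e` such that `S / (θ)` has top degree
`∑ e i - r` and the socle of `S / (θ)` is spanned by one element. -/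
def GorensteinOfIndex (𝒜 : ℕ → Submodule k S) (d r : ℕ) : Prop :=
  ∃ (θ : Fin d → S) (e : Fin d → ℕ) (s : ℕ), (∀ i, 0 < e i ∧ θ i ∈ 𝒜 (e i)) ∧
    RingTheory.Sequence.IsRegular S (List.ofFn θ) ∧ s + r = ∑ i, e i ∧
    (∃ u ∈ 𝒜 s, u ∉ Ideal.span (Set.range θ)) ∧
    (∀ m, s < m → ∀ x ∈ 𝒜 m, x ∈ Ideal.span (Set.range θ)) ∧
    ∃ σ : S, ∀ y : S, (∀ m, 0 < m → ∀ z ∈ 𝒜 m, z * y ∈ Ideal.span (Set.range θ)) →
      ∃ c : k, y - c • σ ∈ Ideal.span (Set.range θ)

end Pool.Agent.Lib.MP_954e53_ag
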