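import Pool.Agent.Lib.MP_954e53_ag.Gor

/-! Prime avoidance, permutation of regular elements and the exchange lemma of Rees. -/

namespace Pool.Agent.Lib.MP_954e53_ag

open Module

variable {k S : Type*} [Field k] [CommRing S] [Algebra k S]

/-- The socle of `S / J` vanishes. -/
def NoSoc (𝒜 : ℕ → Submodule k S) (J : Ideal S) : Prop :=
  ∀ y : S, (∀ m, 0 < m → ∀ z ∈ 𝒜 m, z * y ∈ J) → y ∈ J

/-- There is a regular sequence of length `j` on `S / J` with Gorenstein quotient. -/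
def Good (𝒜 : ℕ → Submodule k S) (J : Ideal S) (j : ℕ) : Prop :=
  ∃ T : List (ℕ × S), (∀ p ∈ T, 0 < p.1 ∧ p.2 ∈ 𝒜 p.1) ∧ T.length = j ∧ Reg J T ∧ Soc 𝒜 (idl J T)

lemma exists_primes [IsNoetherianRing S] (J : Ideal S) : ∃ Q : Set (Ideal S), Q.Finite ∧
    (∀ P ∈ Q, P.IsPrime ∧ ∃ f, f ∉ J ∧ P = col J f) ∧ ∀ z, (∀ P ∈ Q, z ∉ P) → col J z = J := by
  refine ⟨associatedPrimes S (S ⧸ J), associatedPrimes.finite S (S ⧸ J), fun P hP => ?_,
    fun z hz => le_antisymm (fun f hf => ?_) (le_col J z)⟩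
  · obtain ⟨hp, x, hx⟩ := isAssociatedPrime_iff.1 hP
    obtain ⟨f, rfl⟩ := Ideal.Quotient.mk_surjective x
    have h : P = col J f := by
      ext y
      rw [hx, Submodule.mem_colon_singleton, Submodule.mem_bot, mem_col, mul_comm]
      exact Ideal.Quotient.eq_zero_iff_mem
    refine ⟨hp, f, fun hf => hp.ne_top ?_, h⟩
    rw [h, eq_top_iff]
    exact fun y _ => J.mul_mem_right y hf
  · by_contra hfJ
    have h1 : z ∈ {r : S | ∃ x : S ⧸ J, x ≠ 0 ∧ r • x = 0} :=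
      ⟨Ideal.Quotient.mk J f, fun h => hfJ (Ideal.Quotient.eq_zero_iff_mem.1 h),
        Ideal.Quotient.eq_zero_iff_mem.2 hf⟩
    rw [← biUnion_associatedPrimes_eq_zero_divisors] at h1
    obtain ⟨P, hP, hzP⟩ := Set.mem_iUnion₂.1 h1
    exact hz P hP hzP

variable {𝒜 : ℕ → Submodule k S} [GradedAlgebra 𝒜]

/-- The subspace `V` has no base point. -/
def Bpf (𝒜 : ℕ → Submodule k S) [GradedAlgebra 𝒜] (V : Submodule k S) : Prop :=
  ∀ P : Ideal S, P.IsHomogeneous 𝒜 → P.IsPrime → (∃ m, 0 < m ∧ ∃ x ∈ 𝒜 m, x ∉ P) →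
    ∃ x ∈ V, x ∉ P

lemma Bpf.exists_notMem {V : Submodule k S} (hV : Bpf 𝒜 V) {N : ℕ} (hN : V ≤ 𝒜 N) {J : Ideal S}
    (hJ : NoSoc 𝒜 J) {f : S} (hf : f ∉ J) (hp : (col J f).IsPrime) : ∃ x ∈ V, x ∉ col J f := by
  by_contra h
  push Not at h
  have h1 := hV _ ((col J f).homogeneousCore 𝒜).isHomogeneous (hp.homogeneousCore)
  by_cases h2 : ∃ m, 0 < m ∧ ∃ x ∈ 𝒜 m, x ∉ ((col J f).homogeneousCore 𝒜).toIdeal
  · obtain ⟨x, hx, hx'⟩ := h1 h2
    exact hx' (Ideal.mem_homogeneousCore_of_homogeneous_of_mem ⟨N, hN hx⟩ (h x hx))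
  · push Not at h2
    exact hf (hJ f fun m hm z hz => by
      rw [mul_comm]
      exact mem_col.1 (Ideal.toIdeal_homogeneousCore_le 𝒜 (col J f) (h2 m hm z hz)))

lemma Bpf.exists_reg [Infinite k] [IsNoetherianRing S] {V : Submodule k S} (hV : Bpf 𝒜 V) {N : ℕ}
    (hN : V ≤ 𝒜 N) {J J' : Ideal S} (hJ : NoSoc 𝒜 J) (hJ' : NoSoc 𝒜 J') :
    ∃ x ∈ V, col J x = J ∧ col J' x = J' := by
  obtain ⟨Q, hQ, h1, h2⟩ := exists_primes J
  obtain ⟨Q', hQ', h1', h2'⟩ := exists_primes J'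
  have : Finite ↥(Q ∪ Q') := hQ.union hQ'
  obtain ⟨x, hx⟩ := Submodule.exists_forall_notMem_of_forall_ne_top
    (fun P : ↥(Q ∪ Q') => (P.1.restrictScalars k).comap V.subtype) fun P h => by
      have h3 : ∃ x ∈ V, x ∉ P.1 := by
        rcases P.2 with hP | hP
        · obtain ⟨hp, f, hf, h4⟩ := h1 _ hP
          rw [h4] at hp ⊢
          exact hV.exists_notMem hN hJ hf hp
        · obtain ⟨hp, f, hf, h4⟩ := h1' _ hP
          rw [h4] at hp ⊢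
          exact hV.exists_notMem hN hJ' hf hp
      obtain ⟨x, hx, hx'⟩ := h3
      exact hx' (show (⟨x, hx⟩ : V) ∈ (P.1.restrictScalars k).comap V.subtype from
        h ▸ Submodule.mem_top)
  exact ⟨x, x.2, h2 _ fun P hP => hx ⟨P, Or.inl hP⟩, h2' _ fun P hP => hx ⟨P, Or.inr hP⟩⟩

lemma mem_sup_span {J : Ideal S} {f y : S} : y ∈ J ⊔ Ideal.span {f} ↔ ∃ u, y - f * u ∈ J := by
  constructor
  · intro h
    obtain ⟨j, hj, z, hz, rfl⟩ := Submodule.mem_sup.1 h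
    obtain ⟨u, rfl⟩ := Ideal.mem_span_singleton'.1 hz
    exact ⟨u, by rwa [mul_comm f, add_sub_cancel_right]⟩
  · rintro ⟨u, hu⟩
    rw [← sub_add_cancel y (f * u)]
    exact Submodule.add_mem_sup hu (Ideal.mul_mem_right _ _ (Ideal.mem_span_singleton_self f))

lemma reg_cancel {J : Ideal S} {y : S} (h : col J y = J) {f : S} (hf : y * f ∈ J) : f ∈ J :=
  h ▸ (mem_col.2 hf)

lemma swap_reg {J : Ideal S} (hJ : J.IsHomogeneous 𝒜) {a b : ℕ} (ha : 0 < a) {y z : S}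
    (hy : y ∈ 𝒜 a) (hz : z ∈ 𝒜 b) (h1 : col J y = J)
    (h2 : col (J ⊔ Ideal.span {y}) z = J ⊔ Ideal.span {y}) :
    col J z = J ∧ col (J ⊔ Ideal.span {z}) y = J ⊔ Ideal.span {z} := by
  constructor
  · have key : ∀ m, ∀ f ∈ 𝒜 m, z * f ∈ J → f ∈ J := by
      intro m
      induction m using Nat.strong_induction_on with
      | _ m ih =>
        intro f hf hzf
        have h3 := reg_cancel h2 (Ideal.mem_sup_left hzf)
        by_cases hm : m < a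
        · exact mem_sup_hom_lt hJ hy hm hf h3
        · obtain ⟨m', rfl⟩ := Nat.exists_eq_add_of_le (not_lt.1 hm)
          obtain ⟨u, hu, h4⟩ := mem_sup_hom hJ hy hf h3
          have h5 : u ∈ J := ih m' (by omega) u hu (reg_cancel h1 (by
            convert sub_mem hzf (J.mul_mem_left z h4) using 1
            ring))
          simpa using add_mem h4 (J.mul_mem_left y h5)
    refine le_antisymm (fun f hf => ?_) (le_col J z)
    classical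
    rw [← DirectSum.sum_support_decompose 𝒜 f]
    exact Ideal.sum_mem _ fun i _ => key i _ (SetLike.coe_mem _) (col_hom hJ hz i hf)
  · refine le_antisymm (fun f hf => ?_) (le_col _ y)
    obtain ⟨v, hv⟩ := mem_sup_span.1 (mem_col.1 hf)
    obtain ⟨w, hw⟩ := mem_sup_span.1 (reg_cancel h2 (f := v)
      (mem_sup_span.2 ⟨f, by simpa using neg_mem hv⟩))
    refine mem_sup_span.2 ⟨w, reg_cancel h1 ?_⟩
    convert add_mem hv (J.mul_mem_left z hw) using 1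
    ring

omit [GradedAlgebra 𝒜] in
lemma soc_transfer {J : Ideal S} {a : ℕ} (ha : 0 < a) {y θ : S} (hθ : θ ∈ 𝒜 a)
    (h1 : col J y = J) {u : S} (hu : ∀ m, 0 < m → ∀ z ∈ 𝒜 m, z * u ∈ J ⊔ Ideal.span {y}) :
    ∃ v, θ * u - y * v ∈ J ∧ ∀ m, 0 < m → ∀ z ∈ 𝒜 m, z * v ∈ J ⊔ Ideal.span {θ} := by
  obtain ⟨v, hv⟩ := mem_sup_span.1 (hu a ha θ hθ)
  refine ⟨v, hv, fun m hm z hz => ?_⟩
  obtain ⟨w, hw⟩ := mem_sup_span.1 (hu m hm z hz)
  refine mem_sup_span.2 ⟨w, reg_cancel h1 ?_⟩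
  convert sub_mem (J.mul_mem_left θ hw) (J.mul_mem_left z hv) using 1
  ring

lemma back_transfer {J : Ideal S} {y θ u v : S} (h2 : col J θ = J) (h : θ * u - y * v ∈ J)
    (hv : v ∈ J ⊔ Ideal.span {θ}) : u ∈ J ⊔ Ideal.span {y} := by
  obtain ⟨w, hw⟩ := mem_sup_span.1 hv
  refine mem_sup_span.2 ⟨w, reg_cancel h2 ?_⟩
  convert add_mem h (J.mul_mem_left y hw) using 1
  ring

omit [GradedAlgebra 𝒜] in
lemma NoSoc.transfer {J : Ideal S} {a : ℕ} (ha : 0 < a) {y θ : S} (hθ : θ ∈ 𝒜 a)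
    (h1 : col J y = J) (h2 : col J θ = J) (h : NoSoc 𝒜 (J ⊔ Ideal.span {θ})) :
    NoSoc 𝒜 (J ⊔ Ideal.span {y}) := fun _ hu => by
  obtain ⟨v, hv, hv'⟩ := soc_transfer ha hθ h1 hu
  exact back_transfer h2 hv (h v hv')

omit [GradedAlgebra 𝒜] in
lemma Soc.transfer {J : Ideal S} {a : ℕ} (ha : 0 < a) {y θ : S} (hθ : θ ∈ 𝒜 a)
    (h1 : col J y = J) (h2 : col J θ = J) (h : Soc 𝒜 (J ⊔ Ideal.span {θ})) :
    Soc 𝒜 (J ⊔ Ideal.span {y}) := by
  by_cases h0 : NoSoc 𝒜 (J ⊔ Ideal.span {y})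
  · exact ⟨0, fun u hu => ⟨0, by simpa using h0 u hu⟩⟩
  · unfold NoSoc at h0
    push Not at h0
    obtain ⟨u0, hu0, hu0'⟩ := h0
    obtain ⟨σ, hσ⟩ := h
    obtain ⟨v0, hv0, hv0'⟩ := soc_transfer ha hθ h1 hu0
    obtain ⟨c0, hc0⟩ := hσ v0 hv0'
    have hc : c0 ≠ 0 := by
      rintro rfl
      exact hu0' (back_transfer h2 hv0 (by simpa using hc0))
    refine ⟨u0, fun u hu => ?_⟩
    obtain ⟨v, hv, hv'⟩ := soc_transfer ha hθ h1 hu
    obtain ⟨c, hc'⟩ := hσ v hv'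
    refine ⟨c / c0, back_transfer (v := v - (c / c0) • v0) h2 ?_ ?_⟩
    · convert sub_mem hv (smul_mem_ideal J (c / c0) hv0) using 1
      simp only [smul_sub, mul_sub, mul_smul_comm]
      abel
    · convert sub_mem hc' (smul_mem_ideal _ (c / c0) hc0) using 1
      rw [smul_sub, smul_smul, div_mul_cancel₀ _ hc]
      abel

omit [GradedAlgebra 𝒜] in
lemma noSoc_of_reg {J : Ideal S} {a : ℕ} (ha : 0 < a) {θ : S} (hθ : θ ∈ 𝒜 a)
    (h : col J θ = J) : NoSoc 𝒜 J := fun _ hu => reg_cancel h (hu a ha θ hθ)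

omit [GradedAlgebra 𝒜] in
lemma Good.noSoc {J : Ideal S} {j : ℕ} (h : Good 𝒜 J (j + 1)) : NoSoc 𝒜 J := by
  obtain ⟨T, hT, hlen, hreg, -⟩ := h
  obtain _ | ⟨p, T⟩ := T
  · simp at hlen
  · exact noSoc_of_reg (hT p List.mem_cons_self).1 (hT p List.mem_cons_self).2 hreg.1

omit [GradedAlgebra 𝒜] in
lemma good_succ {J : Ideal S} {j : ℕ} : Good 𝒜 J (j + 1) ↔
    ∃ a θ, 0 < a ∧ θ ∈ 𝒜 a ∧ col J θ = J ∧ Good 𝒜 (J ⊔ Ideal.span {θ}) j := by
  constructor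
  · rintro ⟨T, hT, hlen, hreg, hsoc⟩
    obtain _ | ⟨p, T⟩ := T
    · simp at hlen
    · exact ⟨p.1, p.2, (hT p List.mem_cons_self).1, (hT p List.mem_cons_self).2, hreg.1, T,
        fun q hq => hT q (List.mem_cons_of_mem _ hq), by simpa using hlen, hreg.2, hsoc⟩
  · rintro ⟨a, θ, ha, hθ, h, T, hT, hlen, hreg, hsoc⟩
    exact ⟨(a, θ) :: T, by simpa using ⟨⟨ha, hθ⟩, by simpa using hT⟩, by simpa using hlen,
      ⟨h, hreg⟩, hsoc⟩

omit [GradedAlgebra 𝒜] in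
lemma good_zero {J : Ideal S} : Good 𝒜 J 0 ↔ Soc 𝒜 J := by
  constructor
  · rintro ⟨T, -, hlen, -, hsoc⟩
    obtain rfl := List.length_eq_zero_iff.1 hlen
    exact hsoc
  · exact fun h => ⟨[], by simp, rfl, trivial, h⟩

/-- The exchange lemma of Rees. -/
theorem Good.exchange [Infinite k] [IsNoetherianRing S] {N : ℕ} (hN : 0 < N) (hV : Bpf 𝒜 (𝒜 N))
    {j : ℕ} {J : Ideal S} (hJ : J.IsHomogeneous 𝒜) (h : Good 𝒜 J (j + 1)) {b : ℕ} (hb : 0 < b)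
    {y : S} (hy : y ∈ 𝒜 b) (h1 : col J y = J) : Good 𝒜 (J ⊔ Ideal.span {y}) j := by
  induction j generalizing J b y with
  | zero =>
    obtain ⟨a, θ, ha, hθ, h2, h3⟩ := good_succ.1 h
    exact good_zero.2 ((good_zero.1 h3).transfer ha hθ h1 h2)
  | succ j ih =>
    obtain ⟨a, θ, ha, hθ, h2, h3⟩ := good_succ.1 h
    obtain ⟨z, hz, h4, h5⟩ := hV.exists_reg le_rfl h3.noSoc (h3.noSoc.transfer ha hθ h1 h2)
    have h6 := ih (sup_hom hJ hθ) h3 hN hz h4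
    obtain ⟨-, h7⟩ := swap_reg hJ ha hθ hz h2 h4
    obtain ⟨-, h8⟩ := swap_reg hJ hb hy hz h1 h5
    rw [sup_right_comm] at h6
    have h9 := ih (sup_hom hJ hz) (good_succ.2 ⟨a, θ, ha, hθ, h7, h6⟩) hb hy h8
    rw [sup_right_comm] at h9
    exact good_succ.2 ⟨N, z, hN, hz, h5, h9⟩

/-- Regular sequences of maximal length inside a base point free subspace. -/
theorem Good.exists_seq [Infinite k] [IsNoetherianRing S] {N : ℕ} (hN : 0 < N)
    {V : Submodule k S} (hV : Bpf 𝒜 V) (hVN : V ≤ 𝒜 N) {j : ℕ} {J : Ideal S}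
    (hJ : J.IsHomogeneous 𝒜) (h : Good 𝒜 J j) :
    ∃ T : List (ℕ × S), (∀ p ∈ T, p.1 = N ∧ p.2 ∈ V) ∧ T.length = j ∧ Reg J T := by
  have hV' : Bpf 𝒜 (𝒜 N) := fun P h1 h2 h3 => (hV P h1 h2 h3).imp fun x hx => ⟨hVN hx.1, hx.2⟩
  induction j generalizing J with
  | zero => exact ⟨[], by simp, rfl, trivial⟩
  | succ j ih =>
    obtain ⟨y, hy, h1, -⟩ := hV.exists_reg hVN h.noSoc h.noSoc
    obtain ⟨T, hT, hlen, hreg⟩ := ih (sup_hom hJ (hVN hy)) (h.exchange hN hV' hJ hN (hVN hy) h1)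
    exact ⟨(N, y) :: T, by simpa using ⟨hy, by simpa using hT⟩, by simpa using hlen, h1, hreg⟩

/-- Regular sequences that keep a given element regular. -/
theorem Good.exists_seq_keep [Infinite k] [IsNoetherianRing S] {N : ℕ} (hN : 0 < N)
    (hV : Bpf 𝒜 (𝒜 N)) {j : ℕ} {J : Ideal S} (hJ : J.IsHomogeneous 𝒜) (h : Good 𝒜 J (j + 1))
    {b : ℕ} (hb : 0 < b) {g : S} (hg : g ∈ 𝒜 b) (h1 : col J g = J) :
    ∃ T : List (ℕ × S), (∀ p ∈ T, p.1 = N ∧ p.2 ∈ 𝒜 N) ∧ T.length = j ∧ Reg J T ∧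
      Good 𝒜 (idl J T) 1 ∧ col (idl J T) g = idl J T := by
  induction j generalizing J with
  | zero => exact ⟨[], by simp, rfl, trivial, h, h1⟩
  | succ j ih =>
    have h2 := (h.exchange hN hV hJ hb hg h1).noSoc
    obtain ⟨y, hy, h3, -⟩ := hV.exists_reg le_rfl h2 h2
    obtain ⟨h4, h5⟩ := swap_reg hJ hb hg hy h1 h3
    obtain ⟨T, hT, hlen, hreg, h6⟩ := ih (sup_hom hJ hy) (h.exchange hN hV hJ hN hy h4) h5
    exact ⟨(N, y) :: T, by simpa using ⟨hy, by simpa using hT⟩, by simpa using hlen,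
      ⟨h4, hreg⟩, h6⟩

end Pool.Agent.Lib.MP_954e53_ag
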