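import Pool.Agent.Lib.MP_954e53_ag.GenVal
import Pool.Agent.Lib.MP_954e53_ag.CexHeight
import Pool.Agent.Lib.MP_954e53_ag.GenResidue

/-! The criterion of Kempf for normal subrings of Fano complete intersection cones. -/

namespace Pool.Agent.Lib.MP_954e53_ag.Gen

universe u

variable {𝕜 : Type u} [Field 𝕜] [IsAlgClosed 𝕜] [CharZero 𝕜]

open MvPolynomial

/-- The local ring at a prime as a subring of the field of fractions. -/
def e4_loc {R : Type*} [CommRing R] (Q : Ideal R) (hQ : Q.IsPrime) :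
    Subring (FractionRing R) where
  carrier := locAt Q
  mul_mem' := by
    rintro z z' ⟨a, b, hb, e⟩ ⟨a', b', hb', e'⟩
    refine ⟨a * a', b * b', fun h => (hQ.mem_or_mem h).elim hb hb', ?_⟩
    rw [map_mul, map_mul, ← e, ← e']; ring
  one_mem' := ⟨1, 1, hQ.one_notMem, by simp⟩
  add_mem' := by
    rintro z z' ⟨a, b, hb, e⟩ ⟨a', b', hb', e'⟩
    refine ⟨a * b' + a' * b, b * b', fun h => (hQ.mem_or_mem h).elim hb hb', ?_⟩
    rw [map_add, map_mul, map_mul, map_mul, ← e, ← e']; ring
  zero_mem' := ⟨0, 1, hQ.one_notMem, by simp⟩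
  neg_mem' := by
    rintro z ⟨a, b, hb, e⟩
    exact ⟨-a, b, hb, by rw [map_neg, ← e]; ring⟩

theorem e4_mem_loc {R : Type*} [CommRing R] {Q : Ideal R} (hQ : Q.IsPrime) (r : R) :
    algebraMap R (FractionRing R) r ∈ e4_loc Q hQ :=
  ⟨r, 1, hQ.one_notMem, by simp⟩

theorem e4_det_mem {L ι : Type*} [CommRing L] [Fintype ι] [DecidableEq ι] (T : Subring L)
    (A : Matrix ι ι L) (h : ∀ i j, A i j ∈ T) : A.det ∈ T := by
  rw [Matrix.det_apply']
  exact T.sum_mem fun σ _ => T.mul_mem (intCast_mem T _) (T.prod_mem fun i _ => h _ _)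

theorem e4_top {K M : Type*} [Field K] [AddCommGroup M] [Module K M] {n : ℕ}
    (b : Module.Basis (Fin n) K M) (η : ⋀[K]^n M) :
    η = exteriorPower.alternatingMapLinearEquiv b.det η • exteriorPower.ιMulti K n b := by
  have key : (LinearMap.id : ⋀[K]^n M →ₗ[K] ⋀[K]^n M) =
      (exteriorPower.alternatingMapLinearEquiv b.det).smulRight (exteriorPower.ιMulti K n b) := by
    apply exteriorPower.linearMap_ext
    ext1 v
    simp only [LinearMap.compAlternatingMap_apply, LinearMap.id_apply, LinearMap.smulRight_apply,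
      exteriorPower.alternatingMapLinearEquiv_apply_ιMulti]
    rw [← sub_eq_zero, ← Module.forall_dual_apply_eq_zero_iff K]
    intro φ
    have := congrArg (fun f => f v)
      ((φ.compAlternatingMap (exteriorPower.ιMulti K n)).eq_smul_basis_det b)
    simp only [LinearMap.compAlternatingMap_apply, AlternatingMap.smul_apply, smul_eq_mul] at this
    rw [map_sub, map_smul, this, smul_eq_mul, mul_comm, sub_self]
  exact LinearMap.congr_fun key η

theorem e4_der {R ι : Type*} [CommRing R] [IsDomain R] [Algebra 𝕜 R] [Fintype ι] (x : ι → R)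
    (hgen : Algebra.adjoin 𝕜 (Set.range x) = ⊤) {Q : Ideal R} (hQ : Q.IsPrime)
    {z : FractionRing R} (hz : z ∈ e4_loc Q hQ) : ∃ A : ι → FractionRing R,
      (∀ s, A s ∈ e4_loc Q hQ) ∧ ∀ D : Derivation 𝕜 (FractionRing R) (FractionRing R),
        D z = ∑ s, A s * D (algebraMap R _ (x s)) := by
  classical
  have base : ∀ r : R, ∃ A : ι → R, ∀ D : Derivation 𝕜 (FractionRing R) (FractionRing R),
      D (algebraMap R _ r) = ∑ s, algebraMap R _ (A s) * D (algebraMap R _ (x s)) := by
    intro r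
    have hr : r ∈ Algebra.adjoin 𝕜 (Set.range x) := hgen ▸ Algebra.mem_top
    induction hr using Algebra.adjoin_induction with
    | mem y hy =>
      obtain ⟨i, rfl⟩ := hy
      refine ⟨Pi.single i 1, fun D => ?_⟩
      rw [Finset.sum_eq_single i (fun j _ hj => by simp [hj]) (by simp)]
      simp
    | algebraMap a =>
      refine ⟨0, fun D => ?_⟩
      rw [← IsScalarTower.algebraMap_apply]
      simp
    | add y y' _ _ h1 h2 =>
      obtain ⟨A, hA⟩ := h1
      obtain ⟨B, hB⟩ := h2
      refine ⟨A + B, fun D => ?_⟩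
      simp only [map_add, hA, hB, Pi.add_apply, add_mul, Finset.sum_add_distrib]
    | mul y y' _ _ h1 h2 =>
      obtain ⟨A, hA⟩ := h1
      obtain ⟨B, hB⟩ := h2
      refine ⟨fun s => y * B s + y' * A s, fun D => ?_⟩
      simp only [map_mul, Derivation.leibniz, hA, hB, smul_eq_mul, map_add, add_mul,
        Finset.sum_add_distrib, Finset.mul_sum, mul_assoc]
  obtain ⟨a, b, hb, e⟩ := hz
  obtain ⟨A, hA⟩ := base a
  obtain ⟨B, hB⟩ := base b
  have hb0 : algebraMap R (FractionRing R) b ≠ 0 := by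
    rw [Ne, FaithfulSMul.algebraMap_eq_zero_iff]
    rintro rfl
    exact hb Q.zero_mem
  have hinv : (algebraMap R (FractionRing R) b)⁻¹ ∈ e4_loc Q hQ :=
    ⟨1, b, hb, by rw [inv_mul_cancel₀ hb0, map_one]⟩
  refine ⟨fun s => (algebraMap R _ b)⁻¹ * (algebraMap R _ (A s) - z * algebraMap R _ (B s)),
    fun s => mul_mem hinv (sub_mem (e4_mem_loc hQ _) (mul_mem ⟨a, b, hb, e⟩ (e4_mem_loc hQ _))),
    fun D => ?_⟩
  have k := congrArg D e
  rw [Derivation.leibniz, hA, hB, smul_eq_mul, smul_eq_mul] at k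
  apply mul_left_cancel₀ hb0
  simp only [Finset.mul_sum, ← mul_assoc, mul_inv_cancel₀ hb0, one_mul, sub_mul,
    Finset.sum_sub_distrib]
  rw [← k, Finset.mul_sum]
  simp only [mul_assoc]
  ring

variable {c d : ℕ} {F : Fin c ⊕ Fin d → MvPolynomial (Fin c ⊕ Fin d) 𝕜}

theorem formsExtend_of_ci {S R : Type u} [CommRing S] [IsDomain S] [CommRing R] [IsDomain R]
    [Algebra 𝕜 S] [Algebra 𝕜 R] [Algebra S R] [IsScalarTower 𝕜 S R] [FaithfulSMul S R]
    [Algebra.IsIntegral S R] [IsIntegrallyClosed S] [IsIntegrallyClosed R]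
    (h : Octics F) (hfano : 8 * c < c + d) (x : Fin c ⊕ Fin d → R)
    (hgen : Algebra.adjoin 𝕜 (Set.range x) = ⊤) (hx : ∀ l : Fin c, aeval x (F (.inl l)) = 0)
    (htr : Algebra.trdeg 𝕜 R ≤ d) : FormsExtend 𝕜 S d := by
  classical
  obtain ⟨e, rfl⟩ : ∃ e, d = e + 1 := ⟨d - 1, by omega⟩
  intro η hη O hSO hO
  obtain ⟨hdvr, t, ht⟩ := hO
  let _ : Algebra (FractionRing S) (FractionRing R) := FractionRing.liftAlgebra S (FractionRing R)
  have hSKL : IsScalarTower S (FractionRing S) (FractionRing R) :=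
    FractionRing.isScalarTower_liftAlgebra S (FractionRing R)
  have hmap : ∀ s : S, algebraMap (FractionRing S) (FractionRing R) (algebraMap S _ s) =
      algebraMap R _ (algebraMap S R s) := fun s => by
    rw [← IsScalarTower.algebraMap_apply, ← IsScalarTower.algebraMap_apply]
  have hCKL : IsScalarTower 𝕜 (FractionRing S) (FractionRing R) :=
    IsScalarTower.of_algebraMap_eq fun a => by
      rw [IsScalarTower.algebraMap_apply 𝕜 S (FractionRing S), hmap,
        ← IsScalarTower.algebraMap_apply, ← IsScalarTower.algebraMap_apply]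
  have hft : Algebra.FiniteType 𝕜 R :=
    ⟨⟨(Set.finite_range x).toFinset, by simpa using hgen⟩⟩
  have hnoeth : IsNoetherianRing R := Algebra.FiniteType.isNoetherianRing 𝕜 R
  have hess : Algebra.EssFiniteType 𝕜 (FractionRing R) :=
    have := Algebra.EssFiniteType.of_isLocalization (FractionRing R) (nonZeroDivisors R)
    Algebra.EssFiniteType.comp 𝕜 R (FractionRing R)
  have htr' : Algebra.trdeg 𝕜 (FractionRing R) ≤ (e + 1 : ℕ) := by
    have := IsLocalization.isAlgebraic (FractionRing R) (nonZeroDivisors R)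
    rw [← trdeg_add_eq 𝕜 R (A := FractionRing R), trdeg_eq_zero (R := R), add_zero]
    exact htr
  obtain ⟨π, O', D, hπ, hy, hOO', hD, hfin⟩ := exists_valuation_lift htr' O t ht
  set y : Fin (e + 1) → FractionRing S := Fin.cons π t with hy0
  obtain ⟨b, hb⟩ := b0_exists_basis hy
  have hrepr : ∀ (a : FractionRing S) (i : Fin (e + 1)),
      algebraMap _ (FractionRing R) (b.repr (KaehlerDifferential.D 𝕜 _ a) i) =
        D i (algebraMap _ _ a) := by
    intro a i
    let l := ((D i).compAlgebraMap (FractionRing S)).liftKaehlerDifferential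
    have h1 : ∀ z, l (KaehlerDifferential.D 𝕜 _ z) = D i (algebraMap _ _ z) := fun z =>
      Derivation.liftKaehlerDifferential_comp_D _ z
    have h2 : ∀ j, l (b j) = if j = i then 1 else 0 := fun j => by rw [hb, h1, hD]
    rw [← h1]
    conv_rhs => rw [← b.sum_repr (KaehlerDifferential.D 𝕜 _ a), map_sum]
    simp only [map_smul, h2, smul_ite, smul_zero, Finset.sum_ite_eq', Finset.mem_univ, if_true]
    rw [Algebra.algebraMap_eq_smul_one]
  let Ψ := exteriorPower.alternatingMapLinearEquiv b.det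
  have hΨ : ∀ a : Fin (e + 1) → FractionRing S, algebraMap _ (FractionRing R)
      (Ψ (exteriorPower.ιMulti _ _ fun j => KaehlerDifferential.D 𝕜 _ (a j))) =
      (Matrix.of fun i j => D i (algebraMap _ _ (a j))).det := by
    intro a
    rw [exteriorPower.alternatingMapLinearEquiv_apply_ιMulti, Module.Basis.det_apply,
      RingHom.map_det]
    congr 1
    ext i j
    exact hrepr (a j) i
  let x' : Fin c ⊕ Fin (e + 1) → FractionRing R := fun s => algebraMap R _ (x s)
  have hall : ∀ z : FractionRing R, z ∈ e4_loc (⊥ : Ideal R) Ideal.isPrime_bot := by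
    intro z
    obtain ⟨a, b, hb, rfl⟩ := IsFractionRing.div_surjective (A := R) z
    have hb0 : b ≠ 0 := nonZeroDivisors.ne_zero hb
    refine ⟨a, b, by simpa using hb0, div_mul_cancel₀ _ ?_⟩
    rwa [Ne, FaithfulSMul.algebraMap_eq_zero_iff]
  have hx0 : x' ≠ 0 := by
    intro h0
    obtain ⟨A, -, hA⟩ := e4_der x hgen _ (hall (algebraMap _ _ (y 0)))
    have k := hA (D 0)
    have k2 : ∀ s, algebraMap R (FractionRing R) (x s) = 0 := fun s => congrFun h0 s
    simp [hD, k2] at k
  have haev : ∀ p : MvPolynomial _ 𝕜, aeval x' p = algebraMap R (FractionRing R) (aeval x p) := fun p =>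
    aeval_algebraMap_apply (FractionRing R) x p
  obtain ⟨η0, h1, h2⟩ := exists_residue h hfano x' hx0 (fun l => by rw [haev, hx, map_zero]) D
  have hdet : ∀ (Q : Ideal R) (hQ : Q.IsPrime) (a : Fin (e + 1) → FractionRing R),
      (∀ j, a j ∈ e4_loc Q hQ) →
      ∃ z ∈ e4_loc Q hQ, (Matrix.of fun i j => D i (a j)).det = η0 * z := by
    intro Q hQ a ha
    choose A hA hA2 using fun j => e4_der x hgen hQ (ha j)
    refine ⟨_, e4_det_mem _ _ ?_, Eq.trans ?_ (h1 (Matrix.of A))⟩
    · rintro (l | j) s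
      · simp only [Matrix.fromRows_apply_inl, Matrix.of_apply, haev]
        exact e4_mem_loc hQ _
      · exact hA j s
    · congr 1
      ext i j
      exact hA2 j (D i)
  have hη0 : η0 ≠ 0 := by
    obtain ⟨z, -, hz⟩ := hdet ⊥ Ideal.isPrime_bot (fun j => algebraMap _ _ (y j)) fun j => hall _
    have k : (Matrix.of fun i j => D i (algebraMap _ (FractionRing R) (y j))) = 1 := by
      ext i j
      rw [Matrix.of_apply, hD, Matrix.one_apply]
      simp only [eq_comm]
    rw [k, Matrix.det_one] at hz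
    rintro rfl
    simp at hz
  have hloc : ∀ (Q : Ideal R) (hQ : Q.IsPrime), Q.height = 1 →
      η0⁻¹ * algebraMap _ (FractionRing R) (Ψ η) ∈ e4_loc Q hQ := by
    intro Q hQ hQ1
    have k := hη _ (Ideal.comap_isPrime (algebraMap S R) Q) (height_comap_eq_one Q hQ1)
    have up : ∀ z ∈ locAt (Q.comap (algebraMap S R)),
        algebraMap _ (FractionRing R) z ∈ e4_loc Q hQ := by
      rintro z ⟨a, b, hb, e⟩
      exact ⟨algebraMap S R a, algebraMap S R b, hb, by rw [← hmap, ← hmap, ← map_mul, e]⟩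
    unfold regForms at k
    clear hη
    induction k using AddSubgroup.closure_induction with
    | mem ω hω =>
      obtain ⟨u, hu, a, ha, rfl⟩ := hω
      obtain ⟨z, hz, hz2⟩ := hdet Q hQ (fun j => algebraMap _ _ (a j)) fun j => up _ (ha j)
      rw [map_smul, smul_eq_mul, map_mul, hΨ, hz2, mul_left_comm, inv_mul_cancel_left₀ hη0]
      exact mul_mem (up u hu) hz
    | zero => simp
    | add ω ω' _ _ k1 k2 => rw [map_add, map_add, mul_add]; exact add_mem k1 k2
    | neg ω _ k1 => rw [map_neg, map_neg, mul_neg]; exact neg_mem k1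
  obtain ⟨r, hr⟩ := mem_of_forall_height_one _ hloc
  have hRO : ∀ r : R, algebraMap R (FractionRing R) r ∈ O' := by
    intro r
    let φ : S →+* O' := ((algebraMap R (FractionRing R)).comp (algebraMap S R)).codRestrict O'
      fun s => by rw [RingHom.comp_apply, ← hmap]; exact hOO' _ (hSO s)
    have k : IsIntegral O' (algebraMap R (FractionRing R) r) :=
      IsIntegral.map_of_comp_eq φ _ (by ext s; rfl) (Algebra.IsIntegral.isIntegral (R := S) r)
    obtain ⟨z, hz⟩ := IsIntegrallyClosed.isIntegral_iff.1 k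
    exact hz ▸ z.2
  obtain ⟨v, hv, a, ha, hva⟩ := h2 O' (fun a => by
    rw [IsScalarTower.algebraMap_apply 𝕜 R]; exact hRO _) fun s => hRO _
  have hu : Ψ η ∈ O := by
    refine hfin _ (AddSubgroup.subset_closure ⟨algebraMap R _ r * v, mul_mem (hRO r) hv, a, ha, ?_⟩)
    rw [mul_assoc, ← hva, hr, mul_comm, mul_inv_cancel_left₀ hη0]
  refine AddSubgroup.subset_closure ⟨Ψ η, hu, y, fun i => ?_, ?_⟩
  · refine Fin.cases hπ (fun j => ?_) i
    have k := ht (X j) (X_ne_zero j)
    rw [aeval_X] at k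
    exact (O.valuation_le_one_iff _).1 k.le
  · rw [← funext hb]
    exact e4_top b η

end Pool.Agent.Lib.MP_954e53_ag.Gen
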