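import Pool.Agent.Lib.MP_954e53_ag.GenData

/-! The Reynolds operator and homogeneous components of invariants. -/

namespace Pool.Agent.Lib.MP_954e53_ag.Gen

universe u

variable {𝕜 : Type u} [Field 𝕜] [IsAlgClosed 𝕜] [CharZero 𝕜]

open MvPolynomial

section general

variable {ι : Type} [Fintype ι]

lemma act_homogeneousComponent (M : Matrix ι ι 𝕜) (n : ℕ) (f : MvPolynomial ι 𝕜) :
    act M (homogeneousComponent n f) = homogeneousComponent n (act M f) := by
  conv_rhs => rw [← f.sum_homogeneousComponent, map_sum, map_sum]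
  rw [Finset.sum_eq_single n (fun m _ hm => by
    rw [homogeneousComponent_of_mem (act_hom M (homogeneousComponent_isHomogeneous m f)),
      if_neg hm.symm]) (fun hn => by
    rw [homogeneousComponent_eq_zero n f (by simpa using hn), map_zero, map_zero]),
    homogeneousComponent_eq_self (act_hom M (homogeneousComponent_isHomogeneous n f))]

lemma eval_smul_of_hom {f : MvPolynomial ι 𝕜} {n : ℕ} (hf : f.IsHomogeneous n) (z : 𝕜)
    (y : ι → 𝕜) : eval (z • y) f = z ^ n * eval y f := by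
  classical
  rw [eval_eq', eval_eq', Finset.mul_sum]
  refine Finset.sum_congr rfl fun e he => ?_
  have h1 : ∑ i, e i = n := by
    rw [← Finsupp.degree_eq_sum]
    by_contra h
    exact (mem_support_iff.mp he) (hf.coeff_eq_zero h)
  simp only [Pi.smul_apply, smul_eq_mul, mul_pow, Finset.prod_mul_distrib,
    Finset.prod_pow_eq_pow_sum, h1]
  ring

lemma act_scalar [DecidableEq ι] (z : 𝕜) {f : MvPolynomial ι 𝕜} {n : ℕ} (hf : f.IsHomogeneous n) :
    act (z • (1 : Matrix ι ι 𝕜)) f = z ^ n • f :=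
  MvPolynomial.funext fun y => by
    rw [eval_act, Matrix.smul_mulVec, Matrix.one_mulVec, eval_smul_of_hom hf, smul_eval]

lemma act_mem_span (M : Matrix ι ι 𝕜) {s : Set (MvPolynomial ι 𝕜)} (hs : ∀ u ∈ s, act M u = u)
    {f : MvPolynomial ι 𝕜} (hf : f ∈ Ideal.span s) : act M f ∈ Ideal.span s := by
  have h : Ideal.span s ≤ (Ideal.span s).comap (act M) := Ideal.span_le.2 fun u hu => by
    change act M u ∈ Ideal.span s
    rw [hs u hu]
    exact Ideal.subset_span hu
  exact h hf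

variable [DecidableEq ι] {G : Type} [Group G] {ρ : G →* Matrix ι ι 𝕜}

lemma inv_homogeneousComponent {f : MvPolynomial ι 𝕜} (hf : ∀ g, act (ρ g) f = f) (n : ℕ) (g : G) :
    act (ρ g) (homogeneousComponent n f) = homogeneousComponent n f := by
  rw [act_homogeneousComponent, hf]

/-- Invariant forms have degree divisible by four. -/
lemma GroupData.inv_hom_eq_zero {c : ℕ} (h : GroupData ρ c) {f : MvPolynomial ι 𝕜} {n : ℕ}
    (hf : f.IsHomogeneous n) (hi : ∀ g, act (ρ g) f = f) (hn : ¬4 ∣ n) : f = 0 := by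
  obtain ⟨g, ζ, hζ, hg⟩ := h.scalar
  have h1 := hi g
  rw [hg, act_scalar _ hf] at h1
  have h2 : (ζ ^ n - 1) • f = 0 := by rw [sub_smul, h1, one_smul, sub_self]
  refine (smul_eq_zero.mp h2).resolve_left fun h3 => hn ?_
  exact (hζ.pow_eq_one_iff_dvd n).mp (sub_eq_zero.mp h3)

variable [Finite G]

/-- The Reynolds operator. -/
noncomputable def rey (ρ : G →* Matrix ι ι 𝕜) : MvPolynomial ι 𝕜 →ₗ[𝕜] MvPolynomial ι 𝕜 :=
  (Nat.card G : 𝕜)⁻¹ • ∑ g ∈ (Set.finite_univ (α := G)).toFinset, (act (ρ g)).toLinearMap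

lemma rey_apply [Fintype G] (f : MvPolynomial ι 𝕜) :
    rey ρ f = (Nat.card G : 𝕜)⁻¹ • ∑ g, act (ρ g) f := by
  simp [rey, LinearMap.sum_apply]

lemma rey_inv (f : MvPolynomial ι 𝕜) (g : G) : act (ρ g) (rey ρ f) = rey ρ f := by
  have := Fintype.ofFinite G
  rw [rey_apply, map_smul, map_sum]
  refine congrArg _ ?_
  simp only [act_act, ← map_mul]
  exact Fintype.sum_equiv (Equiv.mulRight g) _ _ fun _ => rfl

lemma rey_mem_invAlg (f : MvPolynomial ι 𝕜) : rey ρ f ∈ invAlg ρ := mem_invAlg.2 (rey_inv f)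

lemma rey_of_inv {f : MvPolynomial ι 𝕜} (hf : ∀ g, act (ρ g) f = f) : rey ρ f = f := by
  have := Fintype.ofFinite G
  have h : ((Nat.card G : ℕ) : 𝕜) ≠ 0 := by exact_mod_cast Nat.card_pos.ne'
  rw [rey_apply]
  simp only [hf, Finset.sum_const, Finset.card_univ, ← Nat.card_eq_fintype_card,
    ← Nat.cast_smul_eq_nsmul 𝕜, smul_smul, inv_mul_cancel₀ h, one_smul]

lemma rey_mul (b : MvPolynomial ι 𝕜) {u : MvPolynomial ι 𝕜} (hu : ∀ g, act (ρ g) u = u) :
    rey ρ (b * u) = rey ρ b * u := by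
  have := Fintype.ofFinite G
  simp only [rey_apply, map_mul, hu, smul_mul_assoc, Finset.sum_mul]

lemma rey_hom {f : MvPolynomial ι 𝕜} {n : ℕ} (hf : f.IsHomogeneous n) :
    (rey ρ f).IsHomogeneous n := by
  have := Fintype.ofFinite G
  rw [rey_apply]
  exact (homogeneousSubmodule ι 𝕜 n).smul_mem _
    (IsHomogeneous.sum _ _ _ fun g _ => act_hom _ hf)

lemma rey_mem_span {s : Set (MvPolynomial ι 𝕜)} (hs : ∀ u ∈ s, ∀ g, act (ρ g) u = u)
    {f : MvPolynomial ι 𝕜} (hf : f ∈ Ideal.span s) : rey ρ f ∈ Ideal.span s := by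
  have := Fintype.ofFinite G
  rw [rey_apply, smul_eq_C_mul]
  exact Ideal.mul_mem_left _ _
    (Ideal.sum_mem _ fun g _ => act_mem_span _ (fun u hu => hs u hu g) hf)

/-- A polynomial that is invariant modulo an ideal is congruent to an invariant. -/
lemma rey_sub_mem {J : Ideal (MvPolynomial ι 𝕜)} {f : MvPolynomial ι 𝕜}
    (hf : ∀ g, act (ρ g) f - f ∈ J) : rey ρ f - f ∈ J := by
  have := Fintype.ofFinite G
  have h : ((Nat.card G : ℕ) : 𝕜) ≠ 0 := by exact_mod_cast Nat.card_pos.ne'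
  have h1 : rey ρ f - f = (Nat.card G : 𝕜)⁻¹ • ∑ g, (act (ρ g) f - f) := by
    rw [rey_apply, Finset.sum_sub_distrib, smul_sub]
    simp only [Finset.sum_const, Finset.card_univ, ← Nat.card_eq_fintype_card,
      ← Nat.cast_smul_eq_nsmul 𝕜, smul_smul, inv_mul_cancel₀ h, one_smul]
  rw [h1, smul_eq_C_mul]
  exact Ideal.mul_mem_left _ _ (Ideal.sum_mem _ fun g _ => hf g)

/-- An invariant in an ideal spanned by invariants is a combination with invariant coefficients. -/
lemma exists_inv_coeff {κ : Type*} [Fintype κ] {u : κ → MvPolynomial ι 𝕜}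
    (hu : ∀ g l, act (ρ g) (u l) = u l) {f : MvPolynomial ι 𝕜} (hf : ∀ g, act (ρ g) f = f)
    (h : f ∈ Ideal.span (Set.range u)) :
    ∃ b : κ → MvPolynomial ι 𝕜, (∀ g l, act (ρ g) (b l) = b l) ∧ f = ∑ l, b l * u l := by
  obtain ⟨b, hb⟩ := Ideal.mem_span_range_iff_exists_fun.mp h
  refine ⟨fun l => rey ρ (b l), fun g l => rey_inv _ g, ?_⟩
  rw [← rey_of_inv hf, ← hb, map_sum]
  exact Finset.sum_congr rfl fun l _ => rey_mul _ fun g => hu g l

end general

variable {c d : ℕ} {F : Fin c ⊕ Fin d → MvPolynomial (Fin c ⊕ Fin d) 𝕜}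

/-- The ideal of the cone is homogeneous. -/
lemma Octics.homogeneousComponent_mem (h : Octics F) {f : MvPolynomial (Fin c ⊕ Fin d) 𝕜}
    (hf : f ∈ eqIdeal F) (n : ℕ) : homogeneousComponent n f ∈ eqIdeal F := by
  let _ := MvPolynomial.gradedAlgebra (σ := Fin c ⊕ Fin d) (R := 𝕜)
  refine homogeneousComponent_mem_of_mem (Ideal.homogeneous_span _ _ ?_) hf n
  rintro _ ⟨l, rfl⟩
  exact ⟨8, h.hom _⟩

lemma CIData.act_mem {G : Type} [Group G] {ρ : G →* Matrix (Fin c ⊕ Fin d) (Fin c ⊕ Fin d) 𝕜}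
    (h : CIData ρ F) (g : G) {f : MvPolynomial (Fin c ⊕ Fin d) 𝕜} (hf : f ∈ eqIdeal F) :
    act (ρ g) f ∈ eqIdeal F :=
  act_mem_span _ (by rintro _ ⟨l, rfl⟩; exact h.inv g _) hf

end Pool.Agent.Lib.MP_954e53_ag.Gen
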