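import Pool.Agent.Lib.MP_954e53_ag.GenSpec
import Pool.Agent.Lib.MP_954e53_ag.GenRey

/-! The data of the counterexample can be moved from one ground field to another. -/

namespace Pool.Agent.Lib.MP_954e53_ag.Gen

open MvPolynomial

universe u

section ring

variable {ι R R' : Type*} [Fintype ι] [CommRing R] [CommRing R']

/-- Linear substitution over a ring. -/
noncomputable def actR (M : Matrix ι ι R) : MvPolynomial ι R →ₐ[R] MvPolynomial ι R :=
  aeval fun i => ∑ j, C (M i j) * X j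

lemma map_actR (φ : R →+* R') (M : Matrix ι ι R) (f : MvPolynomial ι R) :
    map φ (actR M f) = actR (M.map φ) (map φ f) := by
  induction f using MvPolynomial.induction_on with
  | C a => simp [actR]
  | add p q hp hq => simp only [map_add, hp, hq]
  | mul_X p i hp =>
    simp only [map_mul, hp, map_X]
    simp [actR]

end ring

lemma surj_iff {L m n : Type*} [Field L] [Fintype m] [Fintype n] (M : Matrix m n L) :
    Function.Surjective M.mulVec ↔ ∀ w : m → L, (∀ j, ∑ l, w l * M l j = 0) → w = 0 := by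
  classical
  constructor
  · intro h w hw
    obtain ⟨B, hB⟩ := Matrix.mulVec_surjective_iff_exists_right_inverse.1 h
    have h1 : Matrix.vecMul w M = 0 := funext hw
    rw [← Matrix.vecMul_one w, ← hB, ← Matrix.vecMul_vecMul, h1, Matrix.zero_vecMul]
  · intro h
    have h1 : LinearIndependent L M.row := by
      rw [← Matrix.vecMul_injective_iff]
      exact (injective_iff_map_eq_zero M.vecMulLinear).2 fun w hw => h w (congrFun hw)
    have h2 : LinearMap.range M.mulVecLin = ⊤ :=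
      Submodule.eq_top_of_finrank_eq (h1.rank_matrix.trans (by simp))
    exact LinearMap.range_eq_top.1 h2

section conditions

variable {c d : ℕ} {R L : Type*} [CommRing R] [Field L] (ψ : R →+* L)
  (F : Fin c ⊕ Fin d → MvPolynomial (Fin c ⊕ Fin d) R)

lemma hsop_iff : (∀ y : Fin c ⊕ Fin d → L, (∀ l, eval y (map ψ (F l)) = 0) → y = 0) ↔
    ∀ i, ∀ y : Fin c ⊕ Fin d → L, (∀ l, eval₂ ψ y (F l) = 0) → eval₂ ψ y (X i) = 0 := by
  simp only [eval_map, eval₂_X]
  exact ⟨fun h i y hy => congrFun (h y hy) i, fun h y hy => funext fun i => h i y hy⟩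

/-- Equations for a singular point of the cone. -/
noncomputable def singEq : Fin c ⊕ (Fin c ⊕ Fin d) → MvPolynomial ((Fin c ⊕ Fin d) ⊕ Fin c) R :=
  Sum.elim (fun l => rename .inl (F (.inl l)))
    fun j => ∑ l, X (.inr l) * rename .inl (pderiv j (F (.inl l)))

lemma singEq_iff (v : (Fin c ⊕ Fin d) ⊕ Fin c → L) : (∀ t, eval₂ ψ v (singEq F t) = 0) ↔
    (∀ l, eval₂ ψ (v ∘ .inl) (F (.inl l)) = 0) ∧
      ∀ j, ∑ l, v (.inr l) * eval₂ ψ (v ∘ .inl) (pderiv j (F (.inl l))) = 0 := by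
  rw [Sum.forall]
  simp only [singEq, Sum.elim_inl, Sum.elim_inr, eval₂_sum, eval₂_mul, eval₂_X, eval₂_rename]

lemma smooth_iff : (∀ y : Fin c ⊕ Fin d → L, y ≠ 0 →
      (∀ l : Fin c, eval y (map ψ (F (.inl l))) = 0) → Function.Surjective
      (Matrix.of fun (l : Fin c) j => eval y (pderiv j (map ψ (F (.inl l))))).mulVec) ↔
    ∀ a : (Fin c ⊕ Fin d) × Fin c, ∀ v, (∀ t, eval₂ ψ v (singEq F t) = 0) →
      eval₂ ψ v (X (.inl a.1) * X (.inr a.2)) = 0 := by
  simp only [surj_iff, pderiv_map, eval_map, Matrix.of_apply, singEq_iff, eval₂_mul, eval₂_X]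
  constructor
  · rintro h ⟨i, l⟩ v ⟨h1, h2⟩
    by_cases hy : v ∘ Sum.inl = 0
    · exact mul_eq_zero_of_left (congrFun hy i) _
    · exact mul_eq_zero_of_right _ (congrFun (h _ hy h1 (v ∘ Sum.inr) h2) l)
  · intro h y hy h1 w hw
    obtain ⟨i, hi⟩ := Function.ne_iff.1 hy
    exact funext fun l => (mul_eq_zero.1 (h ⟨i, l⟩ (Sum.elim y w) ⟨h1, hw⟩)).resolve_left hi

/-- Equations for an eigenvector on the cone. -/
noncomputable def eigEq (M : Matrix (Fin c ⊕ Fin d) (Fin c ⊕ Fin d) R) :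
    Fin c ⊕ (Fin c ⊕ Fin d) → MvPolynomial (Option (Fin c ⊕ Fin d)) R :=
  Sum.elim (fun l => rename some (F (.inl l)))
    fun i => ∑ j, C (M i j) * X (some j) - X none * X (some i)

lemma eigEq_iff (M : Matrix (Fin c ⊕ Fin d) (Fin c ⊕ Fin d) R) (v : Option (Fin c ⊕ Fin d) → L) :
    (∀ t, eval₂ ψ v (eigEq F M t) = 0) ↔ (∀ l, eval₂ ψ (v ∘ some) (F (.inl l)) = 0) ∧
      ∀ i, ∑ j, ψ (M i j) * v (some j) - v none * v (some i) = 0 := by
  rw [Sum.forall]
  simp only [eigEq, Sum.elim_inl, Sum.elim_inr, eval₂_sum, eval₂_mul, eval₂_X, eval₂_rename,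
    eval₂_sub, eval₂_C]

lemma stab_iff {G : Type*} (ρ : G → Matrix (Fin c ⊕ Fin d) (Fin c ⊕ Fin d) R) :
    (∀ y : Fin c ⊕ Fin d → L, y ≠ 0 → (∀ l : Fin c, eval y (map ψ (F (.inl l))) = 0) →
      ∀ (g : G) (z : L), ((ρ g).map ψ).mulVec y = z • y → z ^ 4 = 1) ↔
    ∀ a : G × (Fin c ⊕ Fin d), ∀ v, (∀ t, eval₂ ψ v (eigEq F (ρ a.1) t) = 0) →
      eval₂ ψ v (X (some a.2) * (X none ^ 4 - 1)) = 0 := by
  simp only [eval_map, eigEq_iff, eval₂_mul, eval₂_X, eval₂_sub, eval₂_pow, eval₂_one]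
  constructor
  · rintro h ⟨g, i⟩ v ⟨h1, h2⟩
    by_cases hy : v ∘ some = 0
    · exact mul_eq_zero_of_left (congrFun hy i) _
    · exact mul_eq_zero_of_right _ (sub_eq_zero.2
        (h _ hy h1 g (v none) (funext fun j => sub_eq_zero.1 (h2 j))))
  · intro h y hy h1 g z hz
    obtain ⟨i, hi⟩ := Function.ne_iff.1 hy
    exact sub_eq_zero.1 ((mul_eq_zero.1 (h ⟨g, i⟩ (fun o => o.elim z y)
      ⟨h1, fun j => sub_eq_zero.2 (congrFun hz j)⟩)).resolve_left hi)

end conditions

lemma primitive_of_sq {L : Type*} [Field L] [CharZero L] {w : L} (h : w ^ 2 = -1) :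
    IsPrimitiveRoot w 4 := by
  refine IsPrimitiveRoot.mk_of_lt w (by norm_num) (by linear_combination (w ^ 2 - 1) * h)
    fun l h1 h2 h3 => ?_
  have : (2 : L) = 0 := by
    interval_cases l
    · linear_combination h - (w + 1) * h3
    · linear_combination h - h3
    · linear_combination (1 + w - w ^ 2) * h - (1 - w) * h3
  exact two_ne_zero this

theorem transfer (𝕜 : Type u) [Field 𝕜] [IsAlgClosed 𝕜] [CharZero 𝕜] {K : Type} [Field K]
    [IsAlgClosed K] [CharZero K] {c d : ℕ} {G : Type} [Group G] [Finite G]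
    {ρ : G →* Matrix (Fin c ⊕ Fin d) (Fin c ⊕ Fin d) K}
    {F : Fin c ⊕ Fin d → MvPolynomial (Fin c ⊕ Fin d) K} (h : GroupData ρ c) (hF : CIData ρ F) :
    ∃ (ρ' : G →* Matrix (Fin c ⊕ Fin d) (Fin c ⊕ Fin d) 𝕜)
      (F' : Fin c ⊕ Fin d → MvPolynomial (Fin c ⊕ Fin d) 𝕜), GroupData ρ' c ∧ CIData ρ' F' := by
  classical
  have := Fintype.ofFinite G
  obtain ⟨g₀, z, hz, hg₀⟩ := h.scalar
  obtain ⟨T, hzT, hρT, hFT⟩ : ∃ T : Finset K, z ∈ T ∧ (∀ g i j, ρ g i j ∈ T) ∧
      ∀ l, (F l).coeffs ⊆ T :=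
    ⟨insert z ((Finset.univ.image fun a : G × _ × _ => ρ a.1 a.2.1 a.2.2) ∪
      Finset.univ.biUnion fun l => (F l).coeffs), Finset.mem_insert_self _ _,
      fun g i j => Finset.mem_insert_of_mem (Finset.mem_union_left _
        (Finset.mem_image.2 ⟨(g, i, j), Finset.mem_univ _, rfl⟩)),
      fun l a ha => Finset.mem_insert_of_mem (Finset.mem_union_right _
        (Finset.mem_biUnion.2 ⟨l, Finset.mem_univ _, ha⟩))⟩
  have hinj : Function.Injective (Subring.closure (T : Set K)).subtype := Subtype.val_injective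
  obtain ⟨z₀, rfl⟩ : ∃ z₀, (Subring.closure (T : Set K)).subtype z₀ = z :=
    ⟨⟨z, Subring.subset_closure hzT⟩, rfl⟩
  obtain ⟨ρ₀, hρ₀⟩ : ∃ ρ₀ : G → Matrix _ _ (Subring.closure (T : Set K)),
      ∀ g, (ρ₀ g).map (Subring.closure (T : Set K)).subtype = ρ g :=
    ⟨fun g => Matrix.of fun i j => ⟨ρ g i j, Subring.subset_closure (hρT g i j)⟩, fun g => rfl⟩
  choose F₀ hF₀ using fun l => mem_range_map_iff_coeffs_subset
    (f := (Subring.closure (T : Set K)).subtype) (x := F l).2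
    fun a ha => ⟨⟨a, Subring.subset_closure (hFT l ha)⟩, rfl⟩
  obtain rfl : F = fun l => map _ (F₀ l) := funext fun l => (hF₀ l).symm
  obtain ⟨φ, h1, h2, h3⟩ :=
    ((Often.all (𝕜 := 𝕜) fun i => Often.null _ _ ((hsop_iff _ F₀).1 hF.hsop i)).and
    ((Often.all fun a => Often.null _ _ ((smooth_iff _ F₀).1 hF.smooth a)).and
    (Often.all fun a => Often.null _ _ ((stab_iff _ F₀ ρ₀).1
      (by simpa only [hρ₀] using hF.stab) a)))).exists
  have hM := Matrix.map_injective (m := Fin c ⊕ Fin d) (n := Fin c ⊕ Fin d) hinj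
  let ρ' : G →* Matrix (Fin c ⊕ Fin d) (Fin c ⊕ Fin d) 𝕜 :=
    { toFun := fun g => (ρ₀ g).map φ
      map_one' := by
        have : ρ₀ 1 = 1 := hM (by
          simp only [hρ₀, map_one, Matrix.map_one _ (map_zero _) (map_one _)])
        simp [this]
      map_mul' := fun g g' => by
        have : ρ₀ (g * g') = ρ₀ g * ρ₀ g' := hM (by simp only [hρ₀, Matrix.map_mul, map_mul])
        rw [this, Matrix.map_mul] }
  have hact : ∀ g f, act (ρ' g) (map φ f) = map φ (actR (ρ₀ g) f) := fun g f =>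
    (map_actR φ _ f).symm
  have hact' : ∀ g f, act (ρ g) (map _ f) = map _ (actR (ρ₀ g) f) := fun g f => by
    rw [← hρ₀]
    exact (map_actR _ _ f).symm
  refine ⟨ρ', fun l => map φ (F₀ l), ⟨⟨g₀, φ z₀, primitive_of_sq ?_, ?_⟩, fun f hf hi => ?_,
    fun g => ?_, h.fano⟩, ⟨fun l => ((hF.hom l).of_map hinj).map φ, (hsop_iff φ F₀).2 h1,
    (smooth_iff φ F₀).2 h2⟩, fun g l => ?_, (stab_iff φ F₀ ρ₀).2 h3⟩
  · have : z₀ ^ 2 = -1 := hinj (by
      simpa using (hz.pow (by norm_num) (show 4 = 2 * 2 from rfl)).eq_neg_one_of_two_right)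
    rw [← map_pow, this, map_neg, map_one]
  · have : ρ₀ g₀ = z₀ • 1 := hM (by
      simp only [hρ₀, hg₀]
      ext i j
      by_cases hij : i = j <;> simp [hij])
    change (ρ₀ g₀).map φ = _
    rw [this]
    ext i j
    by_cases hij : i = j <;> simp [hij]
  · have h4 : ∀ m ∈ f.support, rey ρ' (monomial m (coeff m f)) = 0 := by
      intro m hm
      have hd : m.degree = 4 := by
        rw [Finsupp.degree_eq_weight_one]
        exact hf (mem_support_iff.1 hm)
      have h5 := h.quartic _ (rey_hom (isHomogeneous_monomial (1 : K) hd)) (rey_inv _)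
      rw [rey_apply, smul_eq_zero] at h5
      have h6 : ∑ g, actR (ρ₀ g) (monomial m 1) = 0 := map_injective _ hinj (by
        simp only [map_sum, ← hact', map_monomial, map_one, map_zero]
        exact h5.resolve_left (inv_ne_zero (by exact_mod_cast Nat.card_pos.ne')))
      have h7 := congrArg (map φ) h6
      simp only [map_sum, ← hact, map_monomial, map_one, map_zero] at h7
      rw [show monomial m (coeff m f) = coeff m f • monomial m (1 : 𝕜) by simp [smul_monomial],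
        map_smul, rey_apply, h7, smul_zero, smul_zero]
    rw [← rey_of_inv hi]
    conv_lhs => rw [f.as_sum, map_sum]
    exact Finset.sum_eq_zero h4
  · have : (ρ₀ g).det = 1 := hinj (by
      rw [RingHom.map_det, map_one, ← h.det g, ← hρ₀]
      rfl)
    have h4 := φ.map_det (ρ₀ g)
    rw [this, map_one] at h4
    exact h4.symm
  · rw [hact]
    exact congrArg _ (map_injective _ hinj ((hact' g _).symm.trans (hF.inv g l)))

end Pool.Agent.Lib.MP_954e53_ag.Gen
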