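import Pool.Agent.Lib.MP_954e53_ag.CexGroup
import Pool.Agent.Lib.MP_954e53_ag.CexGeneric
import Pool.Agent.Lib.MP_954e53_ag.GenTransfer
import Pool.Agent.Lib.MP_954e53_ag.GenParams
import Pool.Agent.Lib.MP_954e53_ag.GenNormal
import Pool.Agent.Lib.MP_954e53_ag.GenFree
import Pool.Agent.Lib.MP_954e53_ag.GenGor
import Pool.Agent.Lib.MP_954e53_ag.GenKempf
import Pool.Agent.Lib.MP_954e53_ag.CoreNe

/-! The counterexample over every algebraically closed field of characteristic zero. -/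

namespace Pool.Agent.Lib.MP_954e53_ag.Gen

open MvPolynomial

universe u

variable (𝕜 : Type u) [Field 𝕜] [IsAlgClosed 𝕜] [CharZero 𝕜]

theorem exists_data : ∃ (c d : ℕ) (G : Type) (_ : Group G) (_ : Finite G)
    (ρ : G →* Matrix (Fin c ⊕ Fin d) (Fin c ⊕ Fin d) 𝕜)
    (F : Fin c ⊕ Fin d → MvPolynomial (Fin c ⊕ Fin d) 𝕜), 2 ≤ d ∧ GroupData ρ c ∧ CIData ρ F := by
  obtain ⟨c, d, G, _, _, ρ, hd, h⟩ := exists_groupData
  obtain ⟨F, hF⟩ := exists_ciData h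
  obtain ⟨g, hg⟩ := h.scalar
  obtain ⟨ρ', F', h'⟩ := transfer 𝕜 (ρ := ρ) (F := F)
    ⟨⟨g, _, Complex.isPrimitiveRoot_I, hg⟩, h.quartic, h.det, h.fano⟩
    ⟨⟨hF.hom, hF.hsop, hF.smooth⟩, hF.inv, hF.stab⟩
  exact ⟨c, d, G, inferInstance, inferInstance, ρ', F', hd, h'⟩

theorem counterexample_all : ∃ (S : Type u) (_ : CommRing S) (_ : IsDomain S) (_ : Algebra 𝕜 S)
    (𝒜 : ℕ → Submodule 𝕜 S) (_ : GradedAlgebra 𝒜) (d r : ℕ),
    IsSectionRing 𝒜 ∧ (∀ y ∈ 𝒜 0, ∃ a : 𝕜, algebraMap 𝕜 S a = y) ∧ 2 ≤ d ∧ 1 ≤ r ∧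
      GorensteinOfIndex 𝒜 d r ∧ IsIntegrallyClosed S ∧ FormsExtend 𝕜 S d ∧ (∀ y ∈ 𝒜 1, y = 0) ∧
      ∃ N₀, ∀ N, N₀ ≤ N → core (truncIdeal 𝒜 N) ≠ gradedCore 𝒜 (truncIdeal 𝒜 N) := by
  obtain ⟨c, d, G, _, _, ρ, F, hd, h, hF⟩ := exists_data 𝕜
  have hp := hF.toOctics.params
  have := hF.toOctics.isDomain hp hd
  have := hF.toOctics.isIntegrallyClosed hp hd
  obtain ⟨_⟩ := invGraded h hF
  obtain ⟨n, hgen⟩ := inv_generatedBy h hF hp
  obtain ⟨r, hr, hG⟩ := inv_gorenstein h hF hp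
  have hfree := inv_free hF hp
  have := inv_normal hF
  have := inv_finite hF hp
  refine ⟨invRing ρ F, inferInstance, inferInstance, inferInstance, invGr ρ F, inferInstance, d, r,
    isSectionRing_of hgen hfree hG hd, fun _ => invGr_zero, hd, hr, hG, inferInstance, ?_,
    inv_one h, core_ne hgen hfree hG hd (inv_one h)⟩
  refine formsExtend_of_ci (R := CI F) hF.toOctics (by simpa using h.fano)
    (fun i => Ideal.Quotient.mk _ (X i)) ?_ (fun l => ?_) (ci_trdeg hp)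
  · have h1 := congrArg (Subalgebra.map (Ideal.Quotient.mkₐ 𝕜 (eqIdeal F)))
      (MvPolynomial.adjoin_range_X (R := 𝕜) (σ := Fin c ⊕ Fin d))
    rw [AlgHom.map_adjoin, Algebra.map_top, ← Set.range_comp,
      (AlgHom.range_eq_top _).2 (Ideal.Quotient.mkₐ_surjective 𝕜 _)] at h1
    exact h1
  · have h1 : aeval (fun i => Ideal.Quotient.mk (eqIdeal F) (X i)) =
        Ideal.Quotient.mkₐ 𝕜 (eqIdeal F) := MvPolynomial.algHom_ext fun i => aeval_X _ _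
    rw [h1]
    exact Ideal.Quotient.eq_zero_iff_mem.2 (Ideal.subset_span ⟨l, rfl⟩)

end Pool.Agent.Lib.MP_954e53_ag.Gen
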