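import Mathlib

/-! Specialisation of data over one algebraically closed field of characteristic zero to another
one. -/

namespace Pool.Agent.Lib.MP_954e53_ag.Gen

open MvPolynomial

universe u

variable {𝕜 : Type u} [Field 𝕜] {K : Type} [Field K] {A : Subring K}

/-- `P` holds for all points of `A` that extend to a suitable finitely generated extension. -/
def Often (A : Subring K) (P : (A →+* 𝕜) → Prop) : Prop :=
  ∃ T : Finset K, ∀ (A' : Subring K) (h : A ≤ A'), (T : Set K) ⊆ A' →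
    ∀ φ : A' →+* 𝕜, P (φ.comp (Subring.inclusion h))

lemma Often.all {J : Type} [Finite J] {P : J → (A →+* 𝕜) → Prop} (h : ∀ a, Often A (P a)) :
    Often A fun φ => ∀ a, P a φ := by
  classical
  have := Fintype.ofFinite J
  choose T hT using h
  exact ⟨Finset.univ.biUnion T, fun A' h h' φ a => hT a A' h
    ((Finset.coe_subset.2 (Finset.subset_biUnion_of_mem T (Finset.mem_univ a))).trans h') φ⟩

lemma Often.and {P Q : (A →+* 𝕜) → Prop} (hP : Often A P) (hQ : Often A Q) :
    Often A fun φ => P φ ∧ Q φ := by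
  obtain ⟨T, hT⟩ := Often.all (P := fun b : Bool => cond b P Q) (by rintro (_ | _) <;> assumption)
  exact ⟨T, fun A' h h' φ => ⟨hT A' h h' φ true, hT A' h h' φ false⟩⟩

lemma exists_point [IsAlgClosed 𝕜] [CharZero 𝕜] (R : Type) [CommRing R] [Nontrivial R]
    [Algebra ℚ R] [Algebra.FiniteType ℚ R] : Nonempty (R →+* 𝕜) := by
  obtain ⟨m, hm⟩ := Ideal.exists_maximal R
  let _ := Ideal.Quotient.field m
  have h3 := finite_of_finite_type_of_isJacobsonRing ℚ (R ⧸ m)
  exact ⟨(IsAlgClosed.lift (R := ℚ) (S := R ⧸ m) (M := 𝕜)).toRingHom.comp (Ideal.Quotient.mk m)⟩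

lemma Often.exists [IsAlgClosed 𝕜] [CharZero 𝕜] [CharZero K] {T₀ : Finset K}
    {P : (Subring.closure (T₀ : Set K) →+* 𝕜) → Prop} (h : Often _ P) : ∃ φ, P φ := by
  classical
  obtain ⟨T, hT⟩ := h
  have h1 : Algebra.FiniteType ℚ (Algebra.adjoin ℚ ((T₀ ∪ T : Finset K) : Set K)) :=
    (Subalgebra.fg_iff_finiteType _).1 (Subalgebra.fg_adjoin_finset _)
  obtain ⟨φ⟩ := exists_point (𝕜 := 𝕜) (Algebra.adjoin ℚ ((T₀ ∪ T : Finset K) : Set K))
  exact ⟨_, hT (Algebra.adjoin ℚ ((T₀ ∪ T : Finset K) : Set K)).toSubring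
    (Subring.closure_le.2 fun x hx => Algebra.subset_adjoin (by simp [Finset.mem_coe.1 hx]))
    (fun x hx => Algebra.subset_adjoin (by simp [Finset.mem_coe.1 hx])) φ⟩

lemma null_aux {σ τ R R' : Type} [Fintype τ] [CommRing R] [CommRing R'] (j : R →+* R')
    (i : R' →+* K) (hi : Function.Injective i) (p : τ → MvPolynomial σ R) (q : MvPolynomial σ R)
    {n : ℕ} {B : τ → MvPolynomial σ K} (hB : ∑ t, B t * map (i.comp j) (p t) = map (i.comp j) q ^ n)
    (h : ∀ t, ((B t).coeffs : Set K) ⊆ Set.range i) (φ : R' →+* 𝕜) (y : σ → 𝕜)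
    (hy : ∀ t, eval₂ (φ.comp j) y (p t) = 0) : eval₂ (φ.comp j) y q = 0 := by
  choose B' hB' using fun t => mem_range_map_iff_coeffs_subset.2 (h t)
  have h3 : ∑ t, B' t * map j (p t) = map j q ^ n := by
    apply map_injective i hi
    simp only [map_sum, map_mul, map_pow, hB', map_map]
    exact hB
  have h4 := congrArg (eval₂Hom φ y) h3
  simp only [map_sum, map_mul, map_pow, coe_eval₂Hom, eval₂_map, hy, mul_zero,
    Finset.sum_const_zero] at h4
  exact eq_zero_of_pow_eq_zero h4.symm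

/-- An implication between polynomial equations that holds over `K` holds often. -/
lemma Often.null [IsAlgClosed K] {σ τ : Type} [Finite σ] [Finite τ] (p : τ → MvPolynomial σ A)
    (q : MvPolynomial σ A)
    (h : ∀ y : σ → K, (∀ t, eval₂ A.subtype y (p t) = 0) → eval₂ A.subtype y q = 0) :
    Often A fun φ : A →+* 𝕜 => ∀ y : σ → 𝕜, (∀ t, eval₂ φ y (p t) = 0) → eval₂ φ y q = 0 := by
  classical
  have := Fintype.ofFinite τ
  have h1 : map A.subtype q ∈ (Ideal.span (Set.range fun t => map A.subtype (p t))).radical := by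
    rw [← vanishingIdeal_zeroLocus_eq_radical (K := K), mem_vanishingIdeal_iff]
    intro y hy
    have h2 := h y fun t => by
      have := hy _ (Ideal.subset_span ⟨t, rfl⟩)
      rwa [aeval_eq_eval, eval_map] at this
    rwa [aeval_eq_eval, eval_map]
  obtain ⟨n, hn⟩ := h1
  obtain ⟨B, hB⟩ := Ideal.mem_span_range_iff_exists_fun.1 hn
  exact ⟨Finset.univ.biUnion fun t => (B t).coeffs, fun A' h h' φ y hy =>
    null_aux (Subring.inclusion h) A'.subtype Subtype.val_injective p q hB
      (fun t a ha => ⟨⟨a, h'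
        (Finset.mem_coe.2 (Finset.mem_biUnion.2 ⟨t, Finset.mem_univ t, ha⟩))⟩, rfl⟩) φ y hy⟩

end Pool.Agent.Lib.MP_954e53_ag.Gen
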