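import Mathlib

/-! Derivations that are bounded for a discrete valuation. -/

namespace Pool.Agent.Lib.MP_954e53_ag.Gen

universe u

variable {𝕜 : Type u} [Field 𝕜] [IsAlgClosed 𝕜] [CharZero 𝕜]

open Polynomial WithZero

variable {k L : Type*} [Field k] [Field L] [Algebra k L]

lemma e1_const_eq_one (ν : Valuation L ℤᵐ⁰) (hk : ∀ c : k, ν (algebraMap k L c) ≤ 1) {c : k}
    (hc : c ≠ 0) : ν (algebraMap k L c) = 1 := by
  refine le_antisymm (hk c) ?_
  have h1 : ν (algebraMap k L c) * ν (algebraMap k L c⁻¹) = 1 := by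
    rw [← map_mul, ← map_mul, mul_inv_cancel₀ hc, map_one, map_one]
  calc (1 : ℤᵐ⁰) = ν (algebraMap k L c) * ν (algebraMap k L c⁻¹) := h1.symm
    _ ≤ ν (algebraMap k L c) * 1 := by gcongr; exact hk _
    _ = _ := mul_one _

lemma e1_aeval_le {Γ : Type*} [LinearOrderedCommGroupWithZero Γ] (ν : Valuation L Γ)
    (hk : ∀ c : k, ν (algebraMap k L c) ≤ 1) {a : L} (ha : ν a ≤ 1) (h : k[X]) :
    ν (aeval a h) ≤ 1 := by
  induction h using Polynomial.induction_on' with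
  | add p q hp hq => rw [map_add]; exact ν.map_add_le hp hq
  | monomial n c =>
    rw [aeval_monomial, map_mul, map_pow]
    exact mul_le_one' (hk c) (pow_le_one' ha n)

lemma e1_aeval_sub_lt {Γ : Type*} [LinearOrderedCommGroupWithZero Γ] (ν : Valuation L Γ)
    (hk : ∀ c : k, ν (algebraMap k L c) ≤ 1) {a : L} (ha : ν a < 1) (h : k[X]) :
    ν (aeval a h - algebraMap k L (h.coeff 0)) < 1 := by
  have h1 : aeval a h - algebraMap k L (h.coeff 0) = a * aeval a h.divX := by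
    have h2 := congrArg (aeval a) (X_mul_divX_add h)
    rw [map_add, map_mul, aeval_X, aeval_C] at h2
    rw [← h2, add_sub_cancel_right]
  rw [h1, map_mul]
  exact mul_lt_one_of_lt_of_le ha (e1_aeval_le ν hk ha.le _)

lemma e1_der_aeval [Algebra 𝕜 L] (ν : Valuation L ℤᵐ⁰)
    (D : Derivation 𝕜 L L) {γ : ℤᵐ⁰} (hD : ∀ c : k, ν (D (algebraMap k L c)) ≤ γ) {a : L}
    (ha : ν a ≤ 1) (h : k[X]) :
    ν (D (aeval a h) - aeval a (derivative h) * D a) ≤ γ := by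
  induction h using Polynomial.induction_on' with
  | add p q hp hq =>
    have : D (aeval a (p + q)) - aeval a (derivative (p + q)) * D a =
        (D (aeval a p) - aeval a (derivative p) * D a) +
          (D (aeval a q) - aeval a (derivative q) * D a) := by
      simp only [map_add]; ring
    rw [this]
    exact ν.map_add_le hp hq
  | monomial n c =>
    have : D (aeval a (monomial n c)) - aeval a (derivative (monomial n c)) * D a =
        a ^ n * D (algebraMap k L c) := by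
      simp only [aeval_monomial, derivative_monomial, Derivation.leibniz, Derivation.leibniz_pow,
        smul_eq_mul, nsmul_eq_mul, map_mul, map_natCast]
      ring
    rw [this, map_mul, map_pow]
    exact (mul_le_of_le_one_left' (pow_le_one' ha n)).trans (hD c)

lemma e1_lt_one (x : ℤᵐ⁰) : x < 1 ↔ x ≤ exp (-1 : ℤ) := by
  rcases eq_or_ne x 0 with rfl | hx
  · simp
  · rw [← exp_log hx, ← exp_zero, exp_lt_exp, exp_le_exp]
    omega

lemma e1_all_of_unit [Algebra 𝕜 L] (ν : Valuation L ℤᵐ⁰) (D : Derivation 𝕜 L L) {w : L}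
    (hw : ν w = exp (-1 : ℤ)) {γ : ℤᵐ⁰} (h1 : ∀ a, ν a ≤ 1 → ν (D a) ≤ γ)
    (h2 : ν (D w) ≤ γ * ν w) (b : L) : ν (D b) ≤ γ * ν b := by
  rcases eq_or_ne b 0 with rfl | hb
  · simp
  have hw0 : w ≠ 0 := by
    intro h; rw [h, map_zero] at hw; exact exp_ne_zero hw.symm
  have hνw : ν w ≠ 0 := (Valuation.ne_zero_iff ν).2 hw0
  have hνb : ν b ≠ 0 := (Valuation.ne_zero_iff ν).2 hb
  set m : ℤ := -log (ν b) with hm
  have hwm : ν (w ^ m) = ν b := by
    rw [map_zpow₀, hw, ← exp_zsmul, hm]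
    simp [exp_log hνb]
  set u := b / w ^ m with hu
  have hνu : ν u = 1 := by rw [hu, map_div₀, hwm, div_self hνb]
  have hb' : b = u * w ^ m := by rw [hu, div_mul_cancel₀ _ (zpow_ne_zero _ hw0)]
  have hD : D b = u * ((m : L) * (w ^ (m - 1) * D w)) + w ^ m * D u := by
    conv_lhs => rw [hb']
    simp only [Derivation.leibniz, Derivation.leibniz_zpow, smul_eq_mul, zsmul_eq_mul]
  rw [hD]
  refine ν.map_add_le ?_ ?_
  · have hm1 : ν (m : L) ≤ 1 := by
      have : (m : L) ∈ ν.valuationSubring := intCast_mem _ m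
      exact this
    rw [map_mul, map_mul, map_mul, hνu, one_mul]
    calc ν (m : L) * (ν (w ^ (m - 1)) * ν (D w)) ≤ 1 * (ν (w ^ (m - 1)) * (γ * ν w)) := by
          gcongr
      _ = γ * ν (w ^ (m - 1) * w) := by rw [map_mul, one_mul, mul_left_comm]
      _ = γ * ν b := by rw [zpow_sub_one₀ hw0, inv_mul_cancel_right₀ hw0, hwm]
  · rw [map_mul, hwm, mul_comm]
    gcongr
    exact h1 u hνu.le

lemma e1_unif [Algebra 𝕜 L] [CharZero k] (ν : Valuation L ℤᵐ⁰)
    (hk : ∀ c : k, ν (algebraMap k L c) ≤ 1)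
    (D : Derivation 𝕜 L L) {w p : L} (hw : ν w = exp (-1 : ℤ)) (hp0 : p ≠ 0) (hp : ν p < 1)
    (hDp : ν (D p) ≤ ν p) {γ : ℤᵐ⁰} (hγ : 1 ≤ γ) (h1 : ∀ a, ν a ≤ 1 → ν (D a) ≤ γ) :
    ν (D w) ≤ γ * ν w := by
  have hw0 : w ≠ 0 := by
    intro h; rw [h, map_zero] at hw; exact exp_ne_zero hw.symm
  have hνw : ν w ≠ 0 := (Valuation.ne_zero_iff ν).2 hw0
  have hνp : ν p ≠ 0 := (Valuation.ne_zero_iff ν).2 hp0
  set m : ℤ := -log (ν p) with hm
  have hm0 : m ≠ 0 := by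
    intro h
    have h2 : log (ν p) = 0 := by omega
    rw [← exp_log hνp, h2, exp_zero] at hp
    exact lt_irrefl _ hp
  have hwm : ν (w ^ m) = ν p := by
    rw [map_zpow₀, hw, ← exp_zsmul, hm]
    simp [exp_log hνp]
  set u := p / w ^ m with hu
  have hνu : ν u = 1 := by rw [hu, map_div₀, hwm, div_self hνp]
  have hb' : p = u * w ^ m := by rw [hu, div_mul_cancel₀ _ (zpow_ne_zero _ hw0)]
  have hD : u * ((m : L) * (w ^ (m - 1) * D w)) = D p - w ^ m * D u := by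
    conv_rhs => rw [hb']
    simp only [Derivation.leibniz, Derivation.leibniz_zpow, smul_eq_mul, zsmul_eq_mul]
    ring
  have hm1 : ν (m : L) = 1 := by
    have := e1_const_eq_one ν hk (c := (m : k)) (Int.cast_ne_zero.2 hm0)
    rwa [map_intCast] at this
  have h3 : ν (w ^ (m - 1)) * ν (D w) ≤ γ * ν p := by
    have h4 := congrArg ν hD
    rw [map_mul, map_mul, map_mul, hνu, hm1, one_mul, one_mul] at h4
    rw [h4]
    refine ν.map_sub_le (hDp.trans (le_mul_of_one_le_left' hγ)) ?_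
    rw [map_mul, hwm, mul_comm]
    gcongr
    exact h1 u hνu.le
  have h5 : ν p = ν (w ^ (m - 1)) * ν w := by
    rw [← map_mul, zpow_sub_one₀ hw0, inv_mul_cancel_right₀ hw0, hwm]
  have h6 : 0 < ν (w ^ (m - 1)) :=
    zero_lt_iff.2 ((Valuation.ne_zero_iff ν).2 (zpow_ne_zero _ hw0))
  rw [h5, mul_left_comm] at h3
  exact le_of_mul_le_mul_of_pos_left h3 h6

lemma e1_sep [CharZero k] (ν : Valuation L ℤᵐ⁰) (hk : ∀ c : k, ν (algebraMap k L c) ≤ 1)
    {x : L} (hx : ν x ≤ 1) : ∀ (n : ℕ) (g : k[X]), g.natDegree = n → g ≠ 0 →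
      ν (aeval x g) < 1 → ∃ g' : k[X], ν (aeval x g') < 1 ∧ ν (aeval x (derivative g')) = 1 := by
  intro n
  induction n using Nat.strong_induction_on with
  | _ n ih =>
    intro g hn hg hlt
    by_cases h0 : g.natDegree = 0
    · rw [eq_C_of_natDegree_eq_zero h0, aeval_C, e1_const_eq_one ν hk] at hlt
      · exact absurd hlt (lt_irrefl _)
      · intro h
        exact hg (by rw [eq_C_of_natDegree_eq_zero h0, h, map_zero])
    · rcases (e1_aeval_le ν hk hx (derivative g)).lt_or_eq with h | h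
      · refine ih _ (hn ▸ natDegree_derivative_lt h0) (derivative g) rfl (fun h1 => h0 ?_) h
        exact derivative_eq_zero.1 h1
      · exact ⟨g, hlt, h⟩

lemma e1_step [Algebra 𝕜 L] [CharZero k] (ν : Valuation L ℤᵐ⁰)
    (hk : ∀ c : k, ν (algebraMap k L c) ≤ 1)
    (D : Derivation 𝕜 L L) {γ γ₀ δ : ℤᵐ⁰} (hD : ∀ c : k, ν (D (algebraMap k L c)) ≤ γ₀)
    (hB : ∀ b, ν (D b) ≤ γ * ν b) (h1 : γ * exp (-1 : ℤ) ≤ δ) (h2 : γ₀ ≤ δ) {x : L}
    (hx : ν x ≤ 1) {g : k[X]} (hg : g ≠ 0) (hlt : ν (aeval x g) < 1) : ν (D x) ≤ δ := by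
  obtain ⟨g', h3, h4⟩ := e1_sep ν hk hx _ g rfl hg hlt
  have h5 : aeval x (derivative g') * D x =
      D (aeval x g') - (D (aeval x g') - aeval x (derivative g') * D x) := by ring
  have h6 := congrArg ν h5
  rw [map_mul, h4, one_mul] at h6
  rw [h6]
  refine ν.map_sub_le ((hB _).trans (le_trans ?_ h1)) ((e1_der_aeval ν D hD hx g').trans h2)
  gcongr
  exact (e1_lt_one _).1 h3

lemma e1_frac [Algebra 𝕜 L] (ν : Valuation L ℤᵐ⁰) (D : Derivation 𝕜 L L) {γ : ℤᵐ⁰} {a s x : L}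
    (ha : ν a ≤ 1) (hs : ν s = 1) (h : a * s = x) (hDx : ν (D x) ≤ γ) (hDs : ν (D s) ≤ γ) :
    ν (D a) ≤ γ := by
  have h1 : s * D a = D x - a * D s := by
    rw [← h, Derivation.leibniz, smul_eq_mul, smul_eq_mul]; ring
  have h2 := congrArg ν h1
  rw [map_mul, hs, one_mul] at h2
  rw [h2]
  refine ν.map_sub_le hDx ?_
  rw [map_mul]
  exact (mul_le_of_le_one_left' ha).trans hDs

/-- The descent: a derivation that is bounded on a set `C` of numerators and denominators with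
algebraic residues preserves the valuation ring. -/
lemma e1_descent [Algebra 𝕜 L] [CharZero k] (ν : Valuation L ℤᵐ⁰)
    (hk : ∀ c : k, ν (algebraMap k L c) ≤ 1)
    (D : Derivation 𝕜 L L) {w p : L} (hw : ν w = exp (-1 : ℤ)) (hp0 : p ≠ 0) (hp : ν p < 1)
    (hDp : ν (D p) ≤ ν p) (C : Set L) (hC1 : ∀ x ∈ C, ν x ≤ 1)
    (hC2 : ∀ x ∈ C, ∃ g : k[X], g ≠ 0 ∧ ν (aeval x g) < 1)
    (hC3 : ∀ a, ν a ≤ 1 → ∃ x ∈ C, ∃ s ∈ C, ν s = 1 ∧ a * s = x)
    (hD : ∀ c : k, ν (D (algebraMap k L c)) ≤ 1) (N : ℕ)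
    (hN : ∀ x ∈ C, ν (D x) ≤ exp (N : ℤ)) :
    (∀ a, ν a ≤ 1 → ν (D a) ≤ 1) ∧
      ((∀ c : k, D (algebraMap k L c) = 0) → ∀ a, ν a ≤ 1 → ν (D a) < 1) := by
  have hfrac : ∀ γ, (∀ x ∈ C, ν (D x) ≤ γ) → ∀ a, ν a ≤ 1 → ν (D a) ≤ γ := by
    intro γ h a ha
    obtain ⟨x, hx, s, hs, hs1, hxs⟩ := hC3 a ha
    exact e1_frac ν D ha hs1 hxs (h x hx) (h s hs)
  have hB : ∀ γ, 1 ≤ γ → (∀ x ∈ C, ν (D x) ≤ γ) → ∀ b, ν (D b) ≤ γ * ν b := fun γ hγ h =>
    e1_all_of_unit ν D hw (hfrac γ h) (e1_unif ν hk D hw hp0 hp hDp hγ (hfrac γ h))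
  have h0 : ∀ x ∈ C, ν (D x) ≤ 1 := by
    induction N with
    | zero => simpa using hN
    | succ N ih =>
      refine ih fun x hx => ?_
      obtain ⟨g, hg, hlt⟩ := hC2 x hx
      have h1 : ∀ n : ℕ, (1 : ℤᵐ⁰) ≤ exp (n : ℤ) := fun n => by
        rw [← exp_zero, exp_le_exp]; omega
      refine e1_step ν hk D hD (hB _ (h1 _) hN) (le_of_eq ?_) (h1 _) (hC1 x hx) hg hlt
      rw [← exp_add]
      congr 1
      push_cast
      ring
  refine ⟨hfrac 1 h0, fun hD0 a ha => (e1_lt_one _).2 (hfrac _ (fun x hx => ?_) a ha)⟩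
  obtain ⟨g, hg, hlt⟩ := hC2 x hx
  exact e1_step ν hk D (γ₀ := 0) (fun c => by rw [hD0, map_zero]) (hB 1 le_rfl h0)
    (by rw [one_mul]) zero_le (hC1 x hx) hg hlt

end Pool.Agent.Lib.MP_954e53_ag.Gen
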