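import Pool.Agent.Lib.MP_954e53_ag.GenValA

/-! Valuation rings of function fields in one variable and logarithmic derivations. -/

namespace Pool.Agent.Lib.MP_954e53_ag.Gen

universe u

variable {𝕜 : Type u} [Field 𝕜] [IsAlgClosed 𝕜] [CharZero 𝕜]

open Polynomial WithZero IsDedekindDomain

variable {k L : Type*} [Field k] [Field L] [Algebra k L]

lemma e1_residue_poly (ν : Valuation L ℤᵐ⁰) (hk : ∀ c : k, ν (algebraMap k L c) ≤ 1) {p : L}
    (hp : ν p < 1) {x : L} (hx1 : ν x ≤ 1) (hx : IsIntegral (Algebra.adjoin k {p}) x) :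
    ∃ g : k[X], g ≠ 0 ∧ ν (aeval x g) < 1 := by
  obtain ⟨P, hP, hPx⟩ := hx
  have hε : ∀ α : Algebra.adjoin k {p}, ∃ c : k, ν ((α : L) - algebraMap k L c) < 1 := by
    intro α
    obtain ⟨h, hh⟩ := Algebra.adjoin_mem_exists_aeval k p α.2
    exact ⟨h.coeff 0, hh ▸ e1_aeval_sub_lt ν hk hp h⟩
  choose ε hε using hε
  refine ⟨X ^ P.natDegree + ∑ i ∈ Finset.range P.natDegree, C (ε (P.coeff i)) * X ^ i, ?_, ?_⟩
  · intro h
    have h1 := congrArg (fun q : k[X] => q.coeff P.natDegree) h
    simp only [coeff_add, coeff_X_pow_self, finsetSum_coeff, coeff_C_mul, coeff_X_pow,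
      coeff_zero] at h1
    rw [Finset.sum_eq_zero fun i hi => by
      rw [if_neg (Finset.mem_range.1 hi).ne', mul_zero]] at h1
    simp at h1
  · have h2 : x ^ P.natDegree + ∑ i ∈ Finset.range P.natDegree, (P.coeff i : L) * x ^ i = 0 := by
      rw [hP.as_sum] at hPx
      simpa [eval₂_finsetSum] using hPx
    have h3 : aeval x (X ^ P.natDegree +
        ∑ i ∈ Finset.range P.natDegree, C (ε (P.coeff i)) * X ^ i : k[X]) =
        -∑ i ∈ Finset.range P.natDegree,
          ((P.coeff i : L) - algebraMap k L (ε (P.coeff i))) * x ^ i := by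
      simp only [map_add, map_pow, aeval_X, map_sum, map_mul, aeval_C, sub_mul,
        Finset.sum_sub_distrib]
      linear_combination h2
    rw [h3, Valuation.map_neg]
    refine ν.map_sum_lt one_ne_zero fun i _ => ?_
    rw [map_mul, map_pow]
    exact mul_lt_one_of_lt_of_le (hε _) (pow_le_one' hx1 _)

lemma e1_bound_span [Algebra 𝕜 L] (ν : Valuation L ℤᵐ⁰) (hk : ∀ c : k, ν (algebraMap k L c) ≤ 1)
    {p : L} (hp : ν p < 1) (D : Derivation 𝕜 L L) (hD : ∀ c : k, ν (D (algebraMap k L c)) ≤ 1)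
    (hDp : ν (D p) ≤ ν p) (s : Finset L) :
    ∃ N : ℕ, ∀ x ∈ Submodule.span (Algebra.adjoin k {p}) (s : Set L), ν (D x) ≤ exp (N : ℤ) := by
  have hA : ∀ α : Algebra.adjoin k {p}, ν (α : L) ≤ 1 ∧ ν (D (α : L)) ≤ 1 := by
    intro α
    obtain ⟨h, hh⟩ := Algebra.adjoin_mem_exists_aeval k p α.2
    rw [← hh]
    refine ⟨e1_aeval_le ν hk hp.le h, ?_⟩
    have h1 : D (aeval p h) = (D (aeval p h) - aeval p (derivative h) * D p) +
        aeval p (derivative h) * D p := by ring
    rw [h1]
    refine ν.map_add_le (e1_der_aeval ν D hD hp.le h) ?_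
    rw [map_mul]
    exact mul_le_one' (e1_aeval_le ν hk hp.le _) (hDp.trans hp.le)
  have hb : ∀ y : ℤᵐ⁰, y ≤ exp (((log y).toNat : ℕ) : ℤ) := by
    intro y
    rcases eq_or_ne y 0 with rfl | hy
    · exact zero_le
    · conv_lhs => rw [← exp_log hy]
      rw [exp_le_exp]
      omega
  refine ⟨s.sup fun x => max (log (ν x)).toNat (log (ν (D x))).toNat, fun x hx => ?_⟩
  set N := s.sup fun x => max (log (ν x)).toNat (log (ν (D x))).toNat with hN
  suffices h : ν x ≤ exp (N : ℤ) ∧ ν (D x) ≤ exp (N : ℤ) from h.2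
  induction hx using Submodule.span_induction with
  | mem x hx =>
    have h1 : max (log (ν x)).toNat (log (ν (D x))).toNat ≤ N :=
      Finset.le_sup (f := fun x => max (log (ν x)).toNat (log (ν (D x))).toNat) hx
    refine ⟨(hb _).trans (exp_le_exp.2 ?_), (hb _).trans (exp_le_exp.2 ?_)⟩ <;> omega
  | zero => simp
  | add x y _ _ hx hy =>
    rw [map_add D]
    exact ⟨ν.map_add_le hx.1 hy.1, ν.map_add_le hx.2 hy.2⟩
  | smul α x _ hx =>
    have h1 : α • x = (α : L) * x := rfl
    rw [h1, Derivation.leibniz, smul_eq_mul, smul_eq_mul]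
    refine ⟨?_, ν.map_add_le ?_ ?_⟩
    · rw [map_mul]; exact (mul_le_of_le_one_left' (hA α).1).trans hx.1
    · rw [map_mul]; exact (mul_le_of_le_one_left' (hA α).1).trans hx.2
    · rw [map_mul]; exact (mul_le_of_le_one_right' (hA α).2).trans hx.1

lemma e1_struct [CharZero k] [Algebra.EssFiniteType k L] (p : L) (V : ValuationSubring L)
    (hk : ∀ c : k, algebraMap k L c ∈ V) (hp0 : p ≠ 0) (hp : V.valuation p < 1)
    (halg : Algebra.IsAlgebraic (Algebra.adjoin k {p}) L) :
    ∃ (ν : Valuation L ℤᵐ⁰) (w : L) (s : Finset L), ν.valuationSubring = V ∧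
      ν w = exp (-1 : ℤ) ∧ (∀ x, IsIntegral (Algebra.adjoin k {p}) x → ν x ≤ 1) ∧
      (∀ a, ν a ≤ 1 → ∃ x, IsIntegral (Algebra.adjoin k {p}) x ∧
        ∃ y, IsIntegral (Algebra.adjoin k {p}) y ∧ ν y = 1 ∧ a * y = x) ∧
      ∀ x, IsIntegral (Algebra.adjoin k {p}) x →
        x ∈ Submodule.span (Algebra.adjoin k {p}) (s : Set L) := by
  classical
  set A := Algebra.adjoin k {p} with hA
  have hpid : IsPrincipalIdealRing A := by
    refine IsPrincipalIdealRing.of_surjective
      (aeval (⟨p, Algebra.self_mem_adjoin_singleton k p⟩ : A) : k[X] →ₐ[k] A) fun α => ?_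
    obtain ⟨h, hh⟩ := Algebra.adjoin_mem_exists_aeval k p α.2
    refine ⟨h, Subtype.ext ?_⟩
    rw [← hh]
    exact (aeval_algHom_apply A.val _ h).symm
  have hded : IsDedekindDomain A := inferInstance
  let _ : Algebra (FractionRing A) L := FractionRing.liftAlgebra A L
  have hst : IsScalarTower A (FractionRing A) L := FractionRing.isScalarTower_liftAlgebra A L
  have hch : CharZero L := charZero_of_injective_algebraMap (algebraMap k L).injective
  have hchA : CharZero A := inferInstance
  have hchF : CharZero (FractionRing A) := IsFractionRing.charZero A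
  have halgF : Algebra.IsAlgebraic (FractionRing A) L :=
    (IsFractionRing.comap_isAlgebraic_iff (A := A)).1 halg
  have hessA : Algebra.EssFiniteType A L := Algebra.EssFiniteType.of_comp k A L
  have hess : Algebra.EssFiniteType (FractionRing A) L :=
    Algebra.EssFiniteType.of_comp A (FractionRing A) L
  have hfin : FiniteDimensional (FractionRing A) L := Algebra.finite_of_essFiniteType_of_isAlgebraic
  have hC : IsDedekindDomain (integralClosure A L) :=
    integralClosure.isDedekindDomain A (FractionRing A) L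
  have hfr : IsFractionRing (integralClosure A L) L :=
    integralClosure.isFractionRing_of_finite_extension (FractionRing A) L
  have hCf : Module.Finite A (integralClosure A L) :=
    IsIntegralClosure.finite A (FractionRing A) L (integralClosure A L)
  have hk' : ∀ c : k, V.valuation (algebraMap k L c) ≤ 1 := fun c =>
    (V.valuation_le_one_iff _).2 (hk c)
  have hAV : ∀ α : A, (α : L) ∈ V := by
    intro α
    obtain ⟨h, hh⟩ := Algebra.adjoin_mem_exists_aeval k p α.2
    rw [← hh]
    exact (V.valuation_le_one_iff _).1 (e1_aeval_le _ hk' hp.le h)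
  have hCV : ∀ x : L, IsIntegral A x → x ∈ V := by
    intro x hx
    have h1 : IsIntegral V x :=
      hx.map_of_comp_eq ((algebraMap A L).codRestrict V.toSubring hAV) (RingHom.id L) rfl
    obtain ⟨y, hy⟩ := IsIntegrallyClosed.isIntegral_iff.1 h1
    rw [← hy]
    exact y.2
  let φ : integralClosure A L →+* V :=
    (algebraMap (integralClosure A L) L).codRestrict V.toSubring fun c => hCV _ c.2
  have hq : ∀ c : integralClosure A L,
      c ∈ (IsLocalRing.maximalIdeal V).comap φ ↔ V.valuation (c : L) < 1 := fun c =>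
    V.valuation_lt_one_iff (φ c)
  have hpC : IsIntegral A p :=
    isIntegral_algebraMap (R := A) (x := ⟨p, Algebra.self_mem_adjoin_singleton k p⟩)
  let q : HeightOneSpectrum (integralClosure A L) :=
    { asIdeal := (IsLocalRing.maximalIdeal V).comap φ
      isPrime := Ideal.comap_isPrime _ _
      ne_bot := fun h => by
        have h1 := (hq ⟨p, hpC⟩).2 hp
        rw [h, Ideal.mem_bot] at h1
        exact hp0 (congrArg Subtype.val h1) }
  have hle : q.valuationSubringAtPrime L ≤ V := by
    rintro x ⟨a, s, hs, rfl⟩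
    have h1 : V.valuation (s : L) = 1 :=
      le_antisymm ((V.valuation_le_one_iff _).2 (hCV _ s.2)) (not_lt.1 fun h => hs ((hq s).2 h))
    refine mul_mem (hCV _ a.2) ((V.valuation_le_one_iff _).1 ?_)
    have h2 : (algebraMap (integralClosure A L) L) s = (s : L) := rfl
    rw [h2, map_inv₀, h1, inv_one]
  have hne : V ≠ ⊤ := by
    intro h
    have h1 : p⁻¹ ∈ V := by rw [h]; trivial
    have h2 := (V.valuation_le_one_iff _).2 h1
    rw [map_inv₀, inv_le_one₀ (zero_lt_iff.2 ((Valuation.ne_zero_iff _).2 hp0))] at h2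
    exact absurd hp (not_lt.2 h2)
  have hV : (q.valuation L).valuationSubring = V := by
    rw [← q.valuationSubringAtPrime_eq_valuationSubring]
    exact ValuationSubring.eq_of_le_of_ne_top _ hle hne
  obtain ⟨w, hw⟩ := q.valuation_exists_uniformizer L
  obtain ⟨s, hs⟩ := Module.Finite.fg_top (R := A) (M := integralClosure A L)
  refine ⟨q.valuation L, w, s.image Subtype.val, hV, hw, fun x hx => ?_, fun a ha => ?_,
    fun x hx => ?_⟩
  · exact q.valuation_le_one (K := L) ⟨x, hx⟩
  · obtain ⟨n, d, hd⟩ := q.exists_primeCompl_mul_eq_of_integer a ha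
    refine ⟨n, n.2, (d : integralClosure A L), (d : integralClosure A L).2, ?_, hd⟩
    exact le_antisymm (q.valuation_le_one (K := L) _)
      (not_lt.1 fun h => d.2 ((q.valuation_lt_one_iff_mem (K := L) _).1 h))
  · have h1 : (⟨x, hx⟩ : integralClosure A L) ∈ Submodule.span A (s : Set (integralClosure A L)) := by
      rw [hs]; trivial
    have h2 := Submodule.mem_map_of_mem (f := (integralClosure A L).val.toLinearMap) h1
    rw [Submodule.map_span] at h2
    rw [Finset.coe_image]
    exact h2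

lemma e1_core [Algebra 𝕜 L] [CharZero k] [Algebra.EssFiniteType k L] (p : L)
    (V : ValuationSubring L) (hk : ∀ c : k, algebraMap k L c ∈ V) (hp0 : p ≠ 0)
    (hp : V.valuation p < 1) (halg : Algebra.IsAlgebraic (Algebra.adjoin k {p}) L)
    (D : Derivation 𝕜 L L) (hD : ∀ c : k, D (algebraMap k L c) ∈ V)
    (hDp : V.valuation (D p) ≤ V.valuation p) :
    (∀ a ∈ V, D a ∈ V) ∧
      ((∀ c : k, D (algebraMap k L c) = 0) → ∀ a ∈ V, V.valuation (D a) < 1) := by
  obtain ⟨ν, w, s, rfl, hw, h1, h2, h3⟩ := e1_struct p V hk hp0 hp halg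
  have he := ν.isEquiv_valuation_valuationSubring
  have hp' : ν p < 1 := he.lt_one_iff_lt_one.2 hp
  have hDp' : ν (D p) ≤ ν p := (he _ _).2 hDp
  obtain ⟨N, hN⟩ := e1_bound_span ν hk hp' D hD hDp' s
  obtain ⟨h4, h5⟩ := e1_descent ν hk D hw hp0 hp' hDp'
    {x | IsIntegral (Algebra.adjoin k {p}) x} h1
    (fun x hx => e1_residue_poly ν hk hp' (h1 x hx) hx) h2 hD N (fun x hx => hN x (h3 x hx))
  exact ⟨h4, fun h a ha => he.lt_one_iff_lt_one.1 (h5 h a ha)⟩

end Pool.Agent.Lib.MP_954e53_ag.Gen
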