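import Pool.Agent.Lib.MP_954e53_ag.Hilb

/-! Finitely generated graded algebras, and the numerical consequences of freeness. -/

namespace Pool.Agent.Lib.MP_954e53_ag

open Module PowerSeries

variable {k S : Type*} [Field k] [CommRing S] [Algebra k S]
variable {𝒜 : ℕ → Submodule k S} [GradedAlgebra 𝒜]

lemma comp_zero_of_mem_idl {L : List (ℕ × S)} (hL : ∀ p ∈ L, 0 < p.1 ∧ p.2 ∈ 𝒜 p.1)
    {J : Ideal S} (hJ : J.IsHomogeneous 𝒜) {y : S} (hy : y ∈ 𝒜 0) (h : y ∈ idl J L) : y ∈ J := by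
  induction L generalizing J with
  | nil => exact h
  | cons p L ih =>
    obtain ⟨h0, hp⟩ := hL p List.mem_cons_self
    exact mem_sup_hom_lt hJ hp h0 hy
      (ih (fun q hq => hL q (List.mem_cons_of_mem _ hq)) (sup_hom hJ hp) h)

lemma bot_hom : (⊥ : Ideal S).IsHomogeneous 𝒜 := Ideal.IsHomogeneous.bot 𝒜

lemma exists_const {L : List (ℕ × S)}
    (hgen : Algebra.adjoin k {x | ∃ p ∈ L, p.2 = x} = ⊤) (y : S) :
    ∃ c : k, y - algebraMap k S c ∈ idl ⊥ L := by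
  have hy : y ∈ Algebra.adjoin k {x | ∃ p ∈ L, p.2 = x} := hgen ▸ Algebra.mem_top
  induction hy using Algebra.adjoin_induction with
  | mem x hx =>
    obtain ⟨p, hp, rfl⟩ := hx
    exact ⟨0, by simpa using mem_idl ⊥ hp⟩
  | algebraMap r => exact ⟨r, by simp⟩
  | add x y _ _ hx hy =>
    obtain ⟨c, hc⟩ := hx
    obtain ⟨d, hd⟩ := hy
    refine ⟨c + d, ?_⟩
    convert add_mem hc hd using 1
    rw [map_add]; ring
  | mul x y _ _ hx hy =>
    obtain ⟨c, hc⟩ := hx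
    obtain ⟨d, hd⟩ := hy
    refine ⟨c * d, ?_⟩
    convert add_mem (Ideal.mul_mem_right y _ hc) (Ideal.mul_mem_left _ (algebraMap k S c) hd)
      using 1
    rw [map_mul]; ring

lemma mem_idl_of_pos {L : List (ℕ × S)} (hL : ∀ p ∈ L, 0 < p.1 ∧ p.2 ∈ 𝒜 p.1)
    (hgen : Algebra.adjoin k {x | ∃ p ∈ L, p.2 = x} = ⊤) {m : ℕ} (hm : 0 < m) {y : S}
    (hy : y ∈ 𝒜 m) : y ∈ idl ⊥ L := by
  obtain ⟨c, hc⟩ := exists_const hgen y
  have h1 := idl_hom bot_hom (fun p hp => (hL p hp).2) m hc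
  rwa [DirectSum.decompose_sub, DirectSum.sub_apply, Submodule.coe_sub,
    DirectSum.decompose_of_mem_same 𝒜 hy,
    DirectSum.decompose_of_mem_ne 𝒜 (SetLike.algebraMap_mem_graded 𝒜 c) hm.ne, sub_zero] at h1

lemma eq_const {L : List (ℕ × S)} (hL : ∀ p ∈ L, 0 < p.1 ∧ p.2 ∈ 𝒜 p.1)
    (hgen : Algebra.adjoin k {x | ∃ p ∈ L, p.2 = x} = ⊤) {y : S} (hy : y ∈ 𝒜 0) :
    ∃ c : k, y = algebraMap k S c := by
  obtain ⟨c, hc⟩ := exists_const hgen y
  exact ⟨c, sub_eq_zero.1 (comp_zero_of_mem_idl hL bot_hom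
    (sub_mem hy (SetLike.algebraMap_mem_graded 𝒜 c)) hc)⟩

lemma zero_le_span {L : List (ℕ × S)} (hL : ∀ p ∈ L, 0 < p.1 ∧ p.2 ∈ 𝒜 p.1)
    (hgen : Algebra.adjoin k {x | ∃ p ∈ L, p.2 = x} = ⊤) : 𝒜 0 ≤ Submodule.span k {(1 : S)} := by
  intro y hy
  obtain ⟨c, rfl⟩ := eq_const hL hgen hy
  exact Submodule.mem_span_singleton.2 ⟨c, (Algebra.algebraMap_eq_smul_one c).symm⟩

lemma fin_idl {L : List (ℕ × S)} (hL : ∀ p ∈ L, p.2 ∈ 𝒜 p.1) {m : ℕ}
    (h : ∀ p ∈ L, ∀ j, p.1 + j = m → FiniteDimensional k (𝒜 j)) {J : Ideal S}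
    (hJ : J.IsHomogeneous 𝒜) (hf : FiniteDimensional k ↥(𝒜 m ⊓ J.restrictScalars k)) :
    FiniteDimensional k ↥(𝒜 m ⊓ (idl J L).restrictScalars k) := by
  induction L generalizing J with
  | nil => exact hf
  | cons p L ih =>
    have hp := hL p List.mem_cons_self
    refine ih (fun q hq => hL q (List.mem_cons_of_mem _ hq))
      (fun q hq => h q (List.mem_cons_of_mem _ hq)) (sup_hom hJ hp) ?_
    by_cases hm : m < p.1
    · exact Submodule.finiteDimensional_of_le (S₂ := 𝒜 m ⊓ J.restrictScalars k)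
        fun y hy => ⟨hy.1, mem_sup_hom_lt hJ hp hm hy.1 hy.2⟩
    · obtain ⟨j, rfl⟩ := Nat.exists_eq_add_of_le (not_lt.1 hm)
      have := h p List.mem_cons_self j rfl
      refine Submodule.finiteDimensional_of_le
        (S₂ := (𝒜 (p.1 + j) ⊓ J.restrictScalars k) ⊔ (𝒜 j).map (LinearMap.mul k S p.2)) ?_
      rintro y ⟨hy, hy'⟩
      obtain ⟨u, hu, h⟩ := mem_sup_hom hJ hp hy hy'
      rw [← sub_add_cancel y (p.2 * u)]
      exact Submodule.add_mem_sup ⟨sub_mem hy (SetLike.mul_mem_graded hp hu), h⟩ ⟨u, hu, rfl⟩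

lemma fin_of_gens {L : List (ℕ × S)} (hL : ∀ p ∈ L, 0 < p.1 ∧ p.2 ∈ 𝒜 p.1)
    (hgen : Algebra.adjoin k {x | ∃ p ∈ L, p.2 = x} = ⊤) (m : ℕ) : FiniteDimensional k (𝒜 m) := by
  induction m using Nat.strong_induction_on with
  | _ m ih =>
    rcases Nat.eq_zero_or_pos m with rfl | hm
    · exact Submodule.finiteDimensional_of_le (zero_le_span hL hgen)
    · have h1 := fin_idl (𝒜 := 𝒜) (fun p hp => (hL p hp).2) (m := m)
        (fun p hp j hj => ih j (by have := (hL p hp).1; omega)) bot_hom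
        (Submodule.finiteDimensional_of_le (S₂ := ⊥) (by simp))
      exact Submodule.finiteDimensional_of_le (S₂ := 𝒜 m ⊓ (idl ⊥ L).restrictScalars k)
        fun y hy => ⟨hy, mem_idl_of_pos hL hgen hm hy⟩

lemma finrank_zero_le {L : List (ℕ × S)} (hL : ∀ p ∈ L, 0 < p.1 ∧ p.2 ∈ 𝒜 p.1)
    (hgen : Algebra.adjoin k {x | ∃ p ∈ L, p.2 = x} = ⊤) : finrank k (𝒜 0) ≤ 1 :=
  (Submodule.finrank_mono (zero_le_span hL hgen)).trans
    ((finrank_span_le_card _).trans (by simp))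

lemma noeth_of_gens {L : List (ℕ × S)}
    (hgen : Algebra.adjoin k {x | ∃ p ∈ L, p.2 = x} = ⊤) : IsNoetherianRing S := by
  classical
  have : Algebra.FiniteType k S := ⟨⟨(L.map Prod.snd).toFinset, by
    rw [← hgen]; congr 1; ext x; simp⟩⟩
  exact Algebra.FiniteType.isNoetherianRing k S

variable [hfin : ∀ m, FiniteDimensional k (𝒜 m)]

/-- A homogeneous ideal contained in no relevant homogeneous prime has finite colength. -/
theorem exists_mem_of_primes [IsNoetherianRing S] {I : Ideal S} (hI : I.IsHomogeneous 𝒜)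
    (h : ∀ P : Ideal S, P.IsHomogeneous 𝒜 → P.IsPrime → I ≤ P → ∀ m, 0 < m → ∀ x ∈ 𝒜 m, x ∈ P) :
    ∃ M, ∀ m, M ≤ m → ∀ x ∈ 𝒜 m, x ∈ I := by
  refine IsPoly.exists_mem (hom_induction (𝒜 := 𝒜) (fun J => I ≤ J → IsPoly (HS 𝒜 J)) ?_ ?_ ?_ I hI
    le_rfl)
  · exact fun _ => isPoly_HS (M := 0) fun _ _ _ _ => Submodule.mem_top
  · intro J e f hJ hf h1 h2 hIJ
    rw [HS_split hJ hf]
    exact ((isPoly_X.pow e).mul (h1 (hIJ.trans (le_col J f)))).add (h2 (hIJ.trans le_sup_left))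
  · intro J hJ hp _ hIJ
    exact isPoly_HS (M := 1) fun m hm => h J hJ hp hIJ m hm

/-- The product of the polynomials `1 + X + ... + X ^ (e - 1)`. -/
noncomputable def geo (L : List (ℕ × S)) : Polynomial ℤ :=
  (L.map fun p => ∑ i ∈ Finset.range p.1, Polynomial.X ^ i).prod

omit [CommRing S] in
lemma geo_cons (p : ℕ × S) (L : List (ℕ × S)) :
    geo (p :: L) = (∑ i ∈ Finset.range p.1, Polynomial.X ^ i) * geo L := by simp [geo]

omit [CommRing S] in
lemma den_eq (L : List (ℕ × S)) : den L = (1 - X) ^ L.length * (geo L : ℤ⟦X⟧) := by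
  induction L with
  | nil => simp [den, geo]
  | cons p L ih =>
    have hd : den (p :: L) = (1 - X ^ p.1) * den L := by simp [den]
    have h1 : ((∑ i ∈ Finset.range p.1, Polynomial.X ^ i : Polynomial ℤ) : ℤ⟦X⟧) =
        ∑ i ∈ Finset.range p.1, X ^ i := by
      rw [← Polynomial.coeToPowerSeries.ringHom_apply, map_sum]
      simp
    rw [hd, ih, geo_cons, Polynomial.coe_mul, h1, ← mul_neg_geom_sum, List.length_cons]
    ring

omit [CommRing S] in
lemma geo_eval (L : List (ℕ × S)) : (geo L).eval 1 = ((L.map Prod.fst).prod : ℕ) := by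
  induction L with
  | nil => simp [geo]
  | cons p L ih => rw [geo_cons, Polynomial.eval_mul, ih]; simp [Polynomial.eval_finsetSum]

omit [CommRing S] in
lemma geo_eval_pos {L : List (ℕ × S)} (hL : ∀ p ∈ L, 0 < p.1) : 0 < (geo L).eval 1 := by
  rw [geo_eval]
  exact_mod_cast List.prod_pos fun a ha => by
    obtain ⟨p, hp, rfl⟩ := List.mem_map.1 ha
    exact hL p hp

lemma one_sub_X_ne : (1 - X : ℤ⟦X⟧) ≠ 0 := fun h => by
  have := congrArg (coeff 0) h
  simp at this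

lemma isPoly_cancel {F : ℤ⟦X⟧} {G : Polynomial ℤ} (hG : G.eval 1 ≠ 0) (h1 : IsPoly (G * F))
    {D : ℕ} (h : IsPoly ((1 - X) ^ D * F)) : IsPoly F := by
  induction D with
  | zero => simpa using h
  | succ D ih =>
    apply ih
    obtain ⟨p, hp⟩ := h
    obtain ⟨q, hq⟩ := h1
    have h2 : G * p = (1 - Polynomial.X) ^ (D + 1) * q := by
      apply Polynomial.coe_injective ℤ
      push_cast
      rw [hp, hq]; ring
    have h3 : p.eval 1 = 0 := by
      have := congrArg (Polynomial.eval 1) h2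
      simpa [hG] using this
    obtain ⟨u, hu⟩ := Polynomial.dvd_iff_isRoot.2 h3
    refine ⟨-u, mul_left_cancel₀ one_sub_X_ne ?_⟩
    rw [← mul_assoc, ← pow_succ', ← hp, hu]
    push_cast
    simp only [map_one]
    ring

omit [CommRing S] in
lemma isPoly_length {F : ℤ⟦X⟧} {L : List (ℕ × S)} (hL : ∀ p ∈ L, 0 < p.1)
    (h1 : IsPoly (den L * F)) {D : ℕ} (h : IsPoly ((1 - X) ^ D * F)) :
    IsPoly ((1 - X) ^ L.length * F) := by
  refine isPoly_cancel (geo_eval_pos hL).ne' (D := D) ?_ ?_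
  · convert h1 using 1
    rw [den_eq]; ring
  · convert ((isPoly_one.sub isPoly_X).pow L.length).mul h using 1
    ring

lemma mon_eq_zero {p : ℕ} {W : List ℕ} (hW : ∀ w ∈ W, p ∣ w) {m : ℕ} (hm : ¬ p ∣ m) :
    mon W m = 0 := by
  induction W generalizing m with
  | nil => rw [mon, if_neg]; rintro rfl; exact hm (dvd_zero p)
  | cons w W ih =>
    rw [mon]
    refine Finset.sum_eq_zero fun i hi => ?_
    split_ifs with h
    · refine ih (fun v hv => hW v (List.mem_cons_of_mem _ hv)) fun h' => hm ?_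
      have h2 := dvd_add h' ((hW w List.mem_cons_self).trans h)
      rwa [Nat.sub_add_cancel (Nat.lt_succ_iff.1 (Finset.mem_range.1 hi))] at h2
    · rfl

end Pool.Agent.Lib.MP_954e53_ag
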