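import Pool.Agent.Lib.MP_954e53_ag.Gens

/-! Duality in graded Artinian quotients with one-dimensional socle, and the numerical data. -/

namespace Pool.Agent.Lib.MP_954e53_ag

open Module PowerSeries

variable {k S : Type*} [Field k] [CommRing S] [Algebra k S]

/-- The socle of `S / J` is spanned by one element. -/
def Soc (𝒜 : ℕ → Submodule k S) (J : Ideal S) : Prop :=
  ∃ σ : S, ∀ y : S, (∀ m, 0 < m → ∀ z ∈ 𝒜 m, z * y ∈ J) → ∃ c : k, y - c • σ ∈ J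

/-- The top degree of `S / J` is `s`. -/
def Top (𝒜 : ℕ → Submodule k S) (J : Ideal S) (s : ℕ) : Prop :=
  (∃ u ∈ 𝒜 s, u ∉ J) ∧ ∀ m, s < m → ∀ x ∈ 𝒜 m, x ∈ J

variable {𝒜 : ℕ → Submodule k S} [GradedAlgebra 𝒜]

lemma exists_top {J : Ideal S} (hJ : J ≠ ⊤) {M : ℕ} (h : ∀ m, M ≤ m → ∀ x ∈ 𝒜 m, x ∈ J) :
    ∃ s, s < M ∧ Top 𝒜 J s := by
  induction M with
  | zero => exact absurd ((Ideal.eq_top_iff_one J).2 (h 0 le_rfl 1 SetLike.GradedOne.one_mem)) hJ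
  | succ M ih =>
    by_cases hM : ∀ x ∈ 𝒜 M, x ∈ J
    · obtain ⟨s, hs, ht⟩ := ih fun m hm => by
        rcases hm.eq_or_lt with rfl | hm
        · exact hM
        · exact h m hm
      exact ⟨s, hs.trans M.lt_succ_self, ht⟩
    · push Not at hM
      exact ⟨M, M.lt_succ_self, hM, h⟩

lemma smul_mem_ideal (J : Ideal S) (c : k) {x : S} (hx : x ∈ J) : c • x ∈ J :=
  (J.restrictScalars k).smul_mem c hx

lemma Soc.exists_smul {J : Ideal S} (h : Soc 𝒜 J) {s : ℕ} {u : S} (hu : u ∈ 𝒜 s) (huJ : u ∉ J)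
    (ht : ∀ m, s < m → ∀ x ∈ 𝒜 m, x ∈ J) {y : S}
    (hy : ∀ m, 0 < m → ∀ z ∈ 𝒜 m, z * y ∈ J) : ∃ c : k, y - c • u ∈ J := by
  obtain ⟨σ, hσ⟩ := h
  obtain ⟨c0, h0⟩ := hσ u fun m hm z hz => ht (m + s) (by omega) _ (SetLike.mul_mem_graded hz hu)
  obtain ⟨c, hc⟩ := hσ y hy
  have hc0 : c0 ≠ 0 := by
    rintro rfl
    exact huJ (by simpa using h0)
  refine ⟨c / c0, ?_⟩
  convert sub_mem hc (smul_mem_ideal J (c / c0) h0) using 1
  rw [smul_sub, smul_smul, div_mul_cancel₀ _ hc0]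
  abel

lemma Soc.pairing {J : Ideal S} (hJ : J.IsHomogeneous 𝒜) (h : Soc 𝒜 J) {s : ℕ} (ht : Top 𝒜 J s)
    {m j : ℕ} (hmj : m + j = s) {y : S} (hy : y ∈ 𝒜 m) (hyJ : y ∉ J) :
    ∃ z ∈ 𝒜 j, z * y ∉ J := by
  obtain ⟨⟨u, hu, huJ⟩, ht⟩ := ht
  induction j using Nat.strong_induction_on generalizing m y with
  | _ j ih =>
    by_cases hs : ∀ i, 0 < i → ∀ z ∈ 𝒜 i, z * y ∈ J
    · obtain ⟨c, hc⟩ := h.exists_smul hu huJ ht hs
      rcases Nat.eq_zero_or_pos j with rfl | hj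
      · exact ⟨1, SetLike.GradedOne.one_mem, by rwa [one_mul]⟩
      · have h1 := hJ m hc
        rw [DirectSum.decompose_sub, DirectSum.sub_apply, Submodule.coe_sub,
          DirectSum.decompose_of_mem_same 𝒜 hy,
          DirectSum.decompose_of_mem_ne 𝒜 ((𝒜 s).smul_mem c hu) (by omega), sub_zero] at h1
        exact absurd h1 hyJ
    · push Not at hs
      obtain ⟨i, hi, z, hz, hzy⟩ := hs
      have h1 := SetLike.mul_mem_graded hz hy
      have h2 : i + m ≤ s := not_lt.1 fun h' => hzy (ht _ h' _ h1)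
      obtain ⟨z', hz', h3⟩ := @ih (j - i) (by omega) (i + m) (by omega) _ h1 hzy
      refine ⟨z' * z, ?_, by rwa [mul_assoc]⟩
      have := SetLike.mul_mem_graded hz' hz
      rwa [show j - i + i = j by omega] at this

variable [hfin : ∀ m, FiniteDimensional k (𝒜 m)]

lemma Soc.hf_le {J : Ideal S} (hJ : J.IsHomogeneous 𝒜) (h : Soc 𝒜 J) {s : ℕ} (ht : Top 𝒜 J s)
    {m j : ℕ} (hmj : m + j = s) : hf 𝒜 J m ≤ hf 𝒜 J j := by
  obtain ⟨u, hu, huJ⟩ := ht.1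
  obtain ⟨l, hl, hlJ⟩ := Submodule.exists_dual_map_eq_bot_of_notMem
    (p := J.restrictScalars k) (x := u) huJ inferInstance
  have hl0 : ∀ x ∈ J, l x = 0 := fun x hx => by
    have : l x ∈ (J.restrictScalars k).map l := ⟨x, hx, rfl⟩
    rwa [hlJ] at this
  have hl1 : ∀ x ∈ 𝒜 s, l x = 0 → x ∈ J := fun x hx h0 => by
    obtain ⟨c, hc⟩ := h.exists_smul hu huJ ht.2 (y := x)
      fun i hi z hz => ht.2 (i + s) (by omega) _ (SetLike.mul_mem_graded hz hx)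
    have h1 := hl0 _ hc
    rw [map_sub, h0, map_smul, zero_sub, neg_eq_zero, smul_eq_mul] at h1
    rw [(mul_eq_zero.1 h1).resolve_right hl] at hc
    simpa using hc
  let φ : S →ₗ[k] Dual k (𝒜 j) :=
    ((LinearMap.mul k S).compr₂ l).compl₂ (𝒜 j).subtype
  have hφ : ∀ y (z : 𝒜 j), φ y z = l (y * z) := fun _ _ => rfl
  have h1 := rk_add (𝒜 m) φ
  have h2 : 𝒜 m ⊓ LinearMap.ker φ = 𝒜 m ⊓ J.restrictScalars k := by
    apply le_antisymm
    · rintro y ⟨hy, hy'⟩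
      refine ⟨hy, ?_⟩
      by_contra hyJ
      obtain ⟨z, hz, hzy⟩ := h.pairing hJ ht hmj hy hyJ
      refine hzy (hl1 _ (by rw [← hmj, add_comm]; exact SetLike.mul_mem_graded hz hy) ?_)
      rw [mul_comm, ← hφ y ⟨z, hz⟩, show φ y = 0 from hy', LinearMap.zero_apply]
    · rintro y ⟨hy, hy'⟩
      exact ⟨hy, LinearMap.ext fun z => hl0 _ (J.mul_mem_right _ hy')⟩
  set W : Submodule k (𝒜 j) := (𝒜 j ⊓ J.restrictScalars k).comap (𝒜 j).subtype with hW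
  have h3 : (𝒜 m).map φ ≤ W.dualAnnihilator := by
    rintro _ ⟨y, -, rfl⟩
    exact (Submodule.mem_dualAnnihilator _).2 fun z hz => hl0 _ (J.mul_mem_left _ hz.2)
  have h4 := Subspace.finrank_add_finrank_dualAnnihilator_eq W
  have h5 : finrank k W = finrank k ↥(𝒜 j ⊓ J.restrictScalars k) :=
    (Submodule.comapSubtypeEquivOfLe inf_le_left).finrank_eq
  have h6 := Submodule.finrank_mono h3
  have h7 := hf_add_finrank 𝒜 J m
  have h8 := hf_add_finrank 𝒜 J j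
  rw [h2] at h1
  omega

lemma Soc.exists_poly {J : Ideal S} (hJ : J.IsHomogeneous 𝒜) (h : Soc 𝒜 J) {s : ℕ}
    (ht : Top 𝒜 J s) : ∃ A : Polynomial ℤ, (A : ℤ⟦X⟧) = HS 𝒜 J ∧ A.natDegree = s ∧
      A.reflect s = A ∧ 0 < A.eval 1 := by
  obtain ⟨A, hA⟩ := isPoly_HS (M := s + 1) ht.2
  have hc : ∀ m, A.coeff m = hf 𝒜 J m := fun m => by
    rw [← Polynomial.coeff_coe, hA, HS, coeff_mk]
  have hs : hf 𝒜 J s ≠ 0 := fun h0 => by
    obtain ⟨u, hu, huJ⟩ := ht.1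
    exact huJ (hf_eq_zero_iff.1 h0 u hu)
  have hdeg : A.natDegree = s := Polynomial.natDegree_eq_of_le_of_coeff_ne_zero
    (Polynomial.natDegree_le_iff_coeff_eq_zero.2 fun m hm => by
      rw [hc, hf_eq_zero_iff.2 (ht.2 m hm)]; rfl) (by rw [hc]; exact_mod_cast hs)
  refine ⟨A, hA, hdeg, ?_, ?_⟩
  · ext m
    rw [Polynomial.coeff_reflect]
    by_cases hm : m ≤ s
    · rw [Polynomial.revAt_le hm, hc, hc]
      exact_mod_cast le_antisymm (h.hf_le hJ ht (by omega)) (h.hf_le hJ ht (by omega))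
    · rw [Polynomial.revAt_eq_self_of_lt (not_le.1 hm)]
  · rw [Polynomial.eval_eq_sum_range, hdeg]
    refine Finset.sum_pos' (fun i _ => by rw [hc]; positivity)
      ⟨s, Finset.self_mem_range_succ s, ?_⟩
    rw [hc, one_pow, mul_one]
    exact_mod_cast Nat.pos_of_ne_zero hs

omit [CommRing S] in
lemma geo_pal {L : List (ℕ × S)} (hL : ∀ p ∈ L, 0 < p.1) :
    (geo L).natDegree + L.length = (L.map Prod.fst).sum ∧
      (geo L).reflect (geo L).natDegree = geo L := by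
  induction L with
  | nil => simp [geo]
  | cons p L ih =>
    have hL' : ∀ q ∈ L, 0 < q.1 := fun q hq => hL q (List.mem_cons_of_mem _ hq)
    obtain ⟨h1, h2⟩ := ih hL'
    obtain ⟨e, he⟩ : ∃ e, p.1 = e + 1 := ⟨p.1 - 1, by have := hL p List.mem_cons_self; omega⟩
    set g : Polynomial ℤ := ∑ i ∈ Finset.range p.1, Polynomial.X ^ i with hg
    have hc : ∀ m, g.coeff m = if m ≤ e then 1 else 0 := fun m => by
      simp [hg, Polynomial.coeff_X_pow, he]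
    have hd : g.natDegree = e := Polynomial.natDegree_eq_of_le_of_coeff_ne_zero
      (Polynomial.natDegree_le_iff_coeff_eq_zero.2 fun m hm => by rw [hc, if_neg (not_le.2 hm)])
      (by rw [hc, if_pos le_rfl]; exact one_ne_zero)
    have hg0 : g ≠ 0 := fun h0 => by simpa [h0] using hc 0
    have hG0 : geo L ≠ 0 := fun h0 => by simpa [h0] using geo_eval_pos hL'
    have hr : g.reflect e = g := by
      ext m
      rw [Polynomial.coeff_reflect]
      by_cases hm : m ≤ e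
      · rw [Polynomial.revAt_le hm, hc, hc, if_pos hm, if_pos (Nat.sub_le _ _)]
      · rw [Polynomial.revAt_eq_self_of_lt (not_le.1 hm)]
    rw [geo_cons, ← hg, Polynomial.natDegree_mul hg0 hG0, hd,
      Polynomial.reflect_mul _ _ hd.le le_rfl, hr, h2]
    refine ⟨?_, rfl⟩
    rw [List.length_cons, List.map_cons, List.sum_cons]
    omega

/-- The numerator of the Hilbert series. -/
theorem exists_numerator [IsNoetherianRing S]
    (hfree : ∀ P : Ideal S, P.IsHomogeneous 𝒜 → P.IsPrime → (∃ m, 0 < m ∧ ∃ x ∈ 𝒜 m, x ∉ P) →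
      ∃ m, (∃ x ∈ 𝒜 m, x ∉ P) ∧ ∃ x ∈ 𝒜 (m + 1), x ∉ P)
    {T : List (ℕ × S)} (hT : ∀ p ∈ T, 0 < p.1 ∧ p.2 ∈ 𝒜 p.1) (hreg : Reg ⊥ T)
    (hsoc : Soc 𝒜 (idl ⊥ T)) {s : ℕ} (ht : Top 𝒜 (idl ⊥ T) s) :
    ∃ h : Polynomial ℤ, (h : ℤ⟦X⟧) = (1 - X) ^ T.length * HS 𝒜 ⊥ ∧
      h.natDegree + (T.map Prod.fst).sum = s + T.length ∧ h.reflect h.natDegree = h ∧
      0 < h.eval 1 := by
  have hT1 : ∀ p ∈ T, 0 < p.1 := fun p hp => (hT p hp).1
  have hT2 : ∀ p ∈ T, p.2 ∈ 𝒜 p.1 := fun p hp => (hT p hp).2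
  obtain ⟨A, hA, hdeg, hpal, hpos⟩ := hsoc.exists_poly (idl_hom bot_hom hT2) ht
  rw [← den_mul_HS bot_hom hT2 hreg] at hA
  obtain ⟨D, hD⟩ := isPoly_one_sub_pow hfree ⊥ bot_hom
  obtain ⟨h, hh⟩ := isPoly_length hT1 ⟨A, hA⟩ hD
  have hAh : A = h * geo T := by
    apply Polynomial.coe_injective ℤ
    push_cast
    rw [hA, hh, den_eq]; ring
  have hG := geo_eval_pos hT1
  have hG0 : geo T ≠ 0 := fun h0 => by simp [h0] at hG
  have hh0 : h ≠ 0 := fun h0 => by simp [hAh, h0] at hpos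
  obtain ⟨h1, h2⟩ := geo_pal hT1
  have h3 : s = h.natDegree + (geo T).natDegree := by
    rw [← hdeg, hAh, Polynomial.natDegree_mul hh0 hG0]
  refine ⟨h, hh, by omega, ?_, ?_⟩
  · rw [h3, hAh, Polynomial.reflect_mul _ _ le_rfl le_rfl, h2] at hpal
    exact mul_right_cancel₀ hG0 hpal
  · rw [hAh, Polynomial.eval_mul] at hpos
    exact (pos_iff_pos_of_mul_pos hpos).2 hG

/-- At least `d` of the generators have weight prime to `p`. -/
theorem le_length_filter [IsNoetherianRing S] {L : List (ℕ × S)}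
    (hL : ∀ p ∈ L, 0 < p.1 ∧ p.2 ∈ 𝒜 p.1) (h0 : finrank k (𝒜 0) ≤ 1)
    (hgen : ∀ m, 0 < m → ∀ x ∈ 𝒜 m, x ∈ idl ⊥ L) {m₀ : ℕ}
    (hfree : ∀ P : Ideal S, P.IsHomogeneous 𝒜 → P.IsPrime → (∃ m, 0 < m ∧ ∃ x ∈ 𝒜 m, x ∉ P) →
      ∀ m, m₀ ≤ m → ∃ x ∈ 𝒜 m, x ∉ P)
    {d : ℕ} {h : Polynomial ℤ} (hh : (h : ℤ⟦X⟧) = (1 - X) ^ d * HS 𝒜 ⊥) (hpos : h.eval 1 ≠ 0)
    {p : ℕ} (hp : 2 ≤ p) : d + ((L.map Prod.fst).filter (p ∣ ·)).length ≤ L.length := by
  set L1 := L.filter fun q => decide (p ∣ q.1) with hL1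
  set L2 := L.filter fun q => !decide (p ∣ q.1) with hL2
  have hlen : L1.length + L2.length = L.length := (List.length_eq_length_filter_add _).symm
  have hlen1 : ((L.map Prod.fst).filter (p ∣ ·)).length = L1.length := by
    rw [List.filter_map, List.length_map]; rfl
  have h1 : ∀ q ∈ L1, 0 < q.1 ∧ q.2 ∈ 𝒜 q.1 := fun q hq => hL q (List.mem_of_mem_filter hq)
  have h2 : ∀ q ∈ L2, 0 < q.1 ∧ q.2 ∈ 𝒜 q.1 := fun q hq => hL q (List.mem_of_mem_filter hq)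
  have hJ : (idl ⊥ L2).IsHomogeneous 𝒜 := idl_hom bot_hom fun q hq => (h2 q hq).2
  have hle : idl ⊥ L ≤ idl (idl ⊥ L2) L1 := idl_le bot_le fun q hq => by
    by_cases hq' : p ∣ q.1
    · exact mem_idl _ (List.mem_filter.2 ⟨hq, by simpa using hq'⟩)
    · exact le_idl _ _ (mem_idl _ (List.mem_filter.2 ⟨hq, by simpa using hq'⟩))
  have hz : ∀ m, ¬ p ∣ m → ∀ x ∈ 𝒜 m, x ∈ idl ⊥ L2 := fun m hm => by
    have h3 := hf_le_mon h1 h0 hJ (fun m hm x hx => hle (hgen m hm x hx)) m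
    rw [mon_eq_zero (p := p) (fun w hw => by
      obtain ⟨q, hq, rfl⟩ := List.mem_map.1 hw
      simpa using (List.mem_filter.1 hq).2) hm] at h3
    exact hf_eq_zero_iff.1 (Nat.le_zero.1 h3)
  obtain ⟨M, hM⟩ := exists_mem_of_primes hJ fun P hP hprime hle m hm x hx => by
    by_contra hxP
    obtain ⟨y, hy, hyP⟩ := hfree P hP hprime ⟨m, hm, x, hx, hxP⟩ (p * m₀ + 1)
      ((Nat.le_mul_of_pos_left m₀ (by omega)).trans (Nat.le_succ _))
    refine hyP (hle (hz _ (fun h' => ?_) y hy))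
    have := Nat.le_of_dvd one_pos ((Nat.dvd_add_right (dvd_mul_right p m₀)).1 h')
    omega
  obtain ⟨D, hD⟩ := isPoly_one_sub_pow (fun P hP hprime hrel => ⟨m₀, hfree P hP hprime hrel _ le_rfl,
    hfree P hP hprime hrel _ (Nat.le_succ _)⟩) ⊥ bot_hom
  obtain ⟨g, hg⟩ := isPoly_length (fun q hq => (h2 q hq).1)
    (isPoly_den_mul (fun q hq => (h2 q hq).2) bot_hom hM) hD
  by_contra hlt
  obtain ⟨e, rfl⟩ : ∃ e, d = L2.length + (e + 1) := ⟨d - L2.length - 1, by omega⟩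
  have h4 : h = (1 - Polynomial.X) ^ (e + 1) * g := by
    apply Polynomial.coe_injective ℤ
    push_cast
    rw [hh, hg]; ring
  exact hpos (by simp [h4])

omit [GradedAlgebra 𝒜] in
lemma length_le_hf {e : ℕ} {L : List (ℕ × S)} (hL : ∀ p ∈ L, p.2 ∈ 𝒜 e) {J : Ideal S}
    (h : ∀ A p B, L = A ++ p :: B → p.2 ∉ idl J (A ++ B)) : L.length ≤ hf 𝒜 J e := by
  induction L generalizing J with
  | nil => exact Nat.zero_le _
  | cons p L ih =>
    have h1 := ih (fun q hq => hL q (List.mem_cons_of_mem _ hq)) (J := J ⊔ Ideal.span {p.2})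
      fun A q B hq => h (p :: A) q B (by rw [hq]; rfl)
    have h2 : p.2 ∉ J := fun h' => h [] p L rfl (le_idl _ _ h')
    have h3 : finrank k ↥(𝒜 e ⊓ J.restrictScalars k) <
        finrank k ↥(𝒜 e ⊓ (J ⊔ Ideal.span {p.2}).restrictScalars k) :=
      Submodule.finrank_lt_finrank_of_lt (lt_of_le_of_ne
        (inf_le_inf_left _ fun x hx => Ideal.mem_sup_left hx) fun h' => h2 (by
          have : p.2 ∈ 𝒜 e ⊓ (J ⊔ Ideal.span {p.2}).restrictScalars k :=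
            ⟨hL p List.mem_cons_self, Ideal.mem_sup_right (Ideal.mem_span_singleton_self _)⟩
          rw [← h'] at this
          exact this.2))
    have h4 := hf_add_finrank 𝒜 J e
    have h5 := hf_add_finrank 𝒜 (J ⊔ Ideal.span {p.2}) e
    rw [List.length_cons]
    omega

omit [GradedAlgebra 𝒜] hfin in
lemma exists_minimal (L : List (ℕ × S)) : ∃ L' : List (ℕ × S), (∀ p ∈ L', p ∈ L) ∧
    L'.length ≤ L.length ∧ idl ⊥ L ≤ idl ⊥ L' ∧
    ∀ L'' : List (ℕ × S), (∀ p ∈ L'', p ∈ L') → L''.length < L'.length →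
      ¬ idl ⊥ L' ≤ idl ⊥ L'' := by
  classical
  have hex : ∃ n, ∃ L' : List (ℕ × S), L'.length = n ∧ (∀ p ∈ L', p ∈ L) ∧ idl ⊥ L ≤ idl ⊥ L' :=
    ⟨_, L, rfl, fun _ h => h, le_rfl⟩
  obtain ⟨L', h1, h2, h3⟩ := Nat.find_spec hex
  refine ⟨L', h2, h1 ▸ Nat.find_min' hex ⟨L, rfl, fun _ h => h, le_rfl⟩, h3, fun L'' h4 h5 h6 => ?_⟩
  exact Nat.find_min hex (h1 ▸ h5) ⟨L'', rfl, fun p hp => h2 p (h4 p hp), h3.trans h6⟩

omit [GradedAlgebra 𝒜] in
lemma count_le_hf {L : List (ℕ × S)} (hL : ∀ p ∈ L, p.2 ∈ 𝒜 p.1)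
    (hmin : ∀ L' : List (ℕ × S), (∀ p ∈ L', p ∈ L) → L'.length < L.length → ¬ idl ⊥ L ≤ idl ⊥ L')
    (e : ℕ) : (L.map Prod.fst).count e ≤ hf 𝒜 (idl ⊥ (L.filter fun q => !decide (q.1 = e))) e := by
  set L1 := L.filter fun q => decide (q.1 = e) with hL1
  set L2 := L.filter fun q => !decide (q.1 = e) with hL2
  have hlen : L1.length + L2.length = L.length := (List.length_eq_length_filter_add _).symm
  have hlen1 : (L.map Prod.fst).count e = L1.length := by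
    rw [List.count_eq_length_filter, List.filter_map, List.length_map]; rfl
  rw [hlen1]
  refine length_le_hf (fun p hp => ?_) fun A p B hp h => ?_
  · obtain ⟨h1, h2⟩ := List.mem_filter.1 hp
    have := hL p h1
    rwa [of_decide_eq_true h2] at this
  · rw [← idl_append] at h
    have h1 : ∀ q ∈ A ++ p :: B, q ∈ L := fun q hq => List.mem_of_mem_filter (hL1 ▸ hp ▸ hq)
    refine hmin (L2 ++ (A ++ B)) (fun q hq => ?_) ?_ (idl_le bot_le fun q hq => ?_)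
    · rcases List.mem_append.1 hq with hq | hq
      · exact List.mem_of_mem_filter hq
      · exact h1 q (by simp only [List.mem_append, List.mem_cons] at hq ⊢; tauto)
    · rw [← hlen, hp]; simp; omega
    · by_cases hq' : q.1 = e
      · have h2 : q ∈ A ++ p :: B := hp ▸ List.mem_filter.2 ⟨hq, by simpa using hq'⟩
        by_cases hqp : q = p
        · exact hqp ▸ h
        · exact mem_idl _ (by simp only [List.mem_append, List.mem_cons] at h2 ⊢; tauto)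
      · exact mem_idl _ (List.mem_append_left _ (List.mem_filter.2 ⟨hq, by simpa using hq'⟩))

omit hfin in
/-- All numerical consequences of the ring-theoretic hypotheses. -/
theorem ring_numerics [IsDomain S] {L : List (ℕ × S)} (hL : ∀ p ∈ L, 0 < p.1 ∧ p.2 ∈ 𝒜 p.1)
    (hgen : Algebra.adjoin k {x | ∃ p ∈ L, p.2 = x} = ⊤) {m₀ : ℕ}
    (hfree : ∀ P : Ideal S, P.IsHomogeneous 𝒜 → P.IsPrime → (∃ m, 0 < m ∧ ∃ x ∈ 𝒜 m, x ∉ P) →
      ∀ m, m₀ ≤ m → ∃ x ∈ 𝒜 m, x ∉ P)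
    {T : List (ℕ × S)} (hT : ∀ p ∈ T, 0 < p.1 ∧ p.2 ∈ 𝒜 p.1) (hreg : Reg ⊥ T)
    (hsoc : Soc 𝒜 (idl ⊥ T)) {s r : ℕ} (ht : Top 𝒜 (idl ⊥ T) s)
    (hr : s + r = (T.map Prod.fst).sum) {c : ℕ} (hc : L.length ≤ T.length + c)
    (h1 : ∀ x ∈ 𝒜 1, x = 0) :
    ∃ (W : List ℕ) (H : ℕ → ℕ) (h : Polynomial ℤ), (∀ w ∈ W, 2 ≤ w) ∧
      (∀ p : ℕ, p.Prime → (W.filter (p ∣ ·)).length ≤ c) ∧ (∀ m, H m ≤ mon W m) ∧
      (h : ℤ⟦X⟧) = (1 - X) ^ T.length * PowerSeries.mk (fun m => (H m : ℤ)) ∧ H 0 = 1 ∧ H 1 = 0 ∧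
      r ≤ T.length ∧ h.reflect (T.length - r) = h ∧ h.natDegree = T.length - r ∧
      0 < h.eval 1 ∧ W.length ≤ T.length + c ∧ (∀ e, W.count e ≤ H e) ∧
      ∀ w ∈ W, ∀ m, 0 < m → H m + W.count (m + w) ≤ H (m + w) := by
  have hfin := fin_of_gens hL hgen
  have hnoeth := noeth_of_gens hgen
  have h0 := finrank_zero_le hL hgen
  obtain ⟨h, hh, hdeg, hpal, hpos⟩ := exists_numerator (fun P hP hprime hrel =>
    ⟨m₀, hfree P hP hprime hrel _ le_rfl, hfree P hP hprime hrel _ (Nat.le_succ _)⟩) hT hreg hsoc ht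
  obtain ⟨L', hs, hlen, hle, hmin⟩ := exists_minimal L
  have hL' : ∀ p ∈ L', 0 < p.1 ∧ p.2 ∈ 𝒜 p.1 := fun p hp => hL p (hs p hp)
  have hgen' : ∀ m, 0 < m → ∀ x ∈ 𝒜 m, x ∈ idl ⊥ L' :=
    fun m hm x hx => hle (mem_idl_of_pos hL hgen hm hx)
  have hlow : ∀ e, (L'.map Prod.fst).count e ≤ hf 𝒜 ⊥ e := fun e =>
    (count_le_hf (fun p hp => (hL' p hp).2) hmin e).trans (hf_anti bot_le e)
  have hH1 : hf 𝒜 ⊥ 1 = 0 := hf_eq_zero_iff.2 h1
  have hd : h.natDegree = T.length - r := by omega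
  refine ⟨L'.map Prod.fst, hf 𝒜 ⊥, h, fun w hw => ?_, fun p hp => ?_,
    hf_le_mon hL' h0 bot_hom hgen', hh, ?_, hH1, by omega, hd ▸ hpal, hd, hpos,
    by rw [List.length_map]; omega, hlow, fun w hw m hm => ?_⟩
  · have h2 := hlow 1
    obtain ⟨p, hp, rfl⟩ := List.mem_map.1 hw
    have h3 := (hL' p hp).1
    by_contra h4
    have h5 : p.1 = 1 := by omega
    have := List.count_pos_iff.2 (h5 ▸ hw)
    omega
  · have := le_length_filter hL' h0 hgen' hfree hh hpos.ne' hp.two_le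
    omega
  · refine le_antisymm (by rw [hf_bot]; exact h0) (Nat.pos_of_ne_zero fun h2 => ?_)
    exact one_ne_zero (hf_eq_zero_iff.1 h2 1 SetLike.GradedOne.one_mem)
  · obtain ⟨p, hp, rfl⟩ := List.mem_map.1 hw
    have h2 := count_le_hf (fun p hp => (hL' p hp).2) hmin (m + p.1)
    set J := idl ⊥ (L'.filter fun q => !decide (q.1 = m + p.1)) with hJ
    have hpJ : p.2 ∈ J := mem_idl _ (List.mem_filter.2 ⟨hp, by simp; omega⟩)
    have hp0 : p.2 ≠ 0 := fun h3 => by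
      classical
      refine hmin (L'.erase p) (fun q hq => List.mem_of_mem_erase hq)
        (by rw [List.length_erase_of_mem hp]; exact Nat.sub_one_lt (List.length_pos_of_mem hp).ne')
        (idl_le bot_le fun q hq => ?_)
      by_cases hqp : q = p
      · rw [hqp, h3]; exact zero_mem _
      · exact mem_idl _ ((List.mem_erase_of_ne hqp).2 hq)
    have h3 : (𝒜 m).map (LinearMap.mul k S p.2) ≤ 𝒜 (m + p.1) ⊓ J.restrictScalars k := by
      rintro _ ⟨u, hu, rfl⟩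
      exact ⟨by rw [add_comm]; exact SetLike.mul_mem_graded (hL' p hp).2 hu,
        J.mul_mem_right _ hpJ⟩
    have h4 := Submodule.finrank_mono h3
    rw [← (Submodule.equivMapOfInjective _ (mul_right_injective₀ hp0) (𝒜 m)).finrank_eq] at h4
    have h5 := hf_add_finrank 𝒜 J (m + p.1)
    rw [hf_bot, hf_bot]
    omega

end Pool.Agent.Lib.MP_954e53_ag
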