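import Pool.Agent.Lib.MP_954e53_ag.H42Cech

/-! The lemma of Cartan: vanishing of Cech cohomology on a basis gives vanishing of cohomology. -/

universe u v w

open TopologicalSpace Opposite CategoryTheory CategoryTheory.Abelian Limits

namespace Pool.Agent.Lib.MP_954e53_ag.Cech

variable {X : TopCat.{u}} {ι : Type v}

/-- The presheaf of all dependent functions. -/
def disc (A : X → Type u) [∀ x, AddCommGroup (A x)] : X.Presheaf AddCommGrpCat.{u} where
  obj V := AddCommGrpCat.of (∀ x : V.unop, A x)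
  map i := AddCommGrpCat.ofHom
    { toFun := fun f x => f ⟨x.1, leOfHom i.unop x.2⟩
      map_zero' := rfl
      map_add' := fun _ _ => rfl }

theorem disc_isSheaf (A : X → Type u) [∀ x, AddCommGroup (A x)] : (disc A).IsSheaf := by
  rw [TopCat.Presheaf.isSheaf_iff_isSheafUniqueGluing]
  intro κ U sf h
  have hx : ∀ x : (iSup U : Opens X), ∃ i, x.1 ∈ U i := fun x => Opens.mem_iSup.1 x.2
  choose k hk using hx
  refine ⟨fun x => sf (k x) ⟨x.1, hk x⟩, fun i => funext fun x => ?_, fun s hs => funext fun x => ?_⟩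
  · exact congrFun (h _ i) ⟨x.1, hk ⟨x.1, Opens.mem_iSup.2 ⟨i, x.2⟩⟩, x.2⟩
  · exact congrFun (hs (k x)) ⟨x.1, hk x⟩

theorem mem_cap {U : ι → Opens X} {x : X} : ∀ {n : ℕ} {s : Fin n → ι},
    x ∈ cap U s ↔ ∀ j, x ∈ U (s j) := by
  intro n s
  rw [cap, ← SetLike.mem_coe, Opens.coe_iInf]
  simp

theorem disc_cechEx (A : X → Type u) [∀ x, AddCommGroup (A x)] (U : ι → Opens X) :
    CechEx (disc A) U := by
  classical
  intro n c hc
  let p : ∀ (m : ℕ) (a : Coch (disc A) U m) (x : X), (Fin m → ι) → A x := fun m a x t =>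
    if h : x ∈ cap U t then a t ⟨x, h⟩ else 0
  have key : ∀ (m : ℕ) (a : Coch (disc A) U m) (s : Fin (m + 1) → ι) (x : cap U s),
      dC a s x = DD (p m a x) s := fun m a s x => by
    refine (map_DD (Pi.evalAddMonoidHom (fun y : cap U s => A y) x) _ s).trans
      (DD_congr fun j => ?_)
    rw [ev_of_le _ (cap_le_comp U s _)]
    symm
    exact dif_pos (cap_le_comp U s j.succAbove x.2)
  let k : ∀ x : X, (∃ i, x ∈ U i) → ι := fun x h => h.choose
  refine ⟨fun t x => p _ c x (Fin.cons (k x ⟨t 0, cap_le U t 0 x.2⟩) t),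
    funext fun s => funext fun x => ?_⟩
  have h0 : ∃ i, x.1 ∈ U i := ⟨s 0, cap_le U s 0 x.2⟩
  have h1 : x.1 ∈ cap U (Fin.cons (k x h0) s : Fin (n + 3) → ι) := by
    rw [cap_cons]
    exact ⟨h0.choose_spec, x.2⟩
  have h2 := key _ c _ ⟨x.1, h1⟩
  rw [hc, DD_cons, eq_comm] at h2
  rw [key, DD_congr (c' := fun r => p _ c x (Fin.cons (k x h0) r)) fun j =>
    dif_pos (cap_le_comp U s j.succAbove x.2), ← sub_eq_zero.1 h2]
  exact dif_pos x.2

theorem cechEx_of_injective (I : X.Sheaf AddCommGrpCat.{u}) [Injective I] (U : ι → Opens X) :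
    CechEx I.obj U := by
  let G : X.Sheaf AddCommGrpCat.{u} := ⟨disc fun x => I.presheaf.stalk x, disc_isSheaf _⟩
  let i : I ⟶ G := ⟨
    { app := fun V => AddCommGrpCat.ofHom
        (AddMonoidHom.pi fun x : V.unop => (I.presheaf.germ V.unop x.1 x.2).hom)
      naturality := fun V W f => by
        ext s
        exact funext fun x => I.presheaf.germ_res_apply f.unop x.1 x.2 s }⟩
  have : ∀ V, Mono (i.hom.app V) := fun V => (AddCommGrpCat.mono_iff_injective _).2 fun s t h =>
    TopCat.Presheaf.section_ext I V.unop s t fun x hx => congrFun h ⟨x, hx⟩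
  have : Mono i.hom := NatTrans.mono_of_mono_app _
  have : Mono i := (TopCat.Sheaf.forget _ X).mono_of_mono_map this
  exact CechEx.of_retract i.hom (Injective.factorThru (𝟙 I) i).hom
    (congrArg (fun f => f.hom) (Injective.comp_factorThru (𝟙 I) i)) 
    (disc_cechEx (fun x => I.presheaf.stalk x) U)

section Short

variable {S : ShortComplex (X.Sheaf AddCommGrpCat.{u})} (hS : S.ShortExact) {U : ι → Opens X}

include hS in
theorem f_inj (V : Opens X) : Function.Injective (S.f.hom.app (op V)) := by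
  have := hS.mono_f
  have : Mono S.f.hom := (TopCat.Sheaf.forget _ X).map_mono S.f
  exact (AddCommGrpCat.mono_iff_injective _).1 inferInstance

theorem g_f (V : Opens X) (x : S.X₁.obj.obj (op V)) :
    S.g.hom.app (op V) (S.f.hom.app (op V) x) = 0 :=
  ConcreteCategory.congr_hom (NatTrans.congr_app (congrArg (fun f => f.hom) S.zero) (op V)) x

include hS in
theorem lift_cocycle (h : CechEx S.X₁.obj U) {n : ℕ} (c : Coch S.X₂.obj U (n + 1))
    (hc : dC (mapC S.g.hom c) = 0) :
    ∃ a : Coch S.X₂.obj U (n + 1), dC a = 0 ∧ mapC S.g.hom a = mapC S.g.hom c := by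
  rw [← mapC_dC] at hc
  choose e he using fun s => TopCat.Sheaf.sections_exact_of_left_exact hS.exact hS.mono_f
    (dC c s) (congrFun hc s)
  have he' : mapC S.f.hom e = dC c := funext he
  obtain ⟨b, hb⟩ := h n e (funext fun s => f_inj hS _ (by
    have := congrFun (mapC_dC S.f.hom e) s
    rw [he', dC_dC] at this
    exact this.trans (map_zero _).symm))
  refine ⟨c - mapC S.f.hom b, by rw [dC_sub, ← mapC_dC, hb, he', sub_self], funext fun s => ?_⟩
  simp only [mapC, Pi.sub_apply, map_sub, g_f, sub_zero]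

include hS in
theorem CechEx.quot (h : CechEx S.X₁.obj U) (h₂ : CechEx S.X₂.obj U)
    (hg : ∀ (n : ℕ) (s : Fin (n + 1) → ι), Function.Surjective (S.g.hom.app (op (cap U s)))) :
    CechEx S.X₃.obj U := by
  intro n c hc
  choose a ha using fun s => hg _ s (c s)
  have ha' : mapC S.g.hom a = c := funext ha
  obtain ⟨a', h1, h2⟩ := lift_cocycle hS h a (by rw [ha', hc])
  obtain ⟨b, hb⟩ := h₂ n a' h1
  exact ⟨mapC S.g.hom b, by rw [← mapC_dC, hb, h2, ha']⟩

theorem glue (F : X.Sheaf AddCommGrpCat.{u}) {V : Opens X} (hV : iSup U = V)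
    (c : Coch F.obj U 1) (hc : dC c = 0) : ∃ t : F.obj.obj (op V),
      ∀ s, res F.obj ((cap_le U s 0).trans ((le_iSup U _).trans hV.le)) t = c s := by
  refine (F.existsUnique_gluing' (fun s : Fin 1 → ι => cap U s) V
    (fun s => homOfLE ((cap_le U s 0).trans ((le_iSup U _).trans hV.le))) ?_ c ?_).exists
  · rw [← hV]
    exact iSup_le fun i => le_iSup_of_le (fun _ => i) (cap_one U fun _ => i).ge
  · intro s t
    have h1 : cap U s ⊓ cap U t ≤ cap U (Fin.cons (s 0) t : Fin 2 → ι) := by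
      rw [cap_cons, cap_one U s]
    have h2 := ev_dC c h1
    rw [hc, ev_of_le _ h1, Pi.zero_apply, map_zero, DD_cons, DD, Fin.sum_univ_succ] at h2
    have e : (Fin.cons (s 0) (t ∘ (0 : Fin 1).succAbove) : Fin 1 → ι) = s :=
      funext fun j : Fin 1 => by rw [Subsingleton.elim j 0]; rfl
    simp only [Fin.val_zero, pow_zero, one_smul, Finset.univ_eq_empty, Finset.sum_empty, add_zero,
      e] at h2
    rw [ev_of_le _ inf_le_right, ev_of_le _ inf_le_left] at h2
    exact (sub_eq_zero.1 h2.symm).symm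

include hS in
theorem lift_section (h : CechEx S.X₁.obj U) {V : Opens X} (hV : iSup U = V)
    (x : S.X₃.obj.obj (op V)) (hx : ∀ i, ∃ y, S.g.hom.app (op (U i)) y =
      res S.X₃.obj ((le_iSup U i).trans hV.le) x) : ∃ y, S.g.hom.app (op V) y = x := by
  choose y hy using hx
  have le : ∀ {m : ℕ} (s : Fin (m + 1) → ι), cap U s ≤ V := fun s =>
    (cap_le U s 0).trans ((le_iSup U _).trans hV.le)
  have e : mapC S.g.hom (fun s : Fin 1 → ι => res S.X₂.obj (cap_le U s 0) (y (s 0))) =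
      fun s => res S.X₃.obj (le s) x := funext fun s => by
    rw [mapC, app_res, hy, res_res]
  obtain ⟨a, h1, h2⟩ := lift_cocycle hS h (n := 0)
    (fun s => res S.X₂.obj (cap_le U s 0) (y (s 0))) (by
      rw [e]
      ext s
      rw [dC, DD_congr (c' := DD fun _ => res S.X₃.obj (le s) x) fun j => ?_, DD_DD]
      · rfl
      · rw [ev_of_le _ (cap_le_comp U s _), res_res, DD, Fin.sum_univ_succ]
        simp)
  obtain ⟨t, ht⟩ := glue S.X₂ hV a h1
  refine ⟨t, S.X₃.eq_of_locally_eq' (fun s : Fin 1 → ι => cap U s) V (fun s => homOfLE (le s))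
    ?_ _ _ fun s => ?_⟩
  · rw [← hV]
    exact iSup_le fun i => le_iSup_of_le (fun _ => i) (cap_one U fun _ => i).ge
  · have := congrFun (h2.trans e) s
    rw [mapC, ← ht s, app_res] at this
    exact this

end Short

/-- Every open cover of a member of `B` has a refinement by members of `B` with exact Cech
complex. -/
def Cartan (B : Set (Opens X)) (F : X.Presheaf AddCommGrpCat.{u}) : Prop :=
  ∀ V ∈ B, ∀ W : V → Opens X, (∀ x, x.1 ∈ W x) → ∃ (κ : Type u) (U : κ → Opens X),
    (∀ i, U i ∈ B) ∧ iSup U = V ∧ (∀ i, ∃ x, U i ≤ W x) ∧ CechEx F U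

section Step

variable {S : ShortComplex (X.Sheaf AddCommGrpCat.{u})} (hS : S.ShortExact) {B : Set (Opens X)}

include hS in
theorem Cartan.surj (h : Cartan B S.X₁.obj) {V : Opens X} (hV : V ∈ B) :
    Function.Surjective (S.g.hom.app (op V)) := by
  intro x
  choose W hW y hy using fun p : V => (TopCat.Presheaf.isLocallySurjective_iff S.g.hom).1
    ((TopCat.Sheaf.isLocallySurjective_iff_epi S.g).2 hS.epi_g) V x p.1 p.2
  obtain ⟨κ, U, -, h2, h3, h4⟩ := h V hV W hy
  refine lift_section hS h4 h2 x fun i => ?_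
  obtain ⟨p, hp⟩ := h3 i
  obtain ⟨z, hz⟩ := y p
  exact ⟨res _ hp z, by rw [app_res, hz]; exact res_res _ (hW p) hp x⟩

include hS in
theorem Cartan.cechEx_quot [Injective S.X₂] (hB : ∀ V ∈ B, ∀ W ∈ B, V ⊓ W ∈ B)
    (h : Cartan B S.X₁.obj) {U : ι → Opens X} (hU : ∀ i, U i ∈ B) (hE : CechEx S.X₁.obj U) :
    CechEx S.X₃.obj U :=
  CechEx.quot hS hE (cechEx_of_injective _ U) fun _ s => h.surj hS (cap_mem hB hU s)

include hS in
theorem Cartan.quot [Injective S.X₂] (hB : ∀ V ∈ B, ∀ W ∈ B, V ⊓ W ∈ B)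
    (h : Cartan B S.X₁.obj) : Cartan B S.X₃.obj := fun V hV W hW => by
  obtain ⟨κ, U, h1, h2, h3, h4⟩ := h V hV W hW
  exact ⟨κ, U, h1, h2, h3, h.cechEx_quot hS hB h1 h4⟩

include hS in
theorem Cartan.surj_iSup (h : Cartan B S.X₁.obj) {U : ι → Opens X} (hU : ∀ i, U i ∈ B)
    (hE : CechEx S.X₁.obj U) {V : Opens X} (hV : iSup U = V) :
    Function.Surjective (S.g.hom.app (op V)) := fun x =>
  lift_section hS hE hV x fun i => h.surj hS (hU i) _

end Step

theorem ext_eq_zero [HasExt.{w} (X.Sheaf AddCommGrpCat.{u})] {B : Set (Opens X)}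
    (hB : ∀ V ∈ B, ∀ W ∈ B, V ⊓ W ∈ B) {U : ι → Opens X} (hU : ∀ i, U i ∈ B) {V : Opens X}
    (hV : iSup U = V) (Z : X.Sheaf AddCommGrpCat.{u})
    (hZ : ∀ {I Q : X.Sheaf AddCommGrpCat.{u}} (g : I ⟶ Q),
      Function.Surjective (g.hom.app (op V)) → ∀ φ : Z ⟶ Q, ∃ ψ, ψ ≫ g = φ) (n : ℕ) :
    ∀ F : X.Sheaf AddCommGrpCat.{u}, Cartan B F.obj → CechEx F.obj U →
      ∀ x : Ext Z F (n + 1), x = 0 := by
  have sh : ∀ F : X.Sheaf AddCommGrpCat.{u},
      (ShortComplex.mk _ _ (cokernel.condition (Injective.ι F))).ShortExact := fun F =>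
    { exact := ShortComplex.exact_cokernel _ }
  induction n with
  | zero =>
    intro F h hE x
    obtain ⟨y, rfl⟩ := Ext.covariant_sequence_exact₁ Z (sh F) x (Ext.eq_zero_of_injective _) rfl
    obtain ⟨φ, rfl⟩ := (Ext.mk₀_bijective _ _).2 y
    obtain ⟨ψ, rfl⟩ := hZ _ (Cartan.surj_iSup (sh F) h hU hE hV) φ
    rw [← Ext.mk₀_comp_mk₀, Ext.comp_assoc_of_second_deg_zero]
    exact (congrArg (fun z => (Ext.mk₀ ψ).comp z (zero_add 1)) (sh F).comp_extClass).trans
      (Ext.comp_zero _ _ _ _ _)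
  | succ n ih =>
    intro F h hE x
    obtain ⟨y, rfl⟩ := Ext.covariant_sequence_exact₁ Z (sh F) x (Ext.eq_zero_of_injective _) rfl
    have : Injective (ShortComplex.mk _ _ (cokernel.condition (Injective.ι F))).X₂ :=
      inferInstanceAs (Injective (Injective.under F))
    rw [ih _ (Cartan.quot (sh F) hB h) (Cartan.cechEx_quot (sh F) hB h hU hE) y, Ext.zero_comp]

end Pool.Agent.Lib.MP_954e53_ag.Cech
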