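import Mathlib

/-! Cech cochains of a family of open sets, as plain functions. -/

universe u v

open TopologicalSpace Opposite CategoryTheory

namespace Pool.Agent.Lib.MP_954e53_ag.Cech

section Const

variable {ι : Type v} {A A' : Type*} [AddCommGroup A] [AddCommGroup A']

/-- The coboundary of a function on tuples. -/
def DD {n : ℕ} (c : (Fin n → ι) → A) (s : Fin (n + 1) → ι) : A :=
  ∑ j : Fin (n + 1), (-1 : ℤ) ^ (j : ℕ) • c (s ∘ j.succAbove)

theorem DD_congr {n : ℕ} {c c' : (Fin n → ι) → A} {s : Fin (n + 1) → ι}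
    (h : ∀ j : Fin (n + 1), c (s ∘ j.succAbove) = c' (s ∘ j.succAbove)) : DD c s = DD c' s :=
  Finset.sum_congr rfl fun j _ => by rw [h j]

theorem map_DD {n : ℕ} (φ : A →+ A') (c : (Fin n → ι) → A) (s : Fin (n + 1) → ι) :
    φ (DD c s) = DD (fun t => φ (c t)) s := by
  simp only [DD, map_sum, map_zsmul]

theorem DD_sub {n : ℕ} (c c' : (Fin n → ι) → A) (s : Fin (n + 1) → ι) :
    DD (fun t => c t - c' t) s = DD c s - DD c' s := by
  simp only [DD, smul_sub, Finset.sum_sub_distrib]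

theorem DD_zero {n : ℕ} (s : Fin (n + 1) → ι) : DD (fun _ => (0 : A)) s = 0 := by
  simp [DD]

theorem DD_sum {n : ℕ} {κ : Type*} (T : Finset κ) (c : κ → (Fin n → ι) → A)
    (s : Fin (n + 1) → ι) : DD (fun t => ∑ k ∈ T, c k t) s = ∑ k ∈ T, DD (c k) s := by
  simp only [DD, Finset.smul_sum]
  exact Finset.sum_comm

theorem cons_succAbove_succ {n : ℕ} (i : ι) (t : Fin (n + 1) → ι) (j : Fin (n + 1)) :
    (Fin.cons i t : Fin (n + 2) → ι) ∘ j.succ.succAbove =
      (Fin.cons i (t ∘ j.succAbove) : Fin (n + 1) → ι) := by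
  ext k
  refine Fin.cases ?_ (fun k => ?_) k
  · simp
  · simp [Fin.succ_succAbove_succ]

theorem DD_cons {n : ℕ} (c : (Fin (n + 1) → ι) → A) (i : ι) (t : Fin (n + 1) → ι) :
    DD c (Fin.cons i t) = c t - DD (fun r => c (Fin.cons i r)) t := by
  rw [DD, Fin.sum_univ_succ, DD, sub_eq_add_neg, ← Finset.sum_neg_distrib]
  congr 1
  · simp only [Fin.val_zero, pow_zero, one_smul]
    congr 1
  · refine Finset.sum_congr rfl fun j _ => ?_
    rw [cons_succAbove_succ, Fin.val_succ, pow_succ, mul_neg_one, neg_smul]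

theorem DD_DD : ∀ {n : ℕ} (c : (Fin n → ι) → A) (s : Fin (n + 2) → ι), DD (DD c) s = 0
  | 0, c, s => by
    rw [← Fin.cons_self_tail s, DD_cons]
    have e : ∀ (a : (Fin 0 → ι) → A) (t : Fin (0 + 1) → ι), DD a t = a Fin.elim0 := fun a t => by
      rw [DD, Fin.sum_univ_succ]
      simp only [Fin.val_zero, pow_zero, one_smul, Finset.univ_eq_empty, Finset.sum_empty, add_zero]
      congr 1
      exact Subsingleton.elim _ _
    simp only [e, sub_self]
  | n + 1, c, s => by
    rw [← Fin.cons_self_tail s, DD_cons]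
    simp only [DD_cons]
    rw [DD_sub, DD_DD, sub_zero, sub_self]

end Const

variable {X : TopCat.{u}} {ι : Type v}

/-- The intersection of the members of a tuple. -/
def cap (U : ι → Opens X) {n : ℕ} (s : Fin n → ι) : Opens X := ⨅ j, U (s j)

theorem cap_le (U : ι → Opens X) {n : ℕ} (s : Fin n → ι) (j : Fin n) : cap U s ≤ U (s j) :=
  iInf_le _ j

theorem cap_le_comp (U : ι → Opens X) {n m : ℕ} (s : Fin n → ι) (e : Fin m → Fin n) :
    cap U s ≤ cap U (s ∘ e) := le_iInf fun _ => iInf_le _ _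

theorem cap_cons (U : ι → Opens X) {n : ℕ} (i : ι) (s : Fin n → ι) :
    cap U (Fin.cons i s : Fin (n + 1) → ι) = U i ⊓ cap U s := by
  refine le_antisymm (le_inf (cap_le U _ 0) (le_iInf fun j => cap_le U _ j.succ))
    (le_iInf fun j => ?_)
  refine Fin.cases ?_ (fun k => ?_) j
  · exact inf_le_left
  · exact inf_le_right.trans (cap_le U s k)

theorem cap_one (U : ι → Opens X) (s : Fin 1 → ι) : cap U s = U (s 0) := by
  simp [cap]

theorem cap_mem {B : Set (Opens X)} (hB : ∀ V ∈ B, ∀ W ∈ B, V ⊓ W ∈ B) {U : ι → Opens X}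
    (hU : ∀ i, U i ∈ B) : ∀ {n : ℕ} (s : Fin (n + 1) → ι), cap U s ∈ B
  | 0, s => by rw [cap_one]; exact hU _
  | n + 1, s => by
    rw [← Fin.cons_self_tail s, cap_cons]
    exact hB _ (hU _) _ (cap_mem hB hU _)

/-- Restriction of sections. -/
def res (F : X.Presheaf AddCommGrpCat.{u}) {V W : Opens X} (h : W ≤ V) :
    F.obj (op V) →+ F.obj (op W) := (F.map (homOfLE h).op).hom

theorem res_res (F : X.Presheaf AddCommGrpCat.{u}) {V W Z : Opens X} (h : W ≤ V) (h' : Z ≤ W)
    (x : F.obj (op V)) : res F h' (res F h x) = res F (h'.trans h) x := by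
  simp only [res]
  rw [← AddCommGrpCat.comp_apply, ← F.map_comp]
  rfl

theorem res_self (F : X.Presheaf AddCommGrpCat.{u}) {V : Opens X} (h : V ≤ V)
    (x : F.obj (op V)) : res F h x = x := by
  simp [res]

theorem app_res {F G : X.Presheaf AddCommGrpCat.{u}} (f : F ⟶ G) {V W : Opens X} (h : W ≤ V)
    (x : F.obj (op V)) : f.app (op W) (res F h x) = res G h (f.app (op V) x) :=
  ConcreteCategory.congr_hom (f.naturality (homOfLE h).op) x

/-- Cech cochains on tuples of length `n`. -/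
abbrev Coch (F : X.Presheaf AddCommGrpCat.{u}) (U : ι → Opens X) (n : ℕ) : Type (max u v) :=
  ∀ s : Fin n → ι, F.obj (op (cap U s))

variable {F G : X.Presheaf AddCommGrpCat.{u}} {U : ι → Opens X}

open Classical in
/-- The values of a cochain restricted to one open set. -/
noncomputable def ev (W : Opens X) {n : ℕ} (c : Coch F U n) (t : Fin n → ι) : F.obj (op W) :=
  if h : W ≤ cap U t then res F h (c t) else 0

theorem ev_of_le {W : Opens X} {n : ℕ} (c : Coch F U n) {t : Fin n → ι} (h : W ≤ cap U t) :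
    ev W c t = res F h (c t) := dif_pos h

/-- The Cech coboundary. -/
noncomputable def dC {n : ℕ} (c : Coch F U n) : Coch F U (n + 1) :=
  fun s => DD (ev (cap U s) c) s

theorem ev_dC {W : Opens X} {n : ℕ} (c : Coch F U n) {s : Fin (n + 1) → ι} (h : W ≤ cap U s) :
    ev W (dC c) s = DD (ev W c) s := by
  rw [ev_of_le _ h, dC, map_DD]
  refine DD_congr fun j => ?_
  rw [ev_of_le _ (cap_le_comp U s _), res_res, ev_of_le]

theorem dC_dC {n : ℕ} (c : Coch F U n) : dC (dC c) = 0 := by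
  ext s
  rw [dC, DD_congr (c' := DD (ev (cap U s) c)) fun j => ev_dC c (cap_le_comp U s _), DD_DD]
  rfl

theorem dC_sub {n : ℕ} (c c' : Coch F U n) : dC (c - c') = dC c - dC c' := by
  ext s
  rw [Pi.sub_apply, dC, dC, dC, ← DD_sub]
  refine DD_congr fun j => ?_
  simp only [ev_of_le _ (cap_le_comp U s j.succAbove), Pi.sub_apply, map_sub]

/-- The action of a morphism on cochains. -/
def mapC (f : F ⟶ G) {n : ℕ} (c : Coch F U n) : Coch G U n := fun s => f.app _ (c s)

theorem mapC_dC (f : F ⟶ G) {n : ℕ} (c : Coch F U n) : mapC f (dC c) = dC (mapC f c) := by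
  ext s
  refine (map_DD (f.app _).hom _ s).trans (DD_congr fun j => ?_)
  rw [ev_of_le _ (cap_le_comp U s _), ev_of_le _ (cap_le_comp U s _)]
  exact app_res f _ _

/-- The Cech complex is exact in all positive degrees. -/
def CechEx (F : X.Presheaf AddCommGrpCat.{u}) (U : ι → Opens X) : Prop :=
  ∀ (n : ℕ) (c : Coch F U (n + 2)), dC c = 0 → ∃ b : Coch F U (n + 1), dC b = c

theorem CechEx.of_retract (i : F ⟶ G) (r : G ⟶ F) (h : i ≫ r = 𝟙 F) (hG : CechEx G U) :
    CechEx F U := by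
  intro n c hc
  obtain ⟨b, hb⟩ := hG n (mapC i c) (by
    rw [← mapC_dC, hc]
    ext s
    exact map_zero _)
  refine ⟨mapC r b, ?_⟩
  rw [← mapC_dC, hb]
  ext s
  exact ConcreteCategory.congr_hom (NatTrans.congr_app h (op (cap U s))) (c s)

/-- Exactness can be tested on functions with values in one group that contains all sections. -/
theorem cechEx_of_embed {K : Type*} [AddCommGroup K] (N : Opens X → Prop)
    (φ : ∀ W, N W → (F.obj (op W) →+ K)) (hφ : ∀ W h, Function.Injective (φ W h))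
    (hr : ∀ V W hV hW (h : W ≤ V) x, φ W hW (res F h x) = φ V hV x)
    (hN : ∀ (n : ℕ) (s : Fin (n + 1) → ι), N (cap U s))
    (hK : ∀ (n : ℕ) (c : (Fin (n + 2) → ι) → K), (∀ s, c s ∈ (φ _ (hN _ s)).range) →
      (∀ s, DD c s = 0) → ∃ b : (Fin (n + 1) → ι) → K,
        (∀ t, b t ∈ (φ _ (hN _ t)).range) ∧ ∀ s, DD b s = c s) : CechEx F U := by
  have key : ∀ (n : ℕ) (c : Coch F U (n + 1)) (s : Fin (n + 2) → ι),
      φ _ (hN _ s) (dC c s) = DD (fun t => φ _ (hN _ t) (c t)) s := fun n c s => by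
    rw [dC, map_DD]
    refine DD_congr fun j => ?_
    rw [ev_of_le _ (cap_le_comp U s _), hr]
  intro n c hc
  obtain ⟨b, hb, hb'⟩ := hK n (fun t => φ _ (hN _ t) (c t)) (fun s => ⟨_, rfl⟩) fun s => by
    rw [← key, hc]
    exact map_zero _
  choose a ha using hb
  refine ⟨a, funext fun s => hφ _ (hN _ s) ?_⟩
  rw [key, ← hb']
  exact DD_congr fun j => ha _

end Pool.Agent.Lib.MP_954e53_ag.Cech
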