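import Pool.Agent.Lib.MP_954e53_ag.H42Cartan

/-! Vanishing of sheaf cohomology and of higher direct images from exact Cech complexes. -/

universe u v w

open TopologicalSpace Opposite CategoryTheory CategoryTheory.Abelian Limits

namespace Pool.Agent.Lib.MP_954e53_ag.Cech

variable {X : TopCat.{u}} {ι : Type v} {B : Set (Opens X)}

theorem subsingleton_H' [hE : HasExt.{w} (Sheaf (Opens.grothendieckTopology X) AddCommGrpCat.{u})]
    (hB : ∀ V ∈ B, ∀ W ∈ B, V ⊓ W ∈ B) {U : ι → Opens X} (hU : ∀ i, U i ∈ B) {V : Opens X}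
    (hV : iSup U = V) (F : Sheaf (Opens.grothendieckTopology X) AddCommGrpCat.{u})
    (h : Cartan B F.obj) (hF : CechEx F.obj U) (n : ℕ) : Subsingleton (F.H' (n + 1) V) := by
  have : HasExt.{w} (X.Sheaf AddCommGrpCat.{u}) := hE
  refine subsingleton_of_forall_eq 0 (ext_eq_zero hB hU hV ((presheafToSheaf _ _).obj
    (yoneda.obj V ⋙ AddCommGrpCat.free)) (fun {I Q} g hg φ => ?_) n F h hF)
  let adj := (AddCommGrpCat.adj.whiskerRight (Opens X)ᵒᵖ).comp
    (sheafificationAdjunction (Opens.grothendieckTopology X) AddCommGrpCat.{u})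
  obtain ⟨y, hy⟩ := hg (yonedaEquiv (adj.homEquiv (yoneda.obj V) Q φ))
  refine ⟨(adj.homEquiv (yoneda.obj V) I).symm (yonedaEquiv.symm y), ?_⟩
  apply (adj.homEquiv (yoneda.obj V) Q).injective
  apply yonedaEquiv.injective
  rw [← hy]
  erw [adj.homEquiv_naturality_right, Equiv.apply_symm_apply, yonedaEquiv_comp,
    Equiv.apply_symm_apply]
  rfl

theorem subsingleton_H [hE : HasExt.{w} (Sheaf (Opens.grothendieckTopology X) AddCommGrpCat.{u})]
    (hB : ∀ V ∈ B, ∀ W ∈ B, V ⊓ W ∈ B) {U : ι → Opens X} (hU : ∀ i, U i ∈ B)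
    (hV : iSup U = ⊤) (F : Sheaf (Opens.grothendieckTopology X) AddCommGrpCat.{u})
    (h : Cartan B F.obj) (hF : CechEx F.obj U) (n : ℕ) : Subsingleton (F.H (n + 1)) := by
  have : HasExt.{w} (X.Sheaf AddCommGrpCat.{u}) := hE
  refine subsingleton_of_forall_eq 0 (ext_eq_zero hB hU hV ((constantSheaf _ _).obj
    (AddCommGrpCat.of (ULift ℤ))) (fun {I Q} g hg φ => ?_) n F h hF)
  have hT : IsTerminal (⊤ : Opens X) := isTerminalTop
  obtain ⟨y, hy⟩ := hg (Sheaf.H.equiv₀ Q hT (Ext.mk₀ φ))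
  obtain ⟨ψ, hψ⟩ := (Ext.mk₀_bijective _ _).2 ((Sheaf.H.equiv₀ I hT).symm y)
  refine ⟨ψ, (Ext.mk₀_bijective _ _).1 ?_⟩
  have e := Sheaf.H.equiv₀_symm_naturality hT g y
  rw [hy, AddEquiv.symm_apply_apply, ← hψ, Sheaf.H.map_apply, Ext.mk₀_comp_mk₀] at e
  exact e

theorem sections_exact (hB : ∀ V ∈ B, ∀ W ∈ B, V ⊓ W ∈ B) {U : ι → Opens X} (hU : ∀ i, U i ∈ B)
    {V : Opens X} (hV : iSup U = V) (n : ℕ) : ∀ (F : X.Sheaf AddCommGrpCat.{u})
      (I : ℕ → X.Sheaf AddCommGrpCat.{u}) (e : F ⟶ I 0) (d : ∀ k, I k ⟶ I (k + 1))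
      (h0 : e ≫ d 0 = 0) (hd : ∀ k, d k ≫ d (k + 1) = 0), (∀ k, Injective (I k)) → Mono e →
      (ShortComplex.mk _ _ h0).Exact → (∀ k, (ShortComplex.mk _ _ (hd k)).Exact) →
      Cartan B F.obj → CechEx F.obj U → ∀ x, (d (n + 1)).hom.app (op V) x = 0 →
        ∃ y, (d n).hom.app (op V) y = x := by
  have sh : ∀ (F : X.Sheaf AddCommGrpCat.{u})
      (I : ℕ → X.Sheaf AddCommGrpCat.{u}) (e : F ⟶ I 0) (d : ∀ k, I k ⟶ I (k + 1))
      (h0 : e ≫ d 0 = 0) (hd : ∀ k, d k ≫ d (k + 1) = 0), Mono e →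
      (ShortComplex.mk _ _ h0).Exact → (∀ k, (ShortComplex.mk _ _ (hd k)).Exact) →
      ∃ h, (ShortComplex.mk e (kernel.lift (d 1) (d 0) (hd 0)) h).ShortExact := by
    intro F I e d h0 hd hm he hk
    have h : e ≫ kernel.lift (d 1) (d 0) (hd 0) = 0 := by
      rw [← cancel_mono (kernel.ι (d 1)), Category.assoc, kernel.lift_ι, h0, zero_comp]
    let φ : ShortComplex.mk e (kernel.lift (d 1) (d 0) (hd 0)) h ⟶ ShortComplex.mk _ _ h0 :=
      { τ₁ := 𝟙 _, τ₂ := 𝟙 _, τ₃ := kernel.ι (d 1) }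
    have : Epi φ.τ₁ := inferInstanceAs (Epi (𝟙 F))
    have : IsIso φ.τ₂ := inferInstanceAs (IsIso (𝟙 (I 0)))
    have : Mono φ.τ₃ := inferInstanceAs (Mono (kernel.ι (d 1)))
    exact ⟨h,
      { exact := (ShortComplex.exact_iff_of_epi_of_isIso_of_mono φ).2 he
        mono_f := hm
        epi_g := (ShortComplex.exact_iff_epi_kernel_lift _).1 (hk 0) }⟩
  induction n with
  | zero =>
    intro F I e d h0 hd hI hm he hk h hF x hx
    obtain ⟨h1, h2⟩ := sh F I e d h0 hd hm he hk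
    obtain ⟨z, rfl⟩ := TopCat.Sheaf.sections_exact_of_left_exact
      (ShortComplex.exact_kernel (d 1)) (inferInstanceAs (Mono (kernel.ι (d 1)))) x hx
    obtain ⟨y, rfl⟩ := Cartan.surj_iSup h2 h hU hF hV z
    exact ⟨y, (ConcreteCategory.congr_hom (NatTrans.congr_app (congrArg (fun f => f.hom)
      (kernel.lift_ι (d 1) (d 0) (hd 0))) (op V)) y).symm⟩
  | succ n ih =>
    intro F I e d h0 hd hI hm he hk h hF
    obtain ⟨h1, h2⟩ := sh F I e d h0 hd hm he hk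
    have : Injective (ShortComplex.mk e (kernel.lift (d 1) (d 0) (hd 0)) h1).X₂ := hI 0
    exact ih (kernel (d 1)) (fun k => I (k + 1)) (kernel.ι (d 1)) (fun k => d (k + 1))
      (kernel.condition _) (fun k => hd (k + 1)) (fun k => hI _) inferInstance
      (ShortComplex.exact_kernel _) (fun k => hk (k + 1)) (Cartan.quot h2 hB h)
      (Cartan.cechEx_quot h2 hB h hU hF)

theorem exact_of_locally {Y : TopCat.{u}} (S : ShortComplex (Y.Sheaf AddCommGrpCat.{u}))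
    (h : ∀ (V : Opens Y), ∀ y ∈ V, ∃ W ≤ V, y ∈ W ∧ ∀ x, S.g.hom.app (op W) x = 0 →
      ∃ z, S.f.hom.app (op W) z = x) : S.Exact := by
  rw [ShortComplex.exact_iff_epi_kernel_lift, ← TopCat.Sheaf.isLocallySurjective_iff_epi,
    TopCat.Presheaf.isLocallySurjective_iff]
  intro V t y hy
  obtain ⟨W, h1, h2, h3⟩ := h V y hy
  obtain ⟨z, hz⟩ := h3 ((kernel.ι S.g).hom.app _ (res _ h1 t))
    (g_f (S := ShortComplex.mk _ _ (kernel.condition S.g)) W _)
  refine ⟨W, h1, ⟨z, ?_⟩, h2⟩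
  have : Mono (kernel.ι S.g).hom := (TopCat.Sheaf.forget _ Y).map_mono _
  apply (AddCommGrpCat.mono_iff_injective ((kernel.ι S.g).hom.app (op W))).1 inferInstance
  exact (ConcreteCategory.congr_hom (NatTrans.congr_app (congrArg (fun f => f.hom)
    (kernel.lift_ι S.g S.f S.zero)) (op W)) z).trans hz

theorem isZero_rightDerived {Y : TopCat.{u}} (f : X ⟶ Y)
    [(TopCat.Sheaf.pushforward AddCommGrpCat.{u} f).Additive]
    (hB : ∀ V ∈ B, ∀ W ∈ B, V ⊓ W ∈ B) (F : X.Sheaf AddCommGrpCat.{u}) (h : Cartan B F.obj)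
    (hf : ∀ (V : Opens Y), ∀ y ∈ V, ∃ W ≤ V, y ∈ W ∧ ∃ (κ : Type v) (U : κ → Opens X),
      (∀ i, U i ∈ B) ∧ iSup U = (Opens.map f).obj W ∧ CechEx F.obj U) (n : ℕ) :
    IsZero (((TopCat.Sheaf.pushforward AddCommGrpCat.{u} f).rightDerived (n + 1)).obj F) := by
  obtain ⟨I⟩ := (inferInstance : HasInjectiveResolution F).out
  have hm : Mono (I.ι.f 0) := inferInstance
  refine IsZero.of_iso ?_ (I.isoRightDerivedObj _ (n + 1))
  erw [← HomologicalComplex.exactAt_iff_isZero_homology]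
  rw [HomologicalComplex.exactAt_iff' _ n (n + 1) (n + 2) (by simp) (by simp)]
  refine exact_of_locally _ fun V y hy => ?_
  obtain ⟨W, h1, h2, κ, U, h3, h4, h5⟩ := hf V y hy
  exact ⟨W, h1, h2, sections_exact hB h3 h4 n F I.cocomplex.X (I.ι.f 0)
    (fun k => I.cocomplex.d k (k + 1)) I.ι_f_zero_comp_complex_d
    (fun k => I.cocomplex.d_comp_d _ _ _) I.injective hm I.exact₀ I.exact_succ h h5⟩

theorem additive_pushforward {Y : TopCat.{u}} (f : X ⟶ Y) :
    (TopCat.Sheaf.pushforward AddCommGrpCat.{u} f).Additive where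
  map_add := rfl

end Pool.Agent.Lib.MP_954e53_ag.Cech
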