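import Pool.Agent.Lib.MP_954e53_ag.H42Serre

/-! The theorem of Leray on acyclic covers, in both directions. -/

universe u v w

open TopologicalSpace Opposite CategoryTheory CategoryTheory.Abelian Limits AlgebraicGeometry

namespace Pool.Agent.Lib.MP_954e53_ag.Cech

section Top

variable {X : TopCat.{u}} {ι : Type v}

/-- The sheaf has no higher cohomology on the open set: sections lift along every iterated
injective presentation. -/
def Acyc (F : X.Sheaf AddCommGrpCat.{u}) (V : Opens X) : Prop :=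
  ∃ P : X.Sheaf AddCommGrpCat.{u} → Prop, P F ∧
    ∀ S : ShortComplex (X.Sheaf AddCommGrpCat.{u}), S.ShortExact → Injective S.X₂ → P S.X₁ →
      P S.X₃ ∧ Function.Surjective (S.g.hom.app (op V))

variable {S : ShortComplex (X.Sheaf AddCommGrpCat.{u})} {V : Opens X} {U : ι → Opens X}
  {F : X.Sheaf AddCommGrpCat.{u}}

theorem Acyc.surj (hS : S.ShortExact) [hI : Injective S.X₂] (h : Acyc S.X₁ V) :
    Function.Surjective (S.g.hom.app (op V)) :=
  let ⟨_, h1, h2⟩ := h; (h2 S hS hI h1).2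

theorem Acyc.quot (hS : S.ShortExact) [hI : Injective S.X₂] (h : Acyc S.X₁ V) : Acyc S.X₃ V :=
  let ⟨P, h1, h2⟩ := h; ⟨P, (h2 S hS hI h1).1, h2⟩

theorem acyc_bot : Acyc F ⊥ :=
  ⟨fun _ => True, trivial, fun S _ _ _ => ⟨trivial, fun _ => ⟨0,
    S.X₃.eq_of_locally_eq' (fun i : PEmpty.{u + 1} => i.elim) ⊥ (fun i => i.elim) bot_le _ _
      fun i => i.elim⟩⟩⟩

theorem Cartan.acyc {B : Set (Opens X)} (hB : ∀ V ∈ B, ∀ W ∈ B, V ⊓ W ∈ B) (h : Cartan B F.obj)
    (hV : V ∈ B) : Acyc F V :=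
  ⟨fun G => Cartan B G.obj, h, fun _ hS _ hG => ⟨hG.quot hS hB, hG.surj hS hV⟩⟩

theorem acyc_of_cechEx (hU : ∀ (n : ℕ) (s : Fin (n + 1) → ι), Acyc F (cap U s))
    (hV : iSup U = V) (h : CechEx F.obj U) : Acyc F V :=
  ⟨fun G => (∀ (n : ℕ) (s : Fin (n + 1) → ι), Acyc G (cap U s)) ∧ CechEx G.obj U, ⟨hU, h⟩,
    fun S hS _ hG => ⟨⟨fun n s => (hG.1 n s).quot hS, CechEx.quot hS hG.2
      (cechEx_of_injective _ U) fun n s => (hG.1 n s).surj hS⟩, fun x =>
      lift_section hS hG.2 hV x fun i => by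
        have := (hG.1 0 fun _ => i).surj hS
        rw [cap_one] at this
        exact this _⟩⟩

theorem shortExact_under (F : X.Sheaf AddCommGrpCat.{u}) :
    (ShortComplex.mk _ _ (cokernel.condition (Injective.ι F))).ShortExact :=
  { exact := ShortComplex.exact_cokernel _ }

theorem descend (hS : S.ShortExact) {n : ℕ} (c : Coch S.X₁.obj U (n + 1))
    (a : Coch S.X₂.obj U n) (ha : dC a = mapC S.f.hom c) (h0 : mapC S.g.hom a = 0) :
    ∃ b : Coch S.X₁.obj U n, dC b = c := by
  choose e he using fun s => TopCat.Sheaf.sections_exact_of_left_exact hS.exact hS.mono_f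
    (a s) (congrFun h0 s)
  have he' : mapC S.f.hom e = a := funext he
  refine ⟨e, funext fun s => f_inj hS _ ?_⟩
  have := congrFun (mapC_dC S.f.hom e) s
  rw [he', ha] at this
  exact this

theorem mapC_sub {F G : X.Presheaf AddCommGrpCat.{u}} (f : F ⟶ G) {n : ℕ} (c c' : Coch F U n) :
    mapC f (c - c') = mapC f c - mapC f c' := funext fun _ => map_sub _ _ _

theorem dC_res (F : X.Presheaf AddCommGrpCat.{u}) (le : ∀ {m : ℕ} (s : Fin (m + 1) → ι), cap U s ≤ V)
    (x : F.obj (op V)) : dC (fun s : Fin 1 → ι => res F (le s) x) = 0 := by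
  ext s
  rw [dC, DD_congr (c' := DD fun _ => res F (le s) x) fun j => ?_, DD_DD]
  · rfl
  · rw [ev_of_le _ (cap_le_comp U s _), res_res, DD, Fin.sum_univ_succ]
    simp

theorem Acyc.cechEx (hU : ∀ (n : ℕ) (s : Fin (n + 1) → ι), Acyc F (cap U s))
    (hV : iSup U = V) (h : Acyc F V) : CechEx F.obj U := by
  intro n
  have le : ∀ {m : ℕ} (s : Fin (m + 1) → ι), cap U s ≤ V := fun s =>
    (cap_le U s 0).trans ((le_iSup U _).trans hV.le)
  have st : ∀ (S : ShortComplex (X.Sheaf AddCommGrpCat.{u})) [Injective S.X₂] (m : ℕ)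
      (c : Coch S.X₁.obj U (m + 2)), dC c = 0 → ∃ a : Coch S.X₂.obj U (m + 1),
        dC a = mapC S.f.hom c ∧ dC (mapC S.g.hom a) = 0 := fun S _ m c hc => by
    obtain ⟨a, ha⟩ := cechEx_of_injective S.X₂ U m (mapC S.f.hom c) (by
      rw [← mapC_dC, hc]
      exact funext fun s => map_zero _)
    exact ⟨a, ha, by rw [← mapC_dC, ha]; exact funext fun s => g_f _ _⟩
  induction n generalizing F with
  | zero =>
    intro c hc
    have hS := shortExact_under F
    have : Injective (ShortComplex.mk _ _ (cokernel.condition (Injective.ι F))).X₂ :=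
      inferInstanceAs (Injective (Injective.under F))
    obtain ⟨a, h1, h2⟩ := st (ShortComplex.mk _ _ (cokernel.condition (Injective.ι F))) 0 c hc
    obtain ⟨t, ht⟩ := glue _ hV _ h2
    obtain ⟨y, rfl⟩ := Acyc.surj hS h t
    refine descend hS c (a - fun s => res _ (le s) y) (by rw [dC_sub, dC_res _ le, sub_zero, h1])
      ?_
    rw [mapC_sub, sub_eq_zero]
    exact funext fun s => (ht s).symm.trans (app_res _ _ _).symm
  | succ n ih =>
    intro c hc
    have hS := shortExact_under F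
    have : Injective (ShortComplex.mk _ _ (cokernel.condition (Injective.ι F))).X₂ :=
      inferInstanceAs (Injective (Injective.under F))
    obtain ⟨a, h1, h2⟩ := st (ShortComplex.mk _ _ (cokernel.condition (Injective.ι F))) _ c hc
    obtain ⟨b, hb⟩ := ih (fun m s => Acyc.quot hS (hU m s)) (Acyc.quot hS h) _ h2
    choose y hy using fun s => Acyc.surj hS (hU _ s) (b s)
    have hy' : mapC _ y = b := funext hy
    refine descend hS c (a - dC y) (by rw [dC_sub, dC_dC, sub_zero, h1]) ?_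
    rw [mapC_sub, mapC_dC, hy', hb, sub_self]

theorem Acyc.ext_eq_zero [HasExt.{w} (X.Sheaf AddCommGrpCat.{u})] (Z : X.Sheaf AddCommGrpCat.{u})
    (hZ : ∀ {I Q : X.Sheaf AddCommGrpCat.{u}} (g : I ⟶ Q),
      Function.Surjective (g.hom.app (op V)) → ∀ φ : Z ⟶ Q, ∃ ψ, ψ ≫ g = φ) (n : ℕ)
    (h : Acyc F V) (x : Ext Z F (n + 1)) : x = 0 := by
  induction n generalizing F with
  | zero =>
    have hS := shortExact_under F
    have : Injective (ShortComplex.mk _ _ (cokernel.condition (Injective.ι F))).X₂ :=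
      inferInstanceAs (Injective (Injective.under F))
    obtain ⟨y, rfl⟩ := Ext.covariant_sequence_exact₁ Z hS x (Ext.eq_zero_of_injective _) rfl
    obtain ⟨φ, rfl⟩ := (Ext.mk₀_bijective _ _).2 y
    obtain ⟨ψ, rfl⟩ := hZ _ (Acyc.surj hS h) φ
    rw [← Ext.mk₀_comp_mk₀, Ext.comp_assoc_of_second_deg_zero]
    exact (congrArg (fun z => (Ext.mk₀ ψ).comp z (zero_add 1)) hS.comp_extClass).trans
      (Ext.comp_zero _ _ _ _ _)
  | succ n ih =>
    have hS := shortExact_under F
    have : Injective (ShortComplex.mk _ _ (cokernel.condition (Injective.ι F))).X₂ :=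
      inferInstanceAs (Injective (Injective.under F))
    obtain ⟨y, rfl⟩ := Ext.covariant_sequence_exact₁ Z hS x (Ext.eq_zero_of_injective _) rfl
    rw [ih (Acyc.quot hS h) y, Ext.zero_comp]

end Top

end Pool.Agent.Lib.MP_954e53_ag.Cech
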