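import Pool.Agent.Lib.MP_954e53_ag.H42Coh

/-! Cohomology of the structure sheaf of an integral scheme through rational functions. -/

universe u v w

open TopologicalSpace Opposite CategoryTheory Limits AlgebraicGeometry

namespace Pool.Agent.Lib.MP_954e53_ag.Cech

/-- The structure sheaf as a sheaf of abelian groups. -/
noncomputable def abO (Y : Scheme.{u}) : TopCat.Sheaf AddCommGrpCat.{u} Y :=
  (sheafCompose (Opens.grothendieckTopology Y)
    (forget₂ CommRingCat.{u} RingCat.{u} ⋙ forget₂ RingCat.{u} AddCommGrpCat.{u})).obj Y.sheaf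

variable {Y : Scheme.{u}} {ι : Type v}

section Irred

variable [IrreducibleSpace Y]

/-- A section as a rational function. -/
noncomputable def val {W : Y.Opens} (h : genericPoint Y ∈ W) : Γ(Y, W) →+* Y.functionField :=
  (Y.presheaf.germ W (genericPoint Y) h).hom

theorem val_res {V W : Y.Opens} (hW : genericPoint Y ∈ W) (h : W ≤ V) (a : Γ(Y, V)) :
    val hW (Y.presheaf.map (homOfLE h).op a) = val (h hW) a :=
  Y.presheaf.germ_res_apply (homOfLE h) _ hW a

theorem gen_mem {W : Y.Opens} {x : Y} (h : x ∈ W) : genericPoint Y ∈ W :=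
  ((genericPoint_spec Y).mem_open_set_iff W.isOpen).2 ⟨x, trivial, h⟩

/-- The rational functions that are regular on a nonempty open set. -/
def reg (Y : Scheme.{u}) [IrreducibleSpace Y] (W : Y.Opens) : Set Y.functionField :=
  {x | ∃ (h : genericPoint Y ∈ W) (a : Γ(Y, W)), val h a = x}

theorem mem_reg {W : Y.Opens} (h : genericPoint Y ∈ W) {x : Y.functionField} :
    x ∈ reg Y W ↔ x ∈ (val h).range := ⟨fun ⟨_, a, e⟩ => ⟨a, e⟩, fun ⟨a, e⟩ => ⟨h, a, e⟩⟩

theorem reg_mono {V W : Y.Opens} (hW : genericPoint Y ∈ W) (h : W ≤ V) : reg Y V ⊆ reg Y W :=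
  fun _ ⟨_, a, e⟩ => ⟨hW, _, (val_res hW h a).trans e⟩

theorem val_mem {V W : Y.Opens} (hW : genericPoint Y ∈ W) (h : W ≤ V) (a : Γ(Y, V)) :
    val (h hW) a ∈ (val hW).range := ⟨_, val_res hW h a⟩

theorem exists_pow_mul {V W : Y.Opens} (hW : IsAffineOpen W) (h : W ≤ V) (g : Γ(Y, V))
    (h0 : genericPoint Y ∈ W) {x : Y.functionField} (hx : x ∈ reg Y (W ⊓ Y.basicOpen g)) :
    ∃ N : ℕ, val (h h0) g ^ N * x ∈ reg Y W := by
  obtain ⟨h1, a, rfl⟩ := hx
  have e : W ⊓ Y.basicOpen g = Y.basicOpen (Y.presheaf.map (homOfLE h).op g) :=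
    (Y.basicOpen_res g (homOfLE h).op).symm
  let := (Y.presheaf.map (homOfLE (inf_le_left : W ⊓ Y.basicOpen g ≤ W)).op).hom.toAlgebra
  have := hW.isLocalization_of_eq_basicOpen _ (homOfLE inf_le_left) e
  obtain ⟨N, b, hb⟩ := IsLocalization.Away.surj (Y.presheaf.map (homOfLE h).op g) a
  refine ⟨N, h0, b, ?_⟩
  have := congrArg (val h1) hb
  simp only [map_mul, map_pow, RingHom.algebraMap_toAlgebra] at this
  rw [val_res h1 inf_le_left, val_res h1 inf_le_left, val_res h0 h] at this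
  rw [← this, mul_comm]

/-- Exactness of the Cech complex of regular functions, inside the function field. -/
def KEx (Y : Scheme.{u}) [IrreducibleSpace Y] (U : ι → Y.Opens) : Prop :=
  ∀ (n : ℕ) (c : (Fin (n + 2) → ι) → Y.functionField), (∀ s, c s ∈ reg Y (cap U s)) →
    (∀ s, DD c s = 0) → ∃ b : (Fin (n + 1) → ι) → Y.functionField,
      (∀ t, b t ∈ reg Y (cap U t)) ∧ ∀ s, DD b s = c s

theorem gen_mem_cap {U : ι → Y.Opens} (hU : ∀ i, genericPoint Y ∈ U i) {n : ℕ} (s : Fin n → ι) :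
    genericPoint Y ∈ cap U s := mem_cap.2 fun _ => hU _

theorem KEx.cechEx' (hI : ∀ (W : Y.Opens) (h : genericPoint Y ∈ W), Function.Injective (val h))
    {U : ι → Y.Opens} (hU : ∀ i, genericPoint Y ∈ U i) (h : KEx Y U) :
    CechEx (abO Y).obj U :=
  cechEx_of_embed (K := Y.functionField) (fun W => genericPoint Y ∈ W)
    (fun _ hW => (val hW).toAddMonoidHom) hI
    (fun _ _ _ hW e x => val_res hW e x) (fun _ s => gen_mem_cap hU s) fun n c h1 h2 => by
      obtain ⟨b, h3, h4⟩ := h n c (fun s => (mem_reg (gen_mem_cap hU s)).2 (h1 s)) h2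
      exact ⟨b, fun t => (mem_reg (gen_mem_cap hU t)).1 (h3 t), h4⟩

theorem DD_mul {K : Type*} [CommRing K] {n : ℕ} (a : K) (c : (Fin n → ι) → K)
    (s : Fin (n + 1) → ι) : DD (fun t => a * c t) s = a * DD c s :=
  (map_DD (AddMonoidHom.mulLeft a) c s).symm

theorem exists_uniform {κ : Type*} [Finite κ] {P : κ → ℕ → Prop}
    (h : ∀ k N, P k N → P k (N + 1)) (h' : ∀ k, ∃ N, P k N) : ∃ N, ∀ k, P k N := by
  choose M hM using h'
  obtain ⟨N, hN⟩ := (Set.finite_range M).bddAbove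
  exact ⟨N, fun k => Nat.le_induction (hM k) (fun m _ => h k m) N (hN ⟨k, rfl⟩)⟩

/-- The nonempty affine open sets. -/
def affs (Y : Scheme.{u}) [IrreducibleSpace Y] : Set Y.Opens :=
  {W | IsAffineOpen W ∧ genericPoint Y ∈ W}

theorem pow_succ_mem {V W : Y.Opens} (h : W ≤ V) (g : Γ(Y, V)) (h0 : genericPoint Y ∈ W)
    {x : Y.functionField} {N : ℕ} (hx : val (h h0) g ^ N * x ∈ reg Y W) :
    val (h h0) g ^ (N + 1) * x ∈ reg Y W := by
  rw [pow_succ', mul_assoc]
  exact (mem_reg h0).2 (mul_mem (val_mem h0 h g) ((mem_reg h0).1 hx))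

variable [IsAffineHom (pullback.diagonal (terminal.from Y))]

theorem affs_inf : ∀ V ∈ affs Y, ∀ W ∈ affs Y, V ⊓ W ∈ affs Y :=
  fun _ h _ h' => ⟨h.1.inf h'.1, h.2, h'.2⟩

theorem kEx_basicOpen [Finite ι] {V : Y.Opens} (hV : IsAffineOpen V) (f : ι → Γ(Y, V))
    (h0 : ∀ i, genericPoint Y ∈ Y.basicOpen (f i)) (hf : Ideal.span (Set.range f) = ⊤) :
    KEx Y fun i => Y.basicOpen (f i) := by
  intro n c hc hd
  have := Fintype.ofFinite ι
  have hU : ∀ i, Y.basicOpen (f i) ∈ affs Y := fun i => ⟨hV.basicOpen _, h0 i⟩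
  have hle : ∀ t : Fin (n + 1) → ι, cap (fun i => Y.basicOpen (f i)) t ≤ V := fun t =>
    (cap_le _ t 0).trans (Y.basicOpen_le _)
  obtain ⟨N, hN⟩ := exists_uniform (κ := ι × (Fin (n + 1) → ι)) (P := fun p N =>
    val (hle p.2 (gen_mem_cap h0 _)) (f p.1) ^ N * c (Fin.cons p.1 p.2) ∈
      reg Y (cap (fun i => Y.basicOpen (f i)) p.2))
    (fun p N => pow_succ_mem (hle p.2) _ (gen_mem_cap h0 _)) fun p =>
      exists_pow_mul (cap_mem affs_inf hU p.2).1 (hle p.2) _ (gen_mem_cap h0 _)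
        (by rw [inf_comm, ← cap_cons (fun i => Y.basicOpen (f i))]; exact hc _)
  have h1 := Ideal.span_pow_eq_top _ hf N
  rw [← Set.range_comp, Ideal.eq_top_iff_one, Ideal.mem_span_range_iff_exists_fun] at h1
  obtain ⟨g, hg⟩ := h1
  cases isEmpty_or_nonempty ι with
  | inl _ => exact ⟨fun t => isEmptyElim (t 0), fun t => isEmptyElim (t 0),
      fun s => isEmptyElim (s 0)⟩
  | inr hι =>
    have hg0 : genericPoint Y ∈ V := Y.basicOpen_le _ (h0 hι.some)
    refine ⟨fun t => ∑ i, val hg0 (g i) * val hg0 (f i) ^ N * c (Fin.cons i t), fun t => ?_,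
      fun s => ?_⟩
    · refine (mem_reg (gen_mem_cap h0 t)).2 (sum_mem fun i _ => ?_)
      rw [mul_assoc]
      exact mul_mem (val_mem _ (hle t) _) ((mem_reg _).1 (hN (i, t)))
    · have e : ∀ i, DD (fun t => c (Fin.cons i t)) s = c s := fun i => by
        have := hd (Fin.cons i s)
        rw [DD_cons] at this
        exact (sub_eq_zero.1 this).symm
      have e' := congrArg (val hg0) hg
      simp only [map_sum, map_mul, Function.comp, map_pow, map_one] at e'
      rw [DD_sum]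
      simp only [DD_mul, e]
      rw [← Finset.sum_mul, e', one_mul]

omit [IsAffineHom (pullback.diagonal (terminal.from Y))] in
theorem exists_basicOpen_cover {V : Y.Opens} (hV : IsAffineOpen V) (W : V → Y.Opens)
    (hW : ∀ x, x.1 ∈ W x) : ∃ (T : Finset V) (f : T → Γ(Y, V)),
      (∀ i, genericPoint Y ∈ Y.basicOpen (f i)) ∧ ⨆ i, Y.basicOpen (f i) = V ∧
      (∀ i, ∃ x, Y.basicOpen (f i) ≤ W x) ∧ Ideal.span (Set.range f) = ⊤ := by
  choose f hf hx using fun x : V => hV.exists_basicOpen_le (V := W x) ⟨x.1, hW x⟩ x.2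
  obtain ⟨T, hT⟩ := hV.isCompact.elim_finite_subcover (fun x => (Y.basicOpen (f x) : Set Y))
    (fun x => (Y.basicOpen (f x)).isOpen) fun x h => Set.mem_iUnion.2 ⟨⟨x, h⟩, hx _⟩
  have h1 : V ≤ ⨆ i : T, Y.basicOpen (f i) := fun x h => by
    obtain ⟨i, hi, h'⟩ := Set.mem_iUnion₂.1 (hT h)
    exact Opens.mem_iSup.2 ⟨⟨i, hi⟩, h'⟩
  refine ⟨T, fun i => f i.1, fun i => gen_mem (hx i.1),
    le_antisymm (iSup_le fun i => Y.basicOpen_le _) h1, fun i => ⟨i.1, hf i.1⟩, ?_⟩
  rw [← hV.self_le_iSup_basicOpen_iff]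
  exact h1.trans (iSup_le fun i => le_iSup_of_le ⟨f i.1, i, rfl⟩ le_rfl)

/-- The vanishing theorem of Serre, in the form needed for the lemma of Cartan. -/
theorem cartan_affine (hI : ∀ (W : Y.Opens) (h : genericPoint Y ∈ W), Function.Injective (val h))
    {B : Set Y.Opens} (h1 : affs Y ⊆ B) (h2 : ∀ V ∈ B, IsAffineOpen V) :
    Cartan B (abO Y).obj := by
  intro V hV W hW
  obtain ⟨T, f, h3, h4, h5, h6⟩ := exists_basicOpen_cover (h2 V hV) W hW
  exact ⟨T, fun i => Y.basicOpen (f i), fun i => h1 ⟨(h2 V hV).basicOpen _, h3 i⟩, h4, h5,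
    KEx.cechEx' hI h3 (kEx_basicOpen (h2 V hV) f h3 h6)⟩

end Irred

variable [IsIntegral Y]

theorem KEx.cechEx {U : ι → Y.Opens} (hU : ∀ i, genericPoint Y ∈ U i) (h : KEx Y U) :
    CechEx (abO Y).obj U :=
  h.cechEx' (fun _ hW => germ_injective_of_isIntegral Y _ hW) hU

theorem inv_mem {V W : Y.Opens} (g : Γ(Y, V)) (hW : genericPoint Y ∈ W) (h : W ≤ Y.basicOpen g) :
    val (Y.basicOpen_le g (h hW)) g ≠ 0 ∧
      (val (Y.basicOpen_le g (h hW)) g)⁻¹ ∈ (val hW).range := by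
  obtain ⟨a, ha⟩ := (RingedSpace.isUnit_res_basicOpen Y.toRingedSpace g).exists_right_inv
  have e : val (Y.basicOpen_le g (h hW)) g * val (h hW) a = 1 := by
    rw [← val_res (h hW) (Y.basicOpen_le g), ← map_mul]
    exact (congrArg (val (h hW)) ha).trans (map_one _)
  exact ⟨left_ne_zero_of_mul_eq_one e, by
    rw [← eq_inv_of_mul_eq_one_right e]; exact val_mem hW h a⟩

variable [IsAffineHom (pullback.diagonal (terminal.from Y))]

theorem cartan_abO : Cartan (affs Y) (abO Y).obj :=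
  cartan_affine (fun _ hW => germ_injective_of_isIntegral Y _ hW) subset_rfl fun _ h => h.1

theorem KEx.inf_basicOpen [Finite ι] {U : ι → Y.Opens} (hU : ∀ i, U i ∈ affs Y) (h : KEx Y U)
    {V : Y.Opens} (hV : ∀ i, U i ≤ V) (g : Γ(Y, V)) (h0 : genericPoint Y ∈ Y.basicOpen g) :
    KEx Y fun i => U i ⊓ Y.basicOpen g := by
  have e : ∀ (m : ℕ) (s : Fin (m + 1) → ι),
      cap (fun i => U i ⊓ Y.basicOpen g) s = cap U s ⊓ Y.basicOpen g := fun m s => by
    simp only [cap, iInf_inf_eq, iInf_const]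
  have hle : ∀ {m : ℕ} (s : Fin (m + 1) → ι), cap U s ≤ V := fun s => (cap_le U s 0).trans (hV _)
  have h1 : ∀ {m : ℕ} (s : Fin m → ι), genericPoint Y ∈ cap U s :=
    gen_mem_cap fun i => (hU i).2
  intro n c hc hd
  simp only [e] at hc ⊢
  obtain ⟨N, hN⟩ := exists_uniform (P := fun (s : Fin (n + 2) → ι) N =>
    val (hle s (h1 s)) g ^ N * c s ∈ reg Y (cap U s)) (fun s N => pow_succ_mem (hle s) _ (h1 s))
    fun s => exists_pow_mul (cap_mem affs_inf hU s).1 (hle s) g (h1 s) (hc s)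
  obtain ⟨b, h2, h3⟩ := h n (fun s => val (Y.basicOpen_le g h0) g ^ N * c s) hN fun s => by
    rw [DD_mul, hd, mul_zero]
  refine ⟨fun t => (val (Y.basicOpen_le g h0) g)⁻¹ ^ N * b t, fun t => ?_, fun s => ?_⟩
  · have h4 : genericPoint Y ∈ cap U t ⊓ Y.basicOpen g := ⟨h1 t, h0⟩
    exact (mem_reg h4).2 (mul_mem (pow_mem (inv_mem g h4 inf_le_right).2 _)
      ((mem_reg h4).1 (reg_mono h4 inf_le_left (h2 t))))
  · rw [DD_mul, h3, ← mul_assoc, ← mul_pow, inv_mul_cancel₀ (inv_mem g h0 le_rfl).1, one_pow,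
      one_mul]

/-- Vanishing of the cohomology of the structure sheaf. -/
theorem KEx.subsingleton_H
    [HasExt.{w} (Sheaf (Opens.grothendieckTopology Y) AddCommGrpCat.{u})] {U : ι → Y.Opens}
    (hU : ∀ i, U i ∈ affs Y) (hc : iSup U = ⊤) (h : KEx Y U) (n : ℕ) :
    Subsingleton (Sheaf.H (abO Y) (n + 1)) :=
  Cech.subsingleton_H affs_inf hU hc _ cartan_abO (h.cechEx fun i => (hU i).2) n

/-- Vanishing of the higher direct images of the structure sheaf. -/
theorem KEx.isZero_rightDerived [Finite ι] {X : Scheme.{u}} [IsAffine X] (f : Y ⟶ X)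
    [(TopCat.Sheaf.pushforward AddCommGrpCat.{u} f.base).Additive] {U : ι → Y.Opens}
    (hU : ∀ i, U i ∈ affs Y) (hc : iSup U = ⊤) (h : KEx Y U) (n : ℕ) :
    IsZero (((TopCat.Sheaf.pushforward AddCommGrpCat.{u} f.base).rightDerived (n + 1)).obj
      (abO Y)) := by
  refine Cech.isZero_rightDerived.{u, v} f.base affs_inf _ cartan_abO (fun V y hy => ?_) n
  obtain ⟨s, h1, h2⟩ := (isAffineOpen_top X).exists_basicOpen_le (V := V) ⟨y, hy⟩ trivial
  refine ⟨_, h1, h2, ?_⟩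
  have e : (Opens.map f.base).obj (X.basicOpen s) = Y.basicOpen (f.appTop s) :=
    Scheme.preimage_basicOpen_top f s
  rw [e]
  by_cases h0 : genericPoint Y ∈ Y.basicOpen (f.appTop s)
  · have h3 : ∀ i, U i ⊓ Y.basicOpen (f.appTop s) ∈ affs Y := fun i =>
      ⟨by
        rw [← Y.basicOpen_res (f.appTop s) (homOfLE (le_top : U i ≤ ⊤)).op]
        exact (hU i).1.basicOpen _, (hU i).2, h0⟩
    refine ⟨ι, _, h3, by rw [← iSup_inf_eq, hc, top_inf_eq],
      (h.inf_basicOpen hU (fun _ => le_top) _ h0).cechEx fun i => (h3 i).2⟩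
  · refine ⟨PEmpty, PEmpty.elim, fun i => i.elim, ?_, fun _ _ _ =>
      ⟨fun t => (t 0).elim, funext fun t => (t 0).elim⟩⟩
    rw [iSup_of_empty, eq_comm, eq_bot_iff]
    exact fun x hx => (h0 (gen_mem hx)).elim

end Pool.Agent.Lib.MP_954e53_ag.Cech
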