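import Mathlib

/-! Hilbert functions of quotients of a graded algebra by homogeneous ideals. -/

namespace Pool.Agent.Lib.MP_954e53_ag

open Module PowerSeries

variable {k S : Type*} [Field k] [CommRing S] [Algebra k S]

lemma rk_add {V W : Type*} [AddCommGroup V] [Module k V] [AddCommGroup W] [Module k W]
    (T : Submodule k V) [FiniteDimensional k T] (φ : V →ₗ[k] W) :
    finrank k (T.map φ) + finrank k ↥(T ⊓ LinearMap.ker φ) = finrank k T := by
  have h1 := LinearMap.finrank_range_add_finrank_ker (φ ∘ₗ T.subtype)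
  rw [LinearMap.range_comp, Submodule.range_subtype, LinearMap.ker_comp] at h1
  have h2 : (LinearMap.ker φ).comap T.subtype = (T ⊓ LinearMap.ker φ).comap T.subtype := by
    ext x; simp
  rw [h2, (Submodule.comapSubtypeEquivOfLe inf_le_left).finrank_eq] at h1
  exact h1

/-- The colon ideal `(J : f)`. -/
def col (J : Ideal S) (f : S) : Ideal S := Submodule.comap (LinearMap.mul S S f) J

lemma mem_col {J : Ideal S} {f x : S} : x ∈ col J f ↔ f * x ∈ J := Iff.rfl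

lemma le_col (J : Ideal S) (f : S) : J ≤ col J f := fun _ hx => J.mul_mem_left f hx

variable (𝒜 : ℕ → Submodule k S)

/-- The Hilbert function of `S / J`. -/
noncomputable def hf (J : Ideal S) (m : ℕ) : ℕ :=
  finrank k (𝒜 m) - finrank k ↥(𝒜 m ⊓ J.restrictScalars k)

/-- The Hilbert series of `S / J`. -/
noncomputable def HS (J : Ideal S) : ℤ⟦X⟧ := PowerSeries.mk fun m => (hf 𝒜 J m : ℤ)

variable [hfin : ∀ m, FiniteDimensional k (𝒜 m)]

lemma hf_add_finrank (J : Ideal S) (m : ℕ) :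
    hf 𝒜 J m + finrank k ↥(𝒜 m ⊓ J.restrictScalars k) = finrank k (𝒜 m) :=
  Nat.sub_add_cancel (Submodule.finrank_mono inf_le_left)

variable {𝒜}

lemma hf_anti {J J' : Ideal S} (h : J ≤ J') (m : ℕ) : hf 𝒜 J' m ≤ hf 𝒜 J m :=
  Nat.sub_le_sub_left (Submodule.finrank_mono (R := k) (s := 𝒜 m ⊓ J.restrictScalars k)
    (t := 𝒜 m ⊓ J'.restrictScalars k) (inf_le_inf_left _ fun _ hx => h hx)) _

lemma hf_eq_zero_iff {J : Ideal S} {m : ℕ} : hf 𝒜 J m = 0 ↔ ∀ x ∈ 𝒜 m, x ∈ J := by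
  constructor
  · intro h x hx
    have h1 := hf_add_finrank 𝒜 J m
    have h2 : 𝒜 m ⊓ J.restrictScalars k = 𝒜 m :=
      Submodule.eq_of_le_of_finrank_le inf_le_left (by omega)
    rw [← h2] at hx
    exact hx.2
  · intro h
    have h2 : 𝒜 m ⊓ J.restrictScalars k = 𝒜 m := inf_eq_left.2 fun x hx => h x hx
    unfold hf
    rw [h2, Nat.sub_self]

omit hfin in
lemma hf_bot (m : ℕ) : hf 𝒜 ⊥ m = finrank k (𝒜 m) := by
  unfold hf
  have : 𝒜 m ⊓ (⊥ : Ideal S).restrictScalars k = ⊥ := by simp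
  rw [this, finrank_bot, Nat.sub_zero]

variable [GradedAlgebra 𝒜]

omit hfin in
lemma col_hom {J : Ideal S} (hJ : J.IsHomogeneous 𝒜) {e : ℕ} {f : S} (hf : f ∈ 𝒜 e) :
    (col J f).IsHomogeneous 𝒜 := by
  intro i x hx
  rw [mem_col] at hx ⊢
  have := hJ (e + i) hx
  rwa [DirectSum.coe_decompose_mul_add_of_left_mem 𝒜 hf] at this

omit hfin in
lemma sup_hom {J : Ideal S} (hJ : J.IsHomogeneous 𝒜) {e : ℕ} {f : S} (hf : f ∈ 𝒜 e) :
    (J ⊔ Ideal.span {f}).IsHomogeneous 𝒜 :=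
  hJ.sup (Ideal.homogeneous_span 𝒜 _ fun _ hx => hx ▸ ⟨e, hf⟩)

omit hfin in
lemma mem_sup_hom {J : Ideal S} (hJ : J.IsHomogeneous 𝒜) {e m : ℕ} {f y : S} (hf : f ∈ 𝒜 e)
    (hy : y ∈ 𝒜 (e + m)) (h : y ∈ J ⊔ Ideal.span {f}) : ∃ u ∈ 𝒜 m, y - f * u ∈ J := by
  obtain ⟨j, hj, z, hz, rfl⟩ := Submodule.mem_sup.1 h
  obtain ⟨u, rfl⟩ := Ideal.mem_span_singleton'.1 hz
  refine ⟨DirectSum.decompose 𝒜 u m, (DirectSum.decompose 𝒜 u m).2, ?_⟩
  have h1 := DirectSum.decompose_of_mem_same 𝒜 hy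
  rw [DirectSum.decompose_add, DirectSum.add_apply, Submodule.coe_add, mul_comm u f,
    DirectSum.coe_decompose_mul_add_of_left_mem 𝒜 hf] at h1
  rw [mul_comm u f, ← h1, add_sub_cancel_right]
  exact hJ _ hj

omit hfin in
lemma mem_sup_hom_lt {J : Ideal S} (hJ : J.IsHomogeneous 𝒜) {e m : ℕ} {f y : S} (hf : f ∈ 𝒜 e)
    (hm : m < e) (hy : y ∈ 𝒜 m) (h : y ∈ J ⊔ Ideal.span {f}) : y ∈ J := by
  obtain ⟨j, hj, z, hz, rfl⟩ := Submodule.mem_sup.1 h
  obtain ⟨u, rfl⟩ := Ideal.mem_span_singleton'.1 hz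
  have h1 := DirectSum.decompose_of_mem_same 𝒜 hy
  rw [DirectSum.decompose_add, DirectSum.add_apply, Submodule.coe_add, mul_comm u f,
    DirectSum.coe_decompose_mul_of_left_mem_of_not_le 𝒜 hf (not_le.2 hm), add_zero] at h1
  rw [mul_comm u f, ← h1]
  exact hJ _ hj

lemma hf_split {J : Ideal S} (hJ : J.IsHomogeneous 𝒜) {e : ℕ} {f : S} (hf' : f ∈ 𝒜 e) (m : ℕ) :
    hf 𝒜 J (e + m) = hf 𝒜 (col J f) m + hf 𝒜 (J ⊔ Ideal.span {f}) (e + m) := by
  set A := 𝒜 (e + m) ⊓ J.restrictScalars k with hA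
  set B := (𝒜 m).map (LinearMap.mul k S f) with hB
  have e1 : 𝒜 (e + m) ⊓ (J ⊔ Ideal.span {f}).restrictScalars k = A ⊔ B := by
    apply le_antisymm
    · rintro y ⟨hy, hy'⟩
      obtain ⟨u, hu, h⟩ := mem_sup_hom hJ hf' hy hy'
      have h2 : f * u ∈ 𝒜 (e + m) := SetLike.mul_mem_graded hf' hu
      rw [← sub_add_cancel y (f * u)]
      exact Submodule.add_mem_sup ⟨sub_mem hy h2, h⟩ ⟨u, hu, rfl⟩
    · refine sup_le (inf_le_inf_left _ fun x hx => Ideal.mem_sup_left hx) ?_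
      rintro _ ⟨u, hu, rfl⟩
      exact ⟨SetLike.mul_mem_graded hf' hu,
        Ideal.mem_sup_right (Ideal.mul_mem_right _ _ (Ideal.mem_span_singleton_self f))⟩
  have e2 : A ⊓ B = (𝒜 m ⊓ (col J f).restrictScalars k).map (LinearMap.mul k S f) := by
    apply le_antisymm
    · rintro _ ⟨h1, u, hu, rfl⟩
      exact ⟨u, ⟨hu, h1.2⟩, rfl⟩
    · rintro _ ⟨u, hu, rfl⟩
      exact ⟨⟨SetLike.mul_mem_graded hf' hu.1, hu.2⟩, u, hu.1, rfl⟩
  have e3 : 𝒜 m ⊓ (col J f).restrictScalars k ⊓ LinearMap.ker (LinearMap.mul k S f) =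
      𝒜 m ⊓ LinearMap.ker (LinearMap.mul k S f) := by
    apply le_antisymm
    · exact inf_le_inf_right _ inf_le_left
    · rintro u ⟨hu, hu'⟩
      refine ⟨⟨hu, ?_⟩, hu'⟩
      change f * u ∈ J
      rw [show f * u = 0 from hu']
      exact J.zero_mem
  have h1 := Submodule.finrank_sup_add_finrank_inf_eq A B
  have h2 := rk_add (𝒜 m) (LinearMap.mul k S f)
  have h3 := rk_add (𝒜 m ⊓ (col J f).restrictScalars k) (LinearMap.mul k S f)
  have h4 := hf_add_finrank 𝒜 J (e + m)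
  have h5 := hf_add_finrank 𝒜 (col J f) m
  have h6 := hf_add_finrank 𝒜 (J ⊔ Ideal.span {f}) (e + m)
  rw [e1] at h6
  rw [e3, ← e2] at h3
  rw [← hA] at h4
  rw [← hB] at h2
  omega

omit hfin in
lemma hf_split_lt {J : Ideal S} (hJ : J.IsHomogeneous 𝒜) {e : ℕ} {f : S} (hf' : f ∈ 𝒜 e) {m : ℕ}
    (hm : m < e) : hf 𝒜 J m = hf 𝒜 (J ⊔ Ideal.span {f}) m := by
  have : 𝒜 m ⊓ (J ⊔ Ideal.span {f}).restrictScalars k = 𝒜 m ⊓ J.restrictScalars k := by
    apply le_antisymm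
    · rintro y ⟨hy, hy'⟩
      exact ⟨hy, mem_sup_hom_lt hJ hf' hm hy hy'⟩
    · exact inf_le_inf_left _ fun x hx => Ideal.mem_sup_left hx
  unfold hf
  rw [this]

lemma HS_split {J : Ideal S} (hJ : J.IsHomogeneous 𝒜) {e : ℕ} {f : S} (hf' : f ∈ 𝒜 e) :
    HS 𝒜 J = X ^ e * HS 𝒜 (col J f) + HS 𝒜 (J ⊔ Ideal.span {f}) := by
  ext m
  rw [map_add, coeff_X_pow_mul']
  simp only [HS, coeff_mk]
  split_ifs with h
  · obtain ⟨m, rfl⟩ := Nat.exists_eq_add_of_le h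
    rw [hf_split hJ hf', Nat.add_sub_cancel_left]; push_cast; rfl
  · rw [hf_split_lt hJ hf' (not_le.1 h), zero_add]

lemma HS_reg {J : Ideal S} (hJ : J.IsHomogeneous 𝒜) {e : ℕ} {f : S} (hf' : f ∈ 𝒜 e)
    (h : col J f = J) : (1 - X ^ e) * HS 𝒜 J = HS 𝒜 (J ⊔ Ideal.span {f}) := by
  have := HS_split hJ hf'
  rw [h] at this
  linear_combination this

omit hfin in
/-- Noetherian induction over homogeneous ideals. -/
theorem hom_induction [IsNoetherianRing S] (Φ : Ideal S → Prop) (h0 : Φ ⊤)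
    (hsplit : ∀ (J : Ideal S) (e : ℕ) (f : S), J.IsHomogeneous 𝒜 → f ∈ 𝒜 e → Φ (col J f) →
      Φ (J ⊔ Ideal.span {f}) → Φ J)
    (hprime : ∀ J : Ideal S, J.IsHomogeneous 𝒜 → J.IsPrime →
      (∀ (e : ℕ) (f : S), f ∈ 𝒜 e → f ∉ J → Φ (J ⊔ Ideal.span {f})) → Φ J)
    (J : Ideal S) (hJ : J.IsHomogeneous 𝒜) : Φ J := by
  induction J using IsNoetherian.induction with
  | hgt J ih =>
    have hsup : ∀ (e : ℕ) (f : S), f ∈ 𝒜 e → f ∉ J → Φ (J ⊔ Ideal.span {f}) := fun e f hf hfJ =>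
      ih _ (lt_of_le_of_ne le_sup_left fun h => hfJ
        (h ▸ Ideal.mem_sup_right (Ideal.mem_span_singleton_self f))) (sup_hom hJ hf)
    by_cases htop : J = ⊤
    · exact htop ▸ h0
    by_cases hp : Ideal.IsPrime J
    · exact hprime J hJ hp hsup
    · have : ¬ ∀ {x y : S}, SetLike.IsHomogeneousElem 𝒜 x → SetLike.IsHomogeneousElem 𝒜 y →
          x * y ∈ J → x ∈ J ∨ y ∈ J := fun h =>
        hp (hJ.isPrime_of_homogeneous_mem_or_mem htop h)
      push Not at this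
      obtain ⟨x, y, ⟨e, hx⟩, -, hxy, hxJ, hyJ⟩ := this
      refine hsplit J e x hJ hx (ih _ (lt_of_le_of_ne (le_col J x) fun h => hyJ ?_)
        (col_hom hJ hx)) (hsup e x hx hxJ)
      rw [h]; exact hxy

/-- A power series that is a polynomial. -/
def IsPoly (F : ℤ⟦X⟧) : Prop := ∃ p : Polynomial ℤ, (p : ℤ⟦X⟧) = F

lemma IsPoly.add {F G : ℤ⟦X⟧} (hF : IsPoly F) (hG : IsPoly G) : IsPoly (F + G) := by
  obtain ⟨p, rfl⟩ := hF; obtain ⟨q, rfl⟩ := hG
  exact ⟨p + q, Polynomial.coe_add p q⟩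

lemma IsPoly.sub {F G : ℤ⟦X⟧} (hF : IsPoly F) (hG : IsPoly G) : IsPoly (F - G) := by
  obtain ⟨p, rfl⟩ := hF; obtain ⟨q, rfl⟩ := hG
  exact ⟨p - q, Polynomial.coe_sub p q⟩

lemma IsPoly.mul {F G : ℤ⟦X⟧} (hF : IsPoly F) (hG : IsPoly G) : IsPoly (F * G) := by
  obtain ⟨p, rfl⟩ := hF; obtain ⟨q, rfl⟩ := hG
  exact ⟨p * q, Polynomial.coe_mul p q⟩

lemma IsPoly.pow {F : ℤ⟦X⟧} (hF : IsPoly F) (n : ℕ) : IsPoly (F ^ n) := by
  obtain ⟨p, rfl⟩ := hF
  exact ⟨p ^ n, Polynomial.coe_pow n⟩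

lemma isPoly_X : IsPoly X := ⟨Polynomial.X, Polynomial.coe_X⟩

lemma isPoly_one : IsPoly 1 := ⟨1, Polynomial.coe_one⟩

lemma isPoly_of_zero {F : ℤ⟦X⟧} {M : ℕ} (h : ∀ m, M ≤ m → coeff m F = 0) : IsPoly F := by
  refine ⟨trunc M F, ?_⟩
  ext m
  rw [Polynomial.coeff_coe, coeff_trunc]
  split_ifs with hm
  · rfl
  · exact (h m (not_lt.1 hm)).symm

lemma IsPoly.exists_zero {F : ℤ⟦X⟧} (h : IsPoly F) : ∃ M, ∀ m, M ≤ m → coeff m F = 0 := by
  obtain ⟨p, rfl⟩ := h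
  exact ⟨p.natDegree + 1, fun m hm => by
    rw [Polynomial.coeff_coe]; exact Polynomial.coeff_eq_zero_of_natDegree_lt hm⟩

omit [GradedAlgebra 𝒜] in
lemma isPoly_HS {J : Ideal S} {M : ℕ} (h : ∀ m, M ≤ m → ∀ x ∈ 𝒜 m, x ∈ J) : IsPoly (HS 𝒜 J) :=
  isPoly_of_zero (M := M) fun m hm => by
    rw [HS, coeff_mk, hf_eq_zero_iff.2 (h m hm)]; rfl

omit [GradedAlgebra 𝒜] in
lemma IsPoly.exists_mem {J : Ideal S} (h : IsPoly (HS 𝒜 J)) :
    ∃ M, ∀ m, M ≤ m → ∀ x ∈ 𝒜 m, x ∈ J := by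
  obtain ⟨M, hM⟩ := h.exists_zero
  refine ⟨M, fun m hm => hf_eq_zero_iff.1 ?_⟩
  have := hM m hm
  rw [HS, coeff_mk] at this
  exact_mod_cast this

/-- If every relevant homogeneous prime misses elements of two consecutive degrees, the Hilbert
series has its only pole at one. -/
theorem isPoly_one_sub_pow [IsNoetherianRing S]
    (hfree : ∀ P : Ideal S, P.IsHomogeneous 𝒜 → P.IsPrime → (∃ m, 0 < m ∧ ∃ x ∈ 𝒜 m, x ∉ P) →
      ∃ m, (∃ x ∈ 𝒜 m, x ∉ P) ∧ ∃ x ∈ 𝒜 (m + 1), x ∉ P)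
    (J : Ideal S) (hJ : J.IsHomogeneous 𝒜) : ∃ D : ℕ, IsPoly ((1 - X) ^ D * HS 𝒜 J) := by
  have h1 : IsPoly (1 - X) := isPoly_one.sub isPoly_X
  have hadd : ∀ F G : ℤ⟦X⟧, (∃ D : ℕ, IsPoly ((1 - X) ^ D * F)) →
      (∃ D : ℕ, IsPoly ((1 - X) ^ D * G)) → ∀ c : ℤ⟦X⟧, IsPoly c →
      ∃ D : ℕ, IsPoly ((1 - X) ^ D * (c * F + G)) := by
    rintro F G ⟨D, hD⟩ ⟨E, hE⟩ c hc
    refine ⟨D + E, ?_⟩
    have := ((hc.mul (h1.pow E)).mul hD).add ((h1.pow D).mul hE)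
    convert this using 1
    ring
  refine hom_induction (𝒜 := 𝒜) (fun J => ∃ D : ℕ, IsPoly ((1 - X) ^ D * HS 𝒜 J)) ?_ ?_ ?_ J hJ
  · exact ⟨0, by simpa using isPoly_HS (M := 0) fun _ _ _ _ => Submodule.mem_top⟩
  · intro J e f hJ hf h1 h2
    rw [HS_split hJ hf]
    exact hadd _ _ h1 h2 _ (isPoly_X.pow e)
  · intro J hJ hp ih
    by_cases hrel : ∃ m, 0 < m ∧ ∃ x ∈ 𝒜 m, x ∉ J
    · obtain ⟨m, ⟨x, hx, hxJ⟩, y, hy, hyJ⟩ := hfree J hJ hp hrel
      have hc : ∀ z, z ∉ J → col J z = J := fun z hz =>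
        le_antisymm (fun w hw => (hp.mem_or_mem hw).resolve_left hz) (le_col J z)
      obtain ⟨D, hD⟩ := hadd _ _ (ih m x hx hxJ) (ih _ y hy hyJ) (-X)
        (by simpa using (isPoly_one.sub isPoly_X).sub isPoly_one)
      rw [← HS_reg hJ hx (hc x hxJ), ← HS_reg hJ hy (hc y hyJ)] at hD
      refine ⟨D + 1, ?_⟩
      convert hD using 1
      ring
    · push Not at hrel
      exact ⟨0, by simpa using isPoly_HS (M := 1) fun m hm => hrel m hm⟩

/-- Adjoin the elements of a list to an ideal. -/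
def idl (J : Ideal S) : List (ℕ × S) → Ideal S
  | [] => J
  | p :: L => idl (J ⊔ Ideal.span {p.2}) L

/-- Regular sequences modulo an ideal. -/
def Reg (J : Ideal S) : List (ℕ × S) → Prop
  | [] => True
  | p :: L => col J p.2 = J ∧ Reg (J ⊔ Ideal.span {p.2}) L

/-- The product of the factors `1 - X ^ e`. -/
noncomputable def den (L : List (ℕ × S)) : ℤ⟦X⟧ := (L.map fun p => 1 - X ^ p.1).prod

lemma idl_eq (J : Ideal S) (L : List (ℕ × S)) : idl J L = J ⊔ Ideal.ofList (L.map Prod.snd) := by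
  induction L generalizing J with
  | nil => simp [idl]
  | cons p L ih => rw [idl, ih, List.map_cons, Ideal.ofList_cons, sup_assoc]

lemma idl_mono {J J' : Ideal S} (h : J ≤ J') (L : List (ℕ × S)) : idl J L ≤ idl J' L := by
  rw [idl_eq, idl_eq]; exact sup_le_sup_right h _

lemma le_idl (J : Ideal S) (L : List (ℕ × S)) : J ≤ idl J L := by
  rw [idl_eq]; exact le_sup_left

lemma mem_idl (J : Ideal S) {L : List (ℕ × S)} {p : ℕ × S} (hp : p ∈ L) : p.2 ∈ idl J L := by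
  rw [idl_eq]
  exact Ideal.mem_sup_right (Ideal.subset_span (List.mem_map_of_mem hp))

lemma idl_le {J I : Ideal S} {L : List (ℕ × S)} (h : J ≤ I) (h' : ∀ p ∈ L, p.2 ∈ I) :
    idl J L ≤ I := by
  rw [idl_eq]
  refine sup_le h (Ideal.span_le.2 fun x hx => ?_)
  obtain ⟨p, hp, rfl⟩ := List.mem_map.1 hx
  exact h' p hp

lemma idl_append (J : Ideal S) (L L' : List (ℕ × S)) : idl J (L ++ L') = idl (idl J L) L' := by
  induction L generalizing J with
  | nil => rfl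
  | cons p L ih => exact ih _

lemma reg_append (J : Ideal S) (L L' : List (ℕ × S)) :
    Reg J (L ++ L') ↔ Reg J L ∧ Reg (idl J L) L' := by
  induction L generalizing J with
  | nil => simp [Reg, idl]
  | cons p L ih => simp only [List.cons_append, Reg, idl, ih, and_assoc]

omit hfin in
lemma idl_hom {J : Ideal S} (hJ : J.IsHomogeneous 𝒜) {L : List (ℕ × S)}
    (hL : ∀ p ∈ L, p.2 ∈ 𝒜 p.1) : (idl J L).IsHomogeneous 𝒜 := by
  induction L generalizing J with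
  | nil => exact hJ
  | cons p L ih =>
    exact ih (sup_hom hJ (hL p List.mem_cons_self)) fun q hq => hL q (List.mem_cons_of_mem _ hq)

lemma den_mul_HS {J : Ideal S} (hJ : J.IsHomogeneous 𝒜) {L : List (ℕ × S)}
    (hL : ∀ p ∈ L, p.2 ∈ 𝒜 p.1) (h : Reg J L) : den L * HS 𝒜 J = HS 𝒜 (idl J L) := by
  induction L generalizing J with
  | nil => simp [den, idl]
  | cons p L ih =>
    have hp := hL p List.mem_cons_self
    rw [idl, ← ih (sup_hom hJ hp) (fun q hq => hL q (List.mem_cons_of_mem _ hq)) h.2,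
      ← HS_reg hJ hp h.1]
    simp only [den, List.map_cons, List.prod_cons]
    ring

omit [CommRing S] in
lemma isPoly_den (L : List (ℕ × S)) : IsPoly (den L) := by
  induction L with
  | nil => exact isPoly_one
  | cons p L ih => exact (isPoly_one.sub (isPoly_X.pow _)).mul ih

/-- The theorem of Hilbert and Serre. -/
theorem isPoly_den_mul [IsNoetherianRing S] {L : List (ℕ × S)} (hL : ∀ p ∈ L, p.2 ∈ 𝒜 p.1)
    {J : Ideal S} (hJ : J.IsHomogeneous 𝒜) {M : ℕ}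
    (h : ∀ m, M ≤ m → ∀ x ∈ 𝒜 m, x ∈ idl J L) : IsPoly (den L * HS 𝒜 J) := by
  induction L generalizing J with
  | nil => simpa [den, idl] using isPoly_HS h
  | cons p L ih =>
    have hp := hL p List.mem_cons_self
    have hL' : ∀ q ∈ L, q.2 ∈ 𝒜 q.1 := fun q hq => hL q (List.mem_cons_of_mem _ hq)
    have hd : den (p :: L) = (1 - X ^ p.1) * den L := by simp [den]
    induction J using IsNoetherian.induction with
    | hgt J ih2 =>
      have h1 := ih hL' (sup_hom hJ hp) h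
      by_cases hc : col J p.2 = J
      · rw [hd, mul_comm _ (den L), mul_assoc, HS_reg hJ hp hc]
        exact h1
      · have h2 := ih2 (col J p.2) (lt_of_le_of_ne (le_col J _) (Ne.symm hc)) (col_hom hJ hp)
          fun m hm x hx => idl_mono (le_col J _) _ (h m hm x hx)
        rw [HS_split hJ hp]
        have := ((isPoly_X.pow p.1).mul h2).add ((isPoly_one.sub (isPoly_X.pow p.1)).mul h1)
        convert this using 1
        rw [hd]; ring

/-- The number of monomials of degree `m` in variables of the given positive weights. -/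
def mon : List ℕ → ℕ → ℕ
  | [], m => if m = 0 then 1 else 0
  | w :: L, m => ∑ i ∈ Finset.range (m + 1), if w ∣ i then mon L (m - i) else 0

lemma hf_le_mon {L : List (ℕ × S)} (hL : ∀ p ∈ L, 0 < p.1 ∧ p.2 ∈ 𝒜 p.1)
    (h0 : finrank k (𝒜 0) ≤ 1) {J : Ideal S} (hJ : J.IsHomogeneous 𝒜)
    (h : ∀ m, 0 < m → ∀ x ∈ 𝒜 m, x ∈ idl J L) (m : ℕ) :
    hf 𝒜 J m ≤ mon (L.map Prod.fst) m := by
  induction L generalizing J m with
  | nil =>
    rw [List.map_nil, mon]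
    split_ifs with hm
    · subst hm; exact (Nat.sub_le _ _).trans h0
    · exact (hf_eq_zero_iff.2 (h m (Nat.pos_of_ne_zero hm))).le
  | cons p L ih =>
    obtain ⟨hp0, hp⟩ := hL p List.mem_cons_self
    have h1 := ih (fun q hq => hL q (List.mem_cons_of_mem _ hq)) (sup_hom hJ hp) h
    rw [List.map_cons]
    induction m using Nat.strong_induction_on with
    | _ m ihm =>
      rw [mon, Finset.sum_range_succ', if_pos (dvd_zero _), Nat.sub_zero]
      by_cases hm : m < p.1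
      · rw [hf_split_lt hJ hp hm]
        exact (h1 m).trans (Nat.le_add_left _ _)
      · obtain ⟨m', rfl⟩ := Nat.exists_eq_add_of_le (not_lt.1 hm)
        rw [hf_split hJ hp]
        refine Nat.add_le_add ((hf_anti (le_col J _) _).trans ((ihm m' (by omega)).trans ?_)) (h1 _)
        rw [mon]
        obtain ⟨w, hw⟩ : ∃ w, p.1 = w + 1 := ⟨p.1 - 1, by omega⟩
        rw [show p.1 + m' = w + (m' + 1) by omega, Finset.sum_range_add _ w]
        refine le_trans (le_of_eq (Finset.sum_congr rfl fun i _ => ?_)) (Nat.le_add_left _ _)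
        have e1 : w + i + 1 = p.1 + i := by omega
        have e2 : w + (m' + 1) - (p.1 + i) = m' - i := by omega
        rw [e1, e2]
        simp only [Nat.dvd_add_self_left]

end Pool.Agent.Lib.MP_954e53_ag
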