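import Pool.Agent.Lib.MP_954e53_ag.Main

/-! The numerical data cannot exist when the dimension is large compared with the codimension. -/

namespace Pool.Agent.Lib.MP_954e53_ag

open PowerSeries

lemma geom_dvd {x : ℝ} (h0 : 0 ≤ x) (h1 : x < 1) {w : ℕ} (hw : 0 < w) (M : ℕ) :
    ∑ i ∈ Finset.range M, (if w ∣ i then x ^ i else 0) ≤ (1 - x ^ w)⁻¹ := by
  have h2 : 0 < 1 - x ^ w := sub_pos.2 (pow_lt_one₀ h0 h1 hw.ne')
  have h3 : ∑ i ∈ Finset.range M, (if w ∣ i then x ^ i else 0) ≤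
      ∑ i ∈ Finset.range (w + M), (if w ∣ i then x ^ i else 0) :=
    Finset.sum_le_sum_of_subset_of_nonneg (Finset.range_subset_range.2 (by omega))
      fun i _ _ => by positivity
  have h4 : ∑ i ∈ Finset.range w, (if w ∣ i then x ^ i else 0) = 1 := by
    rw [Finset.sum_eq_single 0]
    · simp
    · exact fun i hi h => if_neg fun h' =>
        absurd (Nat.le_of_dvd (Nat.pos_of_ne_zero h) h') (not_le.2 (Finset.mem_range.1 hi))
    · exact fun h => absurd (Finset.mem_range.2 hw) h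
  have h5 : ∑ i ∈ Finset.range M, (if w ∣ w + i then x ^ (w + i) else 0) =
      x ^ w * ∑ i ∈ Finset.range M, (if w ∣ i then x ^ i else 0) := by
    rw [Finset.mul_sum]
    exact Finset.sum_congr rfl fun i _ => by simp [pow_add]
  rw [Finset.sum_range_add, h4, h5] at h3
  rw [← one_div, le_div_iff₀ h2]
  linarith

lemma mon_le {x : ℝ} (h0 : 0 ≤ x) (h1 : x < 1) {W : List ℕ} (hW : ∀ w ∈ W, 0 < w) (m : ℕ) :
    (mon W m : ℝ) * x ^ m ≤ (W.map fun w => (1 - x ^ w)⁻¹).prod := by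
  induction W generalizing m with
  | nil =>
    rw [mon]
    split_ifs with h <;> simp [h]
  | cons w W ih =>
    have ih' := ih fun v hv => hW v (List.mem_cons_of_mem _ hv)
    have h2 : 0 ≤ (W.map fun w => (1 - x ^ w)⁻¹).prod := le_trans (by positivity) (ih' 0)
    rw [mon, List.map_cons, List.prod_cons]
    refine le_trans ?_ (mul_le_mul_of_nonneg_right
      (geom_dvd h0 h1 (hW w List.mem_cons_self) (m + 1)) h2)
    push_cast
    rw [Finset.sum_mul, Finset.sum_mul]
    refine Finset.sum_le_sum fun i hi => ?_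
    split_ifs
    · obtain ⟨j, rfl⟩ := Nat.exists_eq_add_of_le (Nat.lt_succ_iff.1 (Finset.mem_range.1 hi))
      rw [Nat.add_sub_cancel_left, pow_add, mul_left_comm]
      exact mul_le_mul_of_nonneg_left (ih' j) (by positivity)
    · simp

lemma bound_step {x C : ℝ} (h0 : 0 ≤ x) {G : ℤ⟦X⟧} 
    (h : ∀ m, |((coeff m G : ℤ) : ℝ)| * x ^ m ≤ C) (q m : ℕ) :
    |((coeff m ((1 - X ^ q) * G) : ℤ) : ℝ)| * x ^ m ≤ (1 + x ^ q) * C := by
  have hC : 0 ≤ C := le_trans (by positivity) (h 0)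
  rw [sub_mul, one_mul, map_sub, coeff_X_pow_mul']
  split_ifs with hq
  · obtain ⟨j, rfl⟩ := Nat.exists_eq_add_of_le hq
    rw [Nat.add_sub_cancel_left]
    push_cast
    have h1 := mul_le_mul_of_nonneg_right
      (abs_sub ((coeff (q + j) G : ℤ) : ℝ) ((coeff j G : ℤ) : ℝ)) (pow_nonneg h0 (q + j))
    have h2 := mul_le_mul_of_nonneg_left (h j) (pow_nonneg h0 q)
    have h3 := h (q + j)
    rw [pow_add] at h1 h3 ⊢
    nlinarith
  · rw [sub_zero]
    have := h m
    have := mul_nonneg (pow_nonneg h0 q) hC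
    linarith

lemma bound_pow {x C : ℝ} (h0 : 0 ≤ x) {G : ℤ⟦X⟧} 
    (h : ∀ m, |((coeff m G : ℤ) : ℝ)| * x ^ m ≤ C) (q n m : ℕ) :
    |((coeff m ((1 - X ^ q) ^ n * G) : ℤ) : ℝ)| * x ^ m ≤ (1 + x ^ q) ^ n * C := by
  induction n generalizing m with
  | zero => simpa using h m
  | succ n ih =>
    rw [pow_succ', pow_succ', mul_assoc, mul_assoc]
    exact bound_step h0 ih q m

lemma sum_coeff (G : ℤ⟦X⟧) (M : ℕ) :
    ∑ i ∈ Finset.range (M + 1), coeff i ((1 - X) * G) = coeff M G := by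
  induction M with
  | zero => simp [sub_mul]
  | succ M ih => rw [Finset.sum_range_succ, ih, sub_mul, one_mul, map_sub, coeff_succ_X_mul]; ring

lemma eval_pal {g : Polynomial ℤ} {M M' : ℕ} (hdeg : g.natDegree ≤ M + M' + 1)
    (hpal : g.reflect (M + M' + 1) = g) {G : ℤ⟦X⟧} (hG : (g : ℤ⟦X⟧) = (1 - X) * G) :
    g.eval 1 = coeff M G + coeff M' G := by
  rw [Polynomial.eval_eq_sum_range' (n := (M + 1) + (M' + 1)) (by omega), Finset.sum_range_add,
    ← sum_coeff, ← sum_coeff, ← hG, ← Finset.sum_range_reflect _ (M' + 1)]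
  congr 1
  · simp
  · refine Finset.sum_congr rfl fun i hi => ?_
    have hi' := Finset.mem_range.1 hi
    rw [Polynomial.coeff_coe, ← hpal, Polynomial.coeff_reflect, hpal, Polynomial.revAt_le (by omega),
      one_pow, mul_one]
    congr 1
    omega

/-- The inverse of `1 - (3 / 4) ^ w`. -/
noncomputable def al (w : ℕ) : ℝ := (1 - (3 / 4 : ℝ) ^ w)⁻¹

lemma al_anti {v w : ℕ} (hv : 0 < v) (h : v ≤ w) : al w ≤ al v :=
  inv_anti₀ (sub_pos.2 (pow_lt_one₀ (by norm_num) (by norm_num) hv.ne'))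
    (sub_le_sub_left (pow_le_pow_of_le_one (by norm_num) (by norm_num) h) _)

lemma al_nonneg (w : ℕ) : 0 ≤ al w :=
  inv_nonneg.2 (sub_nonneg.2 (pow_le_one₀ (by norm_num) (by norm_num)))

lemma prod_al {W : List ℕ} (hW : ∀ w ∈ W, 2 ≤ w) : (W.map al).prod ≤
    al 7 ^ W.length * (al 2 / al 7) ^ (W.filter (2 ∣ ·)).length *
      (al 3 / al 7) ^ (W.filter (3 ∣ ·)).length * (al 5 / al 7) ^ (W.filter (5 ∣ ·)).length := by
  have e2 : al 2 = 16 / 7 := by norm_num [al]
  have e3 : al 3 = 64 / 37 := by norm_num [al]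
  have e5 : al 5 = 1024 / 781 := by norm_num [al]
  have e7 : al 7 = 16384 / 14197 := by norm_num [al]
  induction W with
  | nil => simp
  | cons w W ih =>
    have hw := hW w List.mem_cons_self
    have ih' := ih fun v hv => hW v (List.mem_cons_of_mem _ hv)
    have key : al w ≤ al 7 * (if 2 ∣ w then al 2 / al 7 else 1) *
        (if 3 ∣ w then al 3 / al 7 else 1) * (if 5 ∣ w then al 5 / al 7 else 1) := by
      have a2 := al_anti two_pos hw
      by_cases h2 : 2 ∣ w
      · rw [if_pos h2]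
        split_ifs <;> refine a2.trans ?_ <;> simp only [e2, e3, e5, e7] <;> norm_num
      · have a3 := al_anti three_pos (show 3 ≤ w by omega)
        rw [if_neg h2]
        by_cases h3 : 3 ∣ w
        · rw [if_pos h3]
          split_ifs <;> refine a3.trans ?_ <;> simp only [e3, e5, e7] <;> norm_num
        · rw [if_neg h3]
          split_ifs with h5
          · refine (al_anti (by norm_num) (show 5 ≤ w by omega)).trans ?_
            simp only [e5, e7]; norm_num
          · refine (al_anti (by norm_num) (show 7 ≤ w by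
              by_contra h7
              rw [not_le] at h7
              interval_cases w <;> omega)).trans ?_
            simp
    rw [List.map_cons, List.prod_cons]
    refine (mul_le_mul key ih' (List.prod_nonneg fun a ha => ?_) ((al_nonneg w).trans key)).trans
      (le_of_eq ?_)
    · obtain ⟨v, -, rfl⟩ := List.mem_map.1 ha
      exact al_nonneg v
    · simp only [List.filter_cons, decide_eq_true_eq, List.length_cons]
      split_ifs <;> (try simp only [List.length_cons]) <;> ring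

theorem not_data_large {c d r : ℕ} (hr : 1 ≤ r) (hd : 2 * c + 2 ≤ d) (W : List ℕ) (H : ℕ → ℕ)
    (h : Polynomial ℤ) : ¬ Data c d r W H h := by
  intro D
  obtain ⟨n, rfl⟩ : ∃ n, d = n + 1 := ⟨d - 1, by omega⟩
  have hrd := D.hrd
  let L : List (ℕ × Unit) := List.replicate n (8, ())
  have hL : ∀ p ∈ L, 0 < p.1 := fun p hp => by rw [List.eq_of_mem_replicate hp]; norm_num
  obtain ⟨h1, h2⟩ := geo_pal hL
  have h3 := geo_eval L
  have h4 := den_eq L
  simp only [L, List.length_replicate, List.map_replicate, List.sum_replicate, smul_eq_mul,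
    List.prod_replicate, den] at h1 h3 h4
  obtain ⟨M', hM'⟩ : ∃ M', M' + r = 4 * n := ⟨4 * n - r, by omega⟩
  have e1 : 4 * n + M' + 1 = (n + 1 - r) + (geo L).natDegree := by simp only [L]; omega
  have h5 := eval_pal (g := h * geo L) (M := 4 * n) (M' := M')
    (G := (1 - X ^ 8) ^ n * PowerSeries.mk (fun m => (H m : ℤ)))
    (by rw [e1, ← D.hdeg]; exact Polynomial.natDegree_mul_le)
    (by rw [e1, Polynomial.reflect_mul _ _ D.hdeg.le le_rfl, D.hpal, h2])
    (by rw [Polynomial.coe_mul, D.hh, h4]; ring)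
  set F := (W.map al).prod with hF
  have h6 : ∀ m, |((coeff m (PowerSeries.mk (fun m => (H m : ℤ))) : ℤ) : ℝ)| * (3 / 4) ^ m ≤ F :=
    fun m => by
      rw [coeff_mk, Int.cast_natCast, Nat.abs_cast]
      exact (mul_le_mul_of_nonneg_right (Nat.cast_le.2 (D.hH m)) (by positivity)).trans
        (mon_le (by norm_num) (by norm_num) (fun w hw => by have := D.hW w hw; omega) m)
  have h7 := bound_pow (by norm_num) h6 8 n
  set a := coeff (4 * n) ((1 - X ^ 8) ^ n * PowerSeries.mk (fun m => (H m : ℤ)))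
  set b := coeff M' ((1 - X ^ 8) ^ n * PowerSeries.mk (fun m => (H m : ℤ)))
  have hF0 : 0 ≤ F := le_trans (by positivity) (h6 0)
  have h8 : (8 : ℝ) ^ n ≤ |(a : ℝ)| + |(b : ℝ)| := by
    have h9 : (8 : ℤ) ^ n ≤ a + b := by
      rw [← h5, Polynomial.eval_mul, h3]
      push_cast
      exact le_mul_of_one_le_left (by positivity) D.hpos
    have h10 : (8 : ℝ) ^ n ≤ a + b := by exact_mod_cast h9
    exact h10.trans (add_le_add (le_abs_self _) (le_abs_self _))
  have h9 : |(b : ℝ)| * (3 / 4) ^ (4 * n) ≤ 3 / 4 * ((1 + (3 / 4) ^ 8) ^ n * F) := by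
    rw [← hM', pow_add, ← mul_assoc, mul_comm]
    exact mul_le_mul (pow_le_of_le_one (by norm_num) (by norm_num) (by omega)) (h7 M')
      (by positivity) (by norm_num)
  have h10 : (8 : ℝ) ^ n * (3 / 4) ^ (4 * n) ≤ 7 / 4 * ((1 + (3 / 4) ^ 8) ^ n * F) := by
    have := mul_le_mul_of_nonneg_right h8 (by positivity : (0 : ℝ) ≤ (3 / 4) ^ (4 * n))
    have := h7 (4 * n)
    linarith
  obtain ⟨j, rfl⟩ : ∃ j, n = 2 * c + 1 + j := ⟨n - (2 * c + 1), by omega⟩
  have h11 : F ≤ 1 ∧ c = 0 ∨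
      F ≤ (16384 / 14197) ^ (2 * c + 1 + j + 1 + c) * (3373 / 1000) ^ c ∧ 0 < c := by
    rcases Nat.eq_zero_or_pos c with rfl | hc
    · refine Or.inl ⟨?_, rfl⟩
      obtain _ | ⟨w, W⟩ := W
      · simp [hF]
      · have h12 := D.hW w List.mem_cons_self
        have h13 := D.hp _ (Nat.minFac_prime (n := w) (by omega))
        simp [Nat.minFac_dvd] at h13
    · refine Or.inr ⟨(prod_al D.hW).trans ?_, hc⟩
      have e2 : al 2 = 16 / 7 := by norm_num [al]
      have e3 : al 3 = 64 / 37 := by norm_num [al]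
      have e5 : al 5 = 1024 / 781 := by norm_num [al]
      have e7 : al 7 = 16384 / 14197 := by norm_num [al]
      rw [e2, e3, e5, e7]
      calc _ ≤ (16384 / 14197 : ℝ) ^ (2 * c + 1 + j + 1 + c) * (16 / 7 / (16384 / 14197)) ^ c *
          (64 / 37 / (16384 / 14197)) ^ c * (1024 / 781 / (16384 / 14197)) ^ c := by
            gcongr
            exacts [by norm_num, D.hlen, by norm_num, D.hp 2 (by norm_num), by norm_num,
              D.hp 3 (by norm_num), by norm_num, D.hp 5 (by norm_num)]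
        _ ≤ _ := by
            rw [mul_assoc, mul_assoc, ← mul_pow, ← mul_pow]
            gcongr
            norm_num
  rw [pow_mul, ← mul_pow] at h10
  have hu0 : (0 : ℝ) < 8 * (3 / 4) ^ 4 := by norm_num
  have hv0 : (0 : ℝ) < 1 + (3 / 4) ^ 8 := by norm_num
  have hy0 : (0 : ℝ) < 16384 / 14197 := by norm_num
  have hz0 : (0 : ℝ) < 3373 / 1000 := by norm_num
  have n1 : (1 + (3 / 4) ^ 8 : ℝ) ≤ 8 * (3 / 4) ^ 4 := by norm_num
  have n2 : 7 / 4 * (1 + (3 / 4) ^ 8 : ℝ) < 8 * (3 / 4) ^ 4 := by norm_num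
  have n3 : (1 + (3 / 4) ^ 8 : ℝ) * (16384 / 14197) ≤ 8 * (3 / 4) ^ 4 := by norm_num
  have n4 : (1 + (3 / 4) ^ 8 : ℝ) ^ 2 * (16384 / 14197) ^ 3 * (3373 / 1000) ≤
    (8 * (3 / 4) ^ 4) ^ 2 := by norm_num
  have n5 : 7 / 4 * ((1 + (3 / 4) ^ 8 : ℝ) ^ 3 * (16384 / 14197) ^ 5 * (3373 / 1000)) <
    (8 * (3 / 4) ^ 4) ^ 3 := by norm_num
  generalize (8 * (3 / 4) ^ 4 : ℝ) = u at h10 hu0 n1 n2 n3 n4 n5
  generalize (1 + (3 / 4) ^ 8 : ℝ) = v at h10 hv0 n1 n2 n3 n4 n5
  generalize (16384 / 14197 : ℝ) = y at h11 hy0 n3 n4 n5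
  generalize (3373 / 1000 : ℝ) = z at h11 hz0 n4 n5
  rcases h11 with ⟨h11, rfl⟩ | ⟨h11, hc⟩
  · have h13 : v ^ j ≤ u ^ j := by gcongr
    have h15 := mul_le_mul_of_nonneg_left h11 (by positivity : 0 ≤ v ^ (2 * 0 + 1 + j))
    simp only [mul_zero, zero_add, pow_add, pow_one] at h10 h15
    have h16 := mul_lt_mul_of_pos_right n2 (by positivity : 0 < u ^ j)
    have h17 := mul_le_mul_of_nonneg_left h13 hv0.le
    linarith
  · obtain ⟨c, rfl⟩ : ∃ c', c = c' + 1 := ⟨c - 1, by omega⟩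
    have h13 : (v * y) ^ j ≤ u ^ j := by gcongr
    have h14 : (v ^ 2 * y ^ 3 * z) ^ c ≤ (u ^ 2) ^ c := by gcongr
    have h15 := mul_le_mul h13 h14 (by positivity) (by positivity)
    have h16 := mul_le_mul_of_nonneg_left h11 (by positivity : 0 ≤ v ^ (2 * (c + 1) + 1 + j))
    have h17 : v ^ (2 * (c + 1) + 1 + j) * (y ^ (2 * (c + 1) + 1 + j + 1 + (c + 1)) * z ^ (c + 1)) =
        v ^ 3 * y ^ 5 * z * ((v * y) ^ j * (v ^ 2 * y ^ 3 * z) ^ c) := by ring
    have h18 : u ^ (2 * (c + 1) + 1 + j) = u ^ 3 * (u ^ j * (u ^ 2) ^ c) := by ring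
    have h19 := mul_lt_mul_of_pos_right n5 (by positivity : 0 < u ^ j * (u ^ 2) ^ c)
    rw [h17] at h16
    rw [h18] at h10
    have h21 := mul_le_mul_of_nonneg_left h15 (by positivity : 0 ≤ v ^ 3 * y ^ 5 * z)
    linarith

end Pool.Agent.Lib.MP_954e53_ag
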