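import Pool.Agent.Lib.MP_954e53_ag.Core

/-! Reduction of the equality of core and graded core to a statement about Hilbert series. -/

namespace Pool.Agent.Lib.MP_954e53_ag

open Module

variable {k S : Type*} [Field k] [CommRing S] [Algebra k S]

lemma reg_of_forall {T : List (ℕ × S)} {J : Ideal S}
    (h : ∀ i (hi : i < T.length), col (idl J (T.take i)) T[i].2 = idl J (T.take i)) : Reg J T := by
  induction T generalizing J with
  | nil => trivial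
  | cons p T ih => exact ⟨h 0 (Nat.succ_pos _), ih fun i hi => h (i + 1) (Nat.succ_lt_succ hi)⟩

lemma reg_of_weakly {T : List (ℕ × S)}
    (h : RingTheory.Sequence.IsWeaklyRegular S (T.map Prod.snd)) : Reg ⊥ T := by
  refine reg_of_forall fun i hi => le_antisymm (fun f hf => ?_) (le_col _ _)
  have h1 := h.regular_mod_prev i (by simpa using hi)
  rw [mem_col] at hf
  rw [idl_eq, bot_sup_eq, List.map_take] at hf ⊢
  have h2 : ∀ I : Ideal S, (I • ⊤ : Submodule S S) = I := fun I => by simp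
  rw [← h2 (Ideal.ofList _)] at hf ⊢
  refine (Submodule.Quotient.mk_eq_zero _).1 (h1 ?_)
  simp only [smul_zero, ← Submodule.Quotient.mk_smul, List.getElem_map]
  exact (Submodule.Quotient.mk_eq_zero _).2 hf

/-- The numerical data attached to a ring without forms of degree one. -/
structure Data (c d r : ℕ) (W : List ℕ) (H : ℕ → ℕ) (h : Polynomial ℤ) : Prop where
  hW : ∀ w ∈ W, 2 ≤ w
  hp : ∀ p : ℕ, p.Prime → (W.filter (p ∣ ·)).length ≤ c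
  hH : ∀ m, H m ≤ mon W m
  hh : (h : PowerSeries ℤ) = (1 - PowerSeries.X) ^ d * PowerSeries.mk (fun m => (H m : ℤ))
  h0 : H 0 = 1
  h1 : H 1 = 0
  hrd : r ≤ d
  hpal : h.reflect (d - r) = h
  hdeg : h.natDegree = d - r
  hpos : 0 < h.eval 1
  hlen : W.length ≤ d + c
  hlow : ∀ e, W.count e ≤ H e
  hlow2 : ∀ w ∈ W, ∀ m, 0 < m → H m + W.count (m + w) ≤ H (m + w)

theorem core_eq_of_numerics [CharZero k] [IsDomain S] {𝒜 : ℕ → Submodule k S} [GradedAlgebra 𝒜]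
    {n d r c : ℕ} (hgen : GeneratedBy 𝒜 n) (hfree : EventuallyFree 𝒜)
    (hG : GorensteinOfIndex 𝒜 d r) (hc : n ≤ d + c) (hnum : ∀ W H h, ¬ Data c d r W H h) :
    ∃ N₀, ∀ N, N₀ ≤ N → core (truncIdeal 𝒜 N) = gradedCore 𝒜 (truncIdeal 𝒜 N) := by
  obtain ⟨x, w, hx, hgen⟩ := hgen
  obtain ⟨m₀, hfree⟩ := hfree
  obtain ⟨θ, e, s, hθ, hreg, hs, hu, ht, hsoc⟩ := hG
  set L : List (ℕ × S) := List.ofFn fun i => (w i, x i) with hL
  set T : List (ℕ × S) := List.ofFn fun i => (e i, θ i) with hT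
  have hL1 : ∀ p ∈ L, 0 < p.1 ∧ p.2 ∈ 𝒜 p.1 := fun p hp => by
    obtain ⟨i, rfl⟩ := List.mem_ofFn.1 hp
    exact hx i
  have hT1 : ∀ p ∈ T, 0 < p.1 ∧ p.2 ∈ 𝒜 p.1 := fun p hp => by
    obtain ⟨i, rfl⟩ := List.mem_ofFn.1 hp
    exact hθ i
  have hgen' : Algebra.adjoin k {y | ∃ p ∈ L, p.2 = y} = ⊤ := by
    rw [← hgen]; congr 1; ext y; simp [hL]
  have hT2 : T.map Prod.snd = List.ofFn θ := by rw [hT, List.map_ofFn]; rfl
  have hT3 : idl ⊥ T = Ideal.span (Set.range θ) := by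
    rw [idl_eq, bot_sup_eq, hT2, Ideal.ofList]; congr 1; ext y; simp
  have hT4 : s + r = (T.map Prod.fst).sum := by
    rw [hs, hT, List.map_ofFn, List.sum_ofFn]; rfl
  have hfree' : ∀ P : Ideal S, P.IsHomogeneous 𝒜 → P.IsPrime →
      (∃ m, 0 < m ∧ ∃ x ∈ 𝒜 m, x ∉ P) → ∀ m, m₀ ≤ m → ∃ x ∈ 𝒜 m, x ∉ P := by
    rintro P hP hp ⟨m, hm, y, hy, hyP⟩ m' hm'
    exact hfree m' hm' ⟨⟨P, hP⟩, hp, fun h => hyP
      (h (HomogeneousIdeal.mem_irrelevant_of_mem 𝒜 hm hy))⟩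
  have hreg' : Reg ⊥ T := reg_of_weakly (hT2 ▸ hreg.toIsWeaklyRegular)
  have hsoc' : Soc 𝒜 (idl ⊥ T) := hT3 ▸ hsoc
  have ht' : Top 𝒜 (idl ⊥ T) s := hT3 ▸ ⟨hu, ht⟩
  have hd : T.length = d := List.length_ofFn
  by_cases h1 : ∀ y ∈ 𝒜 1, y = 0
  · obtain ⟨W, H, h, h2⟩ := ring_numerics hL1 hgen' hfree' hT1 hreg' hsoc' ht' hT4 (c := c)
      (by rw [hd, hL, List.length_ofFn]; exact hc) h1
    rw [hd] at h2
    obtain ⟨a1, a2, a3, a4, a5, a6, a7, a8, a9, a10, a11, a12, a13⟩ := h2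
    exact absurd ⟨a1, a2, a3, a4, a5, a6, a7, a8, a9, a10, a11, a12, a13⟩ (hnum W H h)
  · push Not at h1
    obtain ⟨y, hy, hy0⟩ := h1
    exact core_eq hL1 hgen' hfree' hT1 hreg' hsoc' ht' hT4 hy hy0

end Pool.Agent.Lib.MP_954e53_ag
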