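import Pool.Agent.Lib.MP_954e53_ag.Hilb

/-! Majorants for the number of monomials of a given degree. -/

namespace Pool.Agent.Lib.MP_954e53_ag

open PowerSeries

/-- The series of the multiples of `w`. -/
noncomputable def gs (w : ℕ) : ℕ⟦X⟧ := PowerSeries.mk fun i => if w ∣ i then 1 else 0

/-- The generating series of the monomials. -/
noncomputable def GS (W : List ℕ) : ℕ⟦X⟧ := (W.map gs).prod

lemma GS_cons (w : ℕ) (W : List ℕ) : GS (w :: W) = gs w * GS W := by simp [GS]

lemma GS_append (V W : List ℕ) : GS (V ++ W) = GS V * GS W := by simp [GS]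

lemma GS_perm {V W : List ℕ} (h : V.Perm W) : GS V = GS W := (h.map gs).prod_eq

lemma coeff_GS (W : List ℕ) (m : ℕ) : coeff m (GS W) = mon W m := by
  induction W generalizing m with
  | nil => simp [GS, mon, coeff_one]
  | cons w W ih =>
    rw [GS_cons, coeff_mul, Finset.Nat.sum_antidiagonal_eq_sum_range_succ_mk, mon]
    refine Finset.sum_congr rfl fun i _ => ?_
    simp only [gs, coeff_mk, ih]
    split_ifs <;> simp

/-- Coefficientwise comparison. -/
def CLe (F G : ℕ⟦X⟧) : Prop := ∀ m, coeff m F ≤ coeff m G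

lemma CLe.rfl {F : ℕ⟦X⟧} : CLe F F := fun _ => le_rfl

lemma CLe.trans {F G K : ℕ⟦X⟧} (h : CLe F G) (h' : CLe G K) : CLe F K :=
  fun m => (h m).trans (h' m)

lemma CLe.mul {F G F' G' : ℕ⟦X⟧} (h : CLe F G) (h' : CLe F' G') : CLe (F * F') (G * G') := by
  intro m
  rw [coeff_mul, coeff_mul]
  exact Finset.sum_le_sum fun p _ => Nat.mul_le_mul (h _) (h' _)

lemma CLe.exists_add {F G : ℕ⟦X⟧} (h : CLe F G) : ∃ E, G = F + E :=
  ⟨PowerSeries.mk fun m => coeff m G - coeff m F, by
    ext m; rw [map_add, coeff_mk]; have := h m; omega⟩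

lemma one_cle_gs (w : ℕ) : CLe 1 (gs w) := by
  intro m
  rw [coeff_one, gs, coeff_mk]
  split_ifs with h1 h2
  · rfl
  · exact absurd (h1 ▸ dvd_zero w) h2
  all_goals omega

lemma one_cle_GS (W : List ℕ) : CLe 1 (GS W) := by
  induction W with
  | nil => exact CLe.rfl
  | cons w W ih => rw [GS_cons, ← one_mul 1]; exact (one_cle_gs w).mul ih

lemma gs_cle_one (w : ℕ) : CLe (gs w) (gs 1) := by
  intro m
  simp only [gs, coeff_mk, one_dvd, if_true]
  split_ifs <;> omega

lemma coeff_gs_one_mul (w m : ℕ) : coeff m (gs w * gs 1) = m / w + 1 := by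
  rw [coeff_mul, Finset.Nat.sum_antidiagonal_eq_sum_range_succ_mk]
  simp only [gs, coeff_mk, one_dvd, if_true, mul_one]
  induction m with
  | zero => rw [Finset.sum_range_one]; simp
  | succ m ih => rw [Finset.sum_range_succ, ih, Nat.succ_div]; ring

lemma gs_dom {v w : ℕ} (hv : 0 < v) (h : v ≤ w) : CLe (gs 1 * gs w) (gs 1 * gs v) := by
  intro m
  rw [mul_comm, mul_comm _ (gs v), coeff_gs_one_mul, coeff_gs_one_mul]
  exact Nat.succ_le_succ (Nat.div_le_div_left h hv)

lemma GS_dom_sorted {L : List ℕ} (hL : L.Pairwise (· ≤ ·)) (hL0 : ∀ v ∈ L, 0 < v) {W : List ℕ}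
    (hW : W.Pairwise (· ≤ ·)) (h : ∀ x, W.countP (· ≤ x) ≤ L.countP (· ≤ x)) :
    CLe (gs 1 * GS W) (gs 1 * GS L) := by
  induction L generalizing W with
  | nil =>
    obtain _ | ⟨w, W⟩ := W
    · exact CLe.rfl
    · simpa using h w
  | cons v L ih =>
    obtain _ | ⟨w, W⟩ := W
    · exact CLe.rfl.mul (one_cle_GS _)
    · rw [List.pairwise_cons] at hL hW
      have hvw : v ≤ w := by
        by_contra hvw
        have h1 := h w
        have h2 : (v :: L).countP (· ≤ w) = 0 := by
          rw [List.countP_eq_zero]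
          intro a ha
          rcases List.mem_cons.1 ha with rfl | ha
          · simpa using hvw
          · have := hL.1 a ha
            simp only [decide_eq_true_eq]
            omega
        rw [h2] at h1
        simp at h1
      have h3 := ih hL.2 (fun a ha => hL0 a (List.mem_cons_of_mem _ ha)) hW.2 fun x => by
        by_cases hx : w ≤ x
        · have h1 := h x
          have h4 : v ≤ x := hvw.trans hx
          simpa [List.countP_cons, hx, h4] using h1
        · have h2 : W.countP (· ≤ x) = 0 := by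
            rw [List.countP_eq_zero]
            intro a ha
            have := hW.1 a ha
            simp only [decide_eq_true_eq]
            omega
          omega
      rw [GS_cons, GS_cons, mul_left_comm]
      refine (CLe.rfl.mul h3).trans ?_
      rw [mul_left_comm, ← mul_assoc, ← mul_assoc]
      exact (gs_dom (hL0 v List.mem_cons_self) hvw).mul CLe.rfl

lemma GS_dom {L : List ℕ} (hL : L.Pairwise (· ≤ ·)) (hL0 : ∀ v ∈ L, 0 < v) {W : List ℕ}
    (h : ∀ x, W.countP (· ≤ x) ≤ L.countP (· ≤ x)) : CLe (gs 1 * GS W) (gs 1 * GS L) := by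
  have hp := List.perm_insertionSort (· ≤ ·) W
  rw [← GS_perm hp]
  exact GS_dom_sorted hL hL0 (List.pairwise_insertionSort _ W) fun x => by
    rw [hp.countP_eq]; exact h x

/-- The basic majorant: the weights in `A` are known, the others are dominated by `L`. -/
lemma mon_le_maj {A W' W L : List ℕ} (hp : W.Perm (A ++ W')) (hL : L.Pairwise (· ≤ ·))
    (hL0 : ∀ v ∈ L, 0 < v) (h : ∀ x, W'.countP (· ≤ x) ≤ L.countP (· ≤ x)) (m : ℕ) :
    mon W m + mon (1 :: A.tail) m ≤ mon A m + mon (1 :: A.tail ++ L) m := by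
  have h1 : CLe (GS A) (GS (1 :: A.tail)) := by
    obtain _ | ⟨a, A⟩ := A
    · exact one_cle_GS _
    · rw [GS_cons, GS_cons]; exact (gs_cle_one a).mul CLe.rfl
  have h2 : CLe (GS (1 :: A.tail) * GS W') (GS (1 :: A.tail ++ L)) := by
    rw [GS_append, GS_cons, mul_right_comm, mul_right_comm _ _ (GS L)]
    exact (GS_dom hL hL0 h).mul CLe.rfl
  obtain ⟨E, hE⟩ := h1.exists_add
  obtain ⟨Γ, hΓ⟩ := (one_cle_GS W').exists_add
  have h3 := h2 m
  simp only [← coeff_GS]
  rw [GS_perm hp, GS_append]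
  rw [hE, hΓ] at h3
  rw [hΓ]
  nth_rewrite 1 [hE]
  simp only [mul_add, add_mul, mul_one, map_add] at h3 ⊢
  omega

/-- The list with `k` entries `w` for each pair `(w, k)`. -/
def expandL : List (ℕ × ℕ) → List ℕ
  | [] => []
  | p :: P => List.replicate p.2 p.1 ++ expandL P

/-- The truncated geometric series evaluated at `b`. -/
def gnum (b M w : ℕ) : ℕ := ((b ^ w) ^ (M / w + 1) - 1) / (b ^ w - 1)

/-- The truncated generating series evaluated at `b`. -/
def knum (b M : ℕ) : List (ℕ × ℕ) → ℕ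
  | [] => 1
  | p :: P => (gnum b M p.1 ^ p.2 % b ^ (M + 1) * knum b M P) % b ^ (M + 1)

/-- A bound for the coefficients. -/
def kbound (M : ℕ) : List (ℕ × ℕ) → ℕ
  | [] => 1
  | p :: P => (M / p.1 + 1) ^ p.2 * kbound M P

/-- The digit of index `m` in base `b`. -/
def dig (b x m : ℕ) : ℕ := x / b ^ m % b

lemma dig_sum {b : ℕ} (f : ℕ → ℕ) (hf : ∀ i, f i < b) {n m : ℕ} (hm : m < n) :
    dig b (∑ i ∈ Finset.range n, f i * b ^ i) m = f m := by
  induction m generalizing f n with
  | zero =>
    obtain ⟨n, rfl⟩ : ∃ n', n = n' + 1 := ⟨n - 1, by omega⟩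
    rw [Finset.sum_range_succ', dig]
    simp only [pow_succ, ← mul_assoc, ← Finset.sum_mul, pow_zero, Nat.div_one, mul_one]
    rw [Nat.mul_add_mod', Nat.mod_eq_of_lt (hf 0)]
  | succ m ih =>
    obtain ⟨n, rfl⟩ : ∃ n', n = n' + 1 := ⟨n - 1, by omega⟩
    have hb : 0 < b := lt_of_le_of_lt (Nat.zero_le _) (hf 0)
    rw [← ih (fun i => f (i + 1)) (fun i => hf _) (n := n) (by omega), Finset.sum_range_succ', dig,
      dig]
    simp only [pow_succ, ← mul_assoc, ← Finset.sum_mul, pow_zero, mul_one]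
    rw [mul_comm (b ^ m) b, ← Nat.div_div_eq_div_mul, add_comm, Nat.add_mul_div_right _ _ hb,
      Nat.div_eq_of_lt (hf 0), zero_add]

lemma dig_congr {b x y M m : ℕ} (h : x ≡ y [MOD b ^ (M + 1)]) (hm : m ≤ M) :
    dig b x m = dig b y m := by
  have h1 : x ≡ y [MOD b ^ m * b] := h.of_dvd (by rw [← pow_succ]; exact pow_dvd_pow _ (by omega))
  rw [dig, dig, ← Nat.mod_mul_right_div_self, ← Nat.mod_mul_right_div_self, h1]

/-- The truncated geometric series. -/
noncomputable def gpol (M w : ℕ) : Polynomial ℕ :=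
  ∑ j ∈ Finset.range (M / w + 1), (Polynomial.X ^ w) ^ j

lemma coeff_gpol {M w m : ℕ} (hw : 0 < w) (hm : m ≤ M) :
    (gpol M w).coeff m = coeff m (gs w) := by
  simp only [gpol, ← pow_mul, Polynomial.finsetSum_coeff, Polynomial.coeff_X_pow, gs, coeff_mk]
  split_ifs with h
  · obtain ⟨j, rfl⟩ := h
    rw [Finset.sum_eq_single j]
    · simp
    · exact fun i _ hi => if_neg fun h => hi (Nat.eq_of_mul_eq_mul_left hw h).symm
    · intro hj
      refine absurd (Finset.mem_range.2 (Nat.lt_succ_of_le ?_)) hj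
      exact (Nat.le_div_iff_mul_le hw).2 (by rwa [mul_comm])
  · exact Finset.sum_eq_zero fun i _ => if_neg fun h' => h ⟨i, h'⟩

lemma coeff_gpol_prod {M : ℕ} {W : List ℕ} (hW : ∀ w ∈ W, 0 < w) {m : ℕ} (hm : m ≤ M) :
    (W.map (gpol M)).prod.coeff m = coeff m (GS W) := by
  induction W generalizing m with
  | nil => simp [GS, coeff_one, Polynomial.coeff_one]
  | cons w W ih =>
    rw [GS_cons, List.map_cons, List.prod_cons, coeff_mul, Polynomial.coeff_mul]
    refine Finset.sum_congr rfl fun p hp => ?_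
    have : p.1 + p.2 = m := by simpa using hp
    rw [coeff_gpol (hW w List.mem_cons_self) (by omega),
      ih (fun v hv => hW v (List.mem_cons_of_mem _ hv)) (by omega)]

lemma dig_eval {b : ℕ} (p : Polynomial ℕ) (h : p.eval 1 < b) (m : ℕ) :
    dig b (p.eval b) m = p.coeff m := by
  have h1 : ∀ i, p.coeff i < b := fun i => by
    refine lt_of_le_of_lt ?_ h
    rw [Polynomial.eval_eq_sum_range' (n := p.natDegree + i + 1) (by omega)]
    simp only [one_pow, mul_one]
    exact Finset.single_le_sum (f := fun j => p.coeff j) (fun _ _ => Nat.zero_le _)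
      (Finset.mem_range.2 (by omega))
  rw [Polynomial.eval_eq_sum_range' (n := p.natDegree + m + 1) (by omega)]
  exact dig_sum _ h1 (by omega)

lemma eval_gpol_one (M w : ℕ) : (gpol M w).eval 1 = M / w + 1 := by
  simp [gpol, Polynomial.eval_finsetSum]

lemma eval_gpol {b : ℕ} (hb : 2 ≤ b) (M : ℕ) {w : ℕ} (hw : 0 < w) :
    (gpol M w).eval b = gnum b M w := by
  simp only [gpol, Polynomial.eval_finsetSum, Polynomial.eval_pow, Polynomial.eval_X, gnum]
  exact Nat.geomSum_eq (hb.trans (Nat.le_self_pow hw.ne' b)) _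

lemma mem_expandL {P : List (ℕ × ℕ)} {w : ℕ} (h : w ∈ expandL P) : ∃ p ∈ P, p.1 = w := by
  induction P with
  | nil => simp [expandL] at h
  | cons p P ih =>
    rcases List.mem_append.1 h with h | h
    · exact ⟨p, List.mem_cons_self, (List.eq_of_mem_replicate h).symm⟩
    · obtain ⟨q, hq, rfl⟩ := ih h
      exact ⟨q, List.mem_cons_of_mem _ hq, rfl⟩

theorem dig_knum {b M : ℕ} (hb : 2 ≤ b) {P : List (ℕ × ℕ)} (hP : ∀ p ∈ P, 0 < p.1)
    (hk : kbound M P < b) {m : ℕ} (hm : m ≤ M) : dig b (knum b M P) m = mon (expandL P) m := by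
  have h1 : ((expandL P).map (gpol M)).prod.eval 1 = kbound M P := by
    clear hk hP
    induction P with
    | nil => simp [expandL, kbound]
    | cons p P ih => simp [expandL, kbound, ih, eval_gpol_one]
  have h2 : knum b M P ≡ ((expandL P).map (gpol M)).prod.eval b [MOD b ^ (M + 1)] := by
    clear hk h1
    induction P with
    | nil => simp [expandL, knum, Nat.ModEq]
    | cons p P ih =>
      simp only [expandL, knum, List.map_append, List.map_replicate, List.prod_append,
        List.prod_replicate, Polynomial.eval_mul, Polynomial.eval_pow,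
        eval_gpol hb M (hP p List.mem_cons_self)]
      exact (Nat.mod_modEq _ _).trans ((Nat.mod_modEq _ _).mul
        (ih fun q hq => hP q (List.mem_cons_of_mem _ hq)))
  rw [dig_congr h2 hm, dig_eval _ (h1 ▸ hk), coeff_gpol_prod _ hm, coeff_GS]
  intro w hw
  obtain ⟨p, hp, rfl⟩ := mem_expandL hw
  exact hP p hp

end Pool.Agent.Lib.MP_954e53_ag
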