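import Pool.Agent.Lib.MP_954e53_ag.NumPoly
import Pool.Agent.Lib.MP_954e53_ag.NumMaj

/-! A verified checker for certificates of divided difference type. -/

namespace Pool.Agent.Lib.MP_954e53_ag

/-- The absolute value of the node part of the denominator. -/
def adn (r m : ℕ) : List ℕ → ℕ
  | [] => 1
  | k :: T => (bif Nat.blt k m then (m - k) * (m + k + r) else
      bif Nat.blt m k then (k - m) * (m + k + r) else 1) * adn r m T

/-- The sign of the node part of the denominator. -/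
def sg (m : ℕ) : List ℕ → Bool
  | [] => true
  | k :: T => bif Nat.blt m k then !(sg m T) else sg m T

lemma adn_pos {r : ℕ} (hr : 1 ≤ r) (m : ℕ) (T : List ℕ) : 0 < adn r m T := by
  induction T with
  | nil => exact Nat.one_pos
  | cons k T ih =>
    rw [adn]
    refine Nat.mul_pos ?_ ih
    simp only [Bool.cond_eq_ite, Nat.blt_eq]
    split_ifs
    · exact Nat.mul_pos (by omega) (by omega)
    · exact Nat.mul_pos (by omega) (by omega)
    · exact Nat.one_pos

lemma prod_eq_adn (r m : ℕ) {T : List ℕ} (hT : T.Nodup) :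
    ∏ k ∈ T.toFinset.erase m, (((m : ℚ) - k) * (m + k + r)) =
      (if sg m T then 1 else -1) * adn r m T := by
  induction T with
  | nil => simp [sg, adn]
  | cons k T ih =>
    rw [List.nodup_cons] at hT
    have hk : k ∉ T.toFinset := by simpa using hT.1
    rw [List.toFinset_cons, adn, sg]
    simp only [Bool.cond_eq_ite, Nat.blt_eq]
    rcases lt_trichotomy k m with h | rfl | h
    · rw [Finset.erase_insert_of_ne h.ne, Finset.prod_insert fun h' => hk (Finset.mem_of_mem_erase h'),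
        ih hT.2, if_pos h, if_neg h.not_gt]
      push_cast [h.le]
      ring
    · rw [Finset.erase_insert hk, ← Finset.erase_eq_of_notMem hk, ih hT.2]
      simp
    · rw [Finset.erase_insert_of_ne h.ne', Finset.prod_insert fun h' => hk (Finset.mem_of_mem_erase h'),
        ih hT.2, if_neg h.not_gt, if_pos h, if_pos h]
      push_cast [h.le]
      cases sg m T <;> simp <;> ring

/-- Upper sums. -/
def sumU (SS : ℕ) (s : Bool) (d r : ℕ) (up : ℕ → ℕ) (T₀ : List ℕ) : List ℕ → ℕ
  | [] => 0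
  | m :: T => (bif sg m T₀ == s then up m * SS / (pre d r m * adn r m T₀) + 1 else 0) +
      sumU SS s d r up T₀ T

/-- Lower sums. -/
def sumL (SS : ℕ) (s : Bool) (d r : ℕ) (lo : ℕ → ℕ) (T₀ : List ℕ) : List ℕ → ℕ
  | [] => 0
  | m :: T => (bif Nat.blt 0 (lo m) && sg m T₀ == s then lo m * SS / (pre d r m * adn r m T₀)
      else 0) + sumL SS s d r lo T₀ T

/-- Exact sums. -/
noncomputable def sumE (s : Bool) (d r : ℕ) (H : ℕ → ℕ) (T₀ T : List ℕ) : ℚ :=
  (T.map fun m => if sg m T₀ = s then (H m : ℚ) / (pre d r m * adn r m T₀ : ℕ) else 0).sum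

lemma pre_pos {r : ℕ} (hr : 1 ≤ r) (d m : ℕ) : 0 < pre d r m :=
  Nat.mul_pos (Nat.ascFactorial_pos _ _) (by split_ifs <;> omega)

lemma sumE_le {r : ℕ} (hr : 1 ≤ r) (SS : ℕ) (s : Bool) (d : ℕ) {H up : ℕ → ℕ} (T₀ : List ℕ) {T : List ℕ}
    (h : ∀ m ∈ T, H m ≤ up m) : sumE s d r H T₀ T * SS ≤ sumU SS s d r up T₀ T := by
  induction T with
  | nil => simp [sumE, sumU]
  | cons m T ih =>
    have ih' := ih fun a ha => h a (List.mem_cons_of_mem _ ha)
    rw [sumE] at ih' ⊢
    rw [List.map_cons, List.sum_cons, sumU, add_mul, Nat.cast_add]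
    refine add_le_add ?_ ih'
    simp only [Bool.cond_eq_ite, beq_iff_eq]
    split_ifs
    · have h1 : 0 < pre d r m * adn r m T₀ := Nat.mul_pos (pre_pos hr d m) (adn_pos hr m T₀)
      rw [div_mul_eq_mul_div, div_le_iff₀ (by exact_mod_cast h1)]
      have h2 := Nat.lt_mul_div_succ (up m * SS) h1
      have h3 := Nat.mul_le_mul_right SS (h m List.mem_cons_self)
      rw [mul_comm _ (_ + 1)] at h2
      exact_mod_cast h3.trans h2.le
    · simp

lemma le_sumE {r : ℕ} (hr : 1 ≤ r) (SS : ℕ) (s : Bool) (d : ℕ) {H lo : ℕ → ℕ} (T₀ : List ℕ) {T : List ℕ}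
    (h : ∀ m ∈ T, lo m ≤ H m) : (sumL SS s d r lo T₀ T : ℚ) ≤ sumE s d r H T₀ T * SS := by
  induction T with
  | nil => simp [sumE, sumL]
  | cons m T ih =>
    have ih' := ih fun a ha => h a (List.mem_cons_of_mem _ ha)
    rw [sumE] at ih' ⊢
    rw [List.map_cons, List.sum_cons, sumL, add_mul, Nat.cast_add]
    refine add_le_add ?_ ih'
    simp only [Bool.cond_eq_ite, beq_iff_eq, Bool.and_eq_true]
    split_ifs with h1 h2
    · have h1 : 0 < pre d r m * adn r m T₀ := Nat.mul_pos (pre_pos hr d m) (adn_pos hr m T₀)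
      rw [div_mul_eq_mul_div, le_div_iff₀ (by exact_mod_cast h1)]
      have h2 := Nat.div_mul_le_self (lo m * SS) (pre d r m * adn r m T₀)
      have h3 := Nat.mul_le_mul_right SS (h m List.mem_cons_self)
      exact_mod_cast h2.trans h3
    · exact absurd h1.2 h2
    · positivity
    · simp

/-- The check of one certificate: a sign and a list of nodes. -/
def chk (SS d r : ℕ) (up lo : ℕ → ℕ) (s : Bool) (T : List ℕ) : Bool :=
  Nat.ble ((d - r) / 2 + 1) T.length && decide (T.Pairwise (· < ·)) && T.all (Nat.ble · 127) &&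
    bif T.length == (d - r) / 2 + 1 then
      s && Nat.blt (sumU SS s d r up T T) (sumL SS (!s) d r lo T T + SS / leadDen d r)
    else Nat.blt (sumU SS s d r up T T) (sumL SS (!s) d r lo T T)

variable {c d r : ℕ} {W : List ℕ} {H : ℕ → ℕ} {h : Polynomial ℤ}

theorem chk_sound (D : Data c d r W H h) (hr : 1 ≤ r) {up lo : ℕ → ℕ}
    (hup : ∀ m, m ≤ 127 → H m ≤ up m) (hlo : ∀ m, lo m ≤ H m) {s : Bool} {T : List ℕ}
    {SS : ℕ} (hc : chk SS d r up lo s T = true) : False := by
  simp only [chk, Bool.and_eq_true, Nat.ble_eq, decide_eq_true_eq, List.all_eq_true,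
    Bool.cond_eq_ite, beq_iff_eq] at hc
  obtain ⟨⟨⟨h1, h2⟩, h3⟩, h4⟩ := hc
  have hT : T.Nodup := h2.imp fun h => h.ne
  have h5 := div_diff D hr T.toFinset (by rwa [List.toFinset_card_of_nodup hT])
  have h6 : ∑ m ∈ T.toFinset, (H m : ℚ) /
      (pre d r m * ∏ k ∈ T.toFinset.erase m, (((m : ℚ) - k) * (m + k + r))) =
        sumE true d r H T T - sumE false d r H T T := by
    rw [List.sum_toFinset _ hT, sumE, sumE, sub_eq_add_neg, List.sum_neg, List.map_map,
      ← List.sum_map_add]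
    congr 1
    refine List.map_congr_left fun m _ => ?_
    rw [prod_eq_adn r m hT]
    cases hs : sg m T <;> simp [hs, div_neg]
  have h7 := sumE_le hr SS s d T (T := T) fun m hm => hup m (h3 m hm)
  have h8 := le_sumE hr SS (!s) d T (T := T) fun m _ => hlo m
  have hS : (0 : ℚ) ≤ SS := SS.cast_nonneg
  rw [h6, List.toFinset_card_of_nodup hT] at h5
  split_ifs at h4 h5
  · simp only [Bool.and_eq_true, Nat.blt_eq] at h4
    obtain ⟨rfl, h4⟩ := h4
    have h9 : 0 < leadDen d r := Nat.mul_pos (Nat.factorial_pos _) (by split_ifs <;> omega)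
    have h10 : ((SS / leadDen d r : ℕ) : ℚ) ≤ ((h.eval 1 : ℤ) : ℚ) / leadDen d r * SS := by
      refine Nat.cast_div_le.trans ?_
      have h11 : (1 : ℚ) ≤ (h.eval 1 : ℤ) := by exact_mod_cast D.hpos
      rw [div_mul_eq_mul_div]
      gcongr
      exact le_mul_of_one_le_left hS h11
    have h11 : (sumU SS true d r up T T : ℚ) < sumL SS (!true) d r lo T T + (SS / leadDen d r : ℕ) := by
      exact_mod_cast h4
    rw [← h5, sub_mul] at h10
    rw [Bool.not_true] at h8 h11
    linarith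
  · rw [Nat.blt_eq] at h4
    have h11 : (sumU SS s d r up T T : ℚ) < sumL SS (!s) d r lo T T := by exact_mod_cast h4
    rw [sub_eq_zero] at h5
    cases s
    · rw [Bool.not_false] at h8 h11
      rw [h5] at h8
      linarith
    · rw [Bool.not_true] at h8 h11
      rw [h5] at h7
      linarith

/-- The known weights. -/
def PA (a b : ℕ) : List (ℕ × ℕ) := [(2, a), (3, b)]

/-- The known weights with the smallest one replaced by one. -/
def PT (a b : ℕ) : List (ℕ × ℕ) :=
  bif Nat.blt 0 a then [(1, 1), (2, a - 1), (3, b)] else [(1, 1), (3, b - 1)]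

/-- The dominating weights. -/
def PL (u₂ u₃ u₄ u₆ R : ℕ) : List (ℕ × ℕ) :=
  [(2, min u₂ R), (3, min u₃ R - min u₂ R), (4, min u₄ R - min u₃ R), (5, min u₆ R - min u₄ R),
    (7, R - min u₆ R)]

/-- The majorant in terms of three numbers. -/
def upF (BB x y z m : ℕ) : ℕ := dig BB x m + dig BB y m - dig BB z m

/-- The majorant. -/
def maj (BB a b u₂ u₃ u₄ u₆ R : ℕ) : ℕ → ℕ :=
  upF BB (knum BB 127 (PA a b)) (knum BB 127 (PT a b ++ PL u₂ u₃ u₄ u₆ R)) (knum BB 127 (PT a b))

/-- The base is large enough. -/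
def majOK (BB a b u₂ u₃ u₄ u₆ R : ℕ) : Bool :=
  Nat.blt (kbound 127 (PA a b)) BB && Nat.blt (kbound 127 (PT a b ++ PL u₂ u₃ u₄ u₆ R)) BB &&
    Nat.blt (kbound 127 (PT a b)) BB && Nat.ble 2 BB

lemma expandL_append (P Q : List (ℕ × ℕ)) : expandL (P ++ Q) = expandL P ++ expandL Q := by
  induction P with
  | nil => rfl
  | cons p P ih => simp [expandL, ih]

lemma expandL_PT (a b : ℕ) : expandL (PT a b) = 1 :: (expandL (PA a b)).tail := by
  obtain _ | a := a
  · obtain _ | b := b <;> simp [PT, PA, expandL, Nat.blt, Nat.ble, List.replicate_succ]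
  · simp [PT, PA, expandL, Nat.blt, Nat.ble, List.replicate_succ]

lemma le_maj {BB a b u₂ u₃ u₄ u₆ R : ℕ} {W W' : List ℕ} (hp : W.Perm (expandL (PA a b) ++ W'))
    (h1 : ∀ w ∈ W', 2 ≤ w) (h2 : W'.countP (· ≤ 2) ≤ u₂) (h3 : W'.countP (· ≤ 3) ≤ u₃)
    (h4 : W'.countP (· ≤ 4) ≤ u₄) (h6 : W'.countP (· ≤ 6) ≤ u₆) (hR : W'.length ≤ R)
    (h23 : u₂ ≤ u₃) (h34 : u₃ ≤ u₄) (h46 : u₄ ≤ u₆)
    (hok : majOK BB a b u₂ u₃ u₄ u₆ R = true) {m : ℕ} (hm : m ≤ 127) :
    mon W m ≤ maj BB a b u₂ u₃ u₄ u₆ R m := by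
  simp only [majOK, Bool.and_eq_true, Nat.blt_eq, Nat.ble_eq] at hok
  obtain ⟨hok, hb⟩ := hok
  have hPT : ∀ p ∈ PT a b, 0 < p.1 := by
    unfold PT
    cases Nat.blt 0 a <;> simp
  have hPL : ∀ p ∈ PL u₂ u₃ u₄ u₆ R, 0 < p.1 := by simp [PL]
  rw [maj, upF, dig_knum hb (by simp [PA]) hok.1.1 hm, dig_knum hb hPT hok.2 hm,
    dig_knum hb (fun p hp => (List.mem_append.1 hp).elim (hPT p) (hPL p)) hok.1.2 hm,
    expandL_append, expandL_PT]
  refine Nat.le_sub_of_add_le (mon_le_maj hp ?_ (fun v hv => ?_) (fun x => ?_) m)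
  · simp only [PL, expandL, List.append_nil, List.pairwise_append, List.pairwise_replicate,
      List.mem_append, List.mem_replicate]
    refine ⟨by simp, ⟨by simp, ⟨by simp, ⟨by simp, by simp, ?_⟩, ?_⟩, ?_⟩, ?_⟩ <;>
      intro a ha b hb <;> omega
  · obtain ⟨p, hp, rfl⟩ := mem_expandL hv
    exact hPL p hp
  · have hmono : ∀ y, x ≤ y → W'.countP (· ≤ x) ≤ W'.countP (· ≤ y) := fun y hy =>
      List.countP_mono_left fun w _ hw => by
        simp only [decide_eq_true_eq] at hw ⊢
        omega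
    have hlen : W'.countP (· ≤ x) ≤ R := List.countP_le_length.trans hR
    simp only [PL, expandL, List.append_nil, List.countP_append, List.countP_replicate,
      decide_eq_true_eq]
    by_cases hx : x < 2
    · have : W'.countP (· ≤ x) = 0 := List.countP_eq_zero.2 fun w hw => by
        have := h1 w hw
        simp only [decide_eq_true_eq]
        omega
      omega
    · have m2 := hmono 2
      have m3 := hmono 3
      have m4 := hmono 4
      have m6 := hmono 6
      split_ifs <;> omega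

end Pool.Agent.Lib.MP_954e53_ag
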