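import Pool.Agent.Lib.MP_954e53_ag.Main

/-! The divided difference identity for a symmetric Hilbert polynomial. -/

namespace Pool.Agent.Lib.MP_954e53_ag

open Polynomial

lemma sym_decomp {r : ℚ} (hr : r ≠ 0) {g : ℚ[X]} {ε : ℚ} (hg0 : g.eval 0 ≠ 0)
    (hg1 : g.natDegree ≤ 1) (hg : g.comp (-C r - X) = C ε * g) (R : ℚ[X])
    (hR : R.comp (-C r - X) = C ε * R) : ∃ Q : ℚ[X], R = g * Q.comp (X * (X + C r)) := by
  induction hn : R.natDegree using Nat.strong_induction_on generalizing R with
  | _ n ih =>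
    set a := R.eval 0 / g.eval 0 with ha
    have h0 : (R - C a * g).eval 0 = 0 := by simp [ha, hg0]
    have h1 : (R - C a * g).comp (-C r - X) = C ε * (R - C a * g) := by
      rw [sub_comp, mul_comp, hR, hg, C_comp]; ring
    have h2 : (R - C a * g).eval (-r) = 0 := by
      have := congrArg (eval 0) h1
      rw [eval_comp, eval_mul, h0] at this
      simpa using this
    obtain ⟨R₀, hR₀⟩ := (dvd_iff_isRoot (a := 0)).2 h0
    have h3 : R₀.eval (-r) = 0 := by
      rw [hR₀] at h2
      simpa [hr] using h2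
    obtain ⟨R₁, hR₁⟩ := (dvd_iff_isRoot (a := -r)).2 h3
    have h4 : R - C a * g = X * (X + C r) * R₁ := by rw [hR₀, hR₁]; simp [mul_assoc]
    have hY : (X * (X + C r) : ℚ[X]) ≠ 0 := mul_ne_zero X_ne_zero (X_add_C_ne_zero r)
    by_cases hz : R₁ = 0
    · refine ⟨C a, ?_⟩
      rw [hz, mul_zero, sub_eq_zero] at h4
      rw [h4, C_comp, mul_comm]
    · have h5 : (X * (X + C r) * R₁).natDegree = 2 + R₁.natDegree := by
        rw [natDegree_mul hY hz, natDegree_mul X_ne_zero (X_add_C_ne_zero r), natDegree_X,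
          natDegree_X_add_C]
      have h6 : (R - C a * g).natDegree ≤ max R.natDegree 1 :=
        (natDegree_sub_le _ _).trans (max_le_max le_rfl ((natDegree_C_mul_le _ _).trans hg1))
      rw [h4, h5] at h6
      obtain ⟨Q, hQ⟩ := ih R₁.natDegree (by omega) R₁ (mul_left_cancel₀ hY (by
        rw [h4] at h1
        simp only [mul_comp, X_comp, add_comp, C_comp] at h1
        linear_combination h1)) rfl
      refine ⟨X * Q + C a, ?_⟩
      rw [add_comp, mul_comp, X_comp, C_comp]
      rw [hQ] at h4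
      linear_combination h4

/-- The basic monic polynomials of degree `e`. -/
noncomputable def trm (r e i : ℕ) : ℚ[X] :=
  (∏ j ∈ Finset.range i, (X - C (j : ℚ))) * ∏ j ∈ Finset.range (e - i), (X + C ((r : ℚ) + j))

lemma trm_monic (r e i : ℕ) : (trm r e i).Monic :=
  (monic_prod_of_monic _ _ fun _ _ => monic_X_sub_C _).mul
    (monic_prod_of_monic _ _ fun _ _ => monic_X_add_C _)

lemma trm_natDegree (r : ℕ) {e i : ℕ} (h : i ≤ e) : (trm r e i).natDegree = e := by
  rw [trm, (monic_prod_of_monic _ _ fun _ _ => monic_X_sub_C _).natDegree_mul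
    (monic_prod_of_monic _ _ fun _ _ => monic_X_add_C _),
    natDegree_prod_of_monic _ _ fun _ _ => monic_X_sub_C _,
    natDegree_prod_of_monic _ _ fun _ _ => monic_X_add_C _]
  simp only [natDegree_X_sub_C, natDegree_X_add_C, Finset.sum_const, Finset.card_range, smul_eq_mul]
  omega

lemma trm_comp (r : ℕ) {e i : ℕ} (h : i ≤ e) :
    (trm r e i).comp (-C (r : ℚ) - X) = C ((-1) ^ e) * trm r e (e - i) := by
  obtain ⟨u, rfl⟩ := Nat.exists_eq_add_of_le h
  have h1 : ∀ j : ℕ, (X - C (j : ℚ)).comp (-C (r : ℚ) - X) = -1 * (X + C ((r : ℚ) + j)) := by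
    intro j; simp only [sub_comp, X_comp, C_comp, map_add]; ring
  have h2 : ∀ j : ℕ, (X + C ((r : ℚ) + j)).comp (-C (r : ℚ) - X) = -1 * (X - C (j : ℚ)) := by
    intro j; simp only [add_comp, X_comp, C_comp, map_add]; ring
  simp only [trm, mul_comp, prod_comp, h1, h2, Finset.prod_mul_distrib, Finset.prod_const,
    Finset.card_range, Nat.add_sub_cancel_left, Nat.add_sub_cancel, map_pow, map_neg, map_one]
  ring

lemma trm_eval (r e i m : ℕ) :
    (trm r e i).eval (m : ℚ) = (m.descFactorial i * (m + r).ascFactorial (e - i) : ℕ) := by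
  have h1 : ∏ j ∈ Finset.range i, ((m : ℚ) - j) = m.descFactorial i := by
    induction i with
    | zero => simp
    | succ i ih =>
      rw [Finset.prod_range_succ, ih, Nat.descFactorial_succ]
      by_cases h : i ≤ m
      · push_cast [h]; ring
      · simp [Nat.descFactorial_of_lt (not_le.1 h)]
  simp only [trm, eval_mul, eval_prod, eval_sub, eval_add, eval_X, eval_C, h1,
    Nat.ascFactorial_eq_prod_range]
  push_cast
  simp only [add_assoc]

lemma fact_id (i u r v : ℕ) : (i + u + 1).ascFactorial r *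
    ((i + u).descFactorial i * (i + u + (r + 1)).ascFactorial v) =
      (i + v + r).factorial * (i + v + r + u).choose (i + v + r) := by
  have h1 := Nat.factorial_mul_descFactorial (Nat.le_add_right i u)
  have h2 := Nat.factorial_mul_ascFactorial (i + u) r
  have h3 := Nat.factorial_mul_ascFactorial (i + u + r) v
  have h4 := Nat.add_choose_mul_factorial_mul_factorial u (i + v + r)
  rw [Nat.add_sub_cancel_left] at h1
  refine Nat.eq_of_mul_eq_mul_left (Nat.factorial_pos u) ?_
  rw [show i + u + r + v = u + (i + v + r) by ring, ← h4, ← h2, ← h1] at h3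
  rw [add_comm (i + v + r) u, ← add_assoc (i + u) r 1]
  linarith

/-- The reduced Hilbert polynomial. -/
noncomputable def redP (r e : ℕ) (h : ℤ[X]) : ℚ[X] :=
  ∑ i ∈ Finset.range (e + 1), C (h.coeff i : ℚ) * trm r e i

variable {c d r : ℕ} {W : List ℕ} {H : ℕ → ℕ} {h : ℤ[X]}

lemma redP_eval (D : Data c d r W H h) (hr : 1 ≤ r) (m : ℕ) :
    ((m + 1).ascFactorial (r - 1) : ℚ) * (redP r (d - r) h).eval (m : ℚ) =
      (d - 1).factorial * H m := by
  obtain ⟨e, rfl⟩ := Nat.exists_eq_add_of_le D.hrd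
  obtain ⟨r, rfl⟩ : ∃ r', r = r' + 1 := ⟨r - 1, by omega⟩
  have hdeg := D.hdeg
  have h1 : (PowerSeries.mk fun m => (H m : ℤ)) =
      h * PowerSeries.mk fun n => ((e + r + n).choose (e + r) : ℤ) := by
    rw [← PowerSeries.mk_one_pow_eq_mk_choose_add, D.hh, show r + 1 + e = e + r + 1 by ring,
      mul_right_comm, ← mul_pow, mul_comm (1 - _), PowerSeries.mk_one_mul_one_sub_eq_one, one_pow,
      one_mul]
  have h2 := congrArg (PowerSeries.coeff m) h1
  rw [PowerSeries.coeff_mk, PowerSeries.coeff_mul,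
    Finset.Nat.sum_antidiagonal_eq_sum_range_succ_mk] at h2
  have h3 : (H m : ℚ) = ((H m : ℤ) : ℚ) := by simp
  rw [Nat.add_sub_cancel_left] at hdeg ⊢
  rw [h3, h2, redP, eval_finsetSum, show r + 1 + e - 1 = e + r by omega, Nat.add_sub_cancel]
  push_cast
  rw [Finset.mul_sum, Finset.mul_sum]
  refine Finset.sum_congr_of_eq_on_inter (fun i _ hi => ?_) (fun i _ hi => ?_) fun i hi hi' => ?_
  · rw [eval_mul, trm_eval, Nat.descFactorial_of_lt (by simpa using hi)]
    simp
  · rw [coeff_eq_zero_of_natDegree_lt (by simpa [hdeg] using hi)]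
    simp
  · obtain ⟨u, rfl⟩ := Nat.exists_eq_add_of_le (Nat.lt_succ_iff.1 (Finset.mem_range.1 hi'))
    obtain ⟨v, rfl⟩ := Nat.exists_eq_add_of_le (Nat.lt_succ_iff.1 (Finset.mem_range.1 hi))
    rw [eval_mul, eval_C, trm_eval, PowerSeries.coeff_mk,
      Nat.add_sub_cancel_left, Nat.add_sub_cancel_left]
    have h4 := congrArg (Nat.cast : ℕ → ℚ) (fact_id i u r v)
    push_cast at h4 ⊢
    linear_combination (h.coeff i : ℚ) * h4

lemma redP_comp (D : Data c d r W H h) :
    (redP r (d - r) h).comp (-C (r : ℚ) - X) = C ((-1) ^ (d - r)) * redP r (d - r) h := by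
  rw [redP, sum_comp, Finset.mul_sum, ← Finset.sum_flip]
  refine Finset.sum_congr rfl fun i hi => ?_
  have hi' := Nat.lt_succ_iff.1 (Finset.mem_range.1 hi)
  have h1 : h.coeff (d - r - i) = h.coeff i := by
    conv_rhs => rw [← D.hpal, coeff_reflect, revAt_le hi']
  rw [mul_comp, C_comp, trm_comp _ (Nat.sub_le _ _), Nat.sub_sub_self hi', h1]
  ring

lemma redP_deg (D : Data c d r W H h) : (redP r (d - r) h).natDegree = d - r ∧
    (redP r (d - r) h).leadingCoeff = (h.eval 1 : ℤ) := by
  have h1 : (redP r (d - r) h).natDegree ≤ d - r :=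
    natDegree_sum_le_of_forall_le _ _ fun i hi => (natDegree_C_mul_le _ _).trans
      (trm_natDegree r (Nat.lt_succ_iff.1 (Finset.mem_range.1 hi))).le
  have h2 : (redP r (d - r) h).coeff (d - r) = (h.eval 1 : ℤ) := by
    rw [redP, finsetSum_coeff, eval_eq_sum_range, D.hdeg]
    push_cast
    refine Finset.sum_congr rfl fun i hi => ?_
    have h3 := (trm_monic r (d - r) i).coeff_natDegree
    rw [trm_natDegree r (Nat.lt_succ_iff.1 (Finset.mem_range.1 hi))] at h3
    rw [coeff_C_mul, h3, one_pow]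
  have h3 : (redP r (d - r) h).natDegree = d - r :=
    natDegree_eq_of_le_of_coeff_ne_zero h1 (by rw [h2]; exact_mod_cast D.hpos.ne')
  exact ⟨h3, by rw [leadingCoeff, h3, h2]⟩

/-- The part of the denominator that does not depend on the nodes. -/
def pre (d r m : ℕ) : ℕ :=
  (m + 1).ascFactorial (r - 1) * (if (d - r) % 2 = 1 then 2 * m + r else 1)

/-- The denominator of the leading term. -/
def leadDen (d r : ℕ) : ℕ := (d - 1).factorial * (if (d - r) % 2 = 1 then 2 else 1)

theorem div_diff (D : Data c d r W H h) (hr : 1 ≤ r) (T : Finset ℕ)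
    (hT : (d - r) / 2 + 1 ≤ T.card) :
    ∑ m ∈ T, (H m : ℚ) / (pre d r m * ∏ k ∈ T.erase m, (((m : ℚ) - k) * (m + k + r))) =
      if T.card = (d - r) / 2 + 1 then ((h.eval 1 : ℤ) : ℚ) / leadDen d r else 0 := by
  have hr0 : (0 : ℚ) < r := by exact_mod_cast hr
  obtain ⟨hd, hl⟩ := redP_deg D
  have hδ : (0 : ℚ) < (h.eval 1 : ℤ) := by exact_mod_cast D.hpos
  set g : ℚ[X] := if (d - r) % 2 = 1 then C 2 * X + C (r : ℚ) else 1 with hg
  have hg1 : g.natDegree = (d - r) % 2 := by
    rw [hg]
    split_ifs with h1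
    · rw [natDegree_linear two_ne_zero, h1]
    · rw [natDegree_one]; omega
  have hg2 : g.leadingCoeff = if (d - r) % 2 = 1 then 2 else 1 := by
    rw [hg]
    split_ifs with h1
    · rw [leadingCoeff_linear two_ne_zero]
    · rw [leadingCoeff_one]
  have hg3 : ∀ m : ℕ, g.eval (m : ℚ) = (if (d - r) % 2 = 1 then 2 * m + r else 1 : ℕ) := by
    intro m
    rw [hg]
    split_ifs <;> simp
  have hg4 : ∀ m : ℕ, 0 < g.eval (m : ℚ) := by
    intro m
    rw [hg3]
    split_ifs
    · exact_mod_cast (by omega : 0 < 2 * m + r)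
    · simp
  obtain ⟨Q, hQ⟩ := sym_decomp hr0.ne' (g := g) (ε := (-1) ^ (d - r))
    (by simpa using (hg4 0).ne') (by omega) (by
      rw [hg]
      split_ifs with h1
      · rw [(Nat.odd_iff.2 h1).neg_one_pow]
        simp only [add_comp, mul_comp, C_comp, X_comp, map_neg, map_one]
        rw [map_ofNat]
        ring
      · rw [(Nat.even_iff.2 (by omega)).neg_one_pow]
        simp) _ (redP_comp D)
  have hY : (X * (X + C (r : ℚ))).Monic := monic_X.mul (monic_X_add_C _)
  have hY2 : (X * (X + C (r : ℚ))).natDegree = 2 := by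
    rw [monic_X.natDegree_mul (monic_X_add_C _), natDegree_X, natDegree_X_add_C]
  have h0 : redP r (d - r) h ≠ 0 := fun h0 => by
    rw [h0, leadingCoeff_zero] at hl
    exact hδ.ne hl
  rw [hQ] at h0 hd hl
  rw [natDegree_mul (left_ne_zero_of_mul h0) (right_ne_zero_of_mul h0), natDegree_comp, hY2,
    hg1] at hd
  rw [leadingCoeff_mul, leadingCoeff_comp (by omega), hY.leadingCoeff, one_pow, mul_one, hg2] at hl
  have hQd : Q.natDegree = (d - r) / 2 := by omega
  have hinj : Set.InjOn (fun m : ℕ => (m : ℚ) * (m + r)) T := fun a _ b _ hab => by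
    have h1 : ((a : ℚ) - b) * (a + b + r) = 0 := by
      simp only at hab
      linear_combination hab
    have h2 : (0 : ℚ) < a + b + r := by positivity
    exact_mod_cast sub_eq_zero.1 ((mul_eq_zero.1 h1).resolve_right h2.ne')
  have h5 := Lagrange.coeff_eq_sum hinj (P := Q)
    (degree_le_natDegree.trans_lt (by exact_mod_cast (by omega : Q.natDegree < T.card)))
  have hf : (0 : ℚ) < (d - 1).factorial := by exact_mod_cast Nat.factorial_pos _
  have h6 : ∑ m ∈ T, (H m : ℚ) / (pre d r m * ∏ k ∈ T.erase m, (((m : ℚ) - k) * (m + k + r))) =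
      Q.coeff (T.card - 1) / (d - 1).factorial := by
    rw [h5, Finset.sum_div]
    refine Finset.sum_congr rfl fun m _ => ?_
    have h7 := redP_eval D hr m
    have h8 : (0 : ℚ) < (m + 1).ascFactorial (r - 1) := by
      exact_mod_cast Nat.ascFactorial_pos _ _
    rw [hQ, eval_mul, eval_comp, eval_mul, eval_add, eval_X, eval_C] at h7
    have h9 : ∏ k ∈ T.erase m, (((m : ℚ) - k) * (m + k + r)) =
        ∏ k ∈ T.erase m, ((m : ℚ) * (m + r) - k * (k + r)) :=
      Finset.prod_congr rfl fun k _ => by ring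
    have h10 := hg4 m
    rw [h9, pre, Nat.cast_mul, ← hg3, div_mul_eq_div_div,
      div_right_comm _ _ ((d - 1).factorial : ℚ)]
    congr 1
    field_simp
    linear_combination -h7
  rw [h6]
  split_ifs with h1
  · rw [h1, Nat.add_sub_cancel, ← hQd, coeff_natDegree, ← hl, leadDen]
    push_cast
    split_ifs <;> field_simp
  · rw [coeff_eq_zero_of_natDegree_lt (by omega), zero_div]

end Pool.Agent.Lib.MP_954e53_ag
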