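import Pool.Agent.Lib.MP_954e53_ag.NumChk

/-! The case distinction on the number of generators of degrees two and three. -/

namespace Pool.Agent.Lib.MP_954e53_ag

/-- Lower bounds for the Hilbert function. -/
def lo2 (a b m : ℕ) : ℕ := bif m == 0 then 1 else bif m == 2 then a else bif m == 3 then b else 0

/-- The check when the numbers of generators of degrees two and three are known. -/
def ok2 (S B c d r a : ℕ) (C : List (Bool × List ℕ)) : Bool :=
  (List.range (c + 1)).all fun b => Nat.blt (d + c) (a + b) ||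
    (majOK B a b 0 0 (c - a) (2 * c - a) (d + c - a - b) &&
      chk S d r (maj B a b 0 0 (c - a) (2 * c - a) (d + c - a - b)) (lo2 a b)
        (C.getD b (true, [])).1 (C.getD b (true, [])).2)

/-- The check when the number of generators of degree two is known. -/
def ok1 (S B c d a : ℕ) (bad : List ℕ)
    (C : List (ℕ × (Bool × List ℕ) × List (Bool × List ℕ))) : Bool :=
  Nat.blt (d + c) a || (majOK B a 0 0 c (2 * c - a) (3 * c - a) (d + c - a) &&
    bad.all fun r => C.any fun e => e.1 == r &&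
      (chk S d r (maj B a 0 0 c (2 * c - a) (3 * c - a) (d + c - a)) (lo2 a 0) e.2.1.1 e.2.1.2 ||
        ok2 S B c d r a e.2.2))

/-- The check without case distinction. -/
def ok0 (S B c d : ℕ) (bad : List ℕ) (C : List (Bool × List ℕ)) : Bool :=
  majOK B 0 0 c (2 * c) (2 * c) (3 * c) (d + c) &&
    (List.range d).all fun i => bad.contains (i + 1) ||
      chk S d (i + 1) (maj B 0 0 c (2 * c) (2 * c) (3 * c) (d + c)) (lo2 0 0)
        (C.getD i (true, [])).1 (C.getD i (true, [])).2

/-- The whole check in dimension `d`. -/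
def okD (S B c d : ℕ) (bad : List ℕ) (C₀ : List (Bool × List ℕ))
    (C₁ : List (List (ℕ × (Bool × List ℕ) × List (Bool × List ℕ)))) : Bool :=
  ok0 S B c d bad C₀ &&
    (bad.isEmpty || (List.range (c + 1)).all fun a => ok1 S B c d a bad (C₁.getD a []))

lemma counts {W : List ℕ} (hW : ∀ w ∈ W, 2 ≤ w) :
    W.countP (· ≤ 2) = W.count 2 ∧ W.countP (· ≤ 3) = W.count 2 + W.count 3 ∧
    W.count 2 ≤ W.countP (2 ∣ ·) ∧ W.count 3 ≤ W.countP (3 ∣ ·) ∧
    W.countP (· ≤ 4) ≤ W.countP (2 ∣ ·) + W.count 3 ∧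
    W.countP (· ≤ 6) ≤ W.countP (2 ∣ ·) + W.count 3 + W.countP (5 ∣ ·) := by
  induction W with
  | nil => simp
  | cons w W ih =>
    have h1 := ih fun v hv => hW v (List.mem_cons_of_mem _ hv)
    have h2 := hW w List.mem_cons_self
    simp only [List.countP_cons, List.count_cons, decide_eq_true_eq, beq_iff_eq]
    split_ifs <;> omega

lemma exists_perm (W : List ℕ) (a : ℕ) : ∃ W', W.Perm (List.replicate (W.count a) a ++ W') :=
  ⟨W.filter fun x => !decide (x = a), by
    rw [← List.filter_eq]; exact (List.filter_append_perm _ W).symm⟩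

variable {c d r : ℕ} {W : List ℕ} {H : ℕ → ℕ} {h : Polynomial ℤ}

lemma lo2_le (D : Data c d r W H h) {a b : ℕ} (ha : a ≤ W.count 2) (hb : b ≤ W.count 3) (m : ℕ) :
    lo2 a b m ≤ H m := by
  simp only [lo2, Bool.cond_eq_ite, beq_iff_eq]
  split_ifs with h1 h2 h3
  · rw [h1, D.h0]
  · exact h2 ▸ ha.trans (D.hlow 2)
  · exact h3 ▸ hb.trans (D.hlow 3)
  · exact Nat.zero_le _

theorem okD_sound (D : Data c d r W H h) (hr : 1 ≤ r) {S B : ℕ} {bad : List ℕ}
    {C₀ : List (Bool × List ℕ)} {C₁ : List (List (ℕ × (Bool × List ℕ) × List (Bool × List ℕ)))}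
    (hok : okD S B c d bad C₀ C₁ = true) : False := by
  obtain ⟨c1, c2, c3, c4, c5, c6⟩ := counts D.hW
  have p2 := D.hp 2 (by norm_num)
  have p3 := D.hp 3 (by norm_num)
  have p5 := D.hp 5 (by norm_num)
  rw [← List.countP_eq_length_filter] at p2 p3 p5
  have hlen := D.hlen
  have hrd := D.hrd
  simp only [okD, ok0, Bool.and_eq_true, Bool.or_eq_true, List.all_eq_true, List.mem_range,
    List.contains_iff_mem, List.isEmpty_iff] at hok
  obtain ⟨⟨m0, h0⟩, h1⟩ := hok
  obtain ⟨i, rfl⟩ : ∃ i, r = i + 1 := ⟨r - 1, by omega⟩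
  rcases h0 i (by omega) with hbad | h0
  swap
  · refine chk_sound D hr (fun m hm => (D.hH m).trans (le_maj (W' := W) ?_ D.hW ?_ ?_ ?_ ?_ hlen
      ?_ ?_ ?_ m0 hm)) (lo2_le D (Nat.zero_le _) (Nat.zero_le _)) h0
    · simp [expandL, PA]
    all_goals omega
  obtain ⟨W₁, hW₁⟩ := exists_perm W 2
  have e1 : ∀ x, 2 ≤ x → W.countP (· ≤ x) = W.count 2 + W₁.countP (· ≤ x) := fun x hx => by
    rw [hW₁.countP_eq, List.countP_append, List.countP_replicate, if_pos (by simpa using hx)]
  have e2 : W.length = W.count 2 + W₁.length := by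
    rw [hW₁.length_eq, List.length_append, List.length_replicate]
  have e3 : ∀ w ∈ W₁, 2 ≤ w := fun w hw => D.hW w (hW₁.symm.subset (List.mem_append_right _ hw))
  have e4 : W.count 3 = W₁.count 3 := by
    rw [hW₁.count_eq, List.count_append, List.count_replicate]; simp
  have f2 := e1 2 le_rfl
  have f3 := e1 3 (by omega)
  have f4 := e1 4 (by omega)
  have f6 := e1 6 (by omega)
  have h2 := (h1.resolve_left fun h => by simp [h] at hbad) (W.count 2) (by omega)
  simp only [ok1, Bool.and_eq_true, Bool.or_eq_true, List.all_eq_true, List.any_eq_true,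
    Nat.blt_eq] at h2
  obtain ⟨m1, h2⟩ := h2.resolve_left (by omega)
  obtain ⟨e, -, -, h2 | h2⟩ := h2 _ hbad
  · refine chk_sound D hr (fun m hm => (D.hH m).trans (le_maj (W' := W₁) ?_ e3 ?_ ?_ ?_ ?_ ?_
      ?_ ?_ ?_ m1 hm)) (lo2_le D le_rfl (Nat.zero_le _)) h2
    · simpa [expandL, PA] using hW₁
    all_goals omega
  obtain ⟨W₂, hW₂⟩ := exists_perm W₁ 3
  have g1 : ∀ x, 3 ≤ x → W₁.countP (· ≤ x) = W₁.count 3 + W₂.countP (· ≤ x) := fun x hx => by
    rw [hW₂.countP_eq, List.countP_append, List.countP_replicate, if_pos (by simpa using hx)]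
  have g2 : W₁.length = W₁.count 3 + W₂.length := by
    rw [hW₂.length_eq, List.length_append, List.length_replicate]
  have g3 : ∀ w ∈ W₂, 2 ≤ w := fun w hw => e3 w (hW₂.symm.subset (List.mem_append_right _ hw))
  have g4 : W₂.countP (· ≤ 2) ≤ W₂.countP (· ≤ 3) := List.countP_mono_left fun w _ hw => by
    simp only [decide_eq_true_eq] at hw ⊢
    omega
  have k3 := g1 3 le_rfl
  have k4 := g1 4 (by omega)
  have k6 := g1 6 (by omega)
  simp only [ok2, Bool.and_eq_true, Bool.or_eq_true, List.all_eq_true, List.mem_range,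
    Nat.blt_eq] at h2
  obtain ⟨m2, h2⟩ := (h2 (W.count 3) (by omega)).resolve_left (by omega)
  refine chk_sound D hr (fun m hm => (D.hH m).trans (le_maj (W' := W₂) ?_ g3 ?_ ?_ ?_ ?_ ?_
    ?_ ?_ ?_ m2 hm)) (lo2_le D le_rfl le_rfl) h2
  · simp only [expandL, PA, List.append_nil, List.append_assoc]
    exact hW₁.trans ((e4 ▸ hW₂).append_left _)
  all_goals omega

end Pool.Agent.Lib.MP_954e53_ag
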