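import Pool.Agent.Lib.MP_954e53_ag.Defs
import Pool.Agent.Lib.MP_954e53_ag.Exch

/-! Reductions of the truncation ideals. -/

namespace Pool.Agent.Lib.MP_954e53_ag

open Module

variable {k S : Type*} [Field k] [CommRing S] [Algebra k S]
variable {𝒜 : ℕ → Submodule k S}

lemma mem_trunc {N n : ℕ} (h : N ≤ n) {x : S} (hx : x ∈ 𝒜 n) : x ∈ truncIdeal 𝒜 N :=
  Ideal.subset_span ⟨n, h, hx⟩

lemma trunc_le {N : ℕ} {J : Ideal S} (h : ∀ n, N ≤ n → ∀ x ∈ 𝒜 n, x ∈ J) : truncIdeal 𝒜 N ≤ J :=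
  Ideal.span_le.2 fun x ⟨n, hn, hx⟩ => h n hn x hx

lemma trunc_anti {a b : ℕ} (h : a ≤ b) : truncIdeal 𝒜 b ≤ truncIdeal 𝒜 a :=
  trunc_le fun _ hn _ hx => mem_trunc (h.trans hn) hx

variable [GradedAlgebra 𝒜]

lemma trunc_hom (N : ℕ) : (truncIdeal 𝒜 N).IsHomogeneous 𝒜 :=
  Ideal.homogeneous_span 𝒜 _ fun _ ⟨n, _, hx⟩ => ⟨n, hx⟩

lemma trunc_mul (a b : ℕ) : truncIdeal 𝒜 a * truncIdeal 𝒜 b ≤ truncIdeal 𝒜 (a + b) := by
  rw [truncIdeal, truncIdeal, Ideal.span_mul_span', Ideal.span_le]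
  rintro _ ⟨x, ⟨n, hn, hx⟩, y, ⟨m, hm, hy⟩, rfl⟩
  exact mem_trunc (Nat.add_le_add hn hm) (SetLike.mul_mem_graded hx hy)

lemma trunc_pow (N r : ℕ) : truncIdeal 𝒜 N ^ r ≤ truncIdeal 𝒜 (N * r) := by
  induction r with
  | zero =>
    rw [pow_zero, Ideal.one_eq_top, top_le_iff, Ideal.eq_top_iff_one]
    exact mem_trunc (n := 0) le_rfl SetLike.GradedOne.one_mem
  | succ r ih =>
    rw [pow_succ, Nat.mul_succ]
    exact (Ideal.mul_mono_left ih).trans (trunc_mul _ _)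

lemma comp_trunc {m i : ℕ} (hi : i < m) {g : S} (hg : g ∈ truncIdeal 𝒜 m) :
    (DirectSum.decompose 𝒜 g i : S) = 0 := by
  have key : ∀ a, (DirectSum.decompose 𝒜 (a * g) i : S) = 0 := by
    induction hg using Submodule.span_induction with
    | mem x hx =>
      obtain ⟨n, hn, hx⟩ := hx
      exact fun a => DirectSum.coe_decompose_mul_of_right_mem_of_not_le 𝒜 hx (by omega)
    | zero => simp
    | add x y _ _ hx hy =>
      intro a
      rw [mul_add, DirectSum.decompose_add, DirectSum.add_apply, Submodule.coe_add, hx, hy, add_zero]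
    | smul b x _ hx =>
      intro a
      rw [smul_eq_mul, ← mul_assoc, hx]
  simpa using key 1

lemma mem_of_comp {J : Ideal S} {g : S} (h : ∀ i, (DirectSum.decompose 𝒜 g i : S) ∈ J) :
    g ∈ J := by
  classical
  rw [← DirectSum.sum_support_decompose 𝒜 g]
  exact Ideal.sum_mem _ fun i _ => h i

lemma sub_comp_mem {N : ℕ} {g : S} (hg : g ∈ truncIdeal 𝒜 N) :
    g - DirectSum.decompose 𝒜 g N ∈ truncIdeal 𝒜 (N + 1) := by
  refine mem_of_comp (𝒜 := 𝒜) fun i => ?_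
  rcases lt_trichotomy i N with h | rfl | h
  · rw [comp_trunc h (sub_mem hg (mem_trunc le_rfl (SetLike.coe_mem _)))]
    exact zero_mem _
  · rw [DirectSum.decompose_sub, DirectSum.sub_apply, Submodule.coe_sub,
      DirectSum.decompose_of_mem_same 𝒜 (SetLike.coe_mem _), sub_self]
    exact zero_mem _
  · exact mem_trunc h (SetLike.coe_mem _)

lemma mem_of_mem_sup_trunc {P : Ideal S} (hP : P.IsHomogeneous 𝒜) {m : ℕ} {z : S} (hz : z ∈ 𝒜 m)
    (h : z ∈ P ⊔ truncIdeal 𝒜 (m + 1)) : z ∈ P := by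
  obtain ⟨p, hp, w, hw, h1⟩ := Submodule.mem_sup.1 h
  have h2 := DirectSum.decompose_of_mem_same 𝒜 hz
  rw [← h1, DirectSum.decompose_add, DirectSum.add_apply, Submodule.coe_add,
    comp_trunc m.lt_succ_self hw, add_zero, h1] at h2
  exact h2 ▸ hP m hp

lemma IsReduction.bpf {N : ℕ} (hV : Bpf 𝒜 (𝒜 N)) {J : Ideal S}
    (h : IsReduction J (truncIdeal 𝒜 N)) :
    Bpf 𝒜 ((J.restrictScalars k).map (GradedAlgebra.proj 𝒜 N)) := by
  intro P hP hp hrel
  by_contra hc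
  push Not at hc
  obtain ⟨z, hz, hzP⟩ := hV P hP hp hrel
  obtain ⟨hle, r, hr⟩ := h
  have h1 : J ≤ P ⊔ truncIdeal 𝒜 (N + 1) := fun j hj => by
    rw [← add_sub_cancel (DirectSum.decompose 𝒜 j N : S) j]
    exact Submodule.add_mem_sup (hc _ ⟨j, hj, rfl⟩) (sub_comp_mem (hle hj))
  have h2 : truncIdeal 𝒜 N ^ (r + 1) ≤ P ⊔ truncIdeal 𝒜 ((r + 1) • N + 1) := by
    rw [← hr]
    refine (Ideal.mul_mono h1 (trunc_pow N r)).trans ?_
    rw [Ideal.sup_mul]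
    refine sup_le_sup Ideal.mul_le_left ((trunc_mul _ _).trans (trunc_anti (le_of_eq ?_)))
    rw [smul_eq_mul]; ring
  exact hzP (hp.mem_of_pow_mem _ (mem_of_mem_sup_trunc hP (SetLike.pow_mem_graded _ hz)
    (h2 (Ideal.pow_mem_pow (mem_trunc le_rfl hz) _))))

lemma lift_idl {J : Ideal S} {L : List (ℕ × S)}
    (hL : ∀ p ∈ L, p.2 ∈ 𝒜 p.1 ∧ p.2 ∈ J ⊔ truncIdeal 𝒜 (p.1 + 1)) {J' : Ideal S}
    (hJ' : J'.IsHomogeneous 𝒜) (h : ∀ m, ∀ g ∈ 𝒜 m, g ∈ J' → g ∈ J ⊔ truncIdeal 𝒜 (m + 1)) :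
    ∀ m, ∀ g ∈ 𝒜 m, g ∈ idl J' L → g ∈ J ⊔ truncIdeal 𝒜 (m + 1) := by
  induction L generalizing J' with
  | nil => exact h
  | cons p L ih =>
    obtain ⟨hp, hp'⟩ := hL p List.mem_cons_self
    refine ih (fun q hq => hL q (List.mem_cons_of_mem _ hq)) (sup_hom hJ' hp) fun m g hg hg' => ?_
    by_cases hm : m < p.1
    · exact h m g hg (mem_sup_hom_lt hJ' hp hm hg hg')
    · obtain ⟨m', rfl⟩ := Nat.exists_eq_add_of_le (not_lt.1 hm)
      obtain ⟨u, hu, h1⟩ := mem_sup_hom hJ' hp hg hg'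
      rw [← sub_add_cancel g (p.2 * u)]
      refine add_mem (h _ _ (sub_mem hg (SetLike.mul_mem_graded hp hu)) h1) ?_
      have h2 := Ideal.mul_mem_mul hp' (mem_trunc le_rfl hu)
      rw [Ideal.sup_mul] at h2
      have h3 : J * truncIdeal 𝒜 m' ⊔ truncIdeal 𝒜 (p.1 + 1) * truncIdeal 𝒜 m' ≤
          J ⊔ truncIdeal 𝒜 (p.1 + m' + 1) :=
        sup_le_sup Ideal.mul_le_left ((trunc_mul _ _).trans (trunc_anti (by omega)))
      exact h3 h2

lemma idl_le_mul {N : ℕ} {L : List (ℕ × S)} (hL : ∀ p ∈ L, p.1 = N ∧ p.2 ∈ 𝒜 N) {I : Ideal S}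
    (hI : ∀ p ∈ L, p.2 ∈ I) {J' : Ideal S} (hJ' : J'.IsHomogeneous 𝒜) {m : ℕ}
    (h : ∀ g ∈ 𝒜 (N + m), g ∈ J' → g ∈ I * truncIdeal 𝒜 m) :
    ∀ g ∈ 𝒜 (N + m), g ∈ idl J' L → g ∈ I * truncIdeal 𝒜 m := by
  induction L generalizing J' with
  | nil => exact h
  | cons p L ih =>
    obtain ⟨-, hp⟩ := hL p List.mem_cons_self
    refine ih (fun q hq => hL q (List.mem_cons_of_mem _ hq))
      (fun q hq => hI q (List.mem_cons_of_mem _ hq)) (sup_hom hJ' hp) fun g hg hg' => ?_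
    obtain ⟨u, hu, h1⟩ := mem_sup_hom hJ' hp hg hg'
    rw [← sub_add_cancel g (p.2 * u)]
    exact add_mem (h _ (sub_mem hg (SetLike.mul_mem_graded hp hu)) h1)
      (Ideal.mul_mem_mul (hI p List.mem_cons_self) (mem_trunc le_rfl hu))

/-- Systems of parameters of degree `N` generate reductions of `I_N`. -/
lemma isReduction_idl [IsNoetherianRing S] {N : ℕ} (hN : 0 < N) {L : List (ℕ × S)}
    (hL : ∀ p ∈ L, p.1 = N ∧ p.2 ∈ 𝒜 N) {s : ℕ} (h : ∀ m, s < m → ∀ x ∈ 𝒜 m, x ∈ idl ⊥ L) :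
    IsReduction (idl ⊥ L) (truncIdeal 𝒜 N) := by
  have hle : idl ⊥ L ≤ truncIdeal 𝒜 N := idl_le bot_le fun p hp => mem_trunc le_rfl (hL p hp).2
  let F : (idl ⊥ L).Filtration S :=
    { N := fun r => truncIdeal 𝒜 (N * r)
      mono := fun r => trunc_anti (Nat.mul_le_mul_left _ r.le_succ)
      smul_le := fun r => by
        rw [Ideal.smul_eq_mul, Nat.mul_succ, add_comm]
        exact (Ideal.mul_mono_left hle).trans (trunc_mul _ _) }
  let F' : (idl ⊥ L).Filtration S :=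
    { N := fun r => truncIdeal 𝒜 N ^ r
      mono := fun r => Ideal.pow_le_pow_right r.le_succ
      smul_le := fun r => by
        rw [Ideal.smul_eq_mul, pow_succ']
        exact Ideal.mul_mono_left hle }
  have hF : F.Stable := ⟨s, fun r hr => le_antisymm (F.smul_le r) (trunc_le fun n hn x hx => by
    have h1 : r + 1 ≤ N * (r + 1) := Nat.le_mul_of_pos_left _ hN
    rw [Nat.mul_succ] at hn h1
    obtain ⟨m, rfl⟩ : ∃ m, n = N + m := ⟨n - N, by omega⟩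
    rw [Ideal.smul_eq_mul]
    exact Ideal.mul_mono_right (trunc_anti (by omega)) (idl_le_mul hL (fun p hp => mem_idl ⊥ hp)
      bot_hom (fun g _ hg => by rw [show g = 0 from hg]; exact zero_mem _) x hx
      (h _ (by omega) x hx)))⟩
  obtain ⟨r, hr⟩ := hF.of_le (F' := F') fun r => trunc_pow N r
  exact ⟨hle, r, hr r le_rfl⟩

variable [hfin : ∀ m, FiniteDimensional k (𝒜 m)]

lemma top_of_reg {d r : ℕ} {h : Polynomial ℤ}
    (hh : (h : PowerSeries ℤ) = (1 - PowerSeries.X) ^ d * HS 𝒜 ⊥) (hdeg : h.natDegree + r = d)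
    (hh0 : h ≠ 0) {T : List (ℕ × S)} (hT : ∀ p ∈ T, 0 < p.1 ∧ p.2 ∈ 𝒜 p.1) (hlen : T.length = d)
    (hreg : Reg ⊥ T) {s : ℕ} (hs : s + r = (T.map Prod.fst).sum) : Top 𝒜 (idl ⊥ T) s := by
  have hT1 : ∀ p ∈ T, 0 < p.1 := fun p hp => (hT p hp).1
  have h1 : ((h * geo T : Polynomial ℤ) : PowerSeries ℤ) = HS 𝒜 (idl ⊥ T) := by
    rw [← den_mul_HS bot_hom (fun p hp => (hT p hp).2) hreg, den_eq, hlen]
    push_cast
    rw [hh]; ring
  have hG0 : geo T ≠ 0 := fun h0 => by simpa [h0] using geo_eval_pos hT1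
  have h2 : (h * geo T).natDegree = s := by
    have := (geo_pal hT1).1
    rw [Polynomial.natDegree_mul hh0 hG0]
    omega
  have hc : ∀ m, (h * geo T).coeff m = hf 𝒜 (idl ⊥ T) m := fun m => by
    rw [← Polynomial.coeff_coe, h1, HS, PowerSeries.coeff_mk]
  constructor
  · by_contra h3
    push Not at h3
    have h4 := hc s
    rw [hf_eq_zero_iff.2 h3, ← h2] at h4
    exact mul_ne_zero hh0 hG0 (Polynomial.leadingCoeff_eq_zero.1 h4)
  · intro m hm
    have h4 := hc m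
    rw [Polynomial.coeff_eq_zero_of_natDegree_lt (h2 ▸ hm)] at h4
    exact hf_eq_zero_iff.1 (by exact_mod_cast h4.symm)

omit [CommRing S] in
lemma sum_const {N : ℕ} {T : List (ℕ × S)} (hT : ∀ p ∈ T, p.1 = N) :
    (T.map Prod.fst).sum = T.length * N := by
  induction T with
  | nil => simp
  | cons p T ih =>
    rw [List.map_cons, List.sum_cons, ih fun q hq => hT q (List.mem_cons_of_mem _ hq),
      hT p List.mem_cons_self, List.length_cons]
    ring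

/-- Every reduction of `I_N` contains all forms of degree above `d N - r`. -/
theorem trunc_le_of_isReduction [Infinite k] [IsNoetherianRing S] {d r : ℕ} {h : Polynomial ℤ}
    (hh : (h : PowerSeries ℤ) = (1 - PowerSeries.X) ^ d * HS 𝒜 ⊥) (hdeg : h.natDegree + r = d)
    (hh0 : h ≠ 0) (hgood : Good 𝒜 ⊥ d) {N : ℕ} (hN : 0 < N) (hV : Bpf 𝒜 (𝒜 N)) {s : ℕ}
    (hs : s + r = d * N) {J : Ideal S} (hJ : IsReduction J (truncIdeal 𝒜 N)) :
    truncIdeal 𝒜 (s + 1) ≤ J := by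
  have hVN : (J.restrictScalars k).map (GradedAlgebra.proj 𝒜 N) ≤ 𝒜 N := by
    rintro _ ⟨j, -, rfl⟩
    exact SetLike.coe_mem _
  obtain ⟨T, hT, hlen, hreg⟩ := hgood.exists_seq hN (hJ.bpf hV) hVN bot_hom
  have ht := top_of_reg hh hdeg hh0 (fun p hp => by
    rw [(hT p hp).1]; exact ⟨hN, hVN (hT p hp).2⟩) hlen hreg (s := s)
    (by rw [sum_const fun p hp => (hT p hp).1, hlen, hs])
  have h1 := lift_idl (𝒜 := 𝒜) (J := J) (L := T) (fun p hp => by
    obtain ⟨h1, j, hj, h2⟩ := hT p hp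
    rw [h1]
    refine ⟨hVN ⟨j, hj, h2⟩, ?_⟩
    rw [← h2, GradedAlgebra.proj_apply, ← sub_sub_cancel j (DirectSum.decompose 𝒜 j N : S)]
    exact sub_mem (Ideal.mem_sup_left hj) (Ideal.mem_sup_right (sub_comp_mem (hJ.1 hj)))) bot_hom
    fun m g _ hg => by rw [show g = 0 from hg]; exact zero_mem _
  obtain ⟨-, n, hn⟩ := hJ
  have hpow : ∀ i, (truncIdeal 𝒜 N ^ i).IsHomogeneous 𝒜 := fun i => by
    induction i with
    | zero => rw [pow_zero, Ideal.one_eq_top]; exact Ideal.IsHomogeneous.top 𝒜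
    | succ i ih => rw [pow_succ]; exact ih.mul (trunc_hom N)
  obtain ⟨M, hM⟩ := exists_mem_of_primes (hpow (n + 1)) fun P hP hp hle m hm x hx => by
    by_contra hxP
    obtain ⟨z, hz, hzP⟩ := hV P hP hp ⟨m, hm, x, hx, hxP⟩
    exact hzP (hp.mem_of_pow_mem _ (hle (Ideal.pow_mem_pow (mem_trunc le_rfl hz) _)))
  have h2 : ∀ i, truncIdeal 𝒜 (s + 1 + i) ≤ J → truncIdeal 𝒜 (s + 1) ≤ J := fun i => by
    induction i with
    | zero => exact id
    | succ i ih =>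
      refine fun h3 => ih (trunc_le fun m hm x hx => ?_)
      rcases hm.eq_or_lt with rfl | hm
      · exact sup_le le_rfl h3 (h1 _ x hx (ht.2 _ (by omega) x hx))
      · exact h3 (mem_trunc hm hx)
  rw [← hn] at hM
  exact h2 M (trunc_le fun m hm x hx => Ideal.mul_le_left (hM m (by omega) x hx))

end Pool.Agent.Lib.MP_954e53_ag
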