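import Pool.Agent.Lib.MP_954e53_ag.Cert19A
import Pool.Agent.Lib.MP_954e53_ag.Cert19B
import Pool.Agent.Lib.MP_954e53_ag.Cert19C
import Pool.Agent.Lib.MP_954e53_ag.Large

/-! The numerical data cannot exist in codimension at most nineteen. -/

namespace Pool.Agent.Lib.MP_954e53_ag

theorem not_data_19 {d r : ℕ} (hr : 1 ≤ r) (W : List ℕ) (H : ℕ → ℕ) (h : Polynomial ℤ) :
    ¬ Data 19 d r W H h := by
  intro D
  by_cases hd : 40 ≤ d
  · exact not_data_large hr hd W H h D
  have h1 := hr.trans D.hrd
  rw [not_le] at hd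
  interval_cases d
  exacts [okD_sound D hr ok19_1, okD_sound D hr ok19_2, okD_sound D hr ok19_3,
    okD_sound D hr ok19_4, okD_sound D hr ok19_5, okD_sound D hr ok19_6, okD_sound D hr ok19_7,
    okD_sound D hr ok19_8, okD_sound D hr ok19_9, okD_sound D hr ok19_10, okD_sound D hr ok19_11,
    okD_sound D hr ok19_12, okD_sound D hr ok19_13, okD_sound D hr ok19_14, okD_sound D hr ok19_15,
    okD_sound D hr ok19_16, okD_sound D hr ok19_17, okD_sound D hr ok19_18, okD_sound D hr ok19_19,
    okD_sound D hr ok19_20, okD_sound D hr ok19_21, okD_sound D hr ok19_22, okD_sound D hr ok19_23,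
    okD_sound D hr ok19_24, okD_sound D hr ok19_25, okD_sound D hr ok19_26, okD_sound D hr ok19_27,
    okD_sound D hr ok19_28, okD_sound D hr ok19_29, okD_sound D hr ok19_30, okD_sound D hr ok19_31,
    okD_sound D hr ok19_32, okD_sound D hr ok19_33, okD_sound D hr ok19_34, okD_sound D hr ok19_35,
    okD_sound D hr ok19_36, okD_sound D hr ok19_37, okD_sound D hr ok19_38,
    okD_sound D hr ok19_39]

end Pool.Agent.Lib.MP_954e53_ag
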